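import Pool.Agent.H96.S.CuB

/-!
# The data of a curve: construction
-/

set_option autoImplicit false
set_option linter.unusedSectionVars false

namespace Pool.Agent.H96.S

open MvPolynomial Pool.Agent.H96.VL Pool.Agent.H96.W Pool.Agent.H96.W0 Pool.Agent.H96.W4
open Pool.Agent.H96.W2 (wp wp_sub wp_le val_const_le val_const Scalar)
open scoped Pointwise

section Gens

variable {F : Type} [Field F] {W : ValuationSubring F}

theorem gen_xf [DecidableEq F] {x : F} (hx : x ≠ 0) (N m : ℕ) (W : ValuationSubring F) :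
    Gen W.toSubring (Finset.univ.image fun l => xf x N l ^ m) (xf x N (jW x W) ^ m) := by
  have h0 : xf x N (jW x W) ^ m ≠ 0 := pow_ne_zero _ (xf_ne hx N _)
  refine ⟨h0, fun g hg => ?_, _, Finset.mem_image_of_mem _ (Finset.mem_univ (jW x W)),
    by rw [div_self h0]; exact W.one_mem, h0⟩
  obtain ⟨l, -, rfl⟩ := Finset.mem_image.mp hg
  rw [← div_pow]
  exact Subring.pow_mem _ (ratio_xf hx N W l) _

theorem crat_xf {x : F} (hx : x ≠ 0) (N m : ℕ) (W : ValuationSubring F) (l : Bool) :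
    xf x N l ^ m / xf x N (jW x W) ^ m ∈ W.toSubring := by
  rw [← div_pow]
  exact Subring.pow_mem _ (ratio_xf hx N W l) _

/-- The sets of the coordinate. -/
theorem gen_T [DecidableEq F] {x τ : F} {T : Finset F} (hx : x ≠ 0) (hτ : τ ≠ 0) {N Lo : ℕ}
    (hLo : 1 ≤ Lo)
    (h1 : ∀ g ∈ T, W.valuation g ≤ W.valuation (τ * tw x N W))
    (h2 : ∃ g ∈ T, W.valuation g = W.valuation (τ * tw x N W)) :
    Gen W.toSubring T (τ * xf x N (jW x W)) ∧
    Gen W.toSubring (T * Finset.univ.image fun l => xf x N l ^ (Lo - 1))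
      (τ * xf x N (jW x W) ^ Lo) := by
  rw [← xf_jW] at h1 h2
  have h3 := gen_ws (mul_ne_zero hτ (xf_ne hx N (jW x W))) h1 h2
  refine ⟨h3, ?_⟩
  have h4 := h3.mul (gen_xf hx N (Lo - 1) W)
  have h5 : τ * xf x N (jW x W) * xf x N (jW x W) ^ (Lo - 1) = τ * xf x N (jW x W) ^ Lo := by
    rw [mul_assoc, ← pow_succ', Nat.sub_add_cancel hLo]
  rwa [h5] at h4

end Gens

section Cfd

variable (p : ℕ) [Fact p.Prime] (F : Type) [Field F] [Algebra (ZMod p) F]
  [Algebra.EssFiniteType (ZMod p) F] (htr : Algebra.trdeg (ZMod p) F = 1)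

include htr

theorem unif_or {W : ValuationSubring F} {τ : F} (h : τ = 1 ∨ Unif W τ) : τ ≠ 0 := by
  rcases h with h | h
  · rw [h]; exact one_ne_zero
  · exact h.t0

/-- **The data of a curve in the inseparable case.** -/
theorem exists_cfd_on {r : ℕ} (f : F) (hf : ∀ a : F, a ^ p ≠ f) (h : Fin r → F)
    (hh : ∀ c, h c ≠ 0) : ∃ M : ℕ, ∀ M', M ≤ M' →
      Nonempty (FD p false true F Unit Bool 1 r M' f h) := by
  classical
  have hcF := charP_F p F
  have hp : p.Prime := Fact.out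
  obtain ⟨M, hM⟩ := nonempty_cd4 p (ZMod p) F htr (m₁ := 0) (m₂ := 1) 1 (fun _ => 0) f
    (fun _ => 1) (fun _ => hf) h hh (sc_ins p (ZMod p) F htr _ _ f _ hf)
  set Lo := max M 1 with hLo
  obtain ⟨C⟩ := hM Lo (le_max_right _ _)
  have hLo1 : 1 ≤ Lo := le_max_right _ _
  refine ⟨Lo, fun M' hM' => ⟨⟨fun j => xf C.x C.N j ^ Lo, fun j => pow_ne_zero _ (xf_ne C.x0 _ _),
    fun j => cond j C.q1 C.q0,
    fun _ => C.T * Finset.univ.image fun l => xf C.x C.N l ^ (Lo - 1), C.T ^ Lo, C.base,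
    fun s hs => ?_, fun W => ?_⟩⟩⟩
  · obtain ⟨h0, g, hg⟩ := C.zero_base s hs
    exact ⟨g, hg, by rintro rfl; exact h0 hg⟩
  obtain ⟨τ, hτ, hT1, hT2, hx1, hx2, ε, φ, c, κ, hLF, hpres⟩ := C.loc W
  have hD : (fun _ => 1 : Fin 1 → ZMod p) ≠ 0 := fun h0 => one_ne_zero (congrFun h0 0)
  have hτ0 := unif_or p F htr hτ
  obtain ⟨gT0, gT⟩ := gen_T C.x0 hτ0 hLo1 hT1 hT2
  have hφ : φ = f - (cond (jW C.x W) C.q1 C.q0) ^ p := by rw [gg_jW]; exact hLF.φD hD
  have hMM : (M : ℤ) ≤ M' := by exact_mod_cast (le_max_left M 1).trans hM'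
  suffices hL : ∃ L : FL p false true 1 r M' f h (fun j => xf C.x C.N j ^ Lo)
      (fun j => cond j C.q1 C.q0)
      (fun _ => C.T * Finset.univ.image fun l => xf C.x C.N l ^ (Lo - 1)) (C.T ^ Lo) W,
      L.R = W.toSubring by
    obtain ⟨L, hL⟩ := hL
    exact ⟨L, fun s hs => by rw [hL]; exact prin_ws (C.zero_base s hs).1 (C.zero_base s hs).2,
      fun R' hR' hP => by
        rw [hL]
        intro w hw
        exact C.detect W R' hR' hP w (mem_ws.mp hw)⟩
  have htyp : (τ = 1 ∧ ε = 0) ∨ (Unif W τ ∧ ¬ (p : ℤ) ∣ ε ∧ W.valuation (φ * τ ^ (-ε)) = 1) := by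
    rcases hLF.ty with ⟨-, h2, -⟩ | ⟨h1, h2, -⟩ | ⟨h1, h2, h3, -⟩
    · exact absurd h2 hD
    · exact Or.inl ⟨h2, h1⟩
    · exact Or.inr ⟨h3, h1, h2⟩
  refine exists_fl_curve (τ := τ) (U := φ * τ ^ (-ε)) (act := true) (ε := ε) (β := Lo) (κ := κ)
    (j := jW C.x W) hτ (fun E hE => ?_) hLF.le (fun _ => ?_) (fun _ => rfl)
    (fun h => absurd h (by decide)) (fun h => absurd h (by decide)) ?_ (hLF.εM.trans hMM) ?_
    (fun b => (hLF.κM b).trans hMM) ?_ hLF.κ1 (fun l => crat_xf C.x0 _ _ W l) gT (fun _ => ?_)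
    (fun _ l => ?_) (fun h => absurd h (by decide))
  · obtain ⟨n, y, G, l, h1, h2, h3, h4⟩ := hpres E hE
    refine ⟨n, y, G, l, h1, h2, h3, fun _ h5 => ?_⟩
    rw [h4 hD h5, h5, one_zpow, mul_one]
  · rcases htyp with ⟨h1, -⟩ | h1
    · exact Or.inr h1
    · exact Or.inl h1
  · have h1 := (abs_le.mp hLF.εM).2
    have h2 : (M : ℤ) ≤ Lo := by exact_mod_cast le_max_left _ _
    have h3 : (Lo : ℤ) ≤ p * Lo := by exact_mod_cast Nat.le_mul_of_pos_left _ hp.pos
    linarith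
  · rw [Nat.abs_cast]; exact_mod_cast hM'
  · show f - cond (jW C.x W) C.q1 C.q0 ^ p + 0 = φ * τ ^ (-ε) * τ ^ ε
    rw [add_zero, mul_assoc, ← zpow_add₀ hτ0, neg_add_cancel, zpow_zero, mul_one, hφ]
  · have h1 := gT0.pow Lo
    have h2 : (τ * xf C.x C.N (jW C.x W)) ^ Lo =
        xf C.x C.N (jW C.x W) ^ Lo * τ ^ (Lo : ℤ) := by
      rw [mul_pow, zpow_natCast, mul_comm]
    rwa [h2] at h1
  · rw [zpow_natCast, div_ws (pow_ne_zero _ hτ0), map_pow]
    exact diff_xf C.x0 (fun hW => (hx1 hW).2) (fun hW => (hx2 hW).2) l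

/-- **The data of a curve, the case without function.** -/
theorem exists_cfd_off {r : ℕ} (f q₀ : F) (hf : f = q₀ ^ p) (h : Fin r → F)
    (hh : ∀ c, h c ≠ 0) : ∃ M : ℕ, ∀ M', M ≤ M' →
      Nonempty (FD p false false F Unit Bool 1 r M' f h) := by
  classical
  have hcF := charP_F p F
  obtain ⟨M, hM⟩ := nonempty_cd4 p (ZMod p) F htr (m₁ := 0) (m₂ := 0) 1 (fun _ => 0) 0
    (fun _ => 0) (fun h => absurd (Subsingleton.elim _ _) h) h hh (fun W _ =>
      ⟨0, 0, fun _ => 0, Or.inl (by rw [map_zero]; exact zero_le),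
        fun h => absurd (Subsingleton.elim _ _) h, fun a => a.elim0⟩)
  obtain ⟨C⟩ := hM 1 le_rfl
  refine ⟨M, fun M' hM' => ⟨⟨fun j => xf C.x C.N j ^ 1, fun j => pow_ne_zero _ (xf_ne C.x0 _ _),
    fun _ => q₀, fun _ => C.T * Finset.univ.image fun l => xf C.x C.N l ^ (1 - 1),
    ∅, C.base, fun s hs => ?_, fun W => ?_⟩⟩⟩
  · obtain ⟨h0, g, hg⟩ := C.zero_base s hs
    exact ⟨g, hg, by rintro rfl; exact h0 hg⟩
  obtain ⟨τ, hτ, hT1, hT2, hx1, hx2, ε, φ, c, κ, hLF, hpres⟩ := C.loc W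
  have hτ0 := unif_or p F htr hτ
  obtain ⟨gT0, gT⟩ := gen_T C.x0 hτ0 le_rfl hT1 hT2
  have hMM : (M : ℤ) ≤ M' := by exact_mod_cast hM'
  have hL : ∃ L : FL p false false 1 r M' f h (fun j => xf C.x C.N j ^ 1)
      (fun _ => q₀) (fun _ : Unit => C.T * Finset.univ.image fun l => xf C.x C.N l ^ (1 - 1)) ∅ W,
      L.R = W.toSubring := by
    refine exists_fl_curve (τ := τ) (U := 0) (act := false) (ε := 0) (β := 0) (κ := κ)
      (j := jW C.x W) hτ (fun E hE => ?_) (by rw [map_zero]; exact zero_le)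
      (fun h => absurd h (by decide)) (fun _ => rfl)
      (fun h => absurd h (by decide)) (fun _ => rfl) (by rw [mul_zero])
      (by rw [abs_zero]; positivity) (by rw [abs_zero]; positivity)
      (fun b => (hLF.κM b).trans hMM) ?_ hLF.κ1 (fun l => crat_xf C.x0 _ _ W l) gT
      (fun h => absurd h (by decide)) (fun h => absurd h (by decide)) (fun _ _ => rfl)
    · obtain ⟨n, y, G, l, h1, h2, h3, h4⟩ := hpres E hE
      exact ⟨n, y, G, l, h1, h2, h3, fun h => absurd h (by decide)⟩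
    · show f - q₀ ^ p + 0 = 0
      rw [hf, sub_self, add_zero]
  obtain ⟨L, hL⟩ := hL
  exact ⟨L, fun s hs => by rw [hL]; exact prin_ws (C.zero_base s hs).1 (C.zero_base s hs).2,
    fun R' hR' hP => by
      rw [hL]
      intro w hw
      exact C.detect W R' hR' hP w (mem_ws.mp hw)⟩

/-- **The data of a curve in the Artin–Schreier case.** -/
theorem exists_cfd_as {r : ℕ} (on : Bool) (f : F) (h : Fin r → F)
    (hh : ∀ c, h c ≠ 0) : ∃ M : ℕ, ∀ M', M ≤ M' →
      Nonempty (FD p true on F Unit Bool 1 r M' f h) := by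
  classical
  have hcF := charP_F p F
  obtain ⟨M, hM⟩ := nonempty_cd4 p (ZMod p) F htr (m₁ := 1) (m₂ := 0) 1 (fun _ => f) 0
    (fun _ => 0) (fun h => absurd (Subsingleton.elim _ _) h) h hh (sc_as p (ZMod p) F htr _ _ _)
  obtain ⟨C⟩ := hM 1 le_rfl
  refine ⟨M, fun M' hM' => ⟨⟨fun j => xf C.x C.N j ^ 1, fun j => pow_ne_zero _ (xf_ne C.x0 _ _),
    fun j => cond j (C.g1 0) (C.g0 0),
    fun _ => C.T * Finset.univ.image fun l => xf C.x C.N l ^ (1 - 1),
    Finset.univ.image fun l => xf C.x C.N l ^ 1, C.base, fun s hs => ?_, fun W => ?_⟩⟩⟩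
  · obtain ⟨h0, g, hg⟩ := C.zero_base s hs
    exact ⟨g, hg, by rintro rfl; exact h0 hg⟩
  obtain ⟨τ, hτ, hT1, hT2, hx1, hx2, ε, φ, c, κ, hLF, hpres⟩ := C.loc W
  have hτ0 := unif_or p F htr hτ
  obtain ⟨gT0, gT⟩ := gen_T C.x0 hτ0 le_rfl hT1 hT2
  have hMM : (M : ℤ) ≤ M' := by exact_mod_cast hM'
  set Q := cond (jW C.x W) (C.g1 0) (C.g0 0) with hQ
  set ψ := f - Q ^ p + Q with hψ
  have hreg : W.valuation (ψ - algebraMap (ZMod p) F (c 0) * φ) ≤ 1 := by
    have h1 := hLF.reg 0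
    have h2 : wp p (1 : Matrix (Fin 1) (Fin 1) (ZMod p))
        (fun a => gg C.x (C.g0 a) (C.g1 a) W) 0 = Q ^ p - Q := by
      rw [wp, Fin.sum_univ_one, Matrix.one_apply_eq, map_one, one_mul, hQ, gg_jW]
    rw [h2] at h1
    have h3 : ψ - algebraMap (ZMod p) F (c 0) * φ =
        f - (Q ^ p - Q) - algebraMap (ZMod p) F (c 0) * φ := by rw [hψ]; ring
    rw [h3]
    exact h1
  -- the two types
  obtain ⟨act, ε', hact, hact'⟩ : ∃ (act : Bool) (ε' : ℤ),
      (act = false → ε' = 0 ∧ W.valuation ψ ≤ 1) ∧ (act = true → ε' = ε ∧ Unif W τ ∧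
        ¬ (p : ℤ) ∣ ε ∧ ε < 0 ∧ W.valuation (ψ * τ ^ (-ε)) = 1) := by
    by_cases hc : c 0 = 0
    · refine ⟨false, 0, fun _ => ⟨rfl, ?_⟩, fun h => absurd h (by decide)⟩
      rwa [hc, map_zero, zero_mul, sub_zero] at hreg
    · refine ⟨true, ε, fun h => absurd h (by decide), fun _ => ?_⟩
      rcases hLF.ty with ⟨h1, -⟩ | ⟨-, -, h1, -⟩ | ⟨h1, h2, h3, h4⟩
      · exact absurd (congrFun h1 0) hc
      · exact absurd (congrFun h1 0) hc
      · have hε : ε < 0 := by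
          rcases lt_trichotomy ε 0 with h5 | h5 | h5
          · exact h5
          · exact absurd (by rw [h5]; exact dvd_zero _) h1
          · exact absurd (congrFun (h4 h5) 0) hc
        refine ⟨rfl, h3, h1, hε, ?_⟩
        have h5 : ψ * τ ^ (-ε) = algebraMap (ZMod p) F (c 0) * (φ * τ ^ (-ε)) +
            (ψ - algebraMap (ZMod p) F (c 0) * φ) * τ ^ (-ε) := by ring
        have h6 : W.valuation (algebraMap (ZMod p) F (c 0) * (φ * τ ^ (-ε))) = 1 := by
          rw [map_mul, val_const W hc, one_mul, h2]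
        have h7 : W.valuation ((ψ - algebraMap (ZMod p) F (c 0) * φ) * τ ^ (-ε)) < 1 := by
          rw [map_mul, map_zpow₀]
          obtain ⟨m, hm⟩ := Int.eq_ofNat_of_zero_le (neg_nonneg.mpr hε.le)
          have hm0 : m ≠ 0 := by
            rintro rfl
            rw [Nat.cast_zero] at hm
            omega
          rw [hm, zpow_natCast]
          exact (mul_le_mul' hreg le_rfl).trans_lt (by
            rw [one_mul]
            exact pow_lt_one₀ zero_le h3.lt hm0)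
        rw [h5, W.valuation.map_add_eq_of_lt_left (by rw [h6]; exact h7), h6]
  have hL : ∃ L : FL p true on 1 r M' f h (fun j => xf C.x C.N j ^ 1)
      (fun j => cond j (C.g1 0) (C.g0 0))
      (fun _ : Unit => C.T * Finset.univ.image fun l => xf C.x C.N l ^ (1 - 1))
      (Finset.univ.image fun l => xf C.x C.N l ^ 1) W,
      L.R = W.toSubring := by
    refine exists_fl_curve (τ := τ) (U := ψ * τ ^ (-ε')) (act := act) (ε := ε') (β := 0) (κ := κ)
      (j := jW C.x W) hτ (fun E hE => ?_) ?_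
      (fun h => ?_) (fun h => absurd h (by decide))
      (fun _ h => ?_) (fun h => (hact h).1) ?_
      ?_ (by rw [abs_zero]; positivity)
      (fun b => (hLF.κM b).trans hMM) ?_ hLF.κ1 (fun l => crat_xf C.x0 _ _ W l) gT
      (fun _ => ?_) (fun _ l => ?_) (fun h => absurd h (by rw [Bool.true_or]; decide))
    · obtain ⟨n, y, G, l, h1, h2, h3, h4⟩ := hpres E hE
      refine ⟨n, y, G, l, h1, h2, h3, fun h5 h6 => ?_⟩
      have h7 := (hact' h5).2.1
      rw [h6] at h7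
      exact absurd h7 not_unif_one
    · rcases Bool.eq_false_or_eq_true act with h5 | h5
      · rw [(hact' h5).1, (hact' h5).2.2.2.2]
      · rw [(hact h5).1, neg_zero, zpow_zero, mul_one]
        exact (hact h5).2
    · obtain ⟨h5, h6, h7, -, h8⟩ := hact' h
      left
      exact ⟨h6, by rw [h5]; exact h7, by rw [h5]; exact h8⟩
    · obtain ⟨h5, h6, h7, h9, h8⟩ := hact' h
      rw [h5, map_zpow₀]
      obtain ⟨m, hm⟩ : ∃ m : ℕ, ε' = -((m + 1 : ℕ) : ℤ) := by
        refine ⟨(-ε' - 1).toNat, ?_⟩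
        push_cast
        rw [Int.toNat_of_nonneg (by omega)]
        ring
      rw [← h5, hm, zpow_neg, zpow_natCast]
      exact (one_lt_inv₀ (pow_pos (zero_lt_iff.mpr ((Valuation.ne_zero_iff _).mpr hτ0)) _)).mpr
        (pow_lt_one₀ zero_le h6.lt m.succ_ne_zero)
    · rcases Bool.eq_false_or_eq_true act with h5 | h5
      · rw [(hact' h5).1, mul_zero]; exact (hact' h5).2.2.2.1.le
      · rw [(hact h5).1, mul_zero]
    · rcases Bool.eq_false_or_eq_true act with h5 | h5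
      · rw [(hact' h5).1]; exact hLF.εM.trans hMM
      · rw [(hact h5).1, abs_zero]; positivity
    · show f - Q ^ p + Q = cond (true || act) (ψ * τ ^ (-ε') * τ ^ ε') 0
      rw [Bool.true_or]
      show f - Q ^ p + Q = ψ * τ ^ (-ε') * τ ^ ε'
      rw [mul_assoc, ← zpow_add₀ hτ0, neg_add_cancel, zpow_zero, mul_one]
    · rw [zpow_zero, mul_one]
      exact gen_xf C.x0 _ _ W
    · rw [zpow_zero, div_one]
      refine mem_ws.mpr (diff_xf C.x0 (fun hW => ?_) (fun hW => ?_) l)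
      · exact (hx1 hW).1 0
      · exact (hx2 hW).1 0
  obtain ⟨L, hL⟩ := hL
  exact ⟨L, fun s hs => by rw [hL]; exact prin_ws (C.zero_base s hs).1 (C.zero_base s hs).2,
    fun R' hR' hP => by
      rw [hL]
      intro w hw
      exact C.detect W R' hR' hP w (mem_ws.mp hw)⟩

end Cfd

end Pool.Agent.H96.S
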