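import Pool.Agent.H96.S.SFe

/-!
# The data of a rational surface: construction
-/

set_option autoImplicit false
set_option linter.unusedSectionVars false

namespace Pool.Agent.H96.S

open Pool.Agent.H96.VL Pool.Agent.H96.W

section Main

variable {p : ℕ} [hp : Fact p.Prime] {F : Type} [Field F] [Algebra (ZMod p) F] [CharP F p]
  {s : Finset F} {A : Type} [Fintype A] [DecidableEq A] {t : A → ValuationSubring F → F} {f : F}
  {G : Finset F}

theorem tc_ne {cx cy : Option A} {x y : F} (hx : x ≠ 0) (hy : y ≠ 0) (a : A) :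
    tc cx cy x y a ≠ 0 := mul_ne_zero (ite_ne' hx) (ite_ne' hy)

/-- The colours on two charts. -/
theorem tc_div (hs : ∀ g ∈ s, g ≠ 0) {W : ValuationSubring F} {f' : F} (C C' : Chart p s t 0 f' G ∅)
    (hW : Vle W C.B) (hW' : Vle W C'.B) (a : A) :
    tc C'.cx C'.cy C'.x C'.y a / tc C.cx C.cy C.x C.y a ∈ vl W C.B := by
  have h1 := (C.col a W hW).symm.trans (C'.col a W hW')
  rw [← C.Lc_eq hs hW]
  exact h1.ba

/-- Generators of the sets of sections. -/
theorem gen_sec {J : Type} [Fintype J] [DecidableEq F] {B : J → Subring F} {c e : J → F}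
    (hc : ∀ j, c j ≠ 0) (he : ∀ j, e j ≠ 0) (h : ∀ j l, c l / c j * (e l / e j) ∈ B j) (j : J) :
    Gen (B j) (Finset.univ.image fun l => c l * e l) (c j * e j) := by
  have h0 : c j * e j ≠ 0 := mul_ne_zero (hc j) (he j)
  refine ⟨h0, fun g hg => ?_, _, Finset.mem_image_of_mem _ (Finset.mem_univ j),
    by rw [div_self h0]; exact (B j).one_mem, h0⟩
  obtain ⟨l, -, rfl⟩ := Finset.mem_image.mp hg
  rw [mul_div_mul_comm]
  exact h j l

/-- **The data of a surface in the inseparable case.** -/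
theorem exists_fd_on (hs : ∀ g ∈ s, g ≠ 0)
    (H : ∀ W, ∃ C : Chart p s t 0 f G ∅, Vle W C.B ∧ C.Good) {r : ℕ} (h : Fin r → F)
    (hh : ∀ c, h c ∈ G) : ∃ (J : Type) (_ : Finite J) (M : ℕ), ∀ M', M ≤ M' →
      Nonempty (FD p false true F A J 2 r M' f h) := by
  classical
  obtain ⟨J, i3, C, c₀, hgood, hcov, hall⟩ := exists_cover hs H
  have i4 := Fintype.ofFinite J
  choose q u hu hq using fun j => (C j).exists_q
  -- the exponent
  obtain ⟨n, hn⟩ := hcov.exists_pow (ι := A ⊕ Bool)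
    (Sum.elim (fun a j l => tc (C l).cx (C l).cy (C l).x (C l).y a /
      tc (C j).cx (C j).cy (C j).x (C j).y a) fun b => cond b
        (fun j l => (C l).bt / (C j).bt) fun j l => (q j - q l) / (C j).bt) (by
    rintro (a | _ | _) j l W hW hW'
    · exact tc_div hs (C j) (C l) hW hW' a
    · -- the gauges
      refine (C j).div_bt hs hW ?_
      have hN := (C j).N_un hs hW (hgood j) (C l) hW' (hgood l)
      rw [(C j).Lc_eq hs hW] at hN
      have hN0 := (C j).N0
      have hul : u l ∈ vl W (C j).B := by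
        have h1 := (C l).lc W hW' (hu l)
        rwa [(C j).Lc_eq hs hW] at h1
      have h1 : (q j - q l) ^ p / (C j).N = (C l).N / (C j).N * u l - u j := by
        have h2 : f - q j ^ p = (C j).N * u j := hq j
        have h3 : f - q l ^ p = (C l).N * u l := hq l
        have h4 : (q j - q l) ^ p = (C l).N * u l - (C j).N * u j := by
          rw [sub_pow_char, ← h2, ← h3]; ring
        rw [h4]
        field_simp
      rw [h1]
      exact Subring.sub_mem _ (Subring.mul_mem _ hN.ba hul) (le_vl (hu j))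
    · -- the cutoffs
      refine (C j).div_bt hs hW ?_
      have hN := (C j).N_un hs hW (hgood j) (C l) hW' (hgood l)
      rw [(C j).Lc_eq hs hW] at hN
      obtain ⟨i, i', -, -, h1⟩ := (C l).exists_bt
      rw [h1, mul_div_right_comm]
      have hx := (C l).lc W hW' (C l).ec.hx
      have hy := (C l).lc W hW' (C l).ec.hy
      rw [(C j).Lc_eq hs hW] at hx hy
      exact Subring.mul_mem _ hN.ba (Subring.mul_mem _ (Subring.pow_mem _ hx _)
        (Subring.pow_mem _ hy _)))
  set m := max n 1 with hm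
  have hm0 : m ≠ 0 := by
    have := le_max_right n 1
    omega
  have hn' := hn m (le_max_left _ _)
  set c : J → F := fun j => c₀ j ^ m with hc
  have hcov' : Cov (fun j => (C j).B) c := hcov.pow hm0
  have hT : ∀ (a : A) j l, c l / c j * (tc (C l).cx (C l).cy (C l).x (C l).y a /
      tc (C j).cx (C j).cy (C j).x (C j).y a) ∈ (C j).B := by
    intro a j l
    have h1 := hn' (Sum.inl a) j l
    rw [div_pow] at h1
    exact h1
  have hS : ∀ j l, c l / c j * ((C l).bt / (C j).bt) ∈ (C j).B := by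
    intro j l
    have h1 := hn' (Sum.inr true) j l
    rw [div_pow] at h1
    exact h1
  have hQ : ∀ j l, c l / c j * (q j - q l) / (C j).bt ∈ (C j).B := by
    intro j l
    have h1 := hn' (Sum.inr false) j l
    rw [div_pow] at h1
    rw [mul_div_assoc]
    exact h1
  -- the exponents of the Kummer functions
  choose κx κy κx0 κy0 w hw hw' hw0 hwe using fun (j : J) (d : Fin r) => (C j).mn (h d) (hh d)
  obtain ⟨M₁, hM₁⟩ := exists_bound fun j : J => (C j).al
  obtain ⟨M₂, hM₂⟩ := exists_bound fun j : J => (C j).be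
  obtain ⟨M₃, hM₃⟩ := exists_bound fun j : J => cl p (C j).al
  obtain ⟨M₄, hM₄⟩ := exists_bound fun j : J => cl p (C j).be
  obtain ⟨M₅, hM₅⟩ := exists_bound fun x : J × Fin r => κx x.1 x.2
  obtain ⟨M₆, hM₆⟩ := exists_bound fun x : J × Fin r => κy x.1 x.2
  refine ⟨J, i3, M₁ + M₂ + M₃ + M₄ + M₅ + M₆, fun M' hM' => ⟨?_⟩⟩
  have hb : ∀ {z : ℤ} {m : ℕ}, |z| ≤ m → m ≤ M₁ + M₂ + M₃ + M₄ + M₅ + M₆ → |z| ≤ M' :=
    fun h1 h2 => h1.trans (by exact_mod_cast h2.trans hM')
  refine ⟨c, hcov'.c0, q, fun a => Finset.univ.image fun l =>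
    c l * tc (C l).cx (C l).cy (C l).x (C l).y a, Finset.univ.image fun l => c l * (C l).bt, {s},
    fun s' hs' => ?_, fun W => ?_⟩
  · rw [Finset.mem_singleton] at hs'
    obtain ⟨j, -⟩ := hall ⊤
    rw [hs']
    exact ⟨(C j).g, (C j).hg, hs _ (C j).hg⟩
  obtain ⟨j, hW⟩ := hall W
  have hne : ∃ g ∈ s, g ≠ 0 := ⟨(C j).g, (C j).hg, hs _ (C j).hg⟩
  have hx0 := (C j).ec.x0
  have hy0 := (C j).ec.y0
  have gT : ∀ a, Gen (C j).B (Finset.univ.image fun l =>
      c l * tc (C l).cx (C l).cy (C l).x (C l).y a)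
      (tc (C j).cx (C j).cy (C j).x (C j).y a * c j) := by
    intro a
    rw [mul_comm]
    exact gen_sec (B := fun j => (C j).B) (e := fun l => tc (C l).cx (C l).cy (C l).x (C l).y a)
      hcov'.c0 (fun l => tc_ne (C l).ec.x0 (C l).ec.y0 a) (hT a) j
  have gS : Gen (C j).B (Finset.univ.image fun l => c l * (C l).bt) (c j * (C j).bt) :=
    gen_sec (B := fun j => (C j).B) (e := fun l => (C l).bt) hcov'.c0 (fun l => (C l).bt0) hS j
  suffices hL : ∃ L : FL p false true 2 r M' f h c q (fun a => Finset.univ.image fun l =>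
      c l * tc (C l).cx (C l).cy (C l).x (C l).y a)
      (Finset.univ.image fun l => c l * (C l).bt) W, L.R = vl W (C j).B by
    obtain ⟨L, hL⟩ := hL
    have hlst := lst_Lc hne W
    rw [(C j).Lc_eq hs hW] at hlst
    refine ⟨L, fun s' hs' => ?_, fun R' hR' hP => ?_⟩
    · rw [Finset.mem_singleton] at hs'
      rw [hs', hL]
      exact hlst.pr
    · rw [hL]
      exact hlst.min R' hR' (hP s (Finset.mem_singleton_self _))
  -- one of the two derivatives is a unit
  have hg := hgood j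
  obtain ⟨b, hb', b₁, hb₁, b₂, hb₂, h1⟩ := (C j).mem_L.mp hg
  by_cases hv : W.valuation (fl (C j).cx (C j).x * (C j).Dx f /
      ((C j).x ^ (C j).al * (C j).y ^ (C j).be)) = 1
  · exact exists_fl_on' (C j).fg hW (C j).ec (C j).cxy (C j).al0 (C j).be0 (κx0 j) (κy0 j)
      (hu j) ⟨hb (hM₁ j) (by omega), hb (hM₃ j) (by omega), fun d => hb (hM₅ (j, d)) (by omega)⟩
      ⟨hb (hM₂ j) (by omega), hb (hM₄ j) (by omega), fun d => hb (hM₆ (j, d)) (by omega)⟩
      (hq j) hv (fun d => ⟨w j d, hw j d, hw' j d, hw0 j d, hwe j d⟩) (hcov'.rat j) gT gS (hQ j)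
  · have hv' : W.valuation (fl (C j).cy (C j).y * (C j).Dy f /
        ((C j).y ^ (C j).be * (C j).x ^ (C j).al)) = 1 := by
      rw [mul_comm ((C j).y ^ (C j).be)]
      refine le_antisymm (hW _ (C j).hw) (not_lt.mp fun h2 => ?_)
      have h3 := lt_of_le_of_ne (hW _ (C j).hv) hv
      have h4 : W.valuation (1 : F) < 1 := by
        rw [h1]
        refine W.valuation.map_add_lt (W.valuation.map_add_lt ?_ ?_) ?_
        · rw [zero_mul, zero_div, zero_mul, map_zero]; exact zero_lt_one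
        · rw [map_mul]
          exact (mul_le_mul' le_rfl (hW _ hb₁)).trans_lt (by rw [mul_one]; exact h3)
        · rw [map_mul]
          exact (mul_le_mul' le_rfl (hW _ hb₂)).trans_lt (by rw [mul_one]; exact h2)
      rw [map_one] at h4
      exact lt_irrefl _ h4
    refine exists_fl_on' (C j).fg hW (C j).ec.swap (fun a ha hb => (C j).cxy a hb ha) (C j).be0
      (C j).al0 (κy0 j) (κx0 j) (hu j)
      ⟨hb (hM₂ j) (by omega), hb (hM₄ j) (by omega), fun d => hb (hM₆ (j, d)) (by omega)⟩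
      ⟨hb (hM₁ j) (by omega), hb (hM₃ j) (by omega), fun d => hb (hM₅ (j, d)) (by omega)⟩
      (by rw [hq j]; ring) hv' (fun d => ⟨w j d, hw j d, hw' j d, hw0 j d, by rw [hwe j d]; ring⟩)
      (hcov'.rat j) (fun a => by rw [tc_swap]; exact gT a)
      (by rw [mul_comm ((C j).y ^ _)]; exact gS) (fun l => by
        rw [mul_comm ((C j).y ^ _)]; exact hQ j l)

/-- **The data of a surface, the case without function.** -/
theorem exists_fd_off (hs : ∀ g ∈ s, g ≠ 0)
    (H : ∀ W, ∃ C : Chart p s t 0 f G ∅, Vle W C.B ∧ C.Good) {r : ℕ} (h : Fin r → F)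
    (hh : ∀ c, h c ∈ G) (b : Bool) {f' q₀ : F} (hf' : f' - q₀ ^ p + cond b q₀ 0 = 0) :
    ∃ (J : Type) (_ : Finite J) (M : ℕ), ∀ M', M ≤ M' →
      Nonempty (FD p b false F A J 2 r M' f' h) := by
  classical
  obtain ⟨J, i3, C, c₀, hgood, hcov, hall⟩ := exists_cover hs H
  have i4 := Fintype.ofFinite J
  -- the exponent
  obtain ⟨n, hn⟩ := hcov.exists_pow (ι := A)
    (fun a j l => tc (C l).cx (C l).cy (C l).x (C l).y a /
      tc (C j).cx (C j).cy (C j).x (C j).y a) (fun a j l W hW hW' =>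
    tc_div hs (C j) (C l) hW hW' a)
  set m := max n 1 with hm
  have hm0 : m ≠ 0 := by
    have := le_max_right n 1
    omega
  have hn' := hn m (le_max_left _ _)
  set c : J → F := fun j => c₀ j ^ m with hc
  have hcov' : Cov (fun j => (C j).B) c := hcov.pow hm0
  have hT : ∀ (a : A) j l, c l / c j * (tc (C l).cx (C l).cy (C l).x (C l).y a /
      tc (C j).cx (C j).cy (C j).x (C j).y a) ∈ (C j).B := by
    intro a j l
    have h1 := hn' a j l
    rw [div_pow] at h1
    exact h1
  -- the exponents of the Kummer functions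
  choose κx κy κx0 κy0 w hw hw' hw0 hwe using fun (j : J) (d : Fin r) => (C j).mn (h d) (hh d)
  obtain ⟨M₅, hM₅⟩ := exists_bound fun x : J × Fin r => κx x.1 x.2
  obtain ⟨M₆, hM₆⟩ := exists_bound fun x : J × Fin r => κy x.1 x.2
  refine ⟨J, i3, M₅ + M₆, fun M' hM' => ⟨?_⟩⟩
  have hb : ∀ {z : ℤ} {m : ℕ}, |z| ≤ m → m ≤ M₅ + M₆ → |z| ≤ M' :=
    fun h1 h2 => h1.trans (by exact_mod_cast h2.trans hM')
  refine ⟨c, hcov'.c0, fun _ => q₀, fun a => Finset.univ.image fun l =>
    c l * tc (C l).cx (C l).cy (C l).x (C l).y a, Finset.univ.image fun l => c l * 1, {s},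
    fun s' hs' => ?_, fun W => ?_⟩
  · rw [Finset.mem_singleton] at hs'
    obtain ⟨j, -⟩ := hall ⊤
    rw [hs']
    exact ⟨(C j).g, (C j).hg, hs _ (C j).hg⟩
  obtain ⟨j, hW⟩ := hall W
  have hne : ∃ g ∈ s, g ≠ 0 := ⟨(C j).g, (C j).hg, hs _ (C j).hg⟩
  have gT : ∀ a, Gen (C j).B (Finset.univ.image fun l =>
      c l * tc (C l).cx (C l).cy (C l).x (C l).y a)
      (tc (C j).cx (C j).cy (C j).x (C j).y a * c j) := by
    intro a
    rw [mul_comm]
    exact gen_sec (B := fun j => (C j).B) (e := fun l => tc (C l).cx (C l).cy (C l).x (C l).y a)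
      hcov'.c0 (fun l => tc_ne (C l).ec.x0 (C l).ec.y0 a) (hT a) j
  have gS : Gen (C j).B (Finset.univ.image fun l => c l * 1) (c j) := by
    have h1 := gen_sec (B := fun j => (C j).B) (e := fun _ => (1 : F)) hcov'.c0
      (fun _ => one_ne_zero) (fun j l => by
        rw [div_one, mul_one]; exact hcov'.rat j l) j
    rwa [mul_one] at h1
  have hL : ∃ L : FL p b false 2 r M' f' h c (fun _ => q₀) (fun a => Finset.univ.image fun l =>
      c l * tc (C l).cx (C l).cy (C l).x (C l).y a)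
      (Finset.univ.image fun l => c l * 1) W, L.R = vl W (C j).B := by
    obtain ⟨E, hE⟩ := (C j).fg
    have hec := (C j).ec.vl (W := W)
    rw [hE] at hec gT gS hW ⊢
    refine exists_fl_off hW hec (C j).cxy (κx0 j) (κy0 j)
      (fun d => hb (hM₅ (j, d)) (by omega)) (fun d => hb (hM₆ (j, d)) (by omega))
      (j := j) (hcov'.c0 j) (fun _ => rfl) hf' (fun d => ?_) (fun l => ?_)
      (fun a => (gT a).mono le_vl) (gS.mono le_vl)
    · have h1 := hw j d
      have h2 := hw' j d
      rw [hE] at h1 h2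
      obtain ⟨h3, h4⟩ := mn_unt (A := A) (cx := none) (cy := none) (x := (C j).x) (y := (C j).y)
        (g := w j d) (i := 0) (j := 0) hW h1 h2 (hw0 j d)
      exact ⟨w j d, h3, h4, by rw [hwe j d]; ring⟩
    · have h1 := hcov'.rat j l
      have h2 : c l / c j ∈ (C j).B := h1
      rw [hE] at h2
      exact le_vl h2
  obtain ⟨L, hL⟩ := hL
  have hlst := lst_Lc hne W
  rw [(C j).Lc_eq hs hW] at hlst
  refine ⟨L, fun s' hs' => ?_, fun R' hR' hP => ?_⟩
  · rw [Finset.mem_singleton] at hs'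
    rw [hs', hL]
    exact hlst.pr
  · rw [hL]
    exact hlst.min R' hR' (hP s (Finset.mem_singleton_self _))

end Main

end Pool.Agent.H96.S
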