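import Pool.Agent.H96.S.Tra3
import Pool.Agent.H96.S.SFf
import Pool.Agent.H96.S.CuC
import Pool.Agent.H96.W2.Final

/-!
# The data of a factor: curves and rational surfaces
-/

set_option autoImplicit false
set_option linter.unusedSectionVars false

namespace Pool.Agent.H96.S

open Polynomial Pool.Agent.H96.VL

section Gn

variable {k F : Type} [Field k] [Field F] [Algebra k F] {u v : F}

theorem exists_ev_of_mem {w : F} (hw : w ∈ Algebra.adjoin k ({u, v} : Set F)) :
    ∃ a, ev k u v a = w := by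
  induction hw using Algebra.adjoin_induction with
  | mem x hx =>
    rcases hx with rfl | rfl
    · exact ⟨C X, ev_CX⟩
    · exact ⟨X, ev_X⟩
  | algebraMap c => exact ⟨C (C c), ev_CC c⟩
  | add x y _ _ hx hy =>
    obtain ⟨a, rfl⟩ := hx
    obtain ⟨b, rfl⟩ := hy
    exact ⟨a + b, map_add _ _ _⟩
  | mul x y _ _ hx hy =>
    obtain ⟨a, rfl⟩ := hx
    obtain ⟨b, rfl⟩ := hy
    exact ⟨a * b, map_mul _ _ _⟩

/-- Algebraically independent generators. -/
theorem gn_of (hi : AlgebraicIndependent k ![u, v])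
    (hg : ∀ w : F, ∃ a ∈ Algebra.adjoin k ({u, v} : Set F),
      ∃ b ∈ Algebra.adjoin k ({u, v} : Set F), w = a / b) : Gn k u v := by
  refine ⟨?_, fun w => ?_⟩
  · -- the comparison with polynomials in two variables
    let φ : k[X][X] →+* MvPolynomial (Fin 2) k :=
      eval₂RingHom ((aeval (MvPolynomial.X 0) : k[X] →ₐ[k] MvPolynomial (Fin 2) k) :
        k[X] →+* MvPolynomial (Fin 2) k) (MvPolynomial.X 1)
    let ψ : MvPolynomial (Fin 2) k →+* k[X][X] :=
      MvPolynomial.eval₂Hom ((C : k[X] →+* k[X][X]).comp (C : k →+* k[X])) ![C X, X]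
    have hC : ∀ a : k[X], φ (C a) = aeval (MvPolynomial.X 0) a := fun a => eval₂_C _ _
    have hX : φ X = MvPolynomial.X 1 := eval₂_X _ _
    have h1 : ψ.comp φ = RingHom.id _ := by
      apply Polynomial.ringHom_ext
      · intro a
        have h2 : (ψ.comp φ).comp C = (C : k[X] →+* k[X][X]) := by
          apply Polynomial.ringHom_ext
          · intro c
            show ψ (φ (C (C c))) = C (C c)
            rw [hC, aeval_C, MvPolynomial.algebraMap_eq]
            exact MvPolynomial.eval₂_C _ _ _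
          · show ψ (φ (C X)) = C X
            rw [hC, aeval_X]
            exact MvPolynomial.eval₂_X _ _ _
        exact RingHom.congr_fun h2 a
      · show ψ (φ X) = X
        rw [hX]
        exact MvPolynomial.eval₂_X _ _ _
    have h2 : ((MvPolynomial.aeval ![u, v] : MvPolynomial (Fin 2) k →ₐ[k] F) :
        MvPolynomial (Fin 2) k →+* F).comp φ = ev k u v := by
      apply Polynomial.ringHom_ext
      · intro a
        show MvPolynomial.aeval ![u, v] (φ (C a)) = _
        rw [hC, ev_C, ← AlgHom.comp_apply]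
        congr 1
        apply Polynomial.algHom_ext
        rw [AlgHom.comp_apply, aeval_X, aeval_X, MvPolynomial.aeval_X]
        rfl
      · show MvPolynomial.aeval ![u, v] (φ X) = _
        rw [hX, ev_X, MvPolynomial.aeval_X]
        rfl
    rw [← h2]
    rw [RingHom.coe_comp]
    refine Function.Injective.comp hi ?_
    exact Function.LeftInverse.injective (g := ψ) fun a => RingHom.congr_fun h1 a
  · obtain ⟨a, ha, b, hb, rfl⟩ := hg w
    obtain ⟨a, rfl⟩ := exists_ev_of_mem ha
    obtain ⟨b, rfl⟩ := exists_ev_of_mem hb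
    by_cases hb0 : b = 0
    · exact ⟨0, 1, one_ne_zero, by rw [hb0, map_zero, div_zero, zero_div]⟩
    · exact ⟨a, b, hb0, rfl⟩

end Gn

/-- Two generators of a field of transcendence degree two. -/
theorem gn_of_adjoin {k K : Type} [Field k] [Field K] [Algebra k K] {x y : K}
    (htr : Algebra.trdeg k (IntermediateField.adjoin k ({x, y} : Set K)) = 2) :
    ∃ u v : IntermediateField.adjoin k ({x, y} : Set K), Gn k u v := by
  set E := IntermediateField.adjoin k ({x, y} : Set K) with hE
  let u : E := ⟨x, IntermediateField.subset_adjoin _ _ (Or.inl rfl)⟩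
  let v : E := ⟨y, IntermediateField.subset_adjoin _ _ (Or.inr rfl)⟩
  have h1 : ∀ a ∈ Algebra.adjoin k ({x, y} : Set K),
      ∃ b ∈ Algebra.adjoin k ({u, v} : Set E), (b : K) = a := by
    intro a ha
    have h2 : ({x, y} : Set K) = E.val '' {u, v} := by
      rw [Set.image_pair]; rfl
    rw [h2, ← AlgHom.map_adjoin] at ha
    obtain ⟨b, hb, h3⟩ := ha
    exact ⟨b, hb, h3⟩
  have hg : ∀ w : E, ∃ a ∈ Algebra.adjoin k ({u, v} : Set E),
      ∃ b ∈ Algebra.adjoin k ({u, v} : Set E), w = a / b := by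
    intro w
    obtain ⟨r, hr, s, hs, h2⟩ := IntermediateField.mem_adjoin_iff_div.mp w.2
    obtain ⟨a, ha, rfl⟩ := h1 r hr
    obtain ⟨b, hb, rfl⟩ := h1 s hs
    exact ⟨a, ha, b, hb, Subtype.ext h2⟩
  refine ⟨u, v, gn_of ?_ hg⟩
  have h2 : Set.range ![u, v] = {u, v} := by
    ext w
    constructor
    · rintro ⟨i, rfl⟩
      fin_cases i
      · exact Or.inl rfl
      · exact Or.inr rfl
    · rintro (rfl | rfl)
      · exact ⟨0, rfl⟩
      · exact ⟨1, rfl⟩
  have h3 : Algebra.IsAlgebraic (Algebra.adjoin k (Set.range ![u, v])) E := by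
    rw [h2]
    refine ⟨fun w => ?_⟩
    obtain ⟨a, ha, b, hb, rfl⟩ := hg w
    have ha' : IsAlgebraic (Algebra.adjoin k ({u, v} : Set E)) a :=
      isAlgebraic_algebraMap (⟨a, ha⟩ : Algebra.adjoin k ({u, v} : Set E))
    have hb' : IsAlgebraic (Algebra.adjoin k ({u, v} : Set E)) b :=
      isAlgebraic_algebraMap (⟨b, hb⟩ : Algebra.adjoin k ({u, v} : Set E))
    rw [div_eq_mul_inv]
    exact ha'.mul hb'.inv
  refine (Algebra.IsAlgebraic.isTranscendenceBasis_of_le_trdeg_of_finite k ![u, v] ?_).1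
  rw [htr, Cardinal.mk_fin]
  exact le_rfl

theorem Gn.u_not_pow {k F : Type} [Field k] [Finite k] [Field F] [Algebra k F] {u v : F} {p : ℕ}
    [Fact p.Prime] [CharP F p] [CharP k p] (h : Gn k u v) (g : F) : g ^ p ≠ u := by
  intro hg
  obtain ⟨Du, Dv, hec, -, -⟩ := h.exists_ec (p := p)
  have h1 := hec.xx
  rw [← hg, Derivation.leibniz_pow, ← Nat.cast_smul_eq_nsmul F, CharP.cast_eq_zero, zero_smul] at h1
  exact zero_ne_one h1

/-- **The data of a factor.** -/
theorem exists_fd {p : ℕ} [Fact p.Prime] {k : Type} [Field k] [Finite k] [CharP k p] {K : Type}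
    [Field K] [Algebra k K] [Algebra (ZMod p) k] (F : IntermediateField k K)
    [Algebra (ZMod p) F] [IsScalarTower (ZMod p) k F] (b : Bool) {r : ℕ} (f : F) (h : Fin r → F)
    (hh : ∀ c, h c ≠ 0)
    (hF : (F.FG ∧ Algebra.trdeg k F = 1) ∨
      ((∃ x y : K, F = IntermediateField.adjoin k {x, y}) ∧ Algebra.trdeg k F = 2 ∧
        (b = true → ∃ q : F, f = q ^ p - q))) :
    ∃ (A : Type) (_ : Fintype A) (_ : DecidableEq A) (J : Type) (_ : Finite J) (d : ℕ) (on : Bool),
      (d : Cardinal.{0}) = Algebra.trdeg k F ∧ (on = false → b = false → ∃ q : F, f = q ^ p) ∧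
      ∃ M, ∀ M', M ≤ M' → Nonempty (FD p b on F A J d r M' f h) := by
  classical
  have := Fintype.ofFinite k
  have hcF : CharP F p := charP_of_injective_algebraMap (algebraMap k F).injective p
  rcases hF with ⟨h1, h2⟩ | ⟨⟨x, y, rfl⟩, h2, h3⟩
  · have i1 : Algebra.EssFiniteType k F := IntermediateField.essFiniteType_iff.mpr h1
    have i2 : Algebra.EssFiniteType (ZMod p) F := Algebra.EssFiniteType.comp (ZMod p) k F
    have htr := Pool.Agent.H96.W2.trdeg_zmod p k F h2
    rcases Bool.eq_false_or_eq_true b with rfl | rfl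
    · refine ⟨Unit, inferInstance, inferInstance, Bool, inferInstance, 1, true,
        by rw [h2, Nat.cast_one], fun h => absurd h (by decide), exists_cfd_as p F htr true f h hh⟩
    · by_cases h4 : ∃ q : F, f = q ^ p
      · refine ⟨Unit, inferInstance, inferInstance, Bool, inferInstance, 1, false,
          by rw [h2, Nat.cast_one], fun _ _ => h4, ?_⟩
        obtain ⟨q, hq⟩ := h4
        exact exists_cfd_off p F htr f q hq h hh
      · refine ⟨Unit, inferInstance, inferInstance, Bool, inferInstance, 1, true,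
          by rw [h2, Nat.cast_one], fun h => absurd h (by decide), ?_⟩
        exact exists_cfd_on p F htr f (fun a ha => h4 ⟨a, ha.symm⟩) h hh
  · obtain ⟨u, v, hG⟩ := gn_of_adjoin h2
    have hG0 : ∀ g ∈ Finset.univ.image h, g ≠ 0 := by
      intro g hg
      obtain ⟨c, -, rfl⟩ := Finset.mem_image.mp hg
      exact hh c
    have hGm : ∀ c, h c ∈ Finset.univ.image h := fun c =>
      Finset.mem_image_of_mem _ (Finset.mem_univ c)
    have hoff : ∀ {q₀ : IntermediateField.adjoin k ({x, y} : Set K)},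
        f - q₀ ^ p + cond b q₀ 0 = 0 →
        ∃ (A : Type) (_ : Fintype A) (_ : DecidableEq A) (J : Type) (_ : Finite J) (M : ℕ),
          ∀ M', M ≤ M' → Nonempty (FD p b false _ A J 2 r M' f h) := by
      intro q₀ hq
      obtain ⟨s, A, i1, i2, t, hs, -, H⟩ := stage2 (p := p) hG hG.u_not_pow hG0
      let _ := Fintype.ofFinite A
      obtain ⟨J, i3, M, hM⟩ := exists_fd_off hs H h hGm b hq
      exact ⟨A, inferInstance, i1, J, i3, M, hM⟩
    rcases Bool.eq_false_or_eq_true b with rfl | rfl
    · obtain ⟨q, hq⟩ := h3 rfl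
      obtain ⟨A, i1, i2, J, i3, M, hM⟩ := hoff (q₀ := q) (by
        rw [hq]
        show q ^ p - q - q ^ p + q = 0
        ring)
      exact ⟨A, i1, i2, J, i3, 2, false, by rw [h2]; rfl, fun _ h => absurd h (by decide), M, hM⟩
    · by_cases h4 : ∃ q, f = q ^ p
      · obtain ⟨q, hq⟩ := id h4
        obtain ⟨A, i1, i2, J, i3, M, hM⟩ := hoff (q₀ := q) (by
          rw [hq]
          show q ^ p - q ^ p + 0 = 0
          ring)
        exact ⟨A, i1, i2, J, i3, 2, false, by rw [h2]; rfl, fun _ _ => h4, M, hM⟩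
      · obtain ⟨s, A, i1, i2, t, hs, -, H⟩ := stage2 (p := p) hG (f := f)
          (fun a ha => h4 ⟨a, ha.symm⟩) hG0
        let _ := Fintype.ofFinite A
        obtain ⟨J, i3, M, hM⟩ := exists_fd_on hs H h hGm
        exact ⟨A, inferInstance, i1, J, i3, 2, true, by rw [h2]; rfl,
          fun h => absurd h (by decide), M, hM⟩

end Pool.Agent.H96.S
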