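import Pool.Agent.H96.S.GC
import Pool.Agent.H96.S.Fin1

/-!
# Covers of products of curves and rational surfaces
-/

set_option autoImplicit false
set_option linter.unusedSectionVars false

namespace Pool.Agent.H96.S

open Pool.Agent.H19.OG

/-- The factors. -/
def Fac (p : ℕ) {k K : Type} [Field k] [Field K] [Algebra k K] (b : Bool)
    (F : IntermediateField k K) (f : F) : Prop :=
  (F.FG ∧ Algebra.trdeg k F = 1) ∨
      ((∃ x y : K, F = IntermediateField.adjoin k {x, y}) ∧ Algebra.trdeg k F = 2 ∧
        (b = true → ∃ q : F, f = q ^ p - q))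

open Algebra in
theorem trdeg_zmod' (p : ℕ) [Fact p.Prime] (k F : Type) [Field k] [Finite k] [Field F] [Algebra k F]
    [Algebra (ZMod p) k] [Algebra (ZMod p) F] [IsScalarTower (ZMod p) k F] :
    Algebra.trdeg (ZMod p) F = Algebra.trdeg k F := by
  have h0 : Algebra.IsAlgebraic (ZMod p) k := Algebra.IsAlgebraic.of_finite (ZMod p) k
  rw [← trdeg_add_eq (ZMod p) k (A := F), trdeg_eq_zero, zero_add]

/-- The units of a finite field. -/
theorem exists_gen (p : ℕ) [Fact p.Prime] (k : Type) [Field k] [Finite k] [CharP k p] :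
    ∃ (g : k) (m : ℕ), g ^ m = 1 ∧ ¬ p ∣ m ∧ ∀ a : k, a ≠ 0 → ∃ e : ℕ, a = g ^ e := by
  classical
  have := Fintype.ofFinite k
  obtain ⟨g, hg⟩ := IsCyclic.exists_generator (α := kˣ)
  refine ⟨g, Nat.card kˣ, ?_, ?_, fun a ha => ?_⟩
  · rw [← Units.val_pow_eq_pow_val, pow_card_eq_one', Units.val_one]
  · intro h
    have h1 : ((Nat.card kˣ : ℕ) : k) = 0 := (CharP.cast_eq_zero_iff k p _).mpr h
    rw [Nat.card_eq_fintype_card, Fintype.card_units, Nat.cast_sub Fintype.card_pos] at h1
    rw [Nat.cast_card_eq_zero, Nat.cast_one, zero_sub, neg_eq_zero] at h1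
    exact one_ne_zero h1
  · obtain ⟨e, he⟩ := (Submonoid.mem_powers_iff _ _).mp
      ((mem_powers_iff_mem_zpowers (x := g)).mpr (hg (Units.mk0 a ha)))
    refine ⟨e, ?_⟩
    rw [← Units.val_pow_eq_pow_val, he, Units.val_mk0]

/-- **Models of covers of products of curves and rational surfaces.** -/
theorem hasCharts_aux (p : ℕ) [Fact p.Prime] (k : Type) [Field k] [Finite k] [CharP k p]
    (K : Type) [Field K] [Algebra k K] (n r : ℕ) (b : Bool)
    (F : Fin n → IntermediateField k K) (f : ∀ i, F i)
    (hF : ∀ i, Fac p b (F i) (f i))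
    (htr : Algebra.trdeg k K = ∑ i, Algebra.trdeg k (F i))
    (hb : b = false → ∃ i, ∀ q : F i, f i ≠ q ^ p)
    (h : ∀ i, Fin r → F i) (z : K) (w : Fin r → K) (N : Fin r → ℕ)
    (hz : z ^ p - cond b z 0 = ∑ i, (f i : K))
    (hh : ∀ i c, h i c ≠ 0) (hN : ∀ c, ¬ p ∣ N c)
    (hw : ∀ c, w c ^ N c = ∏ i, (h i c : K))
    (hwk : ∀ R : Subring K, (∀ c, w c ∈ R) → ∀ a : k, algebraMap k K a ∈ R)
    (hgen : (⨆ i, F i) ⊔ IntermediateField.adjoin k (insert z (Set.range w)) = ⊤) :
    HasCharts K := by
  classical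
  let _ : Algebra (ZMod p) k := ZMod.algebra k p
  have hcF : ∀ i, CharP (F i) p := fun i =>
    charP_of_injective_algebraMap (algebraMap k (F i)).injective p
  have hcK : CharP K p := charP_of_injective_algebraMap (algebraMap k K).injective p
  let i0 : ∀ i, Algebra (ZMod p) (F i) := fun i => ZMod.algebra (F i) p
  have hst : ∀ i, IsScalarTower (ZMod p) k (F i) := fun i =>
    IsScalarTower.of_algebraMap_eq' (Subsingleton.elim _ _)
  choose A i1 i2 J i3 d on hd hon M₀ hM₀ using fun i =>
    exists_fd (F i) b (f i) (h i) (hh i) (hF i)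
  let _ : Algebra (ZMod p) K := ZMod.algebra K p
  have hstK : ∀ i, @IsScalarTower (ZMod p) (F i) K (i0 i).toSMul _ _ := fun i =>
    IsScalarTower.of_algebraMap_eq' (Subsingleton.elim _ _)
  have hstk : IsScalarTower (ZMod p) k K :=
    IsScalarTower.of_algebraMap_eq' (Subsingleton.elim _ _)
  set M := Finset.univ.sup M₀ with hM
  have hfd : ∀ i, Nonempty (FD p b (on i) (F i) (A i) (J i) (d i) r M (f i) (h i)) := fun i =>
    hM₀ i M (Finset.le_sup (Finset.mem_univ i))
  have hw0 : ∀ c, w c ≠ 0 := by
    intro c hc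
    have h1 := hw c
    have h2 : ∏ i, (h i c : K) ≠ 0 := Finset.prod_ne_zero_iff.mpr fun i _ h3 =>
      hh i c (Subtype.ext h3)
    have h3 : N c ≠ 0 := fun h4 => hN c (by rw [h4]; exact dvd_zero p)
    rw [hc, zero_pow h3] at h1
    exact h2 h1.symm
  let G : GD p b K (Fin n) (fun i => F i) A J d on r M :=
    { f := f
      h := h
      fd := fun i => (hfd i).some
      z := z
      AS := hz
      w := w
      w0 := hw0
      Nw := N
      Nw0 := hN
      KM := hw
      hex := by
        rcases Bool.eq_false_or_eq_true b with hb' | hb'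
        · exact ⟨none, hb'⟩
        · obtain ⟨i, hi⟩ := hb hb'
          refine ⟨some i, ?_⟩
          show (b || on i) = true
          rcases Bool.eq_false_or_eq_true (on i) with h1 | h1
          · rw [h1, Bool.or_true]
          · obtain ⟨q, hq⟩ := hon i h1 hb'
            exact absurd hq (hi q)
      gen := by
        intro R hinv hFR hzR hwR
        let R' : IntermediateField k K :=
          { carrier := R
            mul_mem' := fun ha hb => R.mul_mem ha hb
            one_mem' := R.one_mem
            add_mem' := fun ha hb => R.add_mem ha hb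
            zero_mem' := R.zero_mem
            algebraMap_mem' := hwk R hwR
            inv_mem' := by
              intro x hx
              by_cases hx0 : x = 0
              · rw [hx0, inv_zero]; exact R.zero_mem
              · exact hinv x hx hx0 }
        have h1 : (⊤ : IntermediateField k K) ≤ R' := by
          rw [← hgen]
          refine sup_le (iSup_le fun i w hw => hFR i ⟨w, hw⟩) ?_
          rw [IntermediateField.adjoin_le_iff]
          rintro _ (rfl | ⟨a, rfl⟩)
          · exact hzR
          · exact hwR a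
        rw [eq_top_iff]
        intro x _
        exact h1 (show x ∈ (⊤ : IntermediateField k K) from trivial) }
  refine G.hasCharts ?_
  rw [trdeg_zmod' p k K, htr]
  push_cast
  rw [Finset.sum_congr rfl fun i _ => hd i]

/-- The constants are generated by one more root. -/
theorem hasCharts_aux' (p : ℕ) [Fact p.Prime] (k : Type) [Field k] [Finite k] [CharP k p]
    (K : Type) [Field K] [Algebra k K] (n r : ℕ) (b : Bool)
    (F : Fin n → IntermediateField k K) (f : ∀ i, F i)
    (hF : ∀ i, Fac p b (F i) (f i))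
    (htr : Algebra.trdeg k K = ∑ i, Algebra.trdeg k (F i))
    (hb : b = false → ∃ i, ∀ q : F i, f i ≠ q ^ p)
    (h : ∀ i, Fin r → F i) (z : K) (w : Fin r → K) (N : Fin r → ℕ)
    (hz : z ^ p - cond b z 0 = ∑ i, (f i : K))
    (hh : ∀ i c, h i c ≠ 0) (hN : ∀ c, ¬ p ∣ N c)
    (hw : ∀ c, w c ^ N c = ∏ i, (h i c : K))
    (hgen : (⨆ i, F i) ⊔ IntermediateField.adjoin k (insert z (Set.range w)) = ⊤) :
    HasCharts K := by
  obtain ⟨g, m, hg, hm, hga⟩ := exists_gen p k
  refine hasCharts_aux p k K n (r + 1) b F f hF htr hb (fun i => Fin.cons 1 (h i)) z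
    (Fin.cons (algebraMap k K g) w) (Fin.cons m N) hz ?_ ?_ ?_ ?_ ?_
  · intro i c
    refine Fin.cases ?_ (fun c => ?_) c
    · exact one_ne_zero
    · exact hh i c
  · intro c
    refine Fin.cases ?_ (fun c => ?_) c
    · exact hm
    · exact hN c
  · intro c
    refine Fin.cases ?_ (fun c => ?_) c
    · show algebraMap k K g ^ m = ∏ i, ((1 : F i) : K)
      rw [← map_pow, hg, map_one]
      exact (Finset.prod_eq_one fun i _ => rfl).symm
    · exact hw c
  · intro R hR a
    by_cases ha : a = 0
    · rw [ha, map_zero]; exact R.zero_mem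
    · obtain ⟨e, rfl⟩ := hga a ha
      rw [map_pow]
      exact R.pow_mem (hR 0) _
  · rw [eq_top_iff, ← hgen]
    refine sup_le_sup_left (IntermediateField.adjoin.mono _ _ _ ?_) _
    rintro _ (rfl | ⟨a, rfl⟩)
    · exact Or.inl rfl
    · exact Or.inr ⟨a.succ, rfl⟩

/-- **Models of covers of products of curves and rational surfaces.** -/
theorem hasCharts_surf (p : ℕ) [Fact p.Prime] (k : Type) [Field k] [Finite k] [CharP k p]
    (K : Type) [Field K] [Algebra k K] (n r : ℕ) (b : Bool)
    (F : Fin n → IntermediateField k K) (f : ∀ i, F i)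
    (hF : ∀ i, Fac p b (F i) (f i))
    (htr : Algebra.trdeg k K = ∑ i, Algebra.trdeg k (F i))
    (h : ∀ i, Fin r → F i) (z : K) (w : Fin r → K) (N : Fin r → ℕ)
    (hz : z ^ p - cond b z 0 = ∑ i, (f i : K))
    (hh : ∀ i c, h i c ≠ 0) (hN : ∀ c, ¬ p ∣ N c)
    (hw : ∀ c, w c ^ N c = ∏ i, (h i c : K))
    (hgen : (⨆ i, F i) ⊔ IntermediateField.adjoin k (insert z (Set.range w)) = ⊤) :
    HasCharts K := by
  have hcK : CharP K p := charP_of_injective_algebraMap (algebraMap k K).injective p
  by_cases hb : b = false → ∃ i, ∀ q : F i, f i ≠ q ^ p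
  · exact hasCharts_aux' p k K n r b F f hF htr hb h z w N hz hh hN hw hgen
  · push Not at hb
    obtain ⟨rfl, hq⟩ := hb
    choose q hq using hq
    refine hasCharts_aux' p k K n r true F (fun _ => 0) (fun i => ?_) htr
      (fun h => absurd h (by decide)) h 0 w N ?_ hh hN hw ?_
    · rcases hF i with h1 | ⟨h1, h2, -⟩
      · exact Or.inl h1
      · exact Or.inr ⟨h1, h2, fun _ => ⟨0, by
          rw [zero_pow (Fact.out : p.Prime).ne_zero, sub_zero]⟩⟩
    · show (0 : K) ^ p - 0 = ∑ i, ((0 : F i) : K)
      rw [zero_pow (Fact.out : p.Prime).ne_zero, sub_zero]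
      exact (Finset.sum_eq_zero fun i _ => rfl).symm
    · rw [eq_top_iff, ← hgen]
      refine sup_le le_sup_left ?_
      rw [IntermediateField.adjoin_le_iff]
      have h1 : z = ∑ i, (q i : K) := by
        have h2 : z ^ p - 0 = ∑ i, (f i : K) := hz
        have h3 : (z - ∑ i, (q i : K)) ^ p = 0 := by
          rw [sub_pow_char, sum_pow_char, ← sub_zero (z ^ p), h2, sub_eq_zero]
          refine Finset.sum_congr rfl fun i _ => ?_
          rw [hq i]
          rfl
        exact sub_eq_zero.mp (pow_eq_zero_iff (Fact.out : p.Prime).ne_zero |>.mp h3)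
      rintro _ (rfl | ⟨a, rfl⟩)
      · rw [h1]
        exact sum_mem fun i _ => (le_sup_left : _ ≤ _ ⊔ IntermediateField.adjoin k _)
          ((le_iSup F i) (q i).2)
      · exact (le_sup_right : IntermediateField.adjoin k _ ≤ _)
          (IntermediateField.subset_adjoin _ _ (Or.inr ⟨a, rfl⟩))

end Pool.Agent.H96.S
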