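import Pool.Agent.H96.S.LReg
import Pool.Agent.H96.W.Glob
import Pool.Agent.H96.W.Pack

/-!
# The data of the factors and the global data
-/

set_option autoImplicit false
set_option linter.unusedSectionVars false

namespace Pool.Agent.H96.S

open MvPolynomial IsLocalRing Pool.Agent.H96.Reg Pool.Agent.H96.VL Pool.Agent.H96.W

/-- The local data of a factor. -/
structure FL (p : ℕ) (b on : Bool) {F : Type} [Field F] [Algebra (ZMod p) F] {A J : Type}
    [Fintype A] [DecidableEq A] (d r M : ℕ) (f : F) (h : Fin r → F) (c q : J → F)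
    (T : A → Finset F) (S : Finset F) (W : ValuationSubring F) where
  R : Subring F
  loc : VLocal W R
  fr : ∀ w : F, ∃ a ∈ R, ∃ s ∈ R, s ≠ 0 ∧ w = a / s
  j : J
  n : ℕ
  y : Va n d → F
  G : Fin n → MvPolynomial (Va n d) (ZMod p)
  D : MvPolynomial (Va n d) (ZMod p)
  yR : ∀ s, y s ∈ R
  gen : ∀ w ∈ R, ∃ a s : MvPolynomial (Va n d) (ZMod p), W.valuation (aeval y s) = 1 ∧
    w = aeval y a / aeval y s
  rel : ∀ j, aeval y (G j) = 0
  vD : W.valuation (aeval y D) = 1
  ndg : Ndg G D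
  l : A → Option (Fin d)
  t : A → F
  tR : ∀ a, t a ∈ R
  l0 : ∀ a, l a = none → t a = 1
  l1 : ∀ a c, l a = some c → W.valuation (t a) < 1 ∧ t a ≠ 0 ∧ y (Sum.inr c) = t a
  linj : ∀ a a' c, l a = some c → l a' = some c → a = a'
  e : A → ℤ
  β : A → ℤ
  κ : Fin r → A → ℤ
  u : Va n d
  qv : Fin r → Va n d
  act : Bool
  typ : act = true →
    (∃ a, l a ≠ none ∧ ¬ (p : ℤ) ∣ e a ∧ W.valuation (y u) = 1) ∨
    ∃ c, u = Sum.inr c ∧ ∀ a, l a ≠ some c
  actb : b = false → act = on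
  pole : b = true → act = true → 1 < W.valuation (mon t e)
  e0 : act = false → e = 0
  cut : ∀ a, l a ≠ none → e a ≤ p * β a
  eM : ∀ a, |e a| ≤ M
  βM : ∀ a, |β a| ≤ M
  κM : ∀ c a, |κ c a| ≤ M
  eqf : f - q j ^ p + cond b (q j) 0 = cond (b || act) (y u * mon t e) 0
  vq : ∀ i, W.valuation (y (qv i)) = 1
  eqh : ∀ i, h i = y (qv i) * mon t (κ i)
  crat : ∀ l, c l / c j ∈ R
  gT : ∀ a, Gen R (T a) (t a * c j)
  gS : (b || on) = true → Gen R S (c j * mon t β)
  qd : (b || on) = true → ∀ l, c l / c j * (q j - q l) / mon t β ∈ R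
  qe : (b || on) = false → ∀ l, q l = q j

/-- The data of a factor. -/
structure FD (p : ℕ) (b on : Bool) (F : Type) [Field F] [Algebra (ZMod p) F] (A J : Type)
    [Fintype A] [DecidableEq A] (d r M : ℕ) (f : F) (h : Fin r → F) where
  c : J → F
  c0 : ∀ j, c j ≠ 0
  q : J → F
  T : A → Finset F
  S : Finset F
  base : Finset (Finset F)
  base0 : ∀ s ∈ base, ∃ g ∈ s, g ≠ 0
  loc : ∀ W : ValuationSubring F, ∃ L : FL p b on d r M f h c q T S W,
    (∀ s ∈ base, Prin L.R s) ∧
    ∀ R' : Subring F, VLocal W R' → (∀ s ∈ base, Prin R' s) → L.R ≤ R'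

/-- The global data. -/
structure GD (p : ℕ) (b : Bool) (K : Type) [Field K] [Algebra (ZMod p) K]
    (I : Type) [Fintype I] [DecidableEq I] (F : I → Type) [∀ i, Field (F i)]
    [∀ i, Algebra (ZMod p) (F i)] [∀ i, Algebra (F i) K] (A J : I → Type)
    [∀ i, Fintype (A i)] [∀ i, DecidableEq (A i)] (d : I → ℕ) (on : I → Bool) (r M : ℕ) where
  f : ∀ i, F i
  h : ∀ i, Fin r → F i
  fd : ∀ i, FD p b (on i) (F i) (A i) (J i) (d i) r M (f i) (h i)
  z : K
  AS : z ^ p - cond b z 0 = ∑ i, algebraMap (F i) K (f i)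
  w : Fin r → K
  w0 : ∀ c, w c ≠ 0
  Nw : Fin r → ℕ
  Nw0 : ∀ c, ¬ p ∣ Nw c
  KM : ∀ c, w c ^ Nw c = ∏ i, algebraMap (F i) K (h i c)
  hex : ∃ j, cand b on j = true
  gen : ∀ R : Subring K, (∀ x ∈ R, x ≠ 0 → x⁻¹ ∈ R) →
    (∀ i (w : F i), algebraMap (F i) K w ∈ R) → z ∈ R → (∀ c, w c ∈ R) → R = ⊤

section Map

variable {K F : Type} [Field K] [Field F] [Algebra F K]

theorem gen_map [DecidableEq K] {R₀ : Subring F} {R : Subring K}
    (h : ∀ w ∈ R₀, algebraMap F K w ∈ R) {s : Finset F} {T : F} (hs : Gen R₀ s T) :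
    Gen R (s.image (algebraMap F K)) (algebraMap F K T) := by
  refine ⟨(map_ne_zero _).mpr hs.ne, fun g hg => ?_, ?_⟩
  · obtain ⟨w, hw, rfl⟩ := Finset.mem_image.mp hg
    rw [← map_div₀]
    exact h _ (hs.mem w hw)
  · obtain ⟨g, hg, h1, h2⟩ := hs.ex
    refine ⟨_, Finset.mem_image_of_mem _ hg, ?_, (map_ne_zero _).mpr h2⟩
    rw [← map_div₀]
    exact h _ h1

theorem mon_map {A : Type} [Fintype A] (t : A → F) (e : A → ℤ) :
    mon (fun a => algebraMap F K (t a)) e = algebraMap F K (mon t e) := by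
  rw [mon, mon, map_prod]
  exact Finset.prod_congr rfl fun a _ => (map_zpow₀ _ _ _).symm

theorem aeval_am {p : ℕ} [Algebra (ZMod p) F] [Algebra (ZMod p) K] [IsScalarTower (ZMod p) F K]
    {σ : Type} (y : σ → F) (P : MvPolynomial σ (ZMod p)) :
    aeval (fun s => algebraMap F K (y s)) P = algebraMap F K (aeval y P) :=
  MvPolynomial.aeval_algebraMap_apply (R := ZMod p) K y P

end Map

variable {p : ℕ} [Fact p.Prime] {b : Bool} {K : Type} [Field K] [Algebra (ZMod p) K]
  {I : Type} [Fintype I] [DecidableEq I] {F : I → Type} [∀ i, Field (F i)]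
  [∀ i, Algebra (ZMod p) (F i)] [∀ i, Algebra (F i) K]
  [∀ i, IsScalarTower (ZMod p) (F i) K] {A J : I → Type} [∀ i, Fintype (A i)]
  [∀ i, DecidableEq (A i)] {d : I → ℕ} {on : I → Bool} {r M : ℕ}

/-- The local data of the factors at a valuation. -/
abbrev GD.Fls (G : GD p b K I F A J d on r M) (V : ValuationSubring K) : Type :=
  ∀ i, FL p b (on i) (d i) r M (G.f i) (G.h i) (G.fd i).c (G.fd i).q (G.fd i).T (G.fd i).S
    (WV V (F i))

/-- The twisted element. -/
noncomputable def GD.zs (G : GD p b K I F A J d on r M) (σ : ∀ i, J i) : K :=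
  G.z - ∑ i, algebraMap (F i) K ((G.fd i).q (σ i))

theorem GD.zs_AS (G : GD p b K I F A J d on r M) (σ : ∀ i, J i) :
    G.zs σ ^ p - cond b (G.zs σ) 0 = ∑ i, algebraMap (F i) K
      (G.f i - (G.fd i).q (σ i) ^ p + cond b ((G.fd i).q (σ i)) 0) := by
  have hcK : CharP K p := charP_of_injective_algebraMap (algebraMap (ZMod p) K).injective p
  have h1 := G.AS
  rw [GD.zs, sub_pow_char, sum_pow_char]
  rcases Bool.eq_false_or_eq_true b with hb | hb
  · rw [cond_t hb] at h1
    rw [cond_t hb]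
    simp only [cond_t hb, map_add, map_sub, map_pow, Finset.sum_add_distrib,
      Finset.sum_sub_distrib, ← h1]
    ring
  · rw [cond_f hb, sub_zero] at h1
    rw [cond_f hb]
    simp only [cond_f hb, map_add, map_sub, map_pow, Finset.sum_add_distrib,
      Finset.sum_sub_distrib, ← h1, map_zero, Finset.sum_const_zero]
    ring

/-- The local data of the cover. -/
noncomputable def GD.toLD (G : GD p b K I F A J d on r M) {V : ValuationSubring K}
    (fl : G.Fls V) : LD p b V I A d on G.Nw M where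
  n := fun i => (fl i).n
  y := fun i s => algebraMap (F i) K ((fl i).y s)
  G := fun i => (fl i).G
  D := fun i => (fl i).D
  l := fun i => (fl i).l
  t := fun i a => algebraMap (F i) K ((fl i).t a)
  e := fun i => (fl i).e
  β := fun i => (fl i).β
  κ := fun i => (fl i).κ
  u := fun i => (fl i).u
  q := fun i => (fl i).qv
  act := fun i => (fl i).act
  z := G.zs fun i => (fl i).j
  w := G.w
  vy := fun i s => wv_le_one.mp ((fl i).loc.le _ ((fl i).yR s))
  rel := fun i j => by rw [aeval_am, (fl i).rel, map_zero]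
  vD := fun i => by rw [aeval_am]; exact wv_eq_one.mp (fl i).vD
  ndg := fun i => (fl i).ndg
  l0 := fun i a h => by rw [(fl i).l0 a h, map_one]
  l1 := fun i a c h => by
    obtain ⟨h1, h2, h3⟩ := (fl i).l1 a c h
    exact ⟨wv_lt_one.mp h1, (map_ne_zero _).mpr h2, by rw [h3]⟩
  linj := fun i => (fl i).linj
  typ := fun i hi => by
    rcases (fl i).typ hi with ⟨a, h1, h2, h3⟩ | h1
    · exact Or.inl ⟨a, h1, h2, wv_eq_one.mp h3⟩
    · exact Or.inr h1
  actb := fun hb i => (fl i).actb hb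
  pole := fun hb i hi => by
    rw [mon_map]
    have h1 := (fl i).pole hb hi
    by_contra hcon
    exact absurd h1 (not_lt.mpr (wv_le_one.mpr (not_lt.mp hcon)))
  e0 := fun i => (fl i).e0
  cut := fun i => (fl i).cut
  eM := fun i => (fl i).eM
  βM := fun i => (fl i).βM
  κM := fun i => (fl i).κM
  AS := by
    rw [G.zs_AS]
    refine Finset.sum_congr rfl fun i _ => ?_
    rw [(fl i).eqf, mon_map]
    rcases Bool.eq_false_or_eq_true (b || (fl i).act) with h | h
    · rw [cond_t h, cond_t h, map_mul]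
    · rw [cond_f h, cond_f h, map_zero]
  Nw0 := G.Nw0
  w0 := G.w0
  vq := fun i c => wv_eq_one.mp ((fl i).vq c)
  KM := fun c => by
    rw [G.KM]
    refine Finset.prod_congr rfl fun i _ => ?_
    rw [(fl i).eqh, mon_map, map_mul]

end Pool.Agent.H96.S
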