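import Pool.Agent.H96.S.Pt

/-!
# The blowing up inequality
-/

set_option autoImplicit false
set_option linter.unusedSectionVars false

namespace Pool.Agent.H96.S

section Sc

variable {F : Type} [Field F]

/-- The multiple `a H`. -/
def sc (a : F) (H : AddSubgroup F) : AddSubgroup F := H.map (AddMonoidHom.mulLeft a)

theorem mem_sc {a w : F} {H : AddSubgroup F} : w ∈ sc a H ↔ ∃ h ∈ H, w = a * h := by
  rw [sc, AddSubgroup.mem_map]
  constructor
  · rintro ⟨h, hh, rfl⟩; exact ⟨h, hh, rfl⟩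
  · rintro ⟨h, hh, rfl⟩; exact ⟨h, hh, rfl⟩

theorem relIndex_sc {a : F} (ha : a ≠ 0) (H K : AddSubgroup F) :
    (sc a H).relIndex (sc a K) = H.relIndex K :=
  AddSubgroup.relIndex_map_map_of_injective H K (fun v w h => mul_left_cancel₀ ha h)

theorem sc_mono {a : F} {H K : AddSubgroup F} (h : H ≤ K) : sc a H ≤ sc a K :=
  AddSubgroup.map_mono h

theorem relIndex_sup (K H : AddSubgroup F) : K.relIndex (H ⊔ K) = K.relIndex H :=
  AddSubgroup.relIndex_sup_right H K

/-- The basic estimate. -/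
theorem idx_step {B H K : AddSubgroup F} {a : F} (ha : a ≠ 0) (hHK : sc a H ≤ K)
    (h0 : H.relIndex B ≠ 0) : K.relIndex (sc a B ⊔ K) ≤ H.relIndex B ∧
      K.relIndex (sc a B ⊔ K) ≠ 0 := by
  rw [relIndex_sup, ← relIndex_sc ha H B] at *
  refine ⟨AddSubgroup.relIndex_le_of_le_left hHK h0, fun h => ?_⟩
  exact h0 (AddSubgroup.relIndex_eq_zero_of_le_left hHK h)

end Sc

/-- Ideals, as subgroups. -/
structure Idl {F : Type} [Field F] (B : Subring F) (I : AddSubgroup F) : Prop where
  le : I ≤ B.toAddSubgroup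
  mul : ∀ b ∈ B, ∀ i ∈ I, b * i ∈ I

section Idl

variable {F : Type} [Field F] {B : Subring F}

theorem Idl.scB {a : F} (ha : a ∈ B) : Idl B (sc a B.toAddSubgroup) where
  le := by
    intro w hw
    obtain ⟨b, hb, rfl⟩ := mem_sc.mp hw
    exact B.mul_mem ha hb
  mul := by
    intro b hb w hw
    obtain ⟨c, hc, rfl⟩ := mem_sc.mp hw
    exact mem_sc.mpr ⟨b * c, B.mul_mem hb hc, by ring⟩

theorem Idl.sup {I J : AddSubgroup F} (hI : Idl B I) (hJ : Idl B J) : Idl B (I ⊔ J) where
  le := sup_le hI.le hJ.le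
  mul := by
    intro b hb w hw
    obtain ⟨u, hu, v, hv, rfl⟩ := AddSubgroup.mem_sup.mp hw
    rw [mul_add]
    exact AddSubgroup.mem_sup.mpr ⟨_, hI.mul b hb u hu, _, hJ.mul b hb v hv, rfl⟩

theorem Idl.top : Idl B B.toAddSubgroup where
  le := le_rfl
  mul := fun _ hb _ hi => B.mul_mem hb hi

theorem Idl.sc_le {I : AddSubgroup F} (hI : Idl B I) {a : F} (ha : a ∈ I) :
    sc a B.toAddSubgroup ≤ I := by
  intro w hw
  obtain ⟨b, hb, rfl⟩ := mem_sc.mp hw
  rw [mul_comm]
  exact hI.mul b hb a ha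

/-- The maximal ideal. -/
def mm (B : Subring F) (x y : F) : AddSubgroup F := sc x B.toAddSubgroup ⊔ sc y B.toAddSubgroup

theorem mem_mm {x y w : F} : w ∈ mm B x y ↔ ∃ a ∈ B, ∃ c ∈ B, w = x * a + y * c := by
  rw [mm, AddSubgroup.mem_sup]
  constructor
  · rintro ⟨u, hu, v, hv, rfl⟩
    obtain ⟨a, ha, rfl⟩ := mem_sc.mp hu
    obtain ⟨c, hc, rfl⟩ := mem_sc.mp hv
    exact ⟨a, ha, c, hc, rfl⟩
  · rintro ⟨a, ha, c, hc, rfl⟩
    exact ⟨_, mem_sc.mpr ⟨a, ha, rfl⟩, _, mem_sc.mpr ⟨c, hc, rfl⟩, rfl⟩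

theorem mm_comm (x y : F) : mm B x y = mm B y x := sup_comm _ _

theorem Idl.mm {x y : F} (hx : x ∈ B) (hy : y ∈ B) : Idl B (mm B x y) := (Idl.scB hx).sup (Idl.scB hy)

/-- The powers of the maximal ideal. -/
def Pw (B : Subring F) (x y : F) (n : ℕ) (b : F) : Prop :=
  ∃ g : ℕ → F, (∀ i, g i ∈ B) ∧ b = ∑ i ∈ Finset.range (n + 1), g i * (x ^ (n - i) * y ^ i)

theorem Pw.swap {x y : F} {n : ℕ} {b : F} (h : Pw B x y n b) : Pw B y x n b := by
  obtain ⟨g, hg, rfl⟩ := h
  refine ⟨fun i => g (n - i), fun i => hg _, ?_⟩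
  rw [← Finset.sum_range_reflect]
  refine Finset.sum_congr rfl fun i hi => ?_
  rw [Finset.mem_range] at hi
  have h1 : n + 1 - 1 - i = n - i := by omega
  have h2 : n - (n - i) = i := by omega
  rw [h1, h2, mul_comm (x ^ i)]

theorem Pw.add {x y : F} {n : ℕ} {b c : F} (hb : Pw B x y n b) (hc : Pw B x y n c) :
    Pw B x y n (b + c) := by
  obtain ⟨g, hg, rfl⟩ := hb
  obtain ⟨f, hf, rfl⟩ := hc
  refine ⟨fun i => g i + f i, fun i => B.add_mem (hg i) (hf i), ?_⟩
  rw [← Finset.sum_add_distrib]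
  exact Finset.sum_congr rfl fun i _ => by ring

theorem Pw.smul {x y : F} {n : ℕ} {a b : F} (ha : a ∈ B) (hb : Pw B x y n b) :
    Pw B x y n (a * b) := by
  obtain ⟨g, hg, rfl⟩ := hb
  refine ⟨fun i => a * g i, fun i => B.mul_mem ha (hg i), ?_⟩
  rw [Finset.mul_sum]
  exact Finset.sum_congr rfl fun i _ => by ring

theorem Pw.zero' {x y : F} {n : ℕ} : Pw B x y n 0 :=
  ⟨fun _ => 0, fun _ => B.zero_mem, by simp⟩

theorem Pw.sum {x y : F} {n : ℕ} {ι : Type} (s : Finset ι) {f : ι → F}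
    (hf : ∀ i ∈ s, Pw B x y n (f i)) : Pw B x y n (∑ i ∈ s, f i) := by
  classical
  induction s using Finset.induction_on with
  | empty => rw [Finset.sum_empty]; exact Pw.zero'
  | insert a s ha ih =>
    rw [Finset.sum_insert ha]
    exact (hf a (Finset.mem_insert_self _ _)).add (ih fun i hi => hf i (Finset.mem_insert_of_mem hi))

theorem Pw.mon {x y : F} {n i : ℕ} (hi : i ≤ n) : Pw B x y n (x ^ (n - i) * y ^ i) := by
  refine ⟨fun j => if j = i then 1 else 0, fun j => ?_, ?_⟩
  · show (if j = i then (1 : F) else 0) ∈ B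
    split_ifs
    · exact B.one_mem
    · exact B.zero_mem
  · rw [Finset.sum_eq_single i]
    · show _ = (if i = i then (1 : F) else 0) * _
      rw [if_pos rfl, one_mul]
    · intro j _ hj
      show (if j = i then (1 : F) else 0) * _ = 0
      rw [if_neg hj, zero_mul]
    · intro h
      rw [Finset.mem_range] at h
      omega

theorem Pw.zero_iff {x y b : F} : Pw B x y 0 b ↔ b ∈ B := by
  constructor
  · rintro ⟨g, hg, rfl⟩
    simpa using hg 0
  · intro hb
    exact ⟨fun _ => b, fun _ => hb, by simp⟩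

/-- Multiplication by an element of the maximal ideal. -/
theorem Pw.succ {x y : F} {n : ℕ} {b c : F} (hb : Pw B x y n b) (hc : c ∈ mm B x y) :
    Pw B x y (n + 1) (c * b) := by
  obtain ⟨a, ha, e, he, rfl⟩ := mem_mm.mp hc
  obtain ⟨g, hg, rfl⟩ := hb
  rw [Finset.mul_sum]
  refine Pw.sum _ fun i hi => ?_
  rw [Finset.mem_range] at hi
  have h1 : (x * a + y * e) * (g i * (x ^ (n - i) * y ^ i)) =
      (a * g i) * (x ^ (n + 1 - i) * y ^ i) + (e * g i) * (x ^ (n + 1 - (i + 1)) * y ^ (i + 1)) := by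
    have h2 : n + 1 - i = n - i + 1 := by omega
    have h3 : n + 1 - (i + 1) = n - i := by omega
    rw [h2, h3]; ring
  rw [h1]
  exact ((Pw.mon (by omega)).smul (B.mul_mem ha (hg i))).add
    ((Pw.mon (by omega)).smul (B.mul_mem he (hg i)))

/-- The multiples in the blowing up. -/
theorem Pw.mul {x y : F} (hx : x ≠ 0) {n : ℕ} {b : F} (h : Pw B x y n b) :
    Mul (adj B (y / x)) (x ^ n) b := by
  obtain ⟨g, hg, rfl⟩ := h
  refine ⟨∑ i ∈ Finset.range (n + 1), g i * (y / x) ^ i, Subring.sum_mem _ fun i _ =>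
    Subring.mul_mem _ (le_adj (hg i)) (Subring.pow_mem _ mem_adj _), ?_⟩
  rw [Finset.mul_sum]
  refine Finset.sum_congr rfl fun i hi => ?_
  rw [Finset.mem_range] at hi
  have h1 : x ^ n = x ^ (n - i) * x ^ i := by rw [← pow_add]; congr 1; omega
  rw [h1, div_pow]
  field_simp

end Idl

section Blow

variable {p : ℕ} [hp : Fact p.Prime] {F : Type} [Field F] [CharP F p] {W : ValuationSubring F}
  {B : Subring F} {x y : F} {Dx Dy : Derivation ℤ F F}

theorem Pt.mem_mm (hP : Pt p W B x y) {b : F} (hb : b ∈ B) (hv : W.valuation b < 1) :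
    b ∈ mm B x y := by
  obtain ⟨a, ha, c, hc, h⟩ := hP.max b hb hv
  exact S.mem_mm.mpr ⟨a, ha, c, hc, h⟩

theorem Pt.lt (hP : Pt p W B x y) {b : F} (hb : b ∈ mm B x y) : W.valuation b < 1 := by
  obtain ⟨a, ha, c, hc, rfl⟩ := S.mem_mm.mp hb
  refine W.valuation.map_add_lt ?_ ?_
  · rw [map_mul]
    calc W.valuation x * W.valuation a ≤ W.valuation x * 1 := mul_le_mul' le_rfl (hP.le a ha)
      _ < 1 := by rw [mul_one]; exact hP.vx
  · rw [map_mul]
    calc W.valuation y * W.valuation c ≤ W.valuation y * 1 := mul_le_mul' le_rfl (hP.le c hc)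
      _ < 1 := by rw [mul_one]; exact hP.vy

/-- The powers of the maximal ideal are detected by the blowing up. -/
theorem EC.pw_of_mul (h : EC p B x y Dx Dy) (hP : Pt p W B x y) (ht : W.valuation (y / x) ≤ 1)
    (n : ℕ) {b : F} (hb : b ∈ B) (hm : Mul (adj B (y / x)) (x ^ n) b) : Pw B x y n b := by
  induction n with
  | zero => exact Pw.zero_iff.mpr hb
  | succ n ih =>
    obtain ⟨s, hs, hm⟩ := hm
    obtain ⟨g, hg, h1⟩ := ih ⟨x * s, Subring.mul_mem _ (le_adj h.hx) hs, by rw [hm]; ring⟩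
    have hx0 := h.x0
    have h2 := h.f1 hP ht (n + 1) g hg ⟨s, hs, by
      apply mul_left_cancel₀ (pow_ne_zero n hx0)
      rw [Finset.mul_sum]
      have h3 : x ^ n * (x * s) = b := by rw [hm]; ring
      rw [h3, h1]
      refine Finset.sum_congr rfl fun i hi => ?_
      rw [Finset.mem_range] at hi
      have h4 : x ^ n = x ^ (n - i) * x ^ i := by rw [← pow_add]; congr 1; omega
      rw [h4, div_pow]
      field_simp⟩
    rw [h1]
    refine Pw.sum _ fun i hi => ?_
    rw [Finset.mem_range] at hi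
    exact (Pw.mon (by omega)).succ (hP.mem_mm (hg i) (h2 i hi))

theorem EC.not_mul_one (h : EC p B x y Dx Dy) (hP : Pt p W B x y) (ht : W.valuation (y / x) ≤ 1) :
    ¬ Mul (adj B (y / x)) x 1 := by
  intro h1
  have h2 := h.f1 hP ht 1 (fun _ => 1) (fun _ => B.one_mem) (by simpa using h1) 0 (by omega)
  rw [map_one] at h2
  exact lt_irrefl _ h2

/-- Units modulo the maximal ideal. -/
theorem Pt.exists_inv (hP : Pt p W B x y) {b : F} (hb : b ∈ B) (hv : W.valuation b = 1) :
    ∃ c ∈ B, c * b - 1 ∈ mm B x y := by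
  obtain ⟨n, hn, hq⟩ := hP.fin
  have h2 : 2 ≤ p ^ n := by
    calc 2 ≤ p := hp.out.two_le
      _ = p ^ 1 := (pow_one p).symm
      _ ≤ p ^ n := Nat.pow_le_pow_right hp.out.pos hn
  refine ⟨b ^ (p ^ n - 2), B.pow_mem hb _, ?_⟩
  apply hP.mem_mm (B.sub_mem (B.mul_mem (B.pow_mem hb _) hb) B.one_mem)
  have h3 := hq b hb
  have h4 : b ^ p ^ n - b = b * (b ^ (p ^ n - 2) * b - 1) := by
    have h5 : p ^ n = p ^ n - 2 + 1 + 1 := by omega
    conv_lhs => rw [h5]
    rw [pow_succ, pow_succ]; ring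
  rwa [h4, map_mul, hv, one_mul] at h3

/-- The residue field is finite. -/
theorem Pt.idx_mm (hP : Pt p W B x y) : (mm B x y).relIndex B.toAddSubgroup ≠ 0 ∧
    2 ≤ (mm B x y).relIndex B.toAddSubgroup := by
  have key : (mm B x y).relIndex B.toAddSubgroup ≠ 0 := by
    obtain ⟨n, hn, hq⟩ := hP.fin
    let I : Ideal B :=
      { carrier := {b | W.valuation (b : F) < 1}
        add_mem' := fun {a b} ha hb => W.valuation.map_add_lt ha hb
        zero_mem' := by simp
        smul_mem' := fun c b hb => by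
          show W.valuation ((c : F) * (b : F)) < 1
          rw [map_mul]
          exact (mul_le_mul' (hP.le c c.2) le_rfl).trans_lt (by rw [one_mul]; exact hb) }
    have hI : I.IsPrime := by
      refine ⟨fun h => ?_, fun {a b} hab => ?_⟩
      · have h1 : (1 : B) ∈ I := by rw [h]; trivial
        have h2 : W.valuation ((1 : B) : F) < 1 := h1
        simp at h2
      · by_contra hcon
        push Not at hcon
        have h1 : W.valuation (a : F) = 1 := le_antisymm (hP.le a a.2) (not_lt.mp hcon.1)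
        have h2 : W.valuation (b : F) = 1 := le_antisymm (hP.le b b.2) (not_lt.mp hcon.2)
        have h3 : W.valuation ((a : F) * (b : F)) < 1 := hab
        rw [map_mul, h1, h2, one_mul] at h3
        exact lt_irrefl _ h3
    have hdom : IsDomain (B ⧸ I) := Ideal.Quotient.isDomain I
    have hfin : Finite (B ⧸ I) := by
      have h1 : p ^ n ≠ 1 := by
        have : 2 ≤ p ^ n := by
          calc 2 ≤ p := hp.out.two_le
            _ = p ^ 1 := (pow_one p).symm
            _ ≤ p ^ n := Nat.pow_le_pow_right hp.out.pos hn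
        omega
      have h2 : (Polynomial.X ^ p ^ n - Polynomial.X : Polynomial (B ⧸ I)) ≠ 0 := by
        intro h0
        have h3 := congrArg (fun P => Polynomial.coeff P 1) h0
        simp only [Polynomial.coeff_sub, Polynomial.coeff_X_one, Polynomial.coeff_X_pow,
          Polynomial.coeff_zero, if_neg (Ne.symm h1)] at h3
        rw [zero_sub, neg_eq_zero] at h3
        exact one_ne_zero h3
      have h3 : (Set.univ : Set (B ⧸ I)) ⊆
          {a | Polynomial.IsRoot (Polynomial.X ^ p ^ n - Polynomial.X : Polynomial (B ⧸ I)) a} := by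
        intro a _
        obtain ⟨b, rfl⟩ := Ideal.Quotient.mk_surjective a
        show Polynomial.eval _ _ = 0
        rw [Polynomial.eval_sub, Polynomial.eval_pow, Polynomial.eval_X, ← map_pow, ← map_sub,
          Ideal.Quotient.eq_zero_iff_mem]
        exact hq b b.2
      exact Set.finite_univ_iff.mp ((Polynomial.finite_setOf_isRoot h2).subset h3)
    have h4 : (mm B x y).addSubgroupOf B.toAddSubgroup = I.toAddSubgroup := by
      ext b
      constructor
      · intro hb
        exact hP.lt (AddSubgroup.mem_addSubgroupOf.mp hb)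
      · intro hb
        exact AddSubgroup.mem_addSubgroupOf.mpr (hP.mem_mm b.2 hb)
    show ((mm B x y).addSubgroupOf B.toAddSubgroup).index ≠ 0
    rw [h4]
    have : Finite (B ⧸ I.toAddSubgroup) := hfin
    exact AddSubgroup.index_ne_zero_of_finite
  refine ⟨key, ?_⟩
  rcases Nat.lt_or_ge ((mm B x y).relIndex B.toAddSubgroup) 2 with h | h
  · exfalso
    have h1 : (mm B x y).relIndex B.toAddSubgroup = 1 := by omega
    rw [AddSubgroup.relIndex_eq_one] at h1
    have h2 := hP.lt (h1 B.one_mem)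
    rw [map_one] at h2
    exact lt_irrefl _ h2
  · exact h

/-- Ideals which contain powers of the coordinates have finite index. -/
theorem Pt.idx_ne (hP : Pt p W B x y) (hx : x ∈ B) (hy : y ∈ B) (hx0 : x ≠ 0) (hy0 : y ≠ 0)
    {I : AddSubgroup F} (hI : Idl B I) {a b : ℕ} (ha : x ^ a ∈ I) (hb : y ^ b ∈ I) :
    I.relIndex B.toAddSubgroup ≠ 0 := by
  have h1 : ∀ b, (sc x B.toAddSubgroup ⊔ sc (y ^ b) B.toAddSubgroup).relIndex
      B.toAddSubgroup ≠ 0 := by
    intro b
    induction b with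
    | zero =>
      have h2 : sc x B.toAddSubgroup ⊔ sc (y ^ 0) B.toAddSubgroup = B.toAddSubgroup := by
        refine le_antisymm (sup_le (Idl.scB hx).le (Idl.scB (by simp [B.one_mem])).le) ?_
        intro w hw
        exact AddSubgroup.mem_sup_right (mem_sc.mpr ⟨w, hw, by rw [pow_zero, one_mul]⟩)
      rw [h2, AddSubgroup.relIndex_self]
      exact one_ne_zero
    | succ b ih =>
      set K := sc x B.toAddSubgroup ⊔ sc (y ^ (b + 1)) B.toAddSubgroup with hK
      have h2 := (idx_step (B := B.toAddSubgroup) (H := mm B x y) (K := K) (pow_ne_zero b hy0)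
        (by
          intro w hw
          obtain ⟨m, hm, rfl⟩ := mem_sc.mp hw
          obtain ⟨u, hu, v, hv, rfl⟩ := S.mem_mm.mp hm
          have h3 : y ^ b * (x * u + y * v) = x * (y ^ b * u) + y ^ (b + 1) * v := by ring
          rw [h3]
          exact AddSubgroup.mem_sup.mpr ⟨_, mem_sc.mpr ⟨_, B.mul_mem (B.pow_mem hy _) hu, rfl⟩, _,
            mem_sc.mpr ⟨_, hv, rfl⟩, rfl⟩) hP.idx_mm.1).2
      have h3 : sc (y ^ b) B.toAddSubgroup ⊔ K =
          sc x B.toAddSubgroup ⊔ sc (y ^ b) B.toAddSubgroup := by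
        refine le_antisymm (sup_le le_sup_right (sup_le le_sup_left ?_))
          (sup_le (le_sup_left.trans le_sup_right) le_sup_left)
        intro w hw
        obtain ⟨c, hc, rfl⟩ := mem_sc.mp hw
        exact AddSubgroup.mem_sup_right (mem_sc.mpr ⟨y * c, B.mul_mem hy hc, by ring⟩)
      rw [h3] at h2
      exact AddSubgroup.relIndex_ne_zero_trans h2 ih
  have h2 : ∀ a, (sc (x ^ a) B.toAddSubgroup ⊔ sc (y ^ b) B.toAddSubgroup).relIndex
      B.toAddSubgroup ≠ 0 := by
    intro a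
    induction a with
    | zero =>
      have h2 : sc (x ^ 0) B.toAddSubgroup ⊔ sc (y ^ b) B.toAddSubgroup = B.toAddSubgroup := by
        refine le_antisymm (sup_le (Idl.scB (by simp [B.one_mem])).le (Idl.scB (B.pow_mem hy _)).le) ?_
        intro w hw
        exact AddSubgroup.mem_sup_left (mem_sc.mpr ⟨w, hw, by rw [pow_zero, one_mul]⟩)
      rw [h2, AddSubgroup.relIndex_self]
      exact one_ne_zero
    | succ a ih =>
      set K := sc (x ^ (a + 1)) B.toAddSubgroup ⊔ sc (y ^ b) B.toAddSubgroup with hK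
      have h2 := (idx_step (B := B.toAddSubgroup)
        (H := sc x B.toAddSubgroup ⊔ sc (y ^ b) B.toAddSubgroup) (K := K) (pow_ne_zero a hx0)
        (by
          intro w hw
          obtain ⟨m, hm, rfl⟩ := mem_sc.mp hw
          obtain ⟨u, hu, v, hv, rfl⟩ := AddSubgroup.mem_sup.mp hm
          obtain ⟨u, hu', rfl⟩ := mem_sc.mp hu
          obtain ⟨v, hv', rfl⟩ := mem_sc.mp hv
          have h3 : x ^ a * (x * u + y ^ b * v) = x ^ (a + 1) * u + y ^ b * (x ^ a * v) := by ring
          rw [h3]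
          exact AddSubgroup.mem_sup.mpr ⟨_, mem_sc.mpr ⟨_, hu', rfl⟩, _,
            mem_sc.mpr ⟨_, B.mul_mem (B.pow_mem hx _) hv', rfl⟩, rfl⟩) (h1 b)).2
      have h3 : sc (x ^ a) B.toAddSubgroup ⊔ K =
          sc (x ^ a) B.toAddSubgroup ⊔ sc (y ^ b) B.toAddSubgroup := by
        refine le_antisymm (sup_le le_sup_left (sup_le ?_ le_sup_right))
          (sup_le le_sup_left (le_sup_right.trans le_sup_right))
        intro w hw
        obtain ⟨c, hc, rfl⟩ := mem_sc.mp hw
        exact AddSubgroup.mem_sup_left (mem_sc.mpr ⟨x * c, B.mul_mem hx hc, by ring⟩)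
      rw [h3] at h2
      exact AddSubgroup.relIndex_ne_zero_trans h2 ih
  intro h3
  exact h2 a (AddSubgroup.relIndex_eq_zero_of_le_left (sup_le (hI.sc_le ha) (hI.sc_le hb)) h3)

/-- The span in a larger ring. -/
def spn (S : Subring F) (I : AddSubgroup F) : AddSubgroup F :=
  AddSubgroup.closure {w | ∃ s ∈ S, ∃ i ∈ I, w = s * i}

theorem mem_spn {S : Subring F} {I : AddSubgroup F} {s i : F} (hs : s ∈ S) (hi : i ∈ I) :
    s * i ∈ spn S I := AddSubgroup.subset_closure ⟨s, hs, i, hi, rfl⟩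

theorem spn_mul {S : Subring F} {I : AddSubgroup F} {s w : F} (hs : s ∈ S) (hw : w ∈ spn S I) :
    s * w ∈ spn S I := by
  induction hw using AddSubgroup.closure_induction with
  | mem w hw =>
    obtain ⟨a, ha, i, hi, rfl⟩ := hw
    rw [← mul_assoc]
    exact mem_spn (S.mul_mem hs ha) hi
  | zero => rw [mul_zero]; exact AddSubgroup.zero_mem _
  | add a b _ _ ha hb => rw [mul_add]; exact AddSubgroup.add_mem _ ha hb
  | neg a _ ha => rw [mul_neg]; exact AddSubgroup.neg_mem _ ha

end Blow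

end Pool.Agent.H96.S
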