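import Pool.Agent.H96.S.BL

/-!
# The blowing up inequality: the main estimate
-/

set_option autoImplicit false
set_option linter.unusedSectionVars false

namespace Pool.Agent.H96.S

/-- The transform of an ideal. -/
def tr {F : Type} [Field F] (S : Subring F) (x : F) (n : ℕ) (I : AddSubgroup F) : AddSubgroup F :=
  (spn S I).comap (AddMonoidHom.mulLeft (x ^ n))

theorem mem_tr {F : Type} [Field F] {S : Subring F} {x w : F} {n : ℕ} {I : AddSubgroup F} :
    w ∈ tr S x n I ↔ x ^ n * w ∈ spn S I := Iff.rfl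

variable {p : ℕ} [hp : Fact p.Prime] {F : Type} [Field F] [CharP F p] {W : ValuationSubring F}
  {B : Subring F} {x y : F} {Dx Dy : Derivation ℤ F F}

theorem tr_mul {S : Subring F} {n : ℕ} {I : AddSubgroup F} {s w : F} (hs : s ∈ S)
    (hw : w ∈ tr S x n I) : s * w ∈ tr S x n I := by
  rw [mem_tr] at hw ⊢
  have : x ^ n * (s * w) = s * (x ^ n * w) := by ring
  rw [this]
  exact spn_mul hs hw

theorem mem_mul_mm {S : Subring F} {t : F} (hBS : B ≤ S) (ht : t ∈ S) (hy : y = x * t) {c s : F}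
    (hc : c ∈ mm B x y) (hs : s ∈ S) : ∃ u ∈ S, c * s = x * u := by
  obtain ⟨a, ha, b, hb, rfl⟩ := mem_mm.mp hc
  refine ⟨(a + t * b) * s, S.mul_mem (S.add_mem (hBS ha) (S.mul_mem ht (hBS hb))) hs, ?_⟩
  rw [hy]; ring

/-- The equation modulo the transform. -/
def Rk (B S : Subring F) (x t : F) (T : AddSubgroup F) (d k : ℕ) (s : F) : Prop :=
  ∃ c : ℕ → F, (∀ i, c i ∈ B) ∧ ∃ u ∈ S, s - ∑ i ∈ Finset.range d, c i * t ^ i - x ^ k * u ∈ T

theorem Rk.add {S : Subring F} {t : F} {T : AddSubgroup F} {d k : ℕ} {s s' : F}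
    (h : Rk B S x t T d k s) (h' : Rk B S x t T d k s') : Rk B S x t T d k (s + s') := by
  obtain ⟨c, hc, u, hu, h⟩ := h
  obtain ⟨c', hc', u', hu', h'⟩ := h'
  refine ⟨fun i => c i + c' i, fun i => B.add_mem (hc i) (hc' i), u + u', S.add_mem hu hu', ?_⟩
  have h1 : s + s' - ∑ i ∈ Finset.range d, (c i + c' i) * t ^ i - x ^ k * (u + u') =
      (s - ∑ i ∈ Finset.range d, c i * t ^ i - x ^ k * u) +
      (s' - ∑ i ∈ Finset.range d, c' i * t ^ i - x ^ k * u') := by
    simp only [add_mul, Finset.sum_add_distrib]; ring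
  rw [h1]
  exact T.add_mem h h'

theorem Rk.smul {S : Subring F} {t : F} {T : AddSubgroup F} {d k : ℕ} {s b : F} (hb : b ∈ B)
    (hBS : B ≤ S) (hT : ∀ s ∈ S, ∀ w ∈ T, s * w ∈ T) (h : Rk B S x t T d k s) :
    Rk B S x t T d k (b * s) := by
  obtain ⟨c, hc, u, hu, h⟩ := h
  refine ⟨fun i => b * c i, fun i => B.mul_mem hb (hc i), b * u, S.mul_mem (hBS hb) hu, ?_⟩
  have h1 : b * s - ∑ i ∈ Finset.range d, b * c i * t ^ i - x ^ k * (b * u) =
      b * (s - ∑ i ∈ Finset.range d, c i * t ^ i - x ^ k * u) := by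
    simp only [mul_assoc, ← Finset.mul_sum]; ring
  rw [h1]
  exact hT b (hBS hb) _ h

theorem Rk.of_T {S : Subring F} {t : F} {T : AddSubgroup F} {d k : ℕ} {s : F} (hs : s ∈ T) :
    Rk B S x t T d k s :=
  ⟨fun _ => 0, fun _ => B.zero_mem, 0, S.zero_mem, by simpa using hs⟩

theorem Rk.of_x {S : Subring F} {t : F} {T : AddSubgroup F} {d k : ℕ} {u : F} (hu : u ∈ S) :
    Rk B S x t T d k (x ^ k * u) :=
  ⟨fun _ => 0, fun _ => B.zero_mem, u, hu, by simp [T.zero_mem]⟩

theorem Rk.of_pow {S : Subring F} {t : F} {T : AddSubgroup F} {d k i : ℕ} (hi : i < d) :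
    Rk B S x t T d k (t ^ i) := by
  refine ⟨fun j => if j = i then 1 else 0, fun j => ?_, 0, S.zero_mem, ?_⟩
  · show (if j = i then (1 : F) else 0) ∈ B
    split_ifs
    · exact B.one_mem
    · exact B.zero_mem
  · have h1 : ∑ j ∈ Finset.range d, (if j = i then (1 : F) else 0) * t ^ j = t ^ i := by
      rw [Finset.sum_eq_single i]
      · rw [if_pos rfl, one_mul]
      · intro j _ hj
        rw [if_neg hj, zero_mul]
      · intro h
        rw [Finset.mem_range] at h
        omega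
    rw [h1, mul_zero, sub_zero, sub_self]
    exact T.zero_mem

theorem Rk.sum {S : Subring F} {t : F} {T : AddSubgroup F} {d k : ℕ} (s : Finset ℕ) {f : ℕ → F}
    (hf : ∀ i ∈ s, Rk B S x t T d k (f i)) : Rk B S x t T d k (∑ i ∈ s, f i) := by
  induction s using Finset.induction_on with
  | empty => rw [Finset.sum_empty]; exact Rk.of_T T.zero_mem
  | insert a s ha ih =>
    rw [Finset.sum_insert ha]
    exact (hf a (Finset.mem_insert_self _ _)).add (ih fun i hi => hf i (Finset.mem_insert_of_mem hi))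

/-- The transform of `I` contains a polynomial of degree at most `n` which is nonzero modulo `x`:
the blowing up is generated by few powers of `t` modulo the transform. -/
theorem exists_few (h : EC p B x y Dx Dy) (hP : Pt p W B x y)
    {I : AddSubgroup F} {a : ℕ} (ha : x ^ a ∈ I) {n : ℕ}
    (hn : ∀ i ∈ I, Pw B x y n i) (hn' : ∃ g ∈ I, ¬ Pw B x y (n + 1) g) :
    ∃ d ≤ n, ∀ s ∈ adj B (y / x), ∃ c : ℕ → F, (∀ i, c i ∈ B) ∧
      s - ∑ i ∈ Finset.range d, c i * (y / x) ^ i ∈ tr (adj B (y / x)) x n I := by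
  have hx0 := h.x0
  set t := y / x with ht'
  have hyt : y = x * t := by rw [ht', mul_div_cancel₀ _ hx0]
  set S := adj B t with hS
  set T := tr S x n I with hT
  have hBS : B ≤ S := le_adj
  have htS : t ∈ S := mem_adj
  have hTm : ∀ s ∈ S, ∀ w ∈ T, s * w ∈ T := fun s hs w hw => tr_mul hs hw
  obtain ⟨g, hgI, hg'⟩ := hn'
  obtain ⟨c, hc, hgc⟩ := hn g hgI
  have hG : ∑ i ∈ Finset.range (n + 1), c i * t ^ i ∈ T := by
    rw [mem_tr]
    have h1 : x ^ n * ∑ i ∈ Finset.range (n + 1), c i * t ^ i = 1 * g := by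
      rw [Finset.mul_sum, hgc, one_mul]
      refine Finset.sum_congr rfl fun i hi => ?_
      rw [Finset.mem_range] at hi
      have h1 : x ^ n = x ^ (n - i) * x ^ i := by rw [← pow_add]; congr 1; omega
      rw [h1, hyt, mul_pow]
      ring
    rw [h1]
    exact mem_spn S.one_mem hgI
  -- the degree
  have hex : ∃ i ∈ Finset.range (n + 1), W.valuation (c i) = 1 := by
    by_contra hcon
    push Not at hcon
    apply hg'
    rw [hgc]
    refine Pw.sum _ fun i hi => ?_
    have h1 := hcon i hi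
    rw [Finset.mem_range] at hi
    exact (Pw.mon (by omega)).succ (hP.mem_mm (hc i) (lt_of_le_of_ne (hP.le _ (hc i)) h1))
  obtain ⟨i₀, hi₀, hv₀⟩ := hex
  set s₀ := (Finset.range (n + 1)).filter fun i => W.valuation (c i) = 1 with hs₀
  have hne : s₀.Nonempty := ⟨i₀, Finset.mem_filter.mpr ⟨hi₀, hv₀⟩⟩
  set d := s₀.max' hne with hd
  have hd1 := Finset.mem_filter.mp (s₀.max'_mem hne)
  rw [← hd, Finset.mem_range] at hd1
  have hd2 : ∀ i, i < n + 1 → d < i → W.valuation (c i) < 1 := by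
    intro i hi hdi
    refine lt_of_le_of_ne (hP.le _ (hc i)) fun h1 => ?_
    have := s₀.le_max' i (Finset.mem_filter.mpr ⟨Finset.mem_range.mpr hi, h1⟩)
    omega
  refine ⟨d, by omega, ?_⟩
  have hmx : ∀ b ∈ B, W.valuation b < 1 → ∀ s ∈ S, Rk B S x t T d 1 (b * s) := by
    intro b hb hv s hs
    obtain ⟨u, hu, h1⟩ := mem_mul_mm hBS htS hyt (hP.mem_mm hb hv) hs
    rw [h1]
    have h2 : Rk B S x t T d 1 (x ^ 1 * u) := Rk.of_x hu
    rwa [pow_one] at h2
  have hneg : ∀ {s : F}, Rk B S x t T d 1 s → Rk B S x t T d 1 (-s) := by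
    intro s hs
    have := hs.smul (B.neg_mem B.one_mem) hBS hTm
    rwa [neg_one_mul] at this
  -- the power `t ^ d`
  have hB1 : Rk B S x t T d 1 (t ^ d) := by
    obtain ⟨e, he, he1⟩ := hP.exists_inv (hc d) hd1.2
    have h1 : t ^ d = e * ∑ i ∈ Finset.range (n + 1), c i * t ^ i +
        -(∑ i ∈ (Finset.range (n + 1)).erase d, e * (c i * t ^ i)) + -((e * c d - 1) * t ^ d) := by
      rw [← Finset.mul_sum, ← Finset.add_sum_erase _ _ (Finset.mem_range.mpr hd1.1)]
      ring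
    rw [h1]
    refine Rk.add (Rk.add (Rk.of_T (hTm e (hBS he) _ hG)) (hneg (Rk.sum _ fun i hi => ?_)))
      (hneg (hmx _ (B.sub_mem (B.mul_mem he (hc d)) B.one_mem) (hP.lt he1) _ (S.pow_mem htS _)))
    rw [Finset.mem_erase, Finset.mem_range] at hi
    rcases Nat.lt_or_gt_of_ne hi.1 with h2 | h2
    · rw [← mul_assoc]
      exact (Rk.of_pow h2).smul (B.mul_mem he (hc i)) hBS hTm
    · exact (hmx _ (hc i) (hd2 i hi.2 h2) _ (S.pow_mem htS _)).smul he hBS hTm
  have hpow : ∀ m, Rk B S x t T d 1 (t ^ m) := by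
    intro m
    induction m with
    | zero =>
      rcases Nat.eq_zero_or_pos d with h0 | h0
      · have h3 : t ^ 0 = t ^ d := by rw [h0]
        rw [h3]
        exact hB1
      · exact Rk.of_pow h0
    | succ m ih =>
      obtain ⟨c', hc', u, hu, h1⟩ := ih
      have h2 : t ^ (m + 1) = ∑ i ∈ Finset.range d, c' i * t ^ (i + 1) + (x ^ 1 * (t * u) +
          t * (t ^ m - ∑ i ∈ Finset.range d, c' i * t ^ i - x ^ 1 * u)) := by
        have h3 : ∑ i ∈ Finset.range d, c' i * t ^ (i + 1) =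
            t * ∑ i ∈ Finset.range d, c' i * t ^ i := by
          rw [Finset.mul_sum]
          exact Finset.sum_congr rfl fun i _ => by rw [pow_succ]; ring
        rw [h3, pow_succ]; ring
      rw [h2]
      refine Rk.add (Rk.sum _ fun i hi => ?_) (Rk.add (Rk.of_x (S.mul_mem htS hu))
        (Rk.of_T (hTm t htS _ h1)))
      rw [Finset.mem_range] at hi
      refine Rk.smul (hc' i) hBS hTm ?_
      rcases Nat.lt_or_ge (i + 1) d with h4 | h4
      · exact Rk.of_pow h4
      · have : i + 1 = d := by omega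
        rw [this]
        exact hB1
  have hall : ∀ s ∈ S, Rk B S x t T d 1 s := by
    intro s hs
    obtain ⟨m, c', hc', rfl⟩ := mem_adj_iff.mp hs
    exact Rk.sum _ fun i _ => (hpow i).smul (hc' i) hBS hTm
  have hk : ∀ k, ∀ s ∈ S, Rk B S x t T d k s := by
    intro k
    induction k with
    | zero =>
      intro s hs
      exact ⟨fun _ => 0, fun _ => B.zero_mem, s, hs, by simp [T.zero_mem]⟩
    | succ k ih =>
      intro s hs
      obtain ⟨c₁, hc₁, u, hu, h1⟩ := ih s hs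
      obtain ⟨c₂, hc₂, u', hu', h2⟩ := hall u hu
      refine ⟨fun i => c₁ i + x ^ k * c₂ i, fun i => B.add_mem (hc₁ i)
        (B.mul_mem (B.pow_mem h.hx _) (hc₂ i)), u', hu', ?_⟩
      have h3 : s - ∑ i ∈ Finset.range d, (c₁ i + x ^ k * c₂ i) * t ^ i - x ^ (k + 1) * u' =
          (s - ∑ i ∈ Finset.range d, c₁ i * t ^ i - x ^ k * u) +
          x ^ k * (u - ∑ i ∈ Finset.range d, c₂ i * t ^ i - x ^ 1 * u') := by
        have h4 : ∑ i ∈ Finset.range d, (c₁ i + x ^ k * c₂ i) * t ^ i =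
            ∑ i ∈ Finset.range d, c₁ i * t ^ i + x ^ k * ∑ i ∈ Finset.range d, c₂ i * t ^ i := by
          rw [Finset.mul_sum, ← Finset.sum_add_distrib]
          exact Finset.sum_congr rfl fun i _ => by ring
        rw [h4, pow_succ]; ring
      rw [h3]
      exact T.add_mem h1 (hTm _ (S.pow_mem (hBS h.hx) _) _ h2)
  intro s hs
  obtain ⟨c', hc', u, hu, h1⟩ := hk a s hs
  refine ⟨c', hc', ?_⟩
  have h2 : s - ∑ i ∈ Finset.range d, c' i * t ^ i =
      (s - ∑ i ∈ Finset.range d, c' i * t ^ i - x ^ a * u) + x ^ a * u := by ring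
  rw [h2]
  refine T.add_mem h1 ?_
  rw [mem_tr]
  have h3 : x ^ n * (x ^ a * u) = x ^ n * u * x ^ a := by ring
  rw [h3]
  exact mem_spn (S.mul_mem (S.pow_mem (hBS h.hx) _) hu) ha

end Pool.Agent.H96.S
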