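import Pool.Agent.H96.S.BL2

/-!
# The blowing up inequality: the main estimate
-/

set_option autoImplicit false
set_option linter.unusedSectionVars false

namespace Pool.Agent.H96.S

variable {p : ℕ} [hp : Fact p.Prime] {F : Type} [Field F] [CharP F p] {W : ValuationSubring F}
  {B : Subring F} {x y : F} {Dx Dy : Derivation ℤ F F}

/-- The multiples of `a` in `S` which lie in `B`. -/
def jj (B S : Subring F) (a : F) : AddSubgroup F := sc a S.toAddSubgroup ⊓ B.toAddSubgroup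

theorem mem_jj {S : Subring F} {a b : F} : b ∈ jj B S a ↔ Mul S a b ∧ b ∈ B := by
  rw [jj, AddSubgroup.mem_inf, mem_sc]
  rfl

/-- **The main estimate.** -/
theorem EC.main (h : EC p B x y Dx Dy) (hP : Pt p W B x y)
    {I : AddSubgroup F} (hI : Idl B I) {a : ℕ} (ha : x ^ a ∈ I) {n : ℕ} (hn0 : 1 ≤ n)
    (hn : ∀ i ∈ I, Pw B x y n i) (hn' : ∃ g ∈ I, ¬ Pw B x y (n + 1) g)
    (hfin : I.relIndex B.toAddSubgroup ≠ 0) :
    (tr (adj B (y / x)) x n I).relIndex (adj B (y / x)).toAddSubgroup ≠ 0 ∧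
    (jj B (adj B (y / x)) (x ^ (n - 1))).relIndex B.toAddSubgroup ≠ 0 ∧
    (sc x B.toAddSubgroup ⊔ I).relIndex B.toAddSubgroup ≠ 0 ∧
    (tr (adj B (y / x)) x n I).relIndex (adj B (y / x)).toAddSubgroup *
      (jj B (adj B (y / x)) (x ^ (n - 1))).relIndex B.toAddSubgroup *
      (sc x B.toAddSubgroup ⊔ I).relIndex B.toAddSubgroup ≤ I.relIndex B.toAddSubgroup := by
  have hx0 := h.x0
  set t := y / x with ht'
  have hyt : y = x * t := by rw [ht', mul_div_cancel₀ _ hx0]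
  set S := adj B t with hS
  set T := tr S x n I with hT
  set J := jj B S (x ^ (n - 1)) with hJ
  set Q : AddSubgroup F := I.comap (AddMonoidHom.mulLeft x) ⊓ B.toAddSubgroup with hQ
  have mQ : ∀ b, b ∈ Q ↔ x * b ∈ I ∧ b ∈ B := fun b => by
    rw [hQ, AddSubgroup.mem_inf]; rfl
  have hBS : B ≤ S := le_adj
  have htS : t ∈ S := mem_adj
  have hxn : x ^ n = x * x ^ (n - 1) := by
    obtain ⟨m, rfl⟩ := Nat.exists_eq_add_of_le' hn0
    rw [Nat.add_sub_cancel, pow_succ]; ring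
  have hxn0 : x ^ (n - 1) ≠ 0 := pow_ne_zero _ hx0
  have hQJ : Q ≤ J := by
    intro b hb
    obtain ⟨h1, h2⟩ := (mQ b).mp hb
    refine mem_jj.mpr ⟨?_, h2⟩
    obtain ⟨s, hs, h3⟩ := (hn _ h1).mul hx0
    refine ⟨s, hs, ?_⟩
    rw [hxn] at h3
    have h4 : x * b = x * (x ^ (n - 1) * s) := by rw [h3]; ring
    exact mul_left_cancel₀ hx0 h4
  have hJB : J ≤ B.toAddSubgroup := fun b hb => (mem_jj.mp hb).2
  set X := sc (x ^ (n - 1))⁻¹ J with hX
  have hXT : sc (x ^ (n - 1))⁻¹ Q ≤ T := by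
    intro w hw
    obtain ⟨b, hb, rfl⟩ := mem_sc.mp hw
    rw [hT, mem_tr, hxn]
    have h1 : x * x ^ (n - 1) * ((x ^ (n - 1))⁻¹ * b) = 1 * (x * b) := by field_simp
    rw [h1]
    exact mem_spn S.one_mem ((mQ b).mp hb).1
  have hSX : S.toAddSubgroup ≤ X ⊔ T := by
    intro s hs
    obtain ⟨d, hd, hfew⟩ := exists_few h hP ha hn hn'
    obtain ⟨c, hc, h1⟩ := hfew s hs
    have h2 : s = ∑ i ∈ Finset.range d, c i * t ^ i + (s - ∑ i ∈ Finset.range d, c i * t ^ i) := by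
      ring
    rw [h2]
    refine AddSubgroup.mem_sup.mpr ⟨_, ?_, _, h1, rfl⟩
    rw [hX, mem_sc]
    refine ⟨x ^ (n - 1) * ∑ i ∈ Finset.range d, c i * t ^ i, ?_, by
      rw [← mul_assoc, inv_mul_cancel₀ hxn0, one_mul]⟩
    refine mem_jj.mpr ⟨⟨_, Subring.sum_mem _ fun i _ => Subring.mul_mem _ (hBS (hc i))
      (Subring.pow_mem _ htS _), rfl⟩, ?_⟩
    rw [Finset.mul_sum]
    refine Subring.sum_mem _ fun i hi => ?_
    rw [Finset.mem_range] at hi
    have h3 : x ^ (n - 1) * (c i * t ^ i) = c i * (x ^ (n - 1 - i) * y ^ i) := by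
      have h4 : x ^ (n - 1) = x ^ (n - 1 - i) * x ^ i := by rw [← pow_add]; congr 1; omega
      rw [h4, hyt, mul_pow]; ring
    rw [h3]
    exact B.mul_mem (hc i) (B.mul_mem (B.pow_mem h.hx _) (B.pow_mem h.hy _))
  -- indices
  have e1 : Q.relIndex B.toAddSubgroup = I.relIndex (sc x B.toAddSubgroup) := by
    rw [← relIndex_sc hx0 Q]
    have h1 : sc x Q = I ⊓ sc x B.toAddSubgroup := by
      ext w
      rw [AddSubgroup.mem_inf, mem_sc, mem_sc]
      constructor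
      · rintro ⟨b, hb, rfl⟩
        exact ⟨((mQ b).mp hb).1, b, ((mQ b).mp hb).2, rfl⟩
      · rintro ⟨hw, b, hb, rfl⟩
        exact ⟨b, (mQ b).mpr ⟨hw, hb⟩, rfl⟩
    rw [h1, AddSubgroup.inf_relIndex_right]
  have e2 : I.relIndex (sc x B.toAddSubgroup ⊔ I) = I.relIndex (sc x B.toAddSubgroup) :=
    relIndex_sup _ _
  have e3 : I.relIndex (sc x B.toAddSubgroup ⊔ I) *
      (sc x B.toAddSubgroup ⊔ I).relIndex B.toAddSubgroup = I.relIndex B.toAddSubgroup :=
    AddSubgroup.relIndex_mul_relIndex _ _ _ le_sup_right (sup_le (Idl.scB h.hx).le hI.le)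
  have e4 : Q.relIndex J * J.relIndex B.toAddSubgroup = Q.relIndex B.toAddSubgroup :=
    AddSubgroup.relIndex_mul_relIndex _ _ _ hQJ hJB
  have hQ0 : Q.relIndex B.toAddSubgroup ≠ 0 := by
    rw [e1, ← e2]
    intro h0
    rw [h0, zero_mul] at e3
    exact hfin e3.symm
  have hQJ0 : Q.relIndex J ≠ 0 := by
    intro h0
    rw [h0, zero_mul] at e4
    exact hQ0 e4.symm
  have e5 : (sc (x ^ (n - 1))⁻¹ Q).relIndex X = Q.relIndex J := relIndex_sc (inv_ne_zero hxn0) _ _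
  have e6 : T.relIndex X ≤ Q.relIndex J := by
    rw [← e5]
    exact AddSubgroup.relIndex_le_of_le_left hXT (by rw [e5]; exact hQJ0)
  have e7 : T.relIndex X ≠ 0 := by
    intro h0
    have := AddSubgroup.relIndex_eq_zero_of_le_left hXT h0
    rw [e5] at this
    exact hQJ0 this
  have e8 : T.relIndex (X ⊔ T) = T.relIndex X := relIndex_sup _ _
  have e9 : T.relIndex S.toAddSubgroup ≤ T.relIndex X := by
    rw [← e8]
    exact AddSubgroup.relIndex_le_of_le_right hSX (by rw [e8]; exact e7)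
  refine ⟨fun h0 => ?_, fun h0 => ?_, fun h0 => ?_, ?_⟩
  · have := AddSubgroup.relIndex_eq_zero_of_le_right hSX h0
    rw [e8] at this
    exact e7 this
  · rw [h0, mul_zero] at e4
    exact hQ0 e4.symm
  · rw [h0, mul_zero] at e3
    exact hfin e3.symm
  · calc T.relIndex S.toAddSubgroup * J.relIndex B.toAddSubgroup *
        (sc x B.toAddSubgroup ⊔ I).relIndex B.toAddSubgroup
        ≤ Q.relIndex J * J.relIndex B.toAddSubgroup *
          (sc x B.toAddSubgroup ⊔ I).relIndex B.toAddSubgroup :=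
        Nat.mul_le_mul_right _ (Nat.mul_le_mul_right _ (e9.trans e6))
      _ = I.relIndex B.toAddSubgroup := by rw [e4, e1, ← e2, e3]

end Pool.Agent.H96.S
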