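import Pool.Agent.H96.S.BL3

/-!
# The blowing up inequality: the drop
-/

set_option autoImplicit false
set_option linter.unusedSectionVars false

namespace Pool.Agent.H96.S

variable {p : ℕ} [hp : Fact p.Prime] {F : Type} [Field F] [CharP F p] {W : ValuationSubring F}
  {B : Subring F} {x y : F} {Dx Dy : Derivation ℤ F F}

/-- The ideal generated by three elements, with weights. -/
def I3 (P Q : AddSubgroup F) (B : Subring F) (u v w : F) : AddSubgroup F :=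
  sc u B.toAddSubgroup ⊔ (sc v P ⊔ sc w Q)

theorem mem_I3 {P Q : AddSubgroup F} {u v w a : F} : a ∈ I3 P Q B u v w ↔
    ∃ b ∈ B, ∃ c ∈ P, ∃ d ∈ Q, a = u * b + v * c + w * d := by
  rw [I3, AddSubgroup.mem_sup]
  constructor
  · rintro ⟨r, hr, s, hs, rfl⟩
    obtain ⟨b, hb, rfl⟩ := mem_sc.mp hr
    obtain ⟨s₁, hs₁, t, ht, rfl⟩ := AddSubgroup.mem_sup.mp hs
    obtain ⟨c, hc, rfl⟩ := mem_sc.mp hs₁
    obtain ⟨d, hd, rfl⟩ := mem_sc.mp ht
    exact ⟨b, hb, c, hc, d, hd, by ring⟩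
  · rintro ⟨b, hb, c, hc, d, hd, rfl⟩
    exact ⟨_, mem_sc.mpr ⟨b, hb, rfl⟩, _, AddSubgroup.mem_sup.mpr ⟨_, mem_sc.mpr ⟨c, hc, rfl⟩, _,
      mem_sc.mpr ⟨d, hd, rfl⟩, rfl⟩, by ring⟩

theorem Idl.I3 {P Q : AddSubgroup F} (hP : Idl B P) (hQ : Idl B Q) {u v w : F} (hu : u ∈ B)
    (hv : v ∈ B) (hw : w ∈ B) : Idl B (S.I3 P Q B u v w) where
  le := by
    intro a ha
    obtain ⟨b, hb, c, hc, d, hd, rfl⟩ := mem_I3.mp ha
    exact B.add_mem (B.add_mem (B.mul_mem hu hb) (B.mul_mem hv (hP.le hc))) (B.mul_mem hw (hQ.le hd))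
  mul := by
    intro r hr a ha
    obtain ⟨b, hb, c, hc, d, hd, rfl⟩ := mem_I3.mp ha
    exact mem_I3.mpr ⟨r * b, B.mul_mem hr hb, r * c, hP.mul r hr c hc, r * d, hQ.mul r hr d hd,
      by ring⟩

/-- The ideal generated by three elements. -/
def L3 (B : Subring F) (u v w : F) : AddSubgroup F := I3 B.toAddSubgroup B.toAddSubgroup B u v w

theorem Idl.L3 {u v w : F} (hu : u ∈ B) (hv : v ∈ B) (hw : w ∈ B) : Idl B (S.L3 B u v w) :=
  Idl.I3 Idl.top Idl.top hu hv hw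

section Idx

variable (hP : Pt p W B x y)

include hP

theorem Pt.mm_le {I : AddSubgroup F} (hI : I ≤ B.toAddSubgroup)
    (h : ∀ i ∈ I, W.valuation i < 1) : I ≤ mm B x y := fun i hi => hP.mem_mm (hI hi) (h i hi)

theorem Pt.kp_le {H : AddSubgroup F} (hH : H ≤ mm B x y) (h0 : H.relIndex B.toAddSubgroup ≠ 0) :
    (mm B x y).relIndex B.toAddSubgroup ≤ H.relIndex B.toAddSubgroup :=
  AddSubgroup.relIndex_le_of_le_left hH h0

/-- The index of an ideal with smaller weights. -/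
theorem Pt.step {I : AddSubgroup F} {v : F} (hI : ∀ c ∈ mm B x y, v * c ∈ I) :
    I.relIndex (sc v B.toAddSubgroup ⊔ I) ≤ (mm B x y).relIndex B.toAddSubgroup ∧
      I.relIndex (sc v B.toAddSubgroup ⊔ I) ≠ 0 := by
  by_cases hv : v = 0
  · subst hv
    have h1 : sc (0 : F) B.toAddSubgroup ≤ I := by
      intro a ha
      obtain ⟨b, hb, rfl⟩ := mem_sc.mp ha
      rw [zero_mul]; exact I.zero_mem
    rw [sup_eq_right.mpr h1, AddSubgroup.relIndex_self]
    have := hP.idx_mm.2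
    exact ⟨by omega, one_ne_zero⟩
  · refine idx_step (B := B.toAddSubgroup) (H := mm B x y) hv (fun a ha => ?_) hP.idx_mm.1
    obtain ⟨c, hc, rfl⟩ := mem_sc.mp ha
    exact hI c hc

theorem Pt.idx_I10 {u v w : F} (hx : x ∈ B) (hy : y ∈ B) (hu : u ∈ B) (hv : v ∈ B) (hw : w ∈ B)
    (h0 : (L3 B u v w).relIndex B.toAddSubgroup ≠ 0) :
    (I3 B.toAddSubgroup (mm B x y) B u v w).relIndex B.toAddSubgroup ≠ 0 ∧
    (I3 B.toAddSubgroup (mm B x y) B u v w).relIndex B.toAddSubgroup ≤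
      (mm B x y).relIndex B.toAddSubgroup * (L3 B u v w).relIndex B.toAddSubgroup := by
  have h1 : sc w B.toAddSubgroup ⊔ I3 B.toAddSubgroup (mm B x y) B u v w = L3 B u v w := by
    apply le_antisymm
    · refine sup_le (fun a ha => ?_) (fun a ha => ?_)
      · obtain ⟨b, hb, rfl⟩ := mem_sc.mp ha
        exact mem_I3.mpr ⟨0, B.zero_mem, 0, B.zero_mem, b, hb, by ring⟩
      · obtain ⟨b, hb, c, hc, d, hd, rfl⟩ := mem_I3.mp ha
        exact mem_I3.mpr ⟨b, hb, c, hc, d, (Idl.mm hx hy).le hd, rfl⟩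
    · intro a ha
      obtain ⟨b, hb, c, hc, d, hd, rfl⟩ := mem_I3.mp ha
      exact AddSubgroup.mem_sup.mpr ⟨w * d, mem_sc.mpr ⟨d, hd, rfl⟩, u * b + v * c,
        mem_I3.mpr ⟨b, hb, c, hc, 0, AddSubgroup.zero_mem _, by ring⟩, by ring⟩
  obtain ⟨h2, h3⟩ := hP.step (I := I3 B.toAddSubgroup (mm B x y) B u v w) (v := w)
    (fun c hc => mem_I3.mpr ⟨0, B.zero_mem, 0, B.zero_mem, c, hc, by ring⟩)
  rw [h1] at h2 h3
  have h4 := AddSubgroup.relIndex_mul_relIndex (I3 B.toAddSubgroup (mm B x y) B u v w) (L3 B u v w)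
    B.toAddSubgroup (by rw [← h1]; exact le_sup_right) (Idl.L3 hu hv hw).le
  rw [← h4]
  exact ⟨mul_ne_zero h3 h0, Nat.mul_le_mul_right _ h2⟩

theorem Pt.idx_I01 {u v w : F} (hx : x ∈ B) (hy : y ∈ B) (hu : u ∈ B) (hv : v ∈ B) (hw : w ∈ B)
    (h0 : (L3 B u v w).relIndex B.toAddSubgroup ≠ 0) :
    (I3 (mm B x y) B.toAddSubgroup B u v w).relIndex B.toAddSubgroup ≠ 0 ∧
    (I3 (mm B x y) B.toAddSubgroup B u v w).relIndex B.toAddSubgroup ≤
      (mm B x y).relIndex B.toAddSubgroup * (L3 B u v w).relIndex B.toAddSubgroup := by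
  have h1 : sc v B.toAddSubgroup ⊔ I3 (mm B x y) B.toAddSubgroup B u v w = L3 B u v w := by
    apply le_antisymm
    · refine sup_le (fun a ha => ?_) (fun a ha => ?_)
      · obtain ⟨b, hb, rfl⟩ := mem_sc.mp ha
        exact mem_I3.mpr ⟨0, B.zero_mem, b, hb, 0, B.zero_mem, by ring⟩
      · obtain ⟨b, hb, c, hc, d, hd, rfl⟩ := mem_I3.mp ha
        exact mem_I3.mpr ⟨b, hb, c, (Idl.mm hx hy).le hc, d, hd, rfl⟩
    · intro a ha
      obtain ⟨b, hb, c, hc, d, hd, rfl⟩ := mem_I3.mp ha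
      exact AddSubgroup.mem_sup.mpr ⟨v * c, mem_sc.mpr ⟨c, hc, rfl⟩, u * b + w * d,
        mem_I3.mpr ⟨b, hb, 0, AddSubgroup.zero_mem _, d, hd, by ring⟩, by ring⟩
  obtain ⟨h2, h3⟩ := hP.step (I := I3 (mm B x y) B.toAddSubgroup B u v w) (v := v)
    (fun c hc => mem_I3.mpr ⟨0, B.zero_mem, c, hc, 0, B.zero_mem, by ring⟩)
  rw [h1] at h2 h3
  have h4 := AddSubgroup.relIndex_mul_relIndex (I3 (mm B x y) B.toAddSubgroup B u v w) (L3 B u v w)
    B.toAddSubgroup (by rw [← h1]; exact le_sup_right) (Idl.L3 hu hv hw).le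
  rw [← h4]
  exact ⟨mul_ne_zero h3 h0, Nat.mul_le_mul_right _ h2⟩

theorem Pt.idx_I00 {u v w : F} (hx : x ∈ B) (hy : y ∈ B) (hu : u ∈ B) (hv : v ∈ B) (hw : w ∈ B)
    (h0 : (L3 B u v w).relIndex B.toAddSubgroup ≠ 0) :
    (I3 (mm B x y) (mm B x y) B u v w).relIndex B.toAddSubgroup ≠ 0 ∧
    (I3 (mm B x y) (mm B x y) B u v w).relIndex B.toAddSubgroup ≤
      (mm B x y).relIndex B.toAddSubgroup * ((mm B x y).relIndex B.toAddSubgroup *
        (L3 B u v w).relIndex B.toAddSubgroup) := by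
  have h1 : sc v B.toAddSubgroup ⊔ I3 (mm B x y) (mm B x y) B u v w =
      I3 B.toAddSubgroup (mm B x y) B u v w := by
    apply le_antisymm
    · refine sup_le (fun a ha => ?_) (fun a ha => ?_)
      · obtain ⟨b, hb, rfl⟩ := mem_sc.mp ha
        exact mem_I3.mpr ⟨0, B.zero_mem, b, hb, 0, AddSubgroup.zero_mem _, by ring⟩
      · obtain ⟨b, hb, c, hc, d, hd, rfl⟩ := mem_I3.mp ha
        exact mem_I3.mpr ⟨b, hb, c, (Idl.mm hx hy).le hc, d, hd, rfl⟩
    · intro a ha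
      obtain ⟨b, hb, c, hc, d, hd, rfl⟩ := mem_I3.mp ha
      exact AddSubgroup.mem_sup.mpr ⟨v * c, mem_sc.mpr ⟨c, hc, rfl⟩, u * b + w * d,
        mem_I3.mpr ⟨b, hb, 0, AddSubgroup.zero_mem _, d, hd, by ring⟩, by ring⟩
  obtain ⟨h2, h3⟩ := hP.step (I := I3 (mm B x y) (mm B x y) B u v w) (v := v)
    (fun c hc => mem_I3.mpr ⟨0, B.zero_mem, c, hc, 0, AddSubgroup.zero_mem _, by ring⟩)
  obtain ⟨h5, h6⟩ := hP.idx_I10 hx hy hu hv hw h0
  rw [h1] at h2 h3
  have h4 := AddSubgroup.relIndex_mul_relIndex (I3 (mm B x y) (mm B x y) B u v w)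
    (I3 B.toAddSubgroup (mm B x y) B u v w)
    B.toAddSubgroup (by rw [← h1]; exact le_sup_right) (Idl.I3 Idl.top (Idl.mm hx hy) hu hv hw).le
  rw [← h4]
  exact ⟨mul_ne_zero h3 h5, Nat.mul_le_mul h2 h6⟩

end Idx

section Order

theorem EC.not_pw (h : EC p B x y Dx Dy) (hP : Pt p W B x y) (ht : W.valuation (y / x) ≤ 1)
    (a : ℕ) : ¬ Pw B x y (a + 1) (x ^ a) := by
  intro h1
  obtain ⟨s, hs, h2⟩ := h1.mul h.x0
  apply h.not_mul_one hP ht
  refine ⟨s, hs, ?_⟩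
  apply mul_left_cancel₀ (pow_ne_zero a h.x0)
  rw [mul_one, ← mul_assoc, ← pow_succ]
  exact h2

/-- The order of an ideal. -/
theorem EC.exists_ord (h : EC p B x y Dx Dy) (hP : Pt p W B x y) (ht : W.valuation (y / x) ≤ 1)
    {I : AddSubgroup F} (hI : Idl B I) {a : ℕ} (ha : x ^ a ∈ I) :
    ∃ n, (∀ i ∈ I, Pw B x y n i) ∧ (∃ g ∈ I, ¬ Pw B x y (n + 1) g) ∧
      ∀ m, (∀ i ∈ I, Pw B x y m i) → m ≤ n := by
  classical
  have hex : ∃ n, ¬ ∀ i ∈ I, Pw B x y (n + 1) i := ⟨a, fun h1 => h.not_pw hP ht a (h1 _ ha)⟩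
  have hdec : ∀ m n, m ≤ n → (∀ i ∈ I, Pw B x y n i) → ∀ i ∈ I, Pw B x y m i := by
    intro m n hmn
    induction n with
    | zero => intro h1; rw [Nat.le_zero.mp hmn]; exact h1
    | succ n ih =>
      intro h1
      rcases Nat.lt_or_ge m (n + 1) with h2 | h2
      · refine ih (by omega) fun i hi => ?_
        apply h.pw_of_mul hP ht n (hI.le hi)
        obtain ⟨s, hs, h3⟩ := (h1 i hi).mul h.x0
        exact ⟨x * s, Subring.mul_mem _ (le_adj h.hx) hs, by rw [h3, pow_succ]; ring⟩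
      · have : m = n + 1 := by omega
        rw [this]; exact h1
  set n := Nat.find hex with hn
  have h1 := Nat.find_spec hex
  rw [← hn] at h1
  have h2 : ∀ i ∈ I, Pw B x y n i := by
    rcases Nat.eq_zero_or_pos n with h3 | h3
    · intro i hi
      rw [h3]
      exact Pw.zero_iff.mpr (hI.le hi)
    · have h4 := Nat.find_min hex (m := n - 1) (by omega)
      rw [not_not] at h4
      have h5 : n - 1 + 1 = n := by omega
      rwa [h5] at h4
  refine ⟨n, h2, ?_, fun m hm => ?_⟩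
  · push Not at h1
    exact h1
  · by_contra hcon
    exact h1 (hdec _ _ (by omega) hm)

theorem Pw.one_iff {b : F} : Pw B x y 1 b ↔ b ∈ mm B x y := by
  constructor
  · rintro ⟨g, hg, rfl⟩
    refine mem_mm.mpr ⟨g 0, hg 0, g 1, hg 1, ?_⟩
    simp [Finset.sum_range_succ]; ring
  · intro hb
    have := (Pw.zero_iff.mpr B.one_mem : Pw B x y 0 1).succ hb
    rwa [mul_one] at this

/-- The elements `x` and `y ^ 2`. -/
theorem EC.idx_sq (h : EC p B x y Dx Dy) (hP : Pt p W B x y) (ht : W.valuation (y / x) ≤ 1)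
    {K : AddSubgroup F} (hK : K ≤ sc x B.toAddSubgroup ⊔ sc (y ^ 2) B.toAddSubgroup)
    (h0 : K.relIndex B.toAddSubgroup ≠ 0) :
    (mm B x y).relIndex B.toAddSubgroup * (mm B x y).relIndex B.toAddSubgroup ≤
      K.relIndex B.toAddSubgroup := by
  set K' := sc x B.toAddSubgroup ⊔ sc (y ^ 2) B.toAddSubgroup with hK'
  have hK'm : K' ≤ mm B x y := by
    refine sup_le le_sup_left ?_
    intro a ha
    obtain ⟨b, hb, rfl⟩ := mem_sc.mp ha
    exact mem_mm.mpr ⟨0, B.zero_mem, y * b, B.mul_mem h.hy hb, by ring⟩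
  have h0' : K'.relIndex B.toAddSubgroup ≠ 0 :=
    fun h1 => h0 (AddSubgroup.relIndex_eq_zero_of_le_left hK h1)
  have h1 : K'.relIndex B.toAddSubgroup ≤ K.relIndex B.toAddSubgroup :=
    AddSubgroup.relIndex_le_of_le_left hK h0
  refine le_trans ?_ h1
  have h2 := AddSubgroup.relIndex_mul_relIndex K' (mm B x y) B.toAddSubgroup hK'm
    (Idl.mm h.hx h.hy).le
  rw [← h2]
  refine Nat.mul_le_mul_right _ ?_
  have h3 : mm B x y = sc y B.toAddSubgroup ⊔ K' := by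
    apply le_antisymm
    · exact sup_le (le_sup_left.trans le_sup_right) le_sup_left
    · refine sup_le le_sup_right hK'm
  set H : AddSubgroup F := K'.comap (AddMonoidHom.mulLeft y) ⊓ B.toAddSubgroup with hH
  have mH : ∀ b, b ∈ H ↔ y * b ∈ K' ∧ b ∈ B := fun b => by
    rw [hH, AddSubgroup.mem_inf]; rfl
  have h4 : K'.relIndex (mm B x y) = H.relIndex B.toAddSubgroup := by
    rw [h3, relIndex_sup, ← relIndex_sc h.y0 H]
    have h5 : sc y H = K' ⊓ sc y B.toAddSubgroup := by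
      ext w
      rw [AddSubgroup.mem_inf, mem_sc, mem_sc]
      constructor
      · rintro ⟨b, hb, rfl⟩
        exact ⟨((mH b).mp hb).1, b, ((mH b).mp hb).2, rfl⟩
      · rintro ⟨hw, b, hb, rfl⟩
        exact ⟨b, (mH b).mpr ⟨hw, hb⟩, rfl⟩
    rw [h5, AddSubgroup.inf_relIndex_right]
  have h6 : H ≤ mm B x y := by
    intro b hb
    obtain ⟨h7, h8⟩ := (mH b).mp hb
    obtain ⟨r, hr, s, hs, h9⟩ := AddSubgroup.mem_sup.mp h7
    obtain ⟨a, ha, rfl⟩ := mem_sc.mp hr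
    obtain ⟨c, hc, rfl⟩ := mem_sc.mp hs
    have h10 := h.f1 hP ht 2 (fun i => if i = 0 then -a else b - y * c) (fun i => by
      show (if i = 0 then -a else b - y * c) ∈ B
      split_ifs
      · exact B.neg_mem ha
      · exact B.sub_mem h8 (B.mul_mem h.hy hc)) ⟨0, Subring.zero_mem _, by
        rw [Finset.sum_range_succ, Finset.sum_range_one]
        show (if (0 : ℕ) = 0 then -a else b - y * c) * _ + (if 1 = 0 then -a else b - y * c) * _ = _
        rw [if_pos rfl, if_neg one_ne_zero, pow_zero, pow_one, mul_one]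
        have hx0 := h.x0
        field_simp
        linear_combination -h9⟩ 1 (by omega)
    have h11 : W.valuation (b - y * c) < 1 := by
      have : (if (1 : ℕ) = 0 then -a else b - y * c) = b - y * c := if_neg one_ne_zero
      rwa [this] at h10
    have h12 : b = (b - y * c) + y * c := by ring
    rw [h12]
    exact AddSubgroup.add_mem _ (hP.mem_mm (B.sub_mem h8 (B.mul_mem h.hy hc)) h11)
      (mem_mm.mpr ⟨0, B.zero_mem, c, hc, by ring⟩)
  rw [h4]
  refine hP.kp_le h6 fun h7 => ?_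
  rw [← h4] at h7
  rw [h7, zero_mul] at h2
  exact h0' h2.symm

/-- Elements of the maximal ideal with small derivative. -/
theorem EC.mem_sq (h : EC p B x y Dx Dy) (hP : Pt p W B x y) {u : F} (hu : u ∈ mm B x y)
    (hd : W.valuation (Dy u) < 1) : u ∈ sc x B.toAddSubgroup ⊔ sc (y ^ 2) B.toAddSubgroup := by
  obtain ⟨a, ha, b, hb, rfl⟩ := mem_mm.mp hu
  have h1 : Dy (x * a + y * b) = x * Dy a + (y * Dy b + b) := by
    rw [map_add, Derivation.leibniz, Derivation.leibniz, h.yx, h.yy, smul_zero, add_zero,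
      smul_eq_mul, smul_eq_mul, smul_eq_mul, mul_one]
  have h2 : b = Dy (x * a + y * b) + (-(x * Dy a + y * Dy b)) := by rw [h1]; ring
  have h3 : W.valuation b < 1 := by
    rw [h2]
    refine W.valuation.map_add_lt hd ?_
    rw [Valuation.map_neg]
    exact hP.lt (mem_mm.mpr ⟨_, h.dy a ha, _, h.dy b hb, rfl⟩)
  obtain ⟨c, hc, e, he, h4⟩ := mem_mm.mp (hP.mem_mm hb h3)
  refine AddSubgroup.mem_sup.mpr ⟨x * (a + y * c), mem_sc.mpr ⟨_, B.add_mem ha (B.mul_mem h.hy hc),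
    rfl⟩, y ^ 2 * e, mem_sc.mpr ⟨e, he, rfl⟩, ?_⟩
  rw [h4]; ring

end Order

end Pool.Agent.H96.S
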