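import Pool.Agent.H96.S.BL4

/-!
# The blowing up inequality: the drop theorem
-/

set_option autoImplicit false
set_option linter.unusedSectionVars false

namespace Pool.Agent.H96.S

variable {p : ℕ} [hp : Fact p.Prime] {F : Type} [Field F] [CharP F p] {W : ValuationSubring F}
  {B : Subring F} {x y : F} {Dx Dy : Derivation ℤ F F}

/-- The weights. -/
def wt (B : Subring F) (x y : F) (b : Bool) : AddSubgroup F := cond b B.toAddSubgroup (mm B x y)

/-- Their generators. -/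
def wX (x : F) (b : Bool) : F := cond b 1 x

theorem spn_I3 {S : Subring F} {t : F} (hBS : B ≤ S) (hx : x ∈ B) (ht : t ∈ S) (hy : y = x * t)
    (fx fy : Bool) {u v w : F} :
    spn S (I3 (wt B x y fx) (wt B x y fy) B u v w) = L3 S u (wX x fx * v) (wX x fy * w) := by
  have h1 : ∀ (b : Bool), ∀ c ∈ wt B x y b, ∃ c' ∈ S, c = wX x b * c' := by
    intro b c hc
    cases b
    · obtain ⟨r, hr, s, hs, rfl⟩ := mem_mm.mp hc
      exact ⟨r + t * s, S.add_mem (hBS hr) (S.mul_mem ht (hBS hs)), by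
        show x * r + y * s = x * _
        rw [hy]; ring⟩
    · exact ⟨c, hBS hc, (one_mul c).symm⟩
  have h2 : ∀ b : Bool, wX x b ∈ wt B x y b := by
    intro b
    cases b
    · exact mem_mm.mpr ⟨1, B.one_mem, 0, B.zero_mem, by show x = _; ring⟩
    · exact B.one_mem
  apply le_antisymm
  · rw [spn, AddSubgroup.closure_le]
    rintro _ ⟨s, hs, i, hi, rfl⟩
    obtain ⟨b, hb, c, hc, d, hd, rfl⟩ := mem_I3.mp hi
    obtain ⟨c', hc', rfl⟩ := h1 fx c hc
    obtain ⟨d', hd', rfl⟩ := h1 fy d hd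
    exact mem_I3.mpr ⟨s * b, S.mul_mem hs (hBS hb), s * c', S.mul_mem hs hc', s * d',
      S.mul_mem hs hd', by ring⟩
  · intro a ha
    obtain ⟨b, hb, c, hc, d, hd, rfl⟩ := mem_I3.mp ha
    have e1 : u * b = b * u := mul_comm _ _
    have e2 : wX x fx * v * c = c * (v * wX x fx) := by ring
    have e3 : wX x fy * w * d = d * (w * wX x fy) := by ring
    have z : ∀ b : Bool, (0 : F) ∈ wt B x y b := fun b => AddSubgroup.zero_mem _
    rw [e1, e2, e3]
    refine AddSubgroup.add_mem _ (AddSubgroup.add_mem _ (mem_spn hb ?_) (mem_spn hc ?_))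
      (mem_spn hd ?_)
    · exact mem_I3.mpr ⟨1, B.one_mem, 0, z _, 0, z _, by ring⟩
    · exact mem_I3.mpr ⟨0, B.zero_mem, _, h2 fx, 0, z _, by ring⟩
    · exact mem_I3.mpr ⟨0, B.zero_mem, 0, z _, _, h2 fy, by ring⟩

/-- The new generators. -/
theorem tr_I3 {S : Subring F} {t : F} (hBS : B ≤ S) (hx : x ∈ B) (hx0 : x ≠ 0) (ht : t ∈ S)
    (hy : y = x * t) (fx fy : Bool) (n : ℕ) {u v w : F} :
    tr S x n (I3 (wt B x y fx) (wt B x y fy) B u v w) =
      L3 S (u / x ^ n) ((wX x fx * v + wX x fy * cond fy 1 t * w) / x ^ n)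
        (wX x fy * w / x ^ n) := by
  have hxn := pow_ne_zero n hx0
  have ht' : cond fy 1 t ∈ S := by
    cases fy
    · exact ht
    · exact S.one_mem
  ext s
  rw [mem_tr, spn_I3 hBS hx ht hy, L3, L3, mem_I3, mem_I3]
  constructor
  · rintro ⟨b, hb, c, hc, d, hd, h1⟩
    refine ⟨b, hb, c, hc, d - c * cond fy 1 t, S.sub_mem hd (S.mul_mem hc ht'), ?_⟩
    apply mul_left_cancel₀ hxn
    rw [h1]
    field_simp
    ring
  · rintro ⟨b, hb, c, hc, d, hd, h1⟩
    refine ⟨b, hb, c, hc, d + c * cond fy 1 t, S.add_mem hd (S.mul_mem hc ht'), ?_⟩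
    rw [h1]
    field_simp
    ring

/-- Powers of the coordinates in the smaller ideal. -/
theorem pow_mem_I3 {z : F} (hz : z ∈ mm B x y) (hzB : z ∈ B) (hx : x ∈ B) (hy : y ∈ B) {m : ℕ}
    {u v w : F} (hm : z ^ m ∈ L3 B u v w) (fx fy : Bool) :
    z ^ (m + 1) ∈ I3 (wt B x y fx) (wt B x y fy) B u v w := by
  obtain ⟨b, hb, c, hc, d, hd, h1⟩ := mem_I3.mp hm
  have h2 : ∀ (b : Bool), ∀ c ∈ B, z * c ∈ wt B x y b := by
    intro b c hc
    cases b
    · show z * c ∈ mm B x y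
      rw [mul_comm]
      exact (Idl.mm hx hy).mul c hc z hz
    · exact B.mul_mem hzB hc
  refine mem_I3.mpr ⟨z * b, B.mul_mem hzB hb, z * c, h2 _ _ hc, z * d, h2 _ _ hd, ?_⟩
  rw [pow_succ, h1]; ring

theorem Pw.sq {a b : F} (ha : a ∈ mm B x y) (hb : b ∈ mm B x y) : Pw B x y 2 (a * b) :=
  (Pw.one_iff.mpr hb).succ ha

/-- Elements with small derivatives. -/
theorem EC.mem_sq' (h : EC p B x y Dx Dy) (hP : Pt p W B x y) {u : F} (hu : u ∈ mm B x y)
    (hdx : W.valuation (Dx u) < 1) (hdy : W.valuation (Dy u) < 1) : Pw B x y 2 u := by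
  obtain ⟨a, ha, b, hb, rfl⟩ := mem_mm.mp hu
  have hxm : x ∈ mm B x y := mem_mm.mpr ⟨1, B.one_mem, 0, B.zero_mem, by ring⟩
  have hym : y ∈ mm B x y := mem_mm.mpr ⟨0, B.zero_mem, 1, B.one_mem, by ring⟩
  have h1 : Dy (x * a + y * b) = x * Dy a + (y * Dy b + b) := by
    rw [map_add, Derivation.leibniz, Derivation.leibniz, h.yx, h.yy, smul_zero, add_zero,
      smul_eq_mul, smul_eq_mul, smul_eq_mul, mul_one]
  have h2 : Dx (x * a + y * b) = x * Dx a + a + y * Dx b := by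
    rw [map_add, Derivation.leibniz, Derivation.leibniz, h.xx, h.xy, smul_zero, add_zero,
      smul_eq_mul, smul_eq_mul, smul_eq_mul, mul_one]
  have hbv : W.valuation b < 1 := by
    have h3 : b = Dy (x * a + y * b) + (-(x * Dy a + y * Dy b)) := by rw [h1]; ring
    rw [h3]
    refine W.valuation.map_add_lt hdy ?_
    rw [Valuation.map_neg]
    exact hP.lt (mem_mm.mpr ⟨_, h.dy a ha, _, h.dy b hb, rfl⟩)
  have hav : W.valuation a < 1 := by
    have h3 : a = Dx (x * a + y * b) + (-(x * Dx a + y * Dx b)) := by rw [h2]; ring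
    rw [h3]
    refine W.valuation.map_add_lt hdx ?_
    rw [Valuation.map_neg]
    exact hP.lt (mem_mm.mpr ⟨_, h.dx a ha, _, h.dx b hb, rfl⟩)
  exact (Pw.sq hxm (hP.mem_mm ha hav)).add (Pw.sq hym (hP.mem_mm hb hbv))

/-- **The drop.** -/
theorem EC.drop (h : EC p B x y Dx Dy) (hP : Pt p W B x y) (ht : W.valuation (y / x) ≤ 1)
    {u v w : F} (hu : u ∈ B) (hv : v ∈ B) (hw : w ∈ B) (hL : L3 B u v w ≤ mm B x y) {m : ℕ}
    (hxm : x ^ m ∈ L3 B u v w) (hym : y ^ m ∈ L3 B u v w) (fx fy : Bool)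
    (hfl : fx = true → fy = false → W.valuation (Dy u) < 1 ∧ W.valuation (Dy v) < 1)
    (hfl0 : fx = false → fy = false → W.valuation (Dx u) < 1 ∧ W.valuation (Dy u) < 1) :
    ∃ n, (∀ i ∈ I3 (wt B x y fx) (wt B x y fy) B u v w, Pw B x y n i) ∧
      (tr (adj B (y / x)) x n (I3 (wt B x y fx) (wt B x y fy) B u v w)).relIndex
        (adj B (y / x)).toAddSubgroup ≠ 0 ∧
      ((tr (adj B (y / x)) x n (I3 (wt B x y fx) (wt B x y fy) B u v w)).relIndex
        (adj B (y / x)).toAddSubgroup < (L3 B u v w).relIndex B.toAddSubgroup ∨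
      (fx = false ∧ fy = true ∧
        (tr (adj B (y / x)) x n (I3 (wt B x y fx) (wt B x y fy) B u v w)).relIndex
        (adj B (y / x)).toAddSubgroup ≤ (L3 B u v w).relIndex B.toAddSubgroup)) := by
  set I := I3 (wt B x y fx) (wt B x y fy) B u v w with hI
  have hwt : ∀ b, Idl B (wt B x y b) := by
    intro b
    cases b
    · exact Idl.mm h.hx h.hy
    · exact Idl.top
  have hwB : ∀ b, wt B x y b ≤ B.toAddSubgroup := fun b => (hwt b).le
  have hIi : Idl B I := Idl.I3 (hwt fx) (hwt fy) hu hv hw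
  have hLi : Idl B (L3 B u v w) := Idl.L3 hu hv hw
  have hL0 : (L3 B u v w).relIndex B.toAddSubgroup ≠ 0 :=
    hP.idx_ne h.hx h.hy h.x0 h.y0 hLi hxm hym
  have hxmm : x ∈ mm B x y := mem_mm.mpr ⟨1, B.one_mem, 0, B.zero_mem, by ring⟩
  have hymm : y ∈ mm B x y := mem_mm.mpr ⟨0, B.zero_mem, 1, B.one_mem, by ring⟩
  have hIx : x ^ (m + 1) ∈ I := pow_mem_I3 hxmm h.hx h.hx h.hy hxm fx fy
  have hIy : y ^ (m + 1) ∈ I := pow_mem_I3 hymm h.hy h.hx h.hy hym fx fy
  have hI0 : I.relIndex B.toAddSubgroup ≠ 0 := hP.idx_ne h.hx h.hy h.x0 h.y0 hIi hIx hIy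
  have hIL : I ≤ L3 B u v w := by
    intro a ha
    obtain ⟨b, hb, c, hc, d, hd, rfl⟩ := mem_I3.mp ha
    exact mem_I3.mpr ⟨b, hb, c, hwB _ hc, d, hwB _ hd, rfl⟩
  have hum : u ∈ mm B x y := hL (mem_I3.mpr ⟨1, B.one_mem, 0, B.zero_mem, 0, B.zero_mem, by ring⟩)
  have hvm : v ∈ mm B x y := hL (mem_I3.mpr ⟨0, B.zero_mem, 1, B.one_mem, 0, B.zero_mem, by ring⟩)
  have hwm : w ∈ mm B x y := hL (mem_I3.mpr ⟨0, B.zero_mem, 0, B.zero_mem, 1, B.one_mem, by ring⟩)
  obtain ⟨n, hn1, hn2, hn3⟩ := h.exists_ord hP ht hIi hIx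
  have hn : 1 ≤ n := hn3 1 fun i hi => Pw.one_iff.mpr (hL (hIL hi))
  obtain ⟨hT0, hJ0, hX0, hmain⟩ := h.main hP hIi hIx hn hn1 hn2 hI0
  refine ⟨n, hn1, hT0, ?_⟩
  set T := (tr (adj B (y / x)) x n I).relIndex (adj B (y / x)).toAddSubgroup with hT
  set J := (jj B (adj B (y / x)) (x ^ (n - 1))).relIndex B.toAddSubgroup with hJ
  set X := (sc x B.toAddSubgroup ⊔ I).relIndex B.toAddSubgroup with hX
  set κ := (mm B x y).relIndex B.toAddSubgroup with hκ
  set L := (L3 B u v w).relIndex B.toAddSubgroup with hLL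
  have hκ2 : 2 ≤ κ := hP.idx_mm.2
  have hX1 : κ ≤ X := hP.kp_le (sup_le le_sup_left (hIL.trans hL)) hX0
  have hJ1 : 1 ≤ J := Nat.one_le_iff_ne_zero.mpr hJ0
  cases fx with
  | true =>
    left
    cases fy with
    | true =>
      -- two flags
      have h1 : T * J * X ≤ L := hmain
      have h2 : T * 1 * 2 ≤ T * J * X := Nat.mul_le_mul (Nat.mul_le_mul_left _ hJ1)
        (hκ2.trans hX1)
      omega
    | false =>
      obtain ⟨hdu, hdv⟩ := hfl rfl rfl
      have h1 : I.relIndex B.toAddSubgroup ≤ κ * L := (hP.idx_I10 h.hx h.hy hu hv hw hL0).2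
      have h2 : κ * κ ≤ X := by
        refine h.idx_sq hP ht (sup_le le_sup_left ?_) hX0
        have hsq := (Idl.scB (B := B) h.hx).sup (Idl.scB (B := B) (B.pow_mem h.hy 2))
        intro a ha
        obtain ⟨b, hb, c, hc, d, hd, rfl⟩ := mem_I3.mp ha
        refine AddSubgroup.add_mem _ (AddSubgroup.add_mem _ ?_ ?_) ?_
        · rw [mul_comm]
          exact hsq.mul b hb u (h.mem_sq hP hum hdu)
        · rw [mul_comm]
          exact hsq.mul c hc v (h.mem_sq hP hvm hdv)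
        · obtain ⟨r, hr, s, hs, rfl⟩ := mem_mm.mp hwm
          obtain ⟨r', hr', s', hs', rfl⟩ := mem_mm.mp hd
          refine AddSubgroup.mem_sup.mpr ⟨x * (r * (x * r' + y * s') + y * s * r'),
            mem_sc.mpr ⟨_, B.add_mem (B.mul_mem hr (B.add_mem (B.mul_mem h.hx hr')
              (B.mul_mem h.hy hs'))) (B.mul_mem (B.mul_mem h.hy hs) hr'), rfl⟩, y ^ 2 * (s * s'),
            mem_sc.mpr ⟨_, B.mul_mem hs hs', rfl⟩, by ring⟩
      have h3 : T * 1 * (κ * κ) ≤ κ * L := (Nat.mul_le_mul (Nat.mul_le_mul_left _ hJ1) h2).trans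
        (hmain.trans h1)
      have h4 : κ * (T * κ) ≤ κ * L := by
        calc κ * (T * κ) = T * 1 * (κ * κ) := by ring
          _ ≤ _ := h3
      have h5 := Nat.le_of_mul_le_mul_left h4 (by omega : 0 < κ)
      have h6 : T * 2 ≤ T * κ := Nat.mul_le_mul_left _ hκ2
      omega
  | false =>
    cases fy with
    | true =>
      right
      refine ⟨rfl, rfl, ?_⟩
      have h1 : I.relIndex B.toAddSubgroup ≤ κ * L := (hP.idx_I01 h.hx h.hy hu hv hw hL0).2
      have h3 : T * 1 * κ ≤ κ * L := (Nat.mul_le_mul (Nat.mul_le_mul_left _ hJ1) hX1).trans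
        (hmain.trans h1)
      have h4 : κ * T ≤ κ * L := by
        calc κ * T = T * 1 * κ := by ring
          _ ≤ _ := h3
      exact Nat.le_of_mul_le_mul_left h4 (by omega : 0 < κ)
    | false =>
      left
      have h1 : I.relIndex B.toAddSubgroup ≤ κ * (κ * L) := (hP.idx_I00 h.hx h.hy hu hv hw hL0).2
      -- the order of `u`
      have hu2 : ∀ i ∈ I, Pw B x y 2 i := by
        intro a ha
        obtain ⟨b, hb, c, hc, d, hd, rfl⟩ := mem_I3.mp ha
        refine Pw.add (Pw.add ?_ (Pw.sq hvm hc)) (Pw.sq hwm hd)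
        rw [mul_comm]
        exact (h.mem_sq' hP hum (hfl0 rfl rfl).1 (hfl0 rfl rfl).2).smul hb
      · have hn' : 2 ≤ n := hn3 2 hu2
        have h2 : κ * κ ≤ X := by
          refine h.idx_sq hP ht (sup_le le_sup_left fun a ha => ?_) hX0
          obtain ⟨g, hg, rfl⟩ := hu2 a ha
          refine AddSubgroup.mem_sup.mpr ⟨x * (g 0 * x + g 1 * y), mem_sc.mpr ⟨_, B.add_mem
            (B.mul_mem (hg 0) h.hx) (B.mul_mem (hg 1) h.hy), rfl⟩, y ^ 2 * g 2,
            mem_sc.mpr ⟨_, hg 2, rfl⟩, ?_⟩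
          simp [Finset.sum_range_succ]; ring
        have h3 : κ ≤ J := by
          refine hP.kp_le (fun b hb => ?_) hJ0
          obtain ⟨hb1, hb2⟩ := mem_jj.mp hb
          have h4 : Mul (adj B (y / x)) (x ^ 1) b := by
            obtain ⟨s, hs, rfl⟩ := hb1
            refine ⟨x ^ (n - 2) * s, Subring.mul_mem _ (Subring.pow_mem _ (le_adj h.hx) _) hs, ?_⟩
            rw [← mul_assoc, ← pow_add]
            congr 2
            omega
          exact Pw.one_iff.mp (h.pw_of_mul hP ht 1 hb2 h4)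
        have h4 : T * κ * (κ * κ) ≤ κ * (κ * L) := (Nat.mul_le_mul (Nat.mul_le_mul_left _ h3)
          h2).trans (hmain.trans h1)
        have h5 : κ * (κ * (T * κ)) ≤ κ * (κ * L) := by
          calc κ * (κ * (T * κ)) = T * κ * (κ * κ) := by ring
            _ ≤ _ := h4
        have h6 := Nat.le_of_mul_le_mul_left (Nat.le_of_mul_le_mul_left h5 (by omega : 0 < κ))
          (by omega : 0 < κ)
        have h7 : T * 2 ≤ T * κ := Nat.mul_le_mul_left _ hκ2
        omega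

end Pool.Agent.H96.S
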