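import Pool.Agent.H96.S.Md

/-!
# Blowing up a closed point of a model
-/

set_option autoImplicit false
set_option linter.unusedSectionVars false

namespace Pool.Agent.H96.S

open Pool.Agent.H96.VL
open scoped Pointwise

/-- The module generated by a finite set. -/
def gs {F : Type} [Field F] (B : Subring F) (E : Finset F) : AddSubgroup F :=
  AddSubgroup.closure {w | ∃ r ∈ B, ∃ e ∈ E, w = r * e}

section Gs

variable {F : Type} [Field F] {W : ValuationSubring F} {B R : Subring F} {E : Finset F}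

theorem mem_gs {r e : F} (hr : r ∈ B) (he : e ∈ E) : r * e ∈ gs B E :=
  AddSubgroup.subset_closure ⟨r, hr, e, he, rfl⟩

theorem gs_le {M : AddSubgroup F} (h : ∀ r ∈ B, ∀ e ∈ E, r * e ∈ M) : gs B E ≤ M := by
  rw [gs, AddSubgroup.closure_le]
  rintro _ ⟨r, hr, e, he, rfl⟩
  exact h r hr e he

theorem gs_mono {B' : Subring F} (h : B ≤ B') : gs B E ≤ gs B' E :=
  gs_le fun _ hr _ he => mem_gs (h hr) he

theorem gs_mul {r w : F} (hr : r ∈ B) (hw : w ∈ gs B E) : r * w ∈ gs B E := by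
  induction hw using AddSubgroup.closure_induction with
  | mem w hw =>
    obtain ⟨a, ha, i, hi, rfl⟩ := hw
    rw [← mul_assoc]
    exact mem_gs (B.mul_mem hr ha) hi
  | zero => rw [mul_zero]; exact AddSubgroup.zero_mem _
  | add a b _ _ ha hb => rw [mul_add]; exact AddSubgroup.add_mem _ ha hb
  | neg a _ ha => rw [mul_neg]; exact AddSubgroup.neg_mem _ ha

/-- Division. -/
theorem gs_div {T w : F} (hE : ∀ e ∈ E, e / T ∈ R) (hBR : B ≤ R) (hw : w ∈ gs B E) : w / T ∈ R := by
  induction hw using AddSubgroup.closure_induction with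
  | mem w hw =>
    obtain ⟨a, ha, i, hi, rfl⟩ := hw
    rw [mul_div_assoc]
    exact R.mul_mem (hBR ha) (hE i hi)
  | zero => rw [zero_div]; exact R.zero_mem
  | add a b _ _ ha hb => rw [add_div]; exact R.add_mem ha hb
  | neg a _ ha => rw [neg_div]; exact R.neg_mem ha

/-- Large elements. -/
theorem gs_lt (hB : Vle W B) {γ : W.ValueGroup} (hγ : γ ≠ 0) (hE : ∀ e ∈ E, W.valuation e < γ)
    {w : F} (hw : w ∈ gs B E) : W.valuation w < γ := by
  induction hw using AddSubgroup.closure_induction with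
  | mem w hw =>
    obtain ⟨a, ha, i, hi, rfl⟩ := hw
    rw [map_mul]
    exact (mul_le_mul' (hB a ha) le_rfl).trans_lt (by rw [one_mul]; exact hE i hi)
  | zero => rw [map_zero]; exact lt_of_le_of_ne zero_le hγ.symm
  | add a b _ _ ha hb => exact W.valuation.map_add_lt ha hb
  | neg a _ ha => rw [Valuation.map_neg]; exact ha

theorem exists_eq_one (hB : Vle W B) (hE : ∀ e ∈ E, W.valuation e ≤ 1) {w : F}
    (hw : w ∈ gs B E) (h1 : W.valuation w = 1) : ∃ e ∈ E, W.valuation e = 1 := by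
  by_contra hcon
  push Not at hcon
  have := gs_lt hB one_ne_zero (fun e he => lt_of_le_of_ne (hE e he) (hcon e he)) hw
  rw [h1] at this
  exact lt_irrefl _ this

end Gs

section Fin

variable {F : Type} [Field F] {W : ValuationSubring F} {B R : Subring F}

/-- Finitely many generators of the centre. -/
theorem Fg.exists_gens (hB : Fg B) (hW : Vle W B) : ∃ E : Finset F,
    (∀ e ∈ E, e ∈ B ∧ W.valuation e < 1) ∧ ∀ b ∈ B, W.valuation b < 1 → b ∈ gs B E := by
  classical
  have hB' : ∀ b ∈ subalgebraOfSubring B, W.valuation b ≤ 1 := hW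
  set A := subalgebraOfSubring B with hA
  have h1 : Algebra.FiniteType ℤ A := hB.finiteType
  have h2 : IsNoetherianRing A := Algebra.FiniteType.isNoetherianRing ℤ _
  obtain ⟨E, hE⟩ := (isNoetherianRing_iff_ideal_fg A).mp h2 (centre W A hB')
  refine ⟨E.image Subtype.val, ?_, ?_⟩
  · intro e he
    obtain ⟨e', he', rfl⟩ := Finset.mem_image.mp he
    have h3 : e' ∈ centre W A hB' := by
      rw [← hE]; exact Submodule.subset_span he'
    exact ⟨e'.2, h3⟩
  · intro b hb hv
    have h3 : (⟨b, hb⟩ : A) ∈ centre W A hB' := hv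
    rw [← hE] at h3
    have h4 : ∀ a : A, a ∈ Submodule.span A (E : Set A) → (a : F) ∈ gs B (E.image Subtype.val) := by
      intro a ha
      induction ha using Submodule.span_induction with
      | mem a ha =>
        have := mem_gs (E := E.image Subtype.val) B.one_mem (Finset.mem_image_of_mem _ ha)
        rwa [one_mul] at this
      | zero => exact AddSubgroup.zero_mem _
      | add a b _ _ ha hb => exact AddSubgroup.add_mem _ ha hb
      | smul r a _ ha =>
        show (r : F) * (a : F) ∈ _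
        exact gs_mul r.2 ha
    exact h4 _ h3

/-- Homogenization. -/
theorem exists_hom {s : Finset F} {g : F} (h0 : g ≠ 0) {e : F} (he : e ∈ As s g) :
    ∃ n : ℕ, ∀ N, n ≤ N → ∀ g' ∈ s, g' ≠ 0 → g ∈ s → (g / g') ^ N * e ∈ As s g' := by
  induction he using Subring.closure_induction with
  | mem a ha =>
    obtain ⟨a, ha, rfl⟩ := ha
    refine ⟨1, fun N hN g' hg' hg0 hgs => ?_⟩
    obtain ⟨N, rfl⟩ := Nat.exists_eq_add_of_le' hN
    have h1 : (g / g') ^ (N + 1) * (a / g) = (g / g') ^ N * (a / g') := by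
      rw [pow_succ]
      field_simp
    rw [h1]
    exact Subring.mul_mem _ (Subring.pow_mem _ (mem_As hgs) _) (mem_As ha)
  | zero => exact ⟨0, fun N _ g' _ _ _ => by rw [mul_zero]; exact Subring.zero_mem _⟩
  | one => exact ⟨0, fun N _ g' _ _ hgs => by
      rw [mul_one]; exact Subring.pow_mem _ (mem_As hgs) _⟩
  | add a b _ _ ha hb =>
    obtain ⟨n, hn⟩ := ha
    obtain ⟨m, hm⟩ := hb
    refine ⟨max n m, fun N hN g' hg' hg0 hgs => ?_⟩
    rw [mul_add]
    exact Subring.add_mem _ (hn N ((le_max_left _ _).trans hN) g' hg' hg0 hgs)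
      (hm N ((le_max_right _ _).trans hN) g' hg' hg0 hgs)
  | neg a _ ha =>
    obtain ⟨n, hn⟩ := ha
    refine ⟨n, fun N hN g' hg' hg0 hgs => ?_⟩
    rw [mul_neg]
    exact Subring.neg_mem _ (hn N hN g' hg' hg0 hgs)
  | mul a b _ _ ha hb =>
    obtain ⟨n, hn⟩ := ha
    obtain ⟨m, hm⟩ := hb
    refine ⟨n + m, fun N hN g' hg' hg0 hgs => ?_⟩
    have h1 : (g / g') ^ N * (a * b) = (g / g') ^ n * a * ((g / g') ^ (N - n) * b) := by
      have h2 : N = n + (N - n) := by omega
      conv_lhs => rw [h2, pow_add]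
      ring
    rw [h1]
    exact Subring.mul_mem _ (hn n le_rfl g' hg' hg0 hgs) (hm (N - n) (by omega) g' hg' hg0 hgs)

end Fin

section Cen

variable {p : ℕ} [hp : Fact p.Prime] {F : Type} [Field F] [CharP F p]

/-- A closed centre is maximal. -/
theorem Clo.eq_centre {W W₀ : ValuationSubring F} {B : Subring F} (hW₀ : Clo p W₀ B)
    (hW0 : Vle W₀ B) (hW : Vle W B) (h : ∀ b ∈ B, W₀.valuation b < 1 → W.valuation b < 1) {b : F}
    (hb : b ∈ B) : W.valuation b < 1 ↔ W₀.valuation b < 1 := by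
  refine ⟨fun h1 => ?_, h b hb⟩
  by_contra hcon
  obtain ⟨n, hn, hq⟩ := hW₀
  have h2 : 2 ≤ p ^ n := by
    calc 2 ≤ p := hp.out.two_le
      _ = p ^ 1 := (pow_one p).symm
      _ ≤ p ^ n := Nat.pow_le_pow_right hp.out.pos hn
  have hv : W₀.valuation b = 1 := le_antisymm (hW0 b hb) (not_lt.mp hcon)
  have h3 := hq b hb
  have h4 : b ^ p ^ n - b = b * (b ^ (p ^ n - 1) - 1) := by
    have h5 : p ^ n = p ^ n - 1 + 1 := by omega
    conv_lhs => rw [h5]
    rw [pow_succ]; ring
  rw [h4, map_mul, hv, one_mul] at h3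
  have h5 := h _ (B.sub_mem (B.pow_mem hb _) B.one_mem) h3
  have h6 : W.valuation (b ^ (p ^ n - 1)) < 1 := by
    rw [map_pow]
    exact pow_lt_one₀ zero_le h1 (by omega)
  have h7 : (1 : F) = b ^ (p ^ n - 1) - (b ^ (p ^ n - 1) - 1) := by ring
  have h8 : W.valuation (1 : F) < 1 := by
    rw [h7]
    exact (W.valuation.map_sub _ _).trans_lt (max_lt h6 h5)
  rw [map_one] at h8
  exact lt_irrefl _ h8

theorem vl_congr {W W₀ : ValuationSubring F} {B : Subring F} (hW0 : Vle W₀ B) (hW : Vle W B)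
    (h : ∀ b ∈ B, W.valuation b < 1 ↔ W₀.valuation b < 1) : vl W B = vl W₀ B := by
  have h1 : ∀ b ∈ B, W.valuation b = 1 ↔ W₀.valuation b = 1 := by
    intro b hb
    constructor
    · intro h1
      refine le_antisymm (hW0 b hb) (not_lt.mp fun h2 => ?_)
      rw [← h b hb, h1] at h2
      exact lt_irrefl _ h2
    · intro h1
      refine le_antisymm (hW b hb) (not_lt.mp fun h2 => ?_)
      rw [h b hb, h1] at h2
      exact lt_irrefl _ h2
  ext w
  rw [mem_vl, mem_vl]
  constructor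
  · rintro ⟨a, ha, b, hb, h2, h3⟩
    exact ⟨a, ha, b, hb, (h1 b hb).mp h2, h3⟩
  · rintro ⟨a, ha, b, hb, h2, h3⟩
    exact ⟨a, ha, b, hb, (h1 b hb).mpr h2, h3⟩

variable [DecidableEq F]

/-- **The finite set of a closed point.** -/
theorem exists_cen {s : Finset F} (hs0 : ∀ g ∈ s, g ≠ 0) {W₀ : ValuationSubring F}
    (hclo : Clo p W₀ (Lc s W₀)) : ∃ (c : Finset F) (N : ℕ), ∀ (W : ValuationSubring F), ∀ g ∈ s,
      (∀ g' ∈ s, W.valuation g' ≤ W.valuation g) →
      (Lc s W ≠ Lc s W₀ → Gen (Lc s W) c (g ^ N)) ∧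
      (Lc s W = Lc s W₀ → (∀ a ∈ c, a / g ^ N ∈ Lc s W ∧ W.valuation (a / g ^ N) < 1) ∧
        ∀ b ∈ Lc s W, W.valuation b < 1 → b ∈ gs (Lc s W) (c.image (· / g ^ N))) := by
  classical
  -- the generators
  have hEx : ∀ g : F, ∃ E : Finset F, g ∈ s →
      (Vle W₀ (As s g) → (∀ e ∈ E, e ∈ As s g ∧ W₀.valuation e < 1) ∧
        ∀ b ∈ As s g, W₀.valuation b < 1 → b ∈ gs (As s g) E) ∧
      (¬ Vle W₀ (As s g) → E = {1}) := by
    intro g
    by_cases h : Vle W₀ (As s g)
    · obtain ⟨E, h1, h2⟩ := (fg_As s g).exists_gens h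
      exact ⟨E, fun _ => ⟨fun _ => ⟨h1, h2⟩, fun h' => absurd h h'⟩⟩
    · exact ⟨{1}, fun _ => ⟨fun h' => absurd h' h, fun _ => rfl⟩⟩
  choose E hE using hEx
  have hEA : ∀ g ∈ s, ∀ e ∈ E g, e ∈ As s g := by
    intro g hg e he
    by_cases h : Vle W₀ (As s g)
    · exact (((hE g hg).1 h).1 e he).1
    · rw [(hE g hg).2 h, Finset.mem_singleton] at he
      rw [he]; exact Subring.one_mem _
  -- the degree
  have hNx : ∀ g e : F, ∃ n : ℕ, g ∈ s → e ∈ E g → ∀ N, n ≤ N → ∀ g' ∈ s,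
      (g / g') ^ N * e ∈ As s g' := by
    intro g e
    by_cases h : g ∈ s ∧ e ∈ E g
    · obtain ⟨n, hn⟩ := exists_hom (s := s) (hs0 g h.1) (hEA g h.1 e h.2)
      exact ⟨n, fun hg _ N hN g' hg' => hn N hN g' hg' (hs0 g' hg') hg⟩
    · exact ⟨0, fun h1 h2 => absurd ⟨h1, h2⟩ h⟩
  choose nn hnn using hNx
  set N : ℕ := (s.sup fun g => (E g).sup fun e => nn g e) + 1 with hN
  have hN' : ∀ g ∈ s, ∀ e ∈ E g, ∀ g' ∈ s, (g / g') ^ N * e ∈ As s g' := by
    intro g hg e he g' hg'
    refine hnn g e hg he N ?_ g' hg'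
    have h1 : nn g e ≤ (E g).sup fun e => nn g e := Finset.le_sup (f := fun e => nn g e) he
    have h2 : ((E g).sup fun e => nn g e) ≤ s.sup fun g => (E g).sup fun e => nn g e :=
      Finset.le_sup (f := fun g => (E g).sup fun e => nn g e) hg
    omega
  set c : Finset F := s.biUnion fun g => (E g).image fun e => g ^ N * e with hc
  have mc : ∀ {a : F}, a ∈ c ↔ ∃ g ∈ s, ∃ e ∈ E g, a = g ^ N * e := by
    intro a
    rw [hc, Finset.mem_biUnion]
    constructor
    · rintro ⟨g, hg, ha⟩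
      obtain ⟨e, he, rfl⟩ := Finset.mem_image.mp ha
      exact ⟨g, hg, e, he, rfl⟩
    · rintro ⟨g, hg, e, he, rfl⟩
      exact ⟨g, hg, Finset.mem_image_of_mem _ he⟩
  have hcA : ∀ g ∈ s, ∀ a ∈ c, a / g ^ N ∈ As s g := by
    intro g hg a ha
    obtain ⟨g', hg', e, he, rfl⟩ := mc.mp ha
    have := hN' g' hg' e he g hg
    have h1 : g' ^ N * e / g ^ N = (g' / g) ^ N * e := by rw [div_pow]; ring
    rwa [h1]
  refine ⟨c, N, fun W g hg hmax => ?_⟩
  have hg0 := hs0 g hg
  have hgN := pow_ne_zero N hg0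
  have hLc := Lc_eq hg hg0 hmax
  have hVA : Vle W (As s g) := (vle_As hg0).mpr hmax
  have hAL : As s g ≤ Lc s W := by rw [hLc]; exact le_vl
  have hloc : VLocal W (Lc s W) := by rw [hLc]; exact vlocal_vl hVA
  -- small elements at the point
  have hsmall : Vle W₀ (As s g) → ∀ a ∈ c, W₀.valuation (a / g ^ N) < 1 := by
    intro hV a ha
    obtain ⟨g', hg', e, he, rfl⟩ := mc.mp ha
    have h1 : g' ^ N * e / g ^ N = (g' / g) ^ N * e := by rw [div_pow]; ring
    rw [h1, map_mul, map_pow]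
    have h2 : W₀.valuation (g' / g) ≤ 1 := hV _ (mem_As hg')
    by_cases h3 : Vle W₀ (As s g')
    · exact (mul_le_mul' (pow_le_one' h2 _) le_rfl).trans_lt (by
        rw [one_mul]; exact (((hE g' hg').1 h3).1 e he).2)
    · have he1 : e = 1 := by
        rw [(hE g' hg').2 h3, Finset.mem_singleton] at he
        exact he
      rw [he1, map_one, mul_one]
      refine pow_lt_one₀ zero_le (lt_of_le_of_ne h2 fun h4 => h3 ?_) (by omega)
      rw [vle_As (hs0 g' hg')]
      intro g'' hg''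
      have h5 := (vle_As hg0).mp hV g'' hg''
      have h6 : W₀.valuation g' = W₀.valuation g := by
        rw [map_div₀] at h4
        have h7 : W₀.valuation g ≠ 0 := by rw [Ne, Valuation.zero_iff]; exact hg0
        exact (div_eq_one_iff_eq h7).mp h4
      rw [h6]; exact h5
  constructor
  · intro hne
    refine ⟨hgN, fun a ha => hAL (hcA g hg a ha), ?_⟩
    by_cases hV : Vle W₀ (As s g)
    · have hmax0 := (vle_As hg0).mp hV
      have hLc0 := Lc_eq hg hg0 hmax0
      have hclo' : Clo p W₀ (As s g) := by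
        obtain ⟨n, hn, h1⟩ := hclo
        exact ⟨n, hn, fun b hb => h1 b (by rw [hLc0]; exact le_vl hb)⟩
      obtain ⟨a, ha, ha0, haW⟩ : ∃ a ∈ As s g, W₀.valuation a < 1 ∧ W.valuation a = 1 := by
        by_contra hcon
        push Not at hcon
        apply hne
        rw [hLc, hLc0]
        refine vl_congr hV hVA fun b hb => hclo'.eq_centre hV hVA (fun b hb h1 => ?_) hb
        exact lt_of_le_of_ne (hVA b hb) (hcon b hb h1)
      have hE' := (hE g hg).1 hV
      obtain ⟨e, he, he1⟩ := exists_eq_one hVA (fun e he => hVA e (hE'.1 e he).1) (hE'.2 a ha ha0) haW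
      refine ⟨g ^ N * e, mc.mpr ⟨g, hg, e, he, rfl⟩, ?_, ?_⟩
      · have he0 : e ≠ 0 := by
          rintro rfl
          rw [map_zero] at he1
          exact zero_ne_one he1
        have h1 : g ^ N / (g ^ N * e) = e⁻¹ := by field_simp
        rw [h1]
        exact hloc.inv _ (hAL (hE'.1 e he).1) he1
      · refine mul_ne_zero hgN ?_
        rintro rfl
        rw [map_zero] at he1
        exact zero_ne_one he1
    · refine ⟨g ^ N * 1, mc.mpr ⟨g, hg, 1, by rw [(hE g hg).2 hV]; exact Finset.mem_singleton_self _,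
        rfl⟩, ?_, ?_⟩
      · rw [mul_one, div_self hgN]; exact Subring.one_mem _
      · rw [mul_one]; exact hgN
  · intro heq
    have hne : ∃ g ∈ s, g ≠ 0 := ⟨g, hg, hg0⟩
    have hloc0 := (lst_Lc hne W₀).loc
    have hV : Vle W₀ (As s g) := fun b hb => hloc0.le b (by rw [← heq]; exact hAL hb)
    have hv1 : ∀ b ∈ Lc s W, W.valuation b < 1 ↔ W₀.valuation b < 1 := by
      intro b hb
      constructor
      · intro h1
        refine lt_of_le_of_ne (hloc0.le b (by rw [← heq]; exact hb)) fun h2 => ?_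
        have h3 := hloc0.inv b (by rw [← heq]; exact hb) h2
        rw [← heq] at h3
        have h4 := hloc.le _ h3
        rw [map_inv₀] at h4
        have hb0 : b ≠ 0 := by
          rintro rfl
          rw [map_zero] at h2
          exact zero_ne_one h2
        have h5 : 0 < W.valuation b := by rw [Valuation.pos_iff]; exact hb0
        exact absurd h1 (not_lt.mpr ((inv_le_one₀ h5).mp h4))
      · intro h1
        refine lt_of_le_of_ne (hloc.le b hb) fun h2 => ?_
        have h3 := hloc.inv b hb h2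
        rw [heq] at h3
        have h4 := hloc0.le _ h3
        rw [map_inv₀] at h4
        have hb0 : b ≠ 0 := by
          rintro rfl
          rw [map_zero] at h2
          exact zero_ne_one h2
        have h5 : 0 < W₀.valuation b := by rw [Valuation.pos_iff]; exact hb0
        exact absurd h1 (not_lt.mpr ((inv_le_one₀ h5).mp h4))
    refine ⟨fun a ha => ⟨hAL (hcA g hg a ha), (hv1 _ (hAL (hcA g hg a ha))).mpr
      (hsmall hV a ha)⟩, fun b hb hb1 => ?_⟩
    have hE' := (hE g hg).1 hV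
    rw [hLc] at hb
    obtain ⟨a, ha, d, hd, hd1, rfl⟩ := mem_vl.mp hb
    have ha1 : W₀.valuation a < 1 := by
      rw [← hv1 a (hAL ha)]
      rwa [map_div₀, hd1, div_one] at hb1
    have h1 : a ∈ gs (Lc s W) (c.image (· / g ^ N)) := by
      refine (gs_le fun r hr e he => ?_) (hE'.2 a ha ha1)
      refine mem_gs (hAL hr) (Finset.mem_image.mpr ⟨g ^ N * e, mc.mpr ⟨g, hg, e, he, rfl⟩, ?_⟩)
      show g ^ N * e / g ^ N = e
      field_simp
    rw [div_eq_inv_mul]
    exact gs_mul (hloc.inv d (hAL hd) hd1) h1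

/-- Away from the centre. -/
theorem Lc_blow_ne {s c : Finset F} {N : ℕ} {g : F} (hg : g ∈ s) (hg0 : g ≠ 0)
    {W : ValuationSubring F} (h : Gen (Lc s W) c (g ^ N)) : Lc (s * c) W = Lc s W := by
  have h1 := lst_Lc ⟨g, hg, hg0⟩ W
  obtain ⟨T, hT⟩ := h1.pr
  exact (Lst.mk h1.loc ⟨_, hT.mul h⟩ fun R' hR' hP => h1.min R' hR' hP.of_mul_left).eq

/-- At the centre. -/
theorem Lc_blow_eq {s c : Finset F} {N : ℕ} {g x y : F} (hg : g ∈ s) (hg0 : g ≠ 0)
    {W : ValuationSubring F} (hgen : ∀ a ∈ c, a / g ^ N ∈ Lc s W ∧ W.valuation (a / g ^ N) < 1)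
    (hgs : ∀ b ∈ Lc s W, W.valuation b < 1 → b ∈ gs (Lc s W) (c.image (· / g ^ N)))
    (hx : x ∈ Lc s W) (hy : y ∈ Lc s W) (hxv : W.valuation x < 1) (hyv : W.valuation y < 1)
    (hx0 : x ≠ 0)
    (hmax : ∀ b ∈ Lc s W, W.valuation b < 1 → ∃ a ∈ Lc s W, ∃ c ∈ Lc s W, b = x * a + y * c)
    (ht : W.valuation (y / x) ≤ 1) : Gen (vl W (adj (Lc s W) (y / x))) c (g ^ N * x) ∧
      Lc (s * c) W = vl W (adj (Lc s W) (y / x)) := by
  have hgN := pow_ne_zero N hg0
  have h1 := lst_Lc ⟨g, hg, hg0⟩ W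
  have hV : Vle W (adj (Lc s W) (y / x)) := vle_adj.mpr ⟨h1.loc.le, ht⟩
  set R₁ := vl W (adj (Lc s W) (y / x)) with hR₁
  have hR₁l : VLocal W R₁ := vlocal_vl hV
  have hle : Lc s W ≤ R₁ := le_adj.trans le_vl
  have htR : y / x ∈ R₁ := le_vl mem_adj
  have hmem : ∀ a ∈ c, a / (g ^ N * x) ∈ R₁ := by
    intro a ha
    obtain ⟨r, hr, r', hr', h2⟩ := hmax _ (hgen a ha).1 (hgen a ha).2
    have h3 : a / (g ^ N * x) = r + y / x * r' := by
      rw [← div_div, h2]
      field_simp
    rw [h3]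
    exact R₁.add_mem (hle hr) (R₁.mul_mem htR (hle hr'))
  have hG : Gen R₁ c (g ^ N * x) := by
    refine ⟨mul_ne_zero hgN hx0, hmem, ?_⟩
    have h2 := hgs x hx hxv
    obtain ⟨e, he, he1⟩ : ∃ e ∈ c.image (· / g ^ N), W.valuation e = W.valuation x := by
      by_contra hcon
      push Not at hcon
      have hx0' : W.valuation x ≠ 0 := by rw [Ne, Valuation.zero_iff]; exact hx0
      have := gs_lt h1.loc.le hx0' (fun e he => ?_) h2
      · exact lt_irrefl _ this
      · refine lt_of_le_of_ne ?_ (hcon e he)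
        obtain ⟨a, ha, rfl⟩ := Finset.mem_image.mp he
        have h3 := hR₁l.le _ (hmem a ha)
        rw [← div_div, map_div₀ _ _ x] at h3
        exact (div_le_one₀ (lt_of_le_of_ne zero_le hx0'.symm)).mp h3
    obtain ⟨a, ha, rfl⟩ := Finset.mem_image.mp he
    have h3 : W.valuation (a / (g ^ N * x)) = 1 := by
      have hx0' : W.valuation x ≠ 0 := by rw [Ne, Valuation.zero_iff]; exact hx0
      rw [← div_div, map_div₀ _ _ x, he1, div_self hx0']
    have h4 := hR₁l.inv _ (hmem a ha) h3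
    rw [inv_div] at h4
    refine ⟨a, ha, h4, ?_⟩
    rintro rfl
    rw [zero_div, map_zero] at h3
    exact zero_ne_one h3
  refine ⟨hG, ?_⟩
  obtain ⟨T, hT⟩ := h1.pr
  refine (Lst.mk hR₁l ⟨_, (hT.mono hle).mul hG⟩ fun R' hR' hP => ?_).eq
  have h2 : Lc s W ≤ R' := h1.min R' hR' hP.of_mul_left
  refine vl_le hR' (adj_le h2 ?_)
  obtain ⟨U, hU⟩ := hP.of_mul_right
  obtain ⟨a₀, ha₀, ha₀0, hv₀, -⟩ := hU.exists_eq hR'
  have hU' : Gen R' c a₀ := hU.of_max hR' ha₀ fun a ha => by rw [hv₀]; exact hU.val_le hR' ha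
  have h3 : ∀ b ∈ Lc s W, W.valuation b < 1 → b * g ^ N / a₀ ∈ R' := by
    intro b hb hb1
    have h4 := gs_div (R := R') (T := a₀ / g ^ N) (fun e he => by
      obtain ⟨a, ha, rfl⟩ := Finset.mem_image.mp he
      have h5 : a / g ^ N / (a₀ / g ^ N) = a / a₀ := by field_simp
      rw [h5]
      exact hU'.mem a ha) h2 (hgs b hb hb1)
    have h5 : b / (a₀ / g ^ N) = b * g ^ N / a₀ := by field_simp
    rwa [h5] at h4
  have hx3 := h3 x hx hxv
  have hy3 := h3 y hy hyv
  obtain ⟨r, hr, r', hr', h4⟩ := hmax _ (hgen a₀ ha₀).1 (hgen a₀ ha₀).2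
  have h5 : r * (x * g ^ N / a₀) + r' * (y * g ^ N / a₀) = 1 := by
    have h6 : r * (x * g ^ N / a₀) + r' * (y * g ^ N / a₀) = (x * r + y * r') * (g ^ N / a₀) := by
      ring
    rw [h6, ← h4]
    field_simp
  have h6 : W.valuation (y * g ^ N / a₀) ≤ W.valuation (x * g ^ N / a₀) := by
    have h7 : y * g ^ N / a₀ = y / x * (x * g ^ N / a₀) := by field_simp
    rw [h7, map_mul]
    exact mul_le_of_le_one_left' ht
  have h7 : W.valuation (x * g ^ N / a₀) = 1 := by
    refine le_antisymm (hR'.le _ hx3) (not_lt.mp fun h8 => ?_)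
    have h9 : W.valuation (1 : F) < 1 := by
      rw [← h5]
      refine W.valuation.map_add_lt ?_ ?_
      · rw [map_mul]
        exact (mul_le_mul' (h1.loc.le r hr) le_rfl).trans_lt (by rw [one_mul]; exact h8)
      · rw [map_mul]
        exact (mul_le_mul' (h1.loc.le r' hr') le_rfl).trans_lt (by
          rw [one_mul]; exact h6.trans_lt h8)
    rw [map_one] at h9
    exact lt_irrefl _ h9
  have h8 := hR'.div_mem hy3 hx3 h7
  have h9 : y * g ^ N / a₀ / (x * g ^ N / a₀) = y / x := by field_simp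
  rwa [h9] at h8

end Cen

end Pool.Agent.H96.S
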