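import Pool.Agent.H96.S.Cen

/-!
# Charts
-/

set_option autoImplicit false
set_option linter.unusedSectionVars false

namespace Pool.Agent.H96.S

open Pool.Agent.H96.VL
open scoped Pointwise

/-- Equality up to units. -/
structure Un {F : Type} [Field F] (R : Subring F) (a b : F) : Prop where
  a0 : a ≠ 0
  b0 : b ≠ 0
  ab : a / b ∈ R
  ba : b / a ∈ R

namespace Un

variable {F : Type} [Field F] {R R' : Subring F} {a b c d : F}

theorem refl (h : a ≠ 0) : Un R a a :=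
  ⟨h, h, by rw [div_self h]; exact R.one_mem, by rw [div_self h]; exact R.one_mem⟩

theorem symm (h : Un R a b) : Un R b a := ⟨h.b0, h.a0, h.ba, h.ab⟩

theorem trans (h : Un R a b) (h' : Un R b c) : Un R a c := by
  refine ⟨h.a0, h'.b0, ?_, ?_⟩
  · have h1 := R.mul_mem h.ab h'.ab
    have h2 : a / b * (b / c) = a / c := by
      have := h.b0
      field_simp
    rwa [h2] at h1
  · have h1 := R.mul_mem h.ba h'.ba
    have h2 : b / a * (c / b) = c / a := by
      have := h.b0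
      field_simp
    rwa [h2] at h1

theorem mul (h : Un R a b) (h' : Un R c d) : Un R (a * c) (b * d) := by
  refine ⟨mul_ne_zero h.a0 h'.a0, mul_ne_zero h.b0 h'.b0, ?_, ?_⟩
  · rw [mul_div_mul_comm]; exact R.mul_mem h.ab h'.ab
  · rw [mul_div_mul_comm]; exact R.mul_mem h.ba h'.ba

theorem inv (h : Un R a b) : Un R a⁻¹ b⁻¹ := by
  refine ⟨inv_ne_zero h.a0, inv_ne_zero h.b0, ?_, ?_⟩
  · rw [inv_div_inv]; exact h.ba
  · rw [inv_div_inv]; exact h.ab

theorem div (h : Un R a b) (h' : Un R c d) : Un R (a / c) (b / d) := by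
  rw [div_eq_mul_inv, div_eq_mul_inv]
  exact h.mul h'.inv

theorem mono (h : Un R a b) (hR : R ≤ R') : Un R' a b := ⟨h.a0, h.b0, hR h.ab, hR h.ba⟩

theorem of_unit (ha : a ∈ R) (ha' : a⁻¹ ∈ R) (h0 : a ≠ 0) : Un R a 1 :=
  ⟨h0, one_ne_zero, by rwa [div_one], by rwa [one_div]⟩

end Un

/-- The multiplier of a coordinate. -/
def fl {F A : Type} [Field F] (o : Option A) (x : F) : F := o.elim 1 fun _ => x

/-- The local equation of a colour. -/
def tc {F A : Type} [Field F] [DecidableEq A] (cx cy : Option A) (x y : F) (a : A) : F :=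
  (if cx = some a then x else 1) * (if cy = some a then y else 1)

/-- Monomials times units. -/
def Mn {F A : Type} [Field F] (B : Subring F) (cx cy : Option A) (x y g : F) : Prop :=
  ∃ i j : ℤ, (cx = none → i = 0) ∧ (cy = none → j = 0) ∧ ∃ c ∈ B, c⁻¹ ∈ B ∧ c ≠ 0 ∧
    g = x ^ i * y ^ j * c

/-- The Jacobian determinant. -/
def Jc {F A : Type} [Field F] (cx cy : Option A) (x y : F) (Dx Dy : Derivation ℤ F F) (a b : F) : F :=
  fl cx x * Dx a * (fl cy y * Dy b) - fl cy y * Dy a * (fl cx x * Dx b)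

/-- The charts of a model with colours, for the function `f`. -/
structure Chart (p : ℕ) {F : Type} [Field F] (s : Finset F) {A : Type} [DecidableEq A]
    (t : A → ValuationSubring F → F) (ε f : F) (G : Finset F) (P : Finset (F × F)) where
  B : Subring F
  g : F
  x : F
  y : F
  Dx : Derivation ℤ F F
  Dy : Derivation ℤ F F
  cx : Option A
  cy : Option A
  al : ℤ
  be : ℤ
  fg : Fg B
  hg : g ∈ s
  hAs : As s g ≤ B
  lc : ∀ W, Vle W B → B ≤ Lc s W
  ec : EC p B x y Dx Dy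
  cxy : ∀ a, cx = some a → cy ≠ some a
  col : ∀ a W, Vle W B → Un (Lc s W) (t a W) (tc cx cy x y a)
  al0 : cx = none → al = 0
  be0 : cy = none → be = 0
  hu : ε * f / (x ^ al * y ^ be) ∈ B
  hv : fl cx x * Dx f / (x ^ al * y ^ be) ∈ B
  hw : fl cy y * Dy f / (x ^ al * y ^ be) ∈ B
  mn : ∀ h ∈ G, Mn B cx cy x y h
  jc : ∀ ab ∈ P, Mn B cx cy x y (Jc cx cy x y Dx Dy ab.1 ab.2)

namespace Chart

variable {p : ℕ} {F : Type} [Field F] {s : Finset F} {A : Type} [DecidableEq A]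
    {t : A → ValuationSubring F → F} {ε f : F} {G : Finset F} {P : Finset (F × F)}

/-- The ideal. -/
def L (C : Chart p s t ε f G P) : AddSubgroup F :=
  L3 C.B (ε * f / (C.x ^ C.al * C.y ^ C.be)) (fl C.cx C.x * C.Dx f / (C.x ^ C.al * C.y ^ C.be))
    (fl C.cy C.y * C.Dy f / (C.x ^ C.al * C.y ^ C.be))

theorem idl (C : Chart p s t ε f G P) : Idl C.B C.L := Idl.L3 C.hu C.hv C.hw

def Good (C : Chart p s t ε f G P) : Prop := (1 : F) ∈ C.L

/-- The measure. -/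
noncomputable def Φ (C : Chart p s t ε f G P) : ℕ :=
  2 * C.L.relIndex C.B.toAddSubgroup + if C.cx.isSome = true ∧ C.cy.isSome = true then 0 else 1

/-- Pointed charts. -/
structure Pd (C : Chart p s t ε f G P) (W : ValuationSubring F) (n : ℕ) : Prop where
  pt : Pt p W C.B C.x C.y
  m : ∃ m : ℕ, C.x ^ m ∈ C.L ∧ C.y ^ m ∈ C.L
  le : C.Φ ≤ n

end Chart

section Basic

variable {p : ℕ} [hp : Fact p.Prime] {F : Type} [Field F] [CharP F p] {s : Finset F} {A : Type}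
  [DecidableEq A] {t : A → ValuationSubring F → F} {ε f : F} {G : Finset F} {P : Finset (F × F)}
  {W W₀ : ValuationSubring F} {B : Subring F} {x y : F}

theorem Pt.clo (h : Pt p W B x y) : Clo p W B := h.fin

/-- Valuations centred at the point. -/
theorem Pt.centre (h : Pt p W₀ B x y) (hW : Vle W B) (hx : W.valuation x < 1)
    (hy : W.valuation y < 1) {b : F} (hb : b ∈ B) : W.valuation b < 1 ↔ W₀.valuation b < 1 := by
  refine h.clo.eq_centre h.le hW (fun b hb h1 => ?_) hb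
  obtain ⟨a, ha, c, hc, rfl⟩ := h.max b hb h1
  refine W.valuation.map_add_lt ?_ ?_
  · rw [map_mul]
    exact (mul_le_mul' le_rfl (hW a ha)).trans_lt (by rw [mul_one]; exact hx)
  · rw [map_mul]
    exact (mul_le_mul' le_rfl (hW c hc)).trans_lt (by rw [mul_one]; exact hy)

theorem Pt.one_iff (h : Pt p W₀ B x y) (hW : Vle W B) (hx : W.valuation x < 1)
    (hy : W.valuation y < 1) {b : F} (hb : b ∈ B) : W.valuation b = 1 ↔ W₀.valuation b = 1 := by
  have h1 := h.centre hW hx hy hb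
  constructor
  · intro h2
    refine le_antisymm (h.le b hb) (not_lt.mp fun h3 => ?_)
    rw [← h1, h2] at h3
    exact lt_irrefl _ h3
  · intro h2
    refine le_antisymm (hW b hb) (not_lt.mp fun h3 => ?_)
    rw [h1, h2] at h3
    exact lt_irrefl _ h3

theorem Pt.vl_eq (h : Pt p W₀ B x y) (hW : Vle W B) (hx : W.valuation x < 1)
    (hy : W.valuation y < 1) : vl W B = vl W₀ B :=
  vl_congr h.le hW fun _ hb => h.centre hW hx hy hb

/-- The maximal ideal of the local ring. -/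
theorem Pt.max_vl (h : Pt p W₀ B x y) {b : F} (hb : b ∈ vl W₀ B) (hv : W₀.valuation b < 1) :
    ∃ a ∈ vl W₀ B, ∃ c ∈ vl W₀ B, b = x * a + y * c := by
  obtain ⟨a, ha, d, hd, hd1, rfl⟩ := mem_vl.mp hb
  rw [map_div₀, hd1, div_one] at hv
  obtain ⟨r, hr, r', hr', rfl⟩ := h.max a ha hv
  exact ⟨r / d, mem_vl.mpr ⟨r, hr, d, hd, hd1, rfl⟩, r' / d, mem_vl.mpr ⟨r', hr', d, hd, hd1, rfl⟩,
    by rw [add_div]; ring⟩

namespace Chart

variable (C : Chart p s t ε f G P)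

theorem g0 (hs : ∀ g ∈ s, g ≠ 0) : C.g ≠ 0 := hs _ C.hg

theorem Lc_eq (hs : ∀ g ∈ s, g ≠ 0) (hW : Vle W C.B) : Lc s W = vl W C.B :=
  Lc_eq_vl C.hg (hs _ C.hg) hW C.hAs (C.lc W hW)

/-- The elements of the ideal. -/
theorem mem_L {a : F} : a ∈ C.L ↔ ∃ b ∈ C.B, ∃ c ∈ C.B, ∃ d ∈ C.B,
    a = ε * f / (C.x ^ C.al * C.y ^ C.be) * b + fl C.cx C.x * C.Dx f / (C.x ^ C.al * C.y ^ C.be) * c +
      fl C.cy C.y * C.Dy f / (C.x ^ C.al * C.y ^ C.be) * d := mem_I3

theorem Pd.centred {n : ℕ} {C : Chart p s t ε f G P} (h : C.Pd W₀ n) (hs : ∀ g ∈ s, g ≠ 0)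
    (hW : Vle W C.B) (hx : W.valuation C.x < 1) (hy : W.valuation C.y < 1) : Lc s W = Lc s W₀ := by
  rw [C.Lc_eq hs hW, C.Lc_eq hs h.pt.le, h.pt.vl_eq hW hx hy]

/-- Valuations with the same local ring. -/
theorem Pd.of_eq {n : ℕ} {C : Chart p s t ε f G P} (h : C.Pd W₀ n) (hs : ∀ g ∈ s, g ≠ 0)
    (hW : Lc s W = Lc s W₀) : Vle W C.B ∧ W.valuation C.x < 1 ∧ W.valuation C.y < 1 := by
  have hne : ∃ g ∈ s, g ≠ 0 := ⟨C.g, C.hg, hs _ C.hg⟩
  have h1 := (lst_Lc hne W).loc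
  have h2 : C.B ≤ Lc s W := by rw [hW]; exact C.lc W₀ h.pt.le
  have h3 : ∀ b ∈ C.B, W₀.valuation b < 1 → W.valuation b < 1 := by
    intro b hb hb1
    refine lt_of_le_of_ne (h1.le b (h2 hb)) fun h4 => ?_
    have h5 := h1.inv b (h2 hb) h4
    rw [hW] at h5
    have h6 := (lst_Lc hne W₀).loc.le _ h5
    rw [map_inv₀] at h6
    have hb0 : b ≠ 0 := by
      rintro rfl
      rw [map_zero] at h4
      exact zero_ne_one h4
    have h7 : 0 < W₀.valuation b := by rw [Valuation.pos_iff]; exact hb0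
    exact absurd hb1 (not_lt.mpr ((inv_le_one₀ h7).mp h6))
  exact ⟨fun b hb => h1.le b (h2 hb), h3 _ C.ec.hx h.pt.vx, h3 _ C.ec.hy h.pt.vy⟩

end Chart

end Basic

section Shrink

variable {p : ℕ} [hp : Fact p.Prime] {F : Type} [Field F] [CharP F p] {s : Finset F} {A : Type}
  [DecidableEq A] {t : A → ValuationSubring F → F} {ε f : F} {G : Finset F} {P : Finset (F × F)}
  {W W₀ : ValuationSubring F} {B : Subring F} {x y : F} {Dx Dy : Derivation ℤ F F}

/-- Fractions. -/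
theorem mem_adj_inv {d w : F} (hd : d ∈ B) (hd0 : d ≠ 0) :
    w ∈ adj B d⁻¹ ↔ ∃ a ∈ B, ∃ n : ℕ, w = a / d ^ n := by
  constructor
  · intro hw
    obtain ⟨m, c, hc, rfl⟩ := mem_adj_iff.mp hw
    refine ⟨∑ i ∈ Finset.range m, c i * d ^ (m - i), B.sum_mem fun i _ => B.mul_mem (hc i)
      (B.pow_mem hd _), m, ?_⟩
    rw [Finset.sum_div]
    refine Finset.sum_congr rfl fun i hi => ?_
    rw [Finset.mem_range] at hi
    have h1 : d ^ m = d ^ (m - i) * d ^ i := by rw [← pow_add]; congr 1; omega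
    rw [h1, inv_pow]
    field_simp
  · rintro ⟨a, ha, n, rfl⟩
    rw [div_eq_mul_inv, ← inv_pow]
    exact Subring.mul_mem _ (le_adj ha) (Subring.pow_mem _ mem_adj _)

theorem EC.adj_inv (h : EC p B x y Dx Dy) {d : F} (hd : d ∈ B) (hd0 : d ≠ 0) :
    EC p (adj B d⁻¹) x y Dx Dy := by
  refine h.loc le_adj fun w hw => ?_
  obtain ⟨a, ha, n, rfl⟩ := (mem_adj_inv hd hd0).mp hw
  refine ⟨a, ha, d ^ n, B.pow_mem hd _, pow_ne_zero _ hd0, ?_, rfl⟩
  rw [← inv_pow]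
  exact Subring.pow_mem _ mem_adj _

theorem vle_adj_inv {d : F} (hd : d ∈ B) (hd0 : d ≠ 0) :
    Vle W (adj B d⁻¹) ↔ Vle W B ∧ W.valuation d = 1 := by
  rw [vle_adj]
  refine and_congr_right fun h => ?_
  have h1 : 0 < W.valuation d := by rw [Valuation.pos_iff]; exact hd0
  rw [map_inv₀]
  constructor
  · intro h2
    exact le_antisymm (h d hd) ((inv_le_one₀ h1).mp h2)
  · intro h2
    rw [h2, inv_one]

theorem Mn.mono {cx cy : Option A} {B' : Subring F} {g : F} (h : Mn B cx cy x y g) (hB : B ≤ B') :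
    Mn B' cx cy x y g := by
  obtain ⟨i, j, h1, h2, c, hc, hc', h3⟩ := h
  exact ⟨i, j, h1, h2, c, hB hc, hB hc', h3⟩

theorem L3_mono {B' : Subring F} (hB : B ≤ B') {u v w : F} : L3 B u v w ≤ L3 B' u v w := by
  intro a ha
  obtain ⟨b, hb, c, hc, d, hd, rfl⟩ := mem_I3.mp ha
  exact mem_I3.mpr ⟨b, hB hb, c, hB hc, d, hB hd, rfl⟩

namespace Chart

/-- Localization of a chart. -/
def shrink (C : Chart p s t ε f G P) {d : F} (hd : d ∈ C.B) (hd0 : d ≠ 0)
    (hs : ∃ g ∈ s, g ≠ 0) : Chart p s t ε f G P where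
  B := adj C.B d⁻¹
  g := C.g
  x := C.x
  y := C.y
  Dx := C.Dx
  Dy := C.Dy
  cx := C.cx
  cy := C.cy
  al := C.al
  be := C.be
  fg := C.fg.adj _
  hg := C.hg
  hAs := C.hAs.trans le_adj
  lc := by
    intro W hW
    obtain ⟨h1, h2⟩ := (vle_adj_inv hd hd0).mp hW
    exact adj_le (C.lc W h1) ((lst_Lc hs W).loc.inv d (C.lc W h1 hd) h2)
  ec := C.ec.adj_inv hd hd0
  cxy := C.cxy
  col := fun a W hW => C.col a W (hW.mono le_adj)
  al0 := C.al0
  be0 := C.be0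
  hu := le_adj C.hu
  hv := le_adj C.hv
  hw := le_adj C.hw
  mn := fun h hh => (C.mn h hh).mono le_adj
  jc := fun h hh => (C.jc h hh).mono le_adj

variable (C : Chart p s t ε f G P) {d : F} (hd : d ∈ C.B) (hd0 : d ≠ 0) (hs : ∃ g ∈ s, g ≠ 0)

theorem L_shrink : C.L ≤ (C.shrink hd hd0 hs).L := L3_mono le_adj

theorem good_shrink (h : C.Good) : (C.shrink hd hd0 hs).Good := C.L_shrink hd hd0 hs h

theorem vle_shrink : Vle W (C.shrink hd hd0 hs).B ↔ Vle W C.B ∧ W.valuation d = 1 :=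
  vle_adj_inv hd hd0

/-- The localized chart is good if `d` is in the ideal. -/
theorem good_of_mem (h : d ∈ C.L) : (C.shrink hd hd0 hs).Good := by
  have h1 := (C.shrink hd hd0 hs).idl.mul d⁻¹ mem_adj d (C.L_shrink hd hd0 hs h)
  rwa [inv_mul_cancel₀ hd0] at h1

end Chart

/-- Ideals in localizations. -/
theorem idx_loc {L : AddSubgroup F} {L' : AddSubgroup F} {d : F} (hd : d ∈ B) (hd0 : d ≠ 0)
    (hL : Idl B L) (hL' : Idl (adj B d⁻¹) L') (hLL : L ≤ L')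
    (h0 : L.relIndex B.toAddSubgroup ≠ 0) :
    L'.relIndex (adj B d⁻¹).toAddSubgroup ≠ 0 ∧
    L'.relIndex (adj B d⁻¹).toAddSubgroup ≤ L.relIndex B.toAddSubgroup := by
  classical
  -- the powers of `d`
  obtain ⟨i, j, hj, hij⟩ : ∃ i j : ℕ, 1 ≤ j ∧ d ^ i * (1 - d ^ j) ∈ L := by
    have hfi' : (L.addSubgroupOf B.toAddSubgroup).FiniteIndex := ⟨h0⟩
    have hfi : Finite (B.toAddSubgroup ⧸ L.addSubgroupOf B.toAddSubgroup) :=
      AddSubgroup.finite_quotient_of_finiteIndex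
    obtain ⟨m, n, hmn, h1⟩ := Finite.exists_ne_map_eq_of_infinite
      (fun n : ℕ => ((⟨d ^ n, B.pow_mem hd n⟩ : B.toAddSubgroup) :
        B.toAddSubgroup ⧸ L.addSubgroupOf B.toAddSubgroup))
    have key : ∀ m n : ℕ, m < n → (((⟨d ^ m, B.pow_mem hd m⟩ : B.toAddSubgroup) :
        B.toAddSubgroup ⧸ L.addSubgroupOf B.toAddSubgroup) = (⟨d ^ n, B.pow_mem hd n⟩ :
        B.toAddSubgroup)) → d ^ m * (1 - d ^ (n - m)) ∈ L := by
      intro m n hmn h1
      rw [QuotientAddGroup.eq, AddSubgroup.mem_addSubgroupOf] at h1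
      have h2 : -(d ^ m) + d ^ n ∈ L := h1
      have h3 : d ^ m * (1 - d ^ (n - m)) = -(-(d ^ m) + d ^ n) := by
        have h4 : d ^ n = d ^ m * d ^ (n - m) := by rw [← pow_add]; congr 1; omega
        rw [h4]; ring
      rw [h3]
      exact L.neg_mem h2
    rcases lt_or_gt_of_ne hmn with h2 | h2
    · exact ⟨m, n - m, by omega, key m n h2 h1⟩
    · exact ⟨n, m - n, by omega, key n m h2 h1.symm⟩
  have h1 : 1 - d ^ j ∈ L' := by
    have h2 := hL'.mul (d⁻¹ ^ i) (Subring.pow_mem _ mem_adj _) _ (hLL hij)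
    rwa [← mul_assoc, ← mul_pow, inv_mul_cancel₀ hd0, one_pow, one_mul] at h2
  have h2 : ∀ w ∈ adj B d⁻¹, w ∈ B.toAddSubgroup ⊔ L' := by
    intro w hw
    obtain ⟨a, ha, n, rfl⟩ := (mem_adj_inv hd hd0).mp hw
    -- `1 - d ^ (j * n)` is in the ideal
    have h3 : 1 - d ^ (j * n) ∈ L' := by
      have h4 : (1 : F) - d ^ j ∣ 1 ^ n - (d ^ j) ^ n := sub_dvd_pow_sub_pow _ _ n
      induction n with
      | zero => rw [mul_zero, pow_zero, sub_self]; exact L'.zero_mem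
      | succ n ih =>
        have hd' : d ^ (j * n) ∈ adj B d⁻¹ := Subring.pow_mem _ (le_adj hd) _
        have h5 : 1 - d ^ (j * (n + 1)) = (1 - d ^ (j * n)) + d ^ (j * n) * (1 - d ^ j) := by
          rw [Nat.mul_succ, pow_add]; ring
        rw [h5]
        exact L'.add_mem (ih ((mem_adj_inv hd hd0).mpr ⟨a, ha, n, rfl⟩) (sub_dvd_pow_sub_pow _ _ n))
          (hL'.mul _ hd' _ h1)
    have h4 : a / d ^ n = a * d ^ (j * n - n) + a / d ^ n * (1 - d ^ (j * n)) := by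
      have h5 : d ^ (j * n) = d ^ n * d ^ (j * n - n) := by
        rw [← pow_add]
        congr 1
        have := Nat.le_mul_of_pos_left n hj
        omega
      rw [h5]
      field_simp
      ring
    rw [h4]
    exact AddSubgroup.mem_sup.mpr ⟨_, B.mul_mem ha (B.pow_mem hd _), _, hL'.mul _
      ((mem_adj_inv hd hd0).mpr ⟨a, ha, n, rfl⟩) _ h3, rfl⟩
  have h3 : L'.relIndex B.toAddSubgroup ≠ 0 := fun h => h0
    (AddSubgroup.relIndex_eq_zero_of_le_left hLL h)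
  have h4 : L'.relIndex (B.toAddSubgroup ⊔ L') = L'.relIndex B.toAddSubgroup := relIndex_sup _ _
  have h5 : (adj B d⁻¹).toAddSubgroup ≤ B.toAddSubgroup ⊔ L' := h2
  refine ⟨fun h => ?_, ?_⟩
  · have := AddSubgroup.relIndex_eq_zero_of_le_right h5 h
    rw [h4] at this
    exact h3 this
  · calc L'.relIndex (adj B d⁻¹).toAddSubgroup ≤ L'.relIndex (B.toAddSubgroup ⊔ L') :=
          AddSubgroup.relIndex_le_of_le_right h5 (by rw [h4]; exact h3)
      _ = L'.relIndex B.toAddSubgroup := h4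
      _ ≤ L.relIndex B.toAddSubgroup := AddSubgroup.relIndex_le_of_le_left hLL h0

/-- Localization of points. -/
theorem Pt.adj_inv (h : Pt p W B x y) {d : F} (hd : d ∈ B) (hd1 : W.valuation d = 1) :
    Pt p W (adj B d⁻¹) x y := by
  have hd0 : d ≠ 0 := by
    rintro rfl
    rw [map_zero] at hd1
    exact zero_ne_one hd1
  have hle : adj B d⁻¹ ≤ vl W B := adj_le le_vl (inv_mem_vl hd hd1)
  refine ⟨((vle_adj_inv hd hd0).mpr ⟨h.le, hd1⟩), h.vx, h.vy, fun b hb hv => ?_, ?_⟩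
  · obtain ⟨a, ha, n, rfl⟩ := (mem_adj_inv hd hd0).mp hb
    rw [map_div₀, map_pow, hd1, one_pow, div_one] at hv
    obtain ⟨r, hr, r', hr', rfl⟩ := h.max a ha hv
    exact ⟨r / d ^ n, (mem_adj_inv hd hd0).mpr ⟨r, hr, n, rfl⟩, r' / d ^ n,
      (mem_adj_inv hd hd0).mpr ⟨r', hr', n, rfl⟩, by rw [add_div]; ring⟩
  · obtain ⟨n, hn, h1⟩ := (h.clo.vl h.le)
    exact ⟨n, hn, fun b hb => h1 b (hle hb)⟩

theorem Chart.Pd.idx_ne {C : Chart p s t ε f G P} {n : ℕ} (h : C.Pd W n) :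
    C.L.relIndex C.B.toAddSubgroup ≠ 0 := by
  obtain ⟨m, h1, h2⟩ := h.m
  exact h.pt.idx_ne C.ec.hx C.ec.hy C.ec.x0 C.ec.y0 C.idl h1 h2

theorem Chart.Pd.shrink {C : Chart p s t ε f G P} {n : ℕ} (h : C.Pd W n) {d : F} (hd : d ∈ C.B)
    (hd0 : d ≠ 0) (hs : ∃ g ∈ s, g ≠ 0) (hd1 : W.valuation d = 1) :
    (C.shrink hd hd0 hs).Pd W n := by
  refine ⟨h.pt.adj_inv hd hd1, ?_, ?_⟩
  · obtain ⟨m, h1, h2⟩ := h.m
    exact ⟨m, C.L_shrink hd hd0 hs h1, C.L_shrink hd hd0 hs h2⟩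
  · refine le_trans ?_ h.le
    have h1 := (idx_loc hd hd0 C.idl (C.shrink hd hd0 hs).idl (C.L_shrink hd hd0 hs) h.idx_ne).2
    exact Nat.add_le_add_right (Nat.mul_le_mul_left _ h1) _

end Shrink

end Pool.Agent.H96.S
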