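import Pool.Agent.H96.S.GC
import Pool.Agent.H96.W4.CD2

/-!
# Curves: the local conditions, presentations
-/

set_option autoImplicit false
set_option linter.unusedSectionVars false

namespace Pool.Agent.H96.S

open MvPolynomial Pool.Agent.H96.VL Pool.Agent.H96.W Pool.Agent.H96.W0 Pool.Agent.H96.W4
open Pool.Agent.H96.W2 (wp wp_sub wp_le val_const_le val_const Scalar)

section Place

variable (p : ℕ) [Fact p.Prime] (F : Type) [Field F] [Algebra (ZMod p) F]
  [Algebra.EssFiniteType (ZMod p) F] (htr : Algebra.trdeg (ZMod p) F = 1)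

include htr

/-- The nontrivial places. -/
theorem exists_place_of {W : ValuationSubring F} (hW : W ≠ ⊤) {P : Prop}
    (h : ∀ (x : F) (_ : Algebra.IsSeparable (IntermediateField.adjoin (ZMod p) {x}) F)
      (R : Subalgebra (ZMod p) F) (_ : IsDedekindDomain R) (_ : IsFractionRing R F)
      (_ : Algebra.FiniteType (ZMod p) R) (t : R), Place W t → Le R W → P) : P := by
  obtain ⟨x, hx, i1, i2, i3, i4⟩ := exists_sep (ZMod p) F htr
  have hx0 : x ≠ 0 := by
    rintro rfl
    exact hx (isAlgebraic_zero)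
  have hx' : Transcendental (ZMod p) x⁻¹ := by
    intro h
    apply hx
    have := h.inv
    rwa [inv_inv] at this
  have key : ∀ (R : Subalgebra (ZMod p) F) (_ : IsDedekindDomain R) (_ : IsFractionRing R F),
      ∀ hLe : Le R W, cen W hLe ≠ ⊥ := by
    intro R d0 e0 hLe h0
    apply hW
    rw [eq_top_iff]
    intro w _
    by_cases hw : w = 0
    · rw [hw]; exact W.zero_mem
    · exact (W.valuation_le_one_iff w).mp (triv_of_cen_eq_bot hLe h0 hw).le
  by_cases hWx : W.valuation x ≤ 1
  · obtain ⟨A₀, hA₀⟩ := exists_chart (k := ZMod p) x hx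
    have d0 := hA₀.ded
    have e0 := hA₀.frac
    have t0 := hA₀.finiteType
    have hLe := hA₀.le hWx
    obtain ⟨t, ht⟩ := exists_place hLe (key A₀ d0 e0 hLe)
    exact h x i2 A₀ d0 e0 t0 t ht hLe
  · obtain ⟨A₁, hA₁⟩ := exists_chart (k := ZMod p) x⁻¹ hx'
    have d1 := hA₁.ded
    have e1 := hA₁.frac
    have t1 := hA₁.finiteType
    have hLe := hA₁.le ((val_inv_lt hx0).mpr hWx).le
    obtain ⟨t, ht⟩ := exists_place hLe (key A₁ d1 e1 hLe)
    exact h x i2 A₁ d1 e1 t1 t ht hLe

end Place

section Sc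

variable (p : ℕ) [Fact p.Prime] (k F : Type) [Field k] [Finite k] [Field F] [Algebra (ZMod p) F]
  [Algebra k F] [Algebra.EssFiniteType (ZMod p) F] (htr : Algebra.trdeg (ZMod p) F = 1)

include htr

theorem zpow_ne {W : ValuationSubring F} {R : Subalgebra (ZMod p) F} [IsDedekindDomain R]
    [IsFractionRing R F] {t : R} (ht : Place W t) {φ : F} {ε : ℤ}
    (hε : ¬ (p : ℤ) ∣ ε) (hφ : W.valuation φ = W.valuation (algebraMap R F t) ^ ε) (y : F) :
    W.valuation (y ^ p * φ) ≠ 1 := by
  intro h1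
  have hvt := ht.vt0
  have hy0 : y ≠ 0 := by
    rintro rfl
    rw [zero_pow (Fact.out : p.Prime).ne_zero, zero_mul, map_zero] at h1
    exact zero_ne_one h1
  obtain ⟨z, hz⟩ := exists_zpow ht hy0
  rw [map_mul, map_pow, hz, hφ, ← zpow_natCast, ← zpow_mul, ← zpow_add₀ hvt.ne'] at h1
  have h2 : z * (p : ℤ) + ε = 0 := by
    rcases lt_trichotomy (z * (p : ℤ) + ε) 0 with h3 | h3 | h3
    · exfalso
      have h4 := (vzpow_lt ht (m := 0) (n := z * (p : ℤ) + ε)).mpr h3
      rw [h1, zpow_zero] at h4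
      exact lt_irrefl _ h4
    · exact h3
    · exfalso
      have h4 := (vzpow_lt ht (m := z * (p : ℤ) + ε) (n := 0)).mpr h3
      rw [h1, zpow_zero] at h4
      exact lt_irrefl _ h4
  apply hε
  exact ⟨-z, by linarith⟩

/-- The local condition in the inseparable case. -/
theorem sc_ins {m₂ : ℕ} (Λ : Matrix (Fin 0) (Fin 0) k) (f : Fin 0 → F) (e : F) (D : Fin m₂ → k)
    (he : ∀ a : F, a ^ p ≠ e) (W : ValuationSubring F) (hW : W ≠ ⊤) : Sc p Λ f e D W := by
  have hc := charP_F p F
  refine exists_place_of p F htr hW fun x i4 R d0 e0 t0 t ht hLe => ?_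
  obtain ⟨q, ε, hε, hq⟩ := exists_local_gauge ht (mem_pring_top x e he _) he
  exact ⟨e - q ^ p, 0, f, Or.inr (zpow_ne p F htr ht hε hq), fun _ => ⟨q, rfl⟩,
    fun a => a.elim0⟩

/-- The local condition in the Artin–Schreier case. -/
theorem sc_as (f : Fin 1 → F) (e : F) (D : Fin 0 → k) (W : ValuationSubring F) (hW : W ≠ ⊤) :
    Sc p (1 : Matrix (Fin 1) (Fin 1) k) f e D W := by
  have hc := charP_F p F
  refine exists_place_of p F htr hW fun x i4 R d0 e0 t0 t ht hLe => ?_
  obtain ⟨g, -, hg⟩ := exists_gauge (R := R) (p := p) (fun q hq u => perfect_res q hq u) t (f 0)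
  have h1 := hg W hLe ht.lt ht.t0
  refine ⟨f 0 - (g ^ p - g), fun _ => 1, fun _ => g, ?_,
    fun h => absurd (Subsingleton.elim D 0) h, fun a => ?_⟩
  · rcases h1 with h1 | ⟨t', m, ht', hm, h1⟩
    · exact Or.inl h1
    · right
      have hvt := ht.vt0
      refine zpow_ne p F htr ht (ε := -(m : ℤ)) (fun h2 => hm ?_) ?_
      · rw [dvd_neg] at h2
        exact_mod_cast h2
      · rw [map_mul, map_pow, unif_eq ht' ht.unif] at h1
        rw [zpow_neg, zpow_natCast]
        exact eq_inv_of_mul_eq_one_left h1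
  · have ha : a = 0 := Subsingleton.elim _ _
    subst ha
    have h2 : wp p (1 : Matrix (Fin 1) (Fin 1) k) (fun _ => g) 0 = g ^ p - g := by
      rw [wp, Fin.sum_univ_one, Matrix.one_apply_eq, map_one, one_mul]
    rw [h2, map_one, one_mul, sub_self, map_zero]
    exact zero_le

end Sc

section Trans

variable {p : ℕ} [Fact p.Prime] {F : Type} [Field F] [Algebra (ZMod p) F]
  {W : ValuationSubring F} {n : ℕ}

/-- The reindexing of the variables. -/
theorem exists_reindex (l : Fin (n + 1)) : ∃ σ : Fin (n + 1) ≃ Va n 1, σ l = Sum.inr 0 := by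
  have e1 : Fin (n + 1) ≃ Va n 1 := (Fintype.equivFinOfCardEq (by
    rw [Fintype.card_sum, Fintype.card_fin, Fintype.card_fin])).symm
  refine ⟨e1.trans (Equiv.swap (e1 l) (Sum.inr 0)), ?_⟩
  rw [Equiv.trans_apply, Equiv.swap_apply_left]

/-- **The presentation in the form of the product engine.** -/
theorem exists_pres_curve {y : Fin (n + 1) → F}
    {G : Fin (n + 1) → MvPolynomial (Fin (n + 1)) (ZMod p)} {l : Fin (n + 1)}
    (h : Pres W n y G l) : ∃ (y' : Va n 1 → F) (G' : Fin n → MvPolynomial (Va n 1) (ZMod p))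
      (D : MvPolynomial (Va n 1) (ZMod p)), (∀ s, W.valuation (y' s) ≤ 1) ∧
      y' (Sum.inr 0) = y l ∧ (∀ b, ∃ s, y' s = y b) ∧
      (∀ w, W.valuation w ≤ 1 → ∃ a s : MvPolynomial (Va n 1) (ZMod p),
        W.valuation (aeval y' s) = 1 ∧ w = aeval y' a / aeval y' s) ∧
      (∀ j, aeval y' (G' j) = 0) ∧ W.valuation (aeval y' D) = 1 ∧ Ndg G' D := by
  classical
  obtain ⟨σ, hσ⟩ := exists_reindex l
  have hren : ∀ P : MvPolynomial (Fin (n + 1)) (ZMod p),
      aeval (fun s => y (σ.symm s)) (rename σ P) = aeval y P := by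
    intro P
    rw [aeval_rename]
    congr 1
    congr 1
    funext b
    show y (σ.symm (σ b)) = y b
    rw [Equiv.symm_apply_apply]
  refine ⟨fun s => y (σ.symm s), fun k => rename σ (G k.succ),
    rename σ (Matrix.of fun i l => pderiv l (G i)).det, fun s => h.vy _, ?_, fun b => ⟨σ b, ?_⟩,
    fun w hw => ?_, fun j => ?_, ?_, ?_⟩
  · show y (σ.symm (Sum.inr 0)) = y l
    rw [← hσ, Equiv.symm_apply_apply]
  · show y (σ.symm (σ b)) = y b
    rw [Equiv.symm_apply_apply]
  · obtain ⟨a, s, h1, h2⟩ := h.gen w hw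
    exact ⟨rename σ a, rename σ s, by rw [hren]; exact h1, by rw [hren, hren]; exact h2⟩
  · rw [hren]; exact h.rel j
  · rw [hren]; exact h.det
  · intro κ _ _ x hx a ha
    rw [aeval_rename] at hx
    set x' : Fin (n + 1) → κ := x ∘ σ with hx'
    have hd : (Matrix.of fun i l => aeval x' (pderiv l (G i))).det ≠ 0 := by
      intro h0
      apply hx
      have h1 := RingHom.map_det (aeval x' : MvPolynomial (Fin (n + 1)) (ZMod p) →ₐ[ZMod p] κ).toRingHom
        (Matrix.of fun i l => pderiv l (G i))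
      refine h1.trans ?_
      rw [← h0]
      congr 1
    set a' : Fin (n + 1) → κ := Fin.cons (-∑ k, a k * aeval x' (pderiv l (G k.succ))) a with ha'
    have hv : Matrix.vecMul a' (Matrix.of fun i l => aeval x' (pderiv l (G i))) = 0 := by
      funext b
      show ∑ i, a' i * aeval x' (pderiv b (G i)) = 0
      rw [Fin.sum_univ_succ, ha']
      simp only [Fin.cons_zero, Fin.cons_succ]
      rw [h.G0]
      by_cases hb : b = l
      · rw [hb, pderiv_X_self, map_one, mul_one, neg_add_cancel]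
      · rw [pderiv_X_of_ne (Ne.symm hb), map_zero, mul_zero, zero_add]
        obtain ⟨j, hj⟩ : ∃ j, σ b = Sum.inl j := by
          rcases hs : σ b with j | c
          · exact ⟨j, rfl⟩
          · exfalso
            apply hb
            apply σ.injective
            rw [hs, hσ]
            exact congrArg Sum.inr (Subsingleton.elim _ _)
        have h1 := ha j
        rw [← h1]
        refine Finset.sum_congr rfl fun k _ => ?_
        rw [← hj, pderiv_rename σ.injective, aeval_rename]
    have h2 := Matrix.eq_zero_of_vecMul_eq_zero hd hv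
    intro k
    have h3 := congrFun h2 k.succ
    rw [ha', Fin.cons_succ, Pi.zero_apply] at h3
    exact h3

end Trans

end Pool.Agent.H96.S
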