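import Pool.Agent.H96.S.CuA
import Pool.Agent.H96.S.SFf

/-!
# The data of a curve
-/

set_option autoImplicit false
set_option linter.unusedSectionVars false

namespace Pool.Agent.H96.S

open MvPolynomial Pool.Agent.H96.VL Pool.Agent.H96.W Pool.Agent.H96.W0 Pool.Agent.H96.W4
open Pool.Agent.H96.W2 (wp wp_sub wp_le val_const_le val_const Scalar)
open scoped Pointwise

section Val

variable {F : Type} [Field F] {W : ValuationSubring F}

theorem mem_ws {w : F} : w ∈ W.toSubring ↔ W.valuation w ≤ 1 := (W.valuation_le_one_iff w).symm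

theorem vlocal_ws (W : ValuationSubring F) : VLocal W W.toSubring where
  le := fun _ hx => mem_ws.mp hx
  inv := fun x _ h1 => mem_ws.mpr (by rw [map_inv₀, h1, inv_one])

theorem div_ws {a b : F} (hb : b ≠ 0) : a / b ∈ W.toSubring ↔ W.valuation a ≤ W.valuation b := by
  have h1 : 0 < W.valuation b := by rw [Valuation.pos_iff]; exact hb
  rw [mem_ws, map_div₀, div_le_one₀ h1]

theorem gen_ws {s : Finset F} {T : F} (h0 : T ≠ 0) (h1 : ∀ g ∈ s, W.valuation g ≤ W.valuation T)
    (h2 : ∃ g ∈ s, W.valuation g = W.valuation T) : Gen W.toSubring s T := by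
  obtain ⟨g, hg, hgT⟩ := h2
  have hg0 : g ≠ 0 := by
    rintro rfl
    rw [map_zero] at hgT
    exact h0 (W.valuation.zero_iff.mp hgT.symm)
  exact ⟨h0, fun g hg => (div_ws h0).mpr (h1 g hg), g, hg, (div_ws hg0).mpr hgT.ge, hg0⟩

theorem prin_ws {s : Finset F} (h0 : 0 ∉ s) (hs : s.Nonempty) : Prin W.toSubring s := by
  obtain ⟨g, hg, hmax⟩ := Finset.exists_max_image s (fun w => W.valuation w) hs
  exact ⟨g, gen_ws (fun h => h0 (by rw [← h]; exact hg)) hmax ⟨g, hg, rfl⟩⟩

theorem fr_ws (w : F) : ∃ a ∈ W.toSubring, ∃ s ∈ W.toSubring, s ≠ 0 ∧ w = a / s := by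
  rcases W.mem_or_inv_mem w with h | h
  · exact ⟨w, h, 1, W.one_mem, one_ne_zero, by rw [div_one]⟩
  · by_cases hw : w = 0
    · exact ⟨0, W.zero_mem, 1, W.one_mem, one_ne_zero, by rw [hw, zero_div]⟩
    · exact ⟨1, W.one_mem, w⁻¹, h, inv_ne_zero hw, by rw [one_div, inv_inv]⟩

end Val

section Fl

variable {p : ℕ} [hp : Fact p.Prime] {F : Type} [Field F] [Algebra (ZMod p) F]
  {W : ValuationSubring F} {J : Type} {r M : ℕ} {f : F} {h : Fin r → F} {c q : J → F}
  {T : Unit → Finset F} {S : Finset F}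

theorem mon_unit (τ : F) (e : Unit → ℤ) : mon (fun _ : Unit => τ) e = τ ^ e () := by
  rw [mon, Fintype.prod_unique]

/-- The local data of a curve. -/
theorem exists_fl_curve {b on : Bool} {τ U : F} {act : Bool} {ε β : ℤ} {κ : Fin r → ℤ} {j : J}
    (hτ : τ = 1 ∨ Unif W τ)
    (pres : ∀ E : Finset F, (∀ s ∈ E, W.valuation s ≤ 1) → ∃ (n : ℕ) (y : Fin (n + 1) → F)
      (G : Fin (n + 1) → MvPolynomial (Fin (n + 1)) (ZMod p)) (l : Fin (n + 1)),
      Pres W n y G l ∧ (∀ s ∈ E, ∃ b, y b = s) ∧ (Unif W τ → y l = τ) ∧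
        (act = true → τ = 1 → y l = U))
    (hU : W.valuation U ≤ 1)
    (typ : act = true → (Unif W τ ∧ ¬ (p : ℤ) ∣ ε ∧ W.valuation U = 1) ∨ τ = 1)
    (actb : b = false → act = on) (pole : b = true → act = true → 1 < W.valuation (τ ^ ε))
    (e0 : act = false → ε = 0) (cut : ε ≤ p * β) (eM : |ε| ≤ M) (βM : |β| ≤ M)
    (κM : ∀ c, |κ c| ≤ M)
    (eqf : f - q j ^ p + cond b (q j) 0 = cond (b || act) (U * τ ^ ε) 0)
    (eqh : ∀ c, W.valuation (h c * τ ^ (-κ c)) = 1)
    (crat : ∀ l, c l / c j ∈ W.toSubring) (gT : Gen W.toSubring (T ()) (τ * c j))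
    (gS : (b || on) = true → Gen W.toSubring S (c j * τ ^ β))
    (qd : (b || on) = true → ∀ l, c l / c j * (q j - q l) / τ ^ β ∈ W.toSubring)
    (qe : (b || on) = false → ∀ l, q l = q j) :
    ∃ L : FL p b on 1 r M f h c q T S W, L.R = W.toSubring := by
  classical
  have hτ0 : τ ≠ 0 := by
    rcases hτ with h | h
    · rw [h]; exact one_ne_zero
    · exact h.t0
  have hτ1 : W.valuation τ ≤ 1 := by
    rcases hτ with h | h
    · rw [h, map_one]
    · exact h.lt.le
  obtain ⟨n, y, G, l, hP, hE, hl, hl'⟩ := pres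
    ({U} ∪ Finset.univ.image fun c => h c * τ ^ (-κ c)) (by
      intro s hs
      rw [Finset.mem_union, Finset.mem_singleton, Finset.mem_image] at hs
      rcases hs with rfl | ⟨c, -, rfl⟩
      · exact hU
      · exact (eqh c).le)
  obtain ⟨y', G', D, h1, h2, h3, h4, h5, h6, h7⟩ := exists_pres_curve hP
  obtain ⟨u, hu, hu'⟩ : ∃ u, y' u = U ∧ (act = true → τ = 1 → u = Sum.inr 0) := by
    by_cases hc : act = true ∧ τ = 1
    · exact ⟨Sum.inr 0, by rw [h2, hl' hc.1 hc.2], fun _ _ => rfl⟩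
    · obtain ⟨b, hb⟩ := hE U (Finset.mem_union_left _ (Finset.mem_singleton_self _))
      obtain ⟨s, hs⟩ := h3 b
      exact ⟨s, by rw [hs, hb], fun h8 h9 => absurd ⟨h8, h9⟩ hc⟩
  have hv : ∀ c, ∃ s, y' s = h c * τ ^ (-κ c) := by
    intro c
    obtain ⟨b, hb⟩ := hE (h c * τ ^ (-κ c)) (Finset.mem_union_right _
      (Finset.mem_image_of_mem (fun c => h c * τ ^ (-κ c)) (Finset.mem_univ c)))
    obtain ⟨s, hs⟩ := h3 b
    exact ⟨s, by rw [hs, hb]⟩
  choose qv hqv using hv
  refine ⟨⟨W.toSubring, vlocal_ws W, fr_ws, j, n, y', G', D, fun s => mem_ws.mpr (h1 s),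
    fun w hw => h4 w (mem_ws.mp hw), h5, h6, h7, fun _ => if τ = 1 then none else some 0,
    fun _ => τ, fun _ => mem_ws.mpr hτ1, fun a ha => ?_, fun a c' ha => ?_, fun _ _ _ _ _ => rfl,
    fun _ => ε, fun _ => β, fun c _ => κ c, u, qv, act, fun hact => ?_, actb,
    fun hb hact => by rw [mon_unit]; exact pole hb hact, fun hact => by rw [e0 hact]; rfl,
    fun _ _ => cut, fun _ => eM, fun _ => βM, fun c _ => κM c, by rw [hu, mon_unit]; exact eqf,
    fun c => by rw [hqv]; exact eqh c, fun c => ?_, crat, fun a => gT, fun hb => by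
      rw [mon_unit]; exact gS hb, fun hb l => by rw [mon_unit]; exact qd hb l, qe⟩, rfl⟩
  · by_contra hne
    rw [if_neg hne] at ha
    exact Option.some_ne_none _ ha
  · by_cases hc : τ = 1
    · rw [if_pos hc] at ha
      exact absurd ha.symm (Option.some_ne_none _)
    · rw [if_neg hc] at ha
      have h8 := Option.some_injective _ ha
      have h9 : Unif W τ := hτ.resolve_left hc
      exact ⟨h9.lt, h9.t0, by rw [← h8, h2, hl h9]⟩
  · rcases typ hact with ⟨h8, h9, h10⟩ | h8
    · left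
      refine ⟨(), ?_, h9, by rw [hu]; exact h10⟩
      rw [if_neg (by rintro rfl; exact not_unif_one h8)]
      exact Option.some_ne_none _
    · right
      refine ⟨0, hu' hact h8, fun a => ?_⟩
      rw [if_pos h8]
      exact (Option.some_ne_none _).symm
  · rw [hqv, mon_unit, mul_assoc, ← zpow_add₀ hτ0, neg_add_cancel, zpow_zero, mul_one]

end Fl

section Sections

variable {F : Type} [Field F]

/-- The sections. -/
def xf (x : F) (N : ℕ) (j : Bool) : F := cond j (x ^ N) 1

theorem xf_ne {x : F} (hx : x ≠ 0) (N : ℕ) (j : Bool) : xf x N j ≠ 0 := by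
  cases j
  · exact one_ne_zero
  · exact pow_ne_zero _ hx

/-- The chart at a place. -/
noncomputable def jW (x : F) (W : ValuationSubring F) : Bool :=
  open Classical in if W.valuation x ≤ 1 then false else true

theorem xf_jW (x : F) (N : ℕ) (W : ValuationSubring F) : xf x N (jW x W) = tw x N W := by
  by_cases h : W.valuation x ≤ 1
  · rw [jW, if_pos h, tw_le h]; rfl
  · rw [jW, if_neg h, tw_gt h]; rfl

theorem gg_jW (x g0 g1 : F) (W : ValuationSubring F) : cond (jW x W) g1 g0 = gg x g0 g1 W := by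
  by_cases h : W.valuation x ≤ 1
  · rw [jW, if_pos h, gg_le h]; rfl
  · rw [jW, if_neg h, gg_gt h]; rfl

theorem ratio_xf {x : F} (hx : x ≠ 0) (N : ℕ) (W : ValuationSubring F) (b : Bool) :
    xf x N b / xf x N (jW x W) ∈ W.toSubring := by
  by_cases h : W.valuation x ≤ 1
  · have hσ : jW x W = false := if_pos h
    rw [hσ]
    cases b
    · rw [div_self (xf_ne hx N _)]; exact W.one_mem
    · have h1 : xf x N true / xf x N false = x ^ N := div_one _
      rw [h1, mem_ws, map_pow]
      exact pow_le_one' h _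
  · have hσ : jW x W = true := if_neg h
    rw [hσ]
    have h' := (not_le.mp h).le
    cases b
    · have h1 : xf x N false / xf x N true = 1 / x ^ N := rfl
      rw [h1, one_div, mem_ws, map_inv₀, map_pow]
      exact inv_le_one_of_one_le₀ (one_le_pow₀ h')
    · rw [div_self (xf_ne hx N _)]; exact W.one_mem

/-- The change of the gauges. -/
theorem diff_xf {x : F} (hx : x ≠ 0) {N Lo : ℕ} {W : ValuationSubring F} {g0 g1 : F}
    {δ : W.ValueGroup} (h1 : W.valuation x ≤ 1 → W.valuation (x ^ (Lo * N) * (g1 - g0)) ≤ δ)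
    (h2 : ¬ W.valuation x ≤ 1 → W.valuation ((g1 - g0) / x ^ (Lo * N)) ≤ δ) (l : Bool) :
    W.valuation (xf x N l ^ Lo / xf x N (jW x W) ^ Lo *
      (cond (jW x W) g1 g0 - cond l g1 g0)) ≤ δ := by
  by_cases h : W.valuation x ≤ 1
  · have hσ : jW x W = false := if_pos h
    rw [hσ]
    cases l
    · rw [sub_self, mul_zero, map_zero]; exact zero_le
    · have h3 : xf x N true ^ Lo / xf x N false ^ Lo * (cond false g1 g0 - cond true g1 g0) =
          -(x ^ (Lo * N) * (g1 - g0)) := by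
        show (x ^ N) ^ Lo / 1 ^ Lo * (g0 - g1) = _
        rw [one_pow, div_one, ← pow_mul, mul_comm N]
        ring
      rw [h3, Valuation.map_neg]
      exact h1 h
  · have hσ : jW x W = true := if_neg h
    rw [hσ]
    cases l
    · have h3 : xf x N false ^ Lo / xf x N true ^ Lo * (cond true g1 g0 - cond false g1 g0) =
          (g1 - g0) / x ^ (Lo * N) := by
        show 1 ^ Lo / (x ^ N) ^ Lo * (g1 - g0) = _
        rw [one_pow, ← pow_mul, mul_comm N, one_div, inv_mul_eq_div]
      rw [h3]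
      exact h2 h
    · rw [sub_self, mul_zero, map_zero]; exact zero_le

end Sections

end Pool.Agent.H96.S
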