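import Pool.Agent.H96.S.St3

/-!
# The descent
-/

set_option autoImplicit false
set_option linter.unusedSectionVars false

namespace Pool.Agent.H96.S

open Pool.Agent.H96.VL
open scoped Pointwise

section Qc

variable {F : Type} [Field F]

/-- **Quasi-compactness of the space of valuations.** -/
theorem qc {ι : Type} (E : ι → Finset F) (h : ∀ W : ValuationSubring F, ∃ i, ∀ e ∈ E i, e ∈ W) :
    ∃ T : Finset ι, ∀ W : ValuationSubring F, ∃ i ∈ T, ∀ e ∈ E i, e ∈ W := by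
  classical
  by_contra hcon
  push Not at hcon
  set S : ι → Set (ValuationSubring F) := fun i => {W | ∃ e ∈ E i, e ∉ W} with hS
  have hne : (Filter.generate (Set.range S)).NeBot := by
    rw [Filter.generate_neBot_iff]
    intro t ht hfin
    have h1 : ∀ u ∈ t, ∃ i, S i = u := fun u hu => ht hu
    obtain ⟨i₀, -⟩ := h ⊤
    haveI : Nonempty ι := ⟨i₀⟩
    choose! φ hφ using h1
    obtain ⟨W, hW⟩ := hcon (hfin.toFinset.image φ)
    refine ⟨W, fun u hu => ?_⟩
    rw [← hφ u hu]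
    exact hW (φ u) (Finset.mem_image_of_mem _ (hfin.mem_toFinset.mpr hu))
  set 𝒰 := Ultrafilter.of (Filter.generate (Set.range S)) with h𝒰
  have hSU : ∀ i, S i ∈ 𝒰 := fun i =>
    Ultrafilter.of_le _ (Filter.mem_generate_of_mem ⟨i, rfl⟩)
  let V : ValuationSubring F :=
    { carrier := {x | {W : ValuationSubring F | x ∈ W} ∈ 𝒰}
      mul_mem' := fun {a b} ha hb => by
        have ha' : {W : ValuationSubring F | a ∈ W} ∈ 𝒰 := ha
        have hb' : {W : ValuationSubring F | b ∈ W} ∈ 𝒰 := hb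
        filter_upwards [ha', hb'] with W h1 h2 using W.mul_mem _ _ h1 h2
      one_mem' := by
        show {W : ValuationSubring F | (1 : F) ∈ W} ∈ 𝒰
        filter_upwards with W using W.one_mem
      add_mem' := fun {a b} ha hb => by
        have ha' : {W : ValuationSubring F | a ∈ W} ∈ 𝒰 := ha
        have hb' : {W : ValuationSubring F | b ∈ W} ∈ 𝒰 := hb
        filter_upwards [ha', hb'] with W h1 h2 using W.add_mem _ _ h1 h2
      zero_mem' := by
        show {W : ValuationSubring F | (0 : F) ∈ W} ∈ 𝒰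
        filter_upwards with W using W.zero_mem
      neg_mem' := fun {a} ha => by
        have ha' : {W : ValuationSubring F | a ∈ W} ∈ 𝒰 := ha
        filter_upwards [ha'] with W h1 using W.neg_mem _ h1
      mem_or_inv_mem' := fun x => by
        show {W : ValuationSubring F | x ∈ W} ∈ 𝒰 ∨ {W : ValuationSubring F | x⁻¹ ∈ W} ∈ 𝒰
        rw [← Ultrafilter.union_mem_iff]
        filter_upwards with W using W.mem_or_inv_mem x }
  obtain ⟨i, hi⟩ := h V
  have h1 : {W : ValuationSubring F | ∀ e ∈ E i, e ∈ W} ∈ 𝒰 := by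
    have h2 : ∀ e ∈ E i, {W : ValuationSubring F | e ∈ W} ∈ 𝒰 := fun e he => hi e he
    have h3 : ⋂ e ∈ E i, {W : ValuationSubring F | e ∈ W} ∈ (𝒰 : Filter (ValuationSubring F)) :=
      (Filter.biInter_finset_mem (E i)).mpr h2
    filter_upwards [h3] with W hW e he
    exact Set.mem_iInter₂.mp hW e he
  have h2 := Filter.inter_mem h1 (hSU i)
  obtain ⟨W, hW1, e, he, hW2⟩ := Ultrafilter.nonempty_of_mem h2
  exact hW2 (hW1 e he)

end Qc

section Cn

variable {F : Type} [Field F] [DecidableEq F] {s c : Finset F} {W₀ : ValuationSubring F} {N : ℕ}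

theorem Cn.erase (hs : ∀ g ∈ s, g ≠ 0) (h : Cn s W₀ c N) : Cn s W₀ (c.erase 0) N := by
  intro W g hg hmax
  obtain ⟨h1, h2⟩ := h W g hg hmax
  refine ⟨fun hne => ?_, fun heq => ?_⟩
  · obtain ⟨h3, h4, a, ha, h5, h6⟩ := h1 hne
    exact ⟨h3, fun a' ha' => h4 a' (Finset.mem_of_mem_erase ha'), a, Finset.mem_erase.mpr ⟨h6, ha⟩,
      h5, h6⟩
  · obtain ⟨h3, h4⟩ := h2 heq
    refine ⟨fun a ha => h3 a (Finset.mem_of_mem_erase ha), fun b hb hv => ?_⟩
    refine (gs_le fun r hr e he => ?_) (h4 b hb hv)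
    obtain ⟨a, ha, rfl⟩ := Finset.mem_image.mp he
    by_cases ha0 : a = 0
    · rw [ha0, zero_div, mul_zero]
      exact AddSubgroup.zero_mem _
    · exact mem_gs hr (Finset.mem_image.mpr ⟨a, Finset.mem_erase.mpr ⟨ha0, ha⟩, rfl⟩)

end Cn

section Descent

variable {p : ℕ} [hp : Fact p.Prime] {F : Type} [Field F] [CharP F p] [DecidableEq F] {s : Finset F}
  {A : Type} [DecidableEq A] {t : A → ValuationSubring F → F} {ε f : F} {G : Finset F}
  {P : Finset (F × F)} {W W₀ W₁ : ValuationSubring F} {c : Finset F} {N : ℕ}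

namespace Chart

theorem Pd.mono {C : Chart p s t ε f G P} {n n' : ℕ} (h : C.Pd W n) (hn : n ≤ n') : C.Pd W n' :=
  ⟨h.pt, h.m, h.le.trans hn⟩

/-- The charts at the centre. -/
theorem at_centre (C : Chart p s t ε f G P) (hε : ε = 0 ∨ ε = 1) (hs : ∀ g ∈ s, g ≠ 0)
    (hcn : Cn s W₀ c N) {n : ℕ} (h : C.Pd W₀ n) (hng : ¬ C.Good) (hW : Lc s W = Lc s W₀) :
    ∃ (C' : Chart p (s * c) (tb t s W₀ C.x C.y C.cx C.cy) ε f G P) (W' : ValuationSubring F)
      (n' : ℕ), C.B ≤ C'.B ∧ n' < n ∧ Vle W C'.B ∧ C'.Pd W' n' := by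
  have hx0 := C.ec.x0
  have hy0 := C.ec.y0
  have hyx : 0 < W.valuation (C.y / C.x) := by
    rw [Valuation.pos_iff]; exact div_ne_zero hy0 hx0
  by_cases h1 : W.valuation (C.y / C.x) ≤ 1 ∧
      (C.cx.isSome = false → C.cy.isSome = true → W.valuation (C.y / C.x) < 1)
  · exact C.step hε hs hcn h hng hW h1.1 h1.2 (fun W₁ hsc hW₁ => (h.eW_un hs hcn hsc hW₁).1)
      fun b => Iff.rfl
  · have hng' : ¬ C.swap.Good := by
      intro h2
      exact hng (by rw [Good, L_swap] at h2; exact h2)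
    have h2 : W.valuation (C.swap.y / C.swap.x) ≤ 1 ∧ (C.swap.cx.isSome = false →
        C.swap.cy.isSome = true → W.valuation (C.swap.y / C.swap.x) < 1) := by
      have h3 : C.swap.y / C.swap.x = (C.y / C.x)⁻¹ := (inv_div _ _).symm
      rw [h3, map_inv₀]
      by_cases h4 : W.valuation (C.y / C.x) ≤ 1
      · have h5 : ¬ (C.cx.isSome = false → C.cy.isSome = true → W.valuation (C.y / C.x) < 1) :=
          fun h6 => h1 ⟨h4, h6⟩
        push Not at h5
        obtain ⟨h6, h7, h8⟩ := h5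
        refine ⟨inv_le_one_of_one_le₀ h8, fun h9 => ?_⟩
        have h10 : C.cy.isSome = false := h9
        rw [h7] at h10
        cases h10
      · rw [not_le] at h4
        exact ⟨inv_le_one_of_one_le₀ h4.le, fun _ _ => inv_lt_one_of_one_lt₀ h4⟩
    exact C.swap.step hε hs hcn h.swap hng' hW h2.1 h2.2
      (fun W₁ hsc hW₁ => (h.swap.eW_un hs hcn hsc hW₁).2) fun b => or_comm

/-- The charts away from the points of the pointed charts. -/
theorem exists_good_of (C : Chart p s t ε f G P) (hs : ∀ g ∈ s, g ≠ 0) {n : ℕ} (h : C.Pd W₁ n)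
    (hW : Vle W C.B) (hxy : ¬ (W.valuation C.x < 1 ∧ W.valuation C.y < 1)) :
    ∃ C' : Chart p s t ε f G P, C.B ≤ C'.B ∧ Vle W C'.B ∧ C'.Good := by
  obtain ⟨m, hm1, hm2⟩ := h.m
  have hne : ∃ g ∈ s, g ≠ 0 := ⟨C.g, C.hg, hs _ C.hg⟩
  by_cases h1 : W.valuation C.x < 1
  · have h2 : W.valuation C.y = 1 :=
      le_antisymm (hW _ C.ec.hy) (not_lt.mp fun h3 => hxy ⟨h1, h3⟩)
    exact ⟨C.shrink (C.B.pow_mem C.ec.hy m) (pow_ne_zero _ C.ec.y0) hne, le_adj,
      (C.vle_shrink _ _ _).mpr ⟨hW, by rw [map_pow, h2, one_pow]⟩, C.good_of_mem _ _ _ hm2⟩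
  · have h2 : W.valuation C.x = 1 := le_antisymm (hW _ C.ec.hx) (not_lt.mp h1)
    exact ⟨C.shrink (C.B.pow_mem C.ec.hx m) (pow_ne_zero _ C.ec.x0) hne, le_adj,
      (C.vle_shrink _ _ _).mpr ⟨hW, by rw [map_pow, h2, one_pow]⟩, C.good_of_mem _ _ _ hm1⟩

end Chart

/-- The state of the descent. -/
def Hn (p : ℕ) {F : Type} [Field F] (s : Finset F) {A : Type} [DecidableEq A]
    (t : A → ValuationSubring F → F) (ε f : F) (G : Finset F) (P : Finset (F × F)) (n m : ℕ) : Prop :=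
  ∃ l : List (Chart p s t ε f G P), l.length ≤ m ∧ (∀ C ∈ l, ∃ W₀, C.Pd W₀ n) ∧
    ∀ W, ∃ C : Chart p s t ε f G P, Vle W C.B ∧
      (C.Good ∨ (∃ W₀ n', n' < n ∧ C.Pd W₀ n') ∨ C ∈ l)

/-- The list of the blowing up. -/
theorem exists_list (hs : ∀ g ∈ s, g ≠ 0) (hcn : Cn s W₀ c N) {x₀ y₀ : F} {cx₀ cy₀ : Option A}
    {n : ℕ} (l : List (Chart p s t ε f G P)) (hl : ∀ C ∈ l, ∃ W₁, C.Pd W₁ n) :
    ∃ l' : List (Chart p (s * c) (tb t s W₀ x₀ y₀ cx₀ cy₀) ε f G P), l'.length ≤ l.length ∧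
      (∀ C ∈ l', ∃ W₁, C.Pd W₁ n) ∧ ∀ C ∈ l, ∀ W, Vle W C.B → W.valuation C.x < 1 →
        W.valuation C.y < 1 → Lc s W ≠ Lc s W₀ → ∃ C' ∈ l', Vle W C'.B := by
  induction l with
  | nil => exact ⟨[], le_rfl, fun C hC => absurd hC List.not_mem_nil,
      fun C hC => absurd hC List.not_mem_nil⟩
  | cons C l ih =>
    obtain ⟨l', h1, h2, h3⟩ := ih fun C' hC' => hl C' (List.mem_cons_of_mem _ hC')
    obtain ⟨W₁, hPd⟩ := hl C List.mem_cons_self
    by_cases hne : Lc s W₁ = Lc s W₀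
    · refine ⟨l', h1.trans (by simp), h2, fun C' hC' W hW hx hy hWne => ?_⟩
      rcases List.mem_cons.mp hC' with rfl | hC'
      · exact absurd ((hPd.centred hs hW hx hy).trans hne) hWne
      · exact h3 C' hC' W hW hx hy hWne
    · obtain ⟨C₁, -, h4, -, d, hd, hd1, -, -, h5, h6⟩ := C.exists_rc (x₀ := x₀) (y₀ := y₀)
        (cx₀ := cx₀) (cy₀ := cy₀) hs hcn hPd.pt.le hne
      refine ⟨C₁ :: l', by simpa using h1, fun C' hC' => ?_, fun C' hC' W hW hx hy hWne => ?_⟩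
      · rcases List.mem_cons.mp hC' with rfl | hC'
        · exact ⟨W₁, h6 W₁ n hd1 hPd⟩
        · exact h2 C' hC'
      · rcases List.mem_cons.mp hC' with rfl | hC'
        · exact ⟨C₁, List.mem_cons_self, h5 W hW ((hPd.pt.one_iff hW hx hy hd).mpr hd1)⟩
        · obtain ⟨C₂, h7, h8⟩ := h3 C' hC' W hW hx hy hWne
          exact ⟨C₂, List.mem_cons_of_mem _ h7, h8⟩

/-- The blowing up of one point. -/
theorem Hn.blow (hε : ε = 0 ∨ ε = 1) (hs : ∀ g ∈ s, g ≠ 0) {n m : ℕ} (C₀ : Chart p s t ε f G P)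
    (l : List (Chart p s t ε f G P)) (hl : l.length ≤ m) (hC₀ : C₀.Pd W₀ n) (hng : ¬ C₀.Good)
    (hlP : ∀ C ∈ l, ∃ W₀, C.Pd W₀ n)
    (hcov : ∀ W, ∃ C : Chart p s t ε f G P, Vle W C.B ∧
      (C.Good ∨ (∃ W₀ n', n' < n ∧ C.Pd W₀ n') ∨ C ∈ C₀ :: l)) :
    ∃ c : Finset F, (∀ g ∈ c, g ≠ 0) ∧
      Hn p (s * c) (tb t s W₀ C₀.x C₀.y C₀.cx C₀.cy) ε f G P n m := by
  have hclo : Clo p W₀ (Lc s W₀) := by
    rw [C₀.Lc_eq hs hC₀.pt.le]
    exact hC₀.pt.clo.vl hC₀.pt.le
  obtain ⟨c', N, hcn'⟩ := exists_cen hs hclo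
  have hcn : Cn s W₀ (c'.erase 0) N := Cn.erase hs hcn'
  refine ⟨c'.erase 0, fun g hg => Finset.ne_of_mem_erase hg, ?_⟩
  obtain ⟨l', h1, h2, h3⟩ := exists_list (x₀ := C₀.x) (y₀ := C₀.y) (cx₀ := C₀.cx) (cy₀ := C₀.cy)
    hs hcn l hlP
  refine ⟨l', h1.trans hl, h2, fun W => ?_⟩
  by_cases hW : Lc s W = Lc s W₀
  · obtain ⟨C', W', n', -, h4, h5, h6⟩ := C₀.at_centre hε hs hcn hC₀ hng hW
    exact ⟨C', h5, Or.inr (Or.inl ⟨W', n', h4, h6⟩)⟩
  -- away from the centre
  have hgood : ∀ C : Chart p s t ε f G P, Vle W C.B → C.Good →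
      ∃ C' : Chart p (s * c'.erase 0) (tb t s W₀ C₀.x C₀.y C₀.cx C₀.cy) ε f G P, Vle W C'.B ∧
        (C'.Good ∨ (∃ W₀ n', n' < n ∧ C'.Pd W₀ n') ∨ C' ∈ l') := by
    intro C hCW hC
    obtain ⟨C', -, h4, h5, -⟩ := C.exists_rc (x₀ := C₀.x) (y₀ := C₀.y) (cx₀ := C₀.cx)
      (cy₀ := C₀.cy) hs hcn hCW hW
    exact ⟨C', h4, Or.inl (h5 hC)⟩
  obtain ⟨C, hCW, hC⟩ := hcov W
  rcases hC with hC | ⟨W₁, n', hn', hC⟩ | hC
  · exact hgood C hCW hC
  · by_cases hxy : W.valuation C.x < 1 ∧ W.valuation C.y < 1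
    · obtain ⟨C', -, h4, -, d, hd, hd1, -, -, -, h6⟩ := C.exists_rc (x₀ := C₀.x) (y₀ := C₀.y)
        (cx₀ := C₀.cx) (cy₀ := C₀.cy) hs hcn hCW hW
      exact ⟨C', h4, Or.inr (Or.inl ⟨W₁, n', hn', h6 W₁ n'
        ((hC.pt.one_iff hCW hxy.1 hxy.2 hd).mp hd1) hC⟩)⟩
    · obtain ⟨C', -, h4, h5⟩ := C.exists_good_of hs hC hCW hxy
      exact hgood C' h4 h5
  · obtain ⟨W₁, hPd⟩ : ∃ W₁, C.Pd W₁ n := by
      rcases List.mem_cons.mp hC with rfl | hC
      · exact ⟨W₀, hC₀⟩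
      · exact hlP C hC
    by_cases hxy : W.valuation C.x < 1 ∧ W.valuation C.y < 1
    · rcases List.mem_cons.mp hC with rfl | hC
      · exact absurd (hC₀.centred hs hCW hxy.1 hxy.2) hW
      · obtain ⟨C', h4, h5⟩ := h3 C hC W hCW hxy.1 hxy.2 hW
        exact ⟨C', h5, Or.inr (Or.inr h4)⟩
    · obtain ⟨C', -, h4, h5⟩ := C.exists_good_of hs hPd hCW hxy
      exact hgood C' h4 h5

/-- Reduction of the bound. -/
theorem Hn.compact {n : ℕ} (h : Hn p s t ε f G P (n + 1) 0) : ∃ m, Hn p s t ε f G P n m := by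
  classical
  obtain ⟨l, hl, -, hcov⟩ := h
  have hl0 : l = [] := List.length_eq_zero_iff.mp (Nat.le_zero.mp hl)
  subst hl0
  have hfg : ∀ C : Chart p s t ε f G P, ∃ E : Finset F, C.B = Subring.closure E := fun C => C.fg
  choose E hE using hfg
  set ι := {C : Chart p s t ε f G P // C.Good ∨ ∃ W₀ n', n' < n + 1 ∧ C.Pd W₀ n'} with hι
  obtain ⟨T, hT⟩ := qc (fun i : ι => E i.1) (fun W => by
    obtain ⟨C, h1, h2⟩ := hcov W
    have h3 : C.Good ∨ ∃ W₀ n', n' < n + 1 ∧ C.Pd W₀ n' := by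
      rcases h2 with h2 | h2 | h2
      · exact Or.inl h2
      · exact Or.inr h2
      · exact absurd h2 List.not_mem_nil
    refine ⟨⟨C, h3⟩, fun e he => (W.valuation_le_one_iff e).mp (h1 e ?_)⟩
    rw [hE C]
    exact Subring.subset_closure he)
  refine ⟨_, (T.filter fun i => ¬ i.1.Good).toList.map Subtype.val, le_rfl, fun C hC => ?_,
    fun W => ?_⟩
  · rw [List.mem_map] at hC
    obtain ⟨i, hi, rfl⟩ := hC
    rw [Finset.mem_toList, Finset.mem_filter] at hi
    obtain ⟨W₀, n', h1, h2⟩ := i.2.resolve_left hi.2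
    exact ⟨W₀, h2.mono (by omega)⟩
  · obtain ⟨i, hi, hW⟩ := hT W
    refine ⟨i.1, ?_, ?_⟩
    · rw [hE i.1]
      exact vle_closure.mpr fun e he => (W.valuation_le_one_iff e).mpr (hW e he)
    · by_cases hg : i.1.Good
      · exact Or.inl hg
      · right; right
        rw [List.mem_map]
        exact ⟨i, by rw [Finset.mem_toList, Finset.mem_filter]; exact ⟨hi, hg⟩, rfl⟩

/-- The poles of `d` are bounded by the colours. -/
def Dv {F : Type} [Field F] {A : Type} (s : Finset F) (t : A → ValuationSubring F → F) (d : F) :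
    Prop :=
  ∃ l : List A, ∀ W, d * (l.map fun a => t a W).prod ∈ Lc s W

theorem Dv.tb (hsc : ∃ g ∈ s * c, g ≠ 0) {x₀ y₀ : F} (hx0 : x₀ ≠ 0) (hy0 : y₀ ≠ 0)
    {cx₀ cy₀ : Option A} {d : F} (h : Dv s t d) : Dv (s * c) (tb t s W₀ x₀ y₀ cx₀ cy₀) d := by
  classical
  obtain ⟨l, hl⟩ := h
  refine ⟨l.flatMap fun a => if cx₀ = some a ∨ cy₀ = some a then [some a, none] else [some a],
    fun W => ?_⟩
  have h1 : ((l.flatMap fun a => if cx₀ = some a ∨ cy₀ = some a then [some a, none]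
      else [some a]).map fun a => S.tb t s W₀ x₀ y₀ cx₀ cy₀ a W).prod =
      (l.map fun a => t a W).prod := by
    have he : eW s W₀ x₀ y₀ W ≠ 0 := by
      rw [eW]
      split_ifs
      · exact hx0
      · exact hy0
      · exact one_ne_zero
    clear hl
    induction l with
    | nil => rfl
    | cons a l ih =>
      rw [List.flatMap_cons, List.map_append, List.prod_append, ih, List.map_cons, List.prod_cons]
      congr 1
      by_cases h2 : cx₀ = some a ∨ cy₀ = some a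
      · rw [if_pos h2, List.map_cons, List.map_cons, List.map_nil, List.prod_cons, List.prod_cons,
          List.prod_nil, tb_pos h2, tb_none, mul_one, div_mul_cancel₀ _ he]
      · rw [if_neg h2, List.map_cons, List.map_nil, List.prod_cons, List.prod_nil, tb_neg h2,
          mul_one]
  rw [h1]
  exact Lc_mul_le hsc W (hl W)

/-- **The descent.** -/
theorem descent (hε : ε = 0 ∨ ε = 1) (n : ℕ) : ∀ (m : ℕ) (s : Finset F) (A : Type)
    (_ : DecidableEq A) (_ : Finite A) (t : A → ValuationSubring F → F), (∀ g ∈ s, g ≠ 0) →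
    Hn p s t ε f G P n m → ∃ (c : Finset F) (A' : Type) (_ : DecidableEq A') (_ : Finite A')
      (t' : A' → ValuationSubring F → F), (∀ g ∈ c, g ≠ 0) ∧ (∀ d, Dv s t d → Dv (s * c) t' d) ∧
      ∀ W, ∃ C : Chart p (s * c) t' ε f G P, Vle W C.B ∧ C.Good := by
  induction n with
  | zero =>
    intro m s A _ hA t hs h
    obtain ⟨l, hl, hlP, hcov⟩ := h
    have hs1 : s * {1} = s := by
      rw [Finset.mul_singleton]
      simp
    refine ⟨{1}, A, inferInstance, hA, t, fun g hg => ?_, fun d hd => by rwa [hs1], fun W => ?_⟩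
    · rw [Finset.mem_singleton.mp hg]; exact one_ne_zero
    · rw [hs1]
      obtain ⟨C, h1, h2⟩ := hcov W
      refine ⟨C, h1, ?_⟩
      rcases h2 with h2 | ⟨W₀, n', h3, -⟩ | h2
      · exact h2
      · omega
      · obtain ⟨W₀, h3⟩ := hlP C h2
        exfalso
        have h4 := h3.le
        have h5 := h3.idx_ne
        rw [Chart.Φ] at h4
        omega
  | succ n ihn =>
    intro m
    induction m with
    | zero =>
      intro s A _ hA t hs h
      obtain ⟨m, hm⟩ := h.compact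
      exact ihn m s A _ hA t hs hm
    | succ m ihm =>
      intro s A _ hA t hs h
      obtain ⟨l, hl, hlP, hcov⟩ := h
      cases l with
      | nil => exact ihm s A _ hA t hs ⟨[], Nat.zero_le _, hlP, hcov⟩
      | cons C₀ l =>
        have hl' : l.length ≤ m := by simpa using hl
        have hlP' : ∀ C ∈ l, ∃ W₀, C.Pd W₀ (n + 1) := fun C hC => hlP C (List.mem_cons_of_mem _ hC)
        by_cases hg : C₀.Good
        · refine ihm s A _ hA t hs ⟨l, hl', hlP', fun W => ?_⟩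
          obtain ⟨C, h1, h2⟩ := hcov W
          refine ⟨C, h1, ?_⟩
          rcases h2 with h2 | h2 | h2
          · exact Or.inl h2
          · exact Or.inr (Or.inl h2)
          · rcases List.mem_cons.mp h2 with rfl | h2
            · exact Or.inl hg
            · exact Or.inr (Or.inr h2)
        · obtain ⟨W₀, hC₀⟩ := hlP C₀ List.mem_cons_self
          obtain ⟨c, hc0, hc⟩ := Hn.blow hε hs C₀ l hl' hC₀ hg hlP' hcov
          have hs' : ∀ g ∈ s * c, g ≠ 0 := by
            intro g hg'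
            obtain ⟨a, ha, b, hb, rfl⟩ := Finset.mem_mul.mp hg'
            exact mul_ne_zero (hs a ha) (hc0 b hb)
          have hsc : ∃ g ∈ s * c, g ≠ 0 := by
            obtain ⟨_, -, -, h3⟩ := hc
            obtain ⟨C, -, -⟩ := h3 ⊤
            exact ⟨C.g, C.hg, hs' _ C.hg⟩
          obtain ⟨c', A', i1, i2, t', h1, h3, h2⟩ := ihm (s * c) (Option A) inferInstance
            inferInstance _ hs' hc
          refine ⟨c * c', A', i1, i2, t', fun g hg' => ?_, fun d hd => ?_, ?_⟩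
          · obtain ⟨a, ha, b, hb, rfl⟩ := Finset.mem_mul.mp hg'
            exact mul_ne_zero (hc0 a ha) (h1 b hb)
          · rw [← mul_assoc]
            exact h3 d (hd.tb hsc C₀.ec.x0 C₀.ec.y0)
          · rw [← mul_assoc]
            exact h2

end Descent

end Pool.Agent.H96.S
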