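import Mathlib

/-!
# Etale charts of surfaces in characteristic `p`
-/

set_option autoImplicit false
set_option linter.unusedSectionVars false

namespace Pool.Agent.H96.S

/-- An etale chart: the subring `B` of the field `F` with the coordinates `x` and `y`, which form a
`p`-basis of `B`, and the dual derivations. -/
structure EC (p : ℕ) {F : Type} [Field F] (B : Subring F) (x y : F)
    (Dx Dy : Derivation ℤ F F) : Prop where
  hx : x ∈ B
  hy : y ∈ B
  xx : Dx x = 1
  xy : Dx y = 0
  yx : Dy x = 0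
  yy : Dy y = 1
  dx : ∀ b ∈ B, Dx b ∈ B
  dy : ∀ b ∈ B, Dy b ∈ B
  pb : ∀ b ∈ B, b ∈ Subring.closure ({c | ∃ a ∈ B, c = a ^ p} ∪ {x, y})
  frac : ∀ w : F, ∃ a ∈ B, ∃ b ∈ B, b ≠ 0 ∧ w = a / b

section Der

variable {p : ℕ} [hp : Fact p.Prime] {F : Type} [Field F] [CharP F p]

theorem der_pow (D : Derivation ℤ F F) (a : F) : D (a ^ p) = 0 := by
  rw [Derivation.leibniz_pow, ← Nat.cast_smul_eq_nsmul F, CharP.cast_eq_zero, zero_smul]

theorem der_pow_mul (D : Derivation ℤ F F) (a b : F) : D (a ^ p * b) = a ^ p * D b := by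
  rw [Derivation.leibniz, der_pow, smul_zero, add_zero, smul_eq_mul]

theorem der_div_mul (D : Derivation ℤ F F) {a b : F} (hb : b ≠ 0) :
    D (a / b) = (D a - a / b * D b) / b := by
  have h1 : D (a / b * b) = D a := by rw [div_mul_cancel₀ _ hb]
  rw [Derivation.leibniz, smul_eq_mul, smul_eq_mul] at h1
  rw [eq_div_iff hb, ← h1]
  ring

/-- The Leibniz formula. -/
theorem leibniz_iter (D : Derivation ℤ F F) (n : ℕ) (a b : F) :
    (D : F →ₗ[ℤ] F)^[n] (a * b) = ∑ ij ∈ Finset.HasAntidiagonal.antidiagonal n,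
      n.choose ij.1 • ((D : F →ₗ[ℤ] F)^[ij.1] a * (D : F →ₗ[ℤ] F)^[ij.2] b) := by
  induction n with
  | zero => simp
  | succ n ih =>
    rw [Function.iterate_succ_apply', ih, map_sum]
    have h1 : ∀ ij : ℕ × ℕ, (D : F →ₗ[ℤ] F) (n.choose ij.1 •
        ((D : F →ₗ[ℤ] F)^[ij.1] a * (D : F →ₗ[ℤ] F)^[ij.2] b)) =
        n.choose ij.1 • ((D : F →ₗ[ℤ] F)^[ij.1] a * (D : F →ₗ[ℤ] F)^[ij.2 + 1] b) +
        n.choose ij.1 • ((D : F →ₗ[ℤ] F)^[ij.1 + 1] a * (D : F →ₗ[ℤ] F)^[ij.2] b) := by
      intro ij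
      rw [map_nsmul, ← nsmul_add, Function.iterate_succ_apply', Function.iterate_succ_apply']
      congr 1
      show D _ = _
      rw [Derivation.leibniz, smul_eq_mul, smul_eq_mul]
      show _ = _ * D _ + D _ * _
      ring
    rw [Finset.sum_congr rfl fun ij _ => h1 ij, Finset.sum_add_distrib,
      Finset.sum_antidiagonal_choose_succ_nsmul
        (fun i j => (D : F →ₗ[ℤ] F)^[i] a * (D : F →ₗ[ℤ] F)^[j] b) n]
    congr 1
    refine Finset.sum_congr rfl fun ij hij => ?_
    rw [Finset.HasAntidiagonal.mem_antidiagonal] at hij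
    rw [← hij, Nat.choose_symm_add]

/-- The `p`-th iterate of a derivation is a derivation. -/
theorem leibniz_p (D : Derivation ℤ F F) (a b : F) :
    (D : F →ₗ[ℤ] F)^[p] (a * b) = a * (D : F →ₗ[ℤ] F)^[p] b + b * (D : F →ₗ[ℤ] F)^[p] a := by
  rw [leibniz_iter]
  have hp' : p ≠ 0 := hp.out.ne_zero
  have hne : ((0, p) : ℕ × ℕ) ≠ (p, 0) := by
    intro h
    exact hp' (congrArg Prod.fst h).symm
  have hs : ({(0, p), (p, 0)} : Finset (ℕ × ℕ)) ⊆ Finset.HasAntidiagonal.antidiagonal p := by
    intro ij hij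
    rw [Finset.mem_insert, Finset.mem_singleton] at hij
    rcases hij with rfl | rfl
    · rw [Finset.HasAntidiagonal.mem_antidiagonal, zero_add]
    · rw [Finset.HasAntidiagonal.mem_antidiagonal, add_zero]
  rw [← Finset.sum_subset hs, Finset.sum_pair hne]
  · rw [Nat.choose_zero_right, Nat.choose_self, one_smul, one_smul]
    show a * _ + _ * b = _
    ring
  · rintro ⟨i, j⟩ hij hn
    rw [Finset.HasAntidiagonal.mem_antidiagonal] at hij
    have hij : i + j = p := hij
    have hi : i ≠ 0 := by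
      rintro rfl
      apply hn
      rw [zero_add] at hij
      rw [hij]
      exact Finset.mem_insert_self _ _
    have hj : i < p := by
      rcases Nat.lt_or_ge i p with h | h
      · exact h
      · exfalso
        have h1 : i = p := by omega
        have h2 : j = 0 := by omega
        apply hn
        rw [h1, h2]
        exact Finset.mem_insert_of_mem (Finset.mem_singleton_self _)
    obtain ⟨c, hc⟩ := hp.out.dvd_choose_self hi hj
    show p.choose i • _ = _
    rw [hc, mul_comm, mul_smul, ← Nat.cast_smul_eq_nsmul F p, CharP.cast_eq_zero, zero_smul,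
      smul_zero]

/-- The `p`-th iterate as a derivation. -/
def frobD (p : ℕ) [Fact p.Prime] {F : Type} [Field F] [CharP F p] (D : Derivation ℤ F F) :
    Derivation ℤ F F where
  toLinearMap := (D : F →ₗ[ℤ] F) ^ p
  map_one_eq_zero' := by
    show ((D : F →ₗ[ℤ] F) ^ p) 1 = 0
    obtain ⟨q, hq⟩ : ∃ q, p = q + 1 := ⟨p - 1, by have := (Fact.out : p.Prime).pos; omega⟩
    rw [hq, pow_succ]
    show ((D : F →ₗ[ℤ] F) ^ q) (D 1) = 0
    rw [Derivation.map_one_eq_zero, map_zero]
  leibniz' := by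
    intro a b
    show ((D : F →ₗ[ℤ] F) ^ p) (a * b) = a • ((D : F →ₗ[ℤ] F) ^ p) b + b • ((D : F →ₗ[ℤ] F) ^ p) a
    rw [Module.End.pow_apply, Module.End.pow_apply, Module.End.pow_apply, leibniz_p]
    rfl

theorem frobD_apply (D : Derivation ℤ F F) (a : F) : frobD p D a = (D : F →ₗ[ℤ] F)^[p] a := by
  show ((D : F →ₗ[ℤ] F) ^ p) a = _
  rw [Module.End.pow_apply]

end Der

namespace EC

variable {p : ℕ} [hp : Fact p.Prime] {F : Type} [Field F] [CharP F p] {B : Subring F} {x y : F}
  {Dx Dy : Derivation ℤ F F} (h : EC p B x y Dx Dy)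

include h

theorem x0 : x ≠ 0 := by
  rintro rfl
  have := h.xx
  rw [map_zero] at this
  exact zero_ne_one this

theorem y0 : y ≠ 0 := by
  rintro rfl
  have := h.yy
  rw [map_zero] at this
  exact zero_ne_one this

theorem swap : EC p B y x Dy Dx where
  hx := h.hy
  hy := h.hx
  xx := h.yy
  xy := h.yx
  yx := h.xy
  yy := h.xx
  dx := h.dy
  dy := h.dx
  pb := by
    intro b hb
    rw [Set.pair_comm]
    exact h.pb b hb
  frac := h.frac

/-- Two derivations which agree on the coordinates agree. -/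
theorem ext_der {E E' : Derivation ℤ F F} (hx : E x = E' x) (hy : E y = E' y) (w : F) :
    E w = E' w := by
  have h1 : ∀ b ∈ Subring.closure ({c | ∃ a ∈ B, c = a ^ p} ∪ {x, y}), E b = E' b := by
    intro b hb
    induction hb using Subring.closure_induction with
    | mem c hc =>
      rcases hc with ⟨a, -, rfl⟩ | hc
      · rw [der_pow, der_pow]
      · rcases hc with rfl | hc
        · exact hx
        · rw [Set.mem_singleton_iff.mp hc]
          exact hy
    | zero => rw [map_zero, map_zero]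
    | one => rw [Derivation.map_one_eq_zero, Derivation.map_one_eq_zero]
    | add a b _ _ ha hb => rw [map_add, map_add, ha, hb]
    | neg a _ ha => rw [map_neg, map_neg, ha]
    | mul a b _ _ ha hb => rw [Derivation.leibniz, Derivation.leibniz, ha, hb]
  obtain ⟨a, ha, b, hb, hb0, rfl⟩ := h.frac w
  rw [der_div_mul _ hb0, der_div_mul _ hb0, h1 a (h.pb a ha), h1 b (h.pb b hb)]

/-- The derivations form a basis. -/
theorem der (E : Derivation ℤ F F) (w : F) : E w = E x * Dx w + E y * Dy w := by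
  have h1 := h.ext_der (E := E) (E' := E x • Dx + E y • Dy) (by
    show E x = E x * Dx x + E y * Dy x
    rw [h.xx, h.yx]; ring) (by
    show E y = E x * Dx y + E y * Dy y
    rw [h.xy, h.yy]; ring) w
  rw [h1]
  rfl

/-- The derivations commute. -/
theorem comm (w : F) : Dx (Dy w) = Dy (Dx w) := by
  have h1 := h.ext_der (E := ⁅Dx, Dy⁆) (E' := 0) (by
    rw [Derivation.commutator_apply, h.xx, h.yx, map_zero, Derivation.map_one_eq_zero, sub_zero]
    rfl) (by
    rw [Derivation.commutator_apply, h.xy, h.yy, map_zero, Derivation.map_one_eq_zero, sub_zero]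
    rfl) w
  rw [Derivation.commutator_apply] at h1
  exact sub_eq_zero.mp h1

/-- The derivations are nilpotent. -/
theorem iter_p {D : Derivation ℤ F F} (hx : D (D x) = 0) (hy : D (D y) = 0) (w : F) :
    (D : F →ₗ[ℤ] F)^[p] w = 0 := by
  obtain ⟨q, hq⟩ : ∃ q, p = q + 2 := ⟨p - 2, by have := hp.out.two_le; omega⟩
  have h0 : ∀ v : F, D (D v) = 0 → (D : F →ₗ[ℤ] F)^[p] v = 0 := by
    intro v hv
    rw [hq, Function.iterate_add_apply]
    have h1 : (D : F →ₗ[ℤ] F)^[2] v = 0 := hv
    rw [h1]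
    have h2 : ∀ n, (D : F →ₗ[ℤ] F)^[n] 0 = 0 := by
      intro n
      induction n with
      | zero => rfl
      | succ n ih => rw [Function.iterate_succ_apply', ih, map_zero]
    exact h2 q
  have h1 := h.ext_der (E := frobD p D) (E' := 0) (by
    rw [frobD_apply, h0 x hx]; rfl) (by rw [frobD_apply, h0 y hy]; rfl) w
  rw [frobD_apply] at h1
  exact h1

end EC

end Pool.Agent.H96.S
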