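import Pool.Agent.H96.S.EC

/-!
# Etale charts: projections, gauges
-/

set_option autoImplicit false
set_option linter.unusedSectionVars false

namespace Pool.Agent.H96.S

section Th

variable {p : ℕ} [hp : Fact p.Prime] {F : Type} [Field F] [CharP F p]

/-- The operator `x D`. -/
def th (x : F) (D : Derivation ℤ F F) : Module.End ℤ F := ((x • D : Derivation ℤ F F) : F →ₗ[ℤ] F)

theorem th_apply (x : F) (D : Derivation ℤ F F) (w : F) : th x D w = x * D w := rfl

theorem th_const_mul (x : F) (D : Derivation ℤ F F) {c : F} (hc : D c = 0) (w : F) :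
    th x D (c * w) = c * th x D w := by
  rw [th_apply, th_apply, Derivation.leibniz, hc, smul_zero, add_zero, smul_eq_mul]
  ring

theorem th_pow_eigen (x : F) (D : Derivation ℤ F F) {m : F} {i : ℕ}
    (hm : th x D m = (i : F) * m) (n : ℕ) : (th x D ^ n) m = (i : F) ^ n * m := by
  induction n with
  | zero => rw [pow_zero, pow_zero, one_mul]; rfl
  | succ n ih =>
    have h1 : D ((i : F) ^ n) = 0 := by
      rw [← Nat.cast_pow]
      exact D.map_natCast _
    rw [pow_succ', Module.End.mul_apply, ih, th_const_mul x D h1, hm, pow_succ]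
    ring

theorem cast_pow_sub_one (i : ℕ) (hi : ¬ p ∣ i) : (i : F) ^ (p - 1) = 1 := by
  have h1 : i ^ (p - 1) ≡ 1 [MOD p] := by
    have := Nat.ModEq.pow_totient ((hp.out.coprime_iff_not_dvd.mpr hi).symm)
    rwa [Nat.totient_prime hp.out] at this
  rw [← Nat.cast_pow, ← Nat.cast_one (R := F)]
  exact (CharP.natCast_eq_natCast F p).mpr h1

theorem cast_pow_sub_one' (i : ℕ) (hi : p ∣ i) : (i : F) ^ (p - 1) = 0 := by
  rw [(CharP.cast_eq_zero_iff F p i).mpr hi, zero_pow]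
  have := hp.out.two_le
  omega

theorem th_mon (x : F) (D : Derivation ℤ F F) (hx : D x = 1) {a c : F} (hc : D c = 0) (i : ℕ) :
    th x D (a ^ p * (x ^ i * c)) = (i : F) * (a ^ p * (x ^ i * c)) := by
  rw [th_apply, der_pow_mul, Derivation.leibniz, hc, smul_zero, zero_add, Derivation.leibniz_pow, hx]
  cases i with
  | zero => simp
  | succ i =>
    rw [smul_eq_mul, nsmul_eq_mul, smul_eq_mul, mul_one, Nat.add_sub_cancel]
    ring

end Th

/-- The projection. -/
def pr (p : ℕ) {F : Type} [Field F] (x y : F) (Dx Dy : Derivation ℤ F F) : Module.End ℤ F :=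
  (1 - th x Dx ^ (p - 1)) * (1 - th y Dy ^ (p - 1))

namespace EC

variable {p : ℕ} [hp : Fact p.Prime] {F : Type} [Field F] [CharP F p] {B : Subring F} {x y : F}
  {Dx Dy : Derivation ℤ F F} (h : EC p B x y Dx Dy)

include h

theorem mon_closure {b : F} (hb : b ∈ Subring.closure ({c | ∃ a ∈ B, c = a ^ p} ∪ {x, y})) :
    b ∈ AddSubgroup.closure {m | ∃ a ∈ B, ∃ i j : ℕ, m = a ^ p * (x ^ i * y ^ j)} := by
  rw [Subring.mem_closure_iff] at hb
  refine AddSubgroup.closure_mono ?_ hb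
  intro m hm
  have hm' : m ∈ Submonoid.closure ({c | ∃ a ∈ B, c = a ^ p} ∪ {x, y}) := hm
  clear hm hb
  induction hm' using Submonoid.closure_induction with
  | mem c hc =>
    rcases hc with ⟨a, ha, rfl⟩ | hc
    · exact ⟨a, ha, 0, 0, by simp⟩
    · rcases hc with rfl | hc
      · exact ⟨1, B.one_mem, 1, 0, by simp⟩
      · rw [Set.mem_singleton_iff.mp hc]
        exact ⟨1, B.one_mem, 0, 1, by simp⟩
  | one => exact ⟨1, B.one_mem, 0, 0, by simp⟩
  | mul a b _ _ ha hb =>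
    obtain ⟨a, ha, i, j, rfl⟩ := ha
    obtain ⟨b, hb, i', j', rfl⟩ := hb
    exact ⟨a * b, B.mul_mem ha hb, i + i', j + j', by rw [mul_pow, pow_add, pow_add]; ring⟩

/-- The projection of a monomial. -/
theorem pr_mon (a : F) (i j : ℕ) : pr p x y Dx Dy (a ^ p * (x ^ i * y ^ j)) =
    (1 - (i : F) ^ (p - 1)) * ((1 - (j : F) ^ (p - 1)) * (a ^ p * (x ^ i * y ^ j))) := by
  have hy : th y Dy (a ^ p * (x ^ i * y ^ j)) = (j : F) * (a ^ p * (x ^ i * y ^ j)) := by
    have h1 := th_mon (p := p) y Dy h.yy (a := a) (c := x ^ i)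
      (by rw [Derivation.leibniz_pow, h.yx, smul_zero, smul_zero]) j
    rwa [mul_comm (y ^ j)] at h1
  have hx : th x Dx (a ^ p * (x ^ i * y ^ j)) = (i : F) * (a ^ p * (x ^ i * y ^ j)) :=
    th_mon (p := p) x Dx h.xx (by rw [Derivation.leibniz_pow, h.xy, smul_zero, smul_zero]) i
  have h1 : (1 - th y Dy ^ (p - 1)) (a ^ p * (x ^ i * y ^ j)) =
      (1 - (j : F) ^ (p - 1)) * (a ^ p * (x ^ i * y ^ j)) := by
    rw [LinearMap.sub_apply, th_pow_eigen y Dy hy, Module.End.one_apply]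
    ring
  have hc : Dx (1 - (j : F) ^ (p - 1)) = 0 := by
    rw [map_sub, Derivation.map_one_eq_zero, ← Nat.cast_pow, Derivation.map_natCast, sub_zero]
  have hx2 : th x Dx ((1 - (j : F) ^ (p - 1)) * (a ^ p * (x ^ i * y ^ j))) =
      (i : F) * ((1 - (j : F) ^ (p - 1)) * (a ^ p * (x ^ i * y ^ j))) := by
    rw [th_const_mul x Dx hc, hx]
    ring
  rw [pr, Module.End.mul_apply, h1, LinearMap.sub_apply, th_pow_eigen x Dx hx2,
    Module.End.one_apply]
  ring

theorem pr_mem {b : F} (hb : b ∈ B) : ∃ c ∈ B, pr p x y Dx Dy b = c ^ p := by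
  have h1 := h.mon_closure (h.pb b hb)
  clear hb
  induction h1 using AddSubgroup.closure_induction with
  | mem m hm =>
    obtain ⟨a, ha, i, j, rfl⟩ := hm
    rw [h.pr_mon]
    by_cases hi : p ∣ i
    · by_cases hj : p ∣ j
      · obtain ⟨i, rfl⟩ := hi
        obtain ⟨j, rfl⟩ := hj
        refine ⟨a * (x ^ i * y ^ j), B.mul_mem ha (B.mul_mem (B.pow_mem h.hx _)
          (B.pow_mem h.hy _)), ?_⟩
        rw [cast_pow_sub_one' _ (dvd_mul_right _ _), cast_pow_sub_one' _ (dvd_mul_right _ _),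
          mul_pow, mul_pow, ← pow_mul, ← pow_mul, mul_comm i, mul_comm j]
        ring
      · refine ⟨0, B.zero_mem, ?_⟩
        rw [cast_pow_sub_one j hj, zero_pow hp.out.ne_zero]
        ring
    · refine ⟨0, B.zero_mem, ?_⟩
      rw [cast_pow_sub_one i hi, zero_pow hp.out.ne_zero]
      ring
  | zero => exact ⟨0, B.zero_mem, by rw [map_zero, zero_pow hp.out.ne_zero]⟩
  | add a b _ _ ha hb =>
    obtain ⟨c, hc, ha⟩ := ha
    obtain ⟨d, hd, hb⟩ := hb
    exact ⟨c + d, B.add_mem hc hd, by rw [map_add, ha, hb, add_pow_char]⟩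
  | neg a _ ha =>
    obtain ⟨c, hc, ha⟩ := ha
    refine ⟨-c, B.neg_mem hc, ?_⟩
    have h2 : (0 - c) ^ p = 0 ^ p - c ^ p := sub_pow_char 0 c
    rw [zero_sub, zero_pow hp.out.ne_zero, zero_sub] at h2
    rw [map_neg, ha, h2]

theorem pr_pow (a : F) : pr p x y Dx Dy (a ^ p) = a ^ p := by
  have h1 := h.pr_mon a 0 0
  have h2 : p - 1 ≠ 0 := by
    have := hp.out.two_le
    omega
  rw [pow_zero, pow_zero, mul_one, mul_one, Nat.cast_zero, zero_pow h2, sub_zero, one_mul,
    one_mul] at h1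
  exact h1

/-- `B` contains the `p`-th roots of its elements. -/
theorem pc {w : F} (hw : w ^ p ∈ B) : w ∈ B := by
  obtain ⟨c, hc, h1⟩ := h.pr_mem hw
  rw [h.pr_pow] at h1
  have h2 : w = c := frobenius_inj F p (by simpa [frobenius_def] using h1)
  rw [h2]
  exact hc

/-- The chart of the field. -/
theorem top : EC p (⊤ : Subring F) x y Dx Dy where
  hx := trivial
  hy := trivial
  xx := h.xx
  xy := h.xy
  yx := h.yx
  yy := h.yy
  dx := fun _ _ => trivial
  dy := fun _ _ => trivial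
  pb := by
    intro w _
    obtain ⟨a, ha, b, hb, hb0, rfl⟩ := h.frac w
    have h1 : Subring.closure ({c | ∃ a ∈ B, c = a ^ p} ∪ {x, y}) ≤
        Subring.closure ({c | ∃ a ∈ (⊤ : Subring F), c = a ^ p} ∪ {x, y}) := by
      apply Subring.closure_mono
      apply Set.union_subset_union_left
      rintro c ⟨a, -, rfl⟩
      exact ⟨a, trivial, rfl⟩
    obtain ⟨q, hq⟩ : ∃ q, p = q + 1 := ⟨p - 1, by have := hp.out.pos; omega⟩
    have h2 : a / b = a * b ^ q * (b⁻¹) ^ p := by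
      rw [hq, pow_succ, inv_pow]
      field_simp
    rw [h2]
    exact Subring.mul_mem _ (Subring.mul_mem _ (h1 (h.pb a ha)) (Subring.pow_mem _
      (h1 (h.pb b hb)) _)) (Subring.subset_closure (Or.inl ⟨_, trivial, rfl⟩))
  frac := fun w => ⟨w, trivial, 1, trivial, one_ne_zero, by rw [div_one]⟩

/-- The kernel. -/
theorem ker {w : F} (h1 : Dx w = 0) (h2 : Dy w = 0) : ∃ g, g ^ p = w := by
  obtain ⟨c, -, hc⟩ := h.top.pr_mem (b := w) trivial
  refine ⟨c, ?_⟩
  have h3 : p - 1 ≠ 0 := by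
    have := hp.out.two_le
    omega
  have hy : th y Dy w = ((0 : ℕ) : F) * w := by rw [th_apply, h2]; simp
  have hx : th x Dx w = ((0 : ℕ) : F) * w := by rw [th_apply, h1]; simp
  have e1 : (1 - th y Dy ^ (p - 1)) w = w := by
    rw [LinearMap.sub_apply, th_pow_eigen y Dy hy, Nat.cast_zero, zero_pow h3, zero_mul, sub_zero,
      Module.End.one_apply]
  have e2 : (1 - th x Dx ^ (p - 1)) w = w := by
    rw [LinearMap.sub_apply, th_pow_eigen x Dx hx, Nat.cast_zero, zero_pow h3, zero_mul, sub_zero,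
      Module.End.one_apply]
  rw [← hc, pr, Module.End.mul_apply, e1, e2]

end EC

/-- `w` is a multiple of `N` in `B`. -/
def Mul {F : Type} [Field F] (B : Subring F) (N w : F) : Prop := ∃ b ∈ B, w = N * b

namespace Mul

variable {F : Type} [Field F] {B : Subring F} {N : F}

theorem add {v w : F} (hv : Mul B N v) (hw : Mul B N w) : Mul B N (v + w) := by
  obtain ⟨a, ha, rfl⟩ := hv
  obtain ⟨b, hb, rfl⟩ := hw
  exact ⟨a + b, B.add_mem ha hb, by ring⟩

theorem sub {v w : F} (hv : Mul B N v) (hw : Mul B N w) : Mul B N (v - w) := by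
  obtain ⟨a, ha, rfl⟩ := hv
  obtain ⟨b, hb, rfl⟩ := hw
  exact ⟨a - b, B.sub_mem ha hb, by ring⟩

theorem neg {v : F} (hv : Mul B N v) : Mul B N (-v) := by
  obtain ⟨a, ha, rfl⟩ := hv
  exact ⟨-a, B.neg_mem ha, by ring⟩

theorem smul {v b : F} (hb : b ∈ B) (hv : Mul B N v) : Mul B N (b * v) := by
  obtain ⟨a, ha, rfl⟩ := hv
  exact ⟨b * a, B.mul_mem hb ha, by ring⟩

theorem zero : Mul B N 0 := ⟨0, B.zero_mem, by ring⟩

end Mul

namespace EC

variable {p : ℕ} [hp : Fact p.Prime] {F : Type} [Field F] [CharP F p] {B : Subring F} {x y : F}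
  {Dx Dy : Derivation ℤ F F} (h : EC p B x y Dx Dy)

include h

theorem th_mul {D : Derivation ℤ F F} {t N : F} (ht : t ∈ B) (hD : ∀ b ∈ B, D b ∈ B)
    (hN : Mul B N (t * D N)) {w : F} (hw : Mul B N w) : Mul B N (th t D w) := by
  obtain ⟨b, hb, rfl⟩ := hw
  obtain ⟨c, hc, hN⟩ := hN
  refine ⟨t * D b + c * b, B.add_mem (B.mul_mem ht (hD b hb)) (B.mul_mem hc hb), ?_⟩
  rw [th_apply, Derivation.leibniz, smul_eq_mul, smul_eq_mul, mul_add]
  have h1 : t * (b * D N) = (t * D N) * b := by ring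
  rw [h1, hN]
  ring

theorem th_pow_mul {D : Derivation ℤ F F} {t N : F} (ht : t ∈ B) (hD : ∀ b ∈ B, D b ∈ B)
    (hN : Mul B N (t * D N)) {w : F} (hw : Mul B N w) (n : ℕ) : Mul B N ((th t D ^ n) w) := by
  induction n with
  | zero => rw [pow_zero]; exact hw
  | succ n ih =>
    rw [pow_succ', Module.End.mul_apply]
    exact h.th_mul ht hD hN ih

/-- **The gauge.** -/
theorem gauge {N f : F} (hNx : Mul B N (x * Dx N)) (hNy : Mul B N (y * Dy N))
    (h1 : Mul B N (x * Dx f)) (h2 : Mul B N (y * Dy f)) : ∃ g, Mul B N (f - g ^ p) := by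
  obtain ⟨g, -, hg⟩ := h.top.pr_mem (b := f) trivial
  refine ⟨g, ?_⟩
  obtain ⟨q, hq⟩ : ∃ q, p - 1 = q + 1 := ⟨p - 2, by have := hp.out.two_le; omega⟩
  have hx : Mul B N ((th x Dx ^ (p - 1)) f) := by
    rw [hq, pow_succ, Module.End.mul_apply]
    exact h.th_pow_mul h.hx h.dx hNx h1 q
  have hy : Mul B N ((th y Dy ^ (p - 1)) f) := by
    rw [hq, pow_succ, Module.End.mul_apply]
    exact h.th_pow_mul h.hy h.dy hNy h2 q
  have hxy : Mul B N ((th x Dx ^ (p - 1)) ((th y Dy ^ (p - 1)) f)) :=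
    h.th_pow_mul h.hx h.dx hNx hy _
  have h3 : f - g ^ p = (th y Dy ^ (p - 1)) f + ((th x Dx ^ (p - 1)) f -
      (th x Dx ^ (p - 1)) ((th y Dy ^ (p - 1)) f)) := by
    have e1 : (1 - th y Dy ^ (p - 1)) f = f - (th y Dy ^ (p - 1)) f := rfl
    have e2 : ∀ v : F, (1 - th x Dx ^ (p - 1)) v = v - (th x Dx ^ (p - 1)) v := fun v => rfl
    rw [← hg, pr, Module.End.mul_apply, e1, e2, map_sub]
    ring
  rw [h3]
  exact hy.add (hx.sub hxy)

theorem iter_pow_mul {D : Derivation ℤ F F} {t : F} (ht : D t = 1) {c : F} (hc : D c = 0) (i : ℕ) :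
    (D : F →ₗ[ℤ] F)^[i] (t ^ i * c) = (i.factorial : F) * c := by
  induction i generalizing c with
  | zero => simp
  | succ i ih =>
    rw [Function.iterate_succ_apply]
    have h1 : (D : F →ₗ[ℤ] F) (t ^ (i + 1) * c) = t ^ i * (((i + 1 : ℕ) : F) * c) := by
      show D _ = _
      rw [Derivation.leibniz, hc, smul_zero, zero_add, Derivation.leibniz_pow, ht,
        Nat.add_sub_cancel, smul_eq_mul, smul_eq_mul, mul_one, nsmul_eq_mul]
      ring
    rw [h1, ih (by rw [Derivation.leibniz, hc, Derivation.map_natCast, smul_zero, smul_zero,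
      add_zero]), Nat.factorial_succ]
    push_cast
    ring

theorem iter_mem {D : Derivation ℤ F F} (hD : ∀ b ∈ B, D b ∈ B) {b : F} (hb : b ∈ B) (n : ℕ) :
    (D : F →ₗ[ℤ] F)^[n] b ∈ B := by
  induction n with
  | zero => exact hb
  | succ n ih =>
    rw [Function.iterate_succ_apply']
    exact hD _ ih

theorem of_cast_mul {i : ℕ} (hi : ¬ p ∣ i) {c : F} (hc : (i : F) * c ∈ B) : c ∈ B := by
  have h1 : ((i ^ (p - 2) : ℕ) : F) * ((i : F) * c) ∈ B := B.mul_mem (natCast_mem B _) hc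
  have h2 : ((i ^ (p - 2) : ℕ) : F) * ((i : F) * c) = (i : F) ^ (p - 1) * c := by
    have h3 : p - 1 = p - 2 + 1 := by have := hp.out.two_le; omega
    rw [h3, pow_succ]
    push_cast
    ring
  rwa [h2, cast_pow_sub_one i hi, one_mul] at h1

/-- The divisibility of `p`-th powers. -/
theorem root {w : F} {i j : ℕ} (hi : i < p) (hj : j < p) (hw : x ^ i * y ^ j * w ^ p ∈ B) :
    w ∈ B := by
  apply h.pc
  have h1 := h.iter_mem h.dy (h.iter_mem h.dx hw i) j
  have h2 : (Dx : F →ₗ[ℤ] F)^[i] (x ^ i * y ^ j * w ^ p) = (i.factorial : F) * (y ^ j * w ^ p) := by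
    rw [mul_assoc]
    refine h.iter_pow_mul h.xx ?_ i
    rw [Derivation.leibniz, der_pow, Derivation.leibniz_pow, h.xy]
    simp
  have h3 : (Dy : F →ₗ[ℤ] F)^[j] ((i.factorial : F) * (y ^ j * w ^ p)) =
      (j.factorial : F) * ((i.factorial : F) * w ^ p) := by
    have h4 : (i.factorial : F) * (y ^ j * w ^ p) = y ^ j * ((i.factorial : F) * w ^ p) := by ring
    rw [h4]
    refine h.iter_pow_mul h.yy ?_ j
    rw [Derivation.leibniz, der_pow, Derivation.map_natCast]
    simp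
  rw [h2, h3] at h1
  have h4 : ∀ n, n < p → ¬ p ∣ n.factorial := fun n hn hd =>
    absurd ((hp.out.dvd_factorial).mp hd) (not_le.mpr hn)
  exact h.of_cast_mul (h4 i hi) (h.of_cast_mul (h4 j hj) h1)

end EC

end Pool.Agent.H96.S
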