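import Pool.Agent.H96.S.EC2

/-!
# Etale charts: changes of coordinates, blowing up
-/

set_option autoImplicit false
set_option linter.unusedSectionVars false

namespace Pool.Agent.H96.S

namespace EC

variable {p : ℕ} [hp : Fact p.Prime] {F : Type} [Field F] [CharP F p] {B : Subring F} {x y : F}
  {Dx Dy : Derivation ℤ F F} (h : EC p B x y Dx Dy)

include h

/-- Localization. -/
theorem loc {B' : Subring F} (hle : B ≤ B')
    (hfr : ∀ w ∈ B', ∃ a ∈ B, ∃ b ∈ B, b ≠ 0 ∧ b⁻¹ ∈ B' ∧ w = a / b) : EC p B' x y Dx Dy where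
  hx := hle h.hx
  hy := hle h.hy
  xx := h.xx
  xy := h.xy
  yx := h.yx
  yy := h.yy
  dx := by
    intro w hw
    obtain ⟨a, ha, b, hb, hb0, hb', rfl⟩ := hfr w hw
    rw [der_div_mul _ hb0, div_eq_mul_inv _ b]
    exact B'.mul_mem (B'.sub_mem (hle (h.dx a ha)) (B'.mul_mem hw (hle (h.dx b hb)))) hb'
  dy := by
    intro w hw
    obtain ⟨a, ha, b, hb, hb0, hb', rfl⟩ := hfr w hw
    rw [der_div_mul _ hb0, div_eq_mul_inv _ b]
    exact B'.mul_mem (B'.sub_mem (hle (h.dy a ha)) (B'.mul_mem hw (hle (h.dy b hb)))) hb'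
  pb := by
    intro w hw
    obtain ⟨a, ha, b, hb, hb0, hb', rfl⟩ := hfr w hw
    have h1 : Subring.closure ({c | ∃ a ∈ B, c = a ^ p} ∪ {x, y}) ≤
        Subring.closure ({c | ∃ a ∈ B', c = a ^ p} ∪ {x, y}) := by
      apply Subring.closure_mono
      apply Set.union_subset_union_left
      rintro c ⟨a, ha, rfl⟩
      exact ⟨a, hle ha, rfl⟩
    obtain ⟨q, hq⟩ : ∃ q, p = q + 1 := ⟨p - 1, by have := hp.out.pos; omega⟩
    have h2 : a / b = a * b ^ q * (b⁻¹) ^ p := by
      rw [hq, pow_succ, inv_pow]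
      field_simp
    rw [h2]
    exact Subring.mul_mem _ (Subring.mul_mem _ (h1 (h.pb a ha)) (Subring.pow_mem _
      (h1 (h.pb b hb)) _)) (Subring.subset_closure (Or.inl ⟨_, hb', rfl⟩))
  frac := by
    intro w
    obtain ⟨a, ha, b, hb, hb0, hw⟩ := h.frac w
    exact ⟨a, hle ha, b, hle hb, hb0, hw⟩

/-- Recentering. -/
theorem sub_pow {c : F} (hc : c ∈ B) : EC p B (x - c ^ p) y Dx Dy where
  hx := B.sub_mem h.hx (B.pow_mem hc _)
  hy := h.hy
  xx := by rw [map_sub, der_pow, sub_zero, h.xx]
  xy := h.xy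
  yx := by rw [map_sub, der_pow, sub_zero, h.yx]
  yy := h.yy
  dx := h.dx
  dy := h.dy
  pb := by
    intro b hb
    have h1 : Subring.closure ({c | ∃ a ∈ B, c = a ^ p} ∪ {x, y}) ≤
        Subring.closure ({c | ∃ a ∈ B, c = a ^ p} ∪ {x - c ^ p, y}) := by
      rw [Subring.closure_le]
      rintro d (hd | hd | hd)
      · exact Subring.subset_closure (Or.inl hd)
      · have h2 : d = (x - c ^ p) + c ^ p := by rw [hd]; ring
        rw [h2]
        exact Subring.add_mem _ (Subring.subset_closure (Or.inr (Or.inl rfl)))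
          (Subring.subset_closure (Or.inl ⟨c, hc, rfl⟩))
      · exact Subring.subset_closure (Or.inr (Or.inr hd))
    exact h1 (h.pb b hb)
  frac := h.frac

section Change

theorem ext_der' {z : F} (hz0 : Dy z ≠ 0) {E E' : Derivation ℤ F F} (hx : E x = E' x)
    (hzz : E z = E' z) (w : F) : E w = E' w := by
  refine h.ext_der hx ?_ w
  have h1 := h.der E z
  have h2 := h.der E' z
  rw [hzz, h2, hx] at h1
  have h3 : (E y - E' y) * Dy z = 0 := by linear_combination -h1
  exact sub_eq_zero.mp ((mul_eq_zero.mp h3).resolve_right hz0)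

/-- Elimination of a coordinate. -/
theorem elim {D : Derivation ℤ F F} {t : F} {C : Subring F} {Q : F → Prop} (ht : t ∈ B)
    (htC : t ∈ C) (hDt : D t = 1) (hD : ∀ b ∈ B, D b ∈ B) (hQD : ∀ b, Q b → Q (D b))
    (hQs : ∀ b c, Q b → Q c → ∀ n : ℕ, Q (b - t ^ n * c))
    (hQc : ∀ b, ∀ i : ℕ, Q b → Q ((i : F)⁻¹ * b)) (base : ∀ b ∈ B, Q b → D b = 0 → b ∈ C) (n : ℕ) :
    n ≤ p → ∀ b ∈ B, Q b → (D : F →ₗ[ℤ] F)^[n] b = 0 → b ∈ C := by
  induction n with
  | zero =>
    intro _ b _ _ h0
    have h0 : b = 0 := h0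
    rw [h0]; exact C.zero_mem
  | succ n ih =>
    intro hn b hb hQ h0
    have hfac : ¬ p ∣ n.factorial := fun hd =>
      absurd ((hp.out.dvd_factorial).mp hd) (not_le.mpr hn)
    have hfac0 : ((n.factorial : ℕ) : F) ≠ 0 := fun h1 => hfac ((CharP.cast_eq_zero_iff F p _).mp h1)
    have hQn : ∀ m, Q ((D : F →ₗ[ℤ] F)^[m] b) := by
      intro m
      induction m with
      | zero => exact hQ
      | succ m ihm => rw [Function.iterate_succ_apply']; exact hQD _ ihm
    set c := ((n.factorial : ℕ) : F)⁻¹ * (D : F →ₗ[ℤ] F)^[n] b with hc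
    have hcm : ((n.factorial : ℕ) : F) * c = (D : F →ₗ[ℤ] F)^[n] b := by
      rw [hc, ← mul_assoc, mul_inv_cancel₀ hfac0, one_mul]
    have hcB : c ∈ B := h.of_cast_mul hfac (by rw [hcm]; exact h.iter_mem hD hb n)
    have hcQ : Q c := hQc _ _ (hQn n)
    have hDc : D c = 0 := by
      have h1 : D (((n.factorial : ℕ) : F) * c) = 0 := by
        rw [hcm]
        rw [Function.iterate_succ_apply'] at h0
        exact h0
      rw [Derivation.leibniz, Derivation.map_natCast, smul_zero, add_zero, smul_eq_mul] at h1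
      exact (mul_eq_zero.mp h1).resolve_left hfac0
    have h1 := ih (Nat.le_of_succ_le hn) (b - t ^ n * c) (B.sub_mem hb (B.mul_mem (B.pow_mem ht _)
      hcB)) (hQs b c hQ hcQ n) (by
      rw [← Module.End.pow_apply, map_sub, Module.End.pow_apply, Module.End.pow_apply,
        h.iter_pow_mul hDt hDc, hcm, sub_self])
    have h2 : b = (b - t ^ n * c) + t ^ n * c := by ring
    rw [h2]
    exact C.add_mem h1 (C.mul_mem (C.pow_mem htC _) (base c hcB hcQ hDc))

/-- Change of the second coordinate. -/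
theorem change {z : F} (hz : z ∈ B) (hz' : (Dy z)⁻¹ ∈ B) (hz0 : Dy z ≠ 0) :
    EC p B x z (Dx - (Dx z * (Dy z)⁻¹) • Dy) ((Dy z)⁻¹ • Dy) := by
  set Ex : Derivation ℤ F F := Dx - (Dx z * (Dy z)⁻¹) • Dy with hEx
  set Ey : Derivation ℤ F F := (Dy z)⁻¹ • Dy with hEy
  have eEx : ∀ w, Ex w = Dx w - Dx z * (Dy z)⁻¹ * Dy w := fun w => rfl
  have eEy : ∀ w, Ey w = (Dy z)⁻¹ * Dy w := fun w => rfl
  have xx : Ex x = 1 := by rw [eEx, h.xx, h.yx, mul_zero, sub_zero]
  have xz : Ex z = 0 := by rw [eEx, mul_assoc, inv_mul_cancel₀ hz0, mul_one, sub_self]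
  have zx : Ey x = 0 := by rw [eEy, h.yx, mul_zero]
  have zz : Ey z = 1 := by rw [eEy, inv_mul_cancel₀ hz0]
  have dEx : ∀ b ∈ B, Ex b ∈ B := fun b hb =>
    B.sub_mem (h.dx b hb) (B.mul_mem (B.mul_mem (h.dx z hz) hz') (h.dy b hb))
  have dEy : ∀ b ∈ B, Ey b ∈ B := fun b hb => B.mul_mem hz' (h.dy b hb)
  have hcomm : ∀ w, Ex (Ey w) = Ey (Ex w) := by
    intro w
    have h1 := h.ext_der' hz0 (E := ⁅Ex, Ey⁆) (E' := 0) (by
      rw [Derivation.commutator_apply, xx, zx, map_zero, Derivation.map_one_eq_zero, sub_zero]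
      rfl) (by
      rw [Derivation.commutator_apply, xz, zz, map_zero, Derivation.map_one_eq_zero, sub_zero]
      rfl) w
    rw [Derivation.commutator_apply] at h1
    exact sub_eq_zero.mp h1
  have hnil : ∀ D : Derivation ℤ F F, D (D x) = 0 → D (D z) = 0 → ∀ w,
      (D : F →ₗ[ℤ] F)^[p] w = 0 := by
    intro D h1 h2 w
    obtain ⟨q, hq⟩ : ∃ q, p = q + 2 := ⟨p - 2, by have := hp.out.two_le; omega⟩
    have h0 : ∀ v : F, D (D v) = 0 → (D : F →ₗ[ℤ] F)^[p] v = 0 := by
      intro v hv
      have h3 : (D : F →ₗ[ℤ] F)^[2] v = 0 := hv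
      rw [hq, Function.iterate_add_apply, h3, ← Module.End.pow_apply, map_zero]
    have h4 := h.ext_der' hz0 (E := frobD p D) (E' := 0) (by
      rw [frobD_apply, h0 x h1]; rfl) (by rw [frobD_apply, h0 z h2]; rfl) w
    rw [frobD_apply] at h4
    exact h4
  have nx := hnil Ex (by rw [xx, Derivation.map_one_eq_zero]) (by rw [xz, map_zero])
  have nz := hnil Ey (by rw [zx, map_zero]) (by rw [zz, Derivation.map_one_eq_zero])
  refine ⟨h.hx, hz, xx, xz, zx, zz, dEx, dEy, fun b hb => ?_, h.frac⟩
  set C := Subring.closure ({c | ∃ a ∈ B, c = a ^ p} ∪ {x, z}) with hC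
  have hxC : x ∈ C := Subring.subset_closure (Or.inr (Or.inl rfl))
  have hzC : z ∈ C := Subring.subset_closure (Or.inr (Or.inr rfl))
  have h1 : ∀ b ∈ B, Ex b = 0 → Ey b = 0 → b ∈ C := by
    intro b hb hb1 hb2
    have h2 : Dy b = 0 := by
      rw [eEy] at hb2
      exact (mul_eq_zero.mp hb2).resolve_left (inv_ne_zero hz0)
    have h3 : Dx b = 0 := by
      rw [eEx, h2, mul_zero, sub_zero] at hb1
      exact hb1
    obtain ⟨g, hg⟩ := h.ker h3 h2
    rw [← hg] at hb ⊢
    exact Subring.subset_closure (Or.inl ⟨g, h.pc hb, rfl⟩)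
  have hcx : ∀ (i : ℕ) (b : F), Ex b = 0 → Ex ((i : F)⁻¹ * b) = 0 := by
    intro i b hb
    have h2 : Ex ((i : F)⁻¹) = 0 := by
      by_cases hi : (i : F) = 0
      · rw [hi, inv_zero, map_zero]
      · have h3 := der_div_mul Ex (a := 1) hi
        rw [one_div, Derivation.map_one_eq_zero, Derivation.map_natCast, mul_zero, sub_zero,
          zero_div] at h3
        exact h3
    rw [Derivation.leibniz, hb, h2, smul_zero, smul_zero, add_zero]
  have h2 : ∀ b ∈ B, Ex b = 0 → b ∈ C := by
    intro b hb hb1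
    refine h.elim (Q := fun b => Ex b = 0) hz hzC zz dEy (fun b hb => ?_) (fun b c hb hc n => ?_)
      (fun b i hb => hcx i b hb) (fun b hb h2 h3 => h1 b hb h2 h3) p le_rfl b hb hb1 (nz b)
    · show Ex (Ey b) = 0
      rw [hcomm, hb, map_zero]
    · show Ex (b - z ^ n * c) = 0
      rw [map_sub, Derivation.leibniz, Derivation.leibniz_pow, hb, hc, xz, smul_zero, smul_zero,
        smul_zero, smul_zero, add_zero, sub_zero]
  exact h.elim (Q := fun _ => True) h.hx hxC xx dEx (fun _ _ => trivial) (fun _ _ _ _ _ => trivial)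
    (fun _ _ _ => trivial) (fun b hb _ h3 => h2 b hb h3) p le_rfl b hb trivial (nx b)

end Change

end EC

/-- The ring generated by `B` and `t`. -/
def adj {F : Type} [Field F] (B : Subring F) (t : F) : Subring F := Subring.closure (B ∪ {t})

section Adj

variable {F : Type} [Field F] {B : Subring F} {t : F}

theorem le_adj : B ≤ adj B t := fun _ hb => Subring.subset_closure (Or.inl hb)

theorem mem_adj : t ∈ adj B t := Subring.subset_closure (Or.inr rfl)

theorem adj_le {S : Subring F} (h1 : B ≤ S) (h2 : t ∈ S) : adj B t ≤ S := by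
  rw [adj, Subring.closure_le]
  rintro w (hw | hw)
  · exact h1 hw
  · rw [Set.mem_singleton_iff.mp hw]
    exact h2

/-- The elements are polynomials. -/
theorem mem_adj_iff {w : F} : w ∈ adj B t ↔ ∃ (m : ℕ) (c : ℕ → F), (∀ i, c i ∈ B) ∧
    w = ∑ i ∈ Finset.range m, c i * t ^ i := by
  constructor
  · intro hw
    induction hw using Subring.closure_induction with
    | mem w hw =>
      rcases hw with hw | hw
      · exact ⟨1, fun _ => w, fun _ => hw, by simp⟩
      · rw [Set.mem_singleton_iff.mp hw]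
        refine ⟨2, fun i => if i = 1 then 1 else 0, fun i => ?_, by
          simp [Finset.sum_range_succ]⟩
        show (if i = 1 then (1 : F) else 0) ∈ B
        split_ifs
        · exact B.one_mem
        · exact B.zero_mem
    | zero => exact ⟨0, fun _ => 0, fun _ => B.zero_mem, by simp⟩
    | one => exact ⟨1, fun _ => 1, fun _ => B.one_mem, by simp⟩
    | add a b _ _ ha hb =>
      obtain ⟨m, c, hc, rfl⟩ := ha
      obtain ⟨n, d, hd, rfl⟩ := hb
      refine ⟨max m n, fun i => (if i < m then c i else 0) + (if i < n then d i else 0),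
        fun i => B.add_mem (by split_ifs; exacts [hc i, B.zero_mem])
          (by split_ifs; exacts [hd i, B.zero_mem]), ?_⟩
      simp only [add_mul, Finset.sum_add_distrib, ite_mul, zero_mul]
      congr 1
      · rw [← Finset.sum_filter]
        congr 1
        ext i
        simp only [Finset.mem_filter, Finset.mem_range, lt_max_iff]
        tauto
      · rw [← Finset.sum_filter]
        congr 1
        ext i
        simp only [Finset.mem_filter, Finset.mem_range, lt_max_iff]
        tauto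
    | neg a _ ha =>
      obtain ⟨m, c, hc, rfl⟩ := ha
      exact ⟨m, fun i => -c i, fun i => B.neg_mem (hc i), by simp⟩
    | mul a b _ _ ha hb =>
      obtain ⟨m, c, hc, rfl⟩ := ha
      obtain ⟨n, d, hd, rfl⟩ := hb
      refine ⟨m + n, fun l => ∑ ij ∈ Finset.HasAntidiagonal.antidiagonal l,
        (if ij.1 < m then c ij.1 else 0) * (if ij.2 < n then d ij.2 else 0), fun l =>
        B.sum_mem fun ij _ => B.mul_mem (by split_ifs; exacts [hc _, B.zero_mem])
          (by split_ifs; exacts [hd _, B.zero_mem]), ?_⟩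
      rw [Finset.sum_mul_sum, ← Finset.sum_product']
      have h1 : ∀ l ∈ Finset.range (m + n), (∑ ij ∈ Finset.HasAntidiagonal.antidiagonal l,
          (if ij.1 < m then c ij.1 else 0) * (if ij.2 < n then d ij.2 else 0)) * t ^ l =
          ∑ ij ∈ (Finset.range m ×ˢ Finset.range n).filter (fun ij => ij.1 + ij.2 = l),
            c ij.1 * t ^ ij.1 * (d ij.2 * t ^ ij.2) := by
        intro l _
        rw [Finset.sum_mul]
        have h2 : ∀ ij ∈ Finset.HasAntidiagonal.antidiagonal l,
            (if ij.1 < m then c ij.1 else 0) * (if ij.2 < n then d ij.2 else 0) * t ^ l =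
            if ij.1 < m ∧ ij.2 < n then c ij.1 * t ^ ij.1 * (d ij.2 * t ^ ij.2) else 0 := by
          rintro ⟨i, j⟩ hij
          rw [Finset.HasAntidiagonal.mem_antidiagonal] at hij
          have hij : i + j = l := hij
          by_cases h3 : i < m
          · by_cases h4 : j < n
            · simp only [if_pos h3, if_pos h4, h3, h4, and_self, if_true]
              rw [← hij, pow_add]; ring
            · simp only [if_neg h4, h4, and_false, if_false, mul_zero, zero_mul]
          · simp only [if_neg h3, h3, false_and, if_false, zero_mul]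
        rw [Finset.sum_congr rfl h2, ← Finset.sum_filter]
        refine Finset.sum_congr ?_ fun _ _ => rfl
        ext ⟨i, j⟩
        simp only [Finset.mem_filter, Finset.HasAntidiagonal.mem_antidiagonal, Finset.mem_product,
          Finset.mem_range]
        tauto
      rw [Finset.sum_congr rfl h1, Finset.sum_fiberwise_of_maps_to]
      rintro ⟨i, j⟩ hij
      rw [Finset.mem_product, Finset.mem_range, Finset.mem_range] at hij
      rw [Finset.mem_range]
      show i + j < m + n
      have h3 : i < m := hij.1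
      have h4 : j < n := hij.2
      omega
  · rintro ⟨m, c, hc, rfl⟩
    exact Subring.sum_mem _ fun i _ => Subring.mul_mem _ (le_adj (hc i))
      (Subring.pow_mem _ mem_adj _)

end Adj

namespace EC

variable {p : ℕ} [hp : Fact p.Prime] {F : Type} [Field F] [CharP F p] {B : Subring F} {x y : F}
  {Dx Dy : Derivation ℤ F F} (h : EC p B x y Dx Dy)

include h

/-- **Blowing up.** -/
theorem blow : EC p (adj B (y / x)) x (y / x) (Dx + (y / x) • Dy) (x • Dy) := by
  have hx0 := h.x0
  set t := y / x with ht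
  have hyt : y = t * x := by rw [ht, div_mul_cancel₀ _ hx0]
  have dt1 : Dx t = -(t / x) := by
    rw [ht, der_div_mul _ hx0, h.xy, h.xx]
    field_simp
    ring
  have dt2 : Dy t = 1 / x := by
    rw [ht, der_div_mul _ hx0, h.yy, h.yx]
    field_simp
    ring
  have eT : ∀ w, (Dx + t • Dy : Derivation ℤ F F) w = Dx w + t * Dy w := fun w => rfl
  have eX : ∀ w, (x • Dy : Derivation ℤ F F) w = x * Dy w := fun w => rfl
  have tt1 : (Dx + t • Dy : Derivation ℤ F F) t = 0 := by
    rw [eT, dt1, dt2]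
    field_simp
    ring
  have tt2 : (x • Dy : Derivation ℤ F F) t = 1 := by
    rw [eX, dt2]
    field_simp
  have hpres : ∀ D : Derivation ℤ F F, (∀ b ∈ B, D b ∈ adj B t) → D t ∈ adj B t →
      ∀ w ∈ adj B t, D w ∈ adj B t := by
    intro D h1 h2 w hw'
    have hw' : w ∈ Subring.closure (B ∪ {t} : Set F) := hw'
    induction hw' using Subring.closure_induction with
    | mem w hw =>
      rcases hw with hw | hw
      · exact h1 w hw
      · rw [Set.mem_singleton_iff.mp hw]; exact h2
    | zero => rw [map_zero]; exact Subring.zero_mem _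
    | one => rw [Derivation.map_one_eq_zero]; exact Subring.zero_mem _
    | add a b ha hb iha ihb => rw [map_add]; exact Subring.add_mem _ (iha ha) (ihb hb)
    | neg a ha iha => rw [map_neg]; exact Subring.neg_mem _ (iha ha)
    | mul a b ha hb iha ihb =>
      rw [Derivation.leibniz, smul_eq_mul, smul_eq_mul]
      exact Subring.add_mem _ (Subring.mul_mem _ ha (ihb hb)) (Subring.mul_mem _ hb (iha ha))
  refine ⟨le_adj h.hx, mem_adj, ?_, tt1, ?_, tt2, ?_, ?_, ?_, ?_⟩
  · rw [eT, h.xx, h.yx, mul_zero, add_zero]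
  · rw [eX, h.yx, mul_zero]
  · refine hpres _ (fun b hb => ?_) (by rw [tt1]; exact Subring.zero_mem _)
    rw [eT]
    exact Subring.add_mem _ (le_adj (h.dx b hb)) (Subring.mul_mem _ mem_adj (le_adj (h.dy b hb)))
  · refine hpres _ (fun b hb => ?_) (by rw [tt2]; exact Subring.one_mem _)
    rw [eX]
    exact Subring.mul_mem _ (le_adj h.hx) (le_adj (h.dy b hb))
  · intro w hw
    set C := Subring.closure ({c | ∃ a ∈ adj B t, c = a ^ p} ∪ {x, t}) with hC
    have hxC : x ∈ C := Subring.subset_closure (Or.inr (Or.inl rfl))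
    have htC : t ∈ C := Subring.subset_closure (Or.inr (Or.inr rfl))
    have h1 : adj B t ≤ C := by
      refine adj_le (fun b hb => ?_) htC
      have h2 : Subring.closure ({c | ∃ a ∈ B, c = a ^ p} ∪ {x, y}) ≤ C := by
        rw [Subring.closure_le]
        rintro c (⟨a, ha, rfl⟩ | hc | hc)
        · exact Subring.subset_closure (Or.inl ⟨a, le_adj ha, rfl⟩)
        · rw [hc]; exact hxC
        · rw [hc, hyt]; exact C.mul_mem htC hxC
      exact h2 (h.pb b hb)
    exact h1 hw
  · intro w
    obtain ⟨a, ha, b, hb, hb0, hw⟩ := h.frac w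
    exact ⟨a, le_adj ha, b, le_adj hb, hb0, hw⟩

end EC

end Pool.Agent.H96.S
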