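import Pool.Agent.H96.S.Lr

/-!
# Finite colength
-/

set_option autoImplicit false
set_option linter.unusedSectionVars false

namespace Pool.Agent.H96.S

open Pool.Agent.H96.VL
open scoped Pointwise

section Fc0

variable {p : ℕ} [hp : Fact p.Prime] {F : Type} [Field F] [CharP F p] {W : ValuationSubring F}
  {R : Subring F} {x y u v w : F} {Dx Dy : Derivation ℤ F F} {A : Type}

theorem L3_div {l M : F} (hM : M ∈ R) (hM0 : M ≠ 0) (hl : l ∈ L3 R u v w) :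
    l ∈ L3 R (u / M) (v / M) (w / M) := by
  obtain ⟨b, hb, c, hc, d, hd, rfl⟩ := mem_I3.mp hl
  refine mem_I3.mpr ⟨M * b, R.mul_mem hM hb, M * c, R.mul_mem hM hc, M * d, R.mul_mem hM hd, ?_⟩
  field_simp

theorem L3_smul {l M : F} (hl : l ∈ L3 R u v w) : M * l ∈ L3 R (M * u) (M * v) (M * w) := by
  obtain ⟨b, hb, c, hc, d, hd, rfl⟩ := mem_I3.mp hl
  exact mem_I3.mpr ⟨b, hb, c, hc, d, hd, by ring⟩

theorem L3_mul {l r : F} (hr : r ∈ R) (hl : l ∈ L3 R u v w) : r * l ∈ L3 R u v w := by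
  obtain ⟨b, hb, c, hc, d, hd, rfl⟩ := mem_I3.mp hl
  exact mem_I3.mpr ⟨r * b, R.mul_mem hr hb, r * c, R.mul_mem hr hc, r * d, R.mul_mem hr hd, by ring⟩

theorem L3_u : u ∈ L3 R u v w := mem_I3.mpr ⟨1, R.one_mem, 0, R.zero_mem, 0, R.zero_mem, by ring⟩

theorem L3_v : v ∈ L3 R u v w := mem_I3.mpr ⟨0, R.zero_mem, 1, R.one_mem, 0, R.zero_mem, by ring⟩

theorem L3_w : w ∈ L3 R u v w := mem_I3.mpr ⟨0, R.zero_mem, 0, R.zero_mem, 1, R.one_mem, by ring⟩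

/-- The maximal power. -/
theorem Lr.max_pow (h : Lr p W R x y Dx Dy) (b : Bool) (hu : u ∈ R) (hv : v ∈ R) (hw : w ∈ R)
    {i j : ℕ} (h1 : x ^ i * y ^ j ∈ L3 R u v w) : ∃ a : ℕ, (b = false → a = 0) ∧
      (Mul R (x ^ a) u ∧ Mul R (x ^ a) v ∧ Mul R (x ^ a) w) ∧
      (b = true → ¬ (Mul R (x ^ (a + 1)) u ∧ Mul R (x ^ (a + 1)) v ∧ Mul R (x ^ (a + 1)) w)) := by
  have h0 : Mul R (x ^ 0) u ∧ Mul R (x ^ 0) v ∧ Mul R (x ^ 0) w := by
    rw [pow_zero]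
    exact ⟨⟨u, hu, by ring⟩, ⟨v, hv, by ring⟩, ⟨w, hw, by ring⟩⟩
  cases b with
  | false => exact ⟨0, fun _ => rfl, h0, fun h => by cases h⟩
  | true =>
    by_contra hcon
    push Not at hcon
    have h2 : ∀ a : ℕ, Mul R (x ^ a) u ∧ Mul R (x ^ a) v ∧ Mul R (x ^ a) w := by
      intro a
      induction a with
      | zero => exact h0
      | succ a ih => exact (hcon a (fun h => by cases h) ih).2
    obtain ⟨⟨b, hb, hub⟩, ⟨c, hc, hvc⟩, ⟨d, hd, hwd⟩⟩ := h2 (i + 1)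
    obtain ⟨b', hb', c', hc', d', hd', h3⟩ := mem_I3.mp h1
    apply h.not_x j
    have hx0 : x ^ i ≠ 0 := pow_ne_zero _ h.ec.x0
    refine ⟨b * b' + c * c' + d * d', R.add_mem (R.add_mem (R.mul_mem hb hb') (R.mul_mem hc hc'))
      (R.mul_mem hd hd'), ?_⟩
    apply mul_left_cancel₀ hx0
    rw [h3, hub, hvc, hwd, pow_succ]
    ring

theorem Lr.comb (h : Lr p W R x y Dx Dy) {L : AddSubgroup F} (hL : Idl R L) {m : ℕ} {l : F}
    (hl : l ∈ L) (h1 : Mul R x (y ^ m - l)) {i j : ℕ} (h2 : x ^ i * y ^ j ∈ L) :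
    y ^ (m * i + j) ∈ L := by
  obtain ⟨r, hr, h3⟩ := h1
  have key : ∀ i : ℕ, ∃ l' ∈ L, ∃ r' ∈ R, y ^ (m * i) = l' + x ^ i * r' := by
    intro i
    induction i with
    | zero => exact ⟨0, L.zero_mem, 1, R.one_mem, by simp⟩
    | succ i ih =>
      obtain ⟨l', hl', r', hr', h4⟩ := ih
      refine ⟨y ^ m * l' + x ^ i * r' * l, L.add_mem (hL.mul _ (R.pow_mem h.ec.hy _) _ hl')
        (hL.mul _ (R.mul_mem (R.pow_mem h.ec.hx _) hr') _ hl), r' * r, R.mul_mem hr' hr, ?_⟩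
      rw [Nat.mul_succ, pow_add, h4, pow_succ]
      linear_combination (x ^ i * r') * h3
  obtain ⟨l', hl', r', hr', h4⟩ := key i
  have h5 : y ^ (m * i + j) = y ^ j * l' + r' * (x ^ i * y ^ j) := by
    rw [pow_add, h4]; ring
  rw [h5]
  exact L.add_mem (hL.mul _ (R.pow_mem h.ec.hy _) _ hl') (hL.mul _ hr' _ h2)

theorem Mul.div {N a : F} (hN : N ≠ 0) (h : Mul R N a) : a / N ∈ R := by
  obtain ⟨b, hb, rfl⟩ := h
  rwa [mul_div_cancel_left₀ _ hN]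

/-- The residue in the first direction. -/
theorem Lr.one_side (h : Lr p W R x y Dx Dy) (b : Bool) (hu : u ∈ R) (hv : v ∈ R) (hw : w ∈ R)
    (h1 : b = false → ∃ j : ℕ, y ^ j ∈ L3 R u v w)
    (h2 : b = true → ¬ (Mul R x u ∧ Mul R x v ∧ Mul R x w)) :
    ∃ (m : ℕ), ∃ l ∈ L3 R u v w, Mul R x (y ^ m - l) := by
  cases b with
  | false =>
    obtain ⟨j, hj⟩ := h1 rfl
    exact ⟨j, _, hj, by rw [sub_self]; exact Mul.zero⟩
  | true =>
    have key : ∀ l ∈ L3 R u v w, l ∈ R → ¬ Mul R x l → ∃ (m : ℕ), ∃ l ∈ L3 R u v w,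
        Mul R x (y ^ m - l) := by
      intro l hl hlR hnl
      obtain ⟨m, s, hs, h3⟩ := h.dvr hlR hnl
      refine ⟨m, s⁻¹ * l, L3_mul hs.2.2 hl, ?_⟩
      have h4 := (h3.smul hs.2.2).neg
      have h5 : -(s⁻¹ * (l - y ^ m * s)) = y ^ m - s⁻¹ * l := by
        have := hs.1
        field_simp
        ring
      rwa [h5] at h4
    have h3 := h2 rfl
    by_cases hxu : Mul R x u
    · by_cases hxv : Mul R x v
      · exact key w L3_w hw fun hxw => h3 ⟨hxu, hxv, hxw⟩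
      · exact key v L3_v hv hxv
    · exact key u L3_u hu hxu

/-- Finite colength, integral version. -/
theorem Lr.fc0 (h : Lr p W R x y Dx Dy) (b b' : Bool) (hu : u ∈ R) (hv : v ∈ R) (hw : w ∈ R)
    {i j : ℕ} (h1 : x ^ i * y ^ j ∈ L3 R u v w)
    (h2 : b = false → ∃ j : ℕ, y ^ j ∈ L3 R u v w) (h3 : b' = false → ∃ i : ℕ, x ^ i ∈ L3 R u v w) :
    ∃ a a' : ℕ, (b = false → a = 0) ∧ (b' = false → a' = 0) ∧ u / (x ^ a * y ^ a') ∈ R ∧
      v / (x ^ a * y ^ a') ∈ R ∧ w / (x ^ a * y ^ a') ∈ R ∧ ∃ m : ℕ,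
      x ^ m ∈ L3 R (u / (x ^ a * y ^ a')) (v / (x ^ a * y ^ a')) (w / (x ^ a * y ^ a')) ∧
      y ^ m ∈ L3 R (u / (x ^ a * y ^ a')) (v / (x ^ a * y ^ a')) (w / (x ^ a * y ^ a')) := by
  have hx0 := h.ec.x0
  have hy0 := h.ec.y0
  obtain ⟨a, ha, ⟨hau, hav, haw⟩, hamax⟩ := h.max_pow b hu hv hw h1
  have hxa : x ^ a ≠ 0 := pow_ne_zero _ hx0
  have hu1 := hau.div hxa
  have hv1 := hav.div hxa
  have hw1 := haw.div hxa
  have h1' := L3_div (R.pow_mem h.ec.hx a) hxa h1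
  obtain ⟨a', ha', ⟨hau', hav', haw'⟩, hamax'⟩ := h.swap.max_pow b' hu1 hv1 hw1 (i := j) (j := i)
    (by rw [mul_comm]; exact h1')
  have hya : y ^ a' ≠ 0 := pow_ne_zero _ hy0
  have hu2 := hau'.div hya
  have hv2 := hav'.div hya
  have hw2 := haw'.div hya
  have e1 : ∀ c : F, c / x ^ a / y ^ a' = c / (x ^ a * y ^ a') := fun c => by rw [div_div]
  rw [e1] at hu2 hv2 hw2
  set M := x ^ a * y ^ a' with hM
  have hM0 : M ≠ 0 := mul_ne_zero hxa hya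
  have hMR : M ∈ R := R.mul_mem (R.pow_mem h.ec.hx _) (R.pow_mem h.ec.hy _)
  have hcx : ∀ c : F, Mul R x (c / M) → Mul R (x ^ (a + 1)) c := by
    rintro c ⟨r, hr, h4⟩
    refine ⟨y ^ a' * r, R.mul_mem (R.pow_mem h.ec.hy _) hr, ?_⟩
    have h5 : c = M * (x * r) := by rw [← h4]; field_simp
    rw [h5, hM, pow_succ]; ring
  have hcy : ∀ c : F, Mul R y (c / M) → Mul R (y ^ (a' + 1)) (c / x ^ a) := by
    rintro c ⟨r, hr, h4⟩
    refine ⟨r, hr, ?_⟩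
    have h5 : c = M * (y * r) := by rw [← h4]; field_simp
    rw [h5, hM, pow_succ]; field_simp
  obtain ⟨m, l, hl, hm⟩ := h.one_side b hu2 hv2 hw2 (fun hb => by
    obtain ⟨j, hj⟩ := h2 hb
    exact ⟨j, L3_div hMR hM0 hj⟩) fun hb hc => hamax hb ⟨hcx _ hc.1, hcx _ hc.2.1, hcx _ hc.2.2⟩
  obtain ⟨m', l', hl', hm'⟩ := h.swap.one_side b' hu2 hv2 hw2 (fun hb => by
    obtain ⟨j, hj⟩ := h3 hb
    exact ⟨j, L3_div hMR hM0 hj⟩) fun hb hc => hamax' hb ⟨hcy _ hc.1, hcy _ hc.2.1, hcy _ hc.2.2⟩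
  have hidl : Idl R (L3 R (u / M) (v / M) (w / M)) := Idl.L3 hu2 hv2 hw2
  have h4 := L3_div hMR hM0 h1
  have h5 := h.comb hidl hl hm h4
  have h6 := h.swap.comb hidl hl' hm' (i := j) (j := i) (by rw [mul_comm]; exact h4)
  refine ⟨a, a', ha, ha', hu2, hv2, hw2, (m' * j + i) + (m * i + j), ?_, ?_⟩
  · rw [pow_add, mul_comm (x ^ (m' * j + i))]
    exact hidl.mul _ (R.pow_mem h.ec.hx _) _ h6
  · rw [pow_add]
    exact hidl.mul _ (R.pow_mem h.ec.hy _) _ h5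

theorem zpow_raise {z l : F} {L : AddSubgroup F} (hL : ∀ r ∈ R, ∀ l ∈ L, r * l ∈ L) (hz : z ∈ R)
    (hz0 : z ≠ 0) {i : ℤ} (h : z ^ i * l ∈ L) : ∃ n : ℕ, z ^ n * l ∈ L := by
  obtain ⟨n, hn⟩ := Int.eq_ofNat_of_zero_le (abs_nonneg i)
  rcases le_total 0 i with hi | hi
  · obtain ⟨n, rfl⟩ := Int.eq_ofNat_of_zero_le hi
    exact ⟨n, by rwa [zpow_natCast] at h⟩
  · obtain ⟨n, hn⟩ := Int.eq_ofNat_of_zero_le (neg_nonneg.mpr hi)
    refine ⟨0, ?_⟩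
    have h1 := hL _ (R.pow_mem hz n) _ h
    have h2 : z ^ n * (z ^ i * l) = z ^ 0 * l := by
      have h3 : i = -(n : ℤ) := by omega
      rw [h3, zpow_neg, zpow_natCast, ← mul_assoc, mul_inv_cancel₀ (pow_ne_zero _ hz0), pow_zero]
    rwa [h2] at h1

/-- **Finite colength.** -/
theorem Lr.fc (h : Lr p W R x y Dx Dy) {cx cy : Option A} (hu : Pb R cx cy x y u)
    (hv : Pb R cx cy x y v) (hw : Pb R cx cy x y w)
    (h1 : ∃ i j : ℤ, x ^ i * y ^ j ∈ L3 R u v w)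
    (h2 : cx = none → ∃ j : ℤ, y ^ j ∈ L3 R u v w)
    (h3 : cy = none → ∃ i : ℤ, x ^ i ∈ L3 R u v w) :
    ∃ al be : ℤ, (cx = none → al = 0) ∧ (cy = none → be = 0) ∧ u / (x ^ al * y ^ be) ∈ R ∧
      v / (x ^ al * y ^ be) ∈ R ∧ w / (x ^ al * y ^ be) ∈ R ∧ ∃ m : ℕ,
      x ^ m ∈ L3 R (u / (x ^ al * y ^ be)) (v / (x ^ al * y ^ be)) (w / (x ^ al * y ^ be)) ∧
      y ^ m ∈ L3 R (u / (x ^ al * y ^ be)) (v / (x ^ al * y ^ be)) (w / (x ^ al * y ^ be)) := by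
  have hx0 := h.ec.x0
  have hy0 := h.ec.y0
  obtain ⟨i₁, j₁, hi₁, hj₁, hu'⟩ := hu
  obtain ⟨i₂, j₂, hi₂, hj₂, hv'⟩ := hv
  obtain ⟨i₃, j₃, hi₃, hj₃, hw'⟩ := hw
  set i₀ := i₁ + i₂ + i₃ with hi₀
  set j₀ := j₁ + j₂ + j₃ with hj₀
  have hi0 : cx = none → i₀ = 0 := fun hc => by
    have := hi₁ hc
    have := hi₂ hc
    have := hi₃ hc
    omega
  have hj0 : cy = none → j₀ = 0 := fun hc => by
    have := hj₁ hc
    have := hj₂ hc
    have := hj₃ hc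
    omega
  have hu2 := Pb.raise (cx := cx) (cy := cy) h.ec.hx h.ec.hy (i' := i₀) (j' := j₀) (by omega)
    (by omega) hu'
  have hv2 := Pb.raise (cx := cx) (cy := cy) h.ec.hx h.ec.hy (i' := i₀) (j' := j₀) (by omega)
    (by omega) hv'
  have hw2 := Pb.raise (cx := cx) (cy := cy) h.ec.hx h.ec.hy (i' := i₀) (j' := j₀) (by omega)
    (by omega) hw'
  set M := x ^ i₀ * y ^ j₀ with hM
  have hM0 : M ≠ 0 := mul_ne_zero (pow_ne_zero _ hx0) (pow_ne_zero _ hy0)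
  have hLm : ∀ r ∈ R, ∀ l ∈ L3 R (M * u) (M * v) (M * w), r * l ∈ L3 R (M * u) (M * v) (M * w) :=
    fun r hr l hl => L3_mul hr hl
  have h1' : ∃ i j : ℕ, x ^ i * y ^ j ∈ L3 R (M * u) (M * v) (M * w) := by
    obtain ⟨i, j, h4⟩ := h1
    have h5 := L3_smul (M := M) h4
    have h6 : M * (x ^ i * y ^ j) = x ^ ((i₀ : ℤ) + i) * (y ^ ((j₀ : ℤ) + j) * 1) := by
      rw [zpow_add₀ hx0, zpow_add₀ hy0, zpow_natCast, zpow_natCast, hM]; ring
    rw [h6] at h5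
    obtain ⟨n, h7⟩ := zpow_raise hLm h.ec.hx hx0 h5
    have h8 : x ^ n * (y ^ ((j₀ : ℤ) + j) * 1) = y ^ ((j₀ : ℤ) + j) * x ^ n := by ring
    rw [h8] at h7
    obtain ⟨n', h9⟩ := zpow_raise hLm h.ec.hy hy0 h7
    exact ⟨n, n', by rw [mul_comm (x ^ n)]; exact h9⟩
  obtain ⟨i, j, h4⟩ := h1'
  have hbx : cx.isSome = false → cx = none := fun hc => by
    cases cx with
    | none => rfl
    | some a => cases hc
  have hby : cy.isSome = false → cy = none := fun hc => by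
    cases cy with
    | none => rfl
    | some a => cases hc
  obtain ⟨a, a', ha, ha', hu3, hv3, hw3, m, hm1, hm2⟩ := h.fc0 cx.isSome cy.isSome hu2 hv2 hw2 h4
    (fun hc => by
      obtain ⟨j, h5⟩ := h2 (hbx hc)
      have h6 := L3_smul (M := M) h5
      have h7 : M * y ^ j = y ^ ((j₀ : ℤ) + j) * 1 := by
        rw [zpow_add₀ hy0, zpow_natCast, hM, hi0 (hbx hc)]; ring
      rw [h7] at h6
      obtain ⟨n, h8⟩ := zpow_raise hLm h.ec.hy hy0 h6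
      exact ⟨n, by rwa [mul_one] at h8⟩)
    (fun hc => by
      obtain ⟨j, h5⟩ := h3 (hby hc)
      have h6 := L3_smul (M := M) h5
      have h7 : M * x ^ j = x ^ ((i₀ : ℤ) + j) * 1 := by
        rw [zpow_add₀ hx0, zpow_natCast, hM, hj0 (hby hc)]; ring
      rw [h7] at h6
      obtain ⟨n, h8⟩ := zpow_raise hLm h.ec.hx hx0 h6
      exact ⟨n, by rwa [mul_one] at h8⟩)
  have e1 : ∀ c : F, M * c / (x ^ a * y ^ a') = c / (x ^ ((a : ℤ) - i₀) * y ^ ((a' : ℤ) - j₀)) := by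
    intro c
    rw [zpow_sub₀ hx0, zpow_sub₀ hy0, zpow_natCast, zpow_natCast, zpow_natCast, zpow_natCast, hM]
    field_simp
  rw [e1] at hu3 hv3 hw3
  rw [e1, e1, e1] at hm1 hm2
  refine ⟨(a : ℤ) - i₀, (a' : ℤ) - j₀, fun hc => ?_, fun hc => ?_, hu3, hv3, hw3, m, hm1, hm2⟩
  · have h5 := hi0 hc
    have h6 := ha (by rw [hc]; rfl)
    omega
  · have h5 := hj0 hc
    have h6 := ha' (by rw [hc]; rfl)
    omega

end Fc0

end Pool.Agent.H96.S
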