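import Pool.Agent.H96.S.GB
import Pool.Agent.H96.W4.Glob4

/-!
# Models of covers of products
-/

set_option autoImplicit false
set_option linter.unusedSectionVars false

namespace Pool.Agent.H96.S

open MvPolynomial IsLocalRing Pool.Agent.H96.Reg Pool.Agent.H96.VL Pool.Agent.H96.W
open Pool.Agent.H96.W2 (BX mem_BX zero_mem_BX resK compat_resK CompatA)
open scoped Pointwise

variable {p : ℕ} [Fact p.Prime] {b : Bool} {K : Type} [Field K] [Algebra (ZMod p) K]
  {I : Type} [Fintype I] [DecidableEq I] {F : I → Type} [∀ i, Field (F i)]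
  [∀ i, Algebra (ZMod p) (F i)] [∀ i, Algebra (F i) K]
  [∀ i, IsScalarTower (ZMod p) (F i) K] {A J : I → Type} [∀ i, Fintype (A i)]
  [∀ i, DecidableEq (A i)] {d : I → ℕ} {on : I → Bool} {r M : ℕ}

variable {G : GD p b K I F A J d on r M} {V : ValuationSubring K} {R : Subring K}

/-- The ring of the chart. -/
theorem base_vloc (fl : G.Fls V) {M' : ℕ} {C : Cone (Ix A r)} (h : Cx (G.toLD fl) M' C) :
    Base fl (vloc V (Algebra.adjoin ℤ
      (Set.range (Sum.elim (fun j => mon (G.toLD fl).τ (C.b j)) (G.toLD fl).Y)))) := by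
  set L := G.toLD fl with hL
  set B := Algebra.adjoin ℤ (Set.range (Sum.elim (fun j => mon L.τ (C.b j)) L.Y)) with hB
  have hτ0 : ∀ α, L.τ α ≠ 0 := L.τ_ne_zero h.hex
  have hR : VLocal V (vloc V B) := by
    apply vlocal_vloc
    apply adjoin_val_le
    rintro _ ⟨j | l, rfl⟩
    · exact h.hb j
    · exact L.vY h.hex l
  have hbR : ∀ j, mon L.τ (C.b j) ∈ vloc V B := fun j =>
    subset_vloc (Algebra.subset_adjoin ⟨Sum.inl j, rfl⟩)
  have hYR : ∀ l, L.Y l ∈ vloc V B := fun l =>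
    subset_vloc (Algebra.subset_adjoin ⟨Sum.inr l, rfl⟩)
  have hk : ∀ c : ZMod p, algebraMap (ZMod p) K c ∈ vloc V B := by
    intro c
    obtain ⟨n, rfl⟩ := ZMod.intCast_surjective c
    rw [map_intCast]
    exact intCast_mem _ n
  have hpoly : ∀ i (P : MvPolynomial (Va (L.n i) (d i)) (ZMod p)),
      aeval (L.y i) P ∈ vloc V B := by
    intro i P
    induction P using MvPolynomial.induction_on with
    | C a => rw [aeval_C]; exact hk a
    | add P Q hP hQ => rw [map_add]; exact Subring.add_mem _ hP hQ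
    | mul_X P b hP => rw [map_mul, aeval_X]; exact Subring.mul_mem _ hP (hYR (Sum.inl ⟨i, b⟩))
  have hmon : ∀ u : Ix A r → ℤ, (∀ j, 0 ≤ C.r j ⬝ᵥ u) → mon L.τ u ∈ vloc V B := by
    intro u hu
    refine h.hC.mem (Q := {u | mon L.τ u ∈ vloc V B}) (fun u hu v hv => ?_) ?_ hbR hu
    · show mon L.τ (u + v) ∈ vloc V B
      rw [mon_add hτ0]
      exact Subring.mul_mem _ hu hv
    · show mon L.τ 0 ∈ vloc V B
      rw [mon_zero]; exact Subring.one_mem _
  refine ⟨hR, fun i w hw => ?_, hYR (Sum.inr ()), fun j hj => ?_, fun α => ?_⟩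
  · obtain ⟨a, s, h1, h2⟩ := (fl i).gen w hw
    have h3 : algebraMap (F i) K w = aeval (L.y i) a / aeval (L.y i) s := by
      rw [h2, map_div₀, ← aeval_am, ← aeval_am]
      rfl
    rw [h3]
    refine hR.div_mem (hpoly i a) (hpoly i s) ?_
    show V.valuation (aeval (fun s => algebraMap (F i) K ((fl i).y s)) s) = 1
    rw [aeval_am]
    exact wv_eq_one.mp h1
  · -- the quotient is a monomial of constant sign
    obtain ⟨u, hu, hu'⟩ : ∃ u ∈ BX (Ix A r) M', mon L.τ u = L.tt j := by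
      cases j with
      | none => exact ⟨0, zero_mem_BX, by rw [mon_zero, L.tt_none]⟩
      | some i => exact ⟨LD.ex i L.β, ex_mem h L.βM i, by rw [L.mon_ex, L.tt_some]⟩
    have h1 : mon L.τ (u - LD.Ez A r M) = L.tt j / L.ω := by
      rw [mon_sub hτ0, hu', L.mon_Ez]
    have h2 : V.valuation (mon L.τ (u - LD.Ez A r M)) ≤ 1 := by
      rw [h1, map_div₀]
      have h3 : 0 < V.valuation L.ω := by rw [Valuation.pos_iff]; exact L.ω_ne_zero h.hex
      exact (div_le_one₀ h3).mpr (L.vtt_le_ω hj)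
    rw [← h1]
    rcases h.hS _ hu _ (Ez_mem h) with h3 | h3
    · exact hmon _ h3
    · have h4 := hmon _ h3
      rw [mon_neg] at h4
      have h5 : V.valuation (mon L.τ (u - LD.Ez A r M))⁻¹ = 1 := by
        apply le_antisymm (hR.le _ h4)
        rw [map_inv₀]
        refine (one_le_inv₀ ?_).mpr h2
        rw [Valuation.pos_iff]
        exact mon_ne_zero hτ0 _
      have h6 := hR.inv _ h4 h5
      rwa [inv_inv] at h6
  · rw [← mon_single (τ := L.τ) (Sum.inr α)]
    refine hmon _ fun j => ?_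
    rw [dotProduct_single_one]
    exact h.hC.pos _ _

/-- The fields of the factors. -/
theorem F_mem (fl : G.Fls V) {E : Subring K} (hinv : ∀ x ∈ E, x ≠ 0 → x⁻¹ ∈ E) (i : I)
    (h : ∀ w ∈ (fl i).R, algebraMap (F i) K w ∈ E) (w : F i) : algebraMap (F i) K w ∈ E := by
  obtain ⟨a, ha, s, hs, hs0, rfl⟩ := (fl i).fr w
  rw [map_div₀, div_eq_mul_inv]
  exact E.mul_mem (h a ha) (hinv _ (h s hs) ((map_ne_zero _).mpr hs0))

/-- The field is generated by the chart. -/
theorem isAlgebraic_chart (fl : G.Fls V) {C : Cone (Ix A r)} (hC : IsCone C) :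
    Algebra.IsAlgebraic (Algebra.adjoin (ZMod p)
      (Set.range (Sum.elim (fun j => mon (G.toLD fl).τ (C.b j)) (G.toLD fl).Y))) K := by
  set L := G.toLD fl with hL
  set X := Set.range (Sum.elim (fun j => mon L.τ (C.b j)) L.Y) with hX
  set E := (Subfield.closure X) with hE
  have hτ0 : ∀ α, L.τ α ≠ 0 := L.τ_ne_zero G.hex
  have hbR : ∀ j, mon L.τ (C.b j) ∈ E := fun j => Subfield.subset_closure ⟨Sum.inl j, rfl⟩
  have hYR : ∀ l, L.Y l ∈ E := fun l => Subfield.subset_closure ⟨Sum.inr l, rfl⟩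
  have hk : ∀ a : ZMod p, algebraMap (ZMod p) K a ∈ E := by
    intro c
    obtain ⟨n, rfl⟩ := ZMod.intCast_surjective c
    rw [map_intCast]
    exact intCast_mem _ n
  have hpoly : ∀ i (P : MvPolynomial (Va (L.n i) (d i)) (ZMod p)), aeval (L.y i) P ∈ E := by
    intro i P
    induction P using MvPolynomial.induction_on with
    | C a => rw [aeval_C]; exact hk a
    | add P Q hP hQ => rw [map_add]; exact E.add_mem hP hQ
    | mul_X P b hP => rw [map_mul, aeval_X]; exact E.mul_mem hP (hYR (Sum.inl ⟨i, b⟩))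
  have hF1 : ∀ i, ∀ w ∈ (fl i).R, algebraMap (F i) K w ∈ E.toSubring := by
    intro i w hw
    obtain ⟨a, s, -, h2⟩ := (fl i).gen w hw
    have h3 : algebraMap (F i) K w = aeval (L.y i) a / aeval (L.y i) s := by
      rw [h2, map_div₀, ← aeval_am, ← aeval_am]
      rfl
    rw [h3]
    exact E.div_mem (hpoly i a) (hpoly i s)
  have hF : ∀ i (w : F i), algebraMap (F i) K w ∈ E := fun i w =>
    F_mem (E := E.toSubring) fl (fun x hx _ => E.inv_mem hx) i (hF1 i) w
  have hτ : ∀ α, L.τ α ∈ E := by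
    intro α
    rw [← mon_single (τ := L.τ) α]
    refine hC.mem (Q := {u | mon L.τ u ∈ E}) (fun u hu v hv => ?_) ?_ hbR (fun j => ?_)
    · show mon L.τ (u + v) ∈ E
      rw [mon_add hτ0]
      exact E.mul_mem hu hv
    · show mon L.τ 0 ∈ E
      rw [mon_zero]; exact E.one_mem
    · rw [dotProduct_single_one]
      exact hC.pos _ _
  have hpt : L.pt ∈ E := by
    refine prod_mem fun i _ => prod_mem fun a _ => ?_
    exact E.zpow_mem (hτ (Sum.inl ⟨i, a⟩)) _
  have hz' : L.z ∈ E := by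
    have h3 : L.ω ∈ E := by
      have h4 := E.div_mem (hτ (Sum.inr (Sum.inl ()))) hpt
      rwa [L.τ_z, mul_div_cancel_right₀ _ L.pt_ne_zero] at h4
    rw [← L.Y_mul G.hex]
    exact E.mul_mem (hYR (Sum.inr ())) h3
  have hz : G.z ∈ E := by
    have h1 : L.z = G.z - ∑ i, algebraMap (F i) K ((G.fd i).q (sg fl i)) := rfl
    have h3 : G.z = L.z + ∑ i, algebraMap (F i) K ((G.fd i).q (sg fl i)) := by
      rw [h1, sub_add_cancel]
    rw [h3]
    exact E.add_mem hz' (sum_mem fun i _ => hF i _)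
  have hw : ∀ c, G.w c ∈ E := by
    intro c
    have h3 := E.div_mem (hτ (Sum.inr (Sum.inr c))) hpt
    rwa [L.τ_w, mul_div_cancel_right₀ _ L.pt_ne_zero] at h3
  have htop := G.gen E.toSubring (fun x hx _ => E.inv_mem hx) hF hz hw
  have hE' : E = ⊤ := by
    rw [eq_top_iff]
    intro x _
    have : x ∈ E.toSubring := by rw [htop]; trivial
    exact this
  have hcl : Subfield.closure (Algebra.adjoin ℤ X : Set K) = ⊤ := by
    rw [eq_top_iff, ← hE', hE]
    exact Subfield.closure_mono Algebra.subset_adjoin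
  have hfr := isFractionRing_of_closure _ hcl
  have halg : Algebra.IsAlgebraic (Algebra.adjoin ℤ X) K :=
    IsLocalization.isAlgebraic K (nonZeroDivisors (Algebra.adjoin ℤ X))
  have hle : ∀ x ∈ Algebra.adjoin ℤ X, x ∈ Algebra.adjoin (ZMod p) X := by
    intro x hx
    exact adjoin_le_of (R := (Algebra.adjoin (ZMod p) X).toSubring)
      (fun x hx => Algebra.subset_adjoin hx) x hx
  let j : Algebra.adjoin ℤ X →+* Algebra.adjoin (ZMod p) X :=
    { toFun := fun x => ⟨x, hle _ x.2⟩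
      map_one' := rfl
      map_mul' := fun _ _ => rfl
      map_zero' := rfl
      map_add' := fun _ _ => rfl }
  let i1 : Algebra (Algebra.adjoin ℤ X) (Algebra.adjoin (ZMod p) X) := j.toAlgebra
  have i2 : IsScalarTower (Algebra.adjoin ℤ X) (Algebra.adjoin (ZMod p) X) K :=
    IsScalarTower.of_algebraMap_eq fun x => rfl
  exact Algebra.IsAlgebraic.extendScalars (R := Algebra.adjoin ℤ X) (fun x y hxy =>
    Subtype.ext (congrArg (fun z : Algebra.adjoin (ZMod p) X => (z : K)) hxy))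

/-- **Models of covers of products.** -/
theorem GD.hasCharts (G : GD p b K I F A J d on r M) [∀ i, Finite (J i)]
    (htr : ((∑ i, d i : ℕ) : Cardinal.{0}) ≤ Algebra.trdeg (ZMod p) K) :
    Pool.Agent.H19.OG.HasCharts K := by
  classical
  let _ : ∀ i, Fintype (J i) := fun i => Fintype.ofFinite (J i)
  set M' : ℕ := max (p * M) (max p (Finset.univ.sup fun c =>
    max (G.Nw c) (G.Nw c * M))) with hM'
  obtain ⟨𝒞, Ls, hE, hSgn⟩ := exists_eng (ι := Ix A r)
    (Finset.image₂ (fun u v => u - v) (BX (Ix A r) M') (BX (Ix A r) M'))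
  have hLs : ∀ S ∈ Ls, S.Nonempty := by
    intro S hS
    obtain ⟨C, hC, h1, h2, h3⟩ := hE.cov Set.univ ⟨fun _ _ _ _ => trivial, fun _ => Or.inl trivial,
      fun _ => trivial⟩
    obtain ⟨u, hu, -⟩ := h3 Set.univ ⟨fun _ h => h, fun _ _ _ _ => trivial, trivial,
      fun _ => trivial, fun _ _ _ => trivial⟩ (fun _ => trivial) S hS
    exact ⟨u, hu⟩
  set ε : Ix A r → ℤ := fun _ => 1 with hε
  have hε1 : ∀ α, ε α = 1 ∨ ε α = -1 := fun α => Or.inl rfl
  set sL : Ix A r → Finset K := fun α => G.sP (G.mL α) with hsL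
  set 𝔖 : Finset (Finset K) := (Finset.univ.biUnion fun i => (G.fd i).base.image
      (fun s => s.image (algebraMap (F i) K))) ∪ ({G.sC} ∪
      (Finset.univ.image fun α => G.ss (Sum.inr α) ∪ sL (Sum.inr α))) ∪
      Ls.toFinset.image (eset G.ss sL ε) with h𝔖
  have hm1 : ∀ i, ∀ s ∈ (G.fd i).base, s.image (algebraMap (F i) K) ∈ 𝔖 := by
    intro i s hs
    exact Finset.mem_union_left _ (Finset.mem_union_left _ (Finset.mem_biUnion.mpr
      ⟨i, Finset.mem_univ _, Finset.mem_image_of_mem _ hs⟩))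
  have hm2 : G.sC ∈ 𝔖 := Finset.mem_union_left _ (Finset.mem_union_right _
    (Finset.mem_union_left _ (Finset.mem_singleton_self _)))
  have hm2' : ∀ α, G.ss (Sum.inr α) ∪ G.sP (G.mL (Sum.inr α)) ∈ 𝔖 := fun α =>
    Finset.mem_union_left _ (Finset.mem_union_right _
      (Finset.mem_union_right _ (Finset.mem_image.mpr ⟨α, Finset.mem_univ _, rfl⟩)))
  have hm3 : ∀ S ∈ Ls, eset G.ss sL ε S ∈ 𝔖 := fun S hS => Finset.mem_union_right _
    (Finset.mem_image_of_mem _ (List.mem_toFinset.mpr hS))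
  have hcase : ∀ s ∈ 𝔖, (∃ i, ∃ s' ∈ (G.fd i).base, s = s'.image (algebraMap (F i) K)) ∨
      s = G.sC ∨ (∃ α, s = G.ss (Sum.inr α) ∪ G.sP (G.mL (Sum.inr α))) ∨
      ∃ S ∈ Ls, s = eset G.ss sL ε S := by
    intro s hs
    rcases Finset.mem_union.mp hs with hs | hs
    · rcases Finset.mem_union.mp hs with hs | hs
      · obtain ⟨i, -, hs⟩ := Finset.mem_biUnion.mp hs
        obtain ⟨s', hs', rfl⟩ := Finset.mem_image.mp hs
        exact Or.inl ⟨i, s', hs', rfl⟩
      · rcases Finset.mem_union.mp hs with hs | hs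
        · exact Or.inr (Or.inl (Finset.mem_singleton.mp hs))
        · obtain ⟨c, -, rfl⟩ := Finset.mem_image.mp hs
          exact Or.inr (Or.inr (Or.inl ⟨c, rfl⟩))
    · obtain ⟨S, hS, rfl⟩ := Finset.mem_image.mp hs
      exact Or.inr (Or.inr (Or.inr ⟨S, List.mem_toFinset.mp hS, rfl⟩))
  -- the local data
  have hfl : ∀ V : ValuationSubring K, ∃ fl : G.Fls V,
      (∀ i, ∀ s ∈ (G.fd i).base, Prin (fl i).R s) ∧
      ∀ i, ∀ R' : Subring (F i), VLocal (WV V (F i)) R' →
        (∀ s ∈ (G.fd i).base, Prin R' s) → (fl i).R ≤ R' := by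
    intro V
    choose fl h1 h2 using fun i => (G.fd i).loc (WV V (F i))
    exact ⟨fl, h1, h2⟩
  obtain ⟨fl₀, hfl₀, hmin₀⟩ := hfl (⊤ : ValuationSubring K)
  have hself := base_self fl₀
  have hne : ∀ {s : Finset K} {T : K}, Gen (⊤ : ValuationSubring K).toSubring s T →
      ∃ g ∈ s, g ≠ 0 := by
    intro s T h
    obtain ⟨g, hg, -, h0⟩ := h.ex
    exact ⟨g, hg, h0⟩
  refine hasCharts_of_sets 𝔖 ?_ ?_ ?_
  · intro s hs
    rcases hcase s hs with ⟨i, s', hs', rfl⟩ | rfl | ⟨α, rfl⟩ | ⟨S, hS, rfl⟩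
    · obtain ⟨g, hg, hg0⟩ := (G.fd i).base0 s' hs'
      exact ⟨_, Finset.mem_image_of_mem _ hg, (map_ne_zero _).mpr hg0⟩
    · exact hne (gen_sC fl₀ hself.b1 hself.bz hself.bt)
    · obtain ⟨g, hg, h0⟩ := hne (gen_sP fl₀ hself.b1 (G.mL (Sum.inr α)))
      exact ⟨g, Finset.mem_union_right _ hg, h0⟩
    · exact eset_ne (fun α => hne (hself.gen_ss α)) (fun α => hne (gen_sP fl₀ hself.b1 (G.mL α)))
        (hLs S hS)
  · intro R hinv hs
    have hall : ∀ x : K, (⊤ : ValuationSubring K).valuation x ≤ 1 := fun x =>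
      (ValuationSubring.valuation_le_one_iff _ _).mpr trivial
    have hR : VLocal (⊤ : ValuationSubring K) R := ⟨fun x _ => hall x, fun x hx h1 => hinv x hx (by
      rintro rfl
      rw [map_zero] at h1
      exact zero_ne_one h1)⟩
    have hb := base_of_prin fl₀ hR hmin₀ (fun i s hs' => hs _ (hm1 i s hs')) (hs _ hm2)
      fun c => hs _ (hm2' c)
    have hF : ∀ i (w : F i), algebraMap (F i) K w ∈ R := fun i w =>
      F_mem fl₀ hinv i (hb.b1 i) w
    have hpt : ((G.toLD fl₀).pt)⁻¹ ∈ R := by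
      refine hinv _ (Subring.prod_mem _ fun i _ => ?_) (G.toLD fl₀).pt_ne_zero
      rw [GD.toLD, mon_map]
      exact hF i _
    have hz' : (G.toLD fl₀).z ∈ R := by
      have hω : (G.toLD fl₀).ω ∈ R := by
        have h4 := R.mul_mem (hb.bτ (Sum.inl ())) hpt
        rwa [LD.τ_z, mul_assoc, mul_inv_cancel₀ (G.toLD fl₀).pt_ne_zero, mul_one] at h4
      rw [← (G.toLD fl₀).Y_mul G.hex]
      exact R.mul_mem hb.bz hω
    refine G.gen R hinv hF ?_ fun c => ?_
    · have h1 : (G.toLD fl₀).z = G.z - ∑ i, algebraMap (F i) K ((G.fd i).q (sg fl₀ i)) := rfl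
      have h3 : G.z = (G.toLD fl₀).z + ∑ i, algebraMap (F i) K ((G.fd i).q (sg fl₀ i)) := by
        rw [h1, sub_add_cancel]
      rw [h3]
      exact R.add_mem hz' (Subring.sum_mem _ fun i _ => hF i _)
    · have h4 := R.mul_mem (hb.bτ (Sum.inr c)) hpt
      rwa [LD.τ_w, mul_assoc, mul_inv_cancel₀ (G.toLD fl₀).pt_ne_zero, mul_one] at h4
  · intro V
    obtain ⟨fl, hfp, hfm⟩ := hfl V
    have hτ0 : ∀ α, (G.toLD fl).τ α ≠ 0 := (G.toLD fl).τ_ne_zero G.hex
    obtain ⟨C, hC𝒞, hCb, hCdet, hCprin⟩ := hE.cov _ (tot_of_val hτ0 ((G.toLD fl).vτ G.hex))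
    have hC := hE.cone C hC𝒞
    have hb : ∀ j, V.valuation (mon (G.toLD fl).τ (C.b j)) ≤ 1 := hCb
    have hCx : Cx (G.toLD fl) M' C := ⟨G.hex, hC, hb, fun u hu u' hu' => hSgn C hC𝒞 _
      (Finset.mem_image₂_of_mem hu hu'), le_max_left _ _,
      (le_max_left _ _).trans (le_max_right _ _), fun c => by
        have h1 : max (G.Nw c) (G.Nw c * M) ≤ M' := ((Finset.le_sup
          (f := fun c => max (G.Nw c) (G.Nw c * M)) (Finset.mem_univ c)).trans
          (le_max_right _ _)).trans (le_max_right _ _)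
        exact ⟨(le_max_left _ _).trans h1, (le_max_right _ _).trans h1⟩⟩
    have hbase := base_vloc fl hCx
    have hcst : ∀ c : ZMod p, V.valuation (algebraMap (ZMod p) K c) ≤ 1 := by
      intro c
      obtain ⟨n, rfl⟩ := ZMod.intCast_surjective c
      rw [map_intCast]
      exact (V.valuation_le_one_iff _).mpr (intCast_mem _ n)
    let _ : Algebra (ZMod p) (ResidueField V) := (resK (ZMod p) V hcst).toAlgebra
    refine ⟨_, hbase.loc, ?_, ?_, isRegular_local hCx (isAlgebraic_chart fl hC) htr⟩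
    · intro s hs
      rcases hcase s hs with ⟨i, s', hs', rfl⟩ | rfl | ⟨α, rfl⟩ | ⟨S', hS', rfl⟩
      · exact hbase.prin_base i (hfp i s' hs')
      · exact ⟨_, gen_sC fl hbase.b1 hbase.bz hbase.bt⟩
      · exact hbase.prin_s2 α
      · rw [prin_eset_iff hε1 hτ0 hbase.gen_ss (fun α => gen_sP fl hbase.b1 (G.mL α))]
        exact hCprin _ (loc_of_vlocal hτ0 hbase.loc hbase.τ_mem)
          (fun j => subset_vloc (Algebra.subset_adjoin ⟨Sum.inl j, rfl⟩)) S' hS'
    · intro R' hR' hs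
      have hbase' := base_of_prin fl hR' hfm (fun i s hs' => hs _ (hm1 i s hs')) (hs _ hm2)
        fun c => hs _ (hm2' c)
      apply vloc_le hR'
      apply adjoin_le_of
      rintro _ ⟨j | ⟨i, s⟩ | c, rfl⟩
      · exact hCdet _ (loc_of_vlocal hτ0 hR' hbase'.τ_mem) (fun S' hS' => by
          rw [← prin_eset_iff hε1 hτ0 hbase'.gen_ss (fun α => gen_sP fl hbase'.b1 (G.mL α))]
          exact hs _ (hm3 S' hS')) j
      · exact hbase'.b1 i _ ((fl i).yR s)
      · exact hbase'.bz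

end Pool.Agent.H96.S
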