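import Pool.Agent.H96.S.St2

/-!
# Local rings of closed points: divisibility by the coordinates
-/

set_option autoImplicit false
set_option linter.unusedSectionVars false

namespace Pool.Agent.H96.S

open Pool.Agent.H96.VL
open scoped Pointwise

/-- The local ring of a closed point with coordinates. -/
structure Lr (p : ℕ) {F : Type} [Field F] (W : ValuationSubring F) (R : Subring F) (x y : F)
    (Dx Dy : Derivation ℤ F F) : Prop where
  loc : VLocal W R
  ec : EC p R x y Dx Dy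
  pt : Pt p W R x y
  noeth : IsNoetherianRing R

section Lr

variable {p : ℕ} [hp : Fact p.Prime] {F : Type} [Field F] [CharP F p] {W : ValuationSubring F}
  {R : Subring F} {x y : F} {Dx Dy : Derivation ℤ F F}

theorem Lr.swap (h : Lr p W R x y Dx Dy) : Lr p W R y x Dy Dx := ⟨h.loc, h.ec.swap, h.pt.swap, h.noeth⟩

theorem Lr.isU (h : Lr p W R x y Dx Dy) {a : F} (ha : a ∈ R) (hv : W.valuation a = 1) : IsU R a := by
  refine ⟨?_, ha, h.loc.inv a ha hv⟩
  rintro rfl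
  rw [map_zero] at hv
  exact zero_ne_one hv

/-- Small elements are in the radical. -/
theorem mem_jac (hR : VLocal W R) {y : F} (hy : y ∈ R) (hyv : W.valuation y < 1) :
    (⟨y, hy⟩ : R) ∈ Ideal.jacobson (⊥ : Ideal R) := by
  rw [Ideal.mem_jacobson_bot]
  intro c
  have hbc : W.valuation (y * (c : F)) < 1 := by
    rw [map_mul]
    exact (mul_le_mul' le_rfl (hR.le c c.2)).trans_lt (by rw [mul_one]; exact hyv)
  have h1 : W.valuation (y * (c : F) + 1) = 1 := by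
    have h2 : W.valuation (y * (c : F)) < W.valuation 1 := by rw [map_one]; exact hbc
    rw [W.valuation.map_add_eq_of_lt_right h2, map_one]
  have h2 : (y * (c : F) + 1) ≠ 0 := by
    intro h0
    rw [h0, map_zero] at h1
    exact zero_ne_one h1
  have h3 := hR.inv _ (⟨y, hy⟩ * c + 1 : R).2 h1
  exact IsUnit.of_mul_eq_one ⟨_, h3⟩ (Subtype.ext (mul_inv_cancel₀ h2))

/-- Krull's intersection theorem. -/
theorem krull (hR : VLocal W R) (hn : IsNoetherianRing R) {x y : F} (hx : x ∈ R) (hy : y ∈ R)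
    (hyv : W.valuation y < 1) {a : F} (ha : a ∈ R)
    (h : ∀ n : ℕ, ∃ r ∈ R, ∃ s ∈ R, a = x * r + y ^ n * s) : Mul R x a := by
  let X : R := ⟨x, hx⟩
  let Y : R := ⟨y, hy⟩
  have h1 := Ideal.iInf_pow_smul_eq_bot_of_le_jacobson (M := R ⧸ Ideal.span {X}) (Ideal.span {Y})
    (by
      rw [Ideal.span_le, Set.singleton_subset_iff]
      exact mem_jac hR hy hyv)
  have h2 : (Ideal.Quotient.mk (Ideal.span {X}) ⟨a, ha⟩) ∈
      (⨅ i : ℕ, Ideal.span {Y} ^ i • ⊤ : Submodule R (R ⧸ Ideal.span {X})) := by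
    rw [Submodule.mem_iInf]
    intro n
    obtain ⟨r, hr, s, hs, h3⟩ := h n
    have h4 : (Ideal.Quotient.mk (Ideal.span {X}) ⟨a, ha⟩) =
        (Y ^ n) • (Ideal.Quotient.mk (Ideal.span {X}) ⟨s, hs⟩) := by
      have h5 : (⟨a, ha⟩ : R) = X * ⟨r, hr⟩ + Y ^ n * ⟨s, hs⟩ := Subtype.ext h3
      rw [h5, map_add, map_mul, Ideal.Quotient.eq_zero_iff_mem.mpr (Ideal.mem_span_singleton_self X),
        zero_mul, zero_add]
      rfl
    rw [h4]
    exact Submodule.smul_mem_smul (Ideal.pow_mem_pow (Ideal.mem_span_singleton_self Y) n) trivial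
  rw [h1, Submodule.mem_bot, Ideal.Quotient.eq_zero_iff_mem, Ideal.mem_span_singleton] at h2
  obtain ⟨c, hc⟩ := h2
  exact ⟨c, c.2, congrArg Subtype.val hc⟩

theorem Lr.not_x (h : Lr p W R x y Dx Dy) (m : ℕ) : ¬ Mul R x (y ^ m) := by
  intro h1
  have h2 : ∀ n m : ℕ, m ≤ n → Mul R x (y ^ m) → Mul R x (y ^ n) := by
    intro n m hnm h1
    have h3 : y ^ n = y ^ (n - m) * y ^ m := by rw [← pow_add]; congr 1; omega
    rw [h3]
    exact h1.smul (R.pow_mem h.ec.hy _)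
  have h3 : ∀ n : ℕ, Mul R x (y ^ p ^ n) → Mul R x y := by
    intro n
    induction n with
    | zero => intro h4; rwa [pow_zero, pow_one] at h4
    | succ n ih =>
      intro h4
      refine ih (h.ec.pow_mul_x ?_)
      rwa [← pow_mul, ← pow_succ]
  obtain ⟨r, hr, h4⟩ := h3 m (h2 (p ^ m) m (Nat.lt_pow_self hp.out.one_lt).le h1)
  have h5 : Dy y = x * Dy r := by
    conv_lhs => rw [h4]
    rw [Derivation.leibniz, h.ec.yx, smul_zero, add_zero, smul_eq_mul]
  rw [h.ec.yy] at h5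
  have h6 : W.valuation (1 : F) < 1 := by
    rw [h5, map_mul]
    exact (mul_le_mul' le_rfl (h.loc.le _ (h.ec.dy r hr))).trans_lt (by
      rw [mul_one]; exact h.pt.vx)
  rw [map_one] at h6
  exact lt_irrefl _ h6

/-- Elements not divisible by `x`. -/
theorem Lr.dvr (h : Lr p W R x y Dx Dy) {a : F} (ha : a ∈ R) (hna : ¬ Mul R x a) :
    ∃ (m : ℕ) (s : F), IsU R s ∧ Mul R x (a - y ^ m * s) := by
  classical
  have h1 : ∃ n : ℕ, ¬ ∃ r ∈ R, ∃ s ∈ R, a = x * r + y ^ n * s := by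
    by_contra hcon
    push Not at hcon
    exact hna (krull h.loc h.noeth h.ec.hx h.ec.hy h.pt.vy ha hcon)
  have h2 := Nat.find_spec h1
  set n := Nat.find h1 with hn
  have h0 : n ≠ 0 := by
    intro h0
    apply h2
    rw [h0]
    exact ⟨0, R.zero_mem, a, ha, by ring⟩
  obtain ⟨m, hm⟩ := Nat.exists_eq_succ_of_ne_zero h0
  have h3 := Nat.find_min h1 (m := m) (by rw [← hn, hm]; exact Nat.lt_succ_self m)
  rw [not_not] at h3
  obtain ⟨r, hr, s, hs, h4⟩ := h3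
  refine ⟨m, s, ?_, r, hr, by rw [h4]; ring⟩
  refine h.isU hs (le_antisymm (h.loc.le s hs) (not_lt.mp fun h5 => ?_))
  obtain ⟨b, hb, c, hc, h6⟩ := h.pt.max s hs h5
  apply h2
  refine ⟨r + y ^ m * b, R.add_mem hr (R.mul_mem (R.pow_mem h.ec.hy _) hb), c, hc, ?_⟩
  rw [h4, h6, hm, pow_succ]
  ring

/-- The coordinate is a prime element. -/
theorem Lr.prime (h : Lr p W R x y Dx Dy) {a b : F} (ha : a ∈ R) (hb : b ∈ R)
    (hab : Mul R x (a * b)) : Mul R x a ∨ Mul R x b := by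
  by_contra hcon
  push Not at hcon
  obtain ⟨m, s, hs, h1⟩ := h.dvr ha hcon.1
  obtain ⟨n, t, ht, h2⟩ := h.dvr hb hcon.2
  have h3 : Mul R x (y ^ (m + n) * (s * t)) := by
    have h4 : y ^ (m + n) * (s * t) = a * b - (b * (a - y ^ m * s) + y ^ m * s * (b - y ^ n * t)) := by
      rw [pow_add]; ring
    rw [h4]
    exact hab.sub ((h1.smul hb).add (h2.smul (R.mul_mem (R.pow_mem h.ec.hy _) hs.2.1)))
  have h5 := h3.smul (hs.mul ht).2.2
  have h6 := (hs.mul ht).1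
  have h7 : (s * t)⁻¹ * (y ^ (m + n) * (s * t)) = y ^ (m + n) := by
    rw [mul_comm (y ^ (m + n)), inv_mul_cancel_left₀ h6]
  rw [h7] at h5
  exact h.not_x _ h5

theorem Lr.mul_cancel (h : Lr p W R x y Dx Dy) {j : ℕ} {a : F} (ha : a ∈ R)
    (h1 : Mul R x (y ^ j * a)) : Mul R x a :=
  (h.prime (R.pow_mem h.ec.hy _) ha h1).resolve_left (h.not_x j)

/-- Divisibility by both coordinates. -/
theorem Lr.mul_both (h : Lr p W R x y Dx Dy) {j : ℕ} (i : ℕ) {a : F} (ha : a ∈ R)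
    (h1 : Mul R (x ^ i) (y ^ j * a)) : Mul R (x ^ i) a := by
  have hx0 := h.ec.x0
  induction i with
  | zero => exact ⟨a, ha, by rw [pow_zero, one_mul]⟩
  | succ i ih =>
    obtain ⟨b, hb, h2⟩ := ih (by
      obtain ⟨b, hb, h2⟩ := h1
      exact ⟨x * b, R.mul_mem h.ec.hx hb, by rw [h2, pow_succ]; ring⟩)
    obtain ⟨c, hc, h3⟩ := h1
    have h4 : y ^ j * b = x * c := by
      have h5 : x ^ i ≠ 0 := pow_ne_zero _ hx0
      apply mul_left_cancel₀ h5
      have h6 : x ^ i * (y ^ j * b) = y ^ j * (x ^ i * b) := by ring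
      rw [h6, ← h2, h3, pow_succ]
      ring
    obtain ⟨d, hd, h5⟩ := h.mul_cancel hb ⟨c, hc, h4⟩
    exact ⟨d, hd, by rw [h2, h5, pow_succ]; ring⟩

/-- Factors of monomials. -/
theorem Lr.fac (h : Lr p W R x y Dx Dy) (i j : ℕ) : ∀ {a b c : F}, a ∈ R → b ∈ R → IsU R c →
    a * b = x ^ i * y ^ j * c → ∃ i' j' : ℕ, i' ≤ i ∧ j' ≤ j ∧ ∃ d, IsU R d ∧
      a = x ^ i' * y ^ j' * d := by
  have hx0 := h.ec.x0
  have hy0 := h.ec.y0
  -- the case `i = 0`
  have key : ∀ {x y : F} {Dx Dy : Derivation ℤ F F}, Lr p W R x y Dx Dy → ∀ (i : ℕ)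
      {a b c : F}, a ∈ R → b ∈ R → Mul R (x ^ i) (a * b) → ∃ i' : ℕ, i' ≤ i ∧
      ∃ a' ∈ R, ∃ b' ∈ R, a = x ^ i' * a' ∧ b = x ^ (i - i') * b' := by
    intro x y Dx Dy h i
    have hx0 := h.ec.x0
    induction i with
    | zero => exact fun {a b c} ha hb _ => ⟨0, le_rfl, a, ha, b, hb, by simp, by simp⟩
    | succ i ih =>
      intro a b c ha hb h1
      obtain ⟨i', hi', a', ha', b', hb', h2, h3⟩ := ih (c := c) ha hb (by
        obtain ⟨e, he, h2⟩ := h1
        exact ⟨x * e, R.mul_mem h.ec.hx he, by rw [h2, pow_succ]; ring⟩)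
      obtain ⟨e, he, h4⟩ := h1
      have h5 : Mul R x (a' * b') := by
        refine ⟨e, he, ?_⟩
        have h6 : x ^ i ≠ 0 := pow_ne_zero _ hx0
        apply mul_left_cancel₀ h6
        have h7 : x ^ i * (a' * b') = a * b := by
          have h8 : x ^ i = x ^ i' * x ^ (i - i') := by rw [← pow_add]; congr 1; omega
          rw [h2, h3, h8]; ring
        rw [h7, h4, pow_succ]; ring
      rcases h.prime ha' hb' h5 with ⟨e', he', h6⟩ | ⟨e', he', h6⟩
      · refine ⟨i' + 1, by omega, e', he', b', hb', by rw [h2, h6, pow_succ]; ring, ?_⟩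
        rw [h3]
        congr 2
        omega
      · refine ⟨i', by omega, a', ha', e', he', h2, ?_⟩
        have h7 : i + 1 - i' = (i - i') + 1 := by omega
        rw [h3, h6, h7, pow_succ]; ring
  intro a b c ha hb hc hab
  obtain ⟨i', hi', a', ha', b', hb', h2, h3⟩ := key h i (c := c) ha hb
    ⟨y ^ j * c, R.mul_mem (R.pow_mem h.ec.hy _) hc.2.1, by rw [hab]; ring⟩
  have h4 : a' * b' = y ^ j * c := by
    have h6 : x ^ i ≠ 0 := pow_ne_zero _ hx0
    apply mul_left_cancel₀ h6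
    have h7 : x ^ i * (a' * b') = a * b := by
      have h8 : x ^ i = x ^ i' * x ^ (i - i') := by rw [← pow_add]; congr 1; omega
      rw [h2, h3, h8]; ring
    rw [h7, hab]; ring
  obtain ⟨j', hj', a'', ha'', b'', hb'', h5, h6⟩ := key h.swap j (c := c) ha' hb' ⟨c, hc.2.1, h4⟩
  have h7 : a'' * b'' = c := by
    have h8 : y ^ j ≠ 0 := pow_ne_zero _ hy0
    apply mul_left_cancel₀ h8
    have h9 : y ^ j * (a'' * b'') = a' * b' := by
      have h10 : y ^ j = y ^ j' * y ^ (j - j') := by rw [← pow_add]; congr 1; omega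
      rw [h5, h6, h10]; ring
    rw [h9, h4]
  refine ⟨i', j', hi', hj', a'', ⟨?_, ha'', ?_⟩, by rw [h2, h5]; ring⟩
  · rintro rfl
    rw [zero_mul] at h7
    exact hc.1 h7.symm
  · have h8 : a''⁻¹ = b'' * c⁻¹ := by
      have h9 := hc.1
      have h10 : a'' ≠ 0 := by
        rintro rfl
        rw [zero_mul] at h7
        exact h9 h7.symm
      rw [← h7] at h9 ⊢
      field_simp
      rw [div_self (right_ne_zero_of_mul h9)]
    rw [h8]
    exact R.mul_mem hb'' hc.2.2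

end Lr

section Fc

variable {p : ℕ} [hp : Fact p.Prime] {F : Type} [Field F] [CharP F p] {W : ValuationSubring F}
  {R : Subring F} {x y : F} {Dx Dy : Derivation ℤ F F} {A : Type}

/-- Multiplication by a small flagged monomial gives an element of the ring. -/
def Pb (R : Subring F) (cx cy : Option A) (x y a : F) : Prop :=
  ∃ i j : ℕ, (cx = none → i = 0) ∧ (cy = none → j = 0) ∧ x ^ i * y ^ j * a ∈ R

theorem Pb.of_mem {cx cy : Option A} {a : F} (ha : a ∈ R) : Pb R cx cy x y a :=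
  ⟨0, 0, fun _ => rfl, fun _ => rfl, by simpa using ha⟩

theorem Pb.mul {cx cy : Option A} {a b : F} (ha : Pb R cx cy x y a) (hb : Pb R cx cy x y b) :
    Pb R cx cy x y (a * b) := by
  obtain ⟨i, j, h1, h2, h3⟩ := ha
  obtain ⟨i', j', h1', h2', h3'⟩ := hb
  refine ⟨i + i', j + j', fun h => by rw [h1 h, h1' h], fun h => by rw [h2 h, h2' h], ?_⟩
  have h4 : x ^ (i + i') * y ^ (j + j') * (a * b) = x ^ i * y ^ j * a * (x ^ i' * y ^ j' * b) := by
    rw [pow_add, pow_add]; ring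
  rw [h4]
  exact R.mul_mem h3 h3'

theorem Pb.raise {cx cy : Option A} {a : F} (hx : x ∈ R) (hy : y ∈ R) {i j i' j' : ℕ}
    (hi : i ≤ i') (hj : j ≤ j') (h : x ^ i * y ^ j * a ∈ R) : x ^ i' * y ^ j' * a ∈ R := by
  have h4 : x ^ i' * y ^ j' * a = x ^ (i' - i) * y ^ (j' - j) * (x ^ i * y ^ j * a) := by
    have h5 : x ^ i' = x ^ (i' - i) * x ^ i := by rw [← pow_add]; congr 1; omega
    have h6 : y ^ j' = y ^ (j' - j) * y ^ j := by rw [← pow_add]; congr 1; omega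
    rw [h5, h6]; ring
  rw [h4]
  exact R.mul_mem (R.mul_mem (R.pow_mem hx _) (R.pow_mem hy _)) h

theorem Pb.add {cx cy : Option A} {a b : F} (hx : x ∈ R) (hy : y ∈ R) (ha : Pb R cx cy x y a)
    (hb : Pb R cx cy x y b) : Pb R cx cy x y (a + b) := by
  obtain ⟨i, j, h1, h2, h3⟩ := ha
  obtain ⟨i', j', h1', h2', h3'⟩ := hb
  refine ⟨i + i', j + j', fun h => by rw [h1 h, h1' h], fun h => by rw [h2 h, h2' h], ?_⟩
  rw [mul_add]
  exact R.add_mem (Pb.raise (cx := cx) (cy := cy) hx hy (Nat.le_add_right _ _)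
    (Nat.le_add_right _ _) h3) (Pb.raise (cx := cx) (cy := cy) hx hy (Nat.le_add_left _ _)
    (Nat.le_add_left _ _) h3')

theorem Pb.neg {cx cy : Option A} {a : F} (ha : Pb R cx cy x y a) : Pb R cx cy x y (-a) := by
  obtain ⟨i, j, h1, h2, h3⟩ := ha
  exact ⟨i, j, h1, h2, by rw [mul_neg]; exact R.neg_mem h3⟩

theorem Pb.sub {cx cy : Option A} {a b : F} (hx : x ∈ R) (hy : y ∈ R) (ha : Pb R cx cy x y a)
    (hb : Pb R cx cy x y b) : Pb R cx cy x y (a - b) := by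
  rw [sub_eq_add_neg]
  exact ha.add hx hy hb.neg

theorem Mn.mul {cx cy : Option A} {a b : F} (hx0 : x ≠ 0) (hy0 : y ≠ 0) (ha : Mn R cx cy x y a)
    (hb : Mn R cx cy x y b) : Mn R cx cy x y (a * b) := by
  obtain ⟨i, j, h1, h2, c, hc, hc', h0, rfl⟩ := ha
  obtain ⟨i', j', h1', h2', c', hd, hd', h0', rfl⟩ := hb
  have h3 : IsU R (c * c') := IsU.mul ⟨h0, hc, hc'⟩ ⟨h0', hd, hd'⟩
  refine ⟨i + i', j + j', fun h => by rw [h1 h, h1' h, add_zero], fun h => by
    rw [h2 h, h2' h, add_zero], c * c', h3.2.1, h3.2.2, h3.1, ?_⟩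
  rw [zpow_add₀ hx0, zpow_add₀ hy0]; ring

theorem Mn.inv {cx cy : Option A} {a : F} (ha : Mn R cx cy x y a) : Mn R cx cy x y a⁻¹ := by
  obtain ⟨i, j, h1, h2, c, hc, hc', h0, rfl⟩ := ha
  refine ⟨-i, -j, fun h => by rw [h1 h, neg_zero], fun h => by rw [h2 h, neg_zero], c⁻¹, hc',
    by rwa [inv_inv], inv_ne_zero h0, ?_⟩
  rw [mul_inv, mul_inv, zpow_neg, zpow_neg]

theorem Mn.ne {cx cy : Option A} {a : F} (hx0 : x ≠ 0) (hy0 : y ≠ 0) (ha : Mn R cx cy x y a) :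
    a ≠ 0 := by
  obtain ⟨i, j, h1, h2, c, hc, hc', h0, rfl⟩ := ha
  exact mul_ne_zero (mul_ne_zero (zpow_ne_zero _ hx0) (zpow_ne_zero _ hy0)) h0

theorem Mn.of_isU {cx cy : Option A} {a : F} (ha : IsU R a) : Mn R cx cy x y a :=
  ⟨0, 0, fun _ => rfl, fun _ => rfl, a, ha.2.1, ha.2.2, ha.1, by simp⟩

theorem Mn.pow {cx cy : Option A} {a : F} (hx0 : x ≠ 0) (hy0 : y ≠ 0) (ha : Mn R cx cy x y a)
    (n : ℕ) : Mn R cx cy x y (a ^ n) := by
  induction n with
  | zero => rw [pow_zero]; exact Mn.of_isU IsU.one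
  | succ n ih => rw [pow_succ]; exact ih.mul hx0 hy0 ha

theorem Mn.zpow {cx cy : Option A} {a : F} (hx0 : x ≠ 0) (hy0 : y ≠ 0) (ha : Mn R cx cy x y a)
    (n : ℤ) : Mn R cx cy x y (a ^ n) := by
  obtain ⟨m, rfl | rfl⟩ := n.eq_nat_or_neg
  · rw [zpow_natCast]; exact ha.pow hx0 hy0 m
  · rw [zpow_neg, zpow_natCast]; exact (ha.pow hx0 hy0 m).inv

theorem Mn.of_un {cx cy : Option A} {a b : F} (h : Un R a b) (hb : Mn R cx cy x y b) :
    Mn R cx cy x y a := by
  have h1 : IsU R (a / b) := ⟨div_ne_zero h.a0 h.b0, h.ab, by rw [inv_div]; exact h.ba⟩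
  have h2 : a = a / b * b := by rw [div_mul_cancel₀ _ h.b0]
  rw [h2]
  exact hb.mul_unit h1

theorem Mn.pb {cx cy : Option A} {a : F} (hx : x ∈ R) (hy : y ∈ R) (hx0 : x ≠ 0) (hy0 : y ≠ 0)
    (ha : Mn R cx cy x y a) : Pb R cx cy x y a := by
  obtain ⟨i, j, h1, h2, c, hc, hc', h0, rfl⟩ := ha
  refine ⟨i.natAbs, j.natAbs, fun h => by rw [h1 h]; rfl, fun h => by rw [h2 h]; rfl, ?_⟩
  have key : ∀ (z : F), z ∈ R → z ≠ 0 → ∀ i : ℤ, z ^ i.natAbs * z ^ i ∈ R := by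
    intro z hz hz0 i
    rcases le_total 0 i with hi | hi
    · obtain ⟨n, rfl⟩ := Int.eq_ofNat_of_zero_le hi
      rw [Int.natAbs_natCast, zpow_natCast]
      exact R.mul_mem (R.pow_mem hz _) (R.pow_mem hz _)
    · obtain ⟨n, hn⟩ := Int.eq_ofNat_of_zero_le (neg_nonneg.mpr hi)
      have h3 : i = -(n : ℤ) := by omega
      rw [h3, Int.natAbs_neg, Int.natAbs_natCast, zpow_neg, zpow_natCast,
        mul_inv_cancel₀ (pow_ne_zero _ hz0)]
      exact R.one_mem
  have h4 : x ^ i.natAbs * y ^ j.natAbs * (x ^ i * y ^ j * c) =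
      x ^ i.natAbs * x ^ i * (y ^ j.natAbs * y ^ j) * c := by ring
  rw [h4]
  exact R.mul_mem (R.mul_mem (key x hx hx0 i) (key y hy hy0 j)) hc

/-- **Flagged monomials.** -/
theorem Lr.mn_of (h : Lr p W R x y Dx Dy) {cx cy : Option A} {a : F} (h0 : a ≠ 0)
    (h1 : Pb R cx cy x y a) (h2 : Pb R cx cy x y a⁻¹) : Mn R cx cy x y a := by
  obtain ⟨i, j, hi, hj, h3⟩ := h1
  obtain ⟨i', j', hi', hj', h3'⟩ := h2
  have hx0 := h.ec.x0
  have hy0 := h.ec.y0
  obtain ⟨k, l, hk, hl, d, hd, h4⟩ := h.fac (i + i') (j + j') h3 h3' IsU.one (by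
    rw [pow_add, pow_add]
    field_simp)
  refine ⟨k - i, l - j, fun hc => ?_, fun hc => ?_, d, hd.2.1, hd.2.2, hd.1, ?_⟩
  · have := hi hc
    have := hi' hc
    omega
  · have := hj hc
    have := hj' hc
    omega
  · rw [zpow_sub₀ hx0, zpow_sub₀ hy0, zpow_natCast, zpow_natCast, zpow_natCast, zpow_natCast]
    field_simp
    linear_combination h4

end Fc

end Pool.Agent.H96.S
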