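import Pool.Agent.H96.S.Ply
import Pool.Agent.H96.S.Lr

/-!
# Rational function fields in two variables
-/

set_option autoImplicit false
set_option linter.unusedSectionVars false

namespace Pool.Agent.H96.S

open Polynomial Pool.Agent.H96.VL

section Ev

variable {k F : Type} [Field k] [Field F] [Algebra k F]

/-- Evaluation at `(u, v)`. -/
noncomputable def ev (k : Type) {F : Type} [Field k] [Field F] [Algebra k F] (u v : F) :
    k[X][X] →+* F :=
  eval₂RingHom ((aeval u : k[X] →ₐ[k] F) : k[X] →+* F) v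

variable {u v : F}

theorem ev_C (a : k[X]) : ev k u v (C a) = aeval u a := by
  rw [ev, coe_eval₂RingHom, eval₂_C]; rfl

theorem ev_X : ev k u v X = v := by rw [ev, coe_eval₂RingHom, eval₂_X]

theorem ev_CX : ev k u v (C X) = u := by rw [ev_C, aeval_X]

theorem ev_CC (c : k) : ev k u v (C (C c)) = algebraMap k F c := by rw [ev_C, aeval_C]

theorem ev_swap (a : k[X][X]) : ev k u v (Bivariate.swap (R := k) a) = ev k v u a := by
  have h1 : (ev k u v).comp (Bivariate.swap (R := k) : k[X][X] →+* k[X][X]) = ev k v u := by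
    apply Polynomial.ringHom_ext
    · intro a
      have h2 : (ev k u v).comp ((Bivariate.swap (R := k) : k[X][X] →+* k[X][X]).comp C) =
          (ev k v u).comp C := by
        apply Polynomial.ringHom_ext
        · intro c
          show ev k u v (Bivariate.swap (R := k) (C (C c))) = ev k v u (C (C c))
          rw [Bivariate.swap_C_C, ev_CC, ev_CC]
        · show ev k u v (Bivariate.swap (R := k) (C X)) = ev k v u (C X)
          rw [Bivariate.swap_X, ev_X, ev_CX]
      exact RingHom.congr_fun h2 a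
    · show ev k u v (Bivariate.swap (R := k) X) = ev k v u X
      rw [Bivariate.swap_Y, ev_X, ev_CX]
  exact RingHom.congr_fun h1 a

/-- Closure under the operations. -/
theorem ev_mem (S : Subring F) (hk : ∀ c : k, algebraMap k F c ∈ S) (hu : u ∈ S) (hv : v ∈ S)
    (a : k[X][X]) : ev k u v a ∈ S := by
  induction a using Polynomial.induction_on' with
  | add a b ha hb => rw [map_add]; exact S.add_mem ha hb
  | monomial n a =>
    rw [← C_mul_X_pow_eq_monomial, map_mul, map_pow, ev_X, ev_C]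
    refine S.mul_mem ?_ (S.pow_mem hv _)
    induction a using Polynomial.induction_on' with
    | add a b ha hb => rw [map_add]; exact S.add_mem ha hb
    | monomial m c =>
      rw [← C_mul_X_pow_eq_monomial, map_mul, map_pow, aeval_X, aeval_C]
      exact S.mul_mem (hk c) (S.pow_mem hu _)

end Ev

/-- `F` is the field of rational functions in `u` and `v` over `k`. -/
structure Gn (k : Type) {F : Type} [Field k] [Field F] [Algebra k F] (u v : F) : Prop where
  inj : Function.Injective (ev k u v)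
  gen : ∀ w : F, ∃ a b : k[X][X], b ≠ 0 ∧ w = ev k u v a / ev k u v b

section Gn

variable {k F : Type} [Field k] [Field F] [Algebra k F] {u v : F}

theorem Gn.ne (h : Gn k u v) {a : k[X][X]} (ha : a ≠ 0) : ev k u v a ≠ 0 := by
  intro h1
  rw [← map_zero (ev k u v)] at h1
  exact ha (h.inj h1)

theorem Gn.u0 (h : Gn k u v) : u ≠ 0 := by
  have h1 := h.ne (a := C X) (by rw [Ne, C_eq_zero]; exact X_ne_zero)
  rwa [ev_CX] at h1

theorem Gn.v0 (h : Gn k u v) : v ≠ 0 := by
  have h1 := h.ne (a := X) X_ne_zero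
  rwa [ev_X] at h1

theorem Gn.swap (h : Gn k u v) : Gn k v u := by
  refine ⟨fun a b hab => ?_, fun w => ?_⟩
  · rw [← ev_swap, ← ev_swap (u := u) (v := v) b] at hab
    exact (Bivariate.swap (R := k)).injective (h.inj hab)
  · obtain ⟨a, b, hb, h1⟩ := h.gen w
    refine ⟨Bivariate.swap (R := k) a, Bivariate.swap (R := k) b, ?_, ?_⟩
    · intro h2
      exact hb ((Bivariate.swap (R := k)).injective (by rw [h2, map_zero]))
    · rw [ev_swap, ev_swap, h1]

theorem ev_reverse (hv : v ≠ 0) (a : k[X][X]) :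
    ev k u v⁻¹ a = ev k u v a.reverse * v⁻¹ ^ a.natDegree := by
  letI : Invertible v⁻¹ := ⟨v, mul_inv_cancel₀ hv, inv_mul_cancel₀ hv⟩
  have h1 := eval₂_reverse_mul_pow ((aeval u : k[X] →ₐ[k] F) : k[X] →+* F) v⁻¹ a
  exact h1.symm

theorem Gn.inv_right (h : Gn k u v) : Gn k u v⁻¹ := by
  have hv := h.v0
  have hp : ∀ n : ℕ, v⁻¹ ^ n ≠ 0 := fun n => pow_ne_zero _ (inv_ne_zero hv)
  refine ⟨?_, fun w => ?_⟩
  · rw [injective_iff_map_eq_zero]
    intro a ha
    rw [ev_reverse hv] at ha
    have h1 := (mul_eq_zero.mp ha).resolve_right (hp _)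
    rw [← map_zero (ev k u v)] at h1
    exact reverse_eq_zero.mp (h.inj h1)
  · obtain ⟨a, b, hb, h1⟩ := h.gen w
    have e1 : ∀ a : k[X][X], ev k u v a = ev k u v⁻¹ a.reverse * v ^ a.natDegree := by
      intro a
      have h2 := ev_reverse (k := k) (u := u) (v := v⁻¹) (inv_ne_zero hv) a
      rwa [inv_inv] at h2
    refine ⟨a.reverse * X ^ b.natDegree, b.reverse * X ^ a.natDegree, ?_, ?_⟩
    · exact mul_ne_zero (fun h2 => hb (reverse_eq_zero.mp h2)) (pow_ne_zero _ X_ne_zero)
    · have h3 : ev k u v⁻¹ b.reverse ≠ 0 := by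
        intro h4
        have h5 := e1 b
        rw [h4, zero_mul] at h5
        exact h.ne hb h5
      rw [h1, e1 a, e1 b, map_mul, map_mul, map_pow, map_pow, ev_X, inv_pow, inv_pow]
      field_simp

theorem Gn.inv_left (h : Gn k u v) : Gn k u⁻¹ v := h.swap.inv_right.swap

theorem quot_eq {K : Type} [Field K] {a b c d a' b' c' d' : K} (hb : b ≠ 0) (hd : d ≠ 0)
    (h1 : a * d = c * b) (h2 : a' * d + a * d' = c' * b + c * b') :
    (a' * b - a * b') / b ^ 2 = (c' * d - c * d') / d ^ 2 := by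
  rw [div_eq_div_iff (pow_ne_zero 2 hb) (pow_ne_zero 2 hd)]
  linear_combination (b * d) * h2 + (-(b' * d) - d' * b) * h1

/-- Extension of derivations. -/
theorem Gn.exists_der (h : Gn k u v) (d : Derivation ℤ k[X][X] k[X][X]) :
    ∃ D : Derivation ℤ F F, ∀ a, D (ev k u v a) = ev k u v (d a) := by
  choose α β hβ hw using h.gen
  have hβ0 : ∀ w, ev k u v (β w) ≠ 0 := fun w => h.ne (hβ w)
  set D₀ : F → F := fun w => (ev k u v (d (α w)) * ev k u v (β w) -
    ev k u v (α w) * ev k u v (d (β w))) / ev k u v (β w) ^ 2 with hD₀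
  have key : ∀ a b : k[X][X], b ≠ 0 → D₀ (ev k u v a / ev k u v b) =
      (ev k u v (d a) * ev k u v b - ev k u v a * ev k u v (d b)) / ev k u v b ^ 2 := by
    intro a b hb
    set w := ev k u v a / ev k u v b with hw'
    have h1 : ev k u v (α w) * ev k u v b = ev k u v a * ev k u v (β w) := by
      have h2 := hw w
      rw [hw', div_eq_div_iff (h.ne hb) (hβ0 _), ← hw'] at h2
      exact h2.symm
    refine quot_eq (hβ0 w) (h.ne hb) h1 ?_
    have h2 : α w * b = a * β w := h.inj (by rw [map_mul, map_mul]; exact h1)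
    have h3 := congrArg d h2
    rw [Derivation.leibniz, Derivation.leibniz, smul_eq_mul, smul_eq_mul, smul_eq_mul,
      smul_eq_mul] at h3
    have h4 := congrArg (ev k u v) h3
    rw [map_add, map_add, map_mul, map_mul, map_mul, map_mul] at h4
    linear_combination h4
  have hadd : ∀ w w', D₀ (w + w') = D₀ w + D₀ w' := by
    intro w w'
    obtain ⟨a, b, hb, rfl⟩ := h.gen w
    obtain ⟨a', b', hb', rfl⟩ := h.gen w'
    have hb0 := h.ne hb
    have hb0' := h.ne hb'
    have h1 : ev k u v a / ev k u v b + ev k u v a' / ev k u v b' =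
        ev k u v (a * b' + b * a') / ev k u v (b * b') := by
      rw [map_add, map_mul, map_mul, map_mul, div_add_div _ _ hb0 hb0']
    rw [h1, key _ _ (mul_ne_zero hb hb'), key _ _ hb, key _ _ hb', map_add, map_add, Derivation.leibniz,
      Derivation.leibniz, Derivation.leibniz]
    simp only [smul_eq_mul, map_add, map_mul]
    field_simp
    ring
  have hmul : ∀ w w', D₀ (w * w') = w * D₀ w' + w' * D₀ w := by
    intro w w'
    obtain ⟨a, b, hb, rfl⟩ := h.gen w
    obtain ⟨a', b', hb', rfl⟩ := h.gen w'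
    have hb0 := h.ne hb
    have hb0' := h.ne hb'
    have h1 : ev k u v a / ev k u v b * (ev k u v a' / ev k u v b') =
        ev k u v (a * a') / ev k u v (b * b') := by
      rw [map_mul, map_mul, div_mul_div_comm]
    rw [h1, key _ _ (mul_ne_zero hb hb'), key _ _ hb, key _ _ hb', Derivation.leibniz,
      Derivation.leibniz]
    simp only [smul_eq_mul, map_add, map_mul]
    field_simp
    ring
  refine ⟨Derivation.mk' ((AddMonoidHom.mk' D₀ hadd).toIntLinearMap) (fun a b => ?_), fun a => ?_⟩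
  · show D₀ (a * b) = a • D₀ b + b • D₀ a
    rw [hmul]; rfl
  · show D₀ (ev k u v a) = _
    have h1 := key a 1 one_ne_zero
    rw [map_one, div_one, Derivation.map_one_eq_zero, map_zero, mul_one, mul_zero, sub_zero,
      one_pow, div_one] at h1
    exact h1

/-- The coordinate ring. -/
noncomputable def Bg (k : Type) {F : Type} [Field k] [Field F] [Algebra k F] (u v : F) : Subring F :=
  (ev k u v).range

theorem mem_Bg {w : F} : w ∈ Bg k u v ↔ ∃ a, ev k u v a = w := Iff.rfl

theorem u_mem : u ∈ Bg k u v := ⟨C X, ev_CX⟩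

theorem v_mem : v ∈ Bg k u v := ⟨X, ev_X⟩

theorem k_mem (c : k) : algebraMap k F c ∈ Bg k u v := ⟨C (C c), ev_CC c⟩

theorem Bg_le {S : Subring F} (hk : ∀ c : k, algebraMap k F c ∈ S) (hu : u ∈ S) (hv : v ∈ S) :
    Bg k u v ≤ S := by
  rintro _ ⟨a, rfl⟩
  exact ev_mem S hk hu hv a

theorem Bg_swap : Bg k v u = Bg k u v :=
  le_antisymm (Bg_le k_mem v_mem u_mem) (Bg_le k_mem v_mem u_mem)

variable [Finite k] {p : ℕ} [hp : Fact p.Prime] [CharP F p] [CharP k p]

theorem exists_root_k (c : k) : ∃ b : k, b ^ p = c := by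
  have hbij : Function.Bijective (frobenius k p) :=
    Finite.injective_iff_bijective.mp (frobenius_inj k p)
  obtain ⟨b, hb⟩ := hbij.2 c
  exact ⟨b, hb⟩

/-- **The chart of the affine plane.** -/
theorem Gn.exists_ec (h : Gn k u v) : ∃ Du Dv : Derivation ℤ F F, EC p (Bg k u v) u v Du Dv ∧
    (∀ a, Du (ev k u v a) = ev k u v (dX k a)) ∧
    ∀ a, Dv (ev k u v a) = ev k u v (derivative a) := by
  obtain ⟨Du, hDu⟩ := h.exists_der ((dX k).restrictScalars ℤ)
  obtain ⟨Dv, hDv⟩ := h.exists_der ((Polynomial.derivative' (R := k[X])).restrictScalars ℤ)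
  have hDu' : ∀ a, Du (ev k u v a) = ev k u v (dX k a) := hDu
  have hDv' : ∀ a, Dv (ev k u v a) = ev k u v (derivative a) := hDv
  refine ⟨Du, Dv, ⟨u_mem, v_mem, ?_, ?_, ?_, ?_, ?_, ?_, ?_, ?_⟩, hDu', hDv'⟩
  · have h1 := hDu' (C X)
    rwa [dX_C, derivative_X, C_1, map_one, ev_CX] at h1
  · have h1 := hDu' X
    rwa [dX_X, map_zero, ev_X] at h1
  · have h1 := hDv' (C X)
    rwa [derivative_C, map_zero, ev_CX] at h1
  · have h1 := hDv' X
    rwa [derivative_X, map_one, ev_X] at h1
  · rintro _ ⟨a, rfl⟩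
    rw [hDu']
    exact ⟨_, rfl⟩
  · rintro _ ⟨a, rfl⟩
    rw [hDv']
    exact ⟨_, rfl⟩
  · rintro _ ⟨a, rfl⟩
    refine ev_mem (Subring.closure ({c | ∃ a ∈ Bg k u v, c = a ^ p} ∪ {u, v})) (fun c => ?_)
      (Subring.subset_closure (Or.inr (Or.inl rfl)))
      (Subring.subset_closure (Or.inr (Or.inr rfl))) a
    obtain ⟨b, hb⟩ := exists_root_k (p := p) c
    refine Subring.subset_closure (Or.inl ⟨algebraMap k F b, k_mem b, ?_⟩)
    rw [← map_pow, hb]
  · intro w
    obtain ⟨a, b, hb, h1⟩ := h.gen w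
    exact ⟨_, ⟨a, rfl⟩, _, ⟨b, rfl⟩, h.ne hb, h1⟩

end Gn

section Elim

variable {k F : Type} [Field k] [Finite k] [Field F] [Algebra k F] {u v : F} {p : ℕ}
  [hp : Fact p.Prime] [CharP F p] [CharP k p]

/-- Elimination of `v`. -/
theorem Gn.elim (h : Gn k u v) {Du Dv : Derivation ℤ F F} (hec : EC p (Bg k u v) u v Du Dv)
    {a : k[X][X]} (ha : Squarefree a) (ha0 : a ≠ 0) : ∃ r : k[X], r ≠ 0 ∧
    ∃ b ∈ Bg k u v, ∃ c ∈ Bg k u v, ∃ d ∈ Bg k u v, aeval u r =
      b * ev k u v a + c * Du (ev k u v a) + d * Dv (ev k u v a) := by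
  obtain ⟨Du', Dv', hec', h1, h2⟩ := h.exists_ec (p := p)
  have hu : ∀ w, Du w = Du' w := hec'.ext_der (by rw [hec.xx, hec'.xx]) (by rw [hec.xy, hec'.xy])
  have hv : ∀ w, Dv w = Dv' w := hec'.ext_der (by rw [hec.yx, hec'.yx]) (by rw [hec.yy, hec'.yy])
  obtain ⟨r, hr, h3⟩ := exists_elim p ha ha0
  rw [Ideal.mem_span_insert] at h3
  obtain ⟨b, z, hz, h4⟩ := h3
  rw [Ideal.mem_span_pair] at hz
  obtain ⟨c, d, rfl⟩ := hz
  refine ⟨r, hr, _, ⟨b, rfl⟩, _, ⟨c, rfl⟩, _, ⟨d, rfl⟩, ?_⟩
  rw [hu, hv, h1, h2, ← ev_C (u := u) (v := v), h4]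
  simp only [map_add, map_mul]
  ring

/-- Squarefree polynomials are squarefree for the exchanged variables. -/
theorem squarefree_swap {a : k[X][X]} (ha : Squarefree a) :
    Squarefree (Bivariate.swap (R := k) a) := by
  intro b hb
  have h1 := ha ((Bivariate.swap (R := k)) b) (by
    have h2 := map_dvd (Bivariate.swap (R := k)) hb
    rwa [map_mul, Bivariate.swap_swap_apply] at h2)
  have h3 := h1.map (Bivariate.swap (R := k))
  rwa [Bivariate.swap_swap_apply] at h3

/-- A squarefree polynomial for finitely many elements. -/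
theorem Gn.exists_h (h : Gn k u v) (Z : Finset F) : ∃ a : k[X][X], a ≠ 0 ∧ Squarefree a ∧
    ∀ z ∈ Z, z ≠ 0 → ∃ n : ℕ, z * ev k u v a ^ n ∈ Bg k u v ∧ z⁻¹ * ev k u v a ^ n ∈ Bg k u v := by
  classical
  let _ : NormalizationMonoid k[X][X] := Nonempty.some inferInstance
  choose α β hβ hw using h.gen
  set c : k[X][X] := ∏ z ∈ Z, (if z = 0 then 1 else α z * β z) with hc
  have hα : ∀ z, z ≠ 0 → α z ≠ 0 := by
    intro z hz h1
    apply hz
    rw [hw z, h1, map_zero, zero_div]
  have hc0 : c ≠ 0 := by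
    rw [hc, Finset.prod_ne_zero_iff]
    intro z hz
    split_ifs with h1
    · exact one_ne_zero
    · exact mul_ne_zero (hα z h1) (hβ z)
  obtain ⟨n, hn⟩ := UniqueFactorizationMonoid.exists_dvd_radical_self_pow hc0
  refine ⟨UniqueFactorizationMonoid.radical c, UniqueFactorizationMonoid.radical_ne_zero,
    UniqueFactorizationMonoid.squarefree_radical, fun z hz hz0 => ⟨n, ?_, ?_⟩⟩
  · have h1 : α z * β z ∣ UniqueFactorizationMonoid.radical c ^ n := by
      refine dvd_trans ?_ hn
      have h2 := Finset.dvd_prod_of_mem (fun z => if z = 0 then 1 else α z * β z) hz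
      simp only [if_neg hz0] at h2
      exact h2
    obtain ⟨e, he⟩ := h1
    refine ⟨α z * α z * e, ?_⟩
    rw [← map_pow, he]
    simp only [map_mul]
    have h3 := h.ne (hβ z)
    have h5 : z * ev k u v (β z) = ev k u v (α z) := by
      have h6 := hw z
      rwa [eq_div_iff h3] at h6
    linear_combination (-(ev k u v (α z) * ev k u v e)) * h5
  · have h1 : α z * β z ∣ UniqueFactorizationMonoid.radical c ^ n := by
      refine dvd_trans ?_ hn
      have h2 := Finset.dvd_prod_of_mem (fun z => if z = 0 then 1 else α z * β z) hz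
      simp only [if_neg hz0] at h2
      exact h2
    obtain ⟨e, he⟩ := h1
    refine ⟨β z * β z * e, ?_⟩
    rw [← map_pow, he]
    simp only [map_mul]
    have h3 := h.ne (hβ z)
    have h5 : z * ev k u v (β z) = ev k u v (α z) := by
      have h6 := hw z
      rwa [eq_div_iff h3] at h6
    rw [← h5]
    field_simp

end Elim

end Pool.Agent.H96.S
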