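import Pool.Agent.H96.S.Mk

/-!
# Recentring of coordinates
-/

set_option autoImplicit false
set_option linter.unusedSectionVars false

namespace Pool.Agent.H96.S

open Pool.Agent.H96.VL
open scoped Pointwise

/-- The recentred coordinate. -/
structure Hf (p : ℕ) {F : Type} [Field F] {A : Type} (W : ValuationSubring F) (x : F)
    (cx : Option A) (x' : F) (cx' : Option A) : Prop where
  v : W.valuation x' < 1
  alt : (x' = x ∧ cx' = cx ∧ cx.isSome = true) ∨
    (cx' = none ∧ (∃ n, 1 ≤ n ∧ x' = x - (x ^ p ^ (n - 1)) ^ p) ∧ (cx = none ∨ W.valuation x = 1))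

section Hf

variable {p : ℕ} [hp : Fact p.Prime] {F : Type} [Field F] [CharP F p] {A : Type}
  {W : ValuationSubring F} {B B' : Subring F} {x y x' : F} {cx cx' : Option A}
  {Dx Dy : Derivation ℤ F F}

theorem exists_hf (hW : Vle W B) (hclo : Clo p W B) (hx : x ∈ B) (cx : Option A) :
    ∃ (x' : F) (cx' : Option A), Hf p W x cx x' cx' := by
  by_cases h : cx.isSome = true ∧ W.valuation x < 1
  · exact ⟨x, cx, h.2, Or.inl ⟨rfl, rfl, h.1⟩⟩
  · obtain ⟨n, hn, h1⟩ := hclo
    refine ⟨x - (x ^ p ^ (n - 1)) ^ p, none, ?_, Or.inr ⟨rfl, ⟨n, hn, rfl⟩, ?_⟩⟩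
    · have h2 : (x ^ p ^ (n - 1)) ^ p = x ^ p ^ n := by
        rw [← pow_mul, ← pow_succ]
        congr 2
        omega
      rw [h2, ← Valuation.map_neg, neg_sub]
      exact h1 x hx
    · by_cases h2 : cx.isSome = true
      · right
        exact le_antisymm (hW x hx) (not_lt.mp fun h3 => h ⟨h2, h3⟩)
      · left
        cases cx with
        | none => rfl
        | some a => exact absurd rfl h2

theorem Hf.mem (h : Hf p W x cx x' cx') (hx : x ∈ B) : x' ∈ B := by
  rcases h.alt with ⟨rfl, -⟩ | ⟨-, ⟨n, -, rfl⟩, -⟩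
  · exact hx
  · exact B.sub_mem hx (B.pow_mem (B.pow_mem hx _) _)

theorem Hf.ec (h : Hf p W x cx x' cx') (hec : EC p B x y Dx Dy) : EC p B x' y Dx Dy := by
  rcases h.alt with ⟨rfl, -⟩ | ⟨-, ⟨n, -, rfl⟩, -⟩
  · exact hec
  · exact hec.sub_pow (B.pow_mem hec.hx _)

theorem Hf.ec2 (h : Hf p W x cx x' cx') (hec : EC p B y x Dy Dx) : EC p B y x' Dy Dx :=
  (h.ec hec.swap).swap

theorem Hf.some_eq (h : Hf p W x cx x' cx') {a : A} (ha : cx' = some a) : cx = some a := by
  rcases h.alt with ⟨-, h1, -⟩ | ⟨h1, -⟩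
  · rw [← h1, ha]
  · rw [ha] at h1
    cases h1

variable [DecidableEq A]

theorem Hf.fin (h : Hf p W x cx x' cx') (hW : Vle W B) (hx : x ∈ B) (hx0 : x ≠ 0) :
    FinP (vl W B) fun B' => B ≤ B' → ∀ a : A, Un B' (if cx = some a then x else 1)
      (if cx' = some a then x' else 1) := by
  have e2 : ∀ a : A, (if (none : Option A) = some a then x' else 1) = 1 := fun a =>
    if_neg (by intro h; cases h)
  by_cases h1 : W.valuation x = 1
  · refine (FinP.mem (inv_mem_vl hx h1)).mono fun B' hB' hle a => ?_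
    rcases h.alt with ⟨rfl, rfl, -⟩ | ⟨rfl, -, h3⟩
    · split_ifs
      · exact Un.refl hx0
      · exact Un.refl one_ne_zero
    · rw [e2]
      split_ifs
      · exact Un.of_unit (hle hx) hB' hx0
      · exact Un.refl one_ne_zero
  · refine ⟨∅, fun e he => absurd he (Finset.notMem_empty e), fun B' _ hle a => ?_⟩
    rcases h.alt with ⟨rfl, rfl, -⟩ | ⟨rfl, -, h3⟩
    · split_ifs
      · exact Un.refl hx0
      · exact Un.refl one_ne_zero
    · rw [e2]
      split_ifs with h4
      · exfalso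
        rcases h3 with h3 | h3
        · rw [h3] at h4
          cases h4
        · exact h1 h3
      · exact Un.refl one_ne_zero

end Hf

section Lr

variable {p : ℕ} [hp : Fact p.Prime] {F : Type} [Field F] [CharP F p] {A : Type}
  {W : ValuationSubring F} {B R : Subring F} {x y : F} {cx cy : Option A}
  {Dx Dy : Derivation ℤ F F}

theorem EC.vl (h : EC p B x y Dx Dy) : EC p (vl W B) x y Dx Dy := by
  refine h.loc le_vl fun w hw => ?_
  obtain ⟨a, ha, b, hb, hb1, rfl⟩ := mem_vl.mp hw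
  refine ⟨a, ha, b, hb, ?_, inv_mem_vl hb hb1, rfl⟩
  rintro rfl
  rw [map_zero] at hb1
  exact zero_ne_one hb1

/-- The local ring of a closed point. -/
theorem Lr.of (hec : EC p B x y Dx Dy) (hB : Fg B) (hW : Vle W B) (hclo : Clo p W B)
    (hx : W.valuation x < 1) (hy : W.valuation y < 1) : Lr p W (vl W B) x y Dx Dy where
  loc := vlocal_vl hW
  ec := hec.vl
  pt := ⟨(vlocal_vl hW).le, hx, hy, fun b hb hv => hec.vl.max_gen (vlocal_vl hW) (hB.noeth_vl hW)
    hx hy hb hv, hclo.vl hW⟩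
  noeth := hB.noeth_vl hW

/-- The elements with bounded poles. -/
def PbS (R : Subring F) (cx cy : Option A) (x y : F) (hx : x ∈ R) (hy : y ∈ R) : Subring F where
  carrier := {a | Pb R cx cy x y a}
  mul_mem' := fun ha hb => ha.mul hb
  one_mem' := Pb.of_mem R.one_mem
  add_mem' := fun ha hb => ha.add hx hy hb
  zero_mem' := Pb.of_mem R.zero_mem
  neg_mem' := fun ha => ha.neg

theorem mem_PbS {hx : x ∈ R} {hy : y ∈ R} {a : F} : a ∈ PbS R cx cy x y hx hy ↔ Pb R cx cy x y a :=
  Iff.rfl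

/-- Logarithmic derivations preserve bounded poles. -/
theorem Pb.del (h : EC p R x y Dx Dy) {a : F} (ha : Pb R cx cy x y a) :
    Pb R cx cy x y (fl cx x * Dx a) := by
  obtain ⟨i, j, hi, hj, h1⟩ := ha
  refine ⟨i, j, hi, hj, ?_⟩
  have h2 := h.dx _ h1
  have h3 : Dx (x ^ i * y ^ j * a) = x ^ i * y ^ j * Dx a + a * (y ^ j * Dx (x ^ i)) := by
    have h4 : Dx (y ^ j) = 0 := by rw [Derivation.leibniz_pow, h.xy, smul_zero, smul_zero]
    rw [Derivation.leibniz, Derivation.leibniz, h4]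
    simp only [smul_eq_mul, mul_zero, zero_add]
  cases cx with
  | none =>
    have h4 := hi rfl
    subst h4
    show x ^ 0 * y ^ j * (1 * Dx a) ∈ R
    rw [pow_zero, Derivation.map_one_eq_zero, mul_zero, mul_zero, add_zero] at h3
    rw [pow_zero, one_mul (Dx a), ← h3]
    have h5 := h2
    rwa [pow_zero] at h5
  | some b =>
    show x ^ i * y ^ j * (x * Dx a) ∈ R
    have h4 : x * Dx (x ^ i) = i * x ^ i := by
      rw [Derivation.leibniz_pow, h.xx]
      cases i with
      | zero => simp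
      | succ i =>
        rw [smul_eq_mul, mul_one, nsmul_eq_mul, Nat.add_sub_cancel, pow_succ]
        ring
    have h5 : x ^ i * y ^ j * (x * Dx a) = x * Dx (x ^ i * y ^ j * a) - i * (x ^ i * y ^ j * a) := by
      rw [h3]
      linear_combination (-(a * y ^ j)) * h4
    rw [h5]
    exact R.sub_mem (R.mul_mem h.hx h2) (R.mul_mem (natCast_mem R _) h1)

theorem Pb.del2 (h : EC p R x y Dx Dy) {a : F} (ha : Pb R cx cy x y a) :
    Pb R cx cy x y (fl cy y * Dy a) := by
  have h1 : Pb R cy cx y x a := by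
    obtain ⟨i, j, hi, hj, h1⟩ := ha
    exact ⟨j, i, hj, hi, by rwa [mul_comm (y ^ j)]⟩
  obtain ⟨i, j, hi, hj, h2⟩ := h1.del h.swap
  exact ⟨j, i, hj, hi, by rwa [mul_comm (x ^ j)]⟩

end Lr

end Pool.Agent.H96.S
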