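import Pool.Agent.H96.W.LocC
import Pool.Agent.H96.W2.LocB

/-!
# The local data at a valuation of a cover of a product
-/

set_option autoImplicit false
set_option linter.unusedSectionVars false

namespace Pool.Agent.H96.S

open MvPolynomial IsLocalRing Pool.Agent.H96.Reg Pool.Agent.H96.VL Pool.Agent.H96.W
open Pool.Agent.H96.W2 (BX mem_BX zero_mem_BX single_mem_BX single_one_mem_BX neg_mem_BX)

/-- The variables of a factor. -/
abbrev Va (n d : ℕ) : Type := Fin n ⊕ Fin d

/-- The nondegeneracy of the relations at the points where `D` does not vanish. -/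
def Ndg {p n d : ℕ} (G : Fin n → MvPolynomial (Va n d) (ZMod p))
    (D : MvPolynomial (Va n d) (ZMod p)) : Prop :=
  ∀ (κ : Type) [Field κ] [Algebra (ZMod p) κ] (x : Va n d → κ), aeval x D ≠ 0 →
    ∀ a : Fin n → κ, (∀ j : Fin n, ∑ k, a k * aeval x (pderiv (Sum.inl j) (G k)) = 0) → ∀ k, a k = 0

/-- The local data at `V`. -/
structure LD (p : ℕ) (b : Bool) {K : Type} [Field K] [Algebra (ZMod p) K]
    (V : ValuationSubring K) (I : Type) [Fintype I] (A : I → Type) [∀ i, Fintype (A i)]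
    [∀ i, DecidableEq (A i)] (d : I → ℕ) (on : I → Bool) {r : ℕ} (Nw : Fin r → ℕ) (M : ℕ) where
  n : I → ℕ
  y : ∀ i, Va (n i) (d i) → K
  G : ∀ i, Fin (n i) → MvPolynomial (Va (n i) (d i)) (ZMod p)
  D : ∀ i, MvPolynomial (Va (n i) (d i)) (ZMod p)
  l : ∀ i, A i → Option (Fin (d i))
  t : ∀ i, A i → K
  e : ∀ i, A i → ℤ
  β : ∀ i, A i → ℤ
  κ : ∀ i, Fin r → A i → ℤ
  u : ∀ i, Va (n i) (d i)
  q : ∀ i, Fin r → Va (n i) (d i)
  act : I → Bool
  z : K
  w : Fin r → K
  vy : ∀ i s, V.valuation (y i s) ≤ 1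
  rel : ∀ i j, aeval (y i) (G i j) = 0
  vD : ∀ i, V.valuation (aeval (y i) (D i)) = 1
  ndg : ∀ i, Ndg (G i) (D i)
  l0 : ∀ i a, l i a = none → t i a = 1
  l1 : ∀ i a c, l i a = some c → V.valuation (t i a) < 1 ∧ t i a ≠ 0 ∧ y i (Sum.inr c) = t i a
  linj : ∀ i a a' c, l i a = some c → l i a' = some c → a = a'
  typ : ∀ i, act i = true →
    (∃ a, l i a ≠ none ∧ ¬ (p : ℤ) ∣ e i a ∧ V.valuation (y i (u i)) = 1) ∨
    ∃ c, u i = Sum.inr c ∧ ∀ a, l i a ≠ some c
  actb : b = false → ∀ i, act i = on i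
  pole : b = true → ∀ i, act i = true → 1 < V.valuation (mon (t i) (e i))
  e0 : ∀ i, act i = false → e i = 0
  cut : ∀ i a, l i a ≠ none → e i a ≤ p * β i a
  eM : ∀ i a, |e i a| ≤ M
  βM : ∀ i a, |β i a| ≤ M
  κM : ∀ i c a, |κ i c a| ≤ M
  AS : z ^ p - cond b z 0 = ∑ i, cond (b || act i) (y i (u i) * mon (t i) (e i)) 0
  Nw0 : ∀ c, ¬ p ∣ Nw c
  w0 : ∀ c, w c ≠ 0
  vq : ∀ i c, V.valuation (y i (q i c)) = 1
  KM : ∀ c, w c ^ Nw c = ∏ i, (y i (q i c) * mon (t i) (κ i c))

theorem cond_t {α : Type} {b : Bool} (hb : b = true) (x y : α) : cond b x y = x := by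
  rw [hb]; rfl

theorem cond_f {α : Type} {b : Bool} (hb : b = false) (x y : α) : cond b x y = y := by
  rw [hb]; rfl

theorem or_t {b c : Bool} (h : b = true ∨ c = true) : (b || c) = true := by
  rcases h with h | h <;> rw [h]
  · rfl
  · exact Bool.or_true b

theorem of_or {b c : Bool} (h : (b || c) = true) (hb : b = false) : c = true := by
  rw [hb] at h
  exact h

/-- The index set of the coordinates. -/
abbrev Ix {I : Type} (A : I → Type) (r : ℕ) : Type := (Σ i, A i) ⊕ (Unit ⊕ Fin r)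

/-- The functions which take part in the size of `z`. -/
def cand {I : Type} (b : Bool) (on : I → Bool) (j : Option I) : Bool := j.elim b fun i => b || on i

namespace LD

variable {p : ℕ} [Fact p.Prime] {b : Bool} {K : Type} [Field K] [Algebra (ZMod p) K]
  {V : ValuationSubring K} {I : Type} [Fintype I] [DecidableEq I] {A : I → Type}
  [∀ i, Fintype (A i)] [∀ i, DecidableEq (A i)] {d : I → ℕ} {on : I → Bool} {r : ℕ}
  {Nw : Fin r → ℕ} {M : ℕ} (L : LD p b V I A d on Nw M)

theorem t_ne_zero (i : I) (a : A i) : L.t i a ≠ 0 := by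
  cases h : L.l i a with
  | none => rw [L.l0 i a h]; exact one_ne_zero
  | some c => exact (L.l1 i a c h).2.1

theorem vt (i : I) (a : A i) : V.valuation (L.t i a) ≤ 1 := by
  cases h : L.l i a with
  | none => rw [L.l0 i a h, map_one]
  | some c => exact (L.l1 i a c h).1.le

theorem vzpow_le (i : I) (a : A i) {m n : ℤ} (h : L.l i a ≠ none → m ≤ n) :
    V.valuation (L.t i a ^ n) ≤ V.valuation (L.t i a ^ m) := by
  by_cases ha : L.l i a = none
  · rw [L.l0 i a ha, one_zpow, one_zpow]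
  · have h0 := L.t_ne_zero i a
    have h1 : L.t i a ^ n = L.t i a ^ (n - m) * L.t i a ^ m := by
      rw [← zpow_add₀ h0]
      congr 1; ring
    rw [h1, map_mul]
    refine mul_le_of_le_one_left' ?_
    obtain ⟨k, hk⟩ := Int.eq_ofNat_of_zero_le (sub_nonneg.mpr (h ha))
    rw [hk, zpow_natCast, map_pow]
    exact pow_le_one' (L.vt i a) k

/-- Comparison of monomials. -/
theorem vmon_le (i : I) {m n : A i → ℤ} (h : ∀ a, L.l i a ≠ none → m a ≤ n a) :
    V.valuation (mon (L.t i) n) ≤ V.valuation (mon (L.t i) m) := by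
  rw [mon, mon, map_prod, map_prod]
  exact Finset.prod_le_prod' fun a _ => L.vzpow_le i a (h a)

theorem mon_ne (i : I) (m : A i → ℤ) : mon (L.t i) m ≠ 0 := mon_ne_zero (L.t_ne_zero i) m

/-- The monomials which bound the size of `z`. -/
def tt (j : Option I) : K := j.elim 1 fun i => mon (L.t i) (L.β i)

theorem tt_none : L.tt none = 1 := rfl

theorem tt_some (i : I) : L.tt (some i) = mon (L.t i) (L.β i) := rfl

theorem tt_ne_zero (j : Option I) : L.tt j ≠ 0 := by
  cases j
  · exact one_ne_zero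
  · exact L.mon_ne _ _

theorem cutoff (i : I) :
    V.valuation (mon (L.t i) (L.β i) ^ p) ≤ V.valuation (mon (L.t i) (L.e i)) := by
  rw [← zpow_natCast, ← mon_smul]
  exact L.vmon_le i fun a ha => L.cut i a ha

theorem vterm (i : I) : V.valuation (L.y i (L.u i) * mon (L.t i) (L.e i)) ≤
    V.valuation (mon (L.t i) (L.e i)) := by
  rw [map_mul]
  exact mul_le_of_le_one_left' (L.vy _ _)

/-- `z` is larger than the cutoff. -/
def isZ : Prop := ∀ j, cand b on j = true → V.valuation (L.tt j) ≤ V.valuation L.z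

theorem exists_piv : ∃ j : Option I, (∃ j, cand b on j = true) → cand b on j = true ∧
    ∀ j', cand b on j' = true → V.valuation (L.tt j') ≤ V.valuation (L.tt j) := by
  classical
  by_cases h : ∃ j, cand b on j = true
  · obtain ⟨j₀, hj₀⟩ := h
    obtain ⟨j, hj, hmax⟩ := Finset.exists_max_image (Finset.univ.filter fun j => cand b on j = true)
      (fun j => V.valuation (L.tt j)) ⟨j₀, Finset.mem_filter.mpr ⟨Finset.mem_univ _, hj₀⟩⟩
    exact ⟨j, fun _ => ⟨(Finset.mem_filter.mp hj).2, fun j' hj' =>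
      hmax j' (Finset.mem_filter.mpr ⟨Finset.mem_univ _, hj'⟩)⟩⟩
  · exact ⟨none, fun h' => absurd h' h⟩

/-- The pivot. -/
noncomputable def piv : Option I := L.exists_piv.choose

theorem piv_spec (h : ∃ j, cand b on j = true) : cand b on L.piv = true ∧
    ∀ j', cand b on j' = true → V.valuation (L.tt j') ≤ V.valuation (L.tt L.piv) :=
  L.exists_piv.choose_spec h

/-- The size of `z`. -/
noncomputable def ω : K := open Classical in if L.isZ then L.z else L.tt L.piv

theorem ω_isZ (h : L.isZ) : L.ω = L.z := if_pos h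

theorem ω_not (h : ¬ L.isZ) : L.ω = L.tt L.piv := if_neg h

theorem vz_lt (h : ¬ L.isZ) : V.valuation L.z < V.valuation (L.tt L.piv) := by
  rw [isZ] at h
  push Not at h
  obtain ⟨j, hj, hlt⟩ := h
  exact hlt.trans_le ((L.piv_spec ⟨j, hj⟩).2 j hj)

theorem vz_le : V.valuation L.z ≤ V.valuation L.ω := by
  by_cases hz : L.isZ
  · rw [L.ω_isZ hz]
  · rw [L.ω_not hz]
    exact (L.vz_lt hz).le

theorem vtt_le_ω {j : Option I} (hj : cand b on j = true) :
    V.valuation (L.tt j) ≤ V.valuation L.ω := by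
  by_cases hz : L.isZ
  · rw [L.ω_isZ hz]; exact hz j hj
  · rw [L.ω_not hz]
    exact (L.piv_spec ⟨j, hj⟩).2 j hj

theorem ω_ne_zero (hex : ∃ j, cand b on j = true) : L.ω ≠ 0 := by
  obtain ⟨j, hj⟩ := hex
  intro h
  have h1 := L.vtt_le_ω hj
  rw [h, map_zero] at h1
  have h2 : 0 < V.valuation (L.tt j) := by
    rw [Valuation.pos_iff]; exact L.tt_ne_zero j
  exact absurd h1 (not_le.mpr h2)

theorem one_le_ω (hb : b = true) : 1 ≤ V.valuation L.ω := by
  have h1 := L.vtt_le_ω (j := none) hb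
  rwa [L.tt_none, map_one] at h1

/-- The bound for the power of `z`. -/
theorem vz_pow_le {δ : V.ValueGroup} (h1 : b = true → 1 ≤ δ)
    (h : ∀ i, (b || L.act i) = true → V.valuation (mon (L.t i) (L.e i)) ≤ δ) :
    V.valuation (L.z ^ p) ≤ δ := by
  have hS : V.valuation (∑ i, cond (b || L.act i) (L.y i (L.u i) * mon (L.t i) (L.e i)) 0) ≤ δ := by
    refine Valuation.map_sum_le _ fun i _ => ?_
    rcases Bool.eq_false_or_eq_true (b || L.act i) with hi | hi
    · rw [cond_t hi]
      exact (L.vterm i).trans (h i hi)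
    · rw [cond_f hi, map_zero]; exact zero_le
  rw [← L.AS] at hS
  rcases Bool.eq_false_or_eq_true b with hb | hb
  swap
  · rwa [cond_f hb, sub_zero] at hS
  · rw [cond_t hb] at hS
    rcases le_or_gt (V.valuation L.z) 1 with hz | hz
    · rw [map_pow]
      exact (pow_le_one' hz _).trans (h1 hb)
    · have h3 : V.valuation L.z < V.valuation (L.z ^ p) := by
        rw [map_pow]
        exact lt_self_pow₀ hz (Fact.out : p.Prime).one_lt
      rwa [V.valuation.map_sub_eq_of_lt_left h3] at hS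

/-- The bound for the power of `ω`. -/
theorem vω_le (hex : ∃ j, cand b on j = true) {δ : V.ValueGroup} (h1 : b = true → 1 ≤ δ)
    (h : ∀ i, (b || L.act i) = true → V.valuation (mon (L.t i) (L.e i)) ≤ δ) :
    V.valuation (L.ω ^ p) ≤ δ := by
  by_cases hz : L.isZ
  · rw [L.ω_isZ hz]; exact L.vz_pow_le h1 h
  · rw [L.ω_not hz]
    have h2 := (L.piv_spec hex).1
    cases hj : L.piv with
    | none =>
      rw [hj] at h2
      rw [L.tt_none, one_pow, map_one]
      exact h1 h2
    | some i =>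
      rw [hj] at h2
      have h3 : (b || on i) = true := h2
      rw [L.tt_some]
      refine (L.cutoff i).trans (h i ?_)
      rcases Bool.eq_false_or_eq_true b with hb | hb
      · exact or_t (Or.inl hb)
      · exact or_t (Or.inr ((L.actb hb i).trans (of_or h3 hb)))

/-- The product of the coordinates. -/
def pt : K := ∏ i, mon (L.t i) fun _ => (M : ℤ)

theorem pt_ne_zero : L.pt ≠ 0 := Finset.prod_ne_zero_iff.mpr fun i _ => L.mon_ne i _

theorem vptf_le_one (i : I) : V.valuation (mon (L.t i) fun _ => (M : ℤ)) ≤ 1 := by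
  have h1 := L.vmon_le i (m := 0) (n := fun _ => (M : ℤ)) (fun a _ => Int.natCast_nonneg _)
  rwa [mon_zero, map_one] at h1

theorem vpt_le (i : I) : V.valuation L.pt ≤ V.valuation (mon (L.t i) fun _ => (M : ℤ)) := by
  rw [pt, ← Finset.mul_prod_erase Finset.univ _ (Finset.mem_univ i), map_mul]
  refine mul_le_of_le_one_right' ?_
  rw [map_prod]
  exact Finset.prod_le_one' fun j _ => L.vptf_le_one j

theorem vpt_le_one : V.valuation L.pt ≤ 1 := by
  rw [pt, map_prod]
  exact Finset.prod_le_one' fun j _ => L.vptf_le_one j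

/-- The coordinates. -/
noncomputable def τ : Ix A r → K :=
  Sum.elim (fun s => L.t s.1 s.2) (Sum.elim (fun _ => L.ω * L.pt) fun c => L.w c * L.pt)

theorem τ_a (s : Σ i, A i) : L.τ (Sum.inl s) = L.t s.1 s.2 := rfl

theorem τ_z : L.τ (Sum.inr (Sum.inl ())) = L.ω * L.pt := rfl

theorem τ_w (c : Fin r) : L.τ (Sum.inr (Sum.inr c)) = L.w c * L.pt := rfl

theorem τ_ne_zero (hex : ∃ j, cand b on j = true) (α : Ix A r) : L.τ α ≠ 0 := by
  rcases α with s | u | c
  · exact L.t_ne_zero _ _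
  · exact mul_ne_zero (L.ω_ne_zero hex) L.pt_ne_zero
  · exact mul_ne_zero (L.w0 c) L.pt_ne_zero

include L in
theorem Nw_ne_zero (c : Fin r) : Nw c ≠ 0 := by
  intro h
  apply L.Nw0 c
  rw [h]
  exact dvd_zero p

theorem vτw (c : Fin r) : V.valuation (L.w c * L.pt) ≤ 1 := by
  have h0 := L.Nw_ne_zero c
  have h1 : V.valuation ((L.w c * L.pt) ^ Nw c) ≤ 1 := by
    rw [mul_pow, L.KM, pt, ← Finset.prod_pow, ← Finset.prod_mul_distrib, map_prod]
    refine Finset.prod_le_one' fun i _ => ?_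
    rw [mul_assoc, map_mul]
    refine mul_le_one' (L.vy _ _) ?_
    rw [← zpow_natCast, ← mon_smul, ← mon_add (L.t_ne_zero i)]
    have h4 := L.vmon_le i (m := 0) (n := L.κ i c + (Nw c : ℤ) • fun _ => (M : ℤ)) (fun a _ => by
      show 0 ≤ L.κ i c a + (Nw c : ℤ) * (M : ℤ)
      have h2 := (abs_le.mp (L.κM i c a)).1
      have h3 : (M : ℤ) ≤ (Nw c : ℤ) * (M : ℤ) := by
        exact_mod_cast Nat.le_mul_of_pos_left M (Nat.pos_of_ne_zero h0)
      linarith)
    rwa [mon_zero, map_one] at h4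
  by_contra hcon
  rw [map_pow] at h1
  exact absurd h1 (not_le.mpr (one_lt_pow₀ (not_le.mp hcon) h0))

theorem vτz (hex : ∃ j, cand b on j = true) : V.valuation (L.ω * L.pt) ≤ 1 := by
  have hp : 1 ≤ p := (Fact.out : p.Prime).one_le
  have hpt0 : 0 < V.valuation (L.pt ^ p) := by
    rw [Valuation.pos_iff]; exact pow_ne_zero _ L.pt_ne_zero
  have hpt1 : V.valuation (L.pt ^ p) ≤ 1 := by
    rw [map_pow]; exact pow_le_one' L.vpt_le_one _
  have h1 := L.vω_le hex (δ := (V.valuation (L.pt ^ p))⁻¹) (fun _ => (one_le_inv₀ hpt0).mpr hpt1)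
    (fun i _ => by
      rw [← one_div]
      refine (le_div_iff₀ hpt0).mpr ?_
      have h2 : V.valuation (L.pt ^ p) ≤ V.valuation ((mon (L.t i) fun _ => (M : ℤ)) ^ p) := by
        rw [map_pow, map_pow]
        exact pow_le_pow_left' (L.vpt_le i) _
      refine (mul_le_mul' le_rfl h2).trans ?_
      rw [← map_mul, ← zpow_natCast, ← mon_smul, ← mon_add (L.t_ne_zero i)]
      have h4 := L.vmon_le i (m := 0) (n := L.e i + (p : ℤ) • fun _ => (M : ℤ)) (fun a _ => by
        show 0 ≤ L.e i a + (p : ℤ) * (M : ℤ)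
        have h2 := (abs_le.mp (L.eM i a)).1
        have h3 : (M : ℤ) ≤ (p : ℤ) * (M : ℤ) := by
          exact_mod_cast Nat.le_mul_of_pos_left M hp
        linarith)
      rwa [mon_zero, map_one] at h4)
  have h2 : V.valuation ((L.ω * L.pt) ^ p) ≤ 1 := by
    rw [mul_pow, map_mul]
    calc V.valuation (L.ω ^ p) * V.valuation (L.pt ^ p) ≤
          (V.valuation (L.pt ^ p))⁻¹ * V.valuation (L.pt ^ p) := mul_le_mul' h1 le_rfl
      _ = 1 := inv_mul_cancel₀ hpt0.ne'
  by_contra hcon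
  rw [map_pow] at h2
  exact absurd h2 (not_le.mpr (one_lt_pow₀ (not_le.mp hcon) (by omega)))

theorem vτ (hex : ∃ j, cand b on j = true) (α : Ix A r) : V.valuation (L.τ α) ≤ 1 := by
  rcases α with s | u | c
  · exact L.vt _ _
  · exact L.vτz hex
  · exact L.vτw c

/-- The dominating function. -/
structure Dom (L : LD p b V I A d on Nw M) (i : I) : Prop where
  act : L.act i = true
  max : ∀ j, (b || L.act j) = true →
    V.valuation (mon (L.t j) (L.e j)) ≤ V.valuation (mon (L.t i) (L.e i))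
  one : b = true → 1 < V.valuation (mon (L.t i) (L.e i))
  pow : V.valuation (L.ω ^ p) ≤ V.valuation (mon (L.t i) (L.e i))
  lt : b = true → V.valuation L.ω < V.valuation (mon (L.t i) (L.e i))

theorem exists_dom (hex : ∃ j, cand b on j = true) :
    (∃ i, L.Dom i) ∨ (b = true ∧ ∀ i, L.act i = false) := by
  classical
  by_cases h : ∃ i, L.act i = true
  · left
    obtain ⟨i₀, hi₀⟩ := h
    obtain ⟨i, hi, hmax⟩ := Finset.exists_max_image (Finset.univ.filter fun i => L.act i = true)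
      (fun i => V.valuation (mon (L.t i) (L.e i)))
      ⟨i₀, Finset.mem_filter.mpr ⟨Finset.mem_univ _, hi₀⟩⟩
    have hi' := (Finset.mem_filter.mp hi).2
    have hone : b = true → 1 < V.valuation (mon (L.t i) (L.e i)) := fun hb => L.pole hb i hi'
    have hm : ∀ j, (b || L.act j) = true →
        V.valuation (mon (L.t j) (L.e j)) ≤ V.valuation (mon (L.t i) (L.e i)) := by
      intro j hj
      rcases Bool.eq_false_or_eq_true (L.act j) with hj' | hj'
      · exact hmax j (Finset.mem_filter.mpr ⟨Finset.mem_univ _, hj'⟩)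
      · rcases Bool.eq_false_or_eq_true b with hb | hb
        · rw [L.e0 j hj', mon_zero, map_one]
          exact (hone hb).le
        · have h1 := of_or hj hb
          rw [hj'] at h1
          exact absurd h1 (by decide)
    have hpow := L.vω_le hex (fun hb => (hone hb).le) hm
    refine ⟨i, hi', hm, hone, hpow, fun hb => ?_⟩
    rcases le_or_gt (V.valuation L.ω) 1 with h1 | h1
    · exact h1.trans_lt (hone hb)
    · rw [map_pow] at hpow
      exact (lt_self_pow₀ h1 (Fact.out : p.Prime).one_lt).trans_le hpow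
  · push Not at h
    have h0 : ∀ i, L.act i = false := fun i => by
      have := h i
      rwa [ne_eq, Bool.not_eq_true] at this
    right
    refine ⟨?_, h0⟩
    obtain ⟨j, hj⟩ := hex
    rcases Bool.eq_false_or_eq_true b with hb | hb
    · exact hb
    · exfalso
      cases j with
      | none =>
        have h1 : b = true := hj
        rw [hb] at h1
        exact absurd h1 (by decide)
      | some i =>
        have h1 : (b || on i) = true := hj
        have h2 := of_or h1 hb
        rw [← L.actb hb i, h0 i] at h2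
        exact absurd h2 (by decide)

/-- The size of `z` in the regular case. -/
theorem vω_eq (hb : b = true) (h : ∀ i, L.act i = false) (hex : ∃ j, cand b on j = true) :
    V.valuation L.ω = 1 := by
  refine le_antisymm ?_ (L.one_le_ω hb)
  have h1 := L.vω_le hex (δ := 1) (fun _ => le_rfl) fun i _ => by
    rw [L.e0 i (h i), mon_zero, map_one]
  by_contra hcon
  rw [map_pow] at h1
  exact absurd h1 (not_le.mpr (one_lt_pow₀ (not_le.mp hcon) (Fact.out : p.Prime).ne_zero))

/-- The exponent of a function of a factor. -/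
def ex {I : Type} [DecidableEq I] {A : I → Type} {r : ℕ} (i : I) (e : ∀ i, A i → ℤ) : Ix A r → ℤ :=
  Sum.elim (fun s => if s.1 = i then e s.1 s.2 else 0) 0

/-- The exponent of `ω`. -/
def Ez {I : Type} (A : I → Type) (r M : ℕ) : Ix A r → ℤ :=
  Sum.elim (fun _ => -(M : ℤ)) (Sum.elim (fun _ => 1) 0)

/-- The exponent of `w c`. -/
def Ew {I : Type} (A : I → Type) (M : ℕ) {r : ℕ} (c : Fin r) : Ix A r → ℤ :=
  Sum.elim (fun _ => -(M : ℤ)) (Sum.elim 0 (Pi.single c 1))

theorem prod_sig (e : ∀ i, A i → ℤ) :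
    ∏ s : Σ i, A i, L.t s.1 s.2 ^ e s.1 s.2 = ∏ i, mon (L.t i) (e i) := by
  rw [Fintype.prod_sigma]
  rfl

theorem mon_ex (i : I) (e : ∀ i, A i → ℤ) : mon L.τ (ex i e) = mon (L.t i) (e i) := by
  rw [mon, Fintype.prod_sum_type]
  have h3 : ∏ c, L.τ (Sum.inr c) ^ ((ex i e : Ix A r → ℤ) (Sum.inr c)) = 1 :=
    Finset.prod_eq_one fun c _ => zpow_zero _
  rw [h3, mul_one, Fintype.prod_sigma, Finset.prod_eq_single i]
  · refine Finset.prod_congr rfl fun a _ => ?_
    show L.t i a ^ (if i = i then e i a else 0) = _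
    rw [if_pos rfl]
  · intro j _ hj
    refine Finset.prod_eq_one fun a _ => ?_
    show L.t j a ^ (if j = i then e j a else 0) = _
    rw [if_neg hj, zpow_zero]
  · intro h; exact absurd (Finset.mem_univ _) h

theorem mon_κ (c : Fin r) : mon L.τ (Sum.elim (fun s => L.κ s.1 c s.2) 0 : Ix A r → ℤ) =
    ∏ i, mon (L.t i) (L.κ i c) := by
  rw [mon, Fintype.prod_sum_type]
  have h3 : ∏ c', L.τ (Sum.inr c') ^ ((Sum.elim (fun s => L.κ s.1 c s.2) 0 : Ix A r → ℤ)
      (Sum.inr c')) = 1 := Finset.prod_eq_one fun c _ => zpow_zero _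
  rw [h3, mul_one]
  exact L.prod_sig fun i => L.κ i c

theorem prod_neg : ∏ s : Σ i, A i, L.τ (Sum.inl s) ^ (-(M : ℤ)) = L.pt⁻¹ := by
  have h1 := L.prod_sig fun _ _ => -(M : ℤ)
  have h2 : ∏ s : Σ i, A i, L.τ (Sum.inl s) ^ (-(M : ℤ)) = ∏ i, mon (L.t i) fun _ => -(M : ℤ) := h1
  rw [h2, pt, ← Finset.prod_inv_distrib]
  refine Finset.prod_congr rfl fun i _ => ?_
  rw [← mon_neg]
  rfl

theorem mon_Ew (c : Fin r) : mon L.τ (Ew A M c) = L.w c := by
  rw [mon, Fintype.prod_sum_type, Fintype.prod_sum_type]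
  have h1 : ∏ c', L.τ (Sum.inr (Sum.inr c')) ^ (Ew A M c (Sum.inr (Sum.inr c'))) =
      L.τ (Sum.inr (Sum.inr c)) := by
    rw [Finset.prod_eq_single c]
    · show L.τ (Sum.inr (Sum.inr c)) ^ ((Pi.single c 1 : Fin r → ℤ) c) = _
      rw [Pi.single_eq_same, zpow_one]
    · intro b' _ hb
      show L.τ (Sum.inr (Sum.inr b')) ^ ((Pi.single c 1 : Fin r → ℤ) b') = _
      rw [Pi.single_eq_of_ne hb, zpow_zero]
    · intro h; exact absurd (Finset.mem_univ _) h
  have h2 : ∏ s, L.τ (Sum.inl s) ^ (Ew A M c (Sum.inl s)) = L.pt⁻¹ := L.prod_neg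
  have h3 : ∏ c', L.τ (Sum.inr (Sum.inl c')) ^ (Ew A M c (Sum.inr (Sum.inl c'))) = 1 :=
    Finset.prod_eq_one fun c _ => zpow_zero _
  rw [h1, h2, h3, L.τ_w, one_mul, mul_comm, mul_assoc, mul_inv_cancel₀ L.pt_ne_zero, mul_one]

theorem mon_Ez : mon L.τ (Ez A r M) = L.ω := by
  rw [mon, Fintype.prod_sum_type, Fintype.prod_sum_type]
  have h1 : ∏ c', L.τ (Sum.inr (Sum.inl c')) ^ (Ez A r M (Sum.inr (Sum.inl c'))) =
      L.τ (Sum.inr (Sum.inl ())) := by
    rw [Fintype.prod_unique]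
    exact zpow_one _
  have h2 : ∏ s, L.τ (Sum.inl s) ^ (Ez A r M (Sum.inl s)) = L.pt⁻¹ := L.prod_neg
  have h3 : ∏ c' : Fin r, L.τ (Sum.inr (Sum.inr c')) ^ (Ez A r M (Sum.inr (Sum.inr c'))) = 1 :=
    Finset.prod_eq_one fun c _ => zpow_zero _
  rw [h1, h2, h3, L.τ_z, mul_one, mul_comm, mul_assoc, mul_inv_cancel₀ L.pt_ne_zero, mul_one]

end LD

end Pool.Agent.H96.S
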