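import Pool.Agent.H96.S.LA

/-!
# The relations of a chart of a cover of a product
-/

set_option autoImplicit false
set_option linter.unusedSectionVars false

namespace Pool.Agent.H96.S

open MvPolynomial IsLocalRing Pool.Agent.H96.Reg Pool.Agent.H96.VL Pool.Agent.H96.W
open Pool.Agent.H96.W2 (BX mem_BX zero_mem_BX single_mem_BX single_one_mem_BX neg_mem_BX)

variable {p : ℕ} [Fact p.Prime] {b : Bool} {K : Type} [Field K] [Algebra (ZMod p) K]
  {V : ValuationSubring K} {I : Type} [Fintype I] [DecidableEq I] {A : I → Type}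
  [∀ i, Fintype (A i)] [∀ i, DecidableEq (A i)] {d : I → ℕ} {on : I → Bool} {r : ℕ}
  {Nw : Fin r → ℕ} {M M' : ℕ} {L : LD p b V I A d on Nw M}

/-- The other variables. -/
abbrev LD.υ (L : LD p b V I A d on Nw M) : Type := (Σ i : I, Va (L.n i) (d i)) ⊕ Unit

/-- Their values. -/
noncomputable def LD.Y (L : LD p b V I A d on Nw M) : L.υ → K :=
  Sum.elim (fun s => L.y s.1 s.2) fun _ => L.z / L.ω

theorem LD.Y_inl (L : LD p b V I A d on Nw M) (i : I) (s : Va (L.n i) (d i)) :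
    L.Y (Sum.inl ⟨i, s⟩) = L.y i s := rfl

theorem LD.Y_z (L : LD p b V I A d on Nw M) : L.Y (Sum.inr ()) = L.z / L.ω := rfl

theorem LD.vY (L : LD p b V I A d on Nw M) (hex : ∃ j, cand b on j = true) (l : L.υ) :
    V.valuation (L.Y l) ≤ 1 := by
  rcases l with ⟨i, s⟩ | u
  · exact L.vy i s
  · have h : 0 < V.valuation L.ω := by rw [Valuation.pos_iff]; exact L.ω_ne_zero hex
    show V.valuation (L.z / L.ω) ≤ 1
    rw [map_div₀]
    exact (div_le_one₀ h).mpr L.vz_le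

theorem LD.Y_mul (L : LD p b V I A d on Nw M) (hex : ∃ j, cand b on j = true) :
    L.Y (Sum.inr ()) * L.ω = L.z := div_mul_cancel₀ _ (L.ω_ne_zero hex)

theorem LD.Y_isZ (L : LD p b V I A d on Nw M) (hex : ∃ j, cand b on j = true) (hz : L.isZ) :
    L.Y (Sum.inr ()) = 1 := by
  rw [L.Y_z, ← L.ω_isZ hz, div_self (L.ω_ne_zero hex)]

/-- The terms. -/
abbrev Ts (I : Type) : Type := I ⊕ Bool

theorem sum_Ts {β : Type} [AddCommMonoid β] (g : Ts I → β) : ∑ s, g s =
    ∑ i, g (Sum.inl i) + (g (Sum.inr true) + g (Sum.inr false)) := by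
  rw [Fintype.sum_sum_type, Fintype.sum_bool]

/-- The other exponent of `ω`. -/
noncomputable def LD.θ (L : LD p b V I A d on Nw M) : Ix A r → ℤ :=
  L.piv.elim 0 fun j => LD.ex j L.β

theorem LD.mon_θ (L : LD p b V I A d on Nw M) (hz : ¬ L.isZ) : mon L.τ L.θ = L.ω := by
  rw [L.ω_not hz, LD.θ]
  cases L.piv with
  | none => exact mon_zero
  | some j => exact L.mon_ex j L.β

section Defs

variable (L)

/-- The relations of the colours. -/
noncomputable def LD.cI (s : Σ i, A i) : Ts I → MvPolynomial L.υ (ZMod p) :=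
  Sum.elim (fun _ => 0) fun c => cond c 1
    ((L.l s.1 s.2).elim (-1) fun x => -X (Sum.inl ⟨s.1, Sum.inr x⟩))

def LD.xI (_L : LD p b V I A d on Nw M) (s : Σ i, A i) : Ts I → Ix A r → ℤ :=
  Sum.elim (fun _ => 0) fun c => cond c (Pi.single (Sum.inl s) 1) 0

/-- The relations of the factors. -/
noncomputable def LD.cG (i : I) (j : Fin (L.n i)) : Ts I → MvPolynomial L.υ (ZMod p) :=
  Sum.elim (fun _ => 0) fun c => cond c 0 (rename (fun s => Sum.inl ⟨i, s⟩) (L.G i j))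

/-- The relation of the coordinate `ω`. -/
noncomputable def LD.cP : Ts I → MvPolynomial L.υ (ZMod p) :=
  open Classical in if L.isZ then Sum.elim (fun _ => 0) fun c => cond c (X (Sum.inr ())) (-1) else
    Sum.elim (fun _ => 0) fun c => cond c 1 (-1)

noncomputable def LD.xP : Ts I → Ix A r → ℤ :=
  open Classical in if L.isZ then fun _ => 0 else
    Sum.elim (fun _ => 0) fun c => cond c (LD.Ez A r M) L.θ

/-- The main relation. -/
noncomputable def LD.cJ : Ts I → MvPolynomial L.υ (ZMod p) :=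
  Sum.elim (fun i => cond (b || L.act i) (-X (Sum.inl ⟨i, L.u i⟩)) 0) fun c =>
    cond c (X (Sum.inr ()) ^ p) (cond b (-X (Sum.inr ())) 0)

def LD.xJ : Ts I → Ix A r → ℤ :=
  Sum.elim (fun i => LD.ex i L.e) fun c => cond c ((p : ℤ) • LD.Ez A r M) (LD.Ez A r M)

/-- The Kummer relations. -/
noncomputable def LD.cW (c : Fin r) : Ts I → MvPolynomial L.υ (ZMod p) :=
  Sum.elim (fun _ => 0) fun c' => cond c' 1 (-∏ i, X (Sum.inl ⟨i, L.q i c⟩))

def LD.xW (c : Fin r) : Ts I → Ix A r → ℤ :=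
  Sum.elim (fun _ => 0) fun c' => cond c' ((Nw c : ℤ) • LD.Ew A M c)
    (Sum.elim (fun s => L.κ s.1 c s.2) 0)

end Defs

section Rel

variable (hex : ∃ j, cand b on j = true)

theorem rel_I (s : Σ i, A i) : ∑ c, aeval L.Y (L.cI s c) * mon L.τ (L.xI s c) = 0 := by
  rw [sum_Ts]
  simp only [LD.cI, LD.xI, Sum.elim_inl, Sum.elim_inr, map_zero, zero_mul,
    Finset.sum_const_zero, zero_add, cond_true, cond_false, map_one, one_mul, mon_zero, mul_one]
  rw [mon_single, L.τ_a]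
  cases h : L.l s.1 s.2 with
  | none =>
    show L.t s.1 s.2 + aeval L.Y (-1 : MvPolynomial L.υ (ZMod p)) = 0
    rw [L.l0 _ _ h, map_neg, map_one]; ring
  | some x =>
    show L.t s.1 s.2 + aeval L.Y (-X (Sum.inl ⟨s.1, Sum.inr x⟩) : MvPolynomial L.υ (ZMod p)) = 0
    rw [map_neg, aeval_X, L.Y_inl, (L.l1 _ _ _ h).2.2]; ring

theorem rel_G (i : I) (j : Fin (L.n i)) :
    ∑ s, aeval L.Y (L.cG i j s) * mon L.τ ((0 : Ts I → Ix A r → ℤ) s) = 0 := by
  rw [sum_Ts]
  simp only [LD.cG, Sum.elim_inl, Sum.elim_inr, map_zero, zero_mul,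
    Finset.sum_const_zero, zero_add, cond_true, cond_false]
  rw [aeval_rename]
  have : aeval (L.Y ∘ fun s => Sum.inl ⟨i, s⟩) (L.G i j) = 0 := L.rel i j
  rw [this, zero_mul]

include hex in
theorem rel_P : ∑ s, aeval L.Y (L.cP s) * mon L.τ (L.xP s) = 0 := by
  classical
  rw [sum_Ts]
  by_cases hc : L.isZ
  · simp only [LD.cP, LD.xP, if_pos hc, Sum.elim_inl, Sum.elim_inr, map_zero, zero_mul,
      Finset.sum_const_zero, zero_add, cond_true, cond_false]
    rw [mon_zero, aeval_X, map_neg, map_one, mul_one, mul_one, L.Y_isZ hex hc]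
    ring
  · simp only [LD.cP, LD.xP, if_neg hc, Sum.elim_inl, Sum.elim_inr, map_zero, zero_mul,
      Finset.sum_const_zero, zero_add, cond_true, cond_false, map_one, one_mul, L.mon_Ez,
      L.mon_θ hc]
    rw [map_neg, map_one]; ring

include hex in
theorem rel_J : ∑ s, aeval L.Y (L.cJ s) * mon L.τ (L.xJ s) = 0 := by
  rw [sum_Ts]
  have h1 : ∀ i, aeval L.Y (L.cJ (Sum.inl i)) * mon L.τ (L.xJ (Sum.inl i)) =
      -cond (b || L.act i) (L.y i (L.u i) * mon (L.t i) (L.e i)) 0 := by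
    intro i
    show aeval L.Y (cond (b || L.act i) (-X (Sum.inl ⟨i, L.u i⟩)) 0 : MvPolynomial L.υ (ZMod p)) *
      mon L.τ (LD.ex i L.e) = _
    rw [L.mon_ex]
    rcases Bool.eq_false_or_eq_true (b || L.act i) with h | h
    · rw [cond_t h, cond_t h, map_neg, aeval_X, L.Y_inl]; ring
    · rw [cond_f h, cond_f h, map_zero, zero_mul, neg_zero]
  have h2 : aeval L.Y (L.cJ (Sum.inr true)) * mon L.τ (L.xJ (Sum.inr true)) = L.z ^ p := by
    show aeval L.Y (X (Sum.inr ()) ^ p : MvPolynomial L.υ (ZMod p)) *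
      mon L.τ ((p : ℤ) • LD.Ez A r M) = _
    rw [map_pow, aeval_X, mon_smul, L.mon_Ez, zpow_natCast, ← mul_pow, L.Y_mul hex]
  have h3 : aeval L.Y (L.cJ (Sum.inr false)) * mon L.τ (L.xJ (Sum.inr false)) = -cond b L.z 0 := by
    show aeval L.Y (cond b (-X (Sum.inr ())) 0 : MvPolynomial L.υ (ZMod p)) *
      mon L.τ (LD.Ez A r M) = _
    rw [L.mon_Ez]
    rcases Bool.eq_false_or_eq_true b with h | h
    · rw [cond_t h, cond_t h, map_neg, aeval_X, neg_mul, L.Y_mul hex]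
    · rw [cond_f h, cond_f h, map_zero, zero_mul, neg_zero]
  rw [Finset.sum_congr rfl fun i _ => h1 i, h2, h3, Finset.sum_neg_distrib, ← L.AS]
  ring

theorem rel_W (c : Fin r) : ∑ s, aeval L.Y (L.cW c s) * mon L.τ (L.xW c s) = 0 := by
  rw [sum_Ts]
  simp only [LD.cW, LD.xW, Sum.elim_inl, Sum.elim_inr, cond_true, cond_false,
    map_zero, zero_mul, Finset.sum_const_zero, zero_add, map_one, one_mul]
  rw [mon_smul, L.mon_Ew, zpow_natCast, L.KM, L.mon_κ, map_neg, map_prod, Finset.prod_mul_distrib]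
  have h1 : ∏ i, aeval L.Y (X (Sum.inl ⟨i, L.q i c⟩) : MvPolynomial L.υ (ZMod p)) =
      ∏ i, L.y i (L.q i c) := Finset.prod_congr rfl fun i _ => by rw [aeval_X]; rfl
  rw [h1]; ring

end Rel

/-- The chart. -/
structure Cx (L : LD p b V I A d on Nw M) (M' : ℕ) (C : Cone (Ix A r)) : Prop where
  hex : ∃ j, cand b on j = true
  hC : IsCone C
  hb : ∀ j, V.valuation (mon L.τ (C.b j)) ≤ 1
  hS : ∀ u ∈ BX (Ix A r) M', ∀ u' ∈ BX (Ix A r) M', Sgn C (u - u')
  hM : p * M ≤ M'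
  hp : p ≤ M'
  hN : ∀ c, Nw c ≤ M' ∧ Nw c * M ≤ M'

section Mem

variable {C : Cone (Ix A r)}

theorem Cx.one_le (h : Cx L M' C) : 1 ≤ M' := (Fact.out : p.Prime).one_le.trans h.hp

theorem Cx.M_le (h : Cx L M' C) : M ≤ M' :=
  (Nat.le_mul_of_pos_left _ (Fact.out : p.Prime).pos).trans h.hM

theorem Cx.τ0 (h : Cx L M' C) (α : Ix A r) : L.τ α ≠ 0 := L.τ_ne_zero h.hex α

theorem ex_mem (h : Cx L M' C) {e : ∀ i, A i → ℤ} (he : ∀ i a, |e i a| ≤ M) (i : I) :
    (LD.ex i e : Ix A r → ℤ) ∈ BX (Ix A r) M' := by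
  rw [mem_BX]
  rintro (s | u)
  · show |if s.1 = i then e s.1 s.2 else 0| ≤ _
    split_ifs
    · exact (he _ _).trans (by exact_mod_cast h.M_le)
    · rw [abs_zero]; positivity
  · show |(0 : ℤ)| ≤ _
    rw [abs_zero]; positivity

theorem smul_Ez_mem (h : Cx L M' C) {n : ℕ} (hn : n ≤ p) :
    (n : ℤ) • LD.Ez A r M ∈ BX (Ix A r) M' := by
  rw [mem_BX]
  rintro (s | u | c)
  · show |(n : ℤ) * (-(M : ℤ))| ≤ _
    rw [mul_neg, abs_neg, ← Nat.cast_mul, Nat.abs_cast]
    exact_mod_cast (Nat.mul_le_mul_right _ hn).trans h.hM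
  · show |(n : ℤ) * 1| ≤ _
    rw [mul_one, Nat.abs_cast]
    exact_mod_cast hn.trans h.hp
  · show |(n : ℤ) * 0| ≤ _
    rw [mul_zero, abs_zero]; positivity

theorem Ez_mem (h : Cx L M' C) : LD.Ez A r M ∈ BX (Ix A r) M' := by
  have := smul_Ez_mem h (n := 1) (Fact.out : p.Prime).one_le
  rwa [Nat.cast_one, one_smul] at this

theorem θ_mem (h : Cx L M' C) : L.θ ∈ BX (Ix A r) M' := by
  rw [LD.θ]
  cases L.piv with
  | none => exact zero_mem_BX
  | some j => exact ex_mem h L.βM j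

theorem xI_mem (h : Cx L M' C) (s : Σ i, A i) (c : Ts I) : L.xI s c ∈ BX (Ix A r) M' := by
  rcases c with c | _ | _
  · exact zero_mem_BX
  · exact zero_mem_BX
  · exact single_one_mem_BX _ h.one_le

theorem xP_mem (h : Cx L M' C) (c : Ts I) : L.xP c ∈ BX (Ix A r) M' := by
  classical
  rw [LD.xP]
  split_ifs with hc
  · exact zero_mem_BX
  · rcases c with c | _ | _
    · exact zero_mem_BX
    · exact θ_mem h
    · exact Ez_mem h

theorem xJ_mem (h : Cx L M' C) (c : Ts I) : L.xJ c ∈ BX (Ix A r) M' := by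
  rcases c with i | _ | _
  · exact ex_mem h L.eM i
  · exact Ez_mem h
  · exact smul_Ez_mem h le_rfl

theorem xW_mem (h : Cx L M' C) (c : Fin r) (s : Ts I) : L.xW c s ∈ BX (Ix A r) M' := by
  rcases s with s | _ | _
  · exact zero_mem_BX
  · rw [mem_BX]
    rintro (s | c')
    · exact (L.κM s.1 c s.2).trans (by exact_mod_cast h.M_le)
    · show |(0 : ℤ)| ≤ _
      rw [abs_zero]; positivity
  · rw [mem_BX]
    obtain ⟨h1, h2⟩ := h.hN c
    rintro (s | u | c')
    · show |(Nw c : ℤ) * (-(M : ℤ))| ≤ _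
      rw [mul_neg, abs_neg, ← Nat.cast_mul, Nat.abs_cast]
      exact_mod_cast h2
    · show |(Nw c : ℤ) * 0| ≤ _
      rw [mul_zero, abs_zero]; positivity
    · show |(Nw c : ℤ) * (Pi.single c 1 : Fin r → ℤ) c'| ≤ _
      rw [Pi.single_apply]
      split_ifs
      · rw [mul_one, Nat.abs_cast]
        exact_mod_cast h1
      · rw [mul_zero, abs_zero]; positivity

end Mem

end Pool.Agent.H96.S
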