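import Pool.Agent.H96.S.LB

/-!
# The differentials of the relations of a chart
-/

set_option autoImplicit false
set_option linter.unusedSectionVars false

namespace Pool.Agent.H96.S

open MvPolynomial IsLocalRing Pool.Agent.H96.Reg Pool.Agent.H96.VL Pool.Agent.H96.W
open Pool.Agent.H96.W2 (BX mem_BX zero_mem_BX single_mem_BX single_one_mem_BX neg_mem_BX)

variable {p : ℕ} [Fact p.Prime] {b : Bool} {K : Type} [Field K] [Algebra (ZMod p) K]
  {V : ValuationSubring K} {I : Type} [Fintype I] [DecidableEq I] {A : I → Type}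
  [∀ i, Fintype (A i)] [∀ i, DecidableEq (A i)] {d : I → ℕ} {on : I → Bool} {r : ℕ}
  {Nw : Fin r → ℕ} {M M' : ℕ} {L : LD p b V I A d on Nw M}
  [Algebra (ZMod p) (ResidueField V)] {C : Cone (Ix A r)}

theorem zc0 (V : ValuationSubring K) : (((0 : ℤ)) : ResidueField V) = 0 := Int.cast_zero

theorem zc_ne (V : ValuationSubring K) [Algebra (ZMod p) (ResidueField V)] {n : ℤ}
    (hn : ¬ (p : ℤ) ∣ n) : (n : ResidueField V) ≠ 0 := by
  have hc : CharP (ResidueField V) p :=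
    charP_of_injective_algebraMap (algebraMap (ZMod p) (ResidueField V)).injective p
  rwa [Ne, CharP.intCast_eq_zero_iff (ResidueField V) p]

section RI

theorem LL_I_none (h : Cx L M' C) {s : Σ i, A i} (hs : L.l s.1 s.2 = none) :
    LL V L.τ L.Y C (L.cI s) (L.xI s) (Sum.inl s) ≠ 0 := by
  classical
  refine LL_ne_zero (Sum.inr true) ?_ ?_ ?_ ?_
  · rintro (c | _ | _) hc
    · exact Or.inl rfl
    · exact Or.inr (Or.inr (zc0 V))
    · exact absurd rfl hc
  · show aeval _ (1 : MvPolynomial L.υ (ZMod p)) ≠ 0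
    rw [map_one]; exact one_ne_zero
  · refine ee_ne_zero h.τ0 h.hC h.hb
      (fun c _ c' _ => h.hS _ (xI_mem h s c) _ (xI_mem h s c'))
      (show L.cI s (Sum.inr true) ≠ 0 from one_ne_zero) ?_
    rintro (c | _ | _) hc
    · exact absurd rfl hc
    · show V.valuation (mon L.τ 0) ≤ V.valuation (mon L.τ (Pi.single (Sum.inl s) 1))
      rw [mon_zero, mon_single, L.τ_a, L.l0 _ _ hs]
    · exact le_rfl
  · show (((Pi.single (Sum.inl s) 1 : Ix A r → ℤ) (Sum.inl s) : ℤ) : ResidueField V) ≠ 0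
    rw [Pi.single_eq_same, Int.cast_one]
    exact one_ne_zero

theorem LL_I_of_ne {s : Σ i, A i} {α : Ix A r} (hα : α ≠ Sum.inl s) :
    LL V L.τ L.Y C (L.cI s) (L.xI s) α = 0 := by
  apply LL_eq_zero
  rintro (c | _ | _)
  · exact Or.inl rfl
  · exact Or.inr (Or.inr (zc0 V))
  · right; right
    show (((Pi.single (Sum.inl s) 1 : Ix A r → ℤ) α : ℤ) : ResidueField V) = 0
    rw [Pi.single_eq_of_ne hα, Int.cast_zero]

theorem cI_false_ne (s : Σ i, A i) : L.cI s (Sum.inr false) ≠ 0 := by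
  show ((L.l s.1 s.2).elim (-1) fun x => -X (Sum.inl ⟨s.1, Sum.inr x⟩) :
    MvPolynomial L.υ (ZMod p)) ≠ 0
  cases L.l s.1 s.2 with
  | none => exact neg_ne_zero.mpr one_ne_zero
  | some x => exact neg_ne_zero.mpr (X_ne_zero _)

theorem vt_lt {i : I} {a : A i} (ha : L.l i a ≠ none) : V.valuation (L.t i a) < 1 := by
  cases h : L.l i a with
  | none => exact absurd h ha
  | some c => exact (L.l1 i a c h).1

theorem LL_I_some (h : Cx L M' C) {s : Σ i, A i} (hs : L.l s.1 s.2 ≠ none) (α : Ix A r) :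
    LL V L.τ L.Y C (L.cI s) (L.xI s) α = 0 := by
  apply LL_eq_zero
  rintro (c | _ | _)
  · exact Or.inl rfl
  · exact Or.inr (Or.inr (zc0 V))
  · right; left
    refine ee_eq_zero h.τ0 h.hC h.hb
      (fun c _ c' _ => h.hS _ (xI_mem h s c) _ (xI_mem h s c'))
      (show L.cI s (Sum.inr true) ≠ 0 from one_ne_zero) (cI_false_ne s) ?_
    show V.valuation (mon L.τ (Pi.single (Sum.inl s) 1)) < V.valuation (mon L.τ 0)
    rw [mon_zero, mon_single, L.τ_a, map_one]
    exact vt_lt hs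

theorem TT_I_none {s : Σ i, A i} (hs : L.l s.1 s.2 = none) (l : L.υ) :
    TT V L.τ L.Y C (L.cI s) (L.xI s) l = 0 := by
  apply TT_eq_zero
  rintro (c | _ | _)
  · exact map_zero _
  · show pderiv l ((L.l s.1 s.2).elim (-1) fun x => -X (Sum.inl ⟨s.1, Sum.inr x⟩) :
      MvPolynomial L.υ (ZMod p)) = 0
    rw [hs]
    show pderiv l (-1 : MvPolynomial L.υ (ZMod p)) = 0
    rw [map_neg, ← MvPolynomial.C_1, pderiv_C, neg_zero]
  · show pderiv l (1 : MvPolynomial L.υ (ZMod p)) = 0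
    rw [← MvPolynomial.C_1, pderiv_C]

theorem TT_I_some (h : Cx L M' C) {s : Σ i, A i} {x : Fin (d s.1)} (hs : L.l s.1 s.2 = some x) :
    ∃ w : ResidueField V, w ≠ 0 ∧
    ∀ l, TT V L.τ L.Y C (L.cI s) (L.xI s) l = if l = Sum.inl ⟨s.1, Sum.inr x⟩ then w else 0 := by
  classical
  have hs' : L.l s.1 s.2 ≠ none := by rw [hs]; exact Option.some_ne_none x
  refine ⟨-ee V L.τ C (mrel C (L.cI s) (L.xI s)) (Sum.inr false), neg_ne_zero.mpr ?_,
    fun l => ?_⟩
  · refine ee_ne_zero h.τ0 h.hC h.hb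
      (fun c _ c' _ => h.hS _ (xI_mem h s c) _ (xI_mem h s c'))
      (cI_false_ne s) ?_
    rintro (c | _ | _) hc
    · exact absurd rfl hc
    · exact le_rfl
    · show V.valuation (mon L.τ (Pi.single (Sum.inl s) 1)) ≤ V.valuation (mon L.τ 0)
      rw [mon_zero, mon_single, L.τ_a, map_one]
      exact (vt_lt hs').le
  · rw [TT_eq_single (Sum.inr false)]
    · have h1 : L.cI s (Sum.inr false) = -X (Sum.inl ⟨s.1, Sum.inr x⟩) := by
        show ((L.l s.1 s.2).elim (-1) fun x => -X (Sum.inl ⟨s.1, Sum.inr x⟩) :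
          MvPolynomial L.υ (ZMod p)) = _
        rw [hs]
        rfl
      rw [h1, map_neg, pderiv_X, Pi.single_apply]
      by_cases hl : l = Sum.inl ⟨s.1, Sum.inr x⟩
      · rw [if_pos hl.symm, if_pos hl, map_neg, map_one, neg_one_mul]
      · rw [if_neg (Ne.symm hl), if_neg hl, neg_zero, map_zero, zero_mul]
    · rintro (c | _ | _) hc
      · exact map_zero _
      · exact absurd rfl hc
      · show pderiv l (1 : MvPolynomial L.υ (ZMod p)) = 0
        rw [← MvPolynomial.C_1, pderiv_C]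

theorem TT_I_of (h : Cx L M' C) (s : Σ i, A i) {l : L.υ}
    (hl : ∀ x, L.l s.1 s.2 = some x → l ≠ Sum.inl ⟨s.1, Sum.inr x⟩) :
    TT V L.τ L.Y C (L.cI s) (L.xI s) l = 0 := by
  cases hs : L.l s.1 s.2 with
  | none => exact TT_I_none hs l
  | some x =>
    obtain ⟨w, -, hw⟩ := TT_I_some (L := L) h hs
    rw [hw, if_neg (hl x hs)]

end RI

section RG

theorem LL_0 (c : Ts I → MvPolynomial L.υ (ZMod p)) (α : Ix A r) :
    LL V L.τ L.Y C c 0 α = 0 := by
  apply LL_eq_zero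
  intro s
  exact Or.inr (Or.inr (zc0 V))

theorem TT_G (i : I) (j : Fin (L.n i)) (l : L.υ) :
    TT V L.τ L.Y C (L.cG i j) 0 l = aeval (fun l => resv V (L.Y l))
      (pderiv l (rename (fun s => Sum.inl ⟨i, s⟩) (L.G i j) : MvPolynomial L.υ (ZMod p))) := by
  classical
  rw [TT_eq_single (Sum.inr false)]
  · have h1 : L.cG i j (Sum.inr false) = rename (fun s => Sum.inl ⟨i, s⟩) (L.G i j) := rfl
    by_cases h2 : L.cG i j (Sum.inr false) = 0
    · rw [← h1, h2, map_zero, map_zero, zero_mul]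
    · have he : ee V L.τ C (mrel C (L.cG i j) 0) (Sum.inr false) = 1 :=
        ee_eq_one (fun s _ => rfl) h2
      rw [he, mul_one, h1]
  · rintro (s | _ | _) hs
    · exact map_zero _
    · exact absurd rfl hs
    · exact map_zero _

theorem TT_G_same (i : I) (j : Fin (L.n i)) (s : Va (L.n i) (d i)) :
    TT V L.τ L.Y C (L.cG i j) 0 (Sum.inl ⟨i, s⟩ : L.υ) =
      aeval (fun s => resv V (L.y i s)) (pderiv s (L.G i j)) := by
  have hinj : Function.Injective (fun s : Va (L.n i) (d i) => (Sum.inl ⟨i, s⟩ : L.υ)) := by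
    intro s s' hss
    simpa using hss
  have h1 := pderiv_rename hinj s (L.G i j)
  rw [TT_G]
  have h2 : pderiv (Sum.inl ⟨i, s⟩ : L.υ) (rename (fun s => Sum.inl ⟨i, s⟩) (L.G i j)) =
      rename (fun s => Sum.inl ⟨i, s⟩) (pderiv s (L.G i j)) := h1
  rw [h2, aeval_rename]
  rfl

theorem TT_G_of_notMem (i : I) (j : Fin (L.n i)) (l : L.υ) (hl : ∀ s, l ≠ Sum.inl ⟨i, s⟩) :
    TT V L.τ L.Y C (L.cG i j) 0 l = 0 := by
  rw [TT_G, pderiv_eq_zero_of_notMem_vars, map_zero]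
  intro h
  obtain ⟨s, -, hs⟩ := mem_vars_rename _ _ h
  exact hl s hs.symm

end RG

section RP

theorem cP_isZ (hc : L.isZ) :
    L.cP = Sum.elim (fun _ => 0) fun c => cond c (X (Sum.inr ())) (-1) := if_pos hc

theorem cP_not (hc : ¬ L.isZ) :
    L.cP = Sum.elim (fun _ => 0) fun c => cond c 1 (-1) := if_neg hc

theorem xP_isZ (hc : L.isZ) : L.xP = fun _ => 0 := if_pos hc

theorem xP_not (hc : ¬ L.isZ) : L.xP =
    Sum.elim (fun _ => 0) fun c => cond c (LD.Ez A r M) L.θ := if_neg hc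

theorem LL_P_isZ (hc : L.isZ) (α : Ix A r) :
    LL V L.τ L.Y C L.cP L.xP α = 0 := by
  apply LL_eq_zero
  intro s
  right; right
  rw [xP_isZ hc]
  exact zc0 V

theorem θ_inr (α : Unit ⊕ Fin r) : L.θ (Sum.inr α) = 0 := by
  rw [LD.θ]
  cases L.piv with
  | none => rfl
  | some j => rfl

theorem LL_P_not (h : Cx L M' C) (hc : ¬ L.isZ) :
    LL V L.τ L.Y C L.cP L.xP (Sum.inr (Sum.inl ())) ≠ 0 := by
  classical
  refine LL_ne_zero (Sum.inr true) ?_ ?_ ?_ ?_
  · rintro (s | _ | _) hs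
    · left; rw [cP_not hc]; rfl
    · right; right
      rw [xP_not hc]
      show ((L.θ (Sum.inr (Sum.inl ())) : ℤ) : ResidueField V) = 0
      rw [θ_inr, Int.cast_zero]
    · exact absurd rfl hs
  · rw [cP_not hc]
    show aeval _ (1 : MvPolynomial L.υ (ZMod p)) ≠ 0
    rw [map_one]; exact one_ne_zero
  · refine ee_ne_zero h.τ0 h.hC h.hb
      (fun s _ s' _ => h.hS _ (xP_mem h s) _ (xP_mem h s'))
      (by rw [cP_not hc]; exact one_ne_zero) ?_
    intro s hs
    rw [cP_not hc] at hs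
    rw [xP_not hc]
    rcases s with s | _ | _
    · exact absurd rfl hs
    · show V.valuation (mon L.τ L.θ) ≤ V.valuation (mon L.τ (LD.Ez A r M))
      rw [L.mon_θ hc, L.mon_Ez]
    · exact le_rfl
  · rw [xP_not hc]
    show (((1 : ℤ)) : ResidueField V) ≠ 0
    rw [Int.cast_one]
    exact one_ne_zero

theorem LL_P_w (c : Fin r) : LL V L.τ L.Y C L.cP L.xP (Sum.inr (Sum.inr c)) = 0 := by
  by_cases hc : L.isZ
  · exact LL_P_isZ hc _
  · apply LL_eq_zero
    rw [cP_not hc, xP_not hc]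
    rintro (s | _ | _)
    · exact Or.inl rfl
    · right; right
      show ((L.θ (Sum.inr (Sum.inr c)) : ℤ) : ResidueField V) = 0
      rw [θ_inr, Int.cast_zero]
    · right; right
      exact zc0 V

theorem TT_P_not (hc : ¬ L.isZ) (l : L.υ) :
    TT V L.τ L.Y C L.cP L.xP l = 0 := by
  apply TT_eq_zero
  rw [cP_not hc]
  rintro (s | _ | _)
  · exact map_zero _
  · show pderiv l (-1 : MvPolynomial L.υ (ZMod p)) = 0
    rw [map_neg, ← MvPolynomial.C_1, pderiv_C, neg_zero]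
  · show pderiv l (1 : MvPolynomial L.υ (ZMod p)) = 0
    rw [← MvPolynomial.C_1, pderiv_C]

theorem TT_P_isZ (hc : L.isZ) (l : L.υ) :
    TT V L.τ L.Y C L.cP L.xP l = if l = Sum.inr () then 1 else 0 := by
  classical
  rw [TT_eq_single (Sum.inr true)]
  · have h1 : L.cP (Sum.inr true) = X (Sum.inr ()) := by rw [cP_isZ hc]; rfl
    have he : ee V L.τ C (mrel C L.cP L.xP) (Sum.inr true) = 1 :=
      ee_eq_one (fun s _ => by rw [xP_isZ hc]) (by rw [h1]; exact X_ne_zero _)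
    rw [he, mul_one, h1, pderiv_X, Pi.single_apply]
    by_cases hl : l = Sum.inr ()
    · rw [if_pos hl.symm, if_pos hl, map_one]
    · rw [if_neg (Ne.symm hl), if_neg hl, map_zero]
  · rw [cP_isZ hc]
    rintro (s | _ | _) hs
    · exact map_zero _
    · show pderiv l (-1 : MvPolynomial L.υ (ZMod p)) = 0
      rw [map_neg, ← MvPolynomial.C_1, pderiv_C, neg_zero]
    · exact absurd rfl hs

end RP

section RJ

theorem cJ_i_pos {i : I} (hi : (b || L.act i) = true) :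
    L.cJ (Sum.inl i) = -X (Sum.inl ⟨i, L.u i⟩) := cond_t hi _ _

theorem cJ_i_ne {i : I} (h : L.cJ (Sum.inl i) ≠ 0) : (b || L.act i) = true := by
  rcases Bool.eq_false_or_eq_true (b || L.act i) with hi | hi
  · exact hi
  · exact absurd (cond_f hi _ _) h

theorem cJ_t : L.cJ (Sum.inr true) = X (Sum.inr ()) ^ p := rfl

theorem cJ_f_pos (hb : b = true) : L.cJ (Sum.inr false) = -X (Sum.inr ()) := cond_t hb _ _

theorem cJ_f_ne (h : L.cJ (Sum.inr false) ≠ 0) : b = true := by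
  rcases Bool.eq_false_or_eq_true b with hi | hi
  · exact hi
  · exact absurd (cond_f hi _ _) h

theorem xJ_t_cast (α : Ix A r) :
    (((L.xJ (Sum.inr true) α : ℤ)) : ResidueField V) = 0 := by
  show ((((p : ℤ) • LD.Ez A r M) α : ℤ) : ResidueField V) = 0
  rw [Pi.smul_apply, smul_eq_mul, Int.cast_mul, Int.cast_natCast, natCast_p V, zero_mul]

theorem xJ_i_ne {i : I} {s : Σ i, A i} (hi : s.1 ≠ i) : L.xJ (Sum.inl i) (Sum.inl s) = 0 := by
  show (if s.1 = i then L.e s.1 s.2 else 0) = 0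
  rw [if_neg hi]

theorem xJ_i_same (i : I) (a : A i) : L.xJ (Sum.inl i) (Sum.inl ⟨i, a⟩) = L.e i a := by
  show (if i = i then L.e i a else 0) = _
  rw [if_pos rfl]

theorem mon_xJ_i (i : I) : mon L.τ (L.xJ (Sum.inl i)) = mon (L.t i) (L.e i) := L.mon_ex i L.e

theorem mon_xJ_t : mon L.τ (L.xJ (Sum.inr true)) = L.ω ^ p := by
  show mon L.τ ((p : ℤ) • LD.Ez A r M) = _
  rw [mon_smul, L.mon_Ez, zpow_natCast]

theorem mon_xJ_f : mon L.τ (L.xJ (Sum.inr false)) = L.ω := L.mon_Ez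

/-- The columns of the Kummer coordinates. -/
theorem LL_J_w (c : Fin r) : LL V L.τ L.Y C L.cJ L.xJ (Sum.inr (Sum.inr c)) = 0 := by
  apply LL_eq_zero
  rintro (i | _ | _)
  · exact Or.inr (Or.inr (zc0 V))
  · exact Or.inr (Or.inr (zc0 V))
  · exact Or.inr (Or.inr (xJ_t_cast _))

theorem pderiv_cJ_t (l : L.υ) : pderiv l (L.cJ (Sum.inr true)) = 0 := by
  have hcp : ((p : ℕ) : MvPolynomial L.υ (ZMod p)) = 0 := by
    rw [← map_natCast MvPolynomial.C, ZMod.natCast_self, map_zero]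
  rw [cJ_t, pderiv_pow, hcp, zero_mul, zero_mul]

theorem pderiv_cJ_i {i : I} {l : L.υ} (hl : l ≠ Sum.inl ⟨i, L.u i⟩) :
    pderiv l (L.cJ (Sum.inl i)) = 0 := by
  rcases Bool.eq_false_or_eq_true (b || L.act i) with hi | hi
  · rw [cJ_i_pos hi, map_neg, pderiv_X_of_ne hl.symm, neg_zero]
  · have h1 : L.cJ (Sum.inl i) = 0 := cond_f hi _ _
    rw [h1, map_zero]

theorem pderiv_cJ_f {l : L.υ} (hl : l ≠ Sum.inr ()) :
    pderiv l (L.cJ (Sum.inr false)) = 0 := by
  rcases Bool.eq_false_or_eq_true b with hi | hi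
  · rw [cJ_f_pos hi, map_neg, pderiv_X_of_ne hl.symm, neg_zero]
  · have h1 : L.cJ (Sum.inr false) = 0 := cond_f hi _ _
    rw [h1, map_zero]

section Dom

variable {i : I}

theorem cJ_dom_ne (hd : L.Dom i) : L.cJ (Sum.inl i) ≠ 0 := by
  rw [cJ_i_pos (or_t (Or.inr hd.act))]
  exact neg_ne_zero.mpr (X_ne_zero _)

/-- The dominating term. -/
theorem ee_J_dom (h : Cx L M' C) (hd : L.Dom i) :
    ee V L.τ C (mrel C L.cJ L.xJ) (Sum.inl i) ≠ 0 := by
  refine ee_ne_zero h.τ0 h.hC h.hb (fun s _ s' _ => h.hS _ (xJ_mem h s) _ (xJ_mem h s'))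
    (cJ_dom_ne hd) ?_
  rintro (j | _ | _) hs
  · rw [mon_xJ_i, mon_xJ_i]
    exact hd.max j (cJ_i_ne hs)
  · rw [mon_xJ_i, mon_xJ_f]
    exact (hd.lt (cJ_f_ne hs)).le
  · rw [mon_xJ_i, mon_xJ_t]
    exact hd.pow

/-- The linear term is dominated. -/
theorem ee_J_f (h : Cx L M' C) (hd : L.Dom i) : L.cJ (Sum.inr false) = 0 ∨
    ee V L.τ C (mrel C L.cJ L.xJ) (Sum.inr false) = 0 := by
  by_cases h1 : L.cJ (Sum.inr false) = 0
  · exact Or.inl h1
  · right
    refine ee_eq_zero h.τ0 h.hC h.hb (fun s _ s' _ => h.hS _ (xJ_mem h s) _ (xJ_mem h s'))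
      h1 (cJ_dom_ne hd) ?_
    rw [mon_xJ_i, mon_xJ_f]
    exact hd.lt (cJ_f_ne h1)

theorem LL_J_z (h : Cx L M' C) (hd : L.Dom i) :
    LL V L.τ L.Y C L.cJ L.xJ (Sum.inr (Sum.inl ())) = 0 := by
  apply LL_eq_zero
  rintro (j | _ | _)
  · exact Or.inr (Or.inr (zc0 V))
  · rcases ee_J_f h hd with h1 | h1
    · exact Or.inl h1
    · exact Or.inr (Or.inl h1)
  · exact Or.inr (Or.inr (xJ_t_cast _))

theorem TT_J_z (h : Cx L M' C) (hd : L.Dom i) :
    TT V L.τ L.Y C L.cJ L.xJ (Sum.inr ()) = 0 := by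
  refine Finset.sum_eq_zero fun s _ => ?_
  rcases s with j | _ | _
  · rw [pderiv_cJ_i Sum.inr_ne_inl, map_zero, zero_mul]
  · rcases ee_J_f h hd with h1 | h1
    · rw [h1, map_zero, map_zero, zero_mul]
    · rw [h1, mul_zero]
  · rw [pderiv_cJ_t, map_zero, zero_mul]

/-- The first type. -/
theorem LL_J_a (h : Cx L M' C) (hd : L.Dom i) {a : A i} (he : ¬ (p : ℤ) ∣ L.e i a)
    (hu : V.valuation (L.y i (L.u i)) = 1) :
    LL V L.τ L.Y C L.cJ L.xJ (Sum.inl ⟨i, a⟩) ≠ 0 := by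
  classical
  refine LL_ne_zero (Sum.inl i) ?_ ?_ (ee_J_dom h hd) ?_
  · rintro (j | _ | _) hs
    · right; right
      rw [xJ_i_ne (by
        intro h'
        apply hs
        rw [show i = j from h']), Int.cast_zero]
    · rcases ee_J_f h hd with h1 | h1
      · exact Or.inl h1
      · exact Or.inr (Or.inl h1)
    · exact Or.inr (Or.inr (xJ_t_cast _))
  · rw [cJ_i_pos (or_t (Or.inr hd.act)), map_neg, aeval_X]
    refine neg_ne_zero.mpr ?_
    rw [L.Y_inl, resv_ne_zero_iff (L.vy _ _)]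
    exact hu
  · rw [xJ_i_same]
    exact zc_ne V he

/-- The second type. -/
theorem TT_J_u (h : Cx L M' C) (hd : L.Dom i) :
    TT V L.τ L.Y C L.cJ L.xJ (Sum.inl ⟨i, L.u i⟩) ≠ 0 := by
  classical
  rw [TT_eq_single (Sum.inl i)]
  · rw [cJ_i_pos (or_t (Or.inr hd.act)), map_neg, pderiv_X_self, map_neg, map_one]
    exact mul_ne_zero (neg_ne_zero.mpr one_ne_zero) (ee_J_dom h hd)
  · rintro (j | _ | _) hs
    · refine pderiv_cJ_i fun h' => hs ?_
      have := congrArg Sigma.fst (Sum.inl_injective h')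
      have h2 : i = j := this
      rw [h2]
    · exact pderiv_cJ_f Sum.inl_ne_inr
    · exact pderiv_cJ_t _

theorem TT_J_of {l : L.υ} (hl : l ≠ Sum.inr ()) (hl' : ∀ j, l ≠ Sum.inl ⟨j, L.u j⟩) :
    TT V L.τ L.Y C L.cJ L.xJ l = 0 := by
  apply TT_eq_zero
  rintro (j | _ | _)
  · exact pderiv_cJ_i (hl' j)
  · exact pderiv_cJ_f hl
  · exact pderiv_cJ_t _

end Dom

section Et

/-- The linear term in the regular case. -/
theorem ee_J_lin (h : Cx L M' C) (hb : b = true) (ha : ∀ i, L.act i = false) :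
    ee V L.τ C (mrel C L.cJ L.xJ) (Sum.inr false) ≠ 0 := by
  have h1 : L.cJ (Sum.inr false) ≠ 0 := by
    rw [cJ_f_pos hb]; exact neg_ne_zero.mpr (X_ne_zero _)
  have hω := L.vω_eq hb ha h.hex
  refine ee_ne_zero h.τ0 h.hC h.hb (fun s _ s' _ => h.hS _ (xJ_mem h s) _ (xJ_mem h s'))
    h1 ?_
  rintro (j | _ | _) hs
  · rw [mon_xJ_i, mon_xJ_f, L.e0 j (ha j), mon_zero, map_one, hω]
  · exact le_rfl
  · rw [mon_xJ_f, mon_xJ_t, map_pow, hω, one_pow]

theorem LL_J_et (h : Cx L M' C) (hb : b = true) (ha : ∀ i, L.act i = false) (hz : L.isZ) :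
    LL V L.τ L.Y C L.cJ L.xJ (Sum.inr (Sum.inl ())) ≠ 0 := by
  classical
  refine LL_ne_zero (Sum.inr false) ?_ ?_ (ee_J_lin h hb ha) ?_
  · rintro (j | _ | _) hs
    · exact Or.inr (Or.inr (zc0 V))
    · exact absurd rfl hs
    · exact Or.inr (Or.inr (xJ_t_cast _))
  · rw [cJ_f_pos hb, map_neg, aeval_X, L.Y_isZ h.hex hz, resv_one]
    exact neg_ne_zero.mpr one_ne_zero
  · show (((1 : ℤ)) : ResidueField V) ≠ 0
    rw [Int.cast_one]
    exact one_ne_zero

theorem TT_J_et (h : Cx L M' C) (hb : b = true) (ha : ∀ i, L.act i = false) :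
    TT V L.τ L.Y C L.cJ L.xJ (Sum.inr ()) ≠ 0 := by
  classical
  rw [TT_eq_single (Sum.inr false)]
  · rw [cJ_f_pos hb, map_neg, pderiv_X_self, map_neg, map_one]
    exact mul_ne_zero (neg_ne_zero.mpr one_ne_zero) (ee_J_lin h hb ha)
  · rintro (j | _ | _) hs
    · exact pderiv_cJ_i Sum.inr_ne_inl
    · exact absurd rfl hs
    · exact pderiv_cJ_t _

end Et

end RJ

section RW

theorem LL_W_self (h : Cx L M' C) (c : Fin r) :
    LL V L.τ L.Y C (L.cW c) (L.xW c) (Sum.inr (Sum.inr c)) ≠ 0 := by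
  classical
  refine LL_ne_zero (Sum.inr true) ?_ ?_ ?_ ?_
  · rintro (s | _ | _) hs
    · exact Or.inl rfl
    · exact Or.inr (Or.inr (zc0 V))
    · exact absurd rfl hs
  · show aeval _ (1 : MvPolynomial L.υ (ZMod p)) ≠ 0
    rw [map_one]; exact one_ne_zero
  · refine ee_ne_zero h.τ0 h.hC h.hb
      (fun s _ s' _ => h.hS _ (xW_mem h c s) _ (xW_mem h c s'))
      (show L.cW c (Sum.inr true) ≠ 0 from one_ne_zero) ?_
    rintro (s | _ | _) hs
    · exact absurd rfl hs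
    · show V.valuation (mon L.τ (Sum.elim (fun s => L.κ s.1 c s.2) 0 : Ix A r → ℤ)) ≤
        V.valuation (mon L.τ ((Nw c : ℤ) • LD.Ew A M c))
      rw [mon_smul, L.mon_Ew, zpow_natCast, L.KM, L.mon_κ, Finset.prod_mul_distrib, map_mul,
        map_prod V.valuation (fun i => L.y i (L.q i c)),
        Finset.prod_eq_one (fun i _ => L.vq i c), one_mul]
    · exact le_rfl
  · show (((Nw c : ℤ) * (Pi.single c 1 : Fin r → ℤ) c : ℤ) : ResidueField V) ≠ 0
    rw [Pi.single_eq_same, mul_one, Int.cast_natCast]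
    exact natCast_ne V (L.Nw0 c)

theorem LL_W_of_ne {c c' : Fin r} (hne : c' ≠ c) :
    LL V L.τ L.Y C (L.cW c) (L.xW c) (Sum.inr (Sum.inr c')) = 0 := by
  classical
  apply LL_eq_zero
  rintro (s | _ | _)
  · exact Or.inl rfl
  · exact Or.inr (Or.inr (zc0 V))
  · right; right
    show (((Nw c : ℤ) * (Pi.single c 1 : Fin r → ℤ) c' : ℤ) : ResidueField V) = 0
    rw [Pi.single_eq_of_ne hne, mul_zero, Int.cast_zero]

end RW

end Pool.Agent.H96.S
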