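import Pool.Agent.H96.S.LC

/-!
# Local regularity
-/

set_option autoImplicit false
set_option linter.unusedSectionVars false

namespace Pool.Agent.H96.S

open MvPolynomial IsLocalRing Pool.Agent.H96.Reg Pool.Agent.H96.VL Pool.Agent.H96.W
open Pool.Agent.H96.W2 (BX mem_BX zero_mem_BX single_mem_BX single_one_mem_BX neg_mem_BX)

variable {p : ℕ} [Fact p.Prime] {b : Bool} {K : Type} [Field K] [Algebra (ZMod p) K]
  {V : ValuationSubring K} {I : Type} [Fintype I] [DecidableEq I] {A : I → Type}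
  [∀ i, Fintype (A i)] [∀ i, DecidableEq (A i)] {d : I → ℕ} {on : I → Bool} {r : ℕ}
  {Nw : Fin r → ℕ} {M M' : ℕ} {L : LD p b V I A d on Nw M}
  [Algebra (ZMod p) (ResidueField V)] {C : Cone (Ix A r)}

/-- The index set of the relations. -/
abbrev LD.Rw (L : LD p b V I A d on Nw M) : Type :=
  (Σ i, A i) ⊕ ((Σ i : I, Fin (L.n i)) ⊕ (Unit ⊕ (Unit ⊕ Fin r)))

/-- The coefficients of the relations. -/
noncomputable def LD.cc (L : LD p b V I A d on Nw M) : L.Rw → Ts I → MvPolynomial L.υ (ZMod p) :=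
  Sum.elim L.cI (Sum.elim (fun s => L.cG s.1 s.2) (Sum.elim (fun _ => L.cP)
    (Sum.elim (fun _ => L.cJ) L.cW)))

/-- The exponents of the relations. -/
noncomputable def LD.xx (L : LD p b V I A d on Nw M) : L.Rw → Ts I → Ix A r → ℤ :=
  Sum.elim L.xI (Sum.elim (fun _ => 0) (Sum.elim (fun _ => L.xP)
    (Sum.elim (fun _ => L.xJ) L.xW)))

theorem xx_mem (h : Cx L M' C) (j : L.Rw) (s : Ts I) : L.xx j s ∈ BX (Ix A r) M' := by
  rcases j with i | s' | c | c | j
  · exact xI_mem h i _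
  · exact zero_mem_BX
  · exact xP_mem h _
  · exact xJ_mem h _
  · exact xW_mem h _ _

theorem xx_rel (hex : ∃ j, cand b on j = true) (j : L.Rw) :
    ∑ s, aeval L.Y (L.cc j s) * mon L.τ (L.xx j s) = 0 := by
  rcases j with i | s | c | c | j
  · exact rel_I i
  · exact rel_G s.1 s.2
  · exact rel_P hex
  · exact rel_J hex
  · exact rel_W j

theorem sum_Rw {β : Type} [AddCommMonoid β] (f : L.Rw → β) : ∑ j, f j =
    ∑ s, f (Sum.inl s) + (∑ s, f (Sum.inr (Sum.inl s)) + (f (Sum.inr (Sum.inr (Sum.inl ()))) +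
      (f (Sum.inr (Sum.inr (Sum.inr (Sum.inl ())))) +
        ∑ c, f (Sum.inr (Sum.inr (Sum.inr (Sum.inr c))))))) := by
  have h1 : ∀ g : Unit → β, ∑ u, g u = g () := fun g => by
    rw [Finset.univ_unique, Finset.sum_singleton]
  rw [Fintype.sum_sum_type, Fintype.sum_sum_type, Fintype.sum_sum_type,
    Fintype.sum_sum_type, h1, h1]

theorem card_eq (L : LD p b V I A d on Nw M) : Fintype.card (Ix A r) + Fintype.card L.υ =
    ∑ i, d i + Fintype.card L.Rw := by
  have h5 : Fintype.card (Ix A r) = Fintype.card (Σ i, A i) + (1 + r) := by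
    rw [Fintype.card_sum, Fintype.card_sum, Fintype.card_fin, Fintype.card_unit]
  have h6 : Fintype.card L.υ = (∑ i, L.n i + ∑ i, d i) + 1 := by
    rw [Fintype.card_sum, Fintype.card_sigma, Fintype.card_unit]
    simp only [Fintype.card_sum, Fintype.card_fin, Finset.sum_add_distrib]
  have h7 : Fintype.card L.Rw = Fintype.card (Σ i, A i) + (∑ i, L.n i + (1 + (1 + r))) := by
    rw [Fintype.card_sum, Fintype.card_sum, Fintype.card_sum, Fintype.card_sum,
      Fintype.card_sigma (α := fun i : I => Fin (L.n i)), Fintype.card_fin, Fintype.card_unit]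
    simp only [Fintype.card_fin]
  rw [h5, h6, h7]
  omega

theorem resv_aevalp (V : ValuationSubring K) [Algebra (ZMod p) (ResidueField V)]
    {ι : Type} (y : ι → K) (hy : ∀ j, V.valuation (y j) ≤ 1) (P : MvPolynomial ι (ZMod p)) :
    V.valuation (aeval y P) ≤ 1 ∧
      resv V (aeval y P) = aeval (fun j => resv V (y j)) P :=
  resv_aevalA (ZMod.ringHom_surjective (Int.castRingHom (ZMod p))) y hy P

theorem D_ne (L : LD p b V I A d on Nw M) (i : I) :
    aeval (fun s => resv V (L.y i s)) (L.D i) ≠ 0 := by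
  have h3 := resv_aevalp V (L.y i) (L.vy i) (L.D i)
  rw [← h3.2, resv_ne_zero_iff h3.1]
  exact L.vD i

theorem sum_single_eq {ι R : Type} [Fintype ι] [Ring R] (f : ι → R) (i : ι)
    (h : ∀ j, j ≠ i → f j = 0) : ∑ j, f j = f i :=
  Finset.sum_eq_single i (fun j _ hj => h j hj) fun h => absurd (Finset.mem_univ _) h

theorem sum_zero_eq {ι R : Type} [Fintype ι] [Ring R] (f : ι → R)
    (h : ∀ j, f j = 0) : ∑ j, f j = 0 :=
  Finset.sum_eq_zero fun j _ => h j

theorem fst_of {L : LD p b V I A d on Nw M} {i j : I} {s : Va (L.n i) (d i)}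
    {t : Va (L.n j) (d j)} (h : (Sum.inl ⟨i, s⟩ : L.υ) = Sum.inl ⟨j, t⟩) : i = j :=
  congrArg Sigma.fst (Sum.inl_injective h)

theorem snd_of {L : LD p b V I A d on Nw M} {i : I} {s t : Va (L.n i) (d i)}
    (h : (Sum.inl ⟨i, s⟩ : L.υ) = Sum.inl ⟨i, t⟩) : s = t := by
  simpa using h

/-- **Independence.** -/
theorem indep (h : Cx L M' C) (a : L.Rw → ResidueField V)
    (hLα : ∀ α, ∑ j, a j * LL V L.τ L.Y C (L.cc j) (L.xx j) α = 0)
    (hTl : ∀ l, ∑ j, a j * TT V L.τ L.Y C (L.cc j) (L.xx j) l = 0) : ∀ j, a j = 0 := by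
  classical
  obtain ⟨aI, haI⟩ : ∃ f : (Σ i, A i) → ResidueField V, f = fun i => a (Sum.inl i) := ⟨_, rfl⟩
  obtain ⟨aG, haG⟩ : ∃ f : (Σ i : I, Fin (L.n i)) → ResidueField V,
    f = fun s => a (Sum.inr (Sum.inl s)) := ⟨_, rfl⟩
  obtain ⟨aP, haP⟩ : ∃ f : ResidueField V,
    f = a (Sum.inr (Sum.inr (Sum.inl ()))) := ⟨_, rfl⟩
  obtain ⟨aJ, haJ⟩ : ∃ f : ResidueField V,
    f = a (Sum.inr (Sum.inr (Sum.inr (Sum.inl ())))) := ⟨_, rfl⟩
  obtain ⟨aW, haW⟩ : ∃ f : Fin r → ResidueField V,
    f = fun s => a (Sum.inr (Sum.inr (Sum.inr (Sum.inr s)))) := ⟨_, rfl⟩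
  have hL : ∀ α, ∑ i, aI i * LL V L.τ L.Y C (L.cI i) (L.xI i) α +
      (∑ s, aG s * LL V L.τ L.Y C (L.cG s.1 s.2) 0 α +
      (aP * LL V L.τ L.Y C L.cP L.xP α +
      (aJ * LL V L.τ L.Y C L.cJ L.xJ α +
      ∑ c, aW c * LL V L.τ L.Y C (L.cW c) (L.xW c) α))) = 0 := by
    intro α
    have := hLα α
    rw [sum_Rw] at this
    rw [haI, haG, haP, haJ, haW]
    exact this
  have hT : ∀ l, ∑ i, aI i * TT V L.τ L.Y C (L.cI i) (L.xI i) l +
      (∑ s, aG s * TT V L.τ L.Y C (L.cG s.1 s.2) 0 l +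
      (aP * TT V L.τ L.Y C L.cP L.xP l +
      (aJ * TT V L.τ L.Y C L.cJ L.xJ l +
      ∑ c, aW c * TT V L.τ L.Y C (L.cW c) (L.xW c) l))) = 0 := by
    intro l
    have := hTl l
    rw [sum_Rw] at this
    rw [haI, haG, haP, haJ, haW]
    exact this
  suffices hall : (∀ i, aI i = 0) ∧ (∀ s, aG s = 0) ∧ aP = 0 ∧ aJ = 0 ∧ (∀ c, aW c = 0) by
    obtain ⟨h1, h2, h3, h4, h5⟩ := hall
    rw [haI] at h1
    rw [haG] at h2
    rw [haP] at h3
    rw [haJ] at h4
    rw [haW] at h5
    rintro (i | s | c | c | j)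
    exacts [h1 i, h2 s, h3, h4, h5 j]
  clear haI haG haP haJ haW hLα hTl
  -- the Kummer coordinates
  have hW : ∀ c, aW c = 0 := by
    intro c
    have h1 := hL (Sum.inr (Sum.inr c))
    rw [sum_zero_eq _ (fun i => by rw [LL_I_of_ne Sum.inr_ne_inl, mul_zero]),
      sum_zero_eq (fun s : (Σ i : I, Fin (L.n i)) => aG s * _) (fun s => by
        rw [LL_0, mul_zero]), LL_P_w, LL_J_w, mul_zero, mul_zero, zero_add, zero_add, zero_add,
      zero_add,
      sum_single_eq _ c fun c' hc => by rw [LL_W_of_ne (Ne.symm hc), mul_zero]] at h1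
    exact (mul_eq_zero.mp h1).resolve_right (LL_W_self h c)
  have hL1 : ∀ α, ∑ i, aI i * LL V L.τ L.Y C (L.cI i) (L.xI i) α +
      (aP * LL V L.τ L.Y C L.cP L.xP α + aJ * LL V L.τ L.Y C L.cJ L.xJ α) = 0 := by
    intro α
    have := hL α
    rwa [sum_zero_eq (fun s : (Σ i : I, Fin (L.n i)) => aG s * _) (fun s => by
        rw [LL_0, mul_zero]), sum_zero_eq (fun j => aW j * _) (fun j => by rw [hW, zero_mul]),
      add_zero, zero_add] at this
  have hT1 : ∀ l, ∑ i, aI i * TT V L.τ L.Y C (L.cI i) (L.xI i) l +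
      (∑ s, aG s * TT V L.τ L.Y C (L.cG s.1 s.2) 0 l +
      (aP * TT V L.τ L.Y C L.cP L.xP l + aJ * TT V L.τ L.Y C L.cJ L.xJ l)) = 0 := by
    intro l
    have := hT l
    rwa [sum_zero_eq (fun j => aW j * _) (fun j => by rw [hW, zero_mul]), add_zero] at this
  clear hL hT
  have hLz : aP * LL V L.τ L.Y C L.cP L.xP (Sum.inr (Sum.inl ())) +
      aJ * LL V L.τ L.Y C L.cJ L.xJ (Sum.inr (Sum.inl ())) = 0 := by
    have h1 := hL1 (Sum.inr (Sum.inl ()))
    rwa [sum_zero_eq _ (fun i => by rw [LL_I_of_ne Sum.inr_ne_inl, mul_zero]), zero_add] at h1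
  have hTz : aP * TT V L.τ L.Y C L.cP L.xP (Sum.inr ()) +
      aJ * TT V L.τ L.Y C L.cJ L.xJ (Sum.inr ()) = 0 := by
    have h1 := hT1 (Sum.inr ())
    rwa [sum_zero_eq _ (fun i => by
        rw [TT_I_of h i (fun x _ => Sum.inr_ne_inl), mul_zero]),
      sum_zero_eq (fun s : (Σ i : I, Fin (L.n i)) => aG s * _) (fun s => by
        rw [TT_G_of_notMem _ _ _ (fun x => Sum.inr_ne_inl), mul_zero]), zero_add,
      zero_add] at h1
  -- the blocks of the factors
  have block : ∀ i : I, (∀ j : Fin (L.n i),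
      aP * TT V L.τ L.Y C L.cP L.xP (Sum.inl ⟨i, Sum.inl j⟩) +
        aJ * TT V L.τ L.Y C L.cJ L.xJ (Sum.inl ⟨i, Sum.inl j⟩) = 0) →
      ∀ j : Fin (L.n i), aG ⟨i, j⟩ = 0 := by
    intro i hi
    refine L.ndg i _ (fun s => resv V (L.y i s)) (D_ne L i) (fun j => aG ⟨i, j⟩) fun j => ?_
    have h1 := hT1 (Sum.inl ⟨i, Sum.inl j⟩)
    rw [sum_zero_eq _ (fun s => by
        rw [TT_I_of h s (by
          intro x _ h'
          have h2 := fst_of h'
          obtain ⟨s1, s2⟩ := s
          have h3 : i = s1 := h2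
          subst h3
          exact Sum.inl_ne_inr (snd_of h')), mul_zero]), zero_add, hi j, add_zero,
      Fintype.sum_sigma, sum_single_eq (fun i' => ∑ j, aG ⟨i', j⟩ * _) i fun i' hne =>
        sum_zero_eq _ fun j => by
          rw [TT_G_of_notMem _ _ _ (by
            intro b' h'
            exact hne (fst_of h').symm), mul_zero]] at h1
    rw [← h1]
    exact Finset.sum_congr rfl fun k _ => by rw [TT_G_same]
  have hPJ : aP = 0 ∧ aJ = 0 := by
    rcases L.exists_dom h.hex with ⟨i₀, hd⟩ | ⟨hb, ha⟩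
    · have hP : aP = 0 := by
        by_cases hz : L.isZ
        · rw [TT_P_isZ hz, if_pos rfl, mul_one, TT_J_z h hd, mul_zero, add_zero] at hTz
          exact hTz
        · rw [LL_J_z h hd, mul_zero, add_zero] at hLz
          exact (mul_eq_zero.mp hLz).resolve_right (LL_P_not h hz)
      refine ⟨hP, ?_⟩
      rcases L.typ i₀ hd.act with ⟨c, hc, he, hu⟩ | ⟨c, hu, hc⟩
      · have h1 := hL1 (Sum.inl ⟨i₀, c⟩)
        rw [hP, zero_mul, zero_add, sum_zero_eq _ (fun s => by
            by_cases hs : (Sum.inl ⟨i₀, c⟩ : Ix A r) = Sum.inl s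
            · have hs' : L.l s.1 s.2 ≠ none := by
                rw [← Sum.inl_injective hs]; exact hc
              rw [LL_I_some h hs', mul_zero]
            · rw [LL_I_of_ne hs, mul_zero]), zero_add] at h1
        exact (mul_eq_zero.mp h1).resolve_right (LL_J_a h hd he hu)
      · have hG : ∀ j, aG ⟨i₀, j⟩ = 0 := block i₀ fun j => by
          rw [hP, zero_mul, zero_add, TT_J_of Sum.inl_ne_inr (by
            intro j' h'
            have h2 := fst_of h'
            subst h2
            have h3 := snd_of h'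
            rw [hu] at h3
            exact Sum.inl_ne_inr h3), mul_zero]
        have h1 := hT1 (Sum.inl ⟨i₀, L.u i₀⟩)
        rw [hP, zero_mul, zero_add, sum_zero_eq _ (fun s => by
            rw [TT_I_of h s (by
              intro x hx h'
              have h2 := fst_of h'
              obtain ⟨s1, s2⟩ := s
              have h3 : i₀ = s1 := h2
              subst h3
              have h4 := snd_of h'
              rw [hu] at h4
              rw [← Sum.inr_injective h4] at hx
              exact hc s2 hx), mul_zero]), zero_add,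
          sum_zero_eq (fun s : (Σ i : I, Fin (L.n i)) => aG s * _) (fun s => by
            by_cases hs : s.1 = i₀
            · obtain ⟨s1, s2⟩ := s
              have hs' : s1 = i₀ := hs
              subst hs'
              rw [hG, zero_mul]
            · rw [TT_G_of_notMem _ _ _ (by
                intro b' h'
                exact hs (fst_of h').symm), mul_zero]), zero_add] at h1
        exact (mul_eq_zero.mp h1).resolve_right (TT_J_u h hd)
    · by_cases hz : L.isZ
      · rw [LL_P_isZ hz, mul_zero, zero_add] at hLz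
        have hJ := (mul_eq_zero.mp hLz).resolve_right (LL_J_et h hb ha hz)
        rw [TT_P_isZ hz, if_pos rfl, mul_one, hJ, zero_mul, add_zero] at hTz
        exact ⟨hTz, hJ⟩
      · rw [TT_P_not hz, mul_zero, zero_add] at hTz
        have hJ := (mul_eq_zero.mp hTz).resolve_right (TT_J_et h hb ha)
        rw [hJ, zero_mul, add_zero] at hLz
        exact ⟨(mul_eq_zero.mp hLz).resolve_right (LL_P_not h hz), hJ⟩
  obtain ⟨hP, hJ⟩ := hPJ
  have hG : ∀ s, aG s = 0 := fun s => block s.1 (fun j => by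
    rw [hP, hJ, zero_mul, zero_mul, add_zero]) s.2
  have hL2 : ∀ α, ∑ i, aI i * LL V L.τ L.Y C (L.cI i) (L.xI i) α = 0 := by
    intro α
    have h1 := hL1 α
    rwa [hP, hJ, zero_mul, zero_mul, add_zero, add_zero] at h1
  have hT2 : ∀ l, ∑ i, aI i * TT V L.τ L.Y C (L.cI i) (L.xI i) l = 0 := by
    intro l
    have h1 := hT1 l
    rwa [hP, hJ, zero_mul, zero_mul, add_zero, add_zero,
      sum_zero_eq (fun s : (Σ i : I, Fin (L.n i)) => aG s * _) (fun s => by
        rw [hG, zero_mul]), add_zero] at h1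
  refine ⟨fun s => ?_, hG, hP, hJ, hW⟩
  cases hs : L.l s.1 s.2 with
  | none =>
    have h1 := hL2 (Sum.inl s)
    rw [sum_single_eq _ s fun s' hne => by
      rw [LL_I_of_ne (fun h' => hne (Sum.inl_injective h').symm), mul_zero]] at h1
    exact (mul_eq_zero.mp h1).resolve_right (LL_I_none h hs)
  | some x =>
    have h1 := hT2 (Sum.inl ⟨s.1, Sum.inr x⟩)
    obtain ⟨w, hw0, hw⟩ := TT_I_some (L := L) h hs
    rw [sum_single_eq _ s fun s' hne => by
      rw [TT_I_of h s' (by
        intro x' hx' h'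
        apply hne
        have h2 := fst_of h'
        obtain ⟨s1, s2⟩ := s
        obtain ⟨s1', s2'⟩ := s'
        have h3 : s1 = s1' := h2
        subst h3
        have h4 := Sum.inr_injective (snd_of h')
        have h5 : L.l s1 s2' = some x' := hx'
        rw [← h4] at h5
        have h6 := L.linj s1 s2' s2 x h5 hs
        rw [h6]), mul_zero], hw, if_pos rfl] at h1
    exact (mul_eq_zero.mp h1).resolve_right hw0

/-- **Local regularity.** -/
theorem isRegular_local (h : Cx L M' C)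
    (halg : Algebra.IsAlgebraic (Algebra.adjoin (ZMod p)
      (Set.range (Sum.elim (fun j => mon L.τ (C.b j)) L.Y))) K)
    (htr : ((∑ i, d i : ℕ) : Cardinal.{0}) ≤ Algebra.trdeg (ZMod p) K) :
    IsRegularLocalRing (vloc V (Algebra.adjoin ℤ
      (Set.range (Sum.elim (fun j => mon L.τ (C.b j)) L.Y)))) := by
  refine isRegular_of_mrel (ZMod.ringHom_surjective (Int.castRingHom (ZMod p))) V
    (L.τ_ne_zero h.hex) h.hC h.hb (L.vY h.hex) halg
    (fun j : L.Rw => mrel C (L.cc j) (L.xx j))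
    (fun j => mrel_ok fun s _ s' _ => h.hS _ (xx_mem h j s) _ (xx_mem h j s'))
    (xx_rel h.hex) ?_ ?_
  · have h1 := card_eq L
    calc ((Fintype.card (Ix A r) : Cardinal.{0}) + Fintype.card L.υ) =
          ((Fintype.card (Ix A r) + Fintype.card L.υ : ℕ) : Cardinal.{0}) := by
            push_cast; rfl
      _ = ((∑ i, d i + Fintype.card L.Rw : ℕ) : Cardinal.{0}) := by rw [h1]
      _ = ((∑ i, d i : ℕ) : Cardinal.{0}) + Fintype.card L.Rw := by push_cast; rfl
      _ ≤ _ := by gcongr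
  · intro a ha1 ha2
    exact indep h a ha1 ha2

end Pool.Agent.H96.S
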