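import Pool.Agent.H96.S.BL5
import Pool.Agent.H96.VSys

/-!
# Local rings of models, closed points
-/

set_option autoImplicit false
set_option linter.unusedSectionVars false

namespace Pool.Agent.H96.S

open Pool.Agent.H96.VL
open scoped Pointwise

section Vl

variable {F : Type} [Field F] {W : ValuationSubring F} {B R : Subring F}

/-- `B` is contained in the valuation ring `W`. -/
def Vle (W : ValuationSubring F) (B : Subring F) : Prop := ∀ b ∈ B, W.valuation b ≤ 1

theorem Vle.mono {B' : Subring F} (h : Vle W B) (hB : B' ≤ B) : Vle W B' := fun b hb => h b (hB hb)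

theorem vle_closure {s : Set F} : Vle W (Subring.closure s) ↔ ∀ a ∈ s, W.valuation a ≤ 1 := by
  constructor
  · exact fun h a ha => h a (Subring.subset_closure ha)
  · intro h b hb
    have h1 : Subring.closure s ≤ W.toSubring := by
      rw [Subring.closure_le]
      exact fun a ha => (W.valuation_le_one_iff a).mp (h a ha)
    exact (W.valuation_le_one_iff b).mpr (h1 hb)

theorem vle_adj {t : F} : Vle W (adj B t) ↔ Vle W B ∧ W.valuation t ≤ 1 := by
  constructor
  · exact fun h => ⟨h.mono le_adj, h t mem_adj⟩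
  · rintro ⟨h1, h2⟩
    rw [adj, vle_closure]
    rintro a (ha | ha)
    · exact h1 a ha
    · rw [Set.mem_singleton_iff.mp ha]; exact h2

/-- The localization at the centre of `W`. -/
def vl (W : ValuationSubring F) (B : Subring F) : Subring F := vloc W (subalgebraOfSubring B)

theorem mem_vl {w : F} : w ∈ vl W B ↔ ∃ a ∈ B, ∃ b ∈ B, W.valuation b = 1 ∧ w = a / b := Iff.rfl

theorem le_vl : B ≤ vl W B := fun _ hb => subset_vloc hb

theorem vlocal_vl (h : Vle W B) : VLocal W (vl W B) := vlocal_vloc h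

theorem vl_le (hR : VLocal W R) (hB : B ≤ R) : vl W B ≤ R := vloc_le hR fun _ hb => hB hb

theorem vl_mono {B' : Subring F} (h : B ≤ B') : vl W B ≤ vl W B' := by
  rintro w ⟨a, ha, b, hb, h1, rfl⟩
  exact ⟨a, h ha, b, h hb, h1, rfl⟩

theorem _root_.Pool.Agent.H96.VL.VLocal.vle (h : VLocal W R) : Vle W R := h.le

theorem inv_mem_vl {b : F} (hb : b ∈ B) (h : W.valuation b = 1) : b⁻¹ ∈ vl W B :=
  ⟨1, B.one_mem, b, hb, h, by rw [one_div]⟩

/-- The ring of a model at `W`. -/
structure Lst (s : Finset F) (W : ValuationSubring F) (R : Subring F) : Prop where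
  loc : VLocal W R
  pr : Prin R s
  min : ∀ R', VLocal W R' → Prin R' s → R ≤ R'

/-- The ring of a model at `W`. -/
def Lc (s : Finset F) (W : ValuationSubring F) : Subring F := sInf {R | VLocal W R ∧ Prin R s}

theorem Lst.eq {s : Finset F} (h : Lst s W R) : Lc s W = R := by
  apply le_antisymm
  · exact sInf_le ⟨h.loc, h.pr⟩
  · exact le_sInf fun R' hR' => h.min R' hR'.1 hR'.2

/-- The affine rings of a model. -/
def As (s : Finset F) (g : F) : Subring F := Subring.closure {a | ∃ g' ∈ s, a = g' / g}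

theorem mem_As {s : Finset F} {g g' : F} (h : g' ∈ s) : g' / g ∈ As s g :=
  Subring.subset_closure ⟨g', h, rfl⟩

theorem As_le {s : Finset F} {g : F} (h : ∀ g' ∈ s, g' / g ∈ R) : As s g ≤ R := by
  rw [As, Subring.closure_le]
  rintro _ ⟨g', hg', rfl⟩
  exact h g' hg'

theorem vle_As {s : Finset F} {g : F} (h0 : g ≠ 0) :
    Vle W (As s g) ↔ ∀ g' ∈ s, W.valuation g' ≤ W.valuation g := by
  have h1 : 0 < W.valuation g := by rw [Valuation.pos_iff]; exact h0
  rw [As, vle_closure]
  constructor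
  · intro h g' hg'
    have h2 := h _ ⟨g', hg', rfl⟩
    rw [map_div₀] at h2
    exact (div_le_one₀ h1).mp h2
  · rintro h _ ⟨g', hg', rfl⟩
    rw [map_div₀]
    exact (div_le_one₀ h1).mpr (h g' hg')

theorem gen_As {s : Finset F} {g : F} (hg : g ∈ s) (h0 : g ≠ 0) (h : As s g ≤ R) : Gen R s g :=
  ⟨h0, fun g' hg' => h (mem_As hg'), g, hg, by rw [div_self h0]; exact R.one_mem, h0⟩

theorem lst_vl {s : Finset F} {g : F} (hg : g ∈ s) (h0 : g ≠ 0)
    (hmax : ∀ g' ∈ s, W.valuation g' ≤ W.valuation g) : Lst s W (vl W (As s g)) where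
  loc := vlocal_vl ((vle_As h0).mpr hmax)
  pr := ⟨g, gen_As hg h0 le_vl⟩
  min := by
    rintro R' hR' ⟨T, hT⟩
    exact vl_le hR' (As_le (hT.of_max hR' hg hmax).mem)

theorem exists_max {s : Finset F} (hs : ∃ g ∈ s, g ≠ 0) (W : ValuationSubring F) :
    ∃ g ∈ s, g ≠ 0 ∧ ∀ g' ∈ s, W.valuation g' ≤ W.valuation g := by
  obtain ⟨g₀, hg₀, h0⟩ := hs
  obtain ⟨g, hg, hmax⟩ := Finset.exists_max_image s W.valuation ⟨g₀, hg₀⟩
  refine ⟨g, hg, ?_, hmax⟩
  rintro rfl
  have h1 := hmax g₀ hg₀
  rw [map_zero, le_zero_iff, Valuation.zero_iff] at h1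
  exact h0 h1

theorem lst_Lc {s : Finset F} (hs : ∃ g ∈ s, g ≠ 0) (W : ValuationSubring F) :
    Lst s W (Lc s W) := by
  obtain ⟨g, hg, h0, hmax⟩ := exists_max hs W
  have h1 := lst_vl hg h0 hmax
  rw [h1.eq]
  exact h1

theorem Lc_eq {s : Finset F} {g : F} (hg : g ∈ s) (h0 : g ≠ 0)
    (hmax : ∀ g' ∈ s, W.valuation g' ≤ W.valuation g) : Lc s W = vl W (As s g) :=
  (lst_vl hg h0 hmax).eq

/-- A ring `B` with `As s g ≤ B ≤ Lc s W`. -/
theorem Lc_eq_vl {s : Finset F} {g : F} (hg : g ∈ s) (h0 : g ≠ 0) (hB : Vle W B)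
    (h1 : As s g ≤ B) (h2 : B ≤ Lc s W) : Lc s W = vl W B := by
  have h3 := Lc_eq (W := W) hg h0 ((vle_As h0).mp (hB.mono h1))
  apply le_antisymm
  · rw [h3]; exact vl_mono h1
  · exact vl_le (lst_Lc ⟨g, hg, h0⟩ W).loc h2

theorem Lc_mul_le [DecidableEq F] {s c : Finset F} (hsc : ∃ g ∈ s * c, g ≠ 0)
    (W : ValuationSubring F) : Lc s W ≤ Lc (s * c) W :=
  sInf_le ⟨(lst_Lc hsc W).loc, (lst_Lc hsc W).pr.of_mul_left⟩

end Vl

/-- Finitely generated rings. -/
def Fg {F : Type} [Field F] (B : Subring F) : Prop := ∃ E : Finset F, B = Subring.closure E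

section Fg

variable {F : Type} [Field F] {W : ValuationSubring F} {B R : Subring F}

theorem Fg.adj (h : Fg B) (t : F) : Fg (S.adj B t) := by
  classical
  obtain ⟨E, rfl⟩ := h
  refine ⟨insert t E, ?_⟩
  rw [S.adj, Finset.coe_insert]
  apply le_antisymm
  · rw [Subring.closure_le]
    rintro a (ha | ha)
    · exact Subring.closure_mono (Set.subset_insert _ _) ha
    · exact Subring.subset_closure (Or.inl ha)
  · rw [Subring.closure_le]
    rintro a (ha | ha)
    · exact Subring.subset_closure (Or.inr ha)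
    · exact Subring.subset_closure (Or.inl (Subring.subset_closure ha))

theorem fg_As (s : Finset F) (g : F) : Fg (As s g) := by
  classical
  refine ⟨s.image fun a => a / g, ?_⟩
  rw [As, Finset.coe_image]
  congr 1
  ext a
  constructor
  · rintro ⟨g', hg', rfl⟩
    exact ⟨g', hg', rfl⟩
  · rintro ⟨g', hg', rfl⟩
    exact ⟨g', hg', rfl⟩

theorem Fg.finiteType (h : Fg B) : Algebra.FiniteType ℤ (subalgebraOfSubring B) := by
  obtain ⟨E, rfl⟩ := h
  rw [← Subalgebra.fg_iff_finiteType]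
  refine Subalgebra.fg_def.mpr ⟨E, E.finite_toSet, ?_⟩
  rw [Algebra.adjoin_int]

theorem Fg.noeth_vl (h : Fg B) (hW : Vle W B) : IsNoetherianRing (vl W B) := by
  have h1 := h.finiteType
  have h2 : IsNoetherianRing (subalgebraOfSubring B) :=
    Algebra.FiniteType.isNoetherianRing ℤ _
  have hB : ∀ b ∈ subalgebraOfSubring B, W.valuation b ≤ 1 := hW
  have h3 := centre_isPrime W (subalgebraOfSubring B) hB
  obtain ⟨e⟩ := exists_equiv W (subalgebraOfSubring B) hB (centre W _ hB) fun x => Iff.rfl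
  exact isNoetherianRing_of_ringEquiv _ e

/-- A ring generated by a finite part of the localization. -/
theorem exists_den (hW : Vle W B) (E : Finset F) (hE : ∀ e ∈ E, e ∈ vl W B) :
    ∃ d ∈ B, W.valuation d = 1 ∧ ∀ e ∈ E, d * e ∈ B := by
  classical
  induction E using Finset.induction_on with
  | empty => exact ⟨1, B.one_mem, map_one _, fun e he => absurd he (Finset.notMem_empty e)⟩
  | insert a E ha ih =>
    obtain ⟨d, hd, hd1, hE'⟩ := ih fun e he => hE e (Finset.mem_insert_of_mem he)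
    obtain ⟨r, hr, s, hs, hs1, h1⟩ := mem_vl.mp (hE a (Finset.mem_insert_self _ _))
    have hs0 : s ≠ 0 := by
      rintro rfl
      rw [map_zero] at hs1
      exact zero_ne_one hs1
    refine ⟨d * s, B.mul_mem hd hs, by rw [map_mul, hd1, hs1, one_mul], fun e he => ?_⟩
    rcases Finset.mem_insert.mp he with rfl | he
    · have h2 : d * s * e = d * r := by rw [h1]; field_simp
      rw [h2]
      exact B.mul_mem hd hr
    · have h2 : d * s * e = s * (d * e) := by ring
      rw [h2]
      exact B.mul_mem hs (hE' e he)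

end Fg

section Closed

variable {p : ℕ} [hp : Fact p.Prime] {F : Type} [Field F] [CharP F p] {W : ValuationSubring F}
  {B R : Subring F} {x y : F} {Dx Dy : Derivation ℤ F F}

/-- The centre of `W` on `B` is a closed point with finite residue field. -/
def Clo (p : ℕ) {F : Type} [Field F] (W : ValuationSubring F) (B : Subring F) : Prop :=
  ∃ n, 1 ≤ n ∧ ∀ b ∈ B, W.valuation (b ^ p ^ n - b) < 1

theorem Clo.vl (h : Clo p W B) (hW : Vle W B) : Clo p W (vl W B) := by
  obtain ⟨n, hn, h⟩ := h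
  refine ⟨n, hn, ?_⟩
  rintro w ⟨a, ha, b, hb, hb1, rfl⟩
  have hb0 : b ≠ 0 := by
    rintro rfl
    rw [map_zero] at hb1
    exact zero_ne_one hb1
  have h1 : (a / b) ^ p ^ n - a / b = ((a ^ p ^ n - a) - a / b * (b ^ p ^ n - b)) / b ^ p ^ n := by
    rw [div_pow]
    field_simp
    ring
  rw [h1, map_div₀, map_pow, hb1, one_pow, div_one]
  refine (W.valuation.map_sub _ _).trans_lt (max_lt (h a ha) ?_)
  rw [map_mul, map_div₀, hb1, div_one]
  exact (mul_le_mul' (hW a ha) le_rfl).trans_lt (by rw [one_mul]; exact h b hb)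

/-- Every centre specializes to a closed point. -/
theorem exists_clo (hB : Fg B) (hW : Vle W B) : ∃ W' : ValuationSubring F, Vle W' B ∧
    Clo p W' B ∧ ∀ b ∈ B, W.valuation b < 1 → W'.valuation b < 1 := by
  have hB' : ∀ b ∈ subalgebraOfSubring B, W.valuation b ≤ 1 := hW
  set A := subalgebraOfSubring B with hA
  have hP := centre_isPrime W A hB'
  obtain ⟨𝔫, h𝔫, hle⟩ := Ideal.exists_le_maximal (centre W A hB') hP.ne_top
  have h𝔫p := h𝔫.isPrime
  obtain ⟨W', hW', hc⟩ := exists_centre A 𝔫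
  refine ⟨W', hW', ?_, fun b hb hv => (hc ⟨b, hb⟩).mp (hle hv)⟩
  have h1 : Algebra.FiniteType ℤ A := hB.finiteType
  let _ : Field (A ⧸ 𝔫) := Ideal.Quotient.field 𝔫
  have hcA : CharP A p := by
    have : Function.Injective (algebraMap A F) := Subtype.val_injective
    exact (RingHom.charP_iff (algebraMap A F) this p).mpr inferInstance
  have hcQ : CharP (A ⧸ 𝔫) p := by
    refine CharP.of_ringHom_of_ne_zero (Ideal.Quotient.mk 𝔫) p hp.out.ne_zero
  let _ : Algebra (ZMod p) (A ⧸ 𝔫) := ZMod.algebra _ p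
  have h2 : Algebra.FiniteType ℤ (A ⧸ 𝔫) := Algebra.FiniteType.trans h1 inferInstance
  have h3 : IsScalarTower ℤ (ZMod p) (A ⧸ 𝔫) := by
    refine IsScalarTower.of_algebraMap_eq fun n => ?_
    rw [eq_intCast, eq_intCast, map_intCast]
  have h4 : Algebra.FiniteType (ZMod p) (A ⧸ 𝔫) :=
    Algebra.FiniteType.of_restrictScalars_finiteType ℤ (ZMod p) (A ⧸ 𝔫)
  have h5 : Module.Finite (ZMod p) (A ⧸ 𝔫) := finite_of_finite_type_of_isJacobsonRing _ _
  have h6 : Finite (A ⧸ 𝔫) := Module.finite_of_finite (ZMod p)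
  have h7 := Fintype.ofFinite (A ⧸ 𝔫)
  obtain ⟨n, -, hn⟩ := FiniteField.card (A ⧸ 𝔫) p
  refine ⟨n, n.pos, fun b hb => ?_⟩
  have h8 := FiniteField.pow_card (Ideal.Quotient.mk 𝔫 ⟨b, hb⟩)
  rw [hn, ← map_pow, ← sub_eq_zero, ← map_sub, Ideal.Quotient.eq_zero_iff_mem] at h8
  exact (hc _).mp h8

/-- The maximal ideal. -/
theorem EC.max_gen (h : EC p R x y Dx Dy) (hR : VLocal W R) (hn : IsNoetherianRing R)
    (hx : W.valuation x < 1) (hy : W.valuation y < 1) {b : F} (hb : b ∈ R)
    (hv : W.valuation b < 1) : ∃ a ∈ R, ∃ c ∈ R, b = x * a + y * c := by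
  have key : ∀ b ∈ R, ∃ c ∈ R, ∃ a ∈ R, ∃ d ∈ R, b = c ^ p + (x * a + y * d) := by
    intro b hb
    have h1 := h.pb b hb
    clear hb hv
    induction h1 using Subring.closure_induction with
    | mem c hc =>
      rcases hc with ⟨a, ha, rfl⟩ | hc | hc
      · exact ⟨a, ha, 0, R.zero_mem, 0, R.zero_mem, by ring⟩
      · rw [hc]
        exact ⟨0, R.zero_mem, 1, R.one_mem, 0, R.zero_mem, by
          rw [zero_pow hp.out.ne_zero]; ring⟩
      · rw [Set.mem_singleton_iff.mp hc]
        exact ⟨0, R.zero_mem, 0, R.zero_mem, 1, R.one_mem, by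
          rw [zero_pow hp.out.ne_zero]; ring⟩
    | zero => exact ⟨0, R.zero_mem, 0, R.zero_mem, 0, R.zero_mem, by
        rw [zero_pow hp.out.ne_zero]; ring⟩
    | one => exact ⟨1, R.one_mem, 0, R.zero_mem, 0, R.zero_mem, by ring⟩
    | add a b _ _ ha hb =>
      obtain ⟨c, hc, r, hr, s, hs, rfl⟩ := ha
      obtain ⟨c', hc', r', hr', s', hs', rfl⟩ := hb
      exact ⟨c + c', R.add_mem hc hc', r + r', R.add_mem hr hr', s + s', R.add_mem hs hs', by
        rw [add_pow_char]; ring⟩
    | neg a _ ha =>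
      obtain ⟨c, hc, r, hr, s, hs, rfl⟩ := ha
      refine ⟨-c, R.neg_mem hc, -r, R.neg_mem hr, -s, R.neg_mem hs, ?_⟩
      have h2 : (0 - c) ^ p = 0 ^ p - c ^ p := sub_pow_char 0 c
      rw [zero_sub, zero_pow hp.out.ne_zero, zero_sub] at h2
      rw [h2]; ring
    | mul a b _ _ ha hb =>
      obtain ⟨c, hc, r, hr, s, hs, rfl⟩ := ha
      obtain ⟨c', hc', r', hr', s', hs', rfl⟩ := hb
      refine ⟨c * c', R.mul_mem hc hc', c ^ p * r' + r * (c' ^ p + (x * r' + y * s')),
        R.add_mem (R.mul_mem (R.pow_mem hc _) hr') (R.mul_mem hr (R.add_mem (R.pow_mem hc' _)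
          (R.add_mem (R.mul_mem h.hx hr') (R.mul_mem h.hy hs')))),
        c ^ p * s' + s * (c' ^ p + (x * r' + y * s')), R.add_mem (R.mul_mem (R.pow_mem hc _) hs')
          (R.mul_mem hs (R.add_mem (R.pow_mem hc' _)
          (R.add_mem (R.mul_mem h.hx hr') (R.mul_mem h.hy hs')))), ?_⟩
      rw [mul_pow]; ring
  let I : Ideal R :=
    { carrier := {b | W.valuation (b : F) < 1}
      add_mem' := fun {a b} ha hb => W.valuation.map_add_lt ha hb
      zero_mem' := by simp
      smul_mem' := fun c b hb => by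
        show W.valuation ((c : F) * (b : F)) < 1
        rw [map_mul]
        exact (mul_le_mul' (hR.le c c.2) le_rfl).trans_lt (by rw [one_mul]; exact hb) }
  let X : R := ⟨x, h.hx⟩
  let Y : R := ⟨y, h.hy⟩
  have hI : I ≤ Ideal.jacobson ⊥ := by
    intro b hb
    rw [Ideal.mem_jacobson_bot]
    intro c
    have hbc : W.valuation ((b : F) * (c : F)) < 1 := by
      rw [map_mul]
      exact (mul_le_mul' le_rfl (hR.le c c.2)).trans_lt (by rw [mul_one]; exact hb)
    have h1 : W.valuation ((b : F) * (c : F) + 1) = 1 := by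
      have h2 : W.valuation ((b : F) * (c : F)) < W.valuation 1 := by rw [map_one]; exact hbc
      rw [W.valuation.map_add_eq_of_lt_right h2, map_one]
    have h2 : ((b : F) * (c : F) + 1) ≠ 0 := by
      intro h0
      rw [h0, map_zero] at h1
      exact zero_ne_one h1
    have h3 := hR.inv _ (b * c + 1 : R).2 h1
    exact IsUnit.of_mul_eq_one ⟨_, h3⟩ (Subtype.ext (mul_inv_cancel₀ h2))
  have hle : I ≤ Ideal.span {X, Y} ⊔ I • I := by
    intro b hb
    obtain ⟨c, hc, a, ha, d, hd, h1⟩ := key b b.2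
    have hcv : W.valuation c < 1 := by
      have h2 : c ^ p = b - (x * a + y * d) := by rw [h1]; ring
      have h3 : W.valuation (c ^ p) < 1 := by
        rw [h2]
        refine (W.valuation.map_sub _ _).trans_lt (max_lt hb ((W.valuation.map_add _ _).trans_lt
          (max_lt ?_ ?_)))
        · rw [map_mul]
          exact (mul_le_mul' le_rfl (hR.le a ha)).trans_lt (by rw [mul_one]; exact hx)
        · rw [map_mul]
          exact (mul_le_mul' le_rfl (hR.le d hd)).trans_lt (by rw [mul_one]; exact hy)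
      rw [map_pow] at h3
      by_contra hcon
      exact absurd h3 (not_lt.mpr (one_le_pow₀ (not_lt.mp hcon)))
    have h4 : b = (⟨c, hc⟩ * ⟨c ^ (p - 1), R.pow_mem hc _⟩ : R) +
        (X * ⟨a, ha⟩ + Y * ⟨d, hd⟩) := by
      apply Subtype.ext
      show (b : F) = c * c ^ (p - 1) + (x * a + y * d)
      rw [h1]
      congr 1
      rw [← pow_succ']
      congr 1
      have := hp.out.pos
      omega
    rw [h4]
    refine Ideal.add_mem _ ?_ ?_
    · refine Ideal.mem_sup_right ?_
      rw [smul_eq_mul]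
      refine Ideal.mul_mem_mul hcv ?_
      show W.valuation (c ^ (p - 1)) < 1
      rw [map_pow]
      have := hp.out.two_le
      exact pow_lt_one₀ zero_le hcv (by omega)
    · refine Ideal.mem_sup_left (Ideal.add_mem _ (Ideal.mul_mem_right _ _ ?_)
        (Ideal.mul_mem_right _ _ ?_))
      · exact Ideal.subset_span (Or.inl rfl)
      · exact Ideal.subset_span (Or.inr rfl)
  have h5 := Submodule.le_of_le_smul_of_le_jacobson_bot (IsNoetherian.noetherian I) hI hle
  have h6 := h5 (show (⟨b, hb⟩ : R) ∈ I from hv)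
  rw [Ideal.mem_span_pair] at h6
  obtain ⟨a, c, h7⟩ := h6
  refine ⟨a, a.2, c, c.2, ?_⟩
  have h8 := congrArg Subtype.val h7
  have h9 : (a : F) * x + c * y = b := h8
  rw [← h9]; ring

end Closed

end Pool.Agent.H96.S
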