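import Pool.Agent.H96.S.Des
import Pool.Agent.H96.S.Fc

/-!
# Construction of pointed charts
-/

set_option autoImplicit false
set_option linter.unusedSectionVars false

namespace Pool.Agent.H96.S

open Pool.Agent.H96.VL
open scoped Pointwise

/-- `W` specializes to `W'` on `B`. -/
structure Gz {F : Type} [Field F] (W W' : ValuationSubring F) (B : Subring F) : Prop where
  le : Vle W B
  le' : Vle W' B
  sp : ∀ b ∈ B, W.valuation b < 1 → W'.valuation b < 1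

theorem Gz.adj {F : Type} [Field F] {W W' : ValuationSubring F} {B : Subring F} (h : Gz W W' B)
    {d : F} (hd : d ∈ B) (hd1 : W'.valuation d = 1) : Gz W W' (adj B d⁻¹) := by
  have hd0 : d ≠ 0 := by
    rintro rfl
    rw [map_zero] at hd1
    exact zero_ne_one hd1
  have hW : W.valuation d = 1 := by
    refine le_antisymm (h.le d hd) (not_lt.mp fun h1 => ?_)
    have h2 := h.sp d hd h1
    rw [hd1] at h2
    exact lt_irrefl _ h2
  refine ⟨(vle_adj_inv hd hd0).mpr ⟨h.le, hW⟩, (vle_adj_inv hd hd0).mpr ⟨h.le', hd1⟩,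
    fun b hb hv => ?_⟩
  obtain ⟨a, ha, n, rfl⟩ := (mem_adj_inv hd hd0).mp hb
  rw [map_div₀, map_pow, hW, one_pow, div_one] at hv
  rw [map_div₀, map_pow, hd1, one_pow, div_one]
  exact h.sp a ha hv

/-- Properties of rings which hold in the presence of finitely many elements. -/
def FinP {F : Type} [Field F] (R : Subring F) (Q : Subring F → Prop) : Prop :=
  ∃ E : Finset F, (∀ e ∈ E, e ∈ R) ∧ ∀ B' : Subring F, (∀ e ∈ E, e ∈ B') → Q B'

section FinP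

variable {F : Type} [Field F] {R : Subring F} {Q Q' : Subring F → Prop}

theorem FinP.and (h : FinP R Q) (h' : FinP R Q') : FinP R fun B => Q B ∧ Q' B := by
  classical
  obtain ⟨E, h1, h2⟩ := h
  obtain ⟨E', h1', h2'⟩ := h'
  refine ⟨E ∪ E', fun e he => ?_, fun B' hB' => ⟨h2 B' fun e he => hB' e (Finset.mem_union_left _ he),
    h2' B' fun e he => hB' e (Finset.mem_union_right _ he)⟩⟩
  rcases Finset.mem_union.mp he with he | he
  · exact h1 e he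
  · exact h1' e he

theorem FinP.all {ι : Type} (G : Finset ι) {Q : ι → Subring F → Prop} (h : ∀ i ∈ G, FinP R (Q i)) :
    FinP R fun B => ∀ i ∈ G, Q i B := by
  classical
  induction G using Finset.induction_on with
  | empty => exact ⟨∅, fun e he => absurd he (Finset.notMem_empty e), fun B' _ i hi =>
      absurd hi (Finset.notMem_empty i)⟩
  | insert a G ha ih =>
    obtain ⟨E, h1, h2⟩ := (h a (Finset.mem_insert_self _ _)).and
      (ih fun i hi => h i (Finset.mem_insert_of_mem hi))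
    refine ⟨E, h1, fun B' hB' i hi => ?_⟩
    rcases Finset.mem_insert.mp hi with rfl | hi
    · exact (h2 B' hB').1
    · exact (h2 B' hB').2 i hi

theorem FinP.mem {e : F} (he : e ∈ R) : FinP R fun B => e ∈ B := by
  classical
  exact ⟨{e}, fun e' he' => by rw [Finset.mem_singleton.mp he']; exact he, fun B' hB' =>
    hB' e (Finset.mem_singleton_self _)⟩

theorem FinP.mono (h : FinP R Q) (hQ : ∀ B, Q B → Q' B) : FinP R Q' := by
  obtain ⟨E, h1, h2⟩ := h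
  exact ⟨E, h1, fun B' hB' => hQ _ (h2 B' hB')⟩

theorem FinP.mn {A : Type} {cx cy : Option A} {x y g : F} (h : Mn R cx cy x y g) :
    FinP R fun B => Mn B cx cy x y g := by
  obtain ⟨i, j, h1, h2, c, hc, hc', h0, h3⟩ := h
  exact ((FinP.mem hc).and (FinP.mem hc')).mono fun B hB =>
    ⟨i, j, h1, h2, c, hB.1, hB.2, h0, h3⟩

theorem FinP.l3 {u v w l : F} (h : l ∈ L3 R u v w) : FinP R fun B => l ∈ L3 B u v w := by
  obtain ⟨b, hb, c, hc, d, hd, h1⟩ := mem_I3.mp h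
  exact ((FinP.mem hb).and ((FinP.mem hc).and (FinP.mem hd))).mono fun B hB =>
    mem_I3.mpr ⟨b, hB.1, c, hB.2.1, d, hB.2.2, h1⟩

end FinP

section Mk

variable {p : ℕ} [hp : Fact p.Prime] {F : Type} [Field F] [CharP F p] {s : Finset F}
  {A : Type} [DecidableEq A] {t : A → ValuationSubring F → F} {ε f : F} {G : Finset F}
  {P : Finset (F × F)} {W W' : ValuationSubring F} {B₀ : Subring F}

theorem adj_inv_of {B : Subring F} {d e : F} (hd0 : d ≠ 0) (he : d * e ∈ B) : e ∈ adj B d⁻¹ := by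
  have h4 := Subring.mul_mem _ (mem_adj (B := B) (t := d⁻¹)) (le_adj he)
  rwa [← mul_assoc, inv_mul_cancel₀ hd0, one_mul] at h4

theorem vl_adj_inv {B : Subring F} (hW : Vle W B) {d : F} (hd : d ∈ B) (hd1 : W.valuation d = 1) :
    vl W (adj B d⁻¹) = vl W B := by
  apply le_antisymm
  · exact vl_le (vlocal_vl hW) (adj_le le_vl (inv_mem_vl hd hd1))
  · exact vl_mono le_adj

/-- **Construction of pointed charts.** -/
theorem exists_pd (hs : ∀ g ∈ s, g ≠ 0) (hB : Fg B₀) {g : F} (hg : g ∈ s) (hAs : As s g ≤ B₀)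
    (hlc : ∀ W, Vle W B₀ → B₀ ≤ Lc s W) (hW' : Vle W' B₀) (hclo : Clo p W' B₀) {x y : F}
    {Dx Dy : Derivation ℤ F F} {cx cy : Option A} (hx : W'.valuation x < 1)
    (hy : W'.valuation y < 1) (E₀ : Finset F) (hE₀ : ∀ e ∈ E₀, e ∈ vl W' B₀)
    (hec : ∀ d ∈ B₀, W'.valuation d = 1 → (∀ e ∈ E₀, e ∈ adj B₀ d⁻¹) →
      EC p (adj B₀ d⁻¹) x y Dx Dy)
    (hcol : ∀ d ∈ B₀, W'.valuation d = 1 → (∀ e ∈ E₀, e ∈ adj B₀ d⁻¹) →
      ∀ a W, Vle W (adj B₀ d⁻¹) → Un (Lc s W) (t a W) (tc cx cy x y a))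
    (hcxy : ∀ a, cx = some a → cy ≠ some a) {al be : ℤ} (hal : cx = none → al = 0)
    (hbe : cy = none → be = 0) (hu : ε * f / (x ^ al * y ^ be) ∈ vl W' B₀)
    (hv : fl cx x * Dx f / (x ^ al * y ^ be) ∈ vl W' B₀)
    (hw : fl cy y * Dy f / (x ^ al * y ^ be) ∈ vl W' B₀) {m : ℕ}
    (hm1 : x ^ m ∈ L3 (vl W' B₀) (ε * f / (x ^ al * y ^ be)) (fl cx x * Dx f / (x ^ al * y ^ be))
      (fl cy y * Dy f / (x ^ al * y ^ be)))
    (hm2 : y ^ m ∈ L3 (vl W' B₀) (ε * f / (x ^ al * y ^ be)) (fl cx x * Dx f / (x ^ al * y ^ be))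
      (fl cy y * Dy f / (x ^ al * y ^ be)))
    (mn : ∀ h ∈ G, Mn (vl W' B₀) cx cy x y h)
    (jc : ∀ ab ∈ P, Mn (vl W' B₀) cx cy x y (Jc cx cy x y Dx Dy ab.1 ab.2)) :
    ∃ (C : Chart p s t ε f G P) (n : ℕ), B₀ ≤ C.B ∧ C.Pd W' n ∧ ∀ W, Gz W W' B₀ → Vle W C.B := by
  classical
  obtain ⟨d₀, hd₀, hd₀1, hden₀⟩ := exists_den hW' E₀ hE₀
  have hd₀0 : d₀ ≠ 0 := by
    rintro rfl
    rw [map_zero] at hd₀1
    exact zero_ne_one hd₀1
  have hE1 : ∀ e ∈ E₀, e ∈ adj B₀ d₀⁻¹ := fun e he => adj_inv_of hd₀0 (hden₀ e he)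
  have hec1 := hec d₀ hd₀ hd₀1 hE1
  have hcol1 := hcol d₀ hd₀ hd₀1 hE1
  have hvl := vl_adj_inv hW' hd₀ hd₀1
  set B₁ := adj B₀ d₀⁻¹ with hB₁
  have hWB₁ : Vle W' B₁ := (vle_adj_inv hd₀ hd₀0).mpr ⟨hW', hd₀1⟩
  have hclo1 : Clo p W' B₁ := by
    obtain ⟨n, hn, h1⟩ := hclo.vl hW'
    rw [← hvl] at h1
    exact ⟨n, hn, fun b hb => h1 b (le_vl hb)⟩
  obtain ⟨E₁, hE₁, hpt⟩ := hec1.exists_pt (hB.adj _) hWB₁ hclo1 hx hy
  rw [← hvl] at hu hv hw hm1 hm2 mn jc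
  obtain ⟨E₂, hE₂, hall⟩ := ((FinP.mem hu).and ((FinP.mem hv).and (FinP.mem hw))).and
    (((FinP.l3 hm1).and (FinP.l3 hm2)).and ((FinP.all G fun h hh => FinP.mn (mn h hh)).and
      (FinP.all P fun h hh => FinP.mn (jc h hh))))
  obtain ⟨d₁, hd₁, hd₁1, hden₁⟩ := exists_den hWB₁ (E₁ ∪ E₂) (by
    intro e he
    rcases Finset.mem_union.mp he with he | he
    · exact hE₁ e he
    · exact hE₂ e he)
  have hd₁0 : d₁ ≠ 0 := by
    rintro rfl
    rw [map_zero] at hd₁1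
    exact zero_ne_one hd₁1
  have hE2 : ∀ e ∈ E₁ ∪ E₂, e ∈ adj B₁ d₁⁻¹ := fun e he => adj_inv_of hd₁0 (hden₁ e he)
  obtain ⟨⟨hu2, hv2, hw2⟩, ⟨hm12, hm22⟩, hmn2, hjc2⟩ := hall (adj B₁ d₁⁻¹) fun e he =>
    hE2 e (Finset.mem_union_right _ he)
  have hpt2 := hpt d₁ hd₁ hd₁1 fun e he => hE2 e (Finset.mem_union_left _ he)
  have hne : ∃ g ∈ s, g ≠ 0 := ⟨g, hg, hs g hg⟩
  let C : Chart p s t ε f G P :=
    { B := adj B₁ d₁⁻¹
      g := g
      x := x
      y := y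
      Dx := Dx
      Dy := Dy
      cx := cx
      cy := cy
      al := al
      be := be
      fg := (hB.adj _).adj _
      hg := hg
      hAs := hAs.trans (le_adj.trans le_adj)
      lc := by
        intro W hW
        obtain ⟨h1, h2⟩ := (vle_adj_inv hd₁ hd₁0).mp hW
        obtain ⟨h3, h4⟩ := (vle_adj_inv hd₀ hd₀0).mp h1
        have h5 := hlc W h3
        have h6 : B₁ ≤ Lc s W := adj_le h5 ((lst_Lc hne W).loc.inv d₀ (h5 hd₀) h4)
        exact adj_le h6 ((lst_Lc hne W).loc.inv d₁ (h6 hd₁) h2)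
      ec := hec1.adj_inv hd₁ hd₁0
      cxy := hcxy
      col := fun a W hW => hcol1 a W (hW.mono le_adj)
      al0 := hal
      be0 := hbe
      hu := hu2
      hv := hv2
      hw := hw2
      mn := hmn2
      jc := hjc2 }
  refine ⟨C, C.Φ, le_adj.trans le_adj, ⟨hpt2, ⟨m, hm12, hm22⟩, le_rfl⟩, fun W hW => ?_⟩
  exact ((hW.adj hd₀ hd₀1).adj hd₁ hd₁1).le

/-- The initial state of the descent. -/
theorem exists_hn (h : ∀ W, ∃ C : Chart p s t ε f G P, Vle W C.B ∧ ∃ W₀ n, C.Pd W₀ n) :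
    ∃ n, Hn p s t ε f G P n 0 := by
  classical
  have hfg : ∀ C : Chart p s t ε f G P, ∃ E : Finset F, C.B = Subring.closure E := fun C => C.fg
  choose E hE using hfg
  set ι := {C : Chart p s t ε f G P // ∃ W₀ n, C.Pd W₀ n} with hι
  obtain ⟨T, hT⟩ := qc (fun i : ι => E i.1) (fun W => by
    obtain ⟨C, h1, h2⟩ := h W
    refine ⟨⟨C, h2⟩, fun e he => (W.valuation_le_one_iff e).mp (h1 e ?_)⟩
    rw [hE C]
    exact Subring.subset_closure he)
  have h2 : ∀ i : ι, ∃ n, ∃ W₀, i.1.Pd W₀ n := fun i => by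
    obtain ⟨W₀, n, h3⟩ := i.2
    exact ⟨n, W₀, h3⟩
  choose ν hν using h2
  refine ⟨T.sup ν + 1, [], le_rfl, fun C hC => absurd hC List.not_mem_nil, fun W => ?_⟩
  obtain ⟨i, hi, hW⟩ := hT W
  refine ⟨i.1, ?_, ?_⟩
  · rw [hE i.1]
    exact vle_closure.mpr fun e he => (W.valuation_le_one_iff e).mpr (hW e he)
  · obtain ⟨W₀, h3⟩ := hν i
    exact Or.inr (Or.inl ⟨W₀, ν i, Nat.lt_succ_of_le (Finset.le_sup hi), h3⟩)

end Mk

end Pool.Agent.H96.S
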