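import Mathlib

/-!
# Polynomials in two variables over a finite field
-/

set_option autoImplicit false
set_option linter.unusedSectionVars false

namespace Pool.Agent.H96.S

open Polynomial

section

variable {k : Type} [Field k]

/-- The derivation with respect to the first variable. -/
noncomputable def dX (k : Type) [Field k] : Derivation k k[X][X] k[X][X] :=
  PolynomialModule.equivPolynomialSelf.compDer (Polynomial.derivative' (R := k)).mapCoeffs

theorem coeff_dX (a : k[X][X]) (i : ℕ) : (dX k a).coeff i = derivative (a.coeff i) := rfl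

theorem dX_C (a : k[X]) : dX k (C a) = C (derivative a) := by
  ext1 i
  rw [coeff_dX, coeff_C, coeff_C]
  split_ifs
  · rfl
  · rw [map_zero]

theorem dX_X : dX k X = 0 := by
  ext1 i
  rw [coeff_dX, coeff_X, coeff_zero]
  split_ifs
  · rw [← C_1, derivative_C]
  · rw [map_zero]

/-- Elimination of the second variable. -/
theorem elim_of_not_dvd {π g : k[X][X]} (hπ : Irreducible π) (hd : π.natDegree ≠ 0)
    (hg : ¬ π ∣ g) : ∃ r : k[X], r ≠ 0 ∧ C r ∈ Ideal.span {π, g} := by
  have hp := hπ.isPrimitive hd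
  set L := FractionRing k[X] with hL
  have h1 : Irreducible (π.map (algebraMap k[X] L)) :=
    (hp.irreducible_iff_irreducible_map_fraction_map).mp hπ
  have h2 : ¬ π.map (algebraMap k[X] L) ∣ g.map (algebraMap k[X] L) := fun h =>
    hg (hp.dvd_of_fraction_map_dvd_fraction_map h)
  obtain ⟨a, b, hab⟩ := (h1.coprime_iff_not_dvd).mpr h2
  obtain ⟨c, hc, hca⟩ := IsLocalization.integerNormalization_spec (nonZeroDivisors k[X]) a
  obtain ⟨d, hd, hdb⟩ := IsLocalization.integerNormalization_spec (nonZeroDivisors k[X]) b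
  have hc0 := nonZeroDivisors.ne_zero hc
  have hd0 := nonZeroDivisors.ne_zero hd
  refine ⟨c * d, mul_ne_zero hc0 hd0, Ideal.mem_span_pair.mpr
    ⟨C d * IsLocalization.integerNormalization (nonZeroDivisors k[X]) a,
      C c * IsLocalization.integerNormalization (nonZeroDivisors k[X]) b, ?_⟩⟩
  apply map_injective (algebraMap k[X] L) (IsFractionRing.injective _ _)
  rw [Polynomial.map_add, Polynomial.map_mul, Polynomial.map_mul, Polynomial.map_mul,
    Polynomial.map_mul, map_C, map_C, map_C, hca, hdb, Algebra.smul_def, Algebra.smul_def,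
    Polynomial.algebraMap_apply, Polynomial.algebraMap_apply, map_mul, C_mul]
  linear_combination (C ((algebraMap k[X] L) c) * C ((algebraMap k[X] L) d)) * hab

variable [Finite k] (p : ℕ) [hp : Fact p.Prime] [CharP k p]

include p

/-- Polynomials in one variable with vanishing derivative. -/
theorem exists_root_one {a : k[X]} (ha : derivative a = 0) : ∃ b : k[X], b ^ p = a := by
  have h1 : a = expand k p (contract p a) := (expand_contract p ha hp.out.ne_zero).symm
  have hbij : Function.Bijective (frobenius k p) :=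
    Finite.injective_iff_bijective.mp (frobenius_inj k p)
  obtain ⟨c, hc⟩ := Polynomial.map_surjective (frobenius k p) hbij.2 (contract p a)
  refine ⟨c, ?_⟩
  rw [← map_frobenius_expand, map_expand, hc, ← h1]

/-- Polynomials in two variables with vanishing derivatives. -/
theorem exists_root_two {a : k[X][X]} (h1 : dX k a = 0) (h2 : derivative a = 0) :
    ∃ b : k[X][X], b ^ p = a := by
  have hchar : CharP k[X] p := inferInstance
  have h3 : a = expand k[X] p (contract p a) := (expand_contract p h2 hp.out.ne_zero).symm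
  have h4 : contract p a ∈ Polynomial.lifts (frobenius k[X] p) := by
    rw [Polynomial.lifts_iff_coeff_lifts]
    intro n
    have h5 : derivative ((contract p a).coeff n) = 0 := by
      rw [coeff_contract hp.out.ne_zero, ← coeff_dX, h1, coeff_zero]
    obtain ⟨b, hb⟩ := exists_root_one p h5
    exact ⟨b, hb⟩
  rw [Polynomial.mem_lifts] at h4
  obtain ⟨c, hc⟩ := h4
  refine ⟨c, ?_⟩
  rw [← map_frobenius_expand, map_expand, hc, ← h3]

theorem dX_eq_zero_of_dvd {π : k[X][X]} (h0 : π ≠ 0) (h : π ∣ dX k π) : dX k π = 0 := by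
  obtain ⟨c, hc⟩ := h
  by_contra hne
  have hc0 : c ≠ 0 := by
    rintro rfl
    rw [mul_zero] at hc
    exact hne hc
  have h1 : (dX k π).natDegree ≤ π.natDegree := by
    rw [natDegree_le_iff_coeff_eq_zero]
    intro N hN
    rw [coeff_dX, coeff_eq_zero_of_natDegree_lt hN, map_zero]
  rw [hc, natDegree_mul h0 hc0] at h1
  have h2 : c.natDegree = 0 := by omega
  obtain ⟨c0, rfl⟩ := natDegree_eq_zero.mp h2
  have h3 : derivative π.leadingCoeff = π.leadingCoeff * c0 := by
    rw [leadingCoeff, ← coeff_dX, hc, coeff_mul_C]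
  have hl0 : π.leadingCoeff ≠ 0 := leadingCoeff_ne_zero.mpr h0
  have hc00 : c0 ≠ 0 := by
    rintro rfl
    exact hc0 C_0
  have h4 := degree_derivative_lt hl0
  rw [h3, degree_mul] at h4
  have h5 : (0 : WithBot ℕ) ≤ c0.degree := zero_le_degree_iff.mpr hc00
  have h6 : π.leadingCoeff.degree ≤ π.leadingCoeff.degree + c0.degree := by
    calc π.leadingCoeff.degree = π.leadingCoeff.degree + 0 := (add_zero _).symm
      _ ≤ _ := add_le_add le_rfl h5
  exact absurd h4 (not_lt.mpr h6)

theorem derivative_eq_zero_of_dvd {π : k[X][X]} (h : π ∣ derivative π) : derivative π = 0 := by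
  by_contra hne
  have h1 := natDegree_le_of_dvd h hne
  by_cases h2 : π.natDegree = 0
  · obtain ⟨c, rfl⟩ := natDegree_eq_zero.mp h2
    exact hne derivative_C
  · exact absurd h1 (not_le.mpr (natDegree_derivative_lt h2))

/-- **Elimination for squarefree polynomials.** -/
theorem exists_elim {h : k[X][X]} (hh : Squarefree h) (h0 : h ≠ 0) : ∃ r : k[X], r ≠ 0 ∧
    C r ∈ Ideal.span {h, dX k h, derivative h} := by
  classical
  by_contra hcon
  push Not at hcon
  set I : Ideal k[X][X] := Ideal.span {h, dX k h, derivative h} with hI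
  set S : Submonoid k[X][X] := (nonZeroDivisors k[X]).map (C : k[X] →+* k[X][X]) with hS
  have hdis : Disjoint (I : Set k[X][X]) S := by
    rw [Set.disjoint_left]
    rintro _ h1 ⟨r, hr, rfl⟩
    exact hcon r (nonZeroDivisors.ne_zero hr) h1
  obtain ⟨𝔮, h𝔮, hle, hd⟩ := Ideal.exists_le_prime_disjoint I S hdis
  have hmem : ∀ r : k[X], r ≠ 0 → C r ∉ 𝔮 := fun r hr h1 =>
    Set.disjoint_left.mp hd h1 ⟨r, mem_nonZeroDivisors_of_ne_zero hr, rfl⟩
  have hh𝔮 : h ∈ 𝔮 := hle (Ideal.subset_span (Or.inl rfl))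
  have hx𝔮 : dX k h ∈ 𝔮 := hle (Ideal.subset_span (Or.inr (Or.inl rfl)))
  have hy𝔮 : derivative h ∈ 𝔮 := hle (Ideal.subset_span (Or.inr (Or.inr rfl)))
  obtain ⟨π, hπ, hπ𝔮, hπh⟩ : ∃ π : k[X][X], Prime π ∧ π ∈ 𝔮 ∧ π ∣ h := by
    have h1 : (UniqueFactorizationMonoid.factors h).prod ∈ 𝔮 := by
      obtain ⟨u, hu⟩ := UniqueFactorizationMonoid.factors_prod h0
      have h2 : (UniqueFactorizationMonoid.factors h).prod * u ∈ 𝔮 := by rw [hu]; exact hh𝔮
      rcases h𝔮.mem_or_mem h2 with h3 | h3
      · exact h3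
      · exact absurd (Ideal.eq_top_of_isUnit_mem _ h3 u.isUnit) h𝔮.ne_top
    obtain ⟨π, h2, h3⟩ := (h𝔮.multiset_prod_mem_iff_exists_mem _).mp h1
    exact ⟨π, UniqueFactorizationMonoid.prime_of_factor π h2, h3,
      UniqueFactorizationMonoid.dvd_of_mem_factors h2⟩
  have hirr := hπ.irreducible
  have hdeg : π.natDegree ≠ 0 := by
    intro h1
    obtain ⟨c, rfl⟩ := natDegree_eq_zero.mp h1
    exact hmem c (fun h2 => hπ.ne_zero (by rw [h2, C_0])) hπ𝔮
  have hcase : ∀ g ∈ 𝔮, π ∣ g := by
    intro g hg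
    by_contra h1
    obtain ⟨r, hr, h2⟩ := elim_of_not_dvd hirr hdeg h1
    refine hmem r hr ((Ideal.span_le.mpr ?_) h2)
    rintro _ (rfl | h3)
    · exact hπ𝔮
    · rw [Set.mem_singleton_iff.mp h3]; exact hg
  have hx := hcase _ hx𝔮
  have hy := hcase _ hy𝔮
  obtain ⟨h', rfl⟩ := hπh
  have hnd : ¬ π ∣ h' := by
    rintro ⟨e, rfl⟩
    exact hirr.not_isUnit (hh π ⟨e, by ring⟩)
  have h1 : π ∣ dX k π := by
    rw [Derivation.leibniz, smul_eq_mul, smul_eq_mul] at hx
    have h2 : π ∣ h' * dX k π := (dvd_add_right (dvd_mul_right π (dX k h'))).mp hx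
    exact (hπ.dvd_or_dvd h2).resolve_left hnd
  have h2 : π ∣ derivative π := by
    rw [derivative_mul] at hy
    have h3 : π ∣ derivative π * h' := (dvd_add_left (dvd_mul_right π (derivative h'))).mp hy
    exact (hπ.dvd_or_dvd h3).resolve_right hnd
  obtain ⟨b, hb⟩ := exists_root_two p (dX_eq_zero_of_dvd p hπ.ne_zero h1)
    (derivative_eq_zero_of_dvd p h2)
  rw [← hb] at hirr
  exact not_irreducible_pow hp.out.ne_one hirr

end

end Pool.Agent.H96.S
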