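import Pool.Agent.H96.S.EC3
import Pool.Agent.H96.VLoc

/-!
# Closed points of charts: the exceptional curve of the blowing up
-/

set_option autoImplicit false
set_option linter.unusedSectionVars false

namespace Pool.Agent.H96.S

/-- The centre of `W` on `B` is the closed point defined by `x` and `y`. -/
structure Pt (p : ℕ) {F : Type} [Field F] (W : ValuationSubring F) (B : Subring F) (x y : F) :
    Prop where
  le : ∀ b ∈ B, W.valuation b ≤ 1
  vx : W.valuation x < 1
  vy : W.valuation y < 1
  max : ∀ b ∈ B, W.valuation b < 1 → ∃ a ∈ B, ∃ c ∈ B, b = x * a + y * c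
  fin : ∃ n, 1 ≤ n ∧ ∀ b ∈ B, W.valuation (b ^ p ^ n - b) < 1

theorem Pt.swap {p : ℕ} {F : Type} [Field F] {W : ValuationSubring F} {B : Subring F} {x y : F}
    (h : Pt p W B x y) : Pt p W B y x where
  le := h.le
  vx := h.vy
  vy := h.vx
  max := by
    intro b hb hv
    obtain ⟨a, ha, c, hc, rfl⟩ := h.max b hb hv
    exact ⟨c, hc, a, ha, by ring⟩
  fin := h.fin

section Star

variable {p : ℕ} [hp : Fact p.Prime] {F : Type} [Field F] [CharP F p]

theorem EC.pow_mul_x {S : Subring F} {x t : F} {Dx Dt : Derivation ℤ F F} (h : EC p S x t Dx Dt)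
    {r : F} (hr : Mul S x (r ^ p)) : Mul S x r := by
  obtain ⟨s, hs, hr⟩ := hr
  have hx := h.x0
  refine ⟨r / x, ?_, by field_simp⟩
  refine h.root (i := p - 1) (j := 0) (by have := hp.out.pos; omega) hp.out.pos ?_
  have h1 : x ^ (p - 1) * t ^ 0 * (r / x) ^ p = s := by
    obtain ⟨q, hq⟩ : ∃ q, p = q + 1 := ⟨p - 1, by have := hp.out.pos; omega⟩
    rw [pow_zero, mul_one, div_pow, hr]
    have h2 : p - 1 = q := by omega
    have h3 : x ^ p = x ^ q * x := by
      conv_lhs => rw [hq]
      rw [pow_succ]
    rw [h2, h3]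
    field_simp
  rw [h1]
  exact hs

/-- The independence of the powers of `t` modulo `x`. -/
theorem EC.star {S : Subring F} {x t : F} {Dx Dt : Derivation ℤ F F} (h : EC p S x t Dx Dt)
    {r : ℕ → F} (hr : ∀ j, r j ∈ S) (m : ℕ) : m ≤ p →
    Mul S x (∑ j ∈ Finset.range m, r j ^ p * t ^ j) → ∀ j < m, Mul S x (r j) := by
  have hDx : ∀ w, Mul S x w → Mul S x (Dt w) := by
    rintro _ ⟨s, hs, rfl⟩
    refine ⟨Dt s, h.dy s hs, ?_⟩
    rw [Derivation.leibniz, h.yx, smul_zero, add_zero, smul_eq_mul]
  have hDn : ∀ n w, Mul S x w → Mul S x ((Dt : F →ₗ[ℤ] F)^[n] w) := by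
    intro n
    induction n with
    | zero => exact fun w hw => hw
    | succ n ih =>
      intro w hw
      rw [Function.iterate_succ_apply']
      exact hDx _ (ih w hw)
  induction m with
  | zero => intro _ _ j hj; omega
  | succ m ih =>
    intro hm hs
    have hkill : ∀ (i n : ℕ) (c : F), Dt c = 0 → i < n →
        (Dt : F →ₗ[ℤ] F)^[n] (t ^ i * c) = 0 := by
      intro i n c hc hin
      obtain ⟨k, rfl⟩ : ∃ k, n = k + 1 + i := ⟨n - i - 1, by omega⟩
      rw [Function.iterate_add_apply, h.iter_pow_mul h.yy hc, Function.iterate_succ_apply]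
      have h1 : (Dt : F →ₗ[ℤ] F) ((i.factorial : F) * c) = 0 := by
        show Dt _ = 0
        rw [Derivation.leibniz, hc, Derivation.map_natCast, smul_zero, smul_zero, add_zero]
      rw [h1, ← Module.End.pow_apply, map_zero]
    have hfac : ¬ p ∣ m.factorial := fun hd =>
      absurd ((hp.out.dvd_factorial).mp hd) (not_le.mpr hm)
    have h1 := hDn m _ hs
    rw [Finset.sum_range_succ, ← Module.End.pow_apply, map_add, map_sum, Finset.sum_eq_zero,
      zero_add, Module.End.pow_apply, mul_comm, h.iter_pow_mul h.yy (der_pow Dt (r m))] at h1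
    · have h2 : Mul S x (r m) := by
        apply h.pow_mul_x
        obtain ⟨s, hs', h3⟩ := h1
        have hx := h.x0
        refine ⟨r m ^ p / x, h.of_cast_mul hfac ?_, by field_simp⟩
        have h4 : ((m.factorial : ℕ) : F) * (r m ^ p / x) = s := by
          rw [← mul_div_assoc, h3]
          field_simp
        rw [h4]
        exact hs'
      have h3 : Mul S x (∑ j ∈ Finset.range m, r j ^ p * t ^ j) := by
        have h4 : ∑ j ∈ Finset.range m, r j ^ p * t ^ j =
            ∑ j ∈ Finset.range (m + 1), r j ^ p * t ^ j - (r m ^ (p - 1) * t ^ m) * r m := by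
          have h5 : r m ^ p = r m ^ (p - 1) * r m := by
            rw [← pow_succ]
            congr 1
            have := hp.out.pos
            omega
          rw [Finset.sum_range_succ, h5]; ring
        rw [h4]
        exact hs.sub (h2.smul (S.mul_mem (S.pow_mem (hr m) _) (S.pow_mem h.hy _)))
      intro j hj
      rcases Nat.lt_succ_iff_lt_or_eq.mp hj with hj | rfl
      · exact ih (Nat.le_of_succ_le hm) h3 j hj
      · exact h2
    · intro i hi
      rw [Finset.mem_range] at hi
      rw [Module.End.pow_apply, mul_comm]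
      exact hkill i m _ (der_pow Dt (r i)) hi

end Star

section F1

variable {p : ℕ} [hp : Fact p.Prime] {F : Type} [Field F] [CharP F p] {W : ValuationSubring F}
  {B : Subring F} {x y : F} {Dx Dy : Derivation ℤ F F}

theorem sum_range_mul' (f : ℕ → F) (p m : ℕ) : ∑ i ∈ Finset.range (p * m), f i =
    ∑ j ∈ Finset.range p, ∑ l ∈ Finset.range m, f (j + p * l) := by
  rw [Finset.sum_comm]
  induction m with
  | zero => simp
  | succ m ih =>
    rw [Nat.mul_succ, Finset.sum_range_add, ih, Finset.sum_range_succ]
    congr 1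
    exact Finset.sum_congr rfl fun j _ => by rw [add_comm]

/-- **The exceptional curve.** -/
theorem EC.f1 (h : EC p B x y Dx Dy) (hP : Pt p W B x y) (ht : W.valuation (y / x) ≤ 1) (m : ℕ) :
    ∀ c : ℕ → F, (∀ i, c i ∈ B) →
    Mul (adj B (y / x)) x (∑ i ∈ Finset.range m, c i * (y / x) ^ i) →
    ∀ i < m, W.valuation (c i) < 1 := by
  have hS := h.blow
  set t := y / x with ht'
  have hx0 := h.x0
  have hyt : y = x * t := by rw [ht', mul_div_cancel₀ _ hx0]
  have hSW : ∀ s ∈ adj B t, W.valuation s ≤ 1 := by
    intro s hs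
    have h1 : adj B t ≤ W.toSubring := adj_le
      (fun b hb => (W.valuation_le_one_iff b).mp (hP.le b hb)) ((W.valuation_le_one_iff t).mp ht)
    exact (W.valuation_le_one_iff s).mpr (h1 hs)
  obtain ⟨n, hn, hq⟩ := hP.fin
  obtain ⟨n, rfl⟩ := Nat.exists_eq_add_of_le' hn
  induction m using Nat.strong_induction_on with
  | _ m ih =>
    intro c hc hs i hi
    rcases Nat.lt_or_ge m 2 with hm | hm
    · have h1 : m = 1 := by omega
      subst h1
      have h2 : i = 0 := by omega
      subst h2
      rw [Finset.sum_range_one, pow_zero, mul_one] at hs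
      obtain ⟨s, hs, h3⟩ := hs
      rw [h3, map_mul]
      calc W.valuation x * W.valuation s ≤ W.valuation x * 1 := mul_le_mul' le_rfl (hSW s hs)
        _ < 1 := by rw [mul_one]; exact hP.vx
    · set d : ℕ → F := fun i => if i < m then c i else 0 with hd
      have hdB : ∀ i, d i ∈ B := by
        intro i
        show (if i < m then c i else 0) ∈ B
        split_ifs
        · exact hc i
        · exact B.zero_mem
      obtain ⟨m', hm'⟩ : ∃ m', m' = (m - 1) / p + 1 := ⟨_, rfl⟩
      have hp2 := hp.out.two_le
      have hmm : m' < m := by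
        have h1 : (m - 1) / p < m - 1 := Nat.div_lt_self (by omega) hp2
        omega
      have hmm2 : m ≤ p * m' := by
        have h1 := Nat.div_add_mod (m - 1) p
        have h2 := Nat.mod_lt (m - 1) hp.out.pos
        rw [hm', Nat.mul_add, mul_one]
        omega
      have hsum : ∑ i ∈ Finset.range (p * m'), d i * t ^ i = ∑ i ∈ Finset.range m, c i * t ^ i := by
        rw [← Finset.sum_subset (Finset.range_subset_range.mpr hmm2)]
        · refine Finset.sum_congr rfl fun i hi => ?_
          rw [Finset.mem_range] at hi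
          rw [hd]
          simp only [if_pos hi]
        · intro i _ hi
          rw [Finset.mem_range] at hi
          rw [hd]
          simp only [if_neg hi, zero_mul]
      have hdiff : ∀ b ∈ B, Mul (adj B t) x (b - b ^ p ^ (n + 1)) := by
        intro b hb
        obtain ⟨a, ha, e, he, h1⟩ := hP.max (b - b ^ p ^ (n + 1)) (B.sub_mem hb (B.pow_mem hb _))
          (by rw [← Valuation.map_neg, neg_sub]; exact hq b hb)
        refine ⟨a + t * e, Subring.add_mem _ (le_adj ha) (Subring.mul_mem _ mem_adj (le_adj he)), ?_⟩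
        rw [h1, hyt]; ring
      have hs2 : Mul (adj B t) x (∑ j ∈ Finset.range p,
          (∑ l ∈ Finset.range m', (d (j + p * l)) ^ p ^ n * t ^ l) ^ p * t ^ j) := by
        have h1 : ∑ j ∈ Finset.range p,
            (∑ l ∈ Finset.range m', (d (j + p * l)) ^ p ^ n * t ^ l) ^ p * t ^ j =
            ∑ i ∈ Finset.range (p * m'), d i ^ p ^ (n + 1) * t ^ i := by
          rw [sum_range_mul']
          refine Finset.sum_congr rfl fun j _ => ?_
          rw [sum_pow_char, Finset.sum_mul]
          refine Finset.sum_congr rfl fun l _ => ?_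
          rw [mul_pow, ← pow_mul, ← pow_mul, ← pow_succ, mul_assoc, ← pow_add, mul_comm l p,
            add_comm (p * l) j]
        have h2 : ∑ i ∈ Finset.range (p * m'), d i ^ p ^ (n + 1) * t ^ i =
            ∑ i ∈ Finset.range (p * m'), d i * t ^ i -
            ∑ i ∈ Finset.range (p * m'), (d i - d i ^ p ^ (n + 1)) * t ^ i := by
          rw [← Finset.sum_sub_distrib]
          exact Finset.sum_congr rfl fun i _ => by ring
        rw [h1, h2, hsum]
        refine hs.sub ?_
        have h3 : ∀ s : Finset ℕ, Mul (adj B t) x (∑ i ∈ s, (d i - d i ^ p ^ (n + 1)) * t ^ i) := by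
          intro s
          induction s using Finset.induction_on with
          | empty => rw [Finset.sum_empty]; exact Mul.zero
          | insert a s ha ihs =>
            rw [Finset.sum_insert ha]
            refine Mul.add ?_ ihs
            rw [mul_comm]
            exact (hdiff _ (hdB a)).smul (Subring.pow_mem _ mem_adj _)
        exact h3 _
      have h4 := hS.star (r := fun j => ∑ l ∈ Finset.range m', (d (j + p * l)) ^ p ^ n * t ^ l)
        (fun j => Subring.sum_mem _ fun l _ => Subring.mul_mem _ (le_adj (B.pow_mem (hdB _) _))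
          (Subring.pow_mem _ mem_adj _)) p le_rfl hs2
      have h5 := h4 (i % p) (Nat.mod_lt _ hp.out.pos)
      have h6 := ih m' hmm (fun l => (d (i % p + p * l)) ^ p ^ n) (fun l => B.pow_mem (hdB _) _) h5
        (i / p) (by
          have h7 : i / p ≤ (m - 1) / p := Nat.div_le_div_right (by omega)
          omega)
      have h7 : d (i % p + p * (i / p)) = c i := by
        rw [Nat.mod_add_div, hd]
        simp only [if_pos hi]
      simp only [h7] at h6
      rw [map_pow] at h6
      by_contra hcon
      exact absurd h6 (not_lt.mpr (one_le_pow₀ (not_lt.mp hcon)))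

end F1

end Pool.Agent.H96.S
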