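import Pool.Agent.H96.S.Ch

/-!
# The charts of the blowing up away from the centre
-/

set_option autoImplicit false
set_option linter.unusedSectionVars false

namespace Pool.Agent.H96.S

open Pool.Agent.H96.VL
open scoped Pointwise

section Defs

variable {F : Type} [Field F] {A : Type}

/-- The equation of the exceptional curve. -/
noncomputable def eW (s : Finset F) (W₀ : ValuationSubring F) (x y : F) (W : ValuationSubring F) : F :=
  open Classical in if Lc s W = Lc s W₀ then (if W.valuation (y / x) ≤ 1 then x else y) else 1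

/-- The colours of the blowing up. -/
noncomputable def tb (t : A → ValuationSubring F → F) (s : Finset F) (W₀ : ValuationSubring F)
    (x y : F) (cx cy : Option A) : Option A → ValuationSubring F → F
  | none => eW s W₀ x y
  | some a => fun W => open Classical in
      if cx = some a ∨ cy = some a then t a W / eW s W₀ x y W else t a W

theorem tb_none {t : A → ValuationSubring F → F} {s : Finset F} {W₀ W : ValuationSubring F}
    {x y : F} {cx cy : Option A} : tb t s W₀ x y cx cy none W = eW s W₀ x y W := rfl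

theorem tb_pos {t : A → ValuationSubring F → F} {s : Finset F} {W₀ W : ValuationSubring F}
    {x y : F} {cx cy : Option A} {a : A} (h : cx = some a ∨ cy = some a) :
    tb t s W₀ x y cx cy (some a) W = t a W / eW s W₀ x y W := if_pos h

theorem tb_neg {t : A → ValuationSubring F → F} {s : Finset F} {W₀ W : ValuationSubring F}
    {x y : F} {cx cy : Option A} {a : A} (h : ¬ (cx = some a ∨ cy = some a)) :
    tb t s W₀ x y cx cy (some a) W = t a W := if_neg h

theorem tb_one {t : A → ValuationSubring F → F} {s : Finset F} {W₀ W : ValuationSubring F}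
    {x y : F} {cx cy : Option A} (h : eW s W₀ x y W = 1) (a : A) :
    tb t s W₀ x y cx cy (some a) W = t a W := by
  by_cases h1 : cx = some a ∨ cy = some a
  · rw [tb_pos h1, h, div_one]
  · rw [tb_neg h1]

theorem eW_ne {s : Finset F} {W₀ W : ValuationSubring F} {x y : F} (h : Lc s W ≠ Lc s W₀) :
    eW s W₀ x y W = 1 := if_neg h

theorem eW_le {s : Finset F} {W₀ W : ValuationSubring F} {x y : F} (h : Lc s W = Lc s W₀)
    (h1 : W.valuation (y / x) ≤ 1) : eW s W₀ x y W = x := by rw [eW, if_pos h, if_pos h1]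

theorem eW_gt {s : Finset F} {W₀ W : ValuationSubring F} {x y : F} (h : Lc s W = Lc s W₀)
    (h1 : ¬ W.valuation (y / x) ≤ 1) : eW s W₀ x y W = y := by rw [eW, if_pos h, if_neg h1]

theorem fl_map (o : Option A) (x : F) : fl (o.map some) x = fl o x := by
  cases o <;> rfl

theorem map_some_iff {o : Option A} {a : A} : o.map some = some (some a) ↔ o = some a := by
  cases o with
  | none => exact ⟨fun h => (by cases h), fun h => (by cases h)⟩
  | some b =>
    constructor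
    · intro h
      exact Option.some_injective _ h
    · intro h
      rw [h]; rfl

theorem map_none_iff {o : Option A} : o.map some = none ↔ o = none := by
  cases o with
  | none => exact ⟨fun _ => rfl, fun _ => rfl⟩
  | some b => exact ⟨fun h => (by cases h), fun h => (by cases h)⟩

theorem map_some_none {o : Option A} : o.map some ≠ some (none : Option A) := by
  cases o with
  | none => intro h; cases h
  | some b => intro h; cases h

theorem Mn.map {B : Subring F} {cx cy : Option A} {x y g : F} (h : Mn B cx cy x y g) :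
    Mn B (cx.map some) (cy.map some) x y g := by
  obtain ⟨i, j, h1, h2, h3⟩ := h
  exact ⟨i, j, fun h => h1 (map_none_iff.mp h), fun h => h2 (map_none_iff.mp h), h3⟩

theorem Jc_map (cx cy : Option A) (x y : F) (Dx Dy : Derivation ℤ F F) (a b : F) :
    Jc (cx.map some) (cy.map some) x y Dx Dy a b = Jc cx cy x y Dx Dy a b := by
  rw [Jc, Jc, fl_map, fl_map]

variable [DecidableEq A]

theorem tc_map_some (cx cy : Option A) (x y : F) (a : A) :
    tc (cx.map some) (cy.map some) x y (some a) = tc cx cy x y a := by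
  rw [tc, tc]
  simp only [map_some_iff]

theorem tc_map_none (cx cy : Option A) (x y : F) :
    tc (cx.map some) (cy.map some) x y (none : Option A) = 1 := by
  rw [tc, if_neg map_some_none, if_neg map_some_none, one_mul]

end Defs

/-- The specification of the finite set of a point. -/
def Cn {F : Type} [Field F] [DecidableEq F] (s : Finset F) (W₀ : ValuationSubring F) (c : Finset F)
    (N : ℕ) : Prop :=
  ∀ (W : ValuationSubring F), ∀ g ∈ s,
      (∀ g' ∈ s, W.valuation g' ≤ W.valuation g) →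
      (Lc s W ≠ Lc s W₀ → Gen (Lc s W) c (g ^ N)) ∧
      (Lc s W = Lc s W₀ → (∀ a ∈ c, a / g ^ N ∈ Lc s W ∧ W.valuation (a / g ^ N) < 1) ∧
        ∀ b ∈ Lc s W, W.valuation b < 1 → b ∈ gs (Lc s W) (c.image (· / g ^ N)))

section Rc

variable {p : ℕ} [hp : Fact p.Prime] {F : Type} [Field F] [CharP F p] [DecidableEq F] {s : Finset F}
  {A : Type} [DecidableEq A] {t : A → ValuationSubring F → F} {ε f : F} {G : Finset F}
  {P : Finset (F × F)} {W W₀ W₁ : ValuationSubring F} {c : Finset F} {N : ℕ} {x₀ y₀ : F}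
  {cx₀ cy₀ : Option A}

/-- Valuations over a chart away from the centre are not centred at the point. -/
theorem Chart.ne_of_mem (C : Chart p s t ε f G P) (hs : ∀ g ∈ s, g ≠ 0) (hcn : Cn s W₀ c N) {a : F}
    (ha : a ∈ c) (hW : Vle W C.B) (h : W.valuation (C.g ^ N / a) ≤ 1) (ha0 : a ≠ 0) :
    Lc s W ≠ Lc s W₀ := by
  intro heq
  have hg0 := hs _ C.hg
  have h1 := ((hcn W C.g C.hg ((vle_As hg0).mp (hW.mono C.hAs))).2 heq).1 a ha
  have h2 := h1.2
  rw [← inv_div, map_inv₀] at h2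
  have h3 : 0 < W.valuation (C.g ^ N / a) := by
    rw [Valuation.pos_iff]; exact div_ne_zero (pow_ne_zero _ hg0) ha0
  exact absurd h2 (not_lt.mpr ((one_le_inv₀ h3).mpr h))

/-- The chart of the blowing up away from the centre. -/
def Chart.rc (C : Chart p s t ε f G P) (hs : ∀ g ∈ s, g ≠ 0) (hcn : Cn s W₀ c N)
    {d a : F} (hd : d ∈ C.B) (hd0 : d ≠ 0) (ha : a ∈ c) (ha0 : a ≠ 0)
    (hca : ∀ a' ∈ c, a' / a ∈ adj C.B d⁻¹)
    (hN : C.g ^ N / a ∈ adj C.B d⁻¹) : Chart p (s * c) (tb t s W₀ x₀ y₀ cx₀ cy₀) ε f G P where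
  B := adj C.B d⁻¹
  g := C.g * a
  x := C.x
  y := C.y
  Dx := C.Dx
  Dy := C.Dy
  cx := C.cx.map some
  cy := C.cy.map some
  al := C.al
  be := C.be
  fg := C.fg.adj _
  hg := Finset.mul_mem_mul C.hg ha
  hAs := by
    refine As_le fun g' hg' => ?_
    obtain ⟨g₁, hg₁, a₁, ha₁, rfl⟩ := Finset.mem_mul.mp hg'
    rw [mul_div_mul_comm]
    exact Subring.mul_mem _ (le_adj (C.hAs (mem_As hg₁))) (hca a₁ ha₁)
  lc := by
    intro W hW
    obtain ⟨h1, h2⟩ := (vle_adj_inv hd hd0).mp hW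
    have hne : ∃ g ∈ s, g ≠ 0 := ⟨C.g, C.hg, hs _ C.hg⟩
    have h3 : adj C.B d⁻¹ ≤ Lc s W := adj_le (C.lc W h1) ((lst_Lc hne W).loc.inv d (C.lc W h1 hd) h2)
    exact h3.trans (Lc_mul_le ⟨_, Finset.mul_mem_mul C.hg ha, mul_ne_zero (hs _ C.hg) ha0⟩ W)
  ec := C.ec.adj_inv hd hd0
  cxy := by
    intro a ha'
    cases a with
    | none => exact absurd ha' map_some_none
    | some b =>
      intro h
      exact C.cxy b (map_some_iff.mp ha') (map_some_iff.mp h)
  col := by
    intro b W hW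
    have hWB : Vle W C.B := hW.mono le_adj
    have hne : Lc s W ≠ Lc s W₀ := C.ne_of_mem hs hcn ha hWB (hW _ hN) ha0
    have hle : Lc s W ≤ Lc (s * c) W :=
      Lc_mul_le ⟨_, Finset.mul_mem_mul C.hg ha, mul_ne_zero (hs _ C.hg) ha0⟩ W
    cases b with
    | none =>
      have h1 : tb t s W₀ x₀ y₀ cx₀ cy₀ none W = 1 := eW_ne hne
      rw [h1, tc_map_none]
      exact Un.refl one_ne_zero
    | some b =>
      have h1 : tb t s W₀ x₀ y₀ cx₀ cy₀ (some b) W = t b W := tb_one (eW_ne hne) b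
      rw [h1, tc_map_some]
      exact (C.col b W hWB).mono hle
  al0 := fun h => C.al0 (map_none_iff.mp h)
  be0 := fun h => C.be0 (map_none_iff.mp h)
  hu := le_adj C.hu
  hv := by rw [fl_map]; exact le_adj C.hv
  hw := by rw [fl_map]; exact le_adj C.hw
  mn := fun h hh => ((C.mn h hh).mono le_adj).map
  jc := fun h hh => by rw [Jc_map]; exact ((C.jc h hh).mono le_adj).map

section

variable (C : Chart p s t ε f G P) (hs : ∀ g ∈ s, g ≠ 0) (hcn : Cn s W₀ c N)
    {d a : F} (hd : d ∈ C.B) (hd0 : d ≠ 0) (ha : a ∈ c) (ha0 : a ≠ 0)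
    (hca : ∀ a' ∈ c, a' / a ∈ adj C.B d⁻¹)
    (hN : C.g ^ N / a ∈ adj C.B d⁻¹)

theorem Chart.L_rc : C.L ≤ (C.rc (x₀ := x₀) (y₀ := y₀) (cx₀ := cx₀) (cy₀ := cy₀) hs hcn hd hd0 ha ha0
    hca hN).L := by
  have h1 : (C.rc (x₀ := x₀) (y₀ := y₀) (cx₀ := cx₀) (cy₀ := cy₀) hs hcn hd hd0 ha ha0 hca hN).L =
      L3 (adj C.B d⁻¹) (ε * f / (C.x ^ C.al * C.y ^ C.be))
        (fl (C.cx.map some) C.x * C.Dx f / (C.x ^ C.al * C.y ^ C.be))
        (fl (C.cy.map some) C.y * C.Dy f / (C.x ^ C.al * C.y ^ C.be)) := rfl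
  rw [h1, fl_map, fl_map]
  exact L3_mono le_adj

theorem Chart.Φ_rc (h : C.L.relIndex C.B.toAddSubgroup ≠ 0) :
    (C.rc (x₀ := x₀) (y₀ := y₀) (cx₀ := cx₀) (cy₀ := cy₀) hs hcn hd hd0 ha ha0 hca hN).Φ ≤ C.Φ := by
  have h1 := (idx_loc hd hd0 C.idl (C.rc (x₀ := x₀) (y₀ := y₀) (cx₀ := cx₀) (cy₀ := cy₀) hs hcn hd
    hd0 ha ha0 hca hN).idl (C.L_rc hs hcn hd hd0 ha ha0 hca hN) h).2
  have h2 : ((C.cx.map some).isSome = true ∧ (C.cy.map some).isSome = true) ↔
      (C.cx.isSome = true ∧ C.cy.isSome = true) := by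
    rw [Option.isSome_map, Option.isSome_map]
  have h3 : (if (C.cx.map some).isSome = true ∧ (C.cy.map some).isSome = true then 0 else 1) =
      if C.cx.isSome = true ∧ C.cy.isSome = true then 0 else 1 := if_congr h2 rfl rfl
  show 2 * _ + (if (C.cx.map some).isSome = true ∧ (C.cy.map some).isSome = true then 0 else 1) ≤
    2 * _ + _
  rw [h3]
  exact Nat.add_le_add_right (Nat.mul_le_mul_left _ h1) _

theorem Chart.Pd.rc {C : Chart p s t ε f G P} {hd : d ∈ C.B}
    {hca : ∀ a' ∈ c, a' / a ∈ adj C.B d⁻¹} {hN : C.g ^ N / a ∈ adj C.B d⁻¹} {n : ℕ}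
    (h : C.Pd W₁ n) (hd1 : W₁.valuation d = 1) :
    (C.rc (x₀ := x₀) (y₀ := y₀) (cx₀ := cx₀) (cy₀ := cy₀) hs hcn hd hd0 ha ha0 hca hN).Pd W₁ n := by
  refine ⟨h.pt.adj_inv hd hd1, ?_, (C.Φ_rc hs hcn hd hd0 ha ha0 hca hN h.idx_ne).trans h.le⟩
  obtain ⟨m, h1, h2⟩ := h.m
  exact ⟨m, C.L_rc hs hcn hd hd0 ha ha0 hca hN h1, C.L_rc hs hcn hd hd0 ha ha0 hca hN h2⟩

end

/-- The charts of the blowing up away from the centre. -/
theorem Chart.exists_rc (C : Chart p s t ε f G P) (hs : ∀ g ∈ s, g ≠ 0) (hcn : Cn s W₀ c N)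
    (hW : Vle W C.B) (hne : Lc s W ≠ Lc s W₀) :
    ∃ C' : Chart p (s * c) (tb t s W₀ x₀ y₀ cx₀ cy₀) ε f G P, C.B ≤ C'.B ∧ Vle W C'.B ∧
      (C.Good → C'.Good) ∧
      ∃ d ∈ C.B, W.valuation d = 1 ∧ C'.x = C.x ∧ C'.y = C.y ∧
        (∀ W', Vle W' C.B → W'.valuation d = 1 → Vle W' C'.B) ∧
        ∀ W' n, W'.valuation d = 1 → C.Pd W' n → C'.Pd W' n := by
  have hg0 := hs _ C.hg
  obtain ⟨h1, -⟩ := hcn W C.g C.hg ((vle_As hg0).mp (hW.mono C.hAs))
  have hG := h1 hne
  have hne' : ∃ g ∈ s, g ≠ 0 := ⟨C.g, C.hg, hg0⟩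
  have hloc := (lst_Lc hne' W).loc
  obtain ⟨a, ha, ha0, hva, hTa⟩ := hG.exists_eq hloc
  have hG' := hG.of_max hloc ha fun a' ha' => by rw [hva]; exact hG.val_le hloc ha'
  rw [C.Lc_eq hs hW] at hG' hTa
  obtain ⟨d, hd, hd1, h2⟩ := exists_den hW (insert (C.g ^ N / a) (c.image (· / a))) (by
    intro e he
    rcases Finset.mem_insert.mp he with rfl | he
    · exact hTa
    · obtain ⟨a', ha', rfl⟩ := Finset.mem_image.mp he
      exact hG'.mem a' ha')
  have hd0 : d ≠ 0 := by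
    rintro rfl
    rw [map_zero] at hd1
    exact zero_ne_one hd1
  have h3 : ∀ e, d * e ∈ C.B → e ∈ adj C.B d⁻¹ := by
    intro e he
    have h4 := Subring.mul_mem _ (mem_adj (B := C.B) (t := d⁻¹)) (le_adj he)
    rwa [← mul_assoc, inv_mul_cancel₀ hd0, one_mul] at h4
  have hca : ∀ a' ∈ c, a' / a ∈ adj C.B d⁻¹ := fun a' ha' =>
    h3 _ (h2 _ (Finset.mem_insert_of_mem (Finset.mem_image.mpr ⟨a', ha', rfl⟩)))
  have hN : C.g ^ N / a ∈ adj C.B d⁻¹ := h3 _ (h2 _ (Finset.mem_insert_self _ _))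
  refine ⟨C.rc hs hcn hd hd0 ha ha0 hca hN, le_adj, (vle_adj_inv hd hd0).mpr ⟨hW, hd1⟩, fun h =>
    C.L_rc hs hcn hd hd0 ha ha0 hca hN h, d, hd, hd1, rfl, rfl, fun W' hW' hd' =>
    (vle_adj_inv hd hd0).mpr ⟨hW', hd'⟩, fun W' n hd' hPd => hPd.rc hs hcn hd0 ha ha0 hd'⟩

end Rc

end Pool.Agent.H96.S
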