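import Pool.Agent.H96.S.Gn
import Pool.Agent.H96.S.Hf

/-!
# Coordinates on the projective line
-/

set_option autoImplicit false
set_option linter.unusedSectionVars false

namespace Pool.Agent.H96.S

open Polynomial Pool.Agent.H96.VL
open scoped Pointwise

/-- Splitting off the part prime to `Q`. -/
theorem exists_split {k : Type} [Field k] (Q : k[X]) (n : ℕ) : ∀ {r : k[X]}, r ≠ 0 →
    r.natDegree ≤ n → ∃ (M : ℕ) (e r₂ : k[X]), r * e = Q ^ M * r₂ ∧ IsCoprime r₂ Q := by
  classical
  induction n using Nat.strong_induction_on with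
  | _ n ih =>
    intro r hr hn
    by_cases hc : IsCoprime r Q
    · exact ⟨0, 1, r, by ring, hc⟩
    · have h1 : ¬ IsUnit (EuclideanDomain.gcd r Q) := fun h =>
        hc (EuclideanDomain.gcd_isUnit_iff.mp h)
      obtain ⟨r', hr'⟩ := EuclideanDomain.gcd_dvd_left r Q
      obtain ⟨Q', hQ'⟩ := EuclideanDomain.gcd_dvd_right r Q
      set g := EuclideanDomain.gcd r Q with hg
      have hg0 : g ≠ 0 := by
        intro h0
        rw [h0, zero_mul] at hr'
        exact hr hr'
      have hr0 : r' ≠ 0 := by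
        rintro rfl
        rw [mul_zero] at hr'
        exact hr hr'
      have hdg : g.natDegree ≠ 0 := by
        intro h0
        exact h1 ((natDegree_eq_zero_iff_degree_le_zero.mp h0) |> fun h2 => by
          rw [eq_C_of_degree_le_zero h2]
          refine (isUnit_C).mpr (isUnit_iff_ne_zero.mpr fun h3 => hg0 ?_)
          rw [eq_C_of_degree_le_zero h2, h3, C_0])
      have hdeg : r.natDegree = g.natDegree + r'.natDegree := by
        conv_lhs => rw [hr']
        exact natDegree_mul hg0 hr0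
      obtain ⟨M, e, r₂, h2, h3⟩ := ih r'.natDegree (by omega) hr0 le_rfl
      refine ⟨M + 1, Q' * e, r₂, ?_, h3⟩
      calc r * (Q' * e) = (g * Q') * (r' * e) := by rw [hr']; ring
        _ = Q * (Q ^ M * r₂) := by rw [h2, ← hQ']
        _ = Q ^ (M + 1) * r₂ := by ring

/-- Properties of the coordinates on the projective line. -/
structure Rh (k : Type) {F : Type} [Field k] [Field F] [Algebra k F] {A : Type} (R : Subring F)
    (z x : F) (cx : Option A) : Prop where
  pole : ∃ i : ℕ, (cx = none → i = 0) ∧ x ^ i * z ∈ R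
  div : ∀ r : k[X], r ≠ 0 → ∃ i : ℤ, x ^ i / aeval z r ∈ R
  der : ∀ D : Derivation ℤ F F, D x = 1 → ∃ i : ℤ, (cx = none → i = 0) ∧
    (fl cx x * D z = x ^ i ∨ fl cx x * D z = -x ^ i)
  der' : ∀ E : Derivation ℤ F F, E z = 1 → ∃ b ∈ R, ∀ t, E x * t = b * (fl cx x * t)
  der0 : ∀ D : Derivation ℤ F F, D x = 0 → D z = 0
  der1 : ∀ D : Derivation ℤ F F, D z = 0 → D x = 0

section Rh

variable {k F : Type} [Field k] [Field F] [Algebra k F] {p : ℕ} [hp : Fact p.Prime] [CharP F p]
  {A : Type} {W : ValuationSubring F} {B : Subring F} {z x : F} {cx₀ cx : Option A}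

theorem aeval_mem' {S : Subring F} (hk : ∀ c : k, algebraMap k F c ∈ S) (hz : z ∈ S) (a : k[X]) :
    aeval z a ∈ S := by
  induction a using Polynomial.induction_on' with
  | add a b ha hb => rw [map_add]; exact S.add_mem ha hb
  | monomial m c =>
    rw [← C_mul_X_pow_eq_monomial, map_mul, map_pow, aeval_X, aeval_C]
    exact S.mul_mem (hk c) (S.pow_mem hz _)

/-- The affine coordinate. -/
theorem Rh.of_one (hW : Vle W B) (hk : ∀ c : k, algebraMap k F c ∈ B) (hz : z ∈ B)
    (h : Hf p W z (none : Option A) x cx) : Rh k (vl W B) z x cx := by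
  rcases h.alt with ⟨-, -, h1⟩ | ⟨rfl, ⟨n, hn, hx⟩, -⟩
  · cases h1
  have hq : (z ^ p ^ (n - 1)) ^ p = z ^ p ^ n := by
    rw [← pow_mul, ← pow_succ]
    congr 2
    omega
  refine ⟨⟨0, fun _ => rfl, by rw [pow_zero, one_mul]; exact le_vl hz⟩, fun r hr => ?_,
    fun D hD => ⟨0, fun _ => rfl, Or.inl ?_⟩, fun E hE => ⟨1, Subring.one_mem _, fun t => ?_⟩,
    fun D hD => ?_, fun D hD => ?_⟩
  · obtain ⟨M, e, r₂, h1, α, β, h2⟩ := exists_split (X ^ p ^ n - X : k[X]) r.natDegree hr le_rfl
    have hx' : aeval z (X ^ p ^ n - X : k[X]) = -x := by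
      rw [map_sub, map_pow, aeval_X, hx, hq]; ring
    have h3 : aeval z α * aeval z r₂ = 1 + aeval z β * x := by
      have h4 := congrArg (aeval z) h2
      rw [map_add, map_mul, map_mul, map_one, hx'] at h4
      linear_combination h4
    have hm : ∀ a : k[X], aeval z a ∈ B := aeval_mem' hk hz
    have hxB : x ∈ B := h.mem hz
    have h4 : W.valuation (aeval z β * x) < W.valuation 1 := by
      rw [map_one, map_mul]
      exact (mul_le_mul' (hW _ (hm β)) le_rfl).trans_lt (by rw [one_mul]; exact h.v)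
    have h5 : W.valuation (aeval z α * aeval z r₂) = 1 := by
      rw [h3, W.valuation.map_add_eq_of_lt_left h4, map_one]
    have h6 : W.valuation (aeval z r₂) = 1 := by
      refine le_antisymm (hW _ (hm r₂)) (not_lt.mp fun h7 => ?_)
      rw [map_mul] at h5
      have h8 : W.valuation (aeval z α) * W.valuation (aeval z r₂) < 1 :=
        (mul_le_mul' (hW _ (hm α)) le_rfl).trans_lt (by rw [one_mul]; exact h7)
      rw [h5] at h8
      exact lt_irrefl _ h8
    have h7 := congrArg (aeval z) h1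
    rw [map_mul, map_mul, map_pow, hx'] at h7
    refine ⟨M, ?_⟩
    have h8 := inv_mem_vl (hm r₂) h6
    by_cases h9 : aeval z r = 0
    · rw [h9, div_zero]; exact Subring.zero_mem _
    · have h10 : x ^ (M : ℤ) / aeval z r = (-1) ^ M * aeval z e * (aeval z r₂)⁻¹ := by
        have h11 : aeval z r₂ ≠ 0 := by
          intro h12
          rw [h12, map_zero] at h6
          exact zero_ne_one h6
        rw [zpow_natCast, div_eq_iff h9]
        field_simp
        have h12 : ((-1 : F) ^ M) * (-1) ^ M = 1 := by rw [← mul_pow]; simp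
        rw [neg_pow] at h7
        linear_combination (-(-1) ^ M) * h7 + (- x ^ M * aeval z r₂) * h12
      rw [h10]
      exact Subring.mul_mem _ (Subring.mul_mem _ (Subring.pow_mem _ (Subring.neg_mem _
        (Subring.one_mem _)) _) (le_vl (hm e))) h8
  · have h1 : D z = D x := by rw [hx, map_sub, der_pow, sub_zero]
    rw [h1, hD, zpow_zero, mul_one]; rfl
  · have h1 : E x = E z := by rw [hx, map_sub, der_pow, sub_zero]
    rw [h1, hE]
    show 1 * t = 1 * (1 * t)
    ring
  · rw [hx, map_sub, der_pow, sub_zero] at hD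
    exact hD
  · rw [hx, map_sub, der_pow, sub_zero]
    exact hD

/-- The coordinate at infinity. -/
theorem Rh.of_inv (hz0 : z ≠ 0) (hW : Vle W B) (hk : ∀ c : k, algebraMap k F c ∈ B) (hz : z⁻¹ ∈ B)
    (hc : cx₀.isSome = true) (hv : W.valuation z⁻¹ < 1)
    (h : Hf p W z⁻¹ cx₀ x cx) : Rh k (vl W B) z x cx := by
  have hxz : x = z⁻¹ ∧ cx = cx₀ := by
    rcases h.alt with ⟨h1, h2, -⟩ | ⟨-, -, h3⟩
    · exact ⟨h1, h2⟩
    · rcases h3 with h3 | h3
      · rw [h3] at hc
        cases hc
      · rw [h3] at hv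
        exact absurd hv (lt_irrefl _)
  obtain ⟨rfl, rfl⟩ := hxz
  have hfl : fl cx (z⁻¹) = z⁻¹ := by
    cases cx with
    | none => cases hc
    | some a => rfl
  have hcn : cx = none → ∀ i : ℤ, i = 0 := fun h1 => by rw [h1] at hc; cases hc
  have hDz : ∀ D : Derivation ℤ F F, D z⁻¹ = -(z⁻¹ ^ 2 * D z) := by
    intro D
    have h1 := Derivation.leibniz_inv D z
    rw [h1, smul_eq_mul]
    field_simp
  have hz2 : z⁻¹ ^ 2 ≠ 0 := pow_ne_zero _ (inv_ne_zero hz0)
  have hp1 : z⁻¹ ^ 1 * z ∈ vl W B := by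
    rw [pow_one, inv_mul_cancel₀ hz0]; exact Subring.one_mem _
  have hcc : cx ≠ none := fun h1 => by rw [h1] at hc; cases hc
  refine ⟨⟨1, fun h1 => absurd h1 hcc, hp1⟩, fun r hr => ?_,
    fun D hD => ⟨-1, fun h1 => absurd h1 hcc, Or.inr ?_⟩,
    fun E hE => ⟨-z⁻¹, Subring.neg_mem _ (le_vl hz), fun t => ?_⟩, fun D hD => ?_, fun D hD => ?_⟩
  · letI : Invertible z := ⟨z⁻¹, inv_mul_cancel₀ hz0, mul_inv_cancel₀ hz0⟩
    have h1 := eval₂_reverse_mul_pow (algebraMap k F) z r
    have h2 : eval₂ (algebraMap k F) z⁻¹ r.reverse * z ^ r.natDegree = aeval z r := h1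
    have h3 : eval₂ (algebraMap k F) z⁻¹ r.reverse = aeval z⁻¹ r.reverse := rfl
    rw [h3] at h2
    have hm : ∀ a : k[X], aeval z⁻¹ a ∈ B := aeval_mem' hk hz
    have hl0 : r.leadingCoeff ≠ 0 := leadingCoeff_ne_zero.mpr hr
    have h4 : aeval z⁻¹ r.reverse = aeval z⁻¹ r.reverse.divX * z⁻¹ +
        algebraMap k F r.leadingCoeff := by
      conv_lhs => rw [← divX_mul_X_add r.reverse]
      rw [map_add, map_mul, aeval_X, aeval_C, coeff_zero_reverse]
    have h5 : W.valuation (algebraMap k F r.leadingCoeff) = 1 := by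
      refine le_antisymm (hW _ (hk _)) ?_
      have h6 := hW _ (hk r.leadingCoeff⁻¹)
      rw [map_inv₀, map_inv₀] at h6
      have h7 : 0 < W.valuation (algebraMap k F r.leadingCoeff) := by
        rw [Valuation.pos_iff]
        exact (_root_.map_ne_zero _).mpr hl0
      exact (inv_le_one₀ h7).mp h6
    have h6 : W.valuation (aeval z⁻¹ r.reverse) = 1 := by
      rw [h4]
      have h7 : W.valuation (aeval z⁻¹ r.reverse.divX * z⁻¹) <
          W.valuation (algebraMap k F r.leadingCoeff) := by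
        rw [h5, map_mul]
        exact (mul_le_mul' (hW _ (hm _)) le_rfl).trans_lt (by rw [one_mul]; exact hv)
      rw [W.valuation.map_add_eq_of_lt_right h7, h5]
    refine ⟨-(r.natDegree : ℤ), ?_⟩
    have h8 : z⁻¹ ^ (-(r.natDegree : ℤ)) / aeval z r = (aeval z⁻¹ r.reverse)⁻¹ := by
      rw [← h2, inv_zpow, zpow_neg, inv_inv, zpow_natCast]
      have h9 := pow_ne_zero r.natDegree hz0
      rw [mul_comm, div_mul_eq_div_div, div_self h9, one_div]
    rw [h8]
    exact inv_mem_vl (hm _) h6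
  · rw [hfl]
    have h1 := hDz D
    rw [hD] at h1
    have h2 : D z = -(z ^ 2) := by
      field_simp at h1
      linear_combination h1
    rw [h2, zpow_neg_one, inv_inv]
    field_simp
  · rw [hfl, hDz E, hE]; ring
  · rw [hDz D] at hD
    rw [neg_eq_zero] at hD
    exact (mul_eq_zero.mp hD).resolve_left hz2
  · rw [hDz D, hD, mul_zero, neg_zero]

end Rh

end Pool.Agent.H96.S
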