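import Pool.Agent.H96.S.Rh

/-!
# The product of two projective lines
-/

set_option autoImplicit false
set_option linter.unusedSectionVars false

namespace Pool.Agent.H96.S

open Polynomial Pool.Agent.H96.VL
open scoped Pointwise

/-- The affine coordinates of the projective line. -/
def Ax {F : Type} [Field F] (z a z' : F) : Prop := (a = 1 ∧ z' = z) ∨ (a = z ∧ z' = z⁻¹)

section Coord

variable {k F : Type} [Field k] [Field F] [Algebra k F] {p : ℕ} [hp : Fact p.Prime] [CharP F p]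
  {A : Type} [DecidableEq A]

/-- The colour of the point at infinity. -/
noncomputable def tz {F : Type} [Field F] (z : F) (W : ValuationSubring F) : F :=
  open Classical in if W.valuation z ≤ 1 then 1 else z⁻¹

/-- The choice of the affine coordinate. -/
theorem exists_coord (k : Type) [Field k] [Algebra k F] (p : ℕ) [hp : Fact p.Prime] [CharP F p]
    {z : F} (hz0 : z ≠ 0) (W : ValuationSubring F) (col : A) :
    ∃ (a z' : F) (c₀ : Option A), Ax z a z' ∧ W.valuation z' ≤ 1 ∧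
      ∀ (W' : ValuationSubring F) (B : Subring F), Vle W' B → (∀ c : k, algebraMap k F c ∈ B) →
        z' ∈ B → (W.valuation z' < 1 → W'.valuation z' < 1) → ∀ (x : F) (cx : Option A),
        Hf p W' z' c₀ x cx → Rh k (vl W' B) z x cx ∧ (cx = none ∨ cx = some col) ∧
        ∀ (W₁ : ValuationSubring F) (R₁ : Subring F), VLocal W₁ R₁ → B ≤ R₁ →
          Un R₁ (tz z W₁) (if cx = some col then x else 1) := by
  by_cases h : W.valuation z ≤ 1
  · refine ⟨1, z, none, Or.inl ⟨rfl, rfl⟩, h, fun W' B hW' hk hz' _ x cx hf => ?_⟩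
    have hcx : cx = none := by
      rcases hf.alt with ⟨-, -, h1⟩ | ⟨h1, -⟩
      · cases h1
      · exact h1
    refine ⟨Rh.of_one hW' hk hz' hf, Or.inl hcx, fun W₁ R₁ hR₁ hB => ?_⟩
    have h1 : tz z W₁ = 1 := if_pos (hR₁.le z (hB hz'))
    have h2 : (if cx = some col then x else 1) = 1 := by
      rw [hcx]; exact if_neg (by intro h; cases h)
    rw [h1, h2]
    exact Un.refl one_ne_zero
  · rw [not_le] at h
    have hv : W.valuation z⁻¹ < 1 := by
      rw [map_inv₀]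
      exact inv_lt_one_of_one_lt₀ h
    refine ⟨z, z⁻¹, some col, Or.inr ⟨rfl, rfl⟩, hv.le, fun W' B hW' hk hz' hsp x cx hf => ?_⟩
    have hv' := hsp hv
    have hxz : x = z⁻¹ ∧ cx = some col := by
      rcases hf.alt with ⟨h1, h2, -⟩ | ⟨-, -, h3⟩
      · exact ⟨h1, h2⟩
      · rcases h3 with h3 | h3
        · cases h3
        · rw [h3] at hv'
          exact absurd hv' (lt_irrefl _)
    refine ⟨Rh.of_inv hz0 hW' hk hz' rfl hv' hf, Or.inr hxz.2, fun W₁ R₁ hR₁ hB => ?_⟩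
    have h2 : (if cx = some col then x else 1) = z⁻¹ := by
      rw [if_pos hxz.2, hxz.1]
    rw [h2]
    by_cases h3 : W₁.valuation z ≤ 1
    · have h1 : tz z W₁ = 1 := if_pos h3
      rw [h1]
      have h4 : W₁.valuation z⁻¹ = 1 := by
        refine le_antisymm (hR₁.le _ (hB hz')) ?_
        rw [map_inv₀]
        have h5 : 0 < W₁.valuation z := by rw [Valuation.pos_iff]; exact hz0
        exact (one_le_inv₀ h5).mpr h3
      exact (Un.of_unit (hB hz') (hR₁.inv _ (hB hz') h4) (inv_ne_zero hz0)).symm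
    · have h1 : tz z W₁ = z⁻¹ := if_neg h3
      rw [h1]
      exact Un.refl (inv_ne_zero hz0)

end Coord

section Root

variable {k F : Type} [Field k] [Fintype k] [DecidableEq k] [Field F] [DecidableEq F] [Algebra k F]
  {p : ℕ} [hp : Fact p.Prime] [CharP F p] [CharP k p] {u v : F}

/-- The set of the product of two projective lines. -/
def sR (k : Type) {F : Type} [Field k] [Fintype k] [DecidableEq k] [Field F] [DecidableEq F]
    [Algebra k F] (u v : F) : Finset F :=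
  ((Finset.univ : Finset k).erase 0).image (algebraMap k F) * ({1, u} * {1, v})

/-- The colours. -/
noncomputable def tR {F : Type} [Field F] (u v : F) : Bool → ValuationSubring F → F :=
  fun b W => tz (cond b v u) W

theorem mem_sR {w : F} : w ∈ sR k u v ↔ ∃ c : k, c ≠ 0 ∧ ∃ a, (a = 1 ∨ a = u) ∧ ∃ b,
    (b = 1 ∨ b = v) ∧ w = algebraMap k F c * (a * b) := by
  rw [sR, Finset.mem_mul]
  constructor
  · rintro ⟨c', hc, ab, hab, rfl⟩
    obtain ⟨c, hc2, rfl⟩ := Finset.mem_image.mp hc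
    obtain ⟨a, ha, b, hb, rfl⟩ := Finset.mem_mul.mp hab
    rw [Finset.mem_insert, Finset.mem_singleton] at ha hb
    exact ⟨c, Finset.ne_of_mem_erase hc2, a, ha, b, hb, rfl⟩
  · rintro ⟨c, hc, a, ha, b, hb, rfl⟩
    refine ⟨_, Finset.mem_image_of_mem _ (Finset.mem_erase.mpr ⟨hc, Finset.mem_univ _⟩), _,
      Finset.mul_mem_mul ?_ ?_, rfl⟩
    · rw [Finset.mem_insert, Finset.mem_singleton]; exact ha
    · rw [Finset.mem_insert, Finset.mem_singleton]; exact hb

theorem sR_ne (hu : u ≠ 0) (hv : v ≠ 0) : ∀ g ∈ sR k u v, g ≠ 0 := by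
  intro g hg
  obtain ⟨c, hc, a, ha, b, hb, rfl⟩ := mem_sR.mp hg
  refine mul_ne_zero ((_root_.map_ne_zero _).mpr hc) (mul_ne_zero ?_ ?_)
  · rcases ha with rfl | rfl
    · exact one_ne_zero
    · exact hu
  · rcases hb with rfl | rfl
    · exact one_ne_zero
    · exact hv

theorem Ax.mem {z a z' : F} (h : Ax z a z') : a = 1 ∨ a = z := h.imp And.left And.left

theorem Ax.ne {z a z' : F} (h : Ax z a z') (hz : z ≠ 0) : a ≠ 0 := by
  rcases h.mem with rfl | rfl
  · exact one_ne_zero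
  · exact hz

theorem Ax.div_mem {z a z' : F} (h : Ax z a z') (hz : z ≠ 0) {S : Subring F} (hS : z' ∈ S) {m : F}
    (hm : m = 1 ∨ m = z) : m / a ∈ S := by
  rcases h with ⟨rfl, rfl⟩ | ⟨rfl, rfl⟩
  · rw [div_one]
    rcases hm with rfl | rfl
    · exact S.one_mem
    · exact hS
  · rcases hm with rfl | rfl
    · rwa [one_div]
    · rw [div_self hz]; exact S.one_mem

theorem Ax.exists_mem {z a z' : F} (h : Ax z a z') : ∃ m, (m = 1 ∨ m = z) ∧ z' = m / a := by
  rcases h with ⟨rfl, rfl⟩ | ⟨rfl, rfl⟩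
  · exact ⟨z', Or.inr rfl, by rw [div_one]⟩
  · exact ⟨1, Or.inl rfl, by rw [one_div]⟩

theorem As_sR (hu : u ≠ 0) (hv : v ≠ 0) {a u' b v' : F} (ha : Ax u a u') (hb : Ax v b v') :
    As (sR k u v) (a * b) = Bg k u' v' := by
  have ha0 := ha.ne hu
  have hb0 := hb.ne hv
  apply le_antisymm
  · refine As_le fun g hg => ?_
    obtain ⟨c, -, m, hm, n, hn, rfl⟩ := mem_sR.mp hg
    rw [mul_div_assoc, mul_div_mul_comm]
    exact Subring.mul_mem _ (k_mem c) (Subring.mul_mem _ (ha.div_mem hu u_mem hm)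
      (hb.div_mem hv v_mem hn))
  · refine Bg_le (fun c => ?_) ?_ ?_
    · by_cases hc : c = 0
      · rw [hc, map_zero]; exact Subring.zero_mem _
      · have h1 : algebraMap k F c = algebraMap k F c * (a * b) / (a * b) := by
          rw [mul_div_cancel_right₀ _ (mul_ne_zero ha0 hb0)]
        rw [h1]
        exact mem_As (mem_sR.mpr ⟨c, hc, a, ha.mem, b, hb.mem, rfl⟩)
    · obtain ⟨m, hm, h1⟩ := ha.exists_mem
      have h2 : u' = algebraMap k F 1 * (m * b) / (a * b) := by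
        rw [h1, map_one, one_mul, mul_div_mul_right _ _ hb0]
      rw [h2]
      exact mem_As (mem_sR.mpr ⟨1, one_ne_zero, m, hm, b, hb.mem, rfl⟩)
    · obtain ⟨m, hm, h1⟩ := hb.exists_mem
      have h2 : v' = algebraMap k F 1 * (a * m) / (a * b) := by
        rw [h1, map_one, one_mul, mul_div_mul_left _ _ ha0]
      rw [h2]
      exact mem_As (mem_sR.mpr ⟨1, one_ne_zero, a, ha.mem, m, hm, rfl⟩)

theorem Gn.ax (h : Gn k u v) {a u' b v' : F} (ha : Ax u a u') (hb : Ax v b v') : Gn k u' v' := by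
  rcases ha with ⟨-, rfl⟩ | ⟨-, rfl⟩
  · rcases hb with ⟨-, rfl⟩ | ⟨-, rfl⟩
    · exact h
    · exact h.inv_right
  · rcases hb with ⟨-, rfl⟩ | ⟨-, rfl⟩
    · exact h.inv_left
    · exact h.inv_left.inv_right

/-- Constants are integral. -/
theorem val_k (W : ValuationSubring F) (c : k) : W.valuation (algebraMap k F c) ≤ 1 := by
  by_cases hc : c = 0
  · rw [hc, map_zero, map_zero]; exact zero_le
  · have h1 : c ^ (Fintype.card k - 1) = 1 := FiniteField.pow_card_sub_one_eq_one c hc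
    have h2 : W.valuation (algebraMap k F c) ^ (Fintype.card k - 1) = 1 := by
      rw [← map_pow, ← map_pow, h1, map_one, map_one]
    have h3 : Fintype.card k - 1 ≠ 0 := by
      have := Fintype.one_lt_card (α := k)
      omega
    by_contra h4
    have h5 := one_lt_pow₀ (not_le.mp h4) h3
    rw [h2] at h5
    exact lt_irrefl _ h5

theorem fg_Bg (h : Gn k u v) {a u' b v' : F} (ha : Ax u a u') (hb : Ax v b v') :
    Fg (Bg k u' v') := by
  rw [← As_sR h.u0 h.v0 ha hb]
  exact fg_As _ _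

theorem Dv_u (p : ℕ) [hp : Fact p.Prime] [CharP F p] (h : Gn k u v) : Dv (sR k u v) (tR u v) u := by
  refine ⟨[false], fun W => ?_⟩
  rw [List.map_cons, List.map_nil, List.prod_cons, List.prod_nil, mul_one]
  obtain ⟨a, u', c₀, hax, hu', -⟩ := exists_coord k p h.u0 W ()
  obtain ⟨b, v', c₁, hbx, hv', -⟩ := exists_coord k p h.v0 W ()
  have hWB : Vle W (Bg k u' v') := by
    have h1 : Bg k u' v' ≤ W.toSubring := Bg_le
      (fun c => (W.valuation_le_one_iff _).mp (val_k W c)) ((W.valuation_le_one_iff _).mp hu')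
      ((W.valuation_le_one_iff _).mp hv')
    exact fun b hb => (W.valuation_le_one_iff b).mpr (h1 hb)
  have hg0 : a * b ≠ 0 := mul_ne_zero (hax.ne h.u0) (hbx.ne h.v0)
  have hAs := As_sR (k := k) h.u0 h.v0 hax hbx
  have hg : a * b ∈ sR k u v := mem_sR.mpr ⟨1, one_ne_zero, a, hax.mem, b, hbx.mem, by
    rw [map_one, one_mul]⟩
  have hle : Bg k u' v' ≤ Lc (sR k u v) W := by
    rw [Lc_eq hg hg0 ((vle_As hg0).mp (by rw [hAs]; exact hWB)), hAs]
    exact le_vl
  have hu0 := h.u0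
  show u * tz u W ∈ _
  by_cases h1 : W.valuation u ≤ 1
  · have h2 : tz u W = 1 := if_pos h1
    rw [h2, mul_one]
    rcases hax with ⟨-, rfl⟩ | ⟨-, rfl⟩
    · exact hle u_mem
    · have h3 : W.valuation u⁻¹ = 1 := by
        refine le_antisymm hu' ?_
        rw [map_inv₀]
        have h5 : 0 < W.valuation u := by rw [Valuation.pos_iff]; exact hu0
        exact (one_le_inv₀ h5).mpr h1
      have h4 := (lst_Lc ⟨_, hg, hg0⟩ W).loc.inv _ (hle u_mem) h3
      rwa [inv_inv] at h4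
  · have h2 : tz u W = u⁻¹ := if_neg h1
    rw [h2, mul_inv_cancel₀ hu0]
    exact Subring.one_mem _

theorem sR_swap : sR k v u = sR k u v := by
  rw [sR, sR, mul_comm ({1, v} : Finset F)]

theorem Dv_v (p : ℕ) [hp : Fact p.Prime] [CharP F p] (h : Gn k u v) : Dv (sR k u v) (tR u v) v := by
  obtain ⟨l, hl⟩ := Dv_u p h.swap
  refine ⟨l.map fun b => !b, fun W => ?_⟩
  have h1 := hl W
  rw [sR_swap] at h1
  rw [List.map_map]
  have h2 : ((fun a => tR u v a W) ∘ fun b => !b) = fun a => tR v u a W := by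
    funext b
    cases b <;> rfl
  rw [h2]
  exact h1

/-- **The pointed charts on the product of two projective lines.** -/
theorem root_chart (h : Gn k u v) {a : k[X][X]} (ha : Squarefree a) (ha0 : a ≠ 0)
    (W : ValuationSubring F) : ∃ C : Chart p (sR k u v) (tR u v) 1 (ev k u v a) ∅ {(u, v)},
      Vle W C.B ∧ ∃ W₀ n, C.Pd W₀ n := by
  classical
  obtain ⟨a₁, u', c₀, hax, hu', hcu⟩ := exists_coord k p h.u0 W false
  obtain ⟨b₁, v', c₁, hbx, hv', hcv⟩ := exists_coord k p h.v0 W true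
  have hWB : Vle W (Bg k u' v') := by
    have h1 : Bg k u' v' ≤ W.toSubring := Bg_le
      (fun c => (W.valuation_le_one_iff _).mp (val_k W c)) ((W.valuation_le_one_iff _).mp hu')
      ((W.valuation_le_one_iff _).mp hv')
    exact fun b hb => (W.valuation_le_one_iff b).mpr (h1 hb)
  have hg0 : a₁ * b₁ ≠ 0 := mul_ne_zero (hax.ne h.u0) (hbx.ne h.v0)
  have hAs := As_sR (k := k) h.u0 h.v0 hax hbx
  have hg : a₁ * b₁ ∈ sR k u v := mem_sR.mpr ⟨1, one_ne_zero, a₁, hax.mem, b₁, hbx.mem, by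
    rw [map_one, one_mul]⟩
  have hle : ∀ W₁, Vle W₁ (Bg k u' v') → Bg k u' v' ≤ Lc (sR k u v) W₁ := by
    intro W₁ hW₁
    rw [Lc_eq hg hg0 ((vle_As hg0).mp (by rw [hAs]; exact hW₁)), hAs]
    exact le_vl
  have hs := sR_ne (k := k) h.u0 h.v0
  have hfg : Fg (Bg k u' v') := fg_Bg h hax hbx
  obtain ⟨W', hW', hclo, hsp⟩ := exists_clo (p := p) hfg hWB
  obtain ⟨D₁, D₂, hec₀, -, -⟩ := (h.ax hax hbx).exists_ec (p := p)
  obtain ⟨x, cx, hfx⟩ := exists_hf hW' hclo u_mem c₀
  obtain ⟨y, cy, hfy⟩ := exists_hf hW' hclo v_mem c₁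
  obtain ⟨hru, hcx, hcolu⟩ := hcu W' _ hW' k_mem u_mem (hsp _ u_mem) x cx hfx
  obtain ⟨hrv, hcy, hcolv⟩ := hcv W' _ hW' k_mem v_mem (hsp _ v_mem) y cy hfy
  have hec : EC p (Bg k u' v') x y D₁ D₂ := hfy.ec2 (hfx.ec hec₀)
  have hLr := Lr.of hec hfg hW' hclo hfx.v hfy.v
  set R := vl W' (Bg k u' v') with hR
  have hkR : ∀ c : k, algebraMap k F c ∈ R := fun c => le_vl (k_mem c)
  -- bounded poles
  have hPu : Pb R cx cy x y u := by
    obtain ⟨i, hi, h1⟩ := hru.pole
    exact ⟨i, 0, hi, fun _ => rfl, by rwa [pow_zero, mul_one]⟩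
  have hPv : Pb R cx cy x y v := by
    obtain ⟨i, hi, h1⟩ := hrv.pole
    exact ⟨0, i, fun _ => rfl, hi, by rwa [pow_zero, one_mul]⟩
  have hPb : ∀ w ∈ Bg k u v, Pb R cx cy x y w := by
    have h1 : Bg k u v ≤ PbS R cx cy x y hLr.ec.hx hLr.ec.hy :=
      Bg_le (fun c => Pb.of_mem (hkR c)) hPu hPv
    exact fun w hw => h1 hw
  set f := ev k u v a with hf
  have hfB : f ∈ Bg k u v := ⟨a, rfl⟩
  have hPf := hPb f hfB
  -- the derivations of the plane
  obtain ⟨Du, Dv, hecP, -, -⟩ := h.exists_ec (p := p)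
  have hDu : ∃ b ∈ R, ∀ w, Du w = b * (fl cx x * D₁ w) := by
    obtain ⟨b, hb, h1⟩ := hru.der' Du hecP.xx
    refine ⟨b, hb, fun w => ?_⟩
    have h2 := hec.der Du w
    rw [hrv.der1 Du hecP.xy, zero_mul, add_zero] at h2
    rw [h2]
    exact h1 _
  have hDv : ∃ b ∈ R, ∀ w, Dv w = b * (fl cy y * D₂ w) := by
    obtain ⟨b, hb, h1⟩ := hrv.der' Dv hecP.yy
    refine ⟨b, hb, fun w => ?_⟩
    have h2 := hec.der Dv w
    rw [hru.der1 Dv hecP.yx, zero_mul, zero_add] at h2
    rw [h2]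
    exact h1 _
  -- the ideal
  have hLu : Du f ∈ L3 R (1 * f) (fl cx x * D₁ f) (fl cy y * D₂ f) := by
    obtain ⟨b, hb, h1⟩ := hDu
    rw [h1]
    exact L3_mul hb L3_v
  have hLv : Dv f ∈ L3 R (1 * f) (fl cx x * D₁ f) (fl cy y * D₂ f) := by
    obtain ⟨b, hb, h1⟩ := hDv
    rw [h1]
    exact L3_mul hb L3_w
  have hLf : f ∈ L3 R (1 * f) (fl cx x * D₁ f) (fl cy y * D₂ f) := by
    have h1 : (1 * f) ∈ L3 R (1 * f) (fl cx x * D₁ f) (fl cy y * D₂ f) := L3_u
    rwa [one_mul] at h1 ⊢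
  have hx0 := hec.x0
  have hy0 := hec.y0
  -- monomials times polynomials in one variable
  have key : ∀ w, (∃ b ∈ Bg k u v, ∃ c ∈ Bg k u v, ∃ d ∈ Bg k u v, w = b * f + c * Du f +
      d * Dv f) → ∃ i j : ℕ, (cx = none → i = 0) ∧ (cy = none → j = 0) ∧
      x ^ i * y ^ j * w ∈ L3 R (1 * f) (fl cx x * D₁ f) (fl cy y * D₂ f) := by
    rintro w ⟨b, hb, c, hc, d, hd, rfl⟩
    obtain ⟨i₁, j₁, hi₁, hj₁, h1⟩ := hPb b hb
    obtain ⟨i₂, j₂, hi₂, hj₂, h2⟩ := hPb c hc
    obtain ⟨i₃, j₃, hi₃, hj₃, h3⟩ := hPb d hd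
    have h1' := Pb.raise (cx := cx) (cy := cy) hLr.ec.hx hLr.ec.hy (i' := i₁ + i₂ + i₃)
      (j' := j₁ + j₂ + j₃) (by omega) (by omega) h1
    have h2' := Pb.raise (cx := cx) (cy := cy) hLr.ec.hx hLr.ec.hy (i' := i₁ + i₂ + i₃)
      (j' := j₁ + j₂ + j₃) (by omega) (by omega) h2
    have h3' := Pb.raise (cx := cx) (cy := cy) hLr.ec.hx hLr.ec.hy (i' := i₁ + i₂ + i₃)
      (j' := j₁ + j₂ + j₃) (by omega) (by omega) h3
    refine ⟨i₁ + i₂ + i₃, j₁ + j₂ + j₃, fun h => by rw [hi₁ h, hi₂ h, hi₃ h], fun h => by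
      rw [hj₁ h, hj₂ h, hj₃ h], ?_⟩
    have h4 : x ^ (i₁ + i₂ + i₃) * y ^ (j₁ + j₂ + j₃) * (b * f + c * Du f + d * Dv f) =
        x ^ (i₁ + i₂ + i₃) * y ^ (j₁ + j₂ + j₃) * b * f +
        x ^ (i₁ + i₂ + i₃) * y ^ (j₁ + j₂ + j₃) * c * Du f +
        x ^ (i₁ + i₂ + i₃) * y ^ (j₁ + j₂ + j₃) * d * Dv f := by ring
    rw [h4]
    exact AddSubgroup.add_mem _ (AddSubgroup.add_mem _ (L3_mul h1' hLf) (L3_mul h2' hLu))
      (L3_mul h3' hLv)
  obtain ⟨r, hr, hru'⟩ := h.elim hecP ha ha0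
  obtain ⟨i₁, j₁, hi₁, hj₁, hm₁⟩ := key _ hru'
  obtain ⟨e₁, he₁⟩ := hru.div r hr
  have hsw : ev k v u (Bivariate.swap (R := k) a) = f := ev_swap a
  have hecS : EC p (Bg k v u) v u Dv Du := by rw [Bg_swap]; exact hecP.swap
  obtain ⟨r', hr', hrv'⟩ := h.swap.elim hecS (squarefree_swap ha) (fun h1 => ha0
    ((Bivariate.swap (R := k)).injective (by rw [h1, map_zero])))
  rw [hsw, Bg_swap] at hrv'
  obtain ⟨i₂, j₂, hi₂, hj₂, hm₂⟩ := key (aeval v r') (by
    obtain ⟨b, hb, c, hc, d, hd, h1⟩ := hrv'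
    exact ⟨b, hb, d, hd, c, hc, by rw [h1]; ring⟩)
  obtain ⟨e₂, he₂⟩ := hrv.div r' hr'
  have hne : ∀ {z : F} (hz : Function.Injective (aeval z : k[X] →ₐ[k] F)) {r : k[X]}, r ≠ 0 →
      aeval z r ≠ 0 := fun hz r hr h1 => hr (hz (by rw [h1, map_zero]))
  have hinju : Function.Injective (aeval u : k[X] →ₐ[k] F) := by
    intro a b hab
    have h1 : ev k u v (C a) = ev k u v (C b) := by rw [ev_C, ev_C]; exact hab
    exact C_injective (h.inj h1)
  have hinjv : Function.Injective (aeval v : k[X] →ₐ[k] F) := by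
    intro a b hab
    have h1 : ev k v u (C a) = ev k v u (C b) := by rw [ev_C, ev_C]; exact hab
    exact C_injective (h.swap.inj h1)
  have hru0 := hne hinju hr
  have hrv0 := hne hinjv hr'
  have h1 : x ^ ((i₁ : ℤ) + e₁) * y ^ (j₁ : ℤ) ∈
      L3 R (1 * f) (fl cx x * D₁ f) (fl cy y * D₂ f) := by
    have h2 := L3_mul he₁ hm₁
    have h3 : x ^ e₁ / aeval u r * (x ^ i₁ * y ^ j₁ * aeval u r) =
        x ^ ((i₁ : ℤ) + e₁) * y ^ (j₁ : ℤ) := by
      rw [zpow_add₀ hx0, zpow_natCast, zpow_natCast]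
      field_simp
    rwa [h3] at h2
  have h2 : x ^ (i₂ : ℤ) * y ^ ((j₂ : ℤ) + e₂) ∈
      L3 R (1 * f) (fl cx x * D₁ f) (fl cy y * D₂ f) := by
    have h2 := L3_mul he₂ hm₂
    have h3 : y ^ e₂ / aeval v r' * (x ^ i₂ * y ^ j₂ * aeval v r') =
        x ^ (i₂ : ℤ) * y ^ ((j₂ : ℤ) + e₂) := by
      rw [zpow_add₀ hy0, zpow_natCast, zpow_natCast]
      field_simp
    rwa [h3] at h2
  have hP1 : Pb R cx cy x y (1 * f) := by rwa [one_mul]
  obtain ⟨al, be, hal, hbe, hu3, hv3, hw3, m, hm3, hm4⟩ := hLr.fc hP1 (Pb.del hLr.ec hPf)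
    (Pb.del2 hLr.ec hPf) ⟨_, _, h1⟩ (fun hc => ⟨(j₂ : ℤ) + e₂, by
      rwa [hi₂ hc, Nat.cast_zero, zpow_zero, one_mul (y ^ ((j₂ : ℤ) + e₂))] at h2⟩) (fun hc => ⟨(i₁ : ℤ) + e₁, by
      rwa [hj₁ hc, Nat.cast_zero, zpow_zero, mul_one] at h1⟩)
  -- the chart
  obtain ⟨C, n, -, hPd, hall⟩ := exists_pd (p := p) (s := sR k u v) (t := tR u v) (ε := 1) (f := f)
    (G := ∅) (P := {(u, v)}) (cx := cx) (cy := cy) (Dx := D₁) (Dy := D₂) hs hfg hg
    (le_of_eq hAs) hle hW' hclo hfx.v hfy.v ∅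
    (fun e he => absurd he (Finset.notMem_empty e))
    (fun d hd hd1 _ => hec.adj_inv hd (by
      rintro rfl
      rw [map_zero] at hd1
      exact zero_ne_one hd1))
    (fun d hd hd1 _ b W₁ hW₁ => by
      have hne : ∃ g ∈ sR k u v, g ≠ 0 := ⟨_, hg, hg0⟩
      have hB₁ : Vle W₁ (Bg k u' v') := hW₁.mono le_adj
      have hloc := (lst_Lc hne W₁).loc
      have hle₁ := hle W₁ hB₁
      cases b with
      | false =>
        have h5 := hcolu W₁ _ hloc hle₁
        have h6 : tc cx cy x y false = if cx = some false then x else 1 := by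
          rw [tc]
          have h7 : ¬ cy = some false := by
            rcases hcy with h7 | h7
            · rw [h7]; intro h8; cases h8
            · rw [h7]; intro h8; cases h8
          rw [if_neg h7, mul_one]
        rw [h6]
        exact h5
      | true =>
        have h5 := hcolv W₁ _ hloc hle₁
        have h6 : tc cx cy x y true = if cy = some true then y else 1 := by
          rw [tc]
          have h7 : ¬ cx = some true := by
            rcases hcx with h7 | h7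
            · rw [h7]; intro h8; cases h8
            · rw [h7]; intro h8; cases h8
          rw [if_neg h7, one_mul]
        rw [h6]
        exact h5)
    (fun b hb hb' => by
      rcases hcx with h7 | h7
      · rw [h7] at hb; cases hb
      · rw [h7] at hb
        rcases hcy with h8 | h8
        · rw [h8] at hb'; cases hb'
        · rw [h8] at hb'
          rw [← hb] at hb'
          cases hb')
    hal hbe hu3 hv3 hw3 hm3 hm4 (fun h hh => absurd hh (Finset.notMem_empty h))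
    (fun ab hab => by
      rw [Finset.mem_singleton.mp hab]
      show Mn R cx cy x y (Jc cx cy x y D₁ D₂ u v)
      rw [Jc]
      have h5 : D₂ u = 0 := hru.der0 D₂ hec.yx
      rw [h5, mul_zero, zero_mul, sub_zero]
      obtain ⟨i, hi, h6⟩ := hru.der D₁ hec.xx
      obtain ⟨j, hj, h7⟩ := hrv.der D₂ hec.yy
      have h8 : ∀ σ : F, (σ = 1 ∨ σ = -1) → Mn R cx cy x y (x ^ i * y ^ j * σ) := by
        intro σ hσ
        refine ⟨i, j, hi, hj, σ, ?_, ?_, ?_, rfl⟩
        · rcases hσ with rfl | rfl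
          · exact R.one_mem
          · exact R.neg_mem R.one_mem
        · rcases hσ with rfl | rfl
          · rw [inv_one]; exact R.one_mem
          · rw [inv_neg, inv_one]; exact R.neg_mem R.one_mem
        · rcases hσ with rfl | rfl
          · exact one_ne_zero
          · exact neg_ne_zero.mpr one_ne_zero
      rcases h6 with h6 | h6
      · rcases h7 with h7 | h7
        · rw [h6, h7]
          have := h8 1 (Or.inl rfl)
          rwa [mul_one] at this
        · rw [h6, h7]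
          have := h8 (-1) (Or.inr rfl)
          rwa [mul_neg, mul_one, ← mul_neg] at this
      · rcases h7 with h7 | h7
        · rw [h6, h7]
          have := h8 (-1) (Or.inr rfl)
          rwa [mul_neg, mul_one, ← neg_mul] at this
        · rw [h6, h7]
          have := h8 1 (Or.inl rfl)
          rwa [mul_one, ← neg_mul_neg] at this)
  exact ⟨C, hall W ⟨hWB, hW', hsp⟩, W', n, hPd⟩

end Root

end Pool.Agent.H96.S
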