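import Pool.Agent.H96.S.Tra2

/-!
# The second stage
-/

set_option autoImplicit false
set_option linter.unusedSectionVars false

namespace Pool.Agent.H96.S

open Polynomial Pool.Agent.H96.VL
open scoped Pointwise

section Det

variable {F : Type} [Field F]

theorem det_mul {a b c d a' b' c' d' : F} (h1 : a * a' + b * c' = 1) (h2 : c * a' + d * c' = 0)
    (h3 : a * b' + b * d' = 0) (h4 : c * b' + d * d' = 1) :
    (a * d - b * c) * (a' * d' - b' * c') = 1 := by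
  have h5 : (a * d - b * c) * (a' * d' - b' * c') =
      (a * a' + b * c') * (c * b' + d * d') - (a * b' + b * d') * (c * a' + d * c') := by ring
  rw [h5, h1, h2, h3, h4]; ring

end Det

section Stage2

variable {k F : Type} [Field k] [Fintype k] [DecidableEq k] [Field F] [DecidableEq F] [Algebra k F]
  {p : ℕ} [hp : Fact p.Prime] [CharP F p] [CharP k p] {u v : F} {s : Finset F} {A : Type}
  [DecidableEq A] {t : A → ValuationSubring F → F} {h₀ : F}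

/-- The Jacobian determinant in a frame. -/
theorem mn_jc {R : Subring F} {x y X Y : F} {Dx Dy E1 E2 : Derivation ℤ F F} {A' : Type}
    [DecidableEq A'] {cx cy : Option A'} {cX cY : Option A} (h1 : EC p R x y Dx Dy) (h2 : EC p R X Y E1 E2)
    (hX : Mn R cx cy x y (fl cX X)) (hY : Mn R cx cy x y (fl cY Y))
    (hJ : Mn R cx cy x y (Jc cX cY X Y E1 E2 u v)) :
    Mn R cx cy x y (Jc cx cy x y Dx Dy u v) := by
  have hx0 := h1.x0
  have hy0 := h1.y0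
  have e1 := h2.der Dx x
  have e2 := h2.der Dy x
  have e3 := h2.der Dx y
  have e4 := h2.der Dy y
  rw [h1.xx] at e1
  rw [h1.yx] at e2
  rw [h1.xy] at e3
  rw [h1.yy] at e4
  have hdet := det_mul (a := Dx X) (b := Dx Y) (c := Dy X) (d := Dy Y) (a' := E1 x) (b' := E1 y)
    (c' := E2 x) (d' := E2 y) e1.symm e2.symm e3.symm e4.symm
  have hU : IsU R (Dx X * Dy Y - Dx Y * Dy X) := by
    refine ⟨left_ne_zero_of_mul_eq_one hdet, R.sub_mem (R.mul_mem (h1.dx _ h2.hx) (h1.dy _ h2.hy))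
      (R.mul_mem (h1.dx _ h2.hy) (h1.dy _ h2.hx)), ?_⟩
    rw [inv_eq_of_mul_eq_one_right hdet]
    exact R.sub_mem (R.mul_mem (h2.dx _ h1.hx) (h2.dy _ h1.hy))
      (R.mul_mem (h2.dx _ h1.hy) (h2.dy _ h1.hx))
  have hX0 : fl cX X ≠ 0 := fl_ne h2.x0
  have hY0 : fl cY Y ≠ 0 := fl_ne h2.y0
  have h3 : Jc cx cy x y Dx Dy u v = fl cx x * fl cy y * (Dx X * Dy Y - Dx Y * Dy X) *
      (Jc cX cY X Y E1 E2 u v * ((fl cX X)⁻¹ * (fl cY Y)⁻¹)) := by
    rw [Jc, Jc, h2.der Dx u, h2.der Dy u, h2.der Dx v, h2.der Dy v]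
    field_simp
    ring
  rw [h3]
  exact (((Mn.fl hx0 hy0).mul hx0 hy0 (Mn.fl2 hx0 hy0)).mul hx0 hy0 (Mn.of_isU hU)).mul hx0 hy0
    (hJ.mul hx0 hy0 (hX.inv.mul hx0 hy0 hY.inv))

/-- **The pointed charts of the second stage.** -/
theorem stage2_chart (h : Gn k u v) {Du Dv' : Derivation ℤ F F}
    (hecP : EC p (Bg k u v) u v Du Dv') (hs : ∀ g ∈ s, g ≠ 0) (h0 : h₀ ≠ 0)
    (H : ∀ W, ∃ C : Chart p s t 1 h₀ ∅ {(u, v)}, Vle W C.B ∧ C.Good) (hDu : Dv s t u)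
    (hDv : Dv s t v) (hk : ∀ (W : ValuationSubring F) (c : k), algebraMap k F c ∈ Lc s W)
    {Z : Finset F} (hZ : ∀ z ∈ Z, z ≠ 0 → ∃ n : ℕ, z * h₀ ^ n ∈ Bg k u v ∧
      z⁻¹ * h₀ ^ n ∈ Bg k u v) {f : F} (hfu : Du f ∈ Z) (hfv : Dv' f ∈ Z)
    (hf : ¬ (Du f = 0 ∧ Dv' f = 0)) {G : Finset F} (hG : ∀ g ∈ G, g ∈ Z ∧ g ≠ 0)
    (W : ValuationSubring F) :
    ∃ C : Chart p s (tH H) 0 f G ∅, Vle W C.B ∧ ∃ W₀ n, C.Pd W₀ n := by
  classical
  obtain ⟨C, hWC, hg⟩ := H W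
  obtain ⟨W', hW', hclo, hsp⟩ := exists_clo (p := p) C.fg hWC
  obtain ⟨x, y, Dx, Dy, cx, cy, hFr, hx, hy⟩ := exists_frame H hs h0 C hW' hclo hg
  have hLc : Lc s W' = vl W' C.B := C.Lc_eq hs hW'
  have hne : ∃ g ∈ s, g ≠ 0 := ⟨C.g, C.hg, hs _ C.hg⟩
  obtain ⟨d, hd, hd1, hecd, hcold⟩ := (hFr.ec.and hFr.col).exists hW'
  have hvl := vl_adj_inv hW' hd hd1
  have hWd : Vle W' (adj C.B d⁻¹) := (vle_adj_inv hd (ne_of_one hd1)).mpr ⟨hW', hd1⟩
  have hclod : Clo p W' (adj C.B d⁻¹) := by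
    obtain ⟨n, hn, h1⟩ := hclo.vl hW'
    rw [← hvl] at h1
    exact ⟨n, hn, fun b hb => h1 b (le_vl hb)⟩
  have hLr := Lr.of hecd (C.fg.adj _) hWd hclod hx hy
  rw [hvl] at hLr
  have hcolR : ∀ a, Un (vl W' C.B) (tH H a W') (tc cx cy x y a) := by
    intro a
    rw [← hLc]
    exact hcold a W' hWd
  have hecC : EC p (vl W' C.B) C.x C.y C.Dx C.Dy := C.ec.vl
  set R := vl W' C.B with hR
  have hx0 := hLr.ec.x0
  have hy0 := hLr.ec.y0
  have hxR := hLr.ec.hx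
  have hyR := hLr.ec.hy
  have hkR : ∀ c : k, algebraMap k F c ∈ R := fun c => by rw [← hLc]; exact hk W' c
  have hBR : C.B ≤ R := le_vl
  -- the colours are monomials
  have hmt : ∀ a, Mn R cx cy x y (tH H a W') := fun a => Mn.of_un (hcolR a) (Mn.tc hx0 hy0 a)
  have hmt' : ∀ a, Mn R cx cy x y (t a W') := fun a => hmt (some a)
  have hpole : ∀ w, Dv s t w → Pb R cx cy x y w := by
    rintro w ⟨l, hl⟩
    have h1 := hl W'
    rw [hLc] at h1
    have h2 : Mn R cx cy x y (l.map fun a => t a W').prod := Mn.list hx0 hy0 hmt' l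
    have h3 := h2.ne hx0 hy0
    have h4 : w = w * (l.map fun a => t a W').prod * ((l.map fun a => t a W').prod)⁻¹ := by
      rw [mul_inv_cancel_right₀ h3]
    rw [h4]
    exact (Pb.of_mem h1).mul (h2.inv.pb hxR hyR hx0 hy0)
  have hPu := hpole u hDu
  have hPv := hpole v hDv
  have hPb : ∀ w ∈ Bg k u v, Pb R cx cy x y w := by
    have h1 : Bg k u v ≤ PbS R cx cy x y hxR hyR := Bg_le (fun c => Pb.of_mem (hkR c)) hPu hPv
    exact fun w hw => h1 hw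
  -- the coordinates of the old chart
  have hCx : ∀ a, C.cx = some a → Mn R cx cy x y C.x := by
    intro a ha
    have h1 := (C.col a W' hW').symm
    have h2 : tc C.cx C.cy C.x C.y a = C.x := by
      rw [tc, if_pos ha, if_neg (C.cxy a ha), mul_one]
    rw [h2, hLc] at h1
    exact Mn.of_un h1 (hmt' a)
  have hCy : ∀ a, C.cy = some a → Mn R cx cy x y C.y := by
    intro a ha
    have h1 := (C.col a W' hW').symm
    have h2 : tc C.cx C.cy C.x C.y a = C.y := by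
      rw [tc, if_pos ha, if_neg (fun h => C.cxy a h ha), one_mul]
    rw [h2, hLc] at h1
    exact Mn.of_un h1 (hmt' a)
  have hCfx : Mn R cx cy x y (fl C.cx C.x) := by
    cases hc : C.cx with
    | none => exact Mn.one
    | some a => exact hCx a hc
  have hCfy : Mn R cx cy x y (fl C.cy C.y) := by
    cases hc : C.cy with
    | none => exact Mn.one
    | some a => exact hCy a hc
  have hN : Mn R cx cy x y C.N := by
    refine Mn.change hx0 hy0 hBR hCx hCy (B := C.B) ⟨C.al, C.be, C.al0, C.be0, 1, C.B.one_mem, ?_,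
      one_ne_zero, by rw [mul_one]; rfl⟩
    rw [inv_one]; exact C.B.one_mem
  have hφ : Mn R cx cy x y (h₀ / C.N) := by
    have h1 := (tH_none H hs h0 C hW' hg).symm
    rw [hLc] at h1
    exact Mn.of_un h1 (hmt none)
  have hh : Mn R cx cy x y h₀ := by
    have h1 : h₀ = C.N * (h₀ / C.N) := by rw [mul_div_cancel₀ _ C.N0]
    rw [h1]
    exact hN.mul hx0 hy0 hφ
  have hZm : ∀ z ∈ Z, z ≠ 0 → Mn R cx cy x y z := by
    intro z hz hz0
    obtain ⟨n, h1, h2⟩ := hZ z hz hz0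
    have h3 := (hh.pow hx0 hy0 n)
    have h4 := h3.ne hx0 hy0
    refine hLr.mn_of hz0 ?_ ?_
    · have h5 : z = z * h₀ ^ n * (h₀ ^ n)⁻¹ := by rw [mul_inv_cancel_right₀ h4]
      rw [h5]
      exact (hPb _ h1).mul (h3.inv.pb hxR hyR hx0 hy0)
    · have h5 : z⁻¹ = z⁻¹ * h₀ ^ n * (h₀ ^ n)⁻¹ := by rw [mul_inv_cancel_right₀ h4]
      rw [h5]
      exact (hPb _ h2).mul (h3.inv.pb hxR hyR hx0 hy0)
  have hJ : Mn R cx cy x y (Jc cx cy x y Dx Dy u v) := by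
    refine mn_jc hLr.ec hecC hCfx hCfy ?_
    exact Mn.change hx0 hy0 hBR hCx hCy (C.jc (u, v) (Finset.mem_singleton_self _))
  -- the partial derivatives
  have hPz : ∀ z ∈ Z, Pb R cx cy x y z := by
    intro z hz
    by_cases hz0 : z = 0
    · rw [hz0]; exact Pb.of_mem R.zero_mem
    · exact (hZm z hz hz0).pb hxR hyR hx0 hy0
  have hxu := Pb.del hLr.ec hPu
  have hxv := Pb.del hLr.ec hPv
  have hyu := Pb.del2 hLr.ec hPu
  have hyv := Pb.del2 hLr.ec hPv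
  have ex : fl cx x * Dx f = fl cx x * Dx u * Du f + fl cx x * Dx v * Dv' f := by
    rw [hecP.der Dx f]; ring
  have ey : fl cy y * Dy f = fl cy y * Dy u * Du f + fl cy y * Dy v * Dv' f := by
    rw [hecP.der Dy f]; ring
  have hPx : Pb R cx cy x y (fl cx x * Dx f) := by
    rw [ex]
    exact (hxu.mul (hPz _ hfu)).add hxR hyR (hxv.mul (hPz _ hfv))
  have hPy : Pb R cx cy x y (fl cy y * Dy f) := by
    rw [ey]
    exact (hyu.mul (hPz _ hfu)).add hxR hyR (hyv.mul (hPz _ hfv))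
  -- a monomial in the ideal
  have hmon : ∀ w a b : F, Pb R cx cy x y a → Pb R cx cy x y b → Mn R cx cy x y w →
      w = a * (fl cx x * Dx f) + b * (fl cy y * Dy f) → ∃ i j : ℤ, (cx = none → i = 0) ∧
      (cy = none → j = 0) ∧ x ^ i * y ^ j ∈ L3 R (0 * f) (fl cx x * Dx f) (fl cy y * Dy f) := by
    rintro w a b ⟨i₁, j₁, hi₁, hj₁, h1⟩ ⟨i₂, j₂, hi₂, hj₂, h2⟩ ⟨i, j, hi, hj, c, hc, hc', hc0, hw⟩ h3
    have h1' := Pb.raise (cx := cx) (cy := cy) hxR hyR (i' := i₁ + i₂) (j' := j₁ + j₂) (by omega)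
      (by omega) h1
    have h2' := Pb.raise (cx := cx) (cy := cy) hxR hyR (i' := i₁ + i₂) (j' := j₁ + j₂) (by omega)
      (by omega) h2
    refine ⟨(i₁ + i₂ : ℕ) + i, (j₁ + j₂ : ℕ) + j, fun h => by rw [hi₁ h, hi₂ h, hi h]; rfl,
      fun h => by rw [hj₁ h, hj₂ h, hj h]; rfl, ?_⟩
    have h4 : x ^ (((i₁ + i₂ : ℕ) : ℤ) + i) * y ^ (((j₁ + j₂ : ℕ) : ℤ) + j) =
        c⁻¹ * (x ^ (i₁ + i₂) * y ^ (j₁ + j₂) * a * (fl cx x * Dx f) +
          x ^ (i₁ + i₂) * y ^ (j₁ + j₂) * b * (fl cy y * Dy f)) := by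
      have h5 : x ^ (i₁ + i₂) * y ^ (j₁ + j₂) * a * (fl cx x * Dx f) +
          x ^ (i₁ + i₂) * y ^ (j₁ + j₂) * b * (fl cy y * Dy f) =
          x ^ (i₁ + i₂) * y ^ (j₁ + j₂) * w := by rw [h3]; ring
      rw [h5, hw, zpow_add₀ hx0, zpow_add₀ hy0, zpow_natCast, zpow_natCast]
      field_simp
    rw [h4]
    exact L3_mul hc' (AddSubgroup.add_mem _ (L3_mul h1' L3_v) (L3_mul h2' L3_w))
  obtain ⟨i, j, hi, hj, hij⟩ : ∃ i j : ℤ, (cx = none → i = 0) ∧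
      (cy = none → j = 0) ∧ x ^ i * y ^ j ∈ L3 R (0 * f) (fl cx x * Dx f) (fl cy y * Dy f) := by
    by_cases hu0 : Du f = 0
    · have hv0 : Dv' f ≠ 0 := fun h => hf ⟨hu0, h⟩
      refine hmon (Dv' f * Jc cx cy x y Dx Dy u v) (-(fl cy y * Dy u)) (fl cx x * Dx u) hyu.neg hxu
        ((hZm _ hfv hv0).mul hx0 hy0 hJ) ?_
      rw [ex, ey, Jc]; ring
    · refine hmon (Du f * Jc cx cy x y Dx Dy u v) (fl cy y * Dy v) (-(fl cx x * Dx v)) hyv hxv.neg
        ((hZm _ hfu hu0).mul hx0 hy0 hJ) ?_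
      rw [ex, ey, Jc]; ring
  have hP0 : Pb R cx cy x y (0 * f) := by rw [zero_mul]; exact Pb.of_mem R.zero_mem
  obtain ⟨al, be, hal, hbe, hu3, hv3, hw3, m, hm3, hm4⟩ := hLr.fc hP0 hPx hPy ⟨i, j, hij⟩
    (fun hc => ⟨j, by rwa [hi hc, zpow_zero, one_mul (y ^ j)] at hij⟩)
    (fun hc => ⟨i, by rwa [hj hc, zpow_zero, mul_one (x ^ i)] at hij⟩)
  obtain ⟨E₀, hE₀, hall⟩ := hFr.ec.and hFr.col
  obtain ⟨C', n, -, hPd, hcov⟩ := exists_pd (p := p) (s := s) (t := tH H) (ε := 0) (f := f)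
    (G := G) (P := ∅) (cx := cx) (cy := cy) (Dx := Dx) (Dy := Dy) hs C.fg C.hg C.hAs C.lc hW' hclo
    hx hy E₀ hE₀ (fun d hd hd1 hE => (hall d hd hd1 hE).1) (fun d hd hd1 hE => (hall d hd hd1 hE).2)
    hFr.cxy hal hbe hu3 hv3 hw3 hm3 hm4 (fun g hg => hZm g (hG g hg).1 (hG g hg).2)
    (fun ab hab => absurd hab (Finset.notMem_empty _))
  exact ⟨C', hcov W ⟨hWC, hW', hsp⟩, W', n, hPd⟩

/-- **The second stage.** -/
theorem stage2 (h : Gn k u v) {f : F} (hf : ∀ g : F, g ^ p ≠ f) {G : Finset F}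
    (hG : ∀ g ∈ G, g ≠ 0) :
    ∃ (s : Finset F) (A : Type) (_ : DecidableEq A) (_ : Finite A)
      (t : A → ValuationSubring F → F), (∀ g ∈ s, g ≠ 0) ∧
      (∀ (W : ValuationSubring F) (c : k), algebraMap k F c ∈ Lc s W) ∧
      ∀ W, ∃ C : Chart p s t 0 f G ∅, Vle W C.B ∧ C.Good := by
  classical
  obtain ⟨Du, Dv', hecP, -, -⟩ := h.exists_ec (p := p)
  obtain ⟨a, ha0, ha, hZ⟩ := h.exists_h (insert (Du f) (insert (Dv' f) G))
  obtain ⟨s, A, i1, i2, t, hs, hDu, hDv, hk, H⟩ := stage1 (p := p) h ha ha0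
  have hff : ¬ (Du f = 0 ∧ Dv' f = 0) := by
    rintro ⟨h1, h2⟩
    obtain ⟨g, hg⟩ := hecP.ker h1 h2
    exact hf g hg
  obtain ⟨n, hn⟩ := exists_hn (p := p) (stage2_chart h hecP hs (h.ne ha0) H hDu hDv hk hZ
    (Finset.mem_insert_self _ _) (Finset.mem_insert_of_mem (Finset.mem_insert_self _ _)) hff
    (G := G) fun g hg => ⟨Finset.mem_insert_of_mem (Finset.mem_insert_of_mem hg), hG g hg⟩)
  obtain ⟨c, A', i3, i4, t', hc0, -, hC⟩ := descent (Or.inl rfl) n 0 s (Option A) inferInstance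
    inferInstance (tH H) hs hn
  refine ⟨s * c, A', i3, i4, t', fun g hg => ?_, fun W b => ?_, hC⟩
  · obtain ⟨a, ha, b, hb, rfl⟩ := Finset.mem_mul.mp hg
    exact mul_ne_zero (hs a ha) (hc0 b hb)
  · have hsc : ∃ g ∈ s * c, g ≠ 0 := by
      obtain ⟨C, -, -⟩ := hC ⊤
      obtain ⟨a, ha, b, hb, h1⟩ := Finset.mem_mul.mp C.hg
      exact ⟨C.g, C.hg, by rw [← h1]; exact mul_ne_zero (hs a ha) (hc0 b hb)⟩
    exact Lc_mul_le hsc W (hk W b)

end Stage2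

end Pool.Agent.H96.S
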