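import Pool.Agent.H96.S.GC
import Pool.Agent.H96.S.Tra3

/-!
# Presentations from `p`-bases
-/

set_option autoImplicit false
set_option linter.unusedSectionVars false

namespace Pool.Agent.H96.S

open MvPolynomial Pool.Agent.H96.VL

section Den

variable {F : Type} [Field F]

/-- Denominators. -/
theorem exists_pow_den {B : Subring F} {b e : F} (hb : b ∈ B)
    (h : ∀ W : ValuationSubring F, Vle W B → W.valuation b = 1 → e ∈ vl W B) :
    ∃ n : ℕ, b ^ n * e ∈ B := by
  by_contra hcon
  push Not at hcon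
  set A := subalgebraOfSubring B with hA
  let I : Ideal A :=
    { carrier := {a | (a : F) * e ∈ B}
      add_mem' := fun {a c} ha hc => by
        show ((a : F) + (c : F)) * e ∈ B
        rw [add_mul]
        exact B.add_mem ha hc
      zero_mem' := by
        show (0 : F) * e ∈ B
        rw [zero_mul]
        exact B.zero_mem
      smul_mem' := fun c a ha => by
        show (c : F) * (a : F) * e ∈ B
        rw [mul_assoc]
        exact B.mul_mem c.2 ha }
  let b' : A := ⟨b, hb⟩
  have hdis : Disjoint (I : Set A) (Submonoid.powers b' : Set A) := by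
    rw [Set.disjoint_left]
    rintro a ha ⟨n, rfl⟩
    exact hcon n ha
  obtain ⟨P, hP, hIP, hdP⟩ := Ideal.exists_le_prime_disjoint I (Submonoid.powers b') hdis
  obtain ⟨W, hW, hc⟩ := exists_centre A P
  have hbW : W.valuation b = 1 := by
    refine le_antisymm (hW b hb) (not_lt.mp fun h1 => ?_)
    have h2 : b' ∈ P := (hc b').mpr h1
    exact Set.disjoint_left.mp hdP h2 (Submonoid.mem_powers b')
  obtain ⟨a, ha, s, hs, hs1, h1⟩ := mem_vl.mp (h W hW hbW)
  have hs0 : s ≠ 0 := by
    rintro rfl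
    rw [map_zero] at hs1
    exact zero_ne_one hs1
  have h2 : (⟨s, hs⟩ : A) ∈ I := by
    show s * e ∈ B
    rw [h1, mul_div_cancel₀ _ hs0]
    exact ha
  have h3 := (hc ⟨s, hs⟩).mp (hIP h2)
  rw [hs1] at h3
  exact lt_irrefl _ h3

end Den

section Pres

variable {p : ℕ} [hp : Fact p.Prime] {F : Type} [Field F] [Algebra (ZMod p) F]
  {W : ValuationSubring F} {E : Finset F}

/-- **The presentation given by a `p`-basis.** -/
theorem exists_pres (hW : Vle W (Subring.closure (E : Set F))) {d : ℕ} {ξ : Fin d → F}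
    (hξ : ∀ c, ξ c ∈ vl W (Subring.closure (E : Set F)))
    (pb : ∀ b ∈ vl W (Subring.closure (E : Set F)), b ∈ Subring.closure
      ({c | ∃ a ∈ vl W (Subring.closure (E : Set F)), c = a ^ p} ∪ Set.range ξ))
    (E' : Finset F) (hE' : ∀ e ∈ E', e ∈ vl W (Subring.closure (E : Set F))) :
    ∃ (n : ℕ) (y : Va n d → F) (G : Fin n → MvPolynomial (Va n d) (ZMod p))
      (D : MvPolynomial (Va n d) (ZMod p)), (∀ s, y s ∈ vl W (Subring.closure (E : Set F))) ∧
      (∀ c, y (Sum.inr c) = ξ c) ∧ (∀ e ∈ E', ∃ k, y (Sum.inl k) = e) ∧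
      (∀ w ∈ vl W (Subring.closure (E : Set F)), ∃ a s : MvPolynomial (Va n d) (ZMod p),
        W.valuation (aeval y s) = 1 ∧ w = aeval y a / aeval y s) ∧
      (∀ j, aeval y (G j) = 0) ∧ W.valuation (aeval y D) = 1 ∧ Ndg G D := by
  classical
  have hcF : CharP F p := charP_of_injective_algebraMap (algebraMap (ZMod p) F).injective p
  set R := vl W (Subring.closure (E : Set F)) with hR
  set n := (E ∪ E').card with hn
  set e := (E ∪ E').equivFin.symm with he
  set y : Va n d → F := Sum.elim (fun k => (e k : F)) ξ with hy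
  have hyE : ∀ a ∈ E ∪ E', ∃ k, y (Sum.inl k) = a := by
    intro a ha
    refine ⟨e.symm ⟨a, ha⟩, ?_⟩
    show ((e (e.symm ⟨a, ha⟩) : {x // x ∈ E ∪ E'}) : F) = a
    rw [Equiv.apply_symm_apply]
  have hyR : ∀ s, y s ∈ R := by
    rintro (k | c)
    · rcases Finset.mem_union.mp (e k).2 with h | h
      · exact le_vl (Subring.subset_closure h)
      · exact hE' _ h
    · exact hξ c
  have cls : ∀ b ∈ Subring.closure (E : Set F), ∃ P : MvPolynomial (Va n d) (ZMod p),
      aeval y P = b := by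
    intro b hb
    induction hb using Subring.closure_induction with
    | mem b hb =>
      obtain ⟨k, hk⟩ := hyE b (Finset.mem_union_left _ hb)
      exact ⟨X (Sum.inl k), by rw [aeval_X, hk]⟩
    | zero => exact ⟨0, map_zero _⟩
    | one => exact ⟨1, map_one _⟩
    | add a b _ _ ha hb =>
      obtain ⟨P, rfl⟩ := ha
      obtain ⟨Q, rfl⟩ := hb
      exact ⟨P + Q, map_add _ _ _⟩
    | neg a _ ha =>
      obtain ⟨P, rfl⟩ := ha
      exact ⟨-P, map_neg _ _⟩
    | mul a b _ _ ha hb =>
      obtain ⟨P, rfl⟩ := ha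
      obtain ⟨Q, rfl⟩ := hb
      exact ⟨P * Q, map_mul _ _ _⟩
  have gen : ∀ w ∈ R, ∃ a s : MvPolynomial (Va n d) (ZMod p),
      W.valuation (aeval y s) = 1 ∧ w = aeval y a / aeval y s := by
    intro w hw
    obtain ⟨a, ha, s, hs, hs1, rfl⟩ := mem_vl.mp hw
    obtain ⟨P, rfl⟩ := cls a ha
    obtain ⟨Q, rfl⟩ := cls s hs
    exact ⟨P, Q, hs1, rfl⟩
  have hcp : ((p : ℕ) : MvPolynomial (Va n d) (ZMod p)) = 0 := by
    rw [← map_natCast MvPolynomial.C, ZMod.natCast_self, map_zero]
  have dpow : ∀ (s : Va n d) (P : MvPolynomial (Va n d) (ZMod p)), pderiv s (P ^ p) = 0 := by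
    intro s P
    rw [pderiv_pow, hcp, zero_mul, zero_mul]
  have key : ∀ b ∈ R, ∃ S Q : MvPolynomial (Va n d) (ZMod p), W.valuation (aeval y S) = 1 ∧
      aeval y S ^ p * b = aeval y Q ∧ ∀ k, pderiv (Sum.inl k) Q = 0 := by
    intro b hb
    have h1 := pb b hb
    clear hb
    induction h1 using Subring.closure_induction with
    | mem b hb =>
      rcases hb with ⟨a, ha, rfl⟩ | ⟨c, rfl⟩
      · obtain ⟨P, Q, h1, rfl⟩ := gen a ha
        have h0 : aeval y Q ≠ 0 := by
          intro h0
          rw [h0, map_zero] at h1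
          exact zero_ne_one h1
        refine ⟨Q, P ^ p, h1, ?_, fun k => dpow _ _⟩
        rw [div_pow, map_pow, mul_div_cancel₀ _ (pow_ne_zero _ h0)]
      · refine ⟨1, X (Sum.inr c), by rw [map_one, map_one], ?_, fun k => ?_⟩
        · rw [map_one, one_pow, one_mul, aeval_X]
          rfl
        · exact pderiv_X_of_ne Sum.inr_ne_inl
    | zero => exact ⟨1, 0, by rw [map_one, map_one], by rw [map_zero, mul_zero], fun k =>
        map_zero _⟩
    | one => exact ⟨1, 1, by rw [map_one, map_one], by rw [map_one, one_pow, mul_one], fun k => by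
        rw [← MvPolynomial.C_1, pderiv_C]⟩
    | add a b _ _ ha hb =>
      obtain ⟨S, Q, h1, h2, h3⟩ := ha
      obtain ⟨S', Q', h1', h2', h3'⟩ := hb
      refine ⟨S * S', S' ^ p * Q + S ^ p * Q', by rw [map_mul, map_mul, h1, h1', one_mul], ?_,
        fun k => ?_⟩
      · rw [map_add, map_mul, map_mul, map_mul, map_pow, map_pow, ← h2, ← h2']
        ring
      · rw [map_add, pderiv_mul, pderiv_mul, dpow, dpow, h3, h3', zero_mul, zero_mul, mul_zero,
          mul_zero, add_zero, add_zero]
    | neg a _ ha =>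
      obtain ⟨S, Q, h1, h2, h3⟩ := ha
      exact ⟨S, -Q, h1, by rw [map_neg, ← h2, mul_neg], fun k => by rw [map_neg, h3, neg_zero]⟩
    | mul a b _ _ ha hb =>
      obtain ⟨S, Q, h1, h2, h3⟩ := ha
      obtain ⟨S', Q', h1', h2', h3'⟩ := hb
      refine ⟨S * S', Q * Q', by rw [map_mul, map_mul, h1, h1', one_mul], ?_, fun k => ?_⟩
      · rw [map_mul, map_mul, ← h2, ← h2']
        ring
      · rw [pderiv_mul, h3, h3', zero_mul, mul_zero, add_zero]
  choose! S Q h1 h2 h3 using key
  refine ⟨n, y, fun k => S (y (Sum.inl k)) ^ p * X (Sum.inl k) - Q (y (Sum.inl k)),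
    ∏ k, S (y (Sum.inl k)), hyR, fun c => rfl,
    fun a ha => hyE a (Finset.mem_union_right _ ha), gen, fun k => ?_, ?_, ?_⟩
  · rw [map_sub, map_mul, map_pow, aeval_X, h2 _ (hyR _), sub_self]
  · rw [map_prod, map_prod]
    exact Finset.prod_eq_one fun k _ => h1 _ (hyR _)
  · intro κ _ _ x hx a ha j
    rw [map_prod] at hx
    have h4 : aeval x (S (y (Sum.inl j))) ≠ 0 := fun h0 =>
      hx (Finset.prod_eq_zero (Finset.mem_univ j) h0)
    have h5 := ha j
    rw [Finset.sum_eq_single j] at h5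
    · rw [map_sub, pderiv_mul, dpow, zero_mul, zero_add, pderiv_X_self, mul_one,
        h3 _ (hyR _), sub_zero, map_pow] at h5
      exact (mul_eq_zero.mp h5).resolve_right (pow_ne_zero _ h4)
    · intro k _ hk
      rw [map_sub, pderiv_mul, dpow, zero_mul, zero_add, pderiv_X_of_ne
        (fun h => hk (Sum.inl_injective h)), mul_zero, h3 _ (hyR _), sub_zero, map_zero, mul_zero]
    · intro h; exact absurd (Finset.mem_univ _) h

end Pres

end Pool.Agent.H96.S
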