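import Pool.Agent.H96.S.SFa

/-!
# Local data of surfaces
-/

set_option autoImplicit false
set_option linter.unusedSectionVars false

namespace Pool.Agent.H96.S

open MvPolynomial Pool.Agent.H96.VL Pool.Agent.H96.W

section MonTc

variable {F A : Type} [Field F] [Fintype A] [DecidableEq A] {oX oY : Option A} {X Y : F}

/-- The exponents of a monomial in the colours. -/
def xe {A : Type} [DecidableEq A] (oX oY : Option A) (i j : ℤ) (a : A) : ℤ :=
  if oX = some a then i else if oY = some a then j else 0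

theorem prod_opt {o : Option A} {Z : F} {i : ℤ} (ho : o = none → i = 0) :
    ∏ a, (if o = some a then Z ^ i else 1) = Z ^ i := by
  cases o with
  | none => rw [ho rfl, zpow_zero]; exact Finset.prod_eq_one fun a _ => by rw [ite_self]
  | some b =>
    rw [Finset.prod_eq_single b]
    · rw [if_pos rfl]
    · intro a _ hab
      rw [if_neg fun h => hab (Option.some_injective _ h).symm]
    · intro h; exact absurd (Finset.mem_univ _) h

theorem mon_tc (hXY : ∀ a, oX = some a → oY ≠ some a) {i j : ℤ} (hi : oX = none → i = 0)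
    (hj : oY = none → j = 0) : mon (tc oX oY X Y) (xe oX oY i j) = X ^ i * Y ^ j := by
  rw [mon, ← prod_opt (Z := X) hi, ← prod_opt (Z := Y) hj, ← Finset.prod_mul_distrib]
  refine Finset.prod_congr rfl fun a _ => ?_
  rw [tc, xe]
  by_cases h1 : oX = some a
  · rw [if_pos h1, if_pos h1, if_pos h1, if_neg (hXY a h1), if_neg (hXY a h1), mul_one, mul_one]
  · rw [if_neg h1, if_neg h1, if_neg h1, one_mul, one_mul]
    by_cases h2 : oY = some a
    · rw [if_pos h2, if_pos h2, if_pos h2]
    · rw [if_neg h2, if_neg h2, if_neg h2, zpow_zero]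

theorem xe_abs {i j : ℤ} {M : ℕ} (hi : |i| ≤ M) (hj : |j| ≤ M) (a : A) :
    |xe oX oY i j a| ≤ M := by
  rw [xe]
  split_ifs
  · exact hi
  · exact hj
  · rw [abs_zero]; positivity

end MonTc

section Mk

variable {p : ℕ} [hp : Fact p.Prime] {F : Type} [Field F] [Algebra (ZMod p) F]
  {W : ValuationSubring F} {E : Finset F} {A J : Type} [Fintype A] [DecidableEq A] {r M : ℕ}
  {f : F} {h : Fin r → F} {c q : J → F} {T : A → Finset F} {S : Finset F}

/-- The local data from coordinates. -/
theorem exists_fl {b on : Bool} (hW : Vle W (Subring.closure (E : Set F))) {X Y : F}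
    {DX DY : Derivation ℤ F F}
    (ec : EC p (vl W (Subring.closure (E : Set F))) X Y DX DY) {oX oY : Option A}
    (hXY : ∀ a, oX = some a → oY ≠ some a) (vX : oX ≠ none → W.valuation X < 1)
    (vY : oY ≠ none → W.valuation Y < 1) {eX eY bX bY : ℤ} (eX0 : oX = none → eX = 0)
    (eY0 : oY = none → eY = 0) (bX0 : oX = none → bX = 0) (bY0 : oY = none → bY = 0)
    {κX κY : Fin r → ℤ} (κX0 : ∀ c, oX = none → κX c = 0) (κY0 : ∀ c, oY = none → κY c = 0)
    {U : F} (hU : U ∈ vl W (Subring.closure (E : Set F))) {act : Bool}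
    (typ : act = true → (oX ≠ none ∧ ¬ (p : ℤ) ∣ eX ∧ W.valuation U = 1) ∨
      (oX = none ∧ U = X)) (actb : b = false → act = on)
    (pole : b = true → act = true → 1 < W.valuation (X ^ eX * Y ^ eY))
    (e0 : act = false → eX = 0 ∧ eY = 0) (cX : oX ≠ none → eX ≤ p * bX)
    (cY : oY ≠ none → eY ≤ p * bY) (MX : |eX| ≤ M ∧ |bX| ≤ M ∧ ∀ c, |κX c| ≤ M)
    (MY : |eY| ≤ M ∧ |bY| ≤ M ∧ ∀ c, |κY c| ≤ M) {j : J}
    (eqf : f - q j ^ p + cond b (q j) 0 = cond (b || act) (U * (X ^ eX * Y ^ eY)) 0)
    (eqh : ∀ c, ∃ v ∈ vl W (Subring.closure (E : Set F)), W.valuation v = 1 ∧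
      h c = v * (X ^ κX c * Y ^ κY c))
    (crat : ∀ l, c l / c j ∈ vl W (Subring.closure (E : Set F)))
    (gT : ∀ a, Gen (vl W (Subring.closure (E : Set F))) (T a) (tc oX oY X Y a * c j))
    (gS : (b || on) = true → Gen (vl W (Subring.closure (E : Set F))) S (c j * (X ^ bX * Y ^ bY)))
    (qd : (b || on) = true → ∀ l, c l / c j * (q j - q l) / (X ^ bX * Y ^ bY) ∈
      vl W (Subring.closure (E : Set F)))
    (qe : (b || on) = false → ∀ l, q l = q j) :
    ∃ L : FL p b on 2 r M f h c q T S W, L.R = vl W (Subring.closure (E : Set F)) := by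
  classical
  choose v hvR hv1 hv using eqh
  have hX0 : X ≠ 0 := by
    rintro rfl
    have h1 := ec.xx
    rw [map_zero] at h1
    exact zero_ne_one h1
  have hY0 : Y ≠ 0 := by
    rintro rfl
    have h1 := ec.yy
    rw [map_zero] at h1
    exact zero_ne_one h1
  have hrange : Set.range ![X, Y] = {X, Y} := by
    rw [Matrix.range_cons, Matrix.range_cons, Matrix.range_empty, Set.union_empty]
    rfl
  obtain ⟨n, y, G, D, hy, hyr, hyE, gen, rel, vD, ndg⟩ := exists_pres (p := p) (ξ := ![X, Y]) hW (by
    intro c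
    fin_cases c
    · exact ec.hx
    · exact ec.hy) (by
    intro b hb
    rw [hrange]
    exact ec.pb b hb) (insert U (Finset.univ.image v)) (by
    intro e he
    rcases Finset.mem_insert.mp he with rfl | he
    · exact hU
    · obtain ⟨c, -, rfl⟩ := Finset.mem_image.mp he
      exact hvR c)
  obtain ⟨u, hu, hut⟩ : ∃ u : Va n 2, y u = U ∧ (act = true → oX = none → u = Sum.inr 0) := by
    by_cases h1 : act = true ∧ oX = none
    · refine ⟨Sum.inr 0, ?_, fun _ _ => rfl⟩
      rw [hyr]
      rcases typ h1.1 with h2 | h2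
      · exact absurd h1.2 h2.1
      · exact h2.2.symm
    · obtain ⟨k, hk⟩ := hyE U (Finset.mem_insert_self _ _)
      exact ⟨Sum.inl k, hk, fun h2 h3 => absurd ⟨h2, h3⟩ h1⟩
  choose qv hqv using fun c => hyE (v c) (Finset.mem_insert_of_mem
    (Finset.mem_image_of_mem v (Finset.mem_univ c)))
  have hmon : ∀ {i j : ℤ}, (oX = none → i = 0) → (oY = none → j = 0) →
      mon (tc oX oY X Y) (xe oX oY i j) = X ^ i * Y ^ j := fun hi hj => mon_tc hXY hi hj
  have hloc := vlocal_vl hW
  refine ⟨⟨vl W (Subring.closure (E : Set F)), hloc, ec.frac, j, n, y, G, D, hy, gen, rel, vD,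
    ndg, fun a => if oX = some a then some 0 else if oY = some a then some 1 else none,
    tc oX oY X Y, fun a => ?_, fun a ha => ?_, fun a c' ha => ?_, fun a a' c' ha ha' => ?_,
    xe oX oY eX eY, xe oX oY bX bY, fun c => xe oX oY (κX c) (κY c), u,
    fun c => Sum.inl (qv c), act, fun hact => ?_, actb, fun hb hact => ?_, fun hact => ?_,
    fun a ha => ?_, xe_abs MX.1 MY.1, xe_abs MX.2.1 MY.2.1,
    fun c => xe_abs (MX.2.2 c) (MY.2.2 c), ?_, fun c => ?_, fun c => ?_, crat, gT, ?_, ?_, qe⟩,
    rfl⟩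
  · rw [tc]
    refine Subring.mul_mem _ ?_ ?_
    · split_ifs
      · exact ec.hx
      · exact Subring.one_mem _
    · split_ifs
      · exact ec.hy
      · exact Subring.one_mem _
  · by_cases h1 : oX = some a
    · rw [if_pos h1] at ha
      exact absurd ha (Option.some_ne_none _)
    · rw [if_neg h1] at ha
      by_cases h2 : oY = some a
      · rw [if_pos h2] at ha
        exact absurd ha (Option.some_ne_none _)
      · rw [tc, if_neg h1, if_neg h2, mul_one]
  · by_cases h1 : oX = some a
    · rw [if_pos h1] at ha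
      have h2 := Option.some_injective _ ha
      have h3 : tc oX oY X Y a = X := by rw [tc, if_pos h1, if_neg (hXY a h1), mul_one]
      rw [h3, hyr, ← h2]
      exact ⟨vX (by rw [h1]; exact Option.some_ne_none _), hX0, rfl⟩
    · rw [if_neg h1] at ha
      by_cases h2 : oY = some a
      · rw [if_pos h2] at ha
        have h4 := Option.some_injective _ ha
        have h3 : tc oX oY X Y a = Y := by rw [tc, if_neg h1, if_pos h2, one_mul]
        rw [h3, hyr, ← h4]
        exact ⟨vY (by rw [h2]; exact Option.some_ne_none _), hY0, rfl⟩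
      · rw [if_neg h2] at ha
        exact absurd ha.symm (Option.some_ne_none _)
  · have key : ∀ a : A, (if oX = some a then some (0 : Fin 2) else if oY = some a then some 1
        else none) = some c' → (c' = 0 ∧ oX = some a) ∨ (c' = 1 ∧ oY = some a) := by
      intro a ha
      split_ifs at ha with h1 h2
      · exact Or.inl ⟨(Option.some_injective _ ha).symm, h1⟩
      · exact Or.inr ⟨(Option.some_injective _ ha).symm, h2⟩
    rcases key a ha with ⟨h1, h2⟩ | ⟨h1, h2⟩ <;> rcases key a' ha' with ⟨h3, h4⟩ | ⟨h3, h4⟩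
    · rw [h2] at h4; exact Option.some_injective _ h4
    · rw [h1] at h3; exact absurd h3 (by decide)
    · rw [h1] at h3; exact absurd h3 (by decide)
    · rw [h2] at h4; exact Option.some_injective _ h4
  · rcases typ hact with ⟨h1, h2, h3⟩ | ⟨h1, h2⟩
    · left
      obtain ⟨a, ha⟩ := Option.ne_none_iff_exists'.mp h1
      refine ⟨a, ?_, ?_, by rw [hu]; exact h3⟩
      · rw [if_pos ha]; exact Option.some_ne_none _
      · rw [xe, if_pos ha]; exact h2
    · right
      refine ⟨0, hut hact h1, fun a ha => ?_⟩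
      have h4 : oX ≠ some a := by rw [h1]; exact (Option.some_ne_none _).symm
      rw [if_neg h4] at ha
      split_ifs at ha with h5
      · exact absurd (Option.some_injective _ ha) (by decide)
  · rw [hmon eX0 eY0]
    exact pole hb hact
  · obtain ⟨h1, h2⟩ := e0 hact
    funext a
    rw [xe, h1, h2]
    split_ifs <;> rfl
  · rw [xe, xe]
    split_ifs at ha ⊢ with h1 h2
    · exact cX (by rw [h1]; exact Option.some_ne_none _)
    · exact cY (by rw [h2]; exact Option.some_ne_none _)
    · exact absurd rfl ha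
  · rw [eqf, hu, hmon eX0 eY0]
  · rw [hqv]; exact hv1 c
  · rw [hqv, hmon (κX0 c) (κY0 c)]; exact hv c
  · intro hbo
    rw [hmon bX0 bY0]
    exact gS hbo
  · intro hbo l
    rw [hmon bX0 bY0]
    exact qd hbo l

end Mk

end Pool.Agent.H96.S
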