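import Pool.Agent.H96.S.SFb

/-!
# Local data of surfaces: the types
-/

set_option autoImplicit false
set_option linter.unusedSectionVars false

namespace Pool.Agent.H96.S

open Pool.Agent.H96.VL Pool.Agent.H96.W

section Unt

variable {F : Type} [Field F] {W : ValuationSubring F} {R : Subring F} {a b : F}

/-- Units of a local ring. -/
def Unt (W : ValuationSubring F) (R : Subring F) (a : F) : Prop := a ∈ R ∧ W.valuation a = 1

namespace Unt

theorem ne (h : Unt W R a) : a ≠ 0 := by
  rintro rfl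
  have h1 := h.2
  rw [map_zero] at h1
  exact zero_ne_one h1

theorem one : Unt W R 1 := ⟨R.one_mem, map_one _⟩

theorem mul (ha : Unt W R a) (hb : Unt W R b) : Unt W R (a * b) :=
  ⟨R.mul_mem ha.1 hb.1, by rw [map_mul, ha.2, hb.2, one_mul]⟩

theorem inv (hR : VLocal W R) (ha : Unt W R a) : Unt W R a⁻¹ :=
  ⟨hR.inv _ ha.1 ha.2, by rw [map_inv₀, ha.2, inv_one]⟩

theorem div (hR : VLocal W R) (ha : Unt W R a) (hb : Unt W R b) : Unt W R (a / b) := by
  rw [div_eq_mul_inv]; exact ha.mul (hb.inv hR)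

theorem pow (ha : Unt W R a) (n : ℕ) : Unt W R (a ^ n) :=
  ⟨R.pow_mem ha.1 n, by rw [map_pow, ha.2, one_pow]⟩

theorem zpow (hR : VLocal W R) (ha : Unt W R a) (n : ℤ) : Unt W R (a ^ n) := by
  rcases n with n | n
  · rw [Int.ofNat_eq_natCast, zpow_natCast]; exact ha.pow n
  · rw [zpow_negSucc]; exact (ha.pow _).inv hR

end Unt

theorem ite_ne' {P : Prop} [Decidable P] {y : F} (hy : y ≠ 0) : (if P then y else 1) ≠ 0 := by
  split_ifs
  · exact hy
  · exact one_ne_zero

/-- Change of the generator. -/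
theorem gen_unt (hR : VLocal W R) {s : Finset F} {T T' : F} (h : Gen R s T) (h0 : T' ≠ 0)
    (hu : Unt W R (T / T')) : Gen R s T' := by
  have hT := h.ne
  refine ⟨h0, h.div_mem_trans hu.1, ?_⟩
  obtain ⟨g, hg, h1, h2⟩ := h.ex
  refine ⟨g, hg, ?_, h2⟩
  have h3 := R.mul_mem (hu.inv hR).1 h1
  have h4 : (T / T')⁻¹ * (T / g) = T' / g := by
    rw [inv_div]
    field_simp
  rwa [h4] at h3

/-- The coordinates at a valuation. -/
theorem exists_opt {A : Type} [DecidableEq A] (hR : VLocal W R) {y : F} (hy : y ∈ R) (hy0 : y ≠ 0)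
    (o : Option A) : ∃ (o' : Option A) (m : ℤ), (m = 0 ∨ m = 1) ∧ (o' = none → m = 0) ∧
      (∀ a, o' = some a → o = some a) ∧ (o' ≠ none → W.valuation y < 1) ∧
      (∀ j : ℤ, (o = none → j = 0) → Unt W R (y ^ (j - m * j))) ∧
      ∀ a, Unt W R ((if o = some a then y else 1) / (if o' = some a then y else 1)) := by
  by_cases h : W.valuation y < 1
  · cases o with
    | none =>
      refine ⟨none, 0, Or.inl rfl, fun _ => rfl, fun a ha => ha, fun h => absurd rfl h,
        fun j hj => ?_, fun a => ?_⟩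
      · rw [hj rfl, mul_zero, sub_zero, zpow_zero]; exact Unt.one
      · rw [div_self (ite_ne' hy0)]
        exact Unt.one
    | some b =>
      refine ⟨some b, 1, Or.inr rfl, fun h => absurd h (Option.some_ne_none _), fun a ha => ha,
        fun _ => h, fun j hj => ?_, fun a => ?_⟩
      · rw [one_mul, sub_self, zpow_zero]; exact Unt.one
      · rw [div_self (ite_ne' hy0)]
        exact Unt.one
  · have hu : Unt W R y := ⟨hy, le_antisymm (hR.le y hy) (not_lt.mp h)⟩
    refine ⟨none, 0, Or.inl rfl, fun _ => rfl, fun a ha => absurd ha.symm (Option.some_ne_none _),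
      fun h => absurd rfl h, fun j _ => hu.zpow hR _, fun a => ?_⟩
    rw [if_neg (c := none = some a) (fun h' => (Option.some_ne_none _ h'.symm)), div_one]
    split_ifs
    · exact hu
    · exact Unt.one

end Unt

section Ty

variable {p : ℕ} [hp : Fact p.Prime] {F : Type} [Field F] [Algebra (ZMod p) F] [CharP F p]
  {W : ValuationSubring F} {E : Finset F} {A J : Type} [Fintype A] [DecidableEq A] {r M : ℕ}
  {f : F} {h : Fin r → F} {c q : J → F} {T : A → Finset F} {S : Finset F}

theorem abs_m {m j : ℤ} (hm : m = 0 ∨ m = 1) (hj : |j| ≤ M) : |m * j| ≤ M := by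
  rcases hm with rfl | rfl
  · rw [zero_mul, abs_zero]; positivity
  · rwa [one_mul]

theorem m_le {m i j : ℤ} (hm : m = 0 ∨ m = 1) (hij : i ≤ p * j) : m * i ≤ p * (m * j) := by
  rcases hm with rfl | rfl
  · rw [zero_mul, zero_mul, mul_zero]
  · rwa [one_mul, one_mul]

/-- The local data of a surface, the inseparable case. -/
theorem exists_fl_on (hW : Vle W (Subring.closure (E : Set F))) {x y : F}
    {Dx Dy : Derivation ℤ F F}
    (ec : EC p (vl W (Subring.closure (E : Set F))) x y Dx Dy) {cx cy : Option A}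
    (hxy : ∀ a, cx = some a → cy ≠ some a) {al be a' b' : ℤ} (al0 : cx = none → al = 0)
    (be0 : cy = none → be = 0) (a0 : cx = none → a' = 0) (b0 : cy = none → b' = 0)
    {κx κy : Fin r → ℤ} (κx0 : ∀ c, cx = none → κx c = 0) (κy0 : ∀ c, cy = none → κy c = 0)
    {u : F} (hu : u ∈ vl W (Subring.closure (E : Set F)))
    (cX : al ≤ p * a') (cY : be ≤ p * b') (MX : |al| ≤ M ∧ |a'| ≤ M ∧ ∀ c, |κx c| ≤ M)
    (MY : |be| ≤ M ∧ |b'| ≤ M ∧ ∀ c, |κy c| ≤ M) {j : J}
    (eqf : f - q j ^ p = x ^ al * y ^ be * u)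
    (hv : W.valuation (fl cx x * Dx f / (x ^ al * y ^ be)) = 1)
    (eqh : ∀ c, ∃ v ∈ vl W (Subring.closure (E : Set F)), W.valuation v = 1 ∧
      h c = v * (x ^ κx c * y ^ κy c))
    (crat : ∀ l, c l / c j ∈ vl W (Subring.closure (E : Set F)))
    (gT : ∀ a, Gen (vl W (Subring.closure (E : Set F))) (T a) (tc cx cy x y a * c j))
    (gS : Gen (vl W (Subring.closure (E : Set F))) S (c j * (x ^ a' * y ^ b')))
    (qd : ∀ l, c l / c j * (q j - q l) / (x ^ a' * y ^ b') ∈
      vl W (Subring.closure (E : Set F))) :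
    ∃ L : FL p false true 2 r M f h c q T S W, L.R = vl W (Subring.closure (E : Set F)) := by
  classical
  set R := vl W (Subring.closure (E : Set F)) with hR
  have hloc : VLocal W R := vlocal_vl hW
  have hx0 := ec.x0
  have hy0 := ec.y0
  obtain ⟨oY, m, hm, hm0, hoY, vY, hmu, hmt⟩ := exists_opt hloc ec.hy hy0 cy
  have hN0 : x ^ al * y ^ be ≠ 0 := mul_ne_zero (zpow_ne_zero _ hx0) (zpow_ne_zero _ hy0)
  have hcj : c j ≠ 0 := by
    intro h0
    exact gS.ne (by rw [h0, zero_mul])
  have hys : ∀ i : ℤ, y ^ i = y ^ (i - m * i) * y ^ (m * i) := by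
    intro i
    rw [← zpow_add₀ hy0]; congr 1; ring
  by_cases hc : cx ≠ none ∧ W.valuation x < 1
  · -- the first type
    obtain ⟨hc1, hc2⟩ := hc
    have hfl : fl cx x = x := by
      obtain ⟨a, ha⟩ := Option.ne_none_iff_exists'.mp hc1
      rw [ha]; rfl
    have hDf : fl cx x * Dx f / (x ^ al * y ^ be) = (al : F) * u + x * Dx u := by
      have h1 : Dx f = Dx (x ^ al * y ^ be * u) := by
        rw [← eqf, map_sub, der_pow, sub_zero]
      have h2 : Dx (y ^ be) = 0 := by rw [Derivation.leibniz_zpow, ec.xy, smul_zero, smul_zero]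
      rw [hfl, h1, Derivation.leibniz, Derivation.leibniz, h2, Derivation.leibniz_zpow, ec.xx,
        smul_zero, zero_add, smul_eq_mul, smul_eq_mul, smul_eq_mul, zsmul_eq_mul, smul_eq_mul,
        mul_one, zpow_sub_one₀ hx0]
      field_simp
      ring
    rw [hDf] at hv
    have hxu : W.valuation (x * Dx u) < 1 := by
      rw [map_mul]
      exact (mul_le_mul' le_rfl (hloc.le _ (ec.dx u hu))).trans_lt (by rw [mul_one]; exact hc2)
    have hau : W.valuation ((al : F) * u) = 1 := by
      have h1 : (al : F) * u = ((al : F) * u + x * Dx u) - x * Dx u := by ring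
      rw [h1, W.valuation.map_sub_eq_of_lt_left (by rw [hv]; exact hxu), hv]
    have haR : (al : F) ∈ R := intCast_mem R al
    have hal1 : W.valuation (al : F) ≤ 1 := hloc.le _ haR
    have hu1 : W.valuation u ≤ 1 := hloc.le _ hu
    have huu : W.valuation u = 1 := by
      refine le_antisymm hu1 ?_
      rw [← hau, map_mul]
      exact mul_le_of_le_one_left' hal1
    have hpal : ¬ (p : ℤ) ∣ al := by
      rintro ⟨w, hw⟩
      rw [hw, Int.cast_mul, Int.cast_natCast, CharP.cast_eq_zero, zero_mul, zero_mul,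
        map_zero] at hau
      exact zero_ne_one hau
    have hU : Unt W R (u * y ^ (be - m * be)) := Unt.mul ⟨hu, huu⟩ (hmu be be0)
    refine exists_fl hW ec (X := x) (Y := y) (oX := cx) (oY := oY) (eX := al) (eY := m * be)
      (bX := a') (bY := m * b') (κX := κx) (κY := fun c => m * κy c)
      (U := u * y ^ (be - m * be)) (act := true) (fun a ha hb => hxy a ha (hoY a hb))
      (fun _ => hc2) vY al0 (fun h0 => by rw [hm0 h0, zero_mul]) a0
      (fun h0 => by rw [hm0 h0, zero_mul]) κx0 (fun c h0 => by rw [hm0 h0, zero_mul]) hU.1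
      (fun _ => Or.inl ⟨hc1, hpal, hU.2⟩) (fun _ => rfl) (fun h => absurd h (by decide))
      (fun h => absurd h (by decide)) (fun _ => cX) (fun _ => m_le hm cY) MX
      ⟨abs_m hm MY.1, abs_m hm MY.2.1, fun c => abs_m hm (MY.2.2 c)⟩ (j := j) ?_ (fun c => ?_) crat
      (fun a => ?_) (fun _ => ?_) (fun _ l => ?_) (fun h => absurd h (by decide))
    · show f - q j ^ p + 0 = u * y ^ (be - m * be) * (x ^ al * y ^ (m * be))
      rw [add_zero, eqf, hys be]; ring
    · obtain ⟨v, hv1, hv2, hv3⟩ := eqh c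
      have h1 : Unt W R (v * y ^ (κy c - m * κy c)) := Unt.mul ⟨hv1, hv2⟩ (hmu _ (κy0 c))
      exact ⟨_, h1.1, h1.2, by rw [hv3, hys (κy c)]; ring⟩
    · have h1 := hmt a
      refine gen_unt hloc (gT a) ?_ ?_
      · exact mul_ne_zero (mul_ne_zero (ite_ne' hx0) (ite_ne' hy0)) hcj
      · have h2 : tc cx cy x y a * c j / (tc cx oY x y a * c j) =
            (if cy = some a then y else 1) / (if oY = some a then y else 1) := by
          rw [mul_div_mul_right _ _ hcj, tc, tc, mul_div_mul_left _ _ (ite_ne' hx0)]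
        rw [h2]
        exact h1
    · refine gen_unt hloc gS (mul_ne_zero hcj (mul_ne_zero (zpow_ne_zero _ hx0)
        (zpow_ne_zero _ hy0))) ?_
      have h2 : c j * (x ^ a' * y ^ b') / (c j * (x ^ a' * y ^ (m * b'))) =
          y ^ (b' - m * b') := by
        rw [hys b']
        have h3 : x ^ a' ≠ 0 := zpow_ne_zero _ hx0
        have h4 : y ^ (m * b') ≠ 0 := zpow_ne_zero _ hy0
        field_simp
      rw [h2]
      exact hmu b' b0
    · have h1 := R.mul_mem (qd l) (hmu b' b0).1
      have h2 : c l / c j * (q j - q l) / (x ^ a' * y ^ b') * y ^ (b' - m * b') =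
          c l / c j * (q j - q l) / (x ^ a' * y ^ (m * b')) := by
        rw [hys b']
        have h3 : x ^ a' ≠ 0 := zpow_ne_zero _ hx0
        have h4 : y ^ (m * b') ≠ 0 := zpow_ne_zero _ hy0
        have h5 : y ^ (b' - m * b') ≠ 0 := zpow_ne_zero _ hy0
        field_simp
      rwa [h2] at h1
  · -- the second type
    have hxu : cx ≠ none → Unt W R x := by
      intro h1
      refine ⟨ec.hx, le_antisymm (hloc.le x ec.hx) (not_lt.mp fun h2 => hc ⟨h1, h2⟩)⟩
    have hxi : ∀ i : ℤ, (cx = none → i = 0) → Unt W R (x ^ i) := by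
      intro i hi
      by_cases h1 : cx = none
      · rw [hi h1, zpow_zero]; exact Unt.one
      · exact (hxu h1).zpow hloc i
    have hflu : Unt W R (fl cx x) := by
      cases h1 : cx with
      | none => exact Unt.one
      | some a => exact hxu (by rw [h1]; exact Option.some_ne_none _)
    set z := u * (x ^ al * y ^ (be - m * be)) with hz
    have hzR : z ∈ R := R.mul_mem hu (R.mul_mem (hxi al al0).1 (hmu be be0).1)
    have hfz : f - q j ^ p = z * y ^ (m * be) := by
      rw [eqf, hz, hys be]; ring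
    have hDz : Dx z = fl cx x * Dx f / (x ^ al * y ^ be) *
        (x ^ al * y ^ (be - m * be) / fl cx x) := by
      have h1 : Dx f = y ^ (m * be) * Dx z := by
        have h2 : Dx (y ^ (m * be)) = 0 := by
          rw [Derivation.leibniz_zpow, ec.xy, smul_zero, smul_zero]
        have h3 : Dx f = Dx (f - q j ^ p) := by rw [map_sub, der_pow, sub_zero]
        rw [h3, hfz, Derivation.leibniz, h2, smul_zero, zero_add, smul_eq_mul]
      have h4 := hflu.ne
      have h3 : x ^ al ≠ 0 := zpow_ne_zero _ hx0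
      have h5 : y ^ (m * be) ≠ 0 := zpow_ne_zero _ hy0
      have h6 : y ^ (be - m * be) ≠ 0 := zpow_ne_zero _ hy0
      rw [h1, hys be]
      field_simp
    have hDzu : Unt W R (Dx z) := by
      refine ⟨ec.dx z hzR, ?_⟩
      rw [hDz, map_mul, hv, one_mul]
      exact (((hxi al al0).mul (hmu be be0)).div hloc hflu).2
    have ec' := (ec.swap.change (z := z) hzR (hDzu.inv hloc).1 hDzu.ne).swap
    have hz0 : z ≠ 0 := ec'.x0
    refine exists_fl hW ec' (X := z) (Y := y) (oX := none) (oY := oY) (eX := 0) (eY := m * be)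
      (bX := 0) (bY := m * b') (κX := fun _ => 0) (κY := fun c => m * κy c)
      (U := z) (act := true) (fun a ha => absurd ha.symm (Option.some_ne_none _))
      (fun h => absurd rfl h) vY (fun _ => rfl) (fun h0 => by rw [hm0 h0, zero_mul])
      (fun _ => rfl) (fun h0 => by rw [hm0 h0, zero_mul]) (fun _ _ => rfl)
      (fun c h0 => by rw [hm0 h0, zero_mul]) hzR
      (fun _ => Or.inr ⟨rfl, rfl⟩) (fun _ => rfl) (fun h => absurd h (by decide))
      (fun h => absurd h (by decide)) (fun h => absurd rfl h) (fun _ => m_le hm cY)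
      ⟨by rw [abs_zero]; positivity, by rw [abs_zero]; positivity, fun c => by
        rw [abs_zero]; positivity⟩
      ⟨abs_m hm MY.1, abs_m hm MY.2.1, fun c => abs_m hm (MY.2.2 c)⟩ (j := j) ?_ (fun c => ?_) crat
      (fun a => ?_) (fun _ => ?_) (fun _ l => ?_) (fun h => absurd h (by decide))
    · show f - q j ^ p + 0 = z * (z ^ (0 : ℤ) * y ^ (m * be))
      rw [add_zero, hfz, zpow_zero, one_mul]
    · obtain ⟨v, hv1, hv2, hv3⟩ := eqh c
      have h1 : Unt W R (v * x ^ κx c * y ^ (κy c - m * κy c)) :=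
        (Unt.mul ⟨hv1, hv2⟩ (hxi _ (κx0 c))).mul (hmu _ (κy0 c))
      exact ⟨_, h1.1, h1.2, by rw [hv3, hys (κy c), zpow_zero]; ring⟩
    · have h1 := hmt a
      refine gen_unt hloc (gT a) ?_ ?_
      · exact mul_ne_zero (mul_ne_zero (ite_ne' hz0) (ite_ne' hy0)) hcj
      · have h2 : tc cx cy x y a * c j / (tc none oY z y a * c j) =
            (if cx = some a then x else 1) * ((if cy = some a then y else 1) /
              (if oY = some a then y else 1)) := by
          rw [mul_div_mul_right _ _ hcj, tc, tc,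
            if_neg (c := none = some a) (fun h' => Option.some_ne_none _ h'.symm),
            one_mul, mul_div_assoc]
        rw [h2]
        refine Unt.mul ?_ h1
        split_ifs with h3
        · exact hxu (by rw [h3]; exact Option.some_ne_none _)
        · exact Unt.one
    · refine gen_unt hloc gS (mul_ne_zero hcj (mul_ne_zero (zpow_ne_zero _ hz0)
        (zpow_ne_zero _ hy0))) ?_
      have h2 : c j * (x ^ a' * y ^ b') / (c j * (z ^ (0 : ℤ) * y ^ (m * b'))) =
          x ^ a' * y ^ (b' - m * b') := by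
        rw [hys b', zpow_zero, one_mul]
        have h4 : y ^ (m * b') ≠ 0 := zpow_ne_zero _ hy0
        field_simp
      rw [h2]
      exact (hxi a' a0).mul (hmu b' b0)
    · have h1 := R.mul_mem (qd l) ((hxi a' a0).mul (hmu b' b0)).1
      have h2 : c l / c j * (q j - q l) / (x ^ a' * y ^ b') * (x ^ a' * y ^ (b' - m * b')) =
          c l / c j * (q j - q l) / (z ^ (0 : ℤ) * y ^ (m * b')) := by
        rw [hys b', zpow_zero, one_mul]
        have h3 : x ^ a' ≠ 0 := zpow_ne_zero _ hx0
        have h4 : y ^ (m * b') ≠ 0 := zpow_ne_zero _ hy0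
        have h5 : y ^ (b' - m * b') ≠ 0 := zpow_ne_zero _ hy0
        field_simp
      rwa [h2] at h1

/-- The local data of a surface, the case without function. -/
theorem exists_fl_off {b : Bool} (hW : Vle W (Subring.closure (E : Set F))) {x y : F}
    {Dx Dy : Derivation ℤ F F}
    (ec : EC p (vl W (Subring.closure (E : Set F))) x y Dx Dy) {cx cy : Option A}
    (hxy : ∀ a, cx = some a → cy ≠ some a)
    {κx κy : Fin r → ℤ} (κx0 : ∀ c, cx = none → κx c = 0) (κy0 : ∀ c, cy = none → κy c = 0)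
    (MX : ∀ c, |κx c| ≤ M) (MY : ∀ c, |κy c| ≤ M) {j : J} (hcj : c j ≠ 0) {q₀ : F}
    (hq : ∀ l, q l = q₀) (eqf : f - q₀ ^ p + cond b q₀ 0 = 0)
    (eqh : ∀ c, ∃ v ∈ vl W (Subring.closure (E : Set F)), W.valuation v = 1 ∧
      h c = v * (x ^ κx c * y ^ κy c))
    (crat : ∀ l, c l / c j ∈ vl W (Subring.closure (E : Set F)))
    (gT : ∀ a, Gen (vl W (Subring.closure (E : Set F))) (T a) (tc cx cy x y a * c j))
    (gS : Gen (vl W (Subring.closure (E : Set F))) S (c j)) :
    ∃ L : FL p b false 2 r M f h c q T S W, L.R = vl W (Subring.closure (E : Set F)) := by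
  classical
  set R := vl W (Subring.closure (E : Set F)) with hR
  have hloc : VLocal W R := vlocal_vl hW
  have hx0 := ec.x0
  have hy0 := ec.y0
  obtain ⟨oX, m', hm', hm0', hoX, vX, hmu', hmt'⟩ := exists_opt hloc ec.hx hx0 cx
  obtain ⟨oY, m, hm, hm0, hoY, vY, hmu, hmt⟩ := exists_opt hloc ec.hy hy0 cy
  have hys : ∀ i : ℤ, y ^ i = y ^ (i - m * i) * y ^ (m * i) := by
    intro i
    rw [← zpow_add₀ hy0]; congr 1; ring
  have hxs : ∀ i : ℤ, x ^ i = x ^ (i - m' * i) * x ^ (m' * i) := by
    intro i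
    rw [← zpow_add₀ hx0]; congr 1; ring
  refine exists_fl hW ec (X := x) (Y := y) (oX := oX) (oY := oY) (eX := 0) (eY := 0)
    (bX := 0) (bY := 0) (κX := fun c => m' * κx c) (κY := fun c => m * κy c)
    (U := 0) (act := false) (fun a ha hb => hxy a (hoX a ha) (hoY a hb))
    vX vY (fun _ => rfl) (fun _ => rfl) (fun _ => rfl) (fun _ => rfl)
    (fun c h0 => by rw [hm0' h0, zero_mul]) (fun c h0 => by rw [hm0 h0, zero_mul]) (Subring.zero_mem _)
    (fun h => absurd h (by decide)) (fun _ => rfl) (fun _ h => absurd h (by decide))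
    (fun _ => ⟨rfl, rfl⟩) (fun _ => by rw [mul_zero]) (fun _ => by rw [mul_zero])
    ⟨by rw [abs_zero]; positivity, by rw [abs_zero]; positivity, fun c => abs_m hm' (MX c)⟩
    ⟨by rw [abs_zero]; positivity, by rw [abs_zero]; positivity, fun c => abs_m hm (MY c)⟩
    (j := j) ?_ (fun c => ?_) crat
    (fun a => ?_) (fun _ => ?_) (fun _ l => ?_) (fun _ l => by rw [hq, hq])
  · rw [hq, eqf, zero_mul]
    cases b <;> rfl
  · obtain ⟨v, hv1, hv2, hv3⟩ := eqh c
    have h1 : Unt W R (v * x ^ (κx c - m' * κx c) * y ^ (κy c - m * κy c)) :=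
      (Unt.mul ⟨hv1, hv2⟩ (hmu' _ (κx0 c))).mul (hmu _ (κy0 c))
    exact ⟨_, h1.1, h1.2, by rw [hv3, hys (κy c), hxs (κx c)]; ring⟩
  · refine gen_unt hloc (gT a) ?_ ?_
    · exact mul_ne_zero (mul_ne_zero (ite_ne' hx0) (ite_ne' hy0)) hcj
    · have h2 : tc cx cy x y a * c j / (tc oX oY x y a * c j) =
          ((if cx = some a then x else 1) / (if oX = some a then x else 1)) *
          ((if cy = some a then y else 1) / (if oY = some a then y else 1)) := by
        rw [mul_div_mul_right _ _ hcj, tc, tc, mul_div_mul_comm]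
      rw [h2]
      exact (hmt' a).mul (hmt a)
  · rw [zpow_zero, zpow_zero, mul_one, mul_one]
    exact gS
  · rw [hq, hq, sub_self, mul_zero, zero_div]
    exact Subring.zero_mem _

end Ty

end Pool.Agent.H96.S
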