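import Pool.Agent.H96.S.SFc

/-!
# Finite covers by charts
-/

set_option autoImplicit false
set_option linter.unusedSectionVars false

namespace Pool.Agent.H96.S

open Pool.Agent.H96.VL

section Cov

variable {F J : Type} [Field F] {B : J → Subring F} {c : J → F}

/-- A cover with the sections which define its affine pieces. -/
structure Cov {F J : Type} [Field F] (B : J → Subring F) (c : J → F) : Prop where
  c0 : ∀ j, c j ≠ 0
  rat : ∀ j l, c l / c j ∈ B j
  sep : ∀ j l (W : ValuationSubring F), Vle W (B j) → W.valuation (c l / c j) = 1 → Vle W (B l)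

theorem Cov.pow (h : Cov B c) {n : ℕ} (hn : n ≠ 0) : Cov B fun j => c j ^ n where
  c0 := fun j => pow_ne_zero _ (h.c0 j)
  rat := fun j l => by rw [← div_pow]; exact (B j).pow_mem (h.rat j l) n
  sep := fun j l W hW h1 => by
    rw [← div_pow, map_pow] at h1
    refine h.sep j l W hW (le_antisymm (hW _ (h.rat j l)) (not_lt.mp fun h2 => ?_))
    exact absurd h1 (pow_lt_one₀ zero_le h2 hn).ne

theorem Cov.exists_pow [Finite J] {ι : Type} [Finite ι] (h : Cov B c) (e : ι → J → J → F)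
    (he : ∀ i j l (W : ValuationSubring F), Vle W (B j) → Vle W (B l) → e i j l ∈ vl W (B j)) :
    ∃ n : ℕ, ∀ m, n ≤ m → ∀ i j l, (c l / c j) ^ m * e i j l ∈ B j := by
  classical
  have := Fintype.ofFinite ι
  have := Fintype.ofFinite J
  have h1 : ∀ x : ι × J × J, ∃ n : ℕ, (c x.2.2 / c x.2.1) ^ n * e x.1 x.2.1 x.2.2 ∈ B x.2.1 :=
    fun x => exists_pow_den (h.rat _ _) fun W hW hb =>
      he _ _ _ W hW (h.sep _ _ W hW hb)
  choose n hn using h1
  refine ⟨Finset.univ.sup n, fun m hm i j l => ?_⟩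
  have h2 : n (i, j, l) ≤ m := (Finset.le_sup (Finset.mem_univ _)).trans hm
  have h3 : (c l / c j) ^ m * e i j l =
      (c l / c j) ^ (m - n (i, j, l)) * ((c l / c j) ^ n (i, j, l) * e i j l) := by
    rw [← mul_assoc, ← pow_add, Nat.sub_add_cancel h2]
  rw [h3]
  exact (B j).mul_mem ((B j).pow_mem (h.rat j l) _) (hn (i, j, l))

/-- Bounds. -/
theorem exists_bound {ι : Type} [Finite ι] (g : ι → ℤ) : ∃ M : ℕ, ∀ i, |g i| ≤ M := by
  have := Fintype.ofFinite ι
  refine ⟨Finset.univ.sup fun i => (g i).natAbs, fun i => ?_⟩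
  rw [Int.abs_eq_natAbs]
  exact_mod_cast Finset.le_sup (f := fun i => (g i).natAbs) (Finset.mem_univ i)

end Cov

section Cover

variable {p : ℕ} [hp : Fact p.Prime] {F : Type} [Field F] [CharP F p] {s : Finset F} {A : Type}
  [DecidableEq A] {t : A → ValuationSubring F → F} {ε f : F} {G : Finset F} {P : Finset (F × F)}

/-- **Finite covers by good charts.** -/
theorem exists_cover (hs : ∀ g ∈ s, g ≠ 0)
    (H : ∀ W, ∃ C : Chart p s t ε f G P, Vle W C.B ∧ C.Good) :
    ∃ (J : Type) (_ : Finite J) (C : J → Chart p s t ε f G P) (c : J → F), (∀ j, (C j).Good) ∧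
      Cov (fun j => (C j).B) c ∧ ∀ W, ∃ j, Vle W (C j).B := by
  classical
  -- the shrunk charts
  have h1 : ∀ W : ValuationSubring F, ∃ (C : Chart p s t ε f G P) (d : F), Vle W C.B ∧ C.Good ∧
      d ∈ As s C.g ∧ d ≠ 0 ∧ C.B = adj (As s C.g) d⁻¹ := by
    intro W
    obtain ⟨C, hW, hg⟩ := H W
    have hne : ∃ g ∈ s, g ≠ 0 := ⟨C.g, C.hg, hs _ C.hg⟩
    have hWA : Vle W (As s C.g) := hW.mono C.hAs
    obtain ⟨E, hE⟩ := C.fg
    have hvl : C.B ≤ vl W (As s C.g) := by
      have h2 := C.lc W hW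
      rwa [Pool.Agent.H96.S.Lc_eq C.hg (hs _ C.hg) ((vle_As (hs _ C.hg)).mp hWA)] at h2
    obtain ⟨d, hd, hd1, hdE⟩ := exists_den hWA E fun e he => hvl (by
      rw [hE]; exact Subring.subset_closure he)
    have hd0 : d ≠ 0 := ne_of_one hd1
    refine ⟨C.shrink (C.hAs hd) hd0 hne, d, (C.vle_shrink (C.hAs hd) hd0 hne).mpr ⟨hW, hd1⟩,
      C.good_shrink (C.hAs hd) hd0 hne hg, hd, hd0, ?_⟩
    show adj C.B d⁻¹ = adj (As s C.g) d⁻¹
    apply le_antisymm
    · refine adj_le ?_ mem_adj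
      rw [hE, Subring.closure_le]
      exact fun e he => adj_inv_of hd0 (hdE e he)
    · exact adj_le (C.hAs.trans le_adj) mem_adj
  choose C d hW hg hd hd0 hB using h1
  have hfg : ∀ W, ∃ E : Finset F, (C W).B = Subring.closure E := fun W => (C W).fg
  choose E hE using hfg
  obtain ⟨T, hT⟩ := qc E (fun W => ⟨W, fun e he => (W.valuation_le_one_iff e).mp (hW W e (by
    rw [hE]; exact Subring.subset_closure he))⟩)
  have hall : ∀ W, ∃ j : T, Vle W (C j).B := by
    intro W
    obtain ⟨i, hi, h2⟩ := hT W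
    refine ⟨⟨i, hi⟩, ?_⟩
    rw [hE, vle_closure]
    exact fun a ha => (W.valuation_le_one_iff a).mpr (h2 a ha)
  -- the exponent
  have hhom : ∀ j : T, ∃ n : ℕ, ∀ N, n ≤ N → ∀ g' ∈ s, g' ≠ 0 →
      ((C j).g / g') ^ N * d j ∈ As s g' := by
    intro j
    obtain ⟨n, hn⟩ := exists_hom (hs _ (C j).hg) (hd j)
    exact ⟨n, fun N hN g' hg' h0 => hn N hN g' hg' h0 (C j).hg⟩
  choose n hn using hhom
  set N := Finset.univ.sup n with hN
  have hnN : ∀ j, n j ≤ N := fun j => Finset.le_sup (Finset.mem_univ j)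
  refine ⟨T, inferInstance, fun j => C j, fun j => (C j).g ^ (N + 1) * d j, fun j => hg j, ?_,
    hall⟩
  have hg0 : ∀ j : T, (C j).g ≠ 0 := fun j => hs _ (C j).hg
  have hrat : ∀ j l : T, (C l).g ^ (N + 1) * d l / ((C j).g ^ (N + 1) * d j) =
      ((C l).g / (C j).g) ^ (N + 1) * d l * (d j)⁻¹ := by
    intro j l
    have h2 := hg0 j
    have h3 := hd0 (j : ValuationSubring F)
    rw [div_pow]
    field_simp
  refine ⟨fun j => mul_ne_zero (pow_ne_zero _ (hg0 j)) (hd0 j), fun j l => ?_,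
    fun j l W hW hv => ?_⟩
  · show _ ∈ (C j).B
    rw [hrat, hB]
    exact Subring.mul_mem _ (le_adj (hn l _ ((hnN l).trans (Nat.le_succ _)) _ (C j).hg (hg0 j)))
      mem_adj
  · show Vle W (C l).B
    rw [hB] at hW ⊢
    have hW' := (vle_adj_inv (hd j) (hd0 j)).mp hW
    obtain ⟨hWA, hdj⟩ := hW'
    rw [hrat, map_mul, map_inv₀, hdj, inv_one, mul_one] at hv
    have h2 : ((C l).g / (C j).g) ^ (N + 1) * d l =
        ((C l).g / (C j).g) ^ N * d l * ((C l).g / (C j).g) := by rw [pow_succ]; ring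
    have h3 : W.valuation (((C l).g / (C j).g) ^ N * d l) ≤ 1 :=
      hWA _ (hn l _ (hnN l) _ (C j).hg (hg0 j))
    have h4 : W.valuation ((C l).g / (C j).g) ≤ 1 := hWA _ (mem_As (C l).hg)
    have h5 : W.valuation ((C l).g / (C j).g) = 1 := by
      refine le_antisymm h4 ?_
      rw [← hv, h2, map_mul]
      exact mul_le_of_le_one_left' h3
    have h6 : W.valuation (C l).g = W.valuation (C j).g := by
      have h7 : 0 < W.valuation (C j).g := by rw [Valuation.pos_iff]; exact hg0 j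
      rw [map_div₀, div_eq_one_iff_eq h7.ne'] at h5
      exact h5
    have h7 : Vle W (As s (C l).g) := by
      rw [vle_As (hg0 l), h6]
      exact (vle_As (hg0 j)).mp hWA
    refine (vle_adj_inv (hd l) (hd0 l)).mpr ⟨h7, ?_⟩
    rw [map_mul, map_pow, h5, one_pow, one_mul] at hv
    exact hv

end Cover

end Pool.Agent.H96.S
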