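import Pool.Agent.H96.S.SFd

/-!
# The data of a rational surface
-/

set_option autoImplicit false
set_option linter.unusedSectionVars false

namespace Pool.Agent.H96.S

open Pool.Agent.H96.VL Pool.Agent.H96.W

/-- Rounding up. -/
def cl (p : ℕ) (a : ℤ) : ℤ := -((-a) / (p : ℤ))

theorem le_cl {p : ℕ} (hp : 0 < p) (a : ℤ) : a ≤ p * cl p a := by
  have h1 := Int.mul_ediv_add_emod (-a) (p : ℤ)
  have h2 := Int.emod_nonneg (-a) (by exact_mod_cast hp.ne' : (p : ℤ) ≠ 0)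
  rw [cl, mul_neg]
  linarith

theorem cl_lt {p : ℕ} (hp : 0 < p) (a : ℤ) : p * cl p a - a < p := by
  have h1 := Int.mul_ediv_add_emod (-a) (p : ℤ)
  have h2 := Int.emod_lt_of_pos (-a) (by exact_mod_cast hp : (0 : ℤ) < (p : ℤ))
  rw [cl, mul_neg]
  linarith

theorem cl_zero (p : ℕ) : cl p 0 = 0 := by rw [cl, neg_zero, Int.zero_ediv, neg_zero]

theorem exists_cl {p : ℕ} (hp : 0 < p) (a : ℤ) : ∃ i : ℕ, i < p ∧ (i : ℤ) = p * cl p a - a := by
  obtain ⟨i, hi⟩ := Int.eq_ofNat_of_zero_le (sub_nonneg.mpr (le_cl hp a))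
  refine ⟨i, ?_, hi.symm⟩
  have h1 := cl_lt hp a
  rw [hi] at h1
  exact_mod_cast h1

section Mono

variable {p : ℕ} {b on : Bool} {F : Type} [Field F] [Algebra (ZMod p) F] {A J : Type}
    [Fintype A] [DecidableEq A] {d r M M' : ℕ} {f : F} {h : Fin r → F} {c q : J → F}
    {T : A → Finset F} {S : Finset F} {W : ValuationSubring F}

/-- Larger bounds. -/
def FL.mono (L : FL p b on d r M f h c q T S W) (hM : M ≤ M') :
    FL p b on d r M' f h c q T S W :=
  { L with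
    eM := fun a => (L.eM a).trans (by exact_mod_cast hM)
    βM := fun a => (L.βM a).trans (by exact_mod_cast hM)
    κM := fun c a => (L.κM c a).trans (by exact_mod_cast hM) }

/-- Larger bounds. -/
def FD.mono (D : FD p b on F A J d r M f h) (hM : M ≤ M') : FD p b on F A J d r M' f h :=
  { D with
    loc := fun W => by
      obtain ⟨L, h1, h2⟩ := D.loc W
      exact ⟨L.mono hM, h1, h2⟩ }

end Mono

section Wrap

variable {p : ℕ} [hp : Fact p.Prime] {F : Type} [Field F] [Algebra (ZMod p) F] [CharP F p]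
  {W : ValuationSubring F} {B : Subring F} {A J : Type} [Fintype A] [DecidableEq A] {r M : ℕ}
  {f : F} {h : Fin r → F} {c q : J → F} {T : A → Finset F} {S : Finset F}

theorem mn_unt {cx cy : Option A} {x y g : F} {i j : ℤ} (hW : Vle W B) {w : F} (hw : w ∈ B)
    (hw' : w⁻¹ ∈ B) (hw0 : w ≠ 0) : w ∈ vl W B ∧ W.valuation w = 1 := by
  refine ⟨le_vl hw, le_antisymm (hW w hw) ?_⟩
  have h1 := hW _ hw'
  rw [map_inv₀] at h1
  have h2 : 0 < W.valuation w := by rw [Valuation.pos_iff]; exact hw0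
  exact (inv_le_one₀ h2).mp h1

/-- The inseparable case in one of the two directions. -/
theorem exists_fl_on' (hfg : Fg B) (hW : Vle W B) {x y : F}
    {Dx Dy : Derivation ℤ F F} (ec : EC p B x y Dx Dy) {cx cy : Option A}
    (hxy : ∀ a, cx = some a → cy ≠ some a) {al be : ℤ} (al0 : cx = none → al = 0)
    (be0 : cy = none → be = 0)
    {κx κy : Fin r → ℤ} (κx0 : ∀ c, cx = none → κx c = 0) (κy0 : ∀ c, cy = none → κy c = 0)
    {u : F} (hu : u ∈ B)
    (MX : |al| ≤ M ∧ |cl p al| ≤ M ∧ ∀ c, |κx c| ≤ M)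
    (MY : |be| ≤ M ∧ |cl p be| ≤ M ∧ ∀ c, |κy c| ≤ M) {j : J}
    (eqf : f - q j ^ p = x ^ al * y ^ be * u)
    (hv : W.valuation (fl cx x * Dx f / (x ^ al * y ^ be)) = 1)
    (eqh : ∀ c, ∃ w ∈ B, w⁻¹ ∈ B ∧ w ≠ 0 ∧ h c = x ^ κx c * y ^ κy c * w)
    (crat : ∀ l, c l / c j ∈ B)
    (gT : ∀ a, Gen B (T a) (tc cx cy x y a * c j))
    (gS : Gen B S (c j * (x ^ cl p al * y ^ cl p be)))
    (qd : ∀ l, c l / c j * (q j - q l) / (x ^ cl p al * y ^ cl p be) ∈ B) :
    ∃ L : FL p false true 2 r M f h c q T S W, L.R = vl W B := by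
  obtain ⟨E, rfl⟩ := hfg
  refine exists_fl_on hW ec.vl hxy (a' := cl p al) (b' := cl p be) al0 be0
    (fun h0 => by rw [al0 h0, cl_zero]) (fun h0 => by rw [be0 h0, cl_zero]) κx0 κy0 (le_vl hu)
    (le_cl hp.out.pos _) (le_cl hp.out.pos _) MX MY eqf hv (fun c => ?_) (fun l => le_vl (crat l))
    (fun a => (gT a).mono le_vl) (gS.mono le_vl) (fun l => le_vl (qd l))
  obtain ⟨w, hw, hw', hw0, h1⟩ := eqh c
  obtain ⟨h2, h3⟩ := mn_unt (cx := cx) (cy := cy) (x := x) (y := y) (g := w) (i := 0) (j := 0)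
    hW hw hw' hw0
  exact ⟨w, h2, h3, by rw [h1]; ring⟩

end Wrap

section Main

variable {p : ℕ} [hp : Fact p.Prime] {F : Type} [Field F] [CharP F p] {s : Finset F} {A : Type}
  [DecidableEq A] {t : A → ValuationSubring F → F} {f : F} {G : Finset F} {P : Finset (F × F)}

namespace Chart

variable (C : Chart p s t 0 f G P)

/-- The gauge of a chart. -/
theorem exists_q : ∃ q u : F, u ∈ C.B ∧ f - q ^ p = C.x ^ C.al * C.y ^ C.be * u := by
  have hx0 := C.ec.x0
  have hy0 := C.ec.y0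
  have hN0 : C.x ^ C.al * C.y ^ C.be ≠ 0 := C.N0
  have key : ∀ {cx : Option A} {x w : F}, x ∈ C.B →
      fl cx x * w / (C.x ^ C.al * C.y ^ C.be) ∈ C.B →
      Mul C.B (C.x ^ C.al * C.y ^ C.be) (x * w) := by
    intro cx x w hx h1
    cases cx with
    | none =>
      refine ⟨x * (fl (none : Option A) x * w / (C.x ^ C.al * C.y ^ C.be)), C.B.mul_mem hx h1, ?_⟩
      have h2 : fl (none : Option A) x = 1 := rfl
      rw [h2]
      field_simp
    | some a =>
      refine ⟨fl (some a) x * w / (C.x ^ C.al * C.y ^ C.be), h1, ?_⟩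
      have h2 : fl (some a) x = x := rfl
      rw [h2]
      field_simp
  obtain ⟨q, u, hu, h1⟩ := C.ec.gauge (N := C.x ^ C.al * C.y ^ C.be) (f := f)
    ⟨(C.al : F), intCast_mem _ _, by
      have h2 : C.Dx (C.y ^ C.be) = 0 := by
        rw [Derivation.leibniz_zpow, C.ec.xy, smul_zero, smul_zero]
      rw [Derivation.leibniz, h2, Derivation.leibniz_zpow, C.ec.xx, smul_zero, zero_add,
        smul_eq_mul, smul_eq_mul, zsmul_eq_mul, mul_one, zpow_sub_one₀ hx0]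
      field_simp⟩
    ⟨(C.be : F), intCast_mem _ _, by
      have h2 : C.Dy (C.x ^ C.al) = 0 := by
        rw [Derivation.leibniz_zpow, C.ec.yx, smul_zero, smul_zero]
      rw [Derivation.leibniz, h2, Derivation.leibniz_zpow, C.ec.yy, smul_zero, add_zero,
        smul_eq_mul, smul_eq_mul, zsmul_eq_mul, mul_one, zpow_sub_one₀ hy0]
      field_simp⟩
    (key C.ec.hx C.hv) (key C.ec.hy C.hw)
  exact ⟨q, u, hu, h1⟩

/-- The cutoff of a chart. -/
def bt (C : Chart p s t 0 f G P) : F := C.x ^ cl p C.al * C.y ^ cl p C.be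

theorem bt0 : C.bt ≠ 0 := mul_ne_zero (zpow_ne_zero _ C.ec.x0) (zpow_ne_zero _ C.ec.y0)

theorem exists_bt : ∃ i j : ℕ, i < p ∧ j < p ∧ C.bt ^ p = C.N * (C.x ^ i * C.y ^ j) := by
  have hx0 := C.ec.x0
  have hy0 := C.ec.y0
  obtain ⟨i, hi, hi'⟩ := exists_cl hp.out.pos C.al
  obtain ⟨j, hj, hj'⟩ := exists_cl hp.out.pos C.be
  refine ⟨i, j, hi, hj, ?_⟩
  have h1 : ∀ {z : F} {a b : ℤ} {n : ℕ}, z ≠ 0 → (n : ℤ) = p * b - a →
      (z ^ b) ^ p = z ^ a * z ^ n := by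
    intro z a b n hz hn
    rw [← zpow_natCast, ← zpow_natCast, ← zpow_mul, ← zpow_add₀ hz]
    congr 1
    linarith
  rw [bt, N, mul_pow, h1 hx0 hi', h1 hy0 hj']
  ring

/-- Divisibility by the cutoff. -/
theorem div_bt {W : ValuationSubring F} (hs : ∀ g ∈ s, g ≠ 0) (hW : Vle W C.B) {w : F}
    (hw : w ^ p / C.N ∈ vl W C.B) : w / C.bt ∈ vl W C.B := by
  have hec : EC p (vl W C.B) C.x C.y C.Dx C.Dy := C.ec.vl
  obtain ⟨i, j, hi, hj, h1⟩ := C.exists_bt
  refine hec.root hi hj ?_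
  have h2 : C.x ^ i * C.y ^ j * (w / C.bt) ^ p = w ^ p / C.N := by
    have h3 := C.N0
    have h4 := C.bt0
    have hx0 := C.ec.x0
    have hy0 := C.ec.y0
    rw [div_pow, h1]
    have h5 : C.x ^ i ≠ 0 := pow_ne_zero _ hx0
    have h6 : C.y ^ j ≠ 0 := pow_ne_zero _ hy0
    field_simp
  rw [h2]
  exact hw

end Chart

end Main

end Pool.Agent.H96.S
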