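import Pool.Agent.H96.S.Rc

/-!
# Preparations for the blowing up of a point
-/

set_option autoImplicit false
set_option linter.unusedSectionVars false

namespace Pool.Agent.H96.S

open Pool.Agent.H96.VL
open scoped Pointwise

section Pt

variable {p : ℕ} [hp : Fact p.Prime] {F : Type} [Field F] [CharP F p]
  {W W₀ : ValuationSubring F} {B : Subring F} {x y : F} {Dx Dy : Derivation ℤ F F}

/-- The point seen by another valuation. -/
theorem Pt.transfer (h : Pt p W₀ B x y) (hW : Vle W B) (hx : W.valuation x < 1)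
    (hy : W.valuation y < 1) : Pt p W B x y := by
  refine ⟨hW, hx, hy, fun b hb hv => h.max b hb ((h.centre hW hx hy hb).mp hv), ?_⟩
  obtain ⟨n, hn, h1⟩ := h.fin
  exact ⟨n, hn, fun b hb => (h.centre hW hx hy (B.sub_mem (B.pow_mem hb _) hb)).mpr (h1 b hb)⟩

/-- A proper ideal which contains powers of the coordinates. -/
theorem Pt.le_mm (h : Pt p W B x y) (hx : x ∈ B) (hy : y ∈ B) {L : AddSubgroup F} (hL : Idl B L)
    {m : ℕ} (hxm : x ^ m ∈ L) (hym : y ^ m ∈ L) (h1 : (1 : F) ∉ L) : L ≤ mm B x y := by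
  intro a ha
  by_contra hcon
  have haB := hL.le ha
  have hv : W.valuation a = 1 := by
    refine le_antisymm (h.le a haB) (not_lt.mp fun h2 => hcon (h.mem_mm haB h2))
  obtain ⟨c, hc, h3⟩ := h.exists_inv haB hv
  obtain ⟨r, hr, r', hr', h4⟩ := S.mem_mm.mp h3
  have h5 : 1 + (x * r + y * r') ∈ L := by
    rw [← h4]
    have : 1 + (c * a - 1) = c * a := by ring
    rw [this]
    exact hL.mul c hc a ha
  have h6 : (x * r + y * r') ^ (2 * m) ∈ L := by
    rw [add_pow]
    refine AddSubgroup.sum_mem _ fun i hi => ?_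
    rw [Finset.mem_range] at hi
    rcases Nat.lt_or_ge i m with h7 | h7
    · have h8 : (x * r) ^ i * (y * r') ^ (2 * m - i) * ((2 * m).choose i : F) =
          ((x * r) ^ i * (y ^ (m - i) * r' ^ (2 * m - i)) * ((2 * m).choose i : F)) * y ^ m := by
        have h9 : 2 * m - i = (m - i) + m := by omega
        rw [h9, mul_pow y, pow_add y]; ring
      rw [h8]
      exact hL.mul _ (B.mul_mem (B.mul_mem (B.pow_mem (B.mul_mem hx hr) _) (B.mul_mem
        (B.pow_mem hy _) (B.pow_mem hr' _))) (natCast_mem B _)) _ hym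
    · have h8 : (x * r) ^ i * (y * r') ^ (2 * m - i) * ((2 * m).choose i : F) =
          (x ^ (i - m) * r ^ i * (y * r') ^ (2 * m - i) * ((2 * m).choose i : F)) * x ^ m := by
        have h9 : i = (i - m) + m := by omega
        conv_lhs => rw [mul_pow x, h9, pow_add x]
        rw [← h9]; ring
      rw [h8]
      exact hL.mul _ (B.mul_mem (B.mul_mem (B.mul_mem (B.pow_mem hx _) (B.pow_mem hr _))
        (B.pow_mem (B.mul_mem hy hr') _)) (natCast_mem B _)) _ hxm
  set z := x * r + y * r' with hz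
  have hzB : z ∈ B := B.add_mem (B.mul_mem hx hr) (B.mul_mem hy hr')
  have h7 : ∀ k : ℕ, 1 - (-z) ^ k ∈ L := by
    intro k
    induction k with
    | zero => rw [pow_zero, sub_self]; exact L.zero_mem
    | succ k ih =>
      have h8 : 1 - (-z) ^ (k + 1) = (1 - (-z) ^ k) + (-z) ^ k * (1 + z) := by ring
      rw [h8]
      exact L.add_mem ih (hL.mul _ (B.pow_mem (B.neg_mem hzB) _) _ h5)
  apply h1
  have h8 : (1 : F) = (1 - (-z) ^ (2 * m)) + z ^ (2 * m) := by
    rw [Even.neg_pow ⟨m, by ring⟩]; ring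
  rw [h8]
  exact L.add_mem (h7 _) h6

/-- Making a closed centre a point. -/
theorem EC.exists_pt (h : EC p B x y Dx Dy) (hB : Fg B) (hW : Vle W B) (hclo : Clo p W B)
    (hx : W.valuation x < 1) (hy : W.valuation y < 1) :
    ∃ E : Finset F, (∀ e ∈ E, e ∈ vl W B) ∧ ∀ d ∈ B, W.valuation d = 1 →
      (∀ e ∈ E, e ∈ adj B d⁻¹) → Pt p W (adj B d⁻¹) x y := by
  classical
  have hEC : EC p (vl W B) x y Dx Dy := by
    refine h.loc le_vl fun w hw => ?_
    obtain ⟨a, ha, b, hb, hb1, rfl⟩ := mem_vl.mp hw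
    refine ⟨a, ha, b, hb, ?_, inv_mem_vl hb hb1, rfl⟩
    rintro rfl
    rw [map_zero] at hb1
    exact zero_ne_one hb1
  obtain ⟨E, h1, h2⟩ := hB.exists_gens hW
  have h3 : ∀ e : F, ∃ a ∈ vl W B, ∃ c ∈ vl W B, e ∈ E → e = x * a + y * c := by
    intro e
    by_cases he : e ∈ E
    · obtain ⟨a, ha, c, hc, h4⟩ := hEC.max_gen (vlocal_vl hW) (hB.noeth_vl hW) hx hy
        (le_vl (h1 e he).1) (h1 e he).2
      exact ⟨a, ha, c, hc, fun _ => h4⟩
    · exact ⟨0, Subring.zero_mem _, 0, Subring.zero_mem _, fun h => absurd h he⟩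
  choose a ha c hc h4 using h3
  refine ⟨E.image a ∪ E.image c, fun e he => ?_, fun d hd hd1 hE => ?_⟩
  · rcases Finset.mem_union.mp he with he | he
    · obtain ⟨e', -, rfl⟩ := Finset.mem_image.mp he
      exact ha _
    · obtain ⟨e', -, rfl⟩ := Finset.mem_image.mp he
      exact hc _
  · have hd0 : d ≠ 0 := by
      rintro rfl
      rw [map_zero] at hd1
      exact zero_ne_one hd1
    have hle : adj B d⁻¹ ≤ vl W B := adj_le le_vl (inv_mem_vl hd hd1)
    refine ⟨(vle_adj_inv hd hd0).mpr ⟨hW, hd1⟩, hx, hy, fun b hb hv => ?_, ?_⟩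
    · obtain ⟨b, hbB, n, rfl⟩ := (mem_adj_inv hd hd0).mp hb
      rw [map_div₀, map_pow, hd1, one_pow, div_one] at hv
      have h5 : gs B E ≤ mm (adj B d⁻¹) x y := by
        refine gs_le fun r hr e he => ?_
        refine mem_mm.mpr ⟨r * a e, Subring.mul_mem _ (le_adj hr)
          (hE _ (Finset.mem_union_left _ (Finset.mem_image_of_mem _ he))), r * c e,
          Subring.mul_mem _ (le_adj hr)
          (hE _ (Finset.mem_union_right _ (Finset.mem_image_of_mem _ he))), ?_⟩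
        conv_lhs => rw [h4 e he]
        ring
      obtain ⟨r, hr, r', hr', h6⟩ := mem_mm.mp (h5 (h2 b hbB hv))
      have hdn : (d ^ n)⁻¹ ∈ adj B d⁻¹ := by
        rw [← inv_pow]; exact Subring.pow_mem _ mem_adj _
      exact ⟨r * (d ^ n)⁻¹, Subring.mul_mem _ hr hdn, r' * (d ^ n)⁻¹, Subring.mul_mem _ hr' hdn, by
        rw [div_eq_mul_inv, h6]; ring⟩
    · obtain ⟨n, hn, h5⟩ := hclo.vl hW
      exact ⟨n, hn, fun b hb => h5 b (hle hb)⟩

/-- Powers of small elements. -/
theorem exists_pow_mem {L : AddSubgroup F} (hL : Idl B L) (h0 : L.relIndex B.toAddSubgroup ≠ 0)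
    (hW : Vle W B) {d : F} (hd : d ∈ B) (hd1 : W.valuation d < 1) :
    ∃ i : ℕ, ∃ e ∈ B, W.valuation e = 1 ∧ e * d ^ i ∈ L := by
  have hfi' : (L.addSubgroupOf B.toAddSubgroup).FiniteIndex := ⟨h0⟩
  have hfi : Finite (B.toAddSubgroup ⧸ L.addSubgroupOf B.toAddSubgroup) :=
    AddSubgroup.finite_quotient_of_finiteIndex
  obtain ⟨m, n, hmn, h1⟩ := Finite.exists_ne_map_eq_of_infinite
    (fun n : ℕ => ((⟨d ^ n, B.pow_mem hd n⟩ : B.toAddSubgroup) :
      B.toAddSubgroup ⧸ L.addSubgroupOf B.toAddSubgroup))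
  have key : ∀ m n : ℕ, m < n → (((⟨d ^ m, B.pow_mem hd m⟩ : B.toAddSubgroup) :
      B.toAddSubgroup ⧸ L.addSubgroupOf B.toAddSubgroup) = (⟨d ^ n, B.pow_mem hd n⟩ :
      B.toAddSubgroup)) → ∃ i : ℕ, ∃ e ∈ B, W.valuation e = 1 ∧ e * d ^ i ∈ L := by
    intro m n hmn h1
    rw [QuotientAddGroup.eq, AddSubgroup.mem_addSubgroupOf] at h1
    have h2 : -(d ^ m) + d ^ n ∈ L := h1
    refine ⟨m, 1 - d ^ (n - m), B.sub_mem B.one_mem (B.pow_mem hd _), ?_, ?_⟩
    · have h3 : W.valuation (d ^ (n - m)) < W.valuation 1 := by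
        rw [map_one, map_pow]
        exact pow_lt_one₀ zero_le hd1 (by omega)
      rw [W.valuation.map_sub_eq_of_lt_left h3, map_one]
    · have h3 : (1 - d ^ (n - m)) * d ^ m = -(-(d ^ m) + d ^ n) := by
        have h4 : d ^ n = d ^ m * d ^ (n - m) := by rw [← pow_add]; congr 1; omega
        rw [h4]; ring
      rw [h3]
      exact L.neg_mem h2
  rcases lt_or_gt_of_ne hmn with h2 | h2
  · exact key m n h2 h1
  · exact key n m h2 h1.symm

end Pt

section Swap

variable {p : ℕ} [hp : Fact p.Prime] {F : Type} [Field F] [CharP F p] {s : Finset F} {A : Type}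
  [DecidableEq A] {t : A → ValuationSubring F → F} {ε f : F} {G : Finset F} {P : Finset (F × F)}
  {W W₀ : ValuationSubring F} {B : Subring F} {x y : F} {Dx Dy : Derivation ℤ F F}

theorem Mn.swap {cx cy : Option A} {g : F} (h : Mn B cx cy x y g) : Mn B cy cx y x g := by
  obtain ⟨i, j, h1, h2, c, hc, hc', h0, rfl⟩ := h
  exact ⟨j, i, h2, h1, c, hc, hc', h0, by ring⟩

theorem Mn.neg {cx cy : Option A} {g : F} (h : Mn B cx cy x y g) : Mn B cx cy x y (-g) := by
  obtain ⟨i, j, h1, h2, c, hc, hc', h0, rfl⟩ := h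
  exact ⟨i, j, h1, h2, -c, B.neg_mem hc, by rw [inv_neg]; exact B.neg_mem hc', neg_ne_zero.mpr h0,
    by ring⟩

theorem Jc_swap (cx cy : Option A) (a b : F) : Jc cy cx y x Dy Dx a b = -Jc cx cy x y Dx Dy a b := by
  rw [Jc, Jc]; ring

theorem tc_swap (cx cy : Option A) (a : A) : tc cy cx y x a = tc cx cy x y a := mul_comm _ _

theorem L3_swap {u v w : F} : L3 B u w v = L3 B u v w := by
  ext a
  rw [L3, L3, mem_I3, mem_I3]
  constructor
  · rintro ⟨b, hb, c, hc, d, hd, rfl⟩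
    exact ⟨b, hb, d, hd, c, hc, by ring⟩
  · rintro ⟨b, hb, c, hc, d, hd, rfl⟩
    exact ⟨b, hb, d, hd, c, hc, by ring⟩

namespace Chart

/-- The chart with the coordinates exchanged. -/
def swap (C : Chart p s t ε f G P) : Chart p s t ε f G P where
  B := C.B
  g := C.g
  x := C.y
  y := C.x
  Dx := C.Dy
  Dy := C.Dx
  cx := C.cy
  cy := C.cx
  al := C.be
  be := C.al
  fg := C.fg
  hg := C.hg
  hAs := C.hAs
  lc := C.lc
  ec := C.ec.swap
  cxy := fun a h h' => C.cxy a h' h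
  col := fun a W hW => by rw [tc_swap]; exact C.col a W hW
  al0 := C.be0
  be0 := C.al0
  hu := by rw [mul_comm (C.y ^ C.be)]; exact C.hu
  hv := by rw [mul_comm (C.y ^ C.be)]; exact C.hw
  hw := by rw [mul_comm (C.y ^ C.be)]; exact C.hv
  mn := fun h hh => (C.mn h hh).swap
  jc := fun h hh => by rw [Jc_swap]; exact (C.jc h hh).neg.swap

variable (C : Chart p s t ε f G P)

theorem L_swap : C.swap.L = C.L := by
  have h1 : C.swap.L = L3 C.B (ε * f / (C.y ^ C.be * C.x ^ C.al))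
      (fl C.cy C.y * C.Dy f / (C.y ^ C.be * C.x ^ C.al))
      (fl C.cx C.x * C.Dx f / (C.y ^ C.be * C.x ^ C.al)) := rfl
  rw [h1, mul_comm (C.y ^ C.be), L3_swap]
  rfl

theorem good_swap (h : C.Good) : C.swap.Good := by
  rw [Good, L_swap]; exact h

theorem Φ_swap : C.swap.Φ = C.Φ := by
  rw [Φ, Φ, L_swap]
  have h1 : (C.swap.cx.isSome = true ∧ C.swap.cy.isSome = true) ↔
      (C.cx.isSome = true ∧ C.cy.isSome = true) := ⟨fun h => ⟨h.2, h.1⟩, fun h => ⟨h.2, h.1⟩⟩
  rw [if_congr h1 rfl rfl]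
  rfl

theorem Pd.swap {C : Chart p s t ε f G P} {n : ℕ} (h : C.Pd W n) : C.swap.Pd W n := by
  refine ⟨h.pt.swap, ?_, by rw [Φ_swap]; exact h.le⟩
  obtain ⟨m, h1, h2⟩ := h.m
  exact ⟨m, by rw [L_swap]; exact h2, by rw [L_swap]; exact h1⟩

end Chart

end Swap

section Der

variable {p : ℕ} [hp : Fact p.Prime] {F : Type} [Field F] [CharP F p] {A : Type}
  {W W₀ : ValuationSubring F} {B : Subring F} {x y : F} {Dx Dy : Derivation ℤ F F}
  {cx cy : Option A} {al be : ℤ} {ε f : F}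

theorem der_ε (D : Derivation ℤ F F) (hε : ε = 0 ∨ ε = 1) (f : F) : D (ε * f) = ε * D f := by
  rcases hε with rfl | rfl
  · rw [zero_mul, zero_mul, map_zero]
  · rw [one_mul, one_mul]

/-- The derivatives in the case of one flag. -/
theorem EC.der_one (h : EC p B x y Dx Dy) (hP : Pt p W B x y) (hε : ε = 0 ∨ ε = 1)
    (hcx : cx.isSome = true) (hcy : cy.isSome = false) (hbe : be = 0)
    (hw : fl cy y * Dy f / (x ^ al * y ^ be) ∈ mm B x y) :
    W.valuation (Dy (ε * f / (x ^ al * y ^ be))) < 1 ∧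
      W.valuation (Dy (fl cx x * Dx f / (x ^ al * y ^ be))) < 1 := by
  have hfx : fl cx x = x := by
    cases cx with
    | none => exact absurd hcx (by simp)
    | some a => rfl
  have hfy : fl cy y = 1 := by
    cases cy with
    | none => rfl
    | some a => exact absurd hcy (by simp)
  rw [hbe, zpow_zero, mul_one] at *
  rw [hfy, one_mul] at hw
  rw [hfx]
  have hx0 := h.x0
  have hN : Dy (x ^ al) = 0 := by rw [Derivation.leibniz_zpow, h.yx, smul_zero, smul_zero]
  have hNx : x * Dx (x ^ al) = al * x ^ al := by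
    rw [Derivation.leibniz_zpow, h.xx, smul_eq_mul, mul_one, zsmul_eq_mul, zpow_sub_one₀ hx0]
    field_simp
  have hN0 : x ^ al ≠ 0 := zpow_ne_zero _ hx0
  set w := Dy f / x ^ al with hwdef
  have hwf : Dy f = x ^ al * w := by rw [hwdef]; field_simp
  constructor
  · rw [Derivation.leibniz_div_const _ _ _ hN, der_ε _ hε, smul_eq_mul]
    have h1 : (x ^ al)⁻¹ * (ε * Dy f) = ε * w := by rw [hwf]; field_simp
    rw [h1]
    have hεB : ε ∈ B := by
      rcases hε with rfl | rfl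
      · exact B.zero_mem
      · exact B.one_mem
    exact hP.lt ((Idl.mm h.hx h.hy).mul ε hεB w hw)
  · rw [Derivation.leibniz_div_const _ _ _ hN, Derivation.leibniz, h.yx, smul_zero, add_zero,
      smul_eq_mul, smul_eq_mul, ← h.comm, hwf, Derivation.leibniz, smul_eq_mul, smul_eq_mul]
    have h1 : (x ^ al)⁻¹ * (x * (x ^ al * Dx w + w * Dx (x ^ al))) = x * Dx w + al * w := by
      have h2 : x * (x ^ al * Dx w + w * Dx (x ^ al)) =
          x ^ al * (x * Dx w) + w * (x * Dx (x ^ al)) := by ring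
      rw [h2, hNx]
      field_simp
    rw [h1]
    have hmm := Idl.mm h.hx h.hy
    refine hP.lt (AddSubgroup.add_mem _ (mem_mm.mpr ⟨Dx w, h.dx w (hmm.le hw), 0, B.zero_mem,
      by ring⟩) (hmm.mul _ (intCast_mem B _) w hw))

/-- The derivatives in the case without flags. -/
theorem EC.der_zero (h : EC p B x y Dx Dy) (hP : Pt p W B x y) (hε : ε = 0 ∨ ε = 1)
    (hcx : cx.isSome = false) (hcy : cy.isSome = false) (hal : al = 0) (hbe : be = 0)
    (hv : fl cx x * Dx f / (x ^ al * y ^ be) ∈ mm B x y)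
    (hw : fl cy y * Dy f / (x ^ al * y ^ be) ∈ mm B x y) :
    W.valuation (Dx (ε * f / (x ^ al * y ^ be))) < 1 ∧
      W.valuation (Dy (ε * f / (x ^ al * y ^ be))) < 1 := by
  have hfx : fl cx x = 1 := by
    cases cx with
    | none => rfl
    | some a => exact absurd hcx (by simp)
  have hfy : fl cy y = 1 := by
    cases cy with
    | none => rfl
    | some a => exact absurd hcy (by simp)
  rw [hal, hbe, zpow_zero, zpow_zero, mul_one, div_one] at *
  rw [hfx, one_mul] at hv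
  rw [hfy, one_mul] at hw
  have hεB : ε ∈ B := by
    rcases hε with rfl | rfl
    · exact B.zero_mem
    · exact B.one_mem
  rw [der_ε _ hε, der_ε _ hε]
  exact ⟨hP.lt ((Idl.mm h.hx h.hy).mul ε hεB _ hv), hP.lt ((Idl.mm h.hx h.hy).mul ε hεB _ hw)⟩

end Der

end Pool.Agent.H96.S
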