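import Pool.Agent.H96.S.St1

/-!
# The charts of the blowing up at the centre
-/

set_option autoImplicit false
set_option linter.unusedSectionVars false

namespace Pool.Agent.H96.S

open Pool.Agent.H96.VL
open scoped Pointwise

section Units

variable {F : Type} [Field F] {B : Subring F}

/-- Units of a subring. -/
def IsU (B : Subring F) (a : F) : Prop := a ≠ 0 ∧ a ∈ B ∧ a⁻¹ ∈ B

theorem IsU.one : IsU B 1 := ⟨one_ne_zero, B.one_mem, by rw [inv_one]; exact B.one_mem⟩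

theorem IsU.mul {a b : F} (ha : IsU B a) (hb : IsU B b) : IsU B (a * b) :=
  ⟨mul_ne_zero ha.1 hb.1, B.mul_mem ha.2.1 hb.2.1, by
    rw [mul_inv]; exact B.mul_mem ha.2.2 hb.2.2⟩

theorem IsU.inv {a : F} (ha : IsU B a) : IsU B a⁻¹ :=
  ⟨inv_ne_zero ha.1, ha.2.2, by rw [inv_inv]; exact ha.2.1⟩

theorem IsU.pow {a : F} (ha : IsU B a) (n : ℕ) : IsU B (a ^ n) :=
  ⟨pow_ne_zero _ ha.1, B.pow_mem ha.2.1 _, by rw [← inv_pow]; exact B.pow_mem ha.2.2 _⟩

theorem IsU.zpow {a : F} (ha : IsU B a) (n : ℤ) : IsU B (a ^ n) := by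
  obtain ⟨m, rfl | rfl⟩ := n.eq_nat_or_neg
  · rw [zpow_natCast]; exact ha.pow m
  · rw [zpow_neg, zpow_natCast]; exact (ha.pow m).inv

theorem IsU.mono {B' : Subring F} {a : F} (ha : IsU B a) (h : B ≤ B') : IsU B' a :=
  ⟨ha.1, h ha.2.1, h ha.2.2⟩

/-- Rescaling by units. -/
theorem L3_units {u v w κ lam : F} (hκ : IsU B κ) (hl : IsU B lam) :
    L3 B (u * κ) (v * κ) (w * lam) = L3 B u v w := by
  have hκ0 := hκ.1
  have hl0 := hl.1
  ext a
  rw [L3, L3, mem_I3, mem_I3]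
  constructor
  · rintro ⟨b, hb, c, hc, d, hd, rfl⟩
    exact ⟨κ * b, B.mul_mem hκ.2.1 hb, κ * c, B.mul_mem hκ.2.1 hc, lam * d, B.mul_mem hl.2.1 hd,
      by ring⟩
  · rintro ⟨b, hb, c, hc, d, hd, rfl⟩
    refine ⟨κ⁻¹ * b, B.mul_mem hκ.2.2 hb, κ⁻¹ * c, B.mul_mem hκ.2.2 hc, lam⁻¹ * d,
      B.mul_mem hl.2.2 hd, ?_⟩
    field_simp

end Units

section Facts

variable {F : Type} [Field F] {A : Type} {B : Subring F} {x y τ y' : F} {cx cy : Option A}
  {cy' : Option (Option A)} {be be' : ℤ}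

/-- The two kinds of new second coordinates. -/
def K1 (B : Subring F) (τ y' : F) (cy : Option A) (cy' : Option (Option A)) (be be' : ℤ) : Prop :=
  (cy' = cy.map some ∧ y' = τ ∧ be' = be ∧ cy.isSome = true) ∨
    (cy' = none ∧ be' = 0 ∧ (cy = none ∧ be = 0 ∨ IsU B τ))

theorem K1.mn (h : K1 B τ y' cy cy' be be') (hx0 : x ≠ 0) (hy : y = x * τ) {g : F}
    (hg : Mn B cx cy x y g) : Mn B (some none) cy' x y' g := by
  obtain ⟨i, j, h1, h2, c, hc, hc', h0, rfl⟩ := hg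
  rcases h with ⟨rfl, rfl, rfl, h3⟩ | ⟨rfl, rfl, h3⟩
  · refine ⟨i + j, j, fun h => (by cases h), fun h => h2 (map_none_iff.mp h), c, hc, hc', h0, ?_⟩
    rw [hy, mul_zpow, zpow_add₀ hx0]; ring
  · have h4 : IsU B (τ ^ j) := by
      rcases h3 with ⟨h3, -⟩ | h3
      · rw [h2 h3, zpow_zero]; exact IsU.one
      · exact h3.zpow j
    have h5 : IsU B (τ ^ j * c) := h4.mul ⟨h0, hc, hc'⟩
    refine ⟨i + j, 0, fun h => (by cases h), fun _ => rfl, τ ^ j * c, h5.2.1, h5.2.2, h5.1, ?_⟩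
    rw [hy, mul_zpow, zpow_add₀ hx0, zpow_zero]; ring

theorem Mn.mul_unit {cx : Option A} {g κ : F} (hg : Mn B cx cy x y g) (hκ : IsU B κ) :
    Mn B cx cy x y (κ * g) := by
  obtain ⟨i, j, h1, h2, c, hc, hc', h0, rfl⟩ := hg
  have h5 : IsU B (κ * c) := hκ.mul ⟨h0, hc, hc'⟩
  exact ⟨i, j, h1, h2, κ * c, h5.2.1, h5.2.2, h5.1, by ring⟩

theorem Mn.mul_x {a : A} {g : F} (hx0 : x ≠ 0) (hg : Mn B (some a) cy x y g) :
    Mn B (some a) cy x y (x * g) := by
  obtain ⟨i, j, h1, h2, c, hc, hc', h0, rfl⟩ := hg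
  refine ⟨i + 1, j, fun h => (by cases h), h2, c, hc, hc', h0, ?_⟩
  rw [zpow_add_one₀ hx0]; ring

theorem Mn.mul_wX {a : A} {g : F} (hx0 : x ≠ 0) (b : Bool) (hg : Mn B (some a) cy x y g) :
    Mn B (some a) cy x y (wX x b * g) := by
  cases b
  · exact hg.mul_x hx0
  · show Mn B (some a) cy x y (1 * g)
    rw [one_mul]; exact hg

theorem wX_fl2 (o : Option A) {x y τ : F} (hy : y = x * τ) (a : F) :
    wX x o.isSome * cond o.isSome 1 τ * (fl o y * a) = x * (τ * a) := by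
  cases o with
  | none => show x * τ * (1 * a) = _; ring
  | some b => show 1 * 1 * (y * a) = _; rw [hy]; ring

theorem div_unit {a M N κ : F} (hκ : κ ≠ 0) (h : M * κ = N) : a / M = a / N * κ := by
  rw [← h]
  by_cases hM : M = 0
  · rw [hM, zero_mul, div_zero, zero_mul]
  · field_simp

theorem wX_fl (o : Option A) (x a : F) : wX x o.isSome * (fl o x * a) = x * a := by
  cases o with
  | none => show x * (1 * a) = _; rw [one_mul]
  | some b => show 1 * (x * a) = _; rw [one_mul]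

/-- The new monomial. -/
theorem K1.exists_κ (h : K1 B τ y' cy cy' be be') (hx0 : x ≠ 0) (hτ0 : τ ≠ 0) (hy : y = x * τ)
    (al : ℤ) (n : ℕ) : ∃ κ, IsU B κ ∧
      x ^ (al + be + n) * y' ^ be' * κ = x ^ al * y ^ be * x ^ n := by
  rcases h with ⟨rfl, rfl, rfl, h3⟩ | ⟨rfl, rfl, h3⟩
  · refine ⟨1, IsU.one, ?_⟩
    rw [hy, mul_zpow, zpow_add₀ hx0, zpow_add₀ hx0, zpow_natCast]; ring
  · have h4 : IsU B (τ ^ be) := by
      rcases h3 with ⟨-, h3⟩ | h3
      · rw [h3, zpow_zero]; exact IsU.one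
      · exact h3.zpow be
    refine ⟨τ ^ be, h4, ?_⟩
    rw [hy, mul_zpow, zpow_add₀ hx0, zpow_add₀ hx0, zpow_natCast, zpow_zero]; ring

/-- The new second logarithmic derivation. -/
theorem K1.exists_lam (h : K1 B τ y' cy cy' be be') (hy : y = x * τ) : ∃ lam, IsU B lam ∧
      ∀ a : F, fl cy' y' * (x * a) = wX x cy.isSome * (fl cy y * a) * lam := by
  rcases h with ⟨rfl, rfl, rfl, h3⟩ | ⟨rfl, rfl, h3⟩
  · refine ⟨1, IsU.one, fun a => ?_⟩
    cases cy with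
    | none => exact absurd h3 (by simp)
    | some b =>
      show y' * (x * a) = 1 * (y * a) * 1
      rw [hy]; ring
  · cases cy with
    | none =>
      refine ⟨1, IsU.one, fun a => ?_⟩
      show 1 * (x * a) = x * (1 * a) * 1
      ring
    | some b =>
      rcases h3 with ⟨h3, -⟩ | h3
      · cases h3
      · refine ⟨τ⁻¹, h3.inv, fun a => ?_⟩
        have hτ0 := h3.1
        show 1 * (x * a) = 1 * (y * a) * τ⁻¹
        rw [hy]
        field_simp

end Facts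

section Step

variable {p : ℕ} [hp : Fact p.Prime] {F : Type} [Field F] [CharP F p] [DecidableEq F] {s : Finset F}
  {A : Type} [DecidableEq A] {t : A → ValuationSubring F → F} {ε f : F} {G : Finset F}
  {P : Finset (F × F)} {W W₀ W₁ : ValuationSubring F} {c : Finset F} {N : ℕ}

namespace Chart

variable {C : Chart p s t ε f G P} {n : ℕ}

/-- The ring of the blowing up. -/
def Sb (C : Chart p s t ε f G P) : Subring F := adj C.B (C.y / C.x)

theorem yxt (C : Chart p s t ε f G P) : C.y = C.x * (C.y / C.x) := by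
  rw [mul_div_cancel₀ _ C.ec.x0]

theorem Pd.dich (h : C.Pd W₀ n) (hs : ∀ g ∈ s, g ≠ 0) (hW : Vle W₁ C.Sb) :
    (Lc s W₁ = Lc s W₀ ∧ W₁.valuation C.x < 1 ∧ W₁.valuation C.y < 1) ∨
      (Lc s W₁ ≠ Lc s W₀ ∧ W₁.valuation C.x = 1) := by
  have hB : Vle W₁ C.B := hW.mono le_adj
  have ht : W₁.valuation (C.y / C.x) ≤ 1 := hW _ mem_adj
  rcases lt_or_eq_of_le (hB C.x C.ec.hx) with h1 | h1
  · left
    have h2 : W₁.valuation C.y < 1 := by
      rw [C.yxt, map_mul]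
      exact (mul_le_mul' le_rfl ht).trans_lt (by rw [mul_one]; exact h1)
    exact ⟨h.centred hs hB h1 h2, h1, h2⟩
  · right
    refine ⟨fun heq => ?_, h1⟩
    have h2 := (h.of_eq hs heq).2.1
    rw [h1] at h2
    exact lt_irrefl _ h2

/-- The local ring of the blowing up at the centre. -/
theorem Pd.Lc_blow (h : C.Pd W₀ n) (hs : ∀ g ∈ s, g ≠ 0) (hcn : Cn s W₀ c N)
    (hW : Lc s W₁ = Lc s W₀) (ht : W₁.valuation (C.y / C.x) ≤ 1) :
    Gen (vl W₁ (adj (Lc s W₁) (C.y / C.x))) c (C.g ^ N * C.x) ∧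
      Lc (s * c) W₁ = vl W₁ (adj (Lc s W₁) (C.y / C.x)) := by
  obtain ⟨hB, hx, hy⟩ := h.of_eq hs hW
  have hg0 := hs _ C.hg
  obtain ⟨h1, h2⟩ := (hcn W₁ C.g C.hg ((vle_As hg0).mp (hB.mono C.hAs))).2 hW
  have hL := C.Lc_eq hs hB
  refine Lc_blow_eq C.hg hg0 h1 h2 (C.lc W₁ hB C.ec.hx) (C.lc W₁ hB C.ec.hy) hx hy C.ec.x0
    (fun b hb hv => ?_) ht
  rw [hL] at hb ⊢
  exact (h.pt.transfer hB hx hy).max_vl hb hv

theorem Pd.Sb_le (h : C.Pd W₀ n) (hs : ∀ g ∈ s, g ≠ 0) (hcn : Cn s W₀ c N)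
    (hsc : ∃ g ∈ s * c, g ≠ 0) (hW : Vle W₁ C.Sb) : C.Sb ≤ Lc (s * c) W₁ := by
  have hB : Vle W₁ C.B := hW.mono le_adj
  have ht : W₁.valuation (C.y / C.x) ≤ 1 := hW _ mem_adj
  have hle : C.B ≤ Lc (s * c) W₁ := (C.lc W₁ hB).trans (Lc_mul_le hsc W₁)
  rcases h.dich hs hW with ⟨h1, h2, h3⟩ | ⟨h1, h2⟩
  · refine adj_le hle ?_
    rw [(h.Lc_blow hs hcn h1 ht).2]
    exact le_vl mem_adj
  · refine adj_le hle ?_
    exact (lst_Lc hsc W₁).loc.div_mem (hle C.ec.hy) (hle C.ec.hx) h2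

/-- The exceptional curve in the chart. -/
theorem Pd.eW_un (h : C.Pd W₀ n) (hs : ∀ g ∈ s, g ≠ 0) (hcn : Cn s W₀ c N)
    (hsc : ∃ g ∈ s * c, g ≠ 0) (hW : Vle W₁ C.Sb) :
    Un (Lc (s * c) W₁) (eW s W₀ C.x C.y W₁) C.x ∧ Un (Lc (s * c) W₁) (eW s W₀ C.y C.x W₁) C.x := by
  have hle := h.Sb_le hs hcn hsc hW
  have ht : W₁.valuation (C.y / C.x) ≤ 1 := hW _ mem_adj
  have hx0 := C.ec.x0
  have hy0 := C.ec.y0
  rcases h.dich hs hW with ⟨h1, h2, h3⟩ | ⟨h1, h2⟩
  · rw [eW_le h1 ht]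
    refine ⟨Un.refl hx0, ?_⟩
    by_cases h4 : W₁.valuation (C.x / C.y) ≤ 1
    · rw [eW_le h1 h4]
      have h5 : W₁.valuation (C.y / C.x) = 1 := by
        refine le_antisymm ht ?_
        rw [← inv_div, map_inv₀] at h4
        have h6 : 0 < W₁.valuation (C.y / C.x) := by
          rw [Valuation.pos_iff]; exact div_ne_zero hy0 hx0
        exact (inv_le_one₀ h6).mp h4
      have h6 := (lst_Lc hsc W₁).loc.inv _ (hle mem_adj) h5
      rw [inv_div] at h6
      exact ⟨hy0, hx0, hle mem_adj, h6⟩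
    · rw [eW_gt h1 h4]
      exact Un.refl hx0
  · rw [eW_ne h1, eW_ne h1]
    have h3 : C.x ∈ Lc (s * c) W₁ := hle (le_adj C.ec.hx)
    have h4 := (Un.of_unit h3 ((lst_Lc hsc W₁).loc.inv _ h3 h2) hx0).symm
    exact ⟨h4, h4⟩

/-- The new generators. -/
theorem blc_eq (C : Chart p s t ε f G P) {B' : Subring F} {y' : F} {cy' : Option (Option A)}
    {be' : ℤ} (hK : K1 B' (C.y / C.x) y' C.cy cy' C.be be') (m : ℕ) :
    ∃ κ lam, IsU B' κ ∧ IsU B' lam ∧
    ε * f / (C.x ^ (C.al + C.be + m) * y' ^ be') =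
        ε * f / (C.x ^ C.al * C.y ^ C.be) / C.x ^ m * κ ∧
    fl (some none : Option (Option A)) C.x * (C.Dx + (C.y / C.x) • C.Dy) f /
        (C.x ^ (C.al + C.be + m) * y' ^ be') =
        (wX C.x C.cx.isSome * (fl C.cx C.x * C.Dx f / (C.x ^ C.al * C.y ^ C.be)) +
      wX C.x C.cy.isSome * cond C.cy.isSome 1 (C.y / C.x) * (fl C.cy C.y * C.Dy f /
        (C.x ^ C.al * C.y ^ C.be))) / C.x ^ m * κ ∧
    fl cy' y' * (C.x • C.Dy) f / (C.x ^ (C.al + C.be + m) * y' ^ be') =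
        wX C.x C.cy.isSome * (fl C.cy C.y * C.Dy f / (C.x ^ C.al * C.y ^ C.be)) / C.x ^ m *
          (lam * κ) := by
  obtain ⟨κ, hκ, h1⟩ := hK.exists_κ C.ec.x0 (div_ne_zero C.ec.y0 C.ec.x0) C.yxt C.al m
  obtain ⟨lam, hl, h3⟩ := hK.exists_lam C.yxt
  refine ⟨κ, lam, hκ, hl, ?_, ?_, ?_⟩
  · have hκ0 := hκ.1
    rw [div_div, ← h1]
    field_simp
  · rw [div_unit hκ.1 h1, ← mul_div_assoc, ← mul_div_assoc, wX_fl, wX_fl2 _ C.yxt, ← add_div,
        ← mul_add, div_div]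
    rfl
  · have h4 : fl cy' y' * (C.x • C.Dy) f = fl cy' y' * (C.x * C.Dy f) := rfl
    rw [div_unit hκ.1 h1, h4, h3]
    ring

/-- The chart of the blowing up. -/
def blc (C : Chart p s t ε f G P) (hs : ∀ g ∈ s, g ≠ 0) (hcn : Cn s W₀ c N)
    (h : C.Pd W₀ n) {x₀ y₀ : F} {cx₀ cy₀ : Option A}
    (hE : ∀ W₁, Vle W₁ C.Sb → Un (Lc (s * c) W₁) (eW s W₀ x₀ y₀ W₁) C.x)
    (hcc : ∀ b, (cx₀ = some b ∨ cy₀ = some b) ↔ (C.cx = some b ∨ C.cy = some b))
    {d a y' : F} {cy' : Option (Option A)} {be' : ℤ} (hd : d ∈ C.Sb) (hd0 : d ≠ 0)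
    (ha : a ∈ c) (ha0 : a ≠ 0) (hca : ∀ a' ∈ c, a' / a ∈ adj C.Sb d⁻¹)
    (hK : K1 (adj C.Sb d⁻¹) (C.y / C.x) y' C.cy cy' C.be be')
    (hec : EC p (adj C.Sb d⁻¹) C.x y' (C.Dx + (C.y / C.x) • C.Dy) (C.x • C.Dy)) (m : ℕ)
    (hu : ε * f / (C.x ^ C.al * C.y ^ C.be) / C.x ^ m ∈ C.Sb)
    (hv : (wX C.x C.cx.isSome * (fl C.cx C.x * C.Dx f / (C.x ^ C.al * C.y ^ C.be)) +
      wX C.x C.cy.isSome * cond C.cy.isSome 1 (C.y / C.x) * (fl C.cy C.y * C.Dy f /
        (C.x ^ C.al * C.y ^ C.be))) / C.x ^ m ∈ C.Sb)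
    (hw : wX C.x C.cy.isSome * (fl C.cy C.y * C.Dy f / (C.x ^ C.al * C.y ^ C.be)) / C.x ^ m ∈ C.Sb) :
    Chart p (s * c) (tb t s W₀ x₀ y₀ cx₀ cy₀) ε f G P where
  B := adj C.Sb d⁻¹
  g := C.g * a
  x := C.x
  y := y'
  Dx := C.Dx + (C.y / C.x) • C.Dy
  Dy := C.x • C.Dy
  cx := some none
  cy := cy'
  al := C.al + C.be + m
  be := be'
  fg := (C.fg.adj _).adj _
  hg := Finset.mul_mem_mul C.hg ha
  hAs := by
    refine As_le fun g' hg' => ?_
    obtain ⟨g₁, hg₁, a₁, ha₁, rfl⟩ := Finset.mem_mul.mp hg'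
    rw [mul_div_mul_comm]
    exact Subring.mul_mem _ (le_adj (le_adj (C.hAs (mem_As hg₁)))) (hca a₁ ha₁)
  lc := by
    intro W₁ hW
    obtain ⟨h1, h2⟩ := (vle_adj_inv hd hd0).mp hW
    have hsc : ∃ g ∈ s * c, g ≠ 0 := ⟨_, Finset.mul_mem_mul C.hg ha, mul_ne_zero (hs _ C.hg) ha0⟩
    have h3 := h.Sb_le hs hcn hsc h1
    exact adj_le h3 ((lst_Lc hsc W₁).loc.inv d (h3 hd) h2)
  ec := hec
  cxy := by
    rintro b hb hb'
    have hb2 : b = none := by
      rw [Option.some_inj] at hb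
      exact hb.symm
    rw [hb2] at hb'
    rcases hK with ⟨h1, -⟩ | ⟨h1, -⟩
    · rw [h1] at hb'
      exact map_some_none hb'
    · rw [h1] at hb'
      cases hb'
  col := by
    intro b W₁ hW
    obtain ⟨hWS, -⟩ := (vle_adj_inv hd hd0).mp hW
    have hsc : ∃ g ∈ s * c, g ≠ 0 := ⟨_, Finset.mul_mem_mul C.hg ha, mul_ne_zero (hs _ C.hg) ha0⟩
    have hB : Vle W₁ C.B := hWS.mono le_adj
    have hle0 : Lc s W₁ ≤ Lc (s * c) W₁ := Lc_mul_le hsc W₁
    have hle1 := h.Sb_le hs hcn hsc hWS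
    have hle2 : adj C.Sb d⁻¹ ≤ Lc (s * c) W₁ := adj_le hle1 ((lst_Lc hsc W₁).loc.inv d (hle1 hd)
      ((vle_adj_inv hd hd0).mp hW).2)
    have he := hE W₁ hWS
    have hx0 := C.ec.x0
    have hy0 := C.ec.y0
    have hsome : ∀ b, (some none : Option (Option A)) ≠ some (some b) := by
      intro b h
      rw [Option.some_inj] at h
      cases h
    cases b with
    | none =>
      rw [tb_none]
      have h1 : tc (some none) cy' C.x y' (none : Option A) = C.x := by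
        rw [tc, if_pos rfl, if_neg, mul_one]
        intro h2
        rcases hK with ⟨h1, -⟩ | ⟨h1, -⟩
        · rw [h1] at h2
          exact map_some_none h2
        · rw [h1] at h2
          cases h2
      rw [h1]
      exact he
    | some b =>
      have hcol := (C.col b W₁ hB).mono hle0
      have h1 : tc (some none) cy' C.x y' (some b : Option A) =
          if cy' = some (some b) then y' else 1 := by
        rw [tc, if_neg (hsome b), one_mul]
      rw [h1]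
      by_cases hb : cx₀ = some b ∨ cy₀ = some b
      · rw [tb_pos hb]
        rw [hcc] at hb
        refine (hcol.div he).trans ?_
        by_cases hbx : C.cx = some b
        · have hby := C.cxy b hbx
          have h2 : tc C.cx C.cy C.x C.y b = C.x := by
            rw [tc, if_pos hbx, if_neg hby, mul_one]
          have h3 : ¬ cy' = some (some b) := by
            rcases hK with ⟨h3, -⟩ | ⟨h3, -⟩
            · rw [h3]
              exact fun h4 => hby (map_some_iff.mp h4)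
            · rw [h3]
              intro h4; cases h4
          rw [h2, if_neg h3, div_self hx0]
          exact Un.refl one_ne_zero
        · have hby : C.cy = some b := hb.resolve_left hbx
          have h2 : tc C.cx C.cy C.x C.y b = C.y := by
            rw [tc, if_neg hbx, if_pos hby, one_mul]
          rw [h2]
          rcases hK with ⟨h3, h4, -⟩ | ⟨h3, -, h4⟩
          · have h5 : cy' = some (some b) := by rw [h3, hby]; rfl
            rw [if_pos h5, h4]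
            exact Un.refl (div_ne_zero hy0 hx0)
          · have h5 : ¬ cy' = some (some b) := by rw [h3]; intro h6; cases h6
            rw [if_neg h5]
            rcases h4 with ⟨h4, -⟩ | h4
            · rw [h4] at hby; cases hby
            · exact Un.of_unit (hle2 h4.2.1) (hle2 h4.2.2) h4.1
      · rw [tb_neg hb]
        rw [hcc] at hb
        push Not at hb
        have h2 : tc C.cx C.cy C.x C.y b = 1 := by
          rw [tc, if_neg hb.1, if_neg hb.2, mul_one]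
        have h3 : ¬ cy' = some (some b) := by
          rcases hK with ⟨h3, -⟩ | ⟨h3, -⟩
          · rw [h3]
            exact fun h4 => hb.2 (map_some_iff.mp h4)
          · rw [h3]
            intro h4; cases h4
        rw [if_neg h3]
        rw [h2] at hcol
        exact hcol
  al0 := fun h => by cases h
  be0 := by
    intro h1
    rcases hK with ⟨h2, -, h3, h4⟩ | ⟨-, h2, -⟩
    · rw [h2, map_none_iff] at h1
      rw [h1] at h4
      cases h4
    · exact h2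
  hu := by
    obtain ⟨κ, lam, hκ, hl, h1, h2, h3⟩ := C.blc_eq hK m
    rw [h1]
    exact Subring.mul_mem _ (le_adj hu) hκ.2.1
  hv := by
    obtain ⟨κ, lam, hκ, hl, h1, h2, h3⟩ := C.blc_eq hK m
    rw [h2]
    exact Subring.mul_mem _ (le_adj hv) hκ.2.1
  hw := by
    obtain ⟨κ, lam, hκ, hl, h1, h2, h3⟩ := C.blc_eq hK m
    rw [h3]
    exact Subring.mul_mem _ (le_adj hw) (hl.mul hκ).2.1
  mn := fun h hh => hK.mn C.ec.x0 C.yxt ((C.mn h hh).mono (le_adj.trans le_adj))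
  jc := by
    intro ab hab
    obtain ⟨lam, hl, h3⟩ := hK.exists_lam C.yxt
    have h4 := hK.mn C.ec.x0 C.yxt ((C.jc ab hab).mono (le_adj.trans le_adj))
    have h5 := ((h4.mul_wX C.ec.x0 C.cx.isSome).mul_wX C.ec.x0 C.cy.isSome).mul_unit hl
    refine (congrArg (Mn (adj C.Sb d⁻¹) (some none) cy' C.x y') ?_).mp h5
    have h6 : ∀ e : F, fl (some none : Option (Option A)) C.x * (C.Dx + (C.y / C.x) • C.Dy) e =
        wX C.x C.cx.isSome * (fl C.cx C.x * C.Dx e) +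
          wX C.x C.cy.isSome * cond C.cy.isSome 1 (C.y / C.x) * (fl C.cy C.y * C.Dy e) := by
      intro e
      rw [wX_fl, wX_fl2 _ C.yxt, ← mul_add]
      rfl
    have h7 : ∀ e : F, fl cy' y' * (C.x • C.Dy) e =
        wX C.x C.cy.isSome * (fl C.cy C.y * C.Dy e) * lam := fun e => h3 _
    rw [Jc, Jc, h6, h6, h7, h7]
    ring

end Chart

end Step

end Pool.Agent.H96.S
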