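import Pool.Agent.H96.S.St2

/-!
# The drop of the measure at the centre
-/

set_option autoImplicit false
set_option linter.unusedSectionVars false

namespace Pool.Agent.H96.S

open Pool.Agent.H96.VL
open scoped Pointwise

section Step

variable {p : ℕ} [hp : Fact p.Prime] {F : Type} [Field F] [CharP F p] [DecidableEq F] {s : Finset F}
  {A : Type} [DecidableEq A] {t : A → ValuationSubring F → F} {ε f : F} {G : Finset F}
  {P : Finset (F × F)} {W W₀ W₁ : ValuationSubring F} {c : Finset F} {N : ℕ}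

/-- **The drop of the measure.** -/
theorem Chart.step (C : Chart p s t ε f G P) (hε : ε = 0 ∨ ε = 1) (hs : ∀ g ∈ s, g ≠ 0)
    (hcn : Cn s W₀ c N) {n : ℕ} (h : C.Pd W₀ n) (hng : ¬ C.Good) (hW : Lc s W = Lc s W₀)
    (ht : W.valuation (C.y / C.x) ≤ 1)
    (ht' : C.cx.isSome = false → C.cy.isSome = true → W.valuation (C.y / C.x) < 1)
    {x₀ y₀ : F} {cx₀ cy₀ : Option A}
    (hE : ∀ W₁, (∃ g ∈ s * c, g ≠ 0) → Vle W₁ C.Sb → Un (Lc (s * c) W₁) (eW s W₀ x₀ y₀ W₁) C.x)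
    (hcc : ∀ b, (cx₀ = some b ∨ cy₀ = some b) ↔ (C.cx = some b ∨ C.cy = some b)) :
    ∃ (C' : Chart p (s * c) (tb t s W₀ x₀ y₀ cx₀ cy₀) ε f G P) (W' : ValuationSubring F) (n' : ℕ),
      C.B ≤ C'.B ∧ n' < n ∧ Vle W C'.B ∧ C'.Pd W' n' := by
  classical
  obtain ⟨hB, hx, hy⟩ := h.of_eq hs hW
  have hP : Pt p W C.B C.x C.y := h.pt.transfer hB hx hy
  obtain ⟨m₀, hxm, hym⟩ := h.m
  have hLm : C.L ≤ mm C.B C.x C.y := hP.le_mm C.ec.hx C.ec.hy C.idl hxm hym hng
  have hx0 := C.ec.x0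
  have hy0 := C.ec.y0
  set τ := C.y / C.x with hτ
  have hyt : C.y = C.x * τ := C.yxt
  set S := C.Sb with hS
  have hBS : C.B ≤ S := le_adj
  have hτS : τ ∈ S := mem_adj
  set u := ε * f / (C.x ^ C.al * C.y ^ C.be) with hu
  set v := fl C.cx C.x * C.Dx f / (C.x ^ C.al * C.y ^ C.be) with hv
  set w := fl C.cy C.y * C.Dy f / (C.x ^ C.al * C.y ^ C.be) with hw
  have hLdef : C.L = L3 C.B u v w := rfl
  have hwm : w ∈ mm C.B C.x C.y := hLm (mem_I3.mpr ⟨0, C.B.zero_mem, 0, C.B.zero_mem, 1,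
    C.B.one_mem, by rw [hw]; ring⟩)
  have hvm : v ∈ mm C.B C.x C.y := hLm (mem_I3.mpr ⟨0, C.B.zero_mem, 1, C.B.one_mem, 0,
    C.B.zero_mem, by rw [hv]; ring⟩)
  have hcy0 : C.cy.isSome = false → C.be = 0 := fun h1 => C.be0 (by
    cases hc : C.cy with
    | none => rfl
    | some b => rw [hc] at h1; cases h1)
  have hcx0 : C.cx.isSome = false → C.al = 0 := fun h1 => C.al0 (by
    cases hc : C.cx with
    | none => rfl
    | some b => rw [hc] at h1; cases h1)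
  obtain ⟨n₀, hn1, hT0, hdrop⟩ := C.ec.drop hP ht C.hu C.hv C.hw hLm hxm hym C.cx.isSome
    C.cy.isSome (fun h1 h2 => C.ec.der_one hP hε h1 h2 (hcy0 h2) hwm)
    (fun h1 h2 => C.ec.der_zero hP hε h1 h2 (hcx0 h1) (hcy0 h2) hvm hwm)
  set I := I3 (wt C.B C.x C.y C.cx.isSome) (wt C.B C.x C.y C.cy.isSome) C.B u v w with hI
  have hTeq := tr_I3 (B := C.B) (S := S) (u := u) (v := v) (w := w) hBS C.ec.hx hx0 hτS hyt
    C.cx.isSome C.cy.isSome n₀
  set u' := u / C.x ^ n₀ with hu'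
  set v' := (wX C.x C.cx.isSome * v + wX C.x C.cy.isSome * cond C.cy.isSome 1 τ * w) / C.x ^ n₀
    with hv'
  set w' := wX C.x C.cy.isSome * w / C.x ^ n₀ with hw'
  -- the new generators are in the ring
  have hxn := pow_ne_zero n₀ hx0
  have hdivI : ∀ i ∈ I, i / C.x ^ n₀ ∈ S := by
    intro i hi
    obtain ⟨r, hr, h1⟩ := (hn1 i hi).mul hx0
    rw [h1, mul_div_cancel_left₀ _ hxn]
    exact hr
  have hwX : ∀ b : Bool, wX C.x b ∈ wt C.B C.x C.y b := by
    intro b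
    cases b
    · exact mem_mm.mpr ⟨1, C.B.one_mem, 0, C.B.zero_mem, by show C.x = _; ring⟩
    · exact C.B.one_mem
  have hz : ∀ b : Bool, (0 : F) ∈ wt C.B C.x C.y b := fun b => AddSubgroup.zero_mem _
  have huS : u' ∈ S := hdivI u (mem_I3.mpr ⟨1, C.B.one_mem, 0, hz _, 0, hz _, by ring⟩)
  have hXv : wX C.x C.cx.isSome * v / C.x ^ n₀ ∈ S :=
    hdivI _ (mem_I3.mpr ⟨0, C.B.zero_mem, _, hwX _, 0, hz _, by ring⟩)
  have hwS : w' ∈ S := hdivI _ (mem_I3.mpr ⟨0, C.B.zero_mem, 0, hz _, _, hwX _, by ring⟩)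
  have hvS : v' ∈ S := by
    have h1 : v' = wX C.x C.cx.isSome * v / C.x ^ n₀ + cond C.cy.isSome 1 τ * w' := by
      rw [hv', hw']; ring
    rw [h1]
    refine S.add_mem hXv (S.mul_mem ?_ hwS)
    cases C.cy.isSome
    · exact hτS
    · exact S.one_mem
  have hTi : Idl S (L3 S u' v' w') := Idl.L3 huS hvS hwS
  rw [show adj C.B (C.y / C.x) = S from rfl, hTeq] at hT0 hdrop
  -- the closed centre
  have hWS : Vle W S := vle_adj.mpr ⟨hB, ht⟩
  obtain ⟨W', hW'S, hclo', hsp⟩ := exists_clo (p := p) (C.fg.adj τ) hWS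
  have hx' : W'.valuation C.x < 1 := hsp _ (hBS C.ec.hx) hx
  have hy' : W'.valuation C.y < 1 := hsp _ (hBS C.ec.hy) hy
  have hW'0 : Lc s W' = Lc s W₀ := h.centred hs (hW'S.mono hBS) hx' hy'
  have hτ' : W'.valuation τ ≤ 1 := hW'S _ hτS
  -- the coordinate
  obtain ⟨y', cy', be', hy'S, hy'v, hec, E₀, hE₀, hK, hfl⟩ : ∃ (y' : F) (cy' : Option (Option A))
      (be' : ℤ), y' ∈ S ∧ W'.valuation y' < 1 ∧ EC p S C.x y' (C.Dx + τ • C.Dy) (C.x • C.Dy) ∧
      ∃ E₀ : Finset F, (∀ e ∈ E₀, e ∈ vl W' S) ∧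
        (∀ B' : Subring F, S ≤ B' → (∀ e ∈ E₀, e ∈ B') → K1 B' τ y' C.cy cy' C.be be') ∧
        (C.cx.isSome = false → C.cy.isSome = true → cy'.isSome = true) := by
    by_cases hA : C.cy.isSome = true ∧ W'.valuation τ < 1
    · refine ⟨τ, C.cy.map some, C.be, hτS, hA.2, C.ec.blow, ∅, fun e he =>
        absurd he (Finset.notMem_empty e), fun B' _ _ => Or.inl ⟨rfl, rfl, rfl, hA.1⟩, fun _ _ => ?_⟩
      rw [Option.isSome_map]; exact hA.1
    · obtain ⟨k, hk, hq⟩ := hclo'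
      have h1 : τ ^ p ^ (k - 1) ∈ S := S.pow_mem hτS _
      have h2 : (τ ^ p ^ (k - 1)) ^ p = τ ^ p ^ k := by
        rw [← pow_mul, ← pow_succ]
        congr 2
        omega
      have hy'v : W'.valuation (τ - (τ ^ p ^ (k - 1)) ^ p) < 1 := by
        rw [h2, ← Valuation.map_neg, neg_sub]
        exact hq τ hτS
      have hτ0 : τ ≠ 0 := div_ne_zero hy0 hx0
      by_cases hcs : C.cy.isSome = true
      · have hτ1 : W'.valuation τ = 1 := le_antisymm hτ' (not_lt.mp fun h3 => hA ⟨hcs, h3⟩)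
        refine ⟨τ - (τ ^ p ^ (k - 1)) ^ p, none, 0, S.sub_mem hτS (S.pow_mem h1 _), hy'v,
          (C.ec.blow.swap.sub_pow h1).swap, {τ⁻¹}, fun e he => ?_, fun B' hB' hE => ?_,
          fun h3 h4 => ?_⟩
        · rw [Finset.mem_singleton.mp he]
          exact inv_mem_vl hτS hτ1
        · exact Or.inr ⟨rfl, rfl, Or.inr ⟨hτ0, hB' hτS, hE _ (Finset.mem_singleton_self _)⟩⟩
        · exfalso
          exact hA ⟨h4, hsp τ hτS (ht' h3 h4)⟩
      · have hcn' : C.cy = none := by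
          cases hc : C.cy with
          | none => rfl
          | some b => rw [hc] at hcs; exact absurd rfl hcs
        exact ⟨τ - (τ ^ p ^ (k - 1)) ^ p, none, 0, S.sub_mem hτS (S.pow_mem h1 _), hy'v,
          (C.ec.blow.swap.sub_pow h1).swap, ∅, fun e he => absurd he (Finset.notMem_empty e),
          fun B' hB' hE => Or.inr ⟨rfl, rfl, Or.inl ⟨hcn', C.be0 hcn'⟩⟩, fun h3 h4 =>
          absurd h4 hcs⟩
  -- the localization
  obtain ⟨E₁, hE₁, hpt⟩ := hec.exists_pt (C.fg.adj τ) hW'S hclo' hx' hy'v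
  obtain ⟨i₁, e₁, he₁, he₁1, hi₁⟩ := exists_pow_mem hTi hT0 hW'S (hBS C.ec.hx) hx'
  obtain ⟨i₂, e₂, he₂, he₂1, hi₂⟩ := exists_pow_mem hTi hT0 hW'S hy'S hy'v
  have hg0 := hs _ C.hg
  obtain ⟨hG, hLcb⟩ := h.Lc_blow hs hcn hW'0 hτ'
  have hle1 : vl W' (adj (Lc s W') (C.y / C.x)) ≤ vl W' S := by
    refine vl_le (vlocal_vl hW'S) (adj_le ?_ (le_vl hτS))
    rw [C.Lc_eq hs (hW'S.mono hBS)]
    exact vl_mono hBS
  have hG' := hG.mono hle1
  have hloc : VLocal W' (vl W' S) := vlocal_vl hW'S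
  obtain ⟨a, ha, ha0, hva, -⟩ := hG'.exists_eq hloc
  have hG2 := hG'.of_max hloc ha fun a' ha' => by rw [hva]; exact hG'.val_le hloc ha'
  obtain ⟨d, hd, hd1, hden⟩ := exists_den hW'S (E₀ ∪ (E₁ ∪ ({e₁⁻¹, e₂⁻¹} ∪ c.image (· / a)))) (by
    intro e he
    rcases Finset.mem_union.mp he with he | he
    · exact hE₀ e he
    rcases Finset.mem_union.mp he with he | he
    · exact hE₁ e he
    rcases Finset.mem_union.mp he with he | he
    · rcases Finset.mem_insert.mp he with rfl | he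
      · exact inv_mem_vl he₁ he₁1
      · rw [Finset.mem_singleton.mp he]
        exact inv_mem_vl he₂ he₂1
    · obtain ⟨a', ha', rfl⟩ := Finset.mem_image.mp he
      exact hG2.mem a' ha')
  have hd0 : d ≠ 0 := by
    rintro rfl
    rw [map_zero] at hd1
    exact zero_ne_one hd1
  have hall : ∀ e ∈ E₀ ∪ (E₁ ∪ ({e₁⁻¹, e₂⁻¹} ∪ c.image (· / a))), e ∈ adj S d⁻¹ := by
    intro e he
    have h4 := Subring.mul_mem _ (mem_adj (B := S) (t := d⁻¹)) (le_adj (hden e he))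
    rwa [← mul_assoc, inv_mul_cancel₀ hd0, one_mul] at h4
  have hK' := hK (adj S d⁻¹) le_adj fun e he => hall e (Finset.mem_union_left _ he)
  have hpt' := hpt d hd hd1 fun e he => hall e (Finset.mem_union_right _ (Finset.mem_union_left _ he))
  have hca : ∀ a' ∈ c, a' / a ∈ adj S d⁻¹ := fun a' ha' => hall _ (Finset.mem_union_right _
    (Finset.mem_union_right _ (Finset.mem_union_right _ (Finset.mem_image.mpr ⟨a', ha', rfl⟩))))
  have hsc : ∃ g ∈ s * c, g ≠ 0 := ⟨_, Finset.mul_mem_mul C.hg ha, mul_ne_zero hg0 ha0⟩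
  set C' := C.blc hs hcn h (fun W₁ hW₁ => hE W₁ hsc hW₁) hcc hd hd0 ha ha0 hca hK'
    (hec.adj_inv hd hd0) n₀ huS hvS hwS with hC'
  have hC'B : C'.B = adj S d⁻¹ := rfl
  have hC'x : C'.x = C.x := rfl
  have hC'y : C'.y = y' := rfl
  have hL' : C'.L = L3 (adj S d⁻¹) u' v' w' := by
    obtain ⟨κ, lam, hκ, hl, h1, h2, h3⟩ := C.blc_eq hK' n₀
    have h4 : C'.L = L3 (adj S d⁻¹) (ε * f / (C.x ^ (C.al + C.be + n₀) * y' ^ be'))
        (fl (some none : Option (Option A)) C.x * (C.Dx + (C.y / C.x) • C.Dy) f /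
        (C.x ^ (C.al + C.be + n₀) * y' ^ be'))
        (fl cy' y' * (C.x • C.Dy) f / (C.x ^ (C.al + C.be + n₀) * y' ^ be')) := rfl
    rw [h4, h1, h2, h3]
    exact L3_units hκ (hl.mul hκ)
  have hTL : L3 S u' v' w' ≤ C'.L := by
    rw [hL']
    exact L3_mono le_adj
  have hidx : C'.L.relIndex (adj S d⁻¹).toAddSubgroup ≤ (L3 S u' v' w').relIndex S.toAddSubgroup :=
    (idx_loc hd hd0 hTi C'.idl hTL hT0).2
  have hWd : W.valuation d = 1 := by
    refine le_antisymm (hWS d hd) (not_lt.mp fun h1 => ?_)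
    have h2 := hsp d hd h1
    rw [hd1] at h2
    exact lt_irrefl _ h2
  refine ⟨C', W', C'.Φ, hBS.trans le_adj, ?_, (vle_adj_inv hd hd0).mpr ⟨hWS, hWd⟩, hpt', ?_, le_rfl⟩
  · -- the measure
    have hΦC := h.le
    have hΦ' : C'.Φ = 2 * C'.L.relIndex (adj S d⁻¹).toAddSubgroup +
        if C'.cx.isSome = true ∧ C'.cy.isSome = true then 0 else 1 := rfl
    have hΦ : C.Φ = 2 * C.L.relIndex C.B.toAddSubgroup +
        if C.cx.isSome = true ∧ C.cy.isSome = true then 0 else 1 := rfl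
    rcases hdrop with h1 | ⟨h1, h2, h3⟩
    · have h4 : (if C'.cx.isSome = true ∧ C'.cy.isSome = true then 0 else 1) ≤ 1 := by
        split_ifs <;> omega
      rw [← hLdef] at h1
      omega
    · have h4 : C'.cx.isSome = true ∧ C'.cy.isSome = true := ⟨rfl, hfl h1 h2⟩
      have h5 : ¬ (C.cx.isSome = true ∧ C.cy.isSome = true) := by
        rw [h1]; intro h6; cases h6.1
      rw [if_pos h4] at hΦ'
      rw [if_neg h5] at hΦ
      rw [← hLdef] at h3
      omega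
  · have h1 : C.x ^ i₁ ∈ C'.L := by
      have h2 := C'.idl.mul e₁⁻¹ (hall _ (Finset.mem_union_right _ (Finset.mem_union_right _
        (Finset.mem_union_left _ (Finset.mem_insert_self _ _))))) _ (hTL hi₁)
      have h3 : e₁ ≠ 0 := by
        rintro rfl
        rw [map_zero] at he₁1
        exact zero_ne_one he₁1
      rwa [← mul_assoc, inv_mul_cancel₀ h3, one_mul] at h2
    have h2 : y' ^ i₂ ∈ C'.L := by
      have h2 := C'.idl.mul e₂⁻¹ (hall _ (Finset.mem_union_right _ (Finset.mem_union_right _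
        (Finset.mem_union_left _ (Finset.mem_insert_of_mem (Finset.mem_singleton_self _)))))) _
        (hTL hi₂)
      have h3 : e₂ ≠ 0 := by
        rintro rfl
        rw [map_zero] at he₂1
        exact zero_ne_one he₂1
      rwa [← mul_assoc, inv_mul_cancel₀ h3, one_mul] at h2
    refine ⟨max i₁ i₂, ?_, ?_⟩
    · have h3 : C.x ^ max i₁ i₂ = C.x ^ (max i₁ i₂ - i₁) * C.x ^ i₁ := by
        rw [← pow_add]
        congr 1
        have := le_max_left i₁ i₂
        omega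
      show C.x ^ max i₁ i₂ ∈ C'.L
      rw [h3]
      exact C'.idl.mul _ (C'.B.pow_mem C'.ec.hx _) _ h1
    · have h3 : y' ^ max i₁ i₂ = y' ^ (max i₁ i₂ - i₂) * y' ^ i₂ := by
        rw [← pow_add]
        congr 1
        have := le_max_right i₁ i₂
        omega
      show y' ^ max i₁ i₂ ∈ C'.L
      rw [h3]
      exact C'.idl.mul _ (C'.B.pow_mem C'.ec.hy _) _ h2

end Step

end Pool.Agent.H96.S
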