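import Pool.Agent.H96.S.Root

/-!
# The transition: the new colour
-/

set_option autoImplicit false
set_option linter.unusedSectionVars false

namespace Pool.Agent.H96.S

open Polynomial Pool.Agent.H96.VL
open scoped Pointwise

section Stage1

variable {k F : Type} [Field k] [Fintype k] [DecidableEq k] [Field F] [DecidableEq F] [Algebra k F]
  {p : ℕ} [hp : Fact p.Prime] [CharP F p] [CharP k p] {u v : F}

/-- **The first stage.** -/
theorem stage1 (h : Gn k u v) {a : k[X][X]} (ha : Squarefree a) (ha0 : a ≠ 0) :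
    ∃ (s : Finset F) (A : Type) (_ : DecidableEq A) (_ : Finite A)
      (t : A → ValuationSubring F → F), (∀ g ∈ s, g ≠ 0) ∧ Dv s t u ∧ Dv s t v ∧
      (∀ (W : ValuationSubring F) (c : k), algebraMap k F c ∈ Lc s W) ∧
      ∀ W, ∃ C : Chart p s t 1 (ev k u v a) ∅ {(u, v)}, Vle W C.B ∧ C.Good := by
  obtain ⟨n, hn⟩ := exists_hn (p := p) (root_chart h ha ha0)
  obtain ⟨c, A, i1, i2, t, hc0, hDv, hC⟩ := descent (Or.inr rfl) n 0 (sR k u v) Bool inferInstance
    inferInstance (tR u v) (sR_ne h.u0 h.v0) hn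
  refine ⟨sR k u v * c, A, i1, i2, t, fun g hg => ?_, hDv u (Dv_u p h), hDv v (Dv_v p h),
    fun W b => ?_, hC⟩
  · obtain ⟨a, ha, b, hb, rfl⟩ := Finset.mem_mul.mp hg
    exact mul_ne_zero (sR_ne h.u0 h.v0 a ha) (hc0 b hb)
  · have hsc : ∃ g ∈ sR k u v * c, g ≠ 0 := by
      obtain ⟨C, -, -⟩ := hC ⊤
      obtain ⟨a, ha, b, hb, h1⟩ := Finset.mem_mul.mp C.hg
      exact ⟨C.g, C.hg, by rw [← h1]; exact mul_ne_zero (sR_ne h.u0 h.v0 a ha) (hc0 b hb)⟩
    obtain ⟨C, hC1, -⟩ := root_chart (p := p) h ha ha0 W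
    refine Lc_mul_le hsc W (C.lc W hC1 (C.hAs ?_))
    by_cases hb : b = 0
    · rw [hb, map_zero]; exact Subring.zero_mem _
    · have hg0 := sR_ne (k := k) h.u0 h.v0 _ C.hg
      obtain ⟨c', hc', m, hm, m', hm', h1⟩ := mem_sR.mp C.hg
      have h2 : algebraMap k F b = algebraMap k F (b * c') * (m * m') / C.g := by
        rw [eq_div_iff hg0]
        conv_lhs => rw [h1]
        rw [map_mul]; ring
      rw [h2]
      exact mem_As (mem_sR.mpr ⟨b * c', mul_ne_zero hb hc', m, hm, m', hm', rfl⟩)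

end Stage1

section Log

variable {p : ℕ} [hp : Fact p.Prime] {F : Type} [Field F] [CharP F p] {s : Finset F}
  {A : Type} [DecidableEq A] {t : A → ValuationSubring F → F} {ε f : F} {G : Finset F}
  {P : Finset (F × F)} {W W' : ValuationSubring F}

theorem fl_mem {R : Subring F} {cx : Option A} {x : F} (hx : x ∈ R) : fl cx x ∈ R := by
  cases cx with
  | none => exact R.one_mem
  | some a => exact hx

theorem fl_ne {cx : Option A} {x : F} (hx : x ≠ 0) : fl cx x ≠ 0 := by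
  cases cx with
  | none => exact one_ne_zero
  | some a => exact hx

namespace Chart

variable (C : Chart p s t ε f G P)

theorem ecL (hs : ∀ g ∈ s, g ≠ 0) (hW : Vle W C.B) : EC p (Lc s W) C.x C.y C.Dx C.Dy := by
  rw [C.Lc_eq hs hW]
  exact C.ec.vl

/-- The logarithmic derivations and the colours. -/
theorem log_tc (hs : ∀ g ∈ s, g ≠ 0) (hW : Vle W C.B) {T : F} {a : A}
    (hT : Un (Lc s W) T (tc C.cx C.cy C.x C.y a)) :
    (∃ r ∈ Lc s W, fl C.cx C.x * C.Dx T = T * r) ∧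
      ∃ r ∈ Lc s W, fl C.cy C.y * C.Dy T = T * r := by
  have hec := C.ecL hs hW
  have hx0 := C.ec.x0
  have hy0 := C.ec.y0
  have key : ∀ (D : Derivation ℤ F F) (c : F), c ∈ Lc s W → (∀ b ∈ Lc s W, D b ∈ Lc s W) →
      (∃ r ∈ Lc s W, c * D (tc C.cx C.cy C.x C.y a) = tc C.cx C.cy C.x C.y a * r) →
      ∃ r ∈ Lc s W, c * D T = T * r := by
    rintro D c hc hD ⟨r, hr, h1⟩
    have hb0 := hT.b0
    have ha0 := hT.a0
    have h2 : T = tc C.cx C.cy C.x C.y a * (T / tc C.cx C.cy C.x C.y a) := by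
      rw [mul_div_cancel₀ _ hb0]
    refine ⟨r + c * D (T / tc C.cx C.cy C.x C.y a) * (tc C.cx C.cy C.x C.y a / T),
      Subring.add_mem _ hr (Subring.mul_mem _ (Subring.mul_mem _ hc (hD _ hT.ab)) hT.ba), ?_⟩
    have h3 : D T = tc C.cx C.cy C.x C.y a * D (T / tc C.cx C.cy C.x C.y a) +
        T / tc C.cx C.cy C.x C.y a * D (tc C.cx C.cy C.x C.y a) := by
      conv_lhs => rw [h2]
      rw [Derivation.leibniz, smul_eq_mul, smul_eq_mul]
    rw [h3, mul_add]
    have h4 : c * (T / tc C.cx C.cy C.x C.y a * D (tc C.cx C.cy C.x C.y a)) =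
        T / tc C.cx C.cy C.x C.y a * (c * D (tc C.cx C.cy C.x C.y a)) := by ring
    rw [h4, h1]
    field_simp
    ring
  constructor
  · refine key C.Dx _ (fl_mem hec.hx) hec.dx ?_
    by_cases h1 : C.cx = some a
    · have h2 := C.cxy a h1
      have h3 : tc C.cx C.cy C.x C.y a = C.x := by rw [tc, if_pos h1, if_neg h2, mul_one]
      rw [h3, C.ec.xx, mul_one]
      refine ⟨1, Subring.one_mem _, ?_⟩
      rw [h1, mul_one]; rfl
    · refine ⟨0, Subring.zero_mem _, ?_⟩
      have h3 : C.Dx (tc C.cx C.cy C.x C.y a) = 0 := by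
        rw [tc, if_neg h1, one_mul]
        split_ifs
        · exact C.ec.xy
        · exact Derivation.map_one_eq_zero _
      rw [h3, mul_zero, mul_zero]
  · refine key C.Dy _ (fl_mem hec.hy) hec.dy ?_
    by_cases h1 : C.cy = some a
    · have h2 : ¬ C.cx = some a := fun h => C.cxy a h h1
      have h3 : tc C.cx C.cy C.x C.y a = C.y := by rw [tc, if_pos h1, if_neg h2, one_mul]
      rw [h3, C.ec.yy, mul_one]
      refine ⟨1, Subring.one_mem _, ?_⟩
      rw [h1, mul_one]; rfl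
    · refine ⟨0, Subring.zero_mem _, ?_⟩
      have h3 : C.Dy (tc C.cx C.cy C.x C.y a) = 0 := by
        rw [tc, if_neg h1, mul_one]
        split_ifs
        · exact C.ec.yx
        · exact Derivation.map_one_eq_zero _
      rw [h3, mul_zero, mul_zero]

/-- The logarithmic derivations of one chart are combinations of those of the other chart. -/
theorem log_mem (hs : ∀ g ∈ s, g ≠ 0) (hW : Vle W C.B) {ε' f' : F} {G' : Finset F}
    {P' : Finset (F × F)} (C' : Chart p s t ε' f' G' P') (hW' : Vle W C'.B) (w : F) :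
    (∃ a ∈ Lc s W, ∃ b ∈ Lc s W, fl C'.cx C'.x * C'.Dx w =
      a * (fl C.cx C.x * C.Dx w) + b * (fl C.cy C.y * C.Dy w)) ∧
    ∃ a ∈ Lc s W, ∃ b ∈ Lc s W, fl C'.cy C'.y * C'.Dy w =
      a * (fl C.cx C.x * C.Dx w) + b * (fl C.cy C.y * C.Dy w) := by
  have hec := C.ecL hs hW
  have hec' := C'.ecL hs hW'
  have key : ∀ (c : F) (D : Derivation ℤ F F), c ∈ Lc s W → (∀ b ∈ Lc s W, D b ∈ Lc s W) →
      (∀ T a, Un (Lc s W) T (tc C'.cx C'.cy C'.x C'.y a) → ∃ r ∈ Lc s W, c * D T = T * r) →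
      ∃ a ∈ Lc s W, ∃ b ∈ Lc s W, c * D w =
      a * (fl C.cx C.x * C.Dx w) + b * (fl C.cy C.y * C.Dy w) := by
    intro c D hc hD hl
    have h1 : ∃ a ∈ Lc s W, c * D C.x = a * fl C.cx C.x := by
      cases hcx : C.cx with
      | none => exact ⟨c * D C.x, Subring.mul_mem _ hc (hD _ hec.hx), (mul_one _).symm⟩
      | some b =>
        obtain ⟨r, hr, h2⟩ := hl C.x b ((by
          have h3 : tc C.cx C.cy C.x C.y b = C.x := by
            rw [tc, if_pos hcx, if_neg (C.cxy b hcx), mul_one]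
          have h4 := (C.col b W hW).symm
          rw [h3] at h4
          exact h4.trans (C'.col b W hW')))
        exact ⟨r, hr, by rw [h2, mul_comm]; rfl⟩
    have h2 : ∃ a ∈ Lc s W, c * D C.y = a * fl C.cy C.y := by
      cases hcy : C.cy with
      | none => exact ⟨c * D C.y, Subring.mul_mem _ hc (hD _ hec.hy), (mul_one _).symm⟩
      | some b =>
        obtain ⟨r, hr, h2⟩ := hl C.y b ((by
          have h3 : tc C.cx C.cy C.x C.y b = C.y := by
            rw [tc, if_pos hcy, if_neg (fun h => C.cxy b h hcy), one_mul]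
          have h4 := (C.col b W hW).symm
          rw [h3] at h4
          exact h4.trans (C'.col b W hW')))
        exact ⟨r, hr, by rw [h2, mul_comm]; rfl⟩
    obtain ⟨a, ha, h1⟩ := h1
    obtain ⟨b, hb, h2⟩ := h2
    refine ⟨a, ha, b, hb, ?_⟩
    rw [C.ec.der D w]
    linear_combination C.Dx w * h1 + C.Dy w * h2
  exact ⟨key _ _ (fl_mem hec'.hx) hec'.dx fun T a hT => (C'.log_tc hs hW' hT).1,
    key _ _ (fl_mem hec'.hy) hec'.dy fun T a hT => (C'.log_tc hs hW' hT).2⟩

/-- The monomial of a chart. -/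
def N (C : Chart p s t ε f G P) : F := C.x ^ C.al * C.y ^ C.be

theorem N0 : C.N ≠ 0 := mul_ne_zero (zpow_ne_zero _ C.ec.x0) (zpow_ne_zero _ C.ec.y0)

/-- **Uniqueness of the monomial.** -/
theorem N_un (hs : ∀ g ∈ s, g ≠ 0) (hW : Vle W C.B) (hg : C.Good)
    {G' : Finset F} {P' : Finset (F × F)} (C' : Chart p s t ε f G' P') (hW' : Vle W C'.B)
    (hg' : C'.Good) : Un (Lc s W) C.N C'.N := by
  have key : ∀ {G : Finset F} {P : Finset (F × F)} (C : Chart p s t ε f G P) {G' : Finset F}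
      {P' : Finset (F × F)} (C' : Chart p s t ε f G' P'), Vle W C.B → Vle W C'.B →
      C'.Good → C'.N / C.N ∈ Lc s W := by
    intro G P C G' P' C' hW hW' hg'
    obtain ⟨b, hb, c, hc, d, hd, h1⟩ := C'.mem_L.mp hg'
    have hb' := C'.lc W hW' hb
    have hc' := C'.lc W hW' hc
    have hd' := C'.lc W hW' hd
    have hN0 := C.N0
    have hN0' := C'.N0
    have hu : ε * f / C.N ∈ Lc s W := C.lc W hW C.hu
    have hv : fl C.cx C.x * C.Dx f / C.N ∈ Lc s W := C.lc W hW C.hv
    have hw : fl C.cy C.y * C.Dy f / C.N ∈ Lc s W := C.lc W hW C.hw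
    obtain ⟨⟨a₁, ha₁, b₁, hb₁, h2⟩, a₂, ha₂, b₂, hb₂, h3⟩ := C.log_mem hs hW C' hW' f
    have h4 : C'.N / C.N = ε * f / C.N * b + (a₁ * (fl C.cx C.x * C.Dx f / C.N) +
        b₁ * (fl C.cy C.y * C.Dy f / C.N)) * c + (a₂ * (fl C.cx C.x * C.Dx f / C.N) +
        b₂ * (fl C.cy C.y * C.Dy f / C.N)) * d := by
      have h5 : C'.N = ε * f * b + fl C'.cx C'.x * C'.Dx f * c + fl C'.cy C'.y * C'.Dy f * d := by
        have h6 : C'.N * 1 = C'.N * (ε * f / C'.N * b + fl C'.cx C'.x * C'.Dx f / C'.N * c +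
            fl C'.cy C'.y * C'.Dy f / C'.N * d) := congrArg (C'.N * ·) h1
        rw [mul_one] at h6
        rw [h6]
        field_simp
      rw [h5, h2, h3]
      field_simp
    rw [h4]
    exact Subring.add_mem _ (Subring.add_mem _ (Subring.mul_mem _ hu hb') (Subring.mul_mem _
      (Subring.add_mem _ (Subring.mul_mem _ ha₁ hv) (Subring.mul_mem _ hb₁ hw)) hc'))
      (Subring.mul_mem _ (Subring.add_mem _ (Subring.mul_mem _ ha₂ hv) (Subring.mul_mem _ hb₂ hw))
      hd')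
  exact ⟨C.N0, C'.N0, key C' C hW' hW hg, key C C' hW hW' hg'⟩

end Chart

end Log

section Mono

variable {p : ℕ} [hp : Fact p.Prime] {F : Type} [Field F] [CharP F p] {A A' : Type}
  [DecidableEq A] [DecidableEq A'] {R : Subring F} {x y : F} {cx cy : Option A}

theorem Mn.fx {a : A} (hc : cx = some a) : Mn R cx cy x y x :=
  ⟨1, 0, fun h => (by rw [h] at hc; cases hc), fun _ => rfl, 1, R.one_mem, (by
    rw [inv_one]; exact R.one_mem), one_ne_zero, by simp⟩

theorem Mn.fy {a : A} (hc : cy = some a) : Mn R cx cy x y y :=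
  ⟨0, 1, fun _ => rfl, fun h => (by rw [h] at hc; cases hc), 1, R.one_mem, (by
    rw [inv_one]; exact R.one_mem), one_ne_zero, by simp⟩

theorem Mn.one : Mn R cx cy x y 1 := Mn.of_isU IsU.one

theorem Mn.tc (hx0 : x ≠ 0) (hy0 : y ≠ 0) (a : A) : Mn R cx cy x y (S.tc cx cy x y a) := by
  rw [S.tc]
  refine Mn.mul hx0 hy0 ?_ ?_
  · split_ifs with h
    · exact Mn.fx h
    · exact Mn.one
  · split_ifs with h
    · exact Mn.fy h
    · exact Mn.one

theorem Mn.fl (hx0 : x ≠ 0) (hy0 : y ≠ 0) : Mn R cx cy x y (S.fl cx x) := by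
  cases h : cx with
  | none => exact Mn.one
  | some a => exact Mn.fx rfl

theorem Mn.fl2 (hx0 : x ≠ 0) (hy0 : y ≠ 0) : Mn R cx cy x y (S.fl cy y) := by
  cases h : cy with
  | none => exact Mn.one
  | some a => exact Mn.fy rfl

/-- Change of the coordinates in monomials. -/
theorem Mn.change {B : Subring F} {X Y : F} {cX cY : Option A'} {g : F} (hx0 : x ≠ 0) (hy0 : y ≠ 0)
    (hB : B ≤ R) (hX : ∀ a, cX = some a → Mn R cx cy x y X) (hY : ∀ a, cY = some a → Mn R cx cy x y Y)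
    (hg : Mn B cX cY X Y g) : Mn R cx cy x y g := by
  obtain ⟨i, j, hi, hj, c, hc, hc', hc0, rfl⟩ := hg
  refine Mn.mul hx0 hy0 (Mn.mul hx0 hy0 ?_ ?_) (Mn.of_isU ⟨hc0, hB hc, hB hc'⟩)
  · cases h : cX with
    | none => rw [hi h, zpow_zero]; exact Mn.one
    | some a => exact (hX a h).zpow hx0 hy0 _
  · cases h : cY with
    | none => rw [hj h, zpow_zero]; exact Mn.one
    | some a => exact (hY a h).zpow hx0 hy0 _

theorem Mn.list (hx0 : x ≠ 0) (hy0 : y ≠ 0) {T : A' → F} (h : ∀ a, Mn R cx cy x y (T a))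
    (l : List A') : Mn R cx cy x y (l.map T).prod := by
  induction l with
  | nil => rw [List.map_nil, List.prod_nil]; exact Mn.one
  | cons a l ih =>
    rw [List.map_cons, List.prod_cons]
    exact (h a).mul hx0 hy0 ih

end Mono

end Pool.Agent.H96.S
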