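import Pool.Agent.H96.S.Tra

/-!
# The transition: frames at closed points
-/

set_option autoImplicit false
set_option linter.unusedSectionVars false

namespace Pool.Agent.H96.S

open Polynomial Pool.Agent.H96.VL
open scoped Pointwise

/-- Properties of the localizations which hold in the presence of finitely many elements. -/
def FinD {F : Type} [Field F] (W' : ValuationSubring F) (B : Subring F) (Q : Subring F → Prop) :
    Prop :=
  ∃ E : Finset F, (∀ e ∈ E, e ∈ vl W' B) ∧ ∀ d ∈ B, W'.valuation d = 1 →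
    (∀ e ∈ E, e ∈ adj B d⁻¹) → Q (adj B d⁻¹)

section FinD

variable {F : Type} [Field F] {W' : ValuationSubring F} {B : Subring F} {Q Q' : Subring F → Prop}

theorem FinP.finD (h : FinP (vl W' B) fun B' => B ≤ B' → Q B') : FinD W' B Q := by
  obtain ⟨E, h1, h2⟩ := h
  exact ⟨E, h1, fun d _ _ hE => h2 _ hE le_adj⟩

theorem FinD.and (h : FinD W' B Q) (h' : FinD W' B Q') : FinD W' B fun B' => Q B' ∧ Q' B' := by
  classical
  obtain ⟨E, h1, h2⟩ := h
  obtain ⟨E', h1', h2'⟩ := h'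
  refine ⟨E ∪ E', fun e he => ?_, fun d hd hd1 hE => ⟨h2 d hd hd1 fun e he =>
    hE e (Finset.mem_union_left _ he), h2' d hd hd1 fun e he => hE e (Finset.mem_union_right _ he)⟩⟩
  rcases Finset.mem_union.mp he with he | he
  · exact h1 e he
  · exact h1' e he

theorem FinD.mono (h : FinD W' B Q)
    (hQ : ∀ d ∈ B, W'.valuation d = 1 → Q (adj B d⁻¹) → Q' (adj B d⁻¹)) : FinD W' B Q' := by
  obtain ⟨E, h1, h2⟩ := h
  exact ⟨E, h1, fun d hd hd1 hE => hQ d hd hd1 (h2 d hd hd1 hE)⟩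

theorem FinD.of (h : ∀ d ∈ B, W'.valuation d = 1 → Q (adj B d⁻¹)) : FinD W' B Q :=
  ⟨∅, fun e he => absurd he (Finset.notMem_empty e), fun d hd hd1 _ => h d hd hd1⟩

theorem FinD.mem {e : F} (he : e ∈ vl W' B) : FinD W' B fun B' => e ∈ B' :=
  (FinP.mem he |>.mono fun _ h _ => h : FinP (vl W' B) fun B' => B ≤ B' → e ∈ B').finD

theorem FinD.exists (hW : Vle W' B) (h : FinD W' B Q) : ∃ d ∈ B, W'.valuation d = 1 ∧
    Q (adj B d⁻¹) := by
  obtain ⟨E, h1, h2⟩ := h
  obtain ⟨d, hd, hd1, h3⟩ := exists_den hW E h1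
  have hd0 : d ≠ 0 := by
    rintro rfl
    rw [map_zero] at hd1
    exact zero_ne_one hd1
  exact ⟨d, hd, hd1, h2 d hd hd1 fun e he => adj_inv_of hd0 (h3 e he)⟩

theorem ne_of_one {d : F} (hd1 : W'.valuation d = 1) : d ≠ 0 := by
  rintro rfl
  rw [map_zero] at hd1
  exact zero_ne_one hd1

end FinD

/-- Frames at a closed point. -/
structure Fr (p : ℕ) {F : Type} [Field F] {A : Type} [DecidableEq A] (W' : ValuationSubring F)
    (B : Subring F) (s : Finset F) (t : A → ValuationSubring F → F) (x y : F)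
    (Dx Dy : Derivation ℤ F F) (cx cy : Option A) : Prop where
  hx : x ∈ B
  hy : y ∈ B
  cxy : ∀ a, cx = some a → cy ≠ some a
  ec : FinD W' B fun B' => EC p B' x y Dx Dy
  col : FinD W' B fun B' => ∀ a W, Vle W B' → Un (Lc s W) (t a W) (tc cx cy x y a)

section Fr

variable {p : ℕ} [hp : Fact p.Prime] {F : Type} [Field F] [CharP F p] {s : Finset F}
  {A : Type} [DecidableEq A] {t : A → ValuationSubring F → F} {W W' : ValuationSubring F}
  {B : Subring F} {x y : F} {Dx Dy : Derivation ℤ F F} {cx cy : Option A}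

theorem Fr.swap (h : Fr p W' B s t x y Dx Dy cx cy) : Fr p W' B s t y x Dy Dx cy cx where
  hx := h.hy
  hy := h.hx
  cxy := fun a ha hb => h.cxy a hb ha
  ec := h.ec.mono fun _ _ _ h => h.swap
  col := h.col.mono fun _ _ _ h a W hW => by rw [tc_swap]; exact h a W hW

theorem Fr.x0 (hW : Vle W' B) (h : Fr p W' B s t x y Dx Dy cx cy) : x ≠ 0 := by
  obtain ⟨d, hd, hd1, h1⟩ := h.ec.exists hW
  exact h1.x0

/-- Recentring. -/
theorem Fr.hf (h : Fr p W' B s t x y Dx Dy cx cy) (hW : Vle W' B) (hne : ∃ g ∈ s, g ≠ 0)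
    (hlc : ∀ W, Vle W B → B ≤ Lc s W) {x' : F} {cx' : Option A} (hf : Hf p W' x cx x' cx') :
    Fr p W' B s t x' y Dx Dy cx' cy where
  hx := hf.mem h.hx
  hy := h.hy
  cxy := fun a ha => h.cxy a (hf.some_eq ha)
  ec := h.ec.mono fun _ _ _ h => hf.ec h
  col := by
    refine (h.col.and (hf.fin hW h.hx (h.x0 hW)).finD).mono fun d hd hd1 h1 a W hWd => ?_
    obtain ⟨h2, h3⟩ := (vle_adj_inv hd (ne_of_one hd1)).mp hWd
    have h4 := hlc W h2
    have h5 : adj B d⁻¹ ≤ Lc s W := adj_le h4 ((lst_Lc hne W).loc.inv d (h4 hd) h3)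
    refine (h1.1 a W hWd).trans ?_
    rw [tc, tc]
    have h6 : Un (Lc s W) (if cy = some a then y else 1) (if cy = some a then y else 1) := by
      refine Un.refl ?_
      split_ifs
      · exact h.swap.x0 hW
      · exact one_ne_zero
    exact ((h1.2 a).mono h5).mul h6

end Fr

section Th

variable {p : ℕ} [hp : Fact p.Prime] {F : Type} [Field F] [CharP F p] {s : Finset F}
  {A : Type} [DecidableEq A] {t : A → ValuationSubring F → F} {h₀ : F}
  {P : Finset (F × F)} {W W' : ValuationSubring F}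

/-- The colours with the new colour. -/
noncomputable def tH (H : ∀ W, ∃ C : Chart p s t 1 h₀ ∅ P, Vle W C.B ∧ C.Good) :
    Option A → ValuationSubring F → F
  | none => fun W => h₀ / (H W).choose.N
  | some a => t a

variable (H : ∀ W, ∃ C : Chart p s t 1 h₀ ∅ P, Vle W C.B ∧ C.Good)

theorem tH_none (hs : ∀ g ∈ s, g ≠ 0) (h0 : h₀ ≠ 0) (C : Chart p s t 1 h₀ ∅ P) (hW : Vle W C.B)
    (hg : C.Good) : Un (Lc s W) (tH H none W) (h₀ / C.N) := by
  have h1 : tH H none W = h₀ / (H W).choose.N := rfl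
  rw [h1]
  obtain ⟨h2, h3⟩ := (H W).choose_spec
  exact (Un.refl h0).div ((H W).choose.N_un hs h2 h3 C hW hg)

/-- The case of a unit. -/
theorem fr_unit (hs : ∀ g ∈ s, g ≠ 0) (h0 : h₀ ≠ 0) (C : Chart p s t 1 h₀ ∅ P) (hW' : Vle W' C.B)
    (hg : C.Good) (hφ : W'.valuation (h₀ / C.N) = 1) :
    Fr p W' C.B s (tH H) C.x C.y C.Dx C.Dy (C.cx.map some) (C.cy.map some) where
  hx := C.ec.hx
  hy := C.ec.hy
  cxy := by
    intro a ha hb
    cases a with
    | none => exact map_some_none ha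
    | some a => exact C.cxy a (map_some_iff.mp ha) (map_some_iff.mp hb)
  ec := FinD.of fun d hd hd1 => C.ec.adj_inv hd (ne_of_one hd1)
  col := by
    have hφB : h₀ / C.N ∈ C.B := by
      have h1 := C.hu
      rwa [one_mul] at h1
    refine (FinD.mem (inv_mem_vl hφB hφ)).mono fun d hd hd1 h1 a W hWd => ?_
    obtain ⟨h2, h3⟩ := (vle_adj_inv hd (ne_of_one hd1)).mp hWd
    have hne : ∃ g ∈ s, g ≠ 0 := ⟨C.g, C.hg, hs _ C.hg⟩
    have h4 := C.lc W h2
    have h5 : adj C.B d⁻¹ ≤ Lc s W := adj_le h4 ((lst_Lc hne W).loc.inv d (h4 hd) h3)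
    cases a with
    | none =>
      rw [tc_map_none]
      refine (tH_none H hs h0 C h2 hg).trans ?_
      exact Un.of_unit (h4 hφB) (h5 h1) (ne_of_one hφ)
    | some a =>
      rw [tc_map_some]
      exact C.col a W h2

theorem Chart.log_eq {ε f : F} {G : Finset F} (C : Chart p s t ε f G P) (hf0 : f ≠ 0) :
    fl C.cx C.x * C.Dx f / C.N = C.al * (f / C.N) + fl C.cx C.x * C.Dx (f / C.N) := by
  have hx0 := C.ec.x0
  have hy0 := C.ec.y0
  have hN0 := C.N0
  have h1 : fl C.cx C.x * C.Dx C.N = C.al * C.N := by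
    have h2 : C.Dx (C.y ^ C.be) = 0 := by
      rw [Derivation.leibniz_zpow, C.ec.xy, smul_zero, smul_zero]
    rw [N, Derivation.leibniz, h2, smul_zero, zero_add, Derivation.leibniz_zpow, C.ec.xx]
    cases hc : C.cx with
    | none =>
      rw [C.al0 hc]
      simp
    | some a =>
      show C.x * _ = _
      rw [smul_eq_mul, smul_eq_mul, mul_one, zsmul_eq_mul, zpow_sub_one₀ hx0]
      field_simp
  have h2 : f = C.N * (f / C.N) := by rw [mul_div_cancel₀ _ hN0]
  have h3 : C.Dx f = C.N * C.Dx (f / C.N) + f / C.N * C.Dx C.N :=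
    (congrArg C.Dx h2).trans (by rw [Derivation.leibniz, smul_eq_mul, smul_eq_mul])
  rw [div_eq_iff hN0, h3]
  linear_combination (f / C.N) * h1

/-- The case of a coordinate. -/
theorem fr_coord (hs : ∀ g ∈ s, g ≠ 0) (h0 : h₀ ≠ 0) (C : Chart p s t 1 h₀ ∅ P) (hW' : Vle W' C.B)
    (hg : C.Good) (hφ : W'.valuation (h₀ / C.N) < 1)
    (hv : W'.valuation (fl C.cx C.x * C.Dx h₀ / C.N) = 1) :
    ∃ D₁ D₂ : Derivation ℤ F F,
      Fr p W' C.B s (tH H) (h₀ / C.N) C.y D₁ D₂ (some none) (C.cy.map some) := by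
  have hφB : h₀ / C.N ∈ C.B := by
    have h1 := C.hu
    rwa [one_mul] at h1
  set φ := h₀ / C.N with hφd
  have hflB : fl C.cx C.x ∈ C.B := fl_mem C.ec.hx
  have hDB : C.Dx φ ∈ C.B := C.ec.dx _ hφB
  have h1 : W'.valuation (fl C.cx C.x * C.Dx φ) = 1 := by
    have h2 := C.log_eq h0
    have h3 : fl C.cx C.x * C.Dx φ = fl C.cx C.x * C.Dx h₀ / C.N - C.al * φ := by
      rw [h2]; ring
    have h4 : W'.valuation (C.al * φ) < W'.valuation (fl C.cx C.x * C.Dx h₀ / C.N) := by
      rw [hv, map_mul]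
      exact (mul_le_mul' (hW' _ (intCast_mem C.B _)) le_rfl).trans_lt (by rw [one_mul]; exact hφ)
    rw [h3, W'.valuation.map_sub_eq_of_lt_left h4, hv]
  have h2 : W'.valuation (C.Dx φ) = 1 := by
    refine le_antisymm (hW' _ hDB) (not_lt.mp fun h3 => ?_)
    rw [map_mul] at h1
    have h4 : W'.valuation (fl C.cx C.x) * W'.valuation (C.Dx φ) < 1 :=
      (mul_le_mul' (hW' _ hflB) le_rfl).trans_lt (by rw [one_mul]; exact h3)
    rw [h1] at h4
    exact lt_irrefl _ h4
  have h3 : W'.valuation (fl C.cx C.x) = 1 := by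
    rwa [map_mul, h2, mul_one] at h1
  have hD0 : C.Dx φ ≠ 0 := ne_of_one h2
  refine ⟨(C.Dx φ)⁻¹ • C.Dx, C.Dy - (C.Dy φ * (C.Dx φ)⁻¹) • C.Dx, ?_⟩
  refine ⟨hφB, C.ec.hy, ?_, ?_, ?_⟩
  · intro a ha hb
    rw [Option.some_inj] at ha
    rw [← ha] at hb
    exact map_some_none hb
  · refine (FinD.mem (inv_mem_vl hDB h2)).mono fun d hd hd1 h4 => ?_
    exact ((C.ec.adj_inv hd (ne_of_one hd1)).swap.change (le_adj hφB) h4 hD0).swap
  · refine (FinD.mem (inv_mem_vl hflB h3)).mono fun d hd hd1 h4 a W hWd => ?_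
    obtain ⟨h5, h6⟩ := (vle_adj_inv hd (ne_of_one hd1)).mp hWd
    have hne : ∃ g ∈ s, g ≠ 0 := ⟨C.g, C.hg, hs _ C.hg⟩
    have h7 := C.lc W h5
    have h8 : adj C.B d⁻¹ ≤ Lc s W := adj_le h7 ((lst_Lc hne W).loc.inv d (h7 hd) h6)
    cases a with
    | none =>
      have h9 : tc (some none) (C.cy.map some) φ C.y (none : Option A) = φ := by
        rw [tc, if_pos rfl, if_neg map_some_none, mul_one]
      rw [h9]
      exact tH_none H hs h0 C h5 hg
    | some a =>
      have h9 : tc (some none) (C.cy.map some) φ C.y (some a) =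
          1 * if C.cy = some a then C.y else 1 := by
        rw [tc, if_neg (by intro h; rw [Option.some_inj] at h; cases h)]
        simp only [map_some_iff]
      rw [h9]
      refine (C.col a W h5).trans ?_
      rw [tc]
      refine Un.mul ?_ (Un.refl ?_)
      · by_cases h10 : C.cx = some a
        · rw [if_pos h10]
          have h11 : fl C.cx C.x = C.x := by rw [h10]; rfl
          rw [h11] at h4
          exact Un.of_unit (h7 C.ec.hx) (h8 h4) C.ec.x0
        · rw [if_neg h10]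
          exact Un.refl one_ne_zero
      · split_ifs
        · exact C.ec.y0
        · exact one_ne_zero

theorem Chart.N_swap {ε f : F} {G : Finset F} (C : Chart p s t ε f G P) : C.swap.N = C.N :=
  mul_comm _ _

/-- **Existence of frames.** -/
theorem exists_frame (hs : ∀ g ∈ s, g ≠ 0) (h0 : h₀ ≠ 0) (C : Chart p s t 1 h₀ ∅ P)
    (hW' : Vle W' C.B) (hclo : Clo p W' C.B) (hg : C.Good) :
    ∃ (x y : F) (Dx Dy : Derivation ℤ F F) (cx cy : Option (Option A)),
      Fr p W' C.B s (tH H) x y Dx Dy cx cy ∧ W'.valuation x < 1 ∧ W'.valuation y < 1 := by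
  have hne : ∃ g ∈ s, g ≠ 0 := ⟨C.g, C.hg, hs _ C.hg⟩
  -- recentring of both coordinates
  have key : ∀ (x y : F) (Dx Dy : Derivation ℤ F F) (cx cy : Option (Option A)),
      Fr p W' C.B s (tH H) x y Dx Dy cx cy →
      ∃ (x y : F) (Dx Dy : Derivation ℤ F F) (cx cy : Option (Option A)),
      Fr p W' C.B s (tH H) x y Dx Dy cx cy ∧ W'.valuation x < 1 ∧ W'.valuation y < 1 := by
    intro x y Dx Dy cx cy h
    obtain ⟨x', cx', hfx⟩ := exists_hf hW' hclo h.hx cx
    have h1 := h.hf hW' hne C.lc hfx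
    obtain ⟨y', cy', hfy⟩ := exists_hf hW' hclo h.hy cy
    have h2 := (h1.swap.hf hW' hne C.lc hfy).swap
    exact ⟨x', y', Dx, Dy, cx', cy', h2, hfx.v, hfy.v⟩
  have hφB : h₀ / C.N ∈ C.B := by
    have h1 := C.hu
    rwa [one_mul] at h1
  rcases lt_or_eq_of_le (hW' _ hφB) with hφ | hφ
  · obtain ⟨b, hb, c, hc, d, hd, h1⟩ := C.mem_L.mp hg
    have h2 : W'.valuation (fl C.cx C.x * C.Dx h₀ / C.N) = 1 ∨
        W'.valuation (fl C.cy C.y * C.Dy h₀ / C.N) = 1 := by
      by_contra hcon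
      push Not at hcon
      have hv := lt_of_le_of_ne (hW' _ C.hv) hcon.1
      have hw := lt_of_le_of_ne (hW' _ C.hw) hcon.2
      have h3 : W'.valuation (1 : F) < 1 := by
        rw [h1]
        refine W'.valuation.map_add_lt (W'.valuation.map_add_lt ?_ ?_) ?_
        · rw [map_mul, one_mul]
          exact (mul_le_mul' le_rfl (hW' _ hb)).trans_lt (by rw [mul_one]; exact hφ)
        · rw [map_mul]
          exact (mul_le_mul' le_rfl (hW' _ hc)).trans_lt (by rw [mul_one]; exact hv)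
        · rw [map_mul]
          exact (mul_le_mul' le_rfl (hW' _ hd)).trans_lt (by rw [mul_one]; exact hw)
      rw [map_one] at h3
      exact lt_irrefl _ h3
    rcases h2 with h2 | h2
    · obtain ⟨D₁, D₂, h3⟩ := fr_coord H hs h0 C hW' hg hφ h2
      exact key _ _ _ _ _ _ h3
    · obtain ⟨D₁, D₂, h3⟩ := fr_coord H hs h0 C.swap hW' (C.good_swap hg)
        (by rw [C.N_swap]; exact hφ) (by rw [C.N_swap]; exact h2)
      exact key _ _ _ _ _ _ h3
  · exact key _ _ _ _ _ _ (fr_unit H hs h0 C hW' hg hφ)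

end Th

end Pool.Agent.H96.S
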